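import Mathlib

set_option autoImplicit false

/-!
# PCW: exact asymptotics of the number of prime circles (MP_ec65ab_co)

Owner: helper8.  Paper: /team-store/PCW_paper.md (section numbers refer to it).
-/

namespace Pool.Agent.PCW

open Finset Filter MeasureTheory Matrix

/-- the `2 m` vertices (`inl i`: odd numbers, `inr j`: even numbers) -/
abbrev V (m : ℕ) : Type := Fin m ⊕ Fin m

/-- `ω` consists of one cycle (fixed points are cycles) -/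
def Cyc {ι : Type} (ω : Equiv.Perm ι) : Prop := ∀ x y, ω.SameCycle x y

open scoped Classical in
/-- weighted number of the pairs `(σ, τ)` of permutations for which `σ⁻¹ τ` is one cycle -/
noncomputable def ham {m : ℕ} (B : Matrix (Fin m) (Fin m) ℝ) : ℝ :=
  ∑ σ : Equiv.Perm (Fin m), ∑ τ : Equiv.Perm (Fin m),
    if Cyc (σ⁻¹ * τ) then (∏ i, B i (σ i)) * ∏ i, B i (τ i) else 0

/-- the hypotheses on `E` -/
structure Hyp (C : ℝ) (m : ℕ) (E : Matrix (Fin m) (Fin m) ℝ) : Prop where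
  symm : ∀ i j, E i j = E j i
  row : ∀ i, ∑ j, E i j = 0
  sq : ∀ i, ∑ j, E i j ^ 2 ≤ C * Real.log m / m
  norm : ∀ f : Fin m → ℝ, |∑ i, ∑ j, f i * f j * E i j| ≤ 0.53 * ∑ i, f i ^ 2
  four : ∑ i, ∑ j, (E * E) i j ^ 2 ≤ C

/-- spectral data of `E` -/
structure Sp (C : ℝ) (m : ℕ) (E : Matrix (Fin m) (Fin m) ℝ) (e : Fin m → Fin m → ℝ)
    (l : Fin m → ℝ) : Prop where
  orth : ∀ a b, ∑ i, e a i * e b i = if a = b then 1 else 0
  comp : ∀ i j, ∑ a, e a i * e a j = if i = j then 1 else 0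
  dec : ∀ i j, E i j = ∑ a, l a * e a i * e a j
  small : ∀ a, |l a| ≤ 0.53
  one : ∀ a, l a ≠ 0 → ∑ i, e a i = 0
  two : ∑ a, l a ^ 2 ≤ C * Real.log m
  four : ∑ a, l a ^ 4 ≤ C
  diag : ∀ i, ∑ a, l a ^ 2 * e a i ^ 2 ≤ C * Real.log m / m

/-- `B = E + J / m` -/
noncomputable def BB {m : ℕ} (E : Matrix (Fin m) (Fin m) ℝ) : Matrix (Fin m) (Fin m) ℝ :=
  fun i j => E i j + 1 / (m : ℝ)

/-- the bipartite double of `E` -/
noncomputable def Eb {m : ℕ} (E : Matrix (Fin m) (Fin m) ℝ) : Matrix (V m) (V m) ℝ :=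
  Matrix.fromBlocks 0 E E 0

/-- the bipartite double of `B` -/
noncomputable def Bb {m : ℕ} (E : Matrix (Fin m) (Fin m) ℝ) : Matrix (V m) (V m) ℝ :=
  Matrix.fromBlocks 0 (BB E) (BB E) 0

/-- `Δ = det (1 - E^2)` -/
noncomputable def Dl {m : ℕ} (E : Matrix (Fin m) (Fin m) ℝ) : ℝ := (1 - E * E).det

/-! ### The measures -/

/-- the uniform probability measure on the angles `(0, 2π]` -/
noncomputable def nu : Measure ℝ :=
  ENNReal.ofReal (1 / (2 * Real.pi)) • (volume.restrict (Set.Ioc 0 (2 * Real.pi)))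

/-- the probability measure with the density `1 + cos θ` -/
noncomputable def nu2 : Measure ℝ := nu.withDensity fun θ => ENNReal.ofReal (1 + Real.cos θ)

/-- independent angles -/
noncomputable def PP (ι : Type) [Fintype ι] : Measure (ι → ℝ) := Measure.pi fun _ => nu2

/-- the point `ρ e^{iθ}` -/
noncomputable def pt (ρ θ : ℝ) : ℂ := ρ * Complex.exp (θ * Complex.I)

/-- the complex density on the circle of radius `ρ` -/
noncomputable def cw (ρ θ : ℝ) : ℂ :=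
  1 + Complex.exp (-(θ * Complex.I)) / ρ + ρ / 4 * Complex.exp (θ * Complex.I)

/-- the mass of `|cw ρ|` -/
noncomputable def mu (ρ : ℝ) : ℝ := 1 / ρ + ρ / 4

/-- the functional `J_r` -/
noncomputable def JJ {ι : Type} [Fintype ι] (r : ι → ℝ) (F : (ι → ℂ) → ℂ) : ℂ :=
  ∫ θ : ι → ℝ, (∏ v, cw (r v) (θ v)) * F (fun v => pt (r v) (θ v)) ∂(Measure.pi fun _ => nu)

/-- the point of the product of circles of radius `2` with the angles `θ` -/
noncomputable def xx {ι : Type} (θ : ι → ℝ) : ι → ℂ := fun v => pt 2 (θ v)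

/-! ### The polynomial -/

/-- `ξ = Ē x` -/
noncomputable def xi {m : ℕ} (E : Matrix (Fin m) (Fin m) ℝ) (x : V m → ℂ) (v : V m) : ℂ :=
  ∑ w, (Eb E v w : ℂ) * x w

/-- one-sided version: `E x` -/
noncomputable def xj {m : ℕ} (E : Matrix (Fin m) (Fin m) ℝ) (x : Fin m → ℂ) (i : Fin m) : ℂ :=
  ∑ j, (E i j : ℂ) * x j

/-- `α` on the left, `β` on the right -/
def al {m : ℕ} (α β : ℝ) : V m → ℝ := Sum.elim (fun _ => α) (fun _ => β)

/-- `d_v = α_v + ξ_v` -/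
noncomputable def dv {m : ℕ} (E : Matrix (Fin m) (Fin m) ℝ) (α β : ℝ) (x : V m → ℂ) (v : V m) : ℂ :=
  (al α β v : ℂ) + xi E x v

/-- `L = D - B̄ X` -/
noncomputable def LL {m : ℕ} (E : Matrix (Fin m) (Fin m) ℝ) (α β : ℝ) (x : V m → ℂ) :
    Matrix (V m) (V m) ℂ :=
  Matrix.diagonal (dv E α β x) - (Bb E).map (fun r : ℝ => (r : ℂ)) * Matrix.diagonal x

/-- `L₀ = D - Ē X` -/
noncomputable def L0 {m : ℕ} (E : Matrix (Fin m) (Fin m) ℝ) (α β : ℝ) (x : V m → ℂ) :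
    Matrix (V m) (V m) ℂ :=
  Matrix.diagonal (dv E α β x) - (Eb E).map (fun r : ℝ => (r : ℂ)) * Matrix.diagonal x

/-- `Ψ = tr (D adj L) - 2 m det L` -/
noncomputable def Psi {m : ℕ} (E : Matrix (Fin m) (Fin m) ℝ) (α β : ℝ) (x : V m → ℂ) : ℂ :=
  (Matrix.diagonal (dv E α β x) * (LL E α β x).adjugate).trace - 2 * m * (LL E α β x).det

/-- `H(α, β) = E Ψ` -/
noncomputable def HH {m : ℕ} (E : Matrix (Fin m) (Fin m) ℝ) (α β : ℝ) : ℂ :=
  JJ (fun _ => 2) (Psi E α β)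

/-- `δ = m^{-2/5}` -/
noncomputable def dl (m : ℕ) : ℝ := (m : ℝ) ^ (-(2 / 5) : ℝ)

/-- the rate function -/
noncomputable def gg (α : ℝ) : ℝ := min ((α - 1) ^ 2) |α - 1|

/-- `V = √t Ē (1 - √t Ē)⁻¹` -/
noncomputable def VV {m : ℕ} (E : Matrix (Fin m) (Fin m) ℝ) (t : ℝ) : Matrix (V m) (V m) ℝ :=
  (√t • Eb E) * (1 - √t • Eb E)⁻¹

/-- the Frobenius norm -/
noncomputable def frob {ι : Type} [Fintype ι] (A : Matrix ι ι ℂ) : ℝ := √(∑ i, ∑ j, ‖A i j‖ ^ 2)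

/-- the good event (4.) -/
structure Good {m : ℕ} (E : Matrix (Fin m) (Fin m) ℝ) (α β : ℝ) (x : V m → ℂ) : Prop where
  a : ∀ v, ‖xi E x v‖ ≤ dl m
  b : frob ((Eb E).map (fun r : ℝ => (r : ℂ)) * Matrix.diagonal (fun v => x v - 1) *
    (Eb E).map (fun r : ℝ => (r : ℂ))) ≤ dl m
  c : ‖∑ v, (VV E (1 / (α * β)) v v : ℂ) * (x v - 1)‖ ≤ dl m
  d : ‖∑ v, ∑ w, (VV E (1 / (α * β)) v w : ℂ) ^ 2 * (x v - 1) * (x w - 1)‖ ≤ dl m
  e : ‖∑ i, (x (Sum.inl i) - 1)‖ ≤ (m : ℝ) ^ (3 / 5 : ℝ)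
  f : ‖∑ i, (x (Sum.inr i) - 1)‖ ≤ (m : ℝ) ^ (3 / 5 : ℝ)

end Pool.Agent.PCW
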