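import Mathlib
import Pool.Agent.PCW.Defs

set_option autoImplicit false

/-!
# PCW: statements of the analytic part

Section numbers refer to /team-store/PCW_paper.md.  Every statement has its proof in the docstring.
In all `∀ᶠ m` statements the threshold depends on `C` only.
-/

namespace Pool.Agent.PCW

open Finset Filter MeasureTheory Matrix

/-! ### Block L: the law -/

/-- [Law] basic facts on the measures.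

(1)-(2) `nu`, `nu2` are probability measures (`∫ cos = 0` over `(0, 2π]`).
(3) `cw ρ θ = (1/ρ) e^{-iθ} (1 + (ρ/2) e^{iθ})^2`, so the norm is
`(1/ρ) (1 + ρ²/4 + ρ cos θ) = mu ρ + cos θ`.
(4) moments: `(ρ e^{iθ})^k (1 + e^{-iθ}/ρ + (ρ/4) e^{iθ})` has mean `1` for `k = 0`, `1` for `k = 1`,
`0` for `k ≥ 2` (`∫ e^{inθ} dν = 0` for `n ≥ 1`).
(5) `cw 2 θ = 1 + cos θ`, so `∫ F(2e^{iθ}) dν₂ = ∫ F(2e^{iθ}) cw 2 θ dν`.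
(6) `∫ exp(i u 2 e^{iθ}) dν₂ = 1 + i u`: power series of `exp`, termwise by (4), (5) (dominated
convergence, `|u|^k 2^k / k!`). -/
def St_Law : Prop :=
  IsProbabilityMeasure nu ∧ IsProbabilityMeasure nu2 ∧
  (∀ ρ θ : ℝ, 0 < ρ → ‖cw ρ θ‖ = mu ρ + Real.cos θ) ∧
  (∀ (ρ : ℝ) (k : ℕ), 0 < ρ → ∫ θ, pt ρ θ ^ k * cw ρ θ ∂nu = if k ≤ 1 then 1 else 0) ∧
  (∀ F : ℂ → ℂ, Continuous F → ∫ θ, F (pt 2 θ) ∂nu2 = ∫ θ, F (pt 2 θ) * cw 2 θ ∂nu) ∧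
  (∀ u : ℝ, ∫ θ, Complex.exp (Complex.I * u * pt 2 θ) ∂nu2 = 1 + Complex.I * u)

/-- [Bes] (1.3), the inequality for the Bessel functions.

`c = |c| e^{iφ}`, `r = ρ|c|`, `u = r²/4`.  The left side is `μ I₀(r) + cos φ I₁(r)` with
`I₀(r) = ∫ e^{r cos θ} dν = ∑ u^k/k!²`, `I₁(r) = ∫ cos θ e^{r cos θ} dν = √u q`, `q = ∑ u^k/(k!(k+1)!)`
(after the rotation `θ → θ + φ`; `∫ sin θ e^{r cos θ} dν = 0`).  `I₀ ≤ q (1 + u/2)` because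
`1/k!² = 1/(k!(k+1)!) + k/(k!(k+1)!)` and `k/(k!(k+1)!) = 1/((k-1)!(k+1)!) ≤ (1/2) /((k-1)! k!)`;
`q ≤ e^{u/2}` because `(k+1)! ≥ 2^k`.
So LHS `≤ q μ (1 + u/2 + cos φ √u/μ) ≤ μ e^{u/2} e^{u/2 + cos φ √u/μ}` and `cos φ √u = ρ Re c/2`. -/
def St_Bes : Prop := ∀ (ρ : ℝ) (c : ℂ), 0 < ρ →
  ∫ θ, Real.exp ((starRingEnd ℂ c * pt ρ θ).re) * ‖cw ρ θ‖ ∂nu ≤
    mu ρ * Real.exp (ρ ^ 2 * ‖c‖ ^ 2 / 4 + ρ * c.re / (2 * mu ρ))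

/-- [Jpp] for radius `2` the functional is the expectation with respect to `PP`.

`Measure.pi nu2` has the density `∏ (1 + cos θ_v) = ∏ cw 2 θ_v` with respect to `Measure.pi nu`
(check on boxes, or `Measure.pi_withDensity`-like lemma by `Measure.pi_eq`). -/
def St_Jpp : Prop := ∀ (ι : Type) [Fintype ι] (F : (ι → ℂ) → ℂ), Continuous F →
  JJ (fun _ : ι => 2) F = ∫ θ, F (xx θ) ∂(PP ι)

/-- [Fub] the two sides are independent.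

`MeasureTheory.measurePreserving_sumPiEquivProdPi` and `integral_prod_mul`. -/
def St_Fub : Prop := ∀ (m : ℕ) (μ : Measure ℝ) [IsProbabilityMeasure μ],
  (∀ F G : (Fin m → ℝ) → ℂ,
    ∫ θ : V m → ℝ, F (fun i => θ (Sum.inl i)) * G (fun i => θ (Sum.inr i)) ∂(Measure.pi fun _ => μ) =
      (∫ θ, F θ ∂(Measure.pi fun _ => μ)) * ∫ θ, G θ ∂(Measure.pi fun _ => μ)) ∧
  (∀ F G : (Fin m → ℝ) → ℝ,
    ∫ θ : V m → ℝ, F (fun i => θ (Sum.inl i)) * G (fun i => θ (Sum.inr i)) ∂(Measure.pi fun _ => μ) =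
      (∫ θ, F θ ∂(Measure.pi fun _ => μ)) * ∫ θ, G θ ∂(Measure.pi fun _ => μ))

/-- [Bdd] the inequality of bounded differences (McDiarmid), weak constant.

`f` is bounded (`|f θ - f θ'| ≤ ∑ c`).  Induction on the number of variables (or Doob martingale):
`∫ exp(s (f - E f)) ≤ exp(s² ∑ c_v²/2)`: integrating out one variable `v`, the function
`y ↦ f (update θ v y)` differs from its mean by at most `c_v`, and `E e^{sY} ≤ e^{s²c²/2}` for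
`|Y| ≤ c`, `E Y = 0` (Hoeffding, `cosh x ≤ e^{x²/2}`); the mean over `y` has again bounded
differences in the other variables.  Then Markov with `s = t/∑ c²`. -/
def St_Bdd : Prop := ∀ (ι : Type) [Fintype ι] [DecidableEq ι] (μ : Measure ℝ)
  [IsProbabilityMeasure μ] (f : (ι → ℝ) → ℝ) (c : ι → ℝ), Measurable f →
  (∀ θ v y, |f (Function.update θ v y) - f θ| ≤ c v) → ∀ t : ℝ, 0 ≤ t →
  (Measure.pi fun _ : ι => μ).real {θ | t ≤ f θ - ∫ θ', f θ' ∂(Measure.pi fun _ : ι => μ)} ≤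
    Real.exp (-(t ^ 2 / (2 * ∑ v, c v ^ 2)))

/-- [Spe] spectral data.

Spectral theorem (`Matrix.IsHermitian.eigenvectorBasis`).  `|l a| ≤ .53` from `Hyp.norm` with
`f = e a`.  `E 1 = 0` gives `l a ⟨e a, 1⟩ = 0`.  `∑ l² = ∑ E_ij² ≤ m (C log m/m)`;
`∑ l⁴ = ∑ ((E²)_ij)²`; `∑_a l_a² e_a(i)² = (E²)_ii = ∑_j E_ij²`; `det(1-E²) = ∏ (1 - l²)`.
The last part is the norm identity `∑_i |(E y)_i|² = ∑_a l_a² |⟨e_a, y⟩|²`. -/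
def St_Spe : Prop := ∀ (C : ℝ) (m : ℕ) (E : Matrix (Fin m) (Fin m) ℝ), 1 ≤ m → Hyp C m E →
  ∃ (e : Fin m → Fin m → ℝ) (l : Fin m → ℝ), Sp C m E e l ∧ Dl E = ∏ a, (1 - l a ^ 2) ∧
    (∀ t : ℝ, ((1 : Matrix (Fin m) (Fin m) ℝ) - t • (E * E)).det = ∏ a, (1 - t * l a ^ 2)) ∧
    (∀ y : Fin m → ℝ, ∑ i, (∑ j, E i j * y j) ^ 2 = ∑ a, l a ^ 2 * (∑ j, e a j * y j) ^ 2) ∧
    (∀ y : Fin m → ℂ, ∑ i, ‖xj E y i‖ ^ 2 = ∑ a, l a ^ 2 * ‖∑ j, (e a j : ℂ) * y j‖ ^ 2) ∧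
    (∀ y : Fin m → ℂ, ∑ i, xj E y i ^ 2 = ∑ a, (l a : ℂ) ^ 2 * (∑ j, (e a j : ℂ) * y j) ^ 2)

/-- [Exm] (3.3), exponential moments of `|E x|²`.

`|Ex|² = ∑ l_a² |⟨e_a,x⟩|²`, and `exp(k l²|y|²) = ∫∫ exp(Re(√(2k) l (g - i h) y)) dγ(g) dγ(h)`
(`gaussianReal 0 1`, mgf `e^{s²/2}`).  So the integrand is the Gaussian mean of
`exp(Re ∑_j conj(c_j) x_j)`, `c_j = √(2k) ∑_a l_a (g_a + i h_a) e_a(j)`; `∑_j c_j = 0` by `Sp.one`,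
`∑_j |c_j|² = 2k ∑ l_a² (g_a² + h_a²)` by `Sp.orth`.  Tonelli, `St_Bes` for every `j` (product of the
bounds: `mu^m exp((ρ²k/2) ∑ l²(g²+h²) + 0)`), and `∫ exp(t g²/2) dγ = (1-t)^{-1/2}`,
`t = ρ² k l_a² < 1`, once for `g_a` and once for `h_a`. -/
def St_Exm : Prop := ∀ (C : ℝ) (m : ℕ) (E : Matrix (Fin m) (Fin m) ℝ) (e : Fin m → Fin m → ℝ)
  (l : Fin m → ℝ), Sp C m E e l → ∀ ρ k : ℝ, 0 < ρ → 0 ≤ k → (∀ a, ρ ^ 2 * k * l a ^ 2 < 1) →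
  ∫ θ : Fin m → ℝ, Real.exp (k * ∑ i, ‖xj E (fun j => pt ρ (θ j)) i‖ ^ 2) * ∏ j, ‖cw ρ (θ j)‖
      ∂(Measure.pi fun _ => nu) ≤
    mu ρ ^ m * ∏ a, (1 - ρ ^ 2 * k * l a ^ 2)⁻¹

/-- [Exp] consequence of `St_Exm`, `St_Spe` for `ρ = 2`: polynomial bound.

`‖cw 2 θ‖ = 1 + cos θ`, so the integral with respect to `PP` is the one of `St_Exm` with `ρ = 2`,
`mu 2 = 1`; `4 k l² ≤ 4 (.8) (.2809) ≤ .9`, `(1-x)⁻¹ ≤ exp(10 x)` for `0 ≤ x ≤ .9`, sum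
`≤ 32 C log m`. -/
def St_Exp : Prop := ∀ C : ℝ, 0 < C → ∃ C' : ℕ, ∀ᶠ m : ℕ in atTop,
  ∀ E : Matrix (Fin m) (Fin m) ℝ, Hyp C m E → ∀ k : ℝ, 0 ≤ k → k ≤ 0.8 →
  ∫ θ, Real.exp (k * ∑ i, ‖xj E (xx θ) i‖ ^ 2) ∂(PP (Fin m)) ≤ (m : ℝ) ^ C'

/-! ### Block I: the identity -/

/-- [Tog] (2., (iii)) the signed sum over pairs of disjoint permutations.

`sgn π (-1)^{|supp π|} = (-1)^{#cycles of π}`.  Write `ω = π κ`; the weight is `∏_v A v (ω v)`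
(on `supp π` `ω = π`, outside `ω = κ`); if `κ` has a fixed point outside `supp π` or, equivalently,
`ω` has a fixed point, then the product has a factor `A v v = 0`.  For `ω` without fixed points
the `π` are the products of some of the cycles of `ω`.  `|supp π| = ∑_v [v ∈ supp π]`, and for fixed
`v` the sum of `(-1)^{#cycles}` over the sets of cycles that contain the cycle of `v` is `0` if there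
is another cycle and `-1` if `ω` is one cycle. -/
def St_Tog : Prop := ∀ (ι : Type) [Fintype ι] [DecidableEq ι] (A : Matrix ι ι ℝ),
  (∀ v, A v v = 0) →
  ∑ π : Equiv.Perm ι, ∑ κ : Equiv.Perm ι, (open scoped Classical in
    if Equiv.Perm.Disjoint π κ then
      ((Equiv.Perm.sign π : ℤ) : ℝ) * (-1) ^ π.support.card * π.support.card *
        (∏ v ∈ π.support, A v (π v)) * ∏ v ∈ π.supportᶜ, A v (κ v) else 0) =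
  -(Fintype.card ι : ℝ) * ∑ ω : Equiv.Perm ι, (open scoped Classical in
    if Cyc ω then ∏ v, A v (ω v) else 0)

/-- [Psx] (2., (i)) expansion of `Ψ`.

`L_vv = d_v` (`Bb` has zero diagonal), so `d_v adj(L)_vv = ∑_{π v = v} sgn π ∏_u L_{π(u) u}` and
`Ψ = -∑_π sgn π |supp π| ∏_u L_{π(u) u}`; `L_{π(u) u} = -Bb (π u) u x_u` for `π u ≠ u`. -/
def St_Psx : Prop := ∀ (m : ℕ) (E : Matrix (Fin m) (Fin m) ℝ) (α β : ℝ) (x : V m → ℂ),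
  Psi E α β x = -∑ π : Equiv.Perm (V m), ((Equiv.Perm.sign π : ℤ) : ℂ) * π.support.card *
    (-1) ^ π.support.card * (∏ v ∈ π.support, (Bb E (π v) v : ℂ)) *
      ((∏ v ∈ π.support, x v) * ∏ v ∈ π.supportᶜ, dv E α β x v)

/-- [Rad] (2.1) the functional does not depend on the radii.

By `St_Psx` it is enough to treat `(∏_{v ∉ S} x_v) ∏_{v ∈ S} (α_v + ∑_w Ē_vw x_w)`; expand the product
(`Finset.prod_add`, `Finset.prod_univ_sum`) into monomials `∏ x_v^{k_v}`, for which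
`J_r = ∏ [k_v ≤ 1]` (`integral_fintype_prod_eq_prod` and `St_Law` (4)). -/
def St_Rad : Prop := ∀ (m : ℕ) (E : Matrix (Fin m) (Fin m) ℝ) (α β : ℝ) (r : V m → ℝ),
  (∀ v, 0 < r v) → JJ r (Psi E α β) = HH E α β

/-- [Prm] (2., (ii)) the functional gives permanents.

For balanced `S`, `n = |S ∩ L| = |S ∩ R|`.  The integrand is the product of a function of
(`a`, the variables on `R`) and one of (`b`, the variables on `L`).  One side (rows `I` = `S ∩ L`,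
columns `K` = `S ∩ R`): expanding, with the moments `[k ≤ 1]`,
`J ∏_{i ∈ I} (a/m + ∑_j E_ij x_j) ∏_{j ∉ K} x_j = ∑_{P ⊆ I} (a/m)^{n-|P|} ∑_{f : P → K inj} ∏ E_{i f(i)}`,
`∫ e^{-a} (a/m)^k da = k!/m^k`, and `∑_{e : I ≃ K} ∏ (1/m + E_{i e(i)})` is the same sum
(`(n-|P|)!` bijections extend `f`).  On the right side of the statement the permutations `κ` with
non-zero weight map `S ∩ L` onto `S ∩ R` and `S ∩ R` onto `S ∩ L`. -/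
def St_Prm : Prop := ∀ (m : ℕ) (E : Matrix (Fin m) (Fin m) ℝ) (S : Finset (V m)), 1 ≤ m →
  (S.filter (fun v => v.isLeft)).card = (S.filter (fun v => v.isRight)).card →
  IntegrableOn (fun p : ℝ × ℝ => (Real.exp (-p.1 - p.2) : ℂ) *
    JJ (fun _ => 2) (fun x => (∏ v ∈ Sᶜ, x v) * ∏ v ∈ S, dv E (p.1 / m) (p.2 / m) x v))
    (Set.Ioi 0 ×ˢ Set.Ioi 0) ∧
  ∫ p in Set.Ioi (0 : ℝ) ×ˢ Set.Ioi (0 : ℝ), (Real.exp (-p.1 - p.2) : ℂ) *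
    JJ (fun _ => 2) (fun x => (∏ v ∈ Sᶜ, x v) * ∏ v ∈ S, dv E (p.1 / m) (p.2 / m) x v) =
  ((∑ κ : Equiv.Perm (V m), (open scoped Classical in
    if ∀ v, v ∉ S → κ v = v then ∏ v ∈ S, Bb E v (κ v) else 0) : ℝ) : ℂ)

/-- [Idn] (2.2) the identity.

`St_Psx`, linearity, `St_Prm` with `S` = complement of `supp π` (if `∏ Bb (π v) v ≠ 0` then `π` maps
`L ∩ supp` onto `R ∩ supp`, so `S` is balanced), `St_Tog` for `A = Bb E` (symmetric because `E` is;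
zero diagonal), `card = 2m`, and `∑_{ω : V one cycle} ∏ Bb v (ω v) = ham (BB E)`: `ω` with non-zero
weight is a pair of bijections `σ : L → R`, `τ' : R → L`, `τ = τ'⁻¹`, and `ω` is one cycle iff
`τ⁻¹ σ` is (and `σ⁻¹τ` is its inverse). -/
def St_Idn : Prop := ∀ (m : ℕ) (E : Matrix (Fin m) (Fin m) ℝ), 1 ≤ m → (∀ i j, E i j = E j i) →
  IntegrableOn (fun p : ℝ × ℝ => (Real.exp (-p.1 - p.2) : ℂ) * HH E (p.1 / m) (p.2 / m))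
    (Set.Ioi 0 ×ˢ Set.Ioi 0) ∧
  ∫ p in Set.Ioi (0 : ℝ) ×ˢ Set.Ioi (0 : ℝ), (Real.exp (-p.1 - p.2) : ℂ) *
    HH E (p.1 / m) (p.2 / m) = ((2 * m * ham (BB E) : ℝ) : ℂ)

/-! ### Block F: the far region -/

/-- [Had] the inequality of Hadamard.

For `M` with a zero row trivial.  Otherwise normalise the rows; `det(M M^*) ≤ (tr/n)^n` (AM-GM for the
eigenvalues of the positive semidefinite matrix `M M^*`).  (There may be a real version in the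
pool: `Pool/Agent/Helper60/Hadamard.lean`.) -/
def St_Had : Prop := ∀ (ι : Type) [Fintype ι] [DecidableEq ι] (M : Matrix ι ι ℂ),
  ‖M.det‖ ≤ ∏ i, √(∑ j, ‖M i j‖ ^ 2)

/-- [Psb] (3.1).

The row `v` of `L` has the entry `d_v` at `v` (`Bb` has zero diagonal) and `-Bb v w x_w` at `w ≠ v`.
`‖det L‖ ≤ ∏ rows`.  `adj(L)_vv` is the determinant of `L` with the row `v` replaced by the
unit vector (`Matrix.adjugate_apply`): `≤ ∏_{u ≠ v} rows`, and `‖d_v‖ ≤` row `v`.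
Total `≤ (2m + 2m) ∏ rows`. -/
def St_Psb : Prop := ∀ (m : ℕ) (E : Matrix (Fin m) (Fin m) ℝ) (α β : ℝ) (x : V m → ℂ),
  ‖Psi E α β x‖ ≤ 4 * m * ∏ v, √(‖dv E α β x v‖ ^ 2 + ∑ w, Bb E v w ^ 2 * ‖x w‖ ^ 2)

/-- [Xpb] (3.2), (3.4): the one-sided bound, pointwise form.

`∏_i √(|α + ξ_i|² + κ) ≤ (α² + |ξ|²/m + κ)^{m/2}` (AM-GM, `Real.inner_le_nnorm...` or
`Real.geom_mean_le_arith_mean`, and `∑_i Re ξ_i = 0`), and by `log y ≤ y - 1`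
`(α² + |ξ|²/m + κ)^{m/2} ≤ A^m exp((m/2) ((α² + |ξ|²/m + κ)/A² - 1))`. -/
def St_Xpb : Prop := ∀ (m : ℕ) (α κ A : ℝ) (ξ : Fin m → ℂ), 1 ≤ m → 0 ≤ κ → 0 < A → ∑ i, ξ i = 0 →
  ∏ i, √(‖(α : ℂ) + ξ i‖ ^ 2 + κ) ≤
    A ^ m * Real.exp (m * (α ^ 2 + κ - A ^ 2) / (2 * A ^ 2)) *
      Real.exp ((1 / (2 * A ^ 2)) * ∑ i, ‖ξ i‖ ^ 2)

/-- [Fxa] (3.4), the one-sided integral: for every `α ≥ 0` there is a radius `ρ` (`2` if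
`α ≥ .6`, `√2` if `α < .6`) with the bound.

`κ = 4 (C log m + 1)/m`.  `St_Xpb` with `A = α` (`α ≥ .8`), `A = .8` (`.6 ≤ α < .8`),
`A = √.3` (`α < .6`), then `St_Exm` with `k = 1/(2A²)`: `ρ² k l² ≤ ρ² .2809/(2A²)`, which is at most
`.878`, `.878`, `.9364`; `∏ (1 - ρ²kl²)⁻¹ ≤ exp(16 ρ² k ∑ l²) ≤ m^{C'}`; `exp(mκ/(2A²)) ≤ m^{C'}`.
Exponents divided by `m`: `α ≥ .8`: `-α + log α ≤ -1 - gg α/8` (`log α ≤ α - 1 - (α-1)²/2` for `α ≤ 1`;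
for `1 ≤ α ≤ 2` `log α ≤ α - 1 - (α-1)²/4`; for `α ≥ 2` `log α ≤ α - 1 - (α-1)/4`).
`.6 ≤ α ≤ .8`: `h = -α + log .8 + (α² - .64)/1.28`, convex, `h(.6) < -1.04`, `h(.8) < -1.02`, and
`gg α ≤ .16`.  `0 ≤ α ≤ .6`: `mu √2 = 3√2/4`, `h = -α + log(3√2/4) + (1/2) log .3 + (α² - .3)/.6`,
`h(0) = h(.6) < -1.04`, `gg α ≤ 1`.  So `c₁ = 1/50` works. -/
def St_Fxa : Prop := ∀ C : ℝ, 0 < C → ∃ C' : ℕ, ∀ᶠ m : ℕ in atTop,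
  ∀ E : Matrix (Fin m) (Fin m) ℝ, Hyp C m E → ∀ α : ℝ, 0 ≤ α → ∃ ρ : ℝ, 0 < ρ ∧ ρ ≤ 2 ∧
  Real.exp (-(m * α)) *
    ∫ θ : Fin m → ℝ, (∏ i, √(‖(α : ℂ) + xj E (fun j => pt ρ (θ j)) i‖ ^ 2 +
        4 * (C * Real.log m + 1) / m)) * ∏ j, ‖cw ρ (θ j)‖ ∂(Measure.pi fun _ => nu) ≤
    (m : ℝ) ^ C' * Real.exp (-m) * Real.exp (-(1 / 50) * m * gg α)

/-- [Far] (3.) the far region.

`St_Rad` with the radius `ρ(α)` of `St_Fxa` on `R` (`inr`), `ρ(β)` on `L` (`inl`): `ξ_i`, `i ∈ L`, depends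
on the variables on `R`.  `‖HH‖ ≤ ∫ ∏‖cw‖ ‖Ψ‖`, `St_Psb`,
`∑_w Bb v w² ‖x_w‖² ≤ 4 ∑_j BB_ij² ≤ 4 (C log m + 1)/m` (`∑ (E_ij + 1/m)² = ∑ E_ij² + 1/m`, rows zero),
`St_Fub`, and `St_Fxa` twice. -/
def St_Far : Prop := ∀ C : ℝ, 0 < C → ∃ C' : ℕ, ∀ᶠ m : ℕ in atTop,
  ∀ E : Matrix (Fin m) (Fin m) ℝ, Hyp C m E → ∀ α β : ℝ, 0 ≤ α → 0 ≤ β →
  Real.exp (-(m * (α + β))) * ‖HH E α β‖ ≤
    (m : ℝ) ^ C' * Real.exp (-(2 * m)) * Real.exp (-(1 / 50) * m * (gg α + gg β))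

/-! ### Block G: the good event -/

/-- [Vvb] bounds for `V = √t Ē (1 - √t Ē)⁻¹`, `|t - 1| ≤ 3 δ`.

`Ē` has the eigenvalues `± l_a`, `|√t l| ≤ .54`; `‖√t Ē f‖ ≤ .54 ‖f‖`.  `V` is symmetric.
`V = √t Ē + t Ē (1 - √t Ē)⁻¹ Ē`, `Ē_vv = 0`, `(1 - √tĒ)⁻¹` is positive definite with norm
`≤ 1/.46`, so `0 ≤ V_vv ≤ 2.3 (Ē²)_vv ≤ 2.3 C log m/m`.
`∑_w V_vw² = ‖V e_v‖² = ‖√t (1-√tĒ)⁻¹ Ē e_v‖² ≤ (1.05/.46²) ‖Ē e_v‖² ≤ 5 C log m/m`. -/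
def St_Vvb : Prop := ∀ C : ℝ, 0 < C → ∀ᶠ m : ℕ in atTop,
  ∀ E : Matrix (Fin m) (Fin m) ℝ, Hyp C m E → ∀ t : ℝ, |t - 1| ≤ 3 * dl m →
  (1 - √t • Eb E) * (1 - √t • Eb E)⁻¹ = 1 ∧ (∀ v w, VV E t v w = VV E t w v) ∧
  (∀ v, 0 ≤ VV E t v v ∧ VV E t v v ≤ 5 * C * Real.log m / m) ∧
  (∀ v, ∑ w, VV E t v w ^ 2 ≤ 5 * C * Real.log m / m) ∧
  (∀ f : V m → ℝ, ∑ v, (∑ w, Eb E v w * f w) ^ 2 ≤ 0.53 ^ 2 * ∑ v, f v ^ 2) ∧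
  (∀ f : V m → ℝ, ∑ v, (∑ w, (1 - √t • Eb E)⁻¹ v w * f w) ^ 2 ≤ 5 * ∑ v, f v ^ 2)

/-- [Pbd] (4.1) probability of the bad event.

All by `St_Bdd` for `nu2` on `ι = V m` (`xx θ v` has norm `2`, changes by at most `4`), real and
imaginary parts separately, union over `≤ 4m + 7` events.  `E x = 1` (`St_Law`), `E ξ_v = 0` (rows).
(a) `c_w = 4|Ē_vw|`, `∑ c² ≤ 16 C log m/m`, `t = δ/2`: exponent `m^{1/5}/(128 C log m)`.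
(b) `f = frob(Ē Z Ē)`, `c_v = 4 ∑_w Ē_vw² ≤ 4C log m/m`;
`E f ≤ (E f²)^{1/2}`, `E ‖∑ z_v M_v‖² = 3 ∑ ‖M_v‖²` (independent, mean zero, `E|z|² = 3`),
`‖M_v‖ = ∑_w Ē_vw²`: `E f ≤ √6 C log m/√m ≤ δ/2`, `t = δ/2`, `∑ c² ≤ 32 C² log² m/m`.
(c) `|V_vv| ≤ 5C log m/m` (`St_Vvb`, `t = 1/(αβ)`, `|t-1| ≤ 3δ`), `∑ c² ≤ 2m (20 C log m/m)²`.
(d) `q = ∑ V_vw² z_v z_w`: `c_v ≤ 4·2·3 ∑_w V_vw² + ... ≤ 48·5C log m/m`; mean `-∑ V_vv²`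
(`E z_v z_w = 0` for `v ≠ w`, `E z² = -1`), at most `2m (5C log m/m)² ≤ δ/4`.
(e), (f) `c = 4`, `∑ c² = 16 m`, `t = m^{3/5}/2`: exponent `m^{1/5}/128`. -/
def St_Pbd : Prop := ∀ C : ℝ, 0 < C → ∀ᶠ m : ℕ in atTop,
  ∀ E : Matrix (Fin m) (Fin m) ℝ, Hyp C m E → ∀ α β : ℝ, |α - 1| ≤ dl m → |β - 1| ≤ dl m →
  (PP (V m)).real {θ | ¬ Good E α β (xx θ)} ≤ Real.exp (-(m : ℝ) ^ (1 / 10 : ℝ))

/-- [Pb1] the one-sided version of (a).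

As (a) in `St_Pbd`, `ι = Fin m`. -/
def St_Pb1 : Prop := ∀ C : ℝ, 0 < C → ∀ᶠ m : ℕ in atTop,
  ∀ E : Matrix (Fin m) (Fin m) ℝ, Hyp C m E →
  (PP (Fin m)).real {θ | ¬ ∀ i, ‖xj E (xx θ) i‖ ≤ dl m} ≤ Real.exp (-(m : ℝ) ^ (1 / 10 : ℝ))

/-! ### Block D: the deterministic lemma -/

/-- [Dt1] the determinant of `1 - A` for nearly nilpotent `A`.

Eigenvalues `μ_i` (roots of the characteristic polynomial): `det(1-A) = ∏(1-μ_i)`, `tr A = ∑ μ`,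
`tr A² = ∑ μ²`; inequality of Schur `∑ |μ|² ≤ frob(A)²` (triangularisation by a unitary matrix) for `A`
and for `A²`: `∑|μ|⁴ ≤ frob(A²)² ≤ 1/16`, so `|μ| ≤ 1/2`,
`|log(1-μ) + μ + μ²/2| ≤ (2/3)|μ|³`, `∑|μ|³ ≤ (∑|μ|²)^{1/2}(∑|μ|⁴)^{1/2}`.
Alternative without eigenvalues: `f(τ) = det(1-τA)`, `f' = -tr(A(1-τA)⁻¹) f`,
`(1-τA)⁻¹ = (1+τA)(1-τ²A²)⁻¹`, `tr(A(1-τA)⁻¹) = tr A + τ tr A² + R`,
`|R| ≤ 2 (frob A + frob A²) frob A²`. Any constant instead of `4` is fine (tell helper8). -/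
def St_Dt1 : Prop := ∀ (ι : Type) [Fintype ι] [DecidableEq ι] (A : Matrix ι ι ℂ),
  frob (A * A) ≤ 1 / 4 →
  ‖(1 - A).det * Complex.exp (A.trace + (A * A).trace / 2) - 1‖ ≤
    Real.exp (4 * frob A * frob (A * A) + 4 * frob (A * A) ^ 2) - 1

/-- [Rk2] perturbation of rank two.

`M = W R U`.  Second part: `det(L₀ - UW) = det L₀ det(1 - R U W)` and
`Matrix.det_one_sub_mul_comm`.  First part: multiply the right side by `L₀ - UW`: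
`(L₀ - UW)(det(1-M) R + R U adj(1-M) W R) = det(1-M)(1 - UWR) + U(1-M) adj(1-M) W R = det(1-M) 1`.
So it holds if `det(1-M) ≠ 0`; in general replace `U` by `τU`: both sides are continuous in
`τ ∈ ℝ` and `det(1-τM)` is a polynomial in `τ` with the value `1` at `0`, so the equality holds for all
but finitely many `τ`. -/
def St_Rk2 : Prop := ∀ (ι : Type) [Fintype ι] [DecidableEq ι] (L R : Matrix ι ι ℂ)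
  (U : Matrix ι (Fin 2) ℂ) (W : Matrix (Fin 2) ι ℂ), L * R = 1 →
  (L - U * W).adjugate = L.det • ((1 - W * R * U).det • R +
    R * U * (1 - W * R * U).adjugate * W * R) ∧
  (L - U * W).det = L.det * (1 - W * R * U).det

/-- [Fac] (4.2) factorisation of `L₀`, algebra.

`S = diag √α_v`, `γ_v = 1 + ξ_v/α_v`, `T = diag(x_v/γ_v)`, `Q = T - 1`, `t = 1/(αβ)`:
`L₀ = S Γ S - Ē X`, `Ē = S (√t Ē) S` (`√α√β√t = 1`), so `L₀ = S (1 - √t Ē T) Γ S` (diagonal matrices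
commute), and `1 - √tĒT = (1 - √tĒ)(1 - VQ)` because `(1-√tĒ)V = √tĒ`.
`det S² Γ = ∏ d_v`. -/
def St_Fac : Prop := ∀ (m : ℕ) (E : Matrix (Fin m) (Fin m) ℝ) (α β : ℝ) (x : V m → ℂ),
  0 < α → 0 < β → (∀ v, dv E α β x v ≠ 0) →
  (1 - √(1 / (α * β)) • Eb E) * (1 - √(1 / (α * β)) • Eb E)⁻¹ = 1 →
  L0 E α β x = Matrix.diagonal (fun v => (√(al α β v) : ℂ)) *
    ((1 - √(1 / (α * β)) • Eb E).map (fun r : ℝ => (r : ℂ)) *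
      (1 - (VV E (1 / (α * β))).map (fun r : ℝ => (r : ℂ)) *
        Matrix.diagonal (fun v => x v * al α β v / dv E α β x v - 1))) *
    Matrix.diagonal (fun v => dv E α β x v / (√(al α β v) : ℂ))

/-- [Res] (4.2) the matrix `L₀` on the good event.

`A = V Q`, `Q = diag(x_v α_v/d_v - 1)`, `|Q_v - z_v| ≤ 3δ`, `|Q_v| ≤ 4`.  By `St_Vvb`, `Good`:
`|tr A| ≤ δ + 3δ ∑ V_vv`, `|tr A²| ≤ δ + 21δ ∑ V_vw²`, `frob(A) ≤ 4 frob(V) ≤ 4 √(10 C log m)`,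
`frob(A²) ≤ 4 frob(V Q V)`, `V Z V = t (1-√tĒ)⁻¹ Ē Z Ē (1-√tĒ)⁻¹`: `frob ≤ 6δ`;
`frob(V (Q-Z) V) ≤ 3 · 3δ · frob V`.  So `frob(A²) ≤ C'√(log m) δ ≤ 1/4`, `St_Dt1` gives
`det(1-A) = 1 + O(log m δ)`, and `det(1-√tĒ) = det(1-tE²) = ∏(1-t l²) = Δ (1+O(log m δ))` (`St_Spe`).
The determinant of `L₀` by `St_Fac`.  Inverse: `(1-A)⁻¹ = (1+A)(1-A²)⁻¹`, operator norms:
`‖A‖ ≤ 4‖V‖ ≤ 5`, `‖(1-A²)⁻¹‖ ≤ 4/3`, so `(1-A)⁻¹ ≤ 8`, `(1-√tĒ)⁻¹ ≤ √5`, diagonal factors `≤ 1.1`: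
norm of `R` at most `30`. -/
def St_Res : Prop := ∀ C : ℝ, 0 < C → ∀ᶠ m : ℕ in atTop,
  ∀ E : Matrix (Fin m) (Fin m) ℝ, Hyp C m E → ∀ α β : ℝ, |α - 1| ≤ dl m → |β - 1| ≤ dl m →
  ∀ x : V m → ℂ, (∀ v, ‖x v‖ = 2) → Good E α β x →
  ‖(L0 E α β x).det - Dl E * ∏ v, dv E α β x v‖ ≤
      (m : ℝ) ^ (-(7 / 20) : ℝ) * Dl E * ‖∏ v, dv E α β x v‖ ∧
  ∃ R : Matrix (V m) (V m) ℂ, L0 E α β x * R = 1 ∧ R * L0 E α β x = 1 ∧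
    (∀ f : V m → ℂ, ∑ v, ‖∑ w, R v w * f w‖ ^ 2 ≤ 30 ^ 2 * ∑ v, ‖f v‖ ^ 2) ∧
    (∀ f : V m → ℂ, ∑ v, ‖∑ w, R w v * f w‖ ^ 2 ≤ 30 ^ 2 * ∑ v, ‖f v‖ ^ 2)

/-- [Det] (4.2) the deterministic lemma.

`J̄ X = (1/m)(1_L x_R^T + 1_R x_L^T) = U W` with `U = (1_L, 1_R)`, `W = (1/m)(x_R^T; x_L^T)`, so
`LL = L0 - U W`, and by `St_Rk2` (`R` from `St_Res`, `M = W R U`)
`Ψ = det L₀ (det(1-M)(tr(DR) - 2m) + tr(adj(1-M) W R D R U))`.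
`DR = 1 + ĒXR`; `R = D⁻¹ + D⁻¹ĒXR`; `tr(ĒXD⁻¹) = 0`;
`|tr(ĒXR)| = |tr(ĒXD⁻¹ · ĒXR)| ≤ frob · frob ≤ 1000 · 2 C log m`.
`L₀ 1_L = α 1_L + ξ_L - ξ_R` (`Ē x_L = ξ` on `R`), so `R 1_L = 1_L/α - R(ξ_L - ξ_R)/α`,
`|ξ|₂ ≤ √(2m) δ`; similarly `R 1_R`; `L₀ᵀ x_L = α x_L + (ξx)_L - (ξx)_R`, so
`Rᵀ x_L = x_L/α - Rᵀ((ξx)_L - (ξx)_R)/α`.  Hence, with `Good.e`, `Good.f`,
`M = [[0, 1/β], [1/α, 0]] + O(δ)`, `W R D R U` the same, `det(1-M) = O(δ)`, `{...} = 2 + O(log m δ)`. -/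
def St_Det : Prop := ∀ C : ℝ, 0 < C → ∀ᶠ m : ℕ in atTop,
  ∀ E : Matrix (Fin m) (Fin m) ℝ, Hyp C m E → ∀ α β : ℝ, |α - 1| ≤ dl m → |β - 1| ≤ dl m →
  ∀ x : V m → ℂ, (∀ v, ‖x v‖ = 2) → Good E α β x →
  ‖Psi E α β x - 2 * Dl E * ∏ v, dv E α β x v‖ ≤
    (m : ℝ) ^ (-(1 / 3) : ℝ) * Dl E * ‖∏ v, dv E α β x v‖

/-! ### Block M: the main term -/

/-- [Gau] facts on Gaussian vectors used in (4.3), (4.4).  `γ` = `gaussianReal 0 1`.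

`w_j = s ∑_a l_a g_a e_a(j)`, `|s| ≤ 1.01`.  (1) `∑_j w_j² = s² ∑ l_a² g_a²` (`Sp.orth`) and
`∫ exp(k s² l² g²) dγ = (1 - 2 k s² l²)^{-1/2}` (product measure), `2 · 1.5 · 1.01² · .53² ≤ .86 < 1`;
`(1-y)^{-1/2} ≤ exp(4 y)` for `0 ≤ y ≤ .86`, and `≤ 1` for `y ≤ 0`: product
`≤ exp(13 ∑ l²) ≤ m^{C'}`.
(2) `w_j` is centred Gaussian with variance `s² ∑_a l_a² e_a(j)² ≤ 1.03 C log m/m`: by Markov with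
`exp(λ w_j)`, `P(|w_j| > δ) ≤ 2 exp(-δ² m/(2.06 C log m))`, `δ² m = m^{1/5}`, union over `j`. -/
def St_Gau : Prop := ∀ C : ℝ, 0 < C → ∃ C' : ℕ, ∀ᶠ m : ℕ in atTop,
  ∀ (E : Matrix (Fin m) (Fin m) ℝ) (e : Fin m → Fin m → ℝ) (l : Fin m → ℝ), Sp C m E e l →
  ∀ s : ℝ, |s| ≤ 1.01 →
  (∀ k : ℝ, k ≤ 1.5 → Integrable (fun g : Fin m → ℝ =>
      Real.exp (k * ∑ j, (s * ∑ a, l a * g a * e a j) ^ 2))
      (Measure.pi fun _ => ProbabilityTheory.gaussianReal 0 1) ∧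
    ∫ g : Fin m → ℝ, Real.exp (k * ∑ j, (s * ∑ a, l a * g a * e a j) ^ 2)
      ∂(Measure.pi fun _ => ProbabilityTheory.gaussianReal 0 1) =
        ∏ a, (√(1 - 2 * k * s ^ 2 * l a ^ 2))⁻¹ ∧
    ∏ a, (√(1 - 2 * k * s ^ 2 * l a ^ 2))⁻¹ ≤ (m : ℝ) ^ C') ∧
  (Measure.pi fun _ : Fin m => ProbabilityTheory.gaussianReal 0 1).real
    {g : Fin m → ℝ | ¬ ∀ j, |s * ∑ a, l a * g a * e a j| ≤ dl m} ≤
    Real.exp (-(m : ℝ) ^ (1 / 10 : ℝ))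

/-- [Psf] (4.3) the one-variable function `ψ(w, u) = ∫ exp(w Im x + i u (Re x - 1)) dν₂`.

(1) `|ψ| ≤ ∫ exp(w Im x) dν₂ ≤ exp(w²)`: `St_Bes` with `ρ = 2`, `c = i w` (`mu 2 = 1`, `cw 2 = 1 + cos`).
(2) for `|w|, |u| ≤ δ ≤ 1/10`: `|e^z - 1 - z - z²/2| ≤ |z|³` for `|z| ≤ 1`, `|z| ≤ 2|w| + 3|u| ≤ 5δ`;
the mean of `z` is `0` and the mean of `z²` is `2w² - u²` (`E x = 1`, `E x² = 0`, `|x| = 2`, so
`E (Im x)² = 2`, `E (Re x - 1)² = 1`, `E (Im x)(Re x - 1) = 0`); `|1 + y| ≤ e^y`-type bound: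
`|ψ| ≤ 1 + w² - u²/2 + 125 δ³ ≤ exp(w² - u²/2 + 125 δ³)`. -/
def St_Psf : Prop :=
  (∀ w u : ℝ, ‖∫ θ, Complex.exp (w * (pt 2 θ).im + Complex.I * u * ((pt 2 θ).re - 1)) ∂nu2‖ ≤
    Real.exp (w ^ 2)) ∧
  (∀ w u δ : ℝ, δ ≤ 1 / 10 → |w| ≤ δ → |u| ≤ δ →
    ‖∫ θ, Complex.exp (w * (pt 2 θ).im + Complex.I * u * ((pt 2 θ).re - 1)) ∂nu2‖ ≤
      Real.exp (w ^ 2 - u ^ 2 / 2 + 125 * δ ^ 3))

/-- [Qfm] (4.3) Lemma Q.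

`∑_i ((Im ξ_i)² - (Re ξ_i)²) = ∑_a l_a² ((Im y_a)² - (Re y_a)²)`, `y_a = ⟨e_a, x⟩` (`St_Spe` for the
imaginary and the real part of `x`).  `exp(t²l²b²/2) = ∫ e^{t l g b} dγ(g)`,
`exp(-t²l²a²/2) = ∫ e^{i t l h a} dγ(h)`; Fubini (bounded `x`):
LHS `= ∫∫ ∏_j ∫ exp(w_j Im x + i u_j (Re x - 1)) dν₂ dγ dγ` with `w_j = t ∑ l_a g_a e_a(j)`,
`u_j = t ∑ l_a h_a e_a(j)`, `∑ w_j = ∑ u_j = 0` (`Sp.one`).  `St_Psf`, `St_Gau`.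
On `max |w_j|, |u_j| ≤ δ`: product `≤ 2 exp(∑ w² - ∑u²/2)` (`125 m δ³ → 0`), Gaussian mean
`∏ (1-2t²l²)^{-1/2}(1+t²l²)^{-1/2}` (`k = 1` and `k = -1/2` in `St_Gau`, independence).  Off:
Hoelder (3/2, 3): `(∫ exp(1.5 ∑ w²))^{2/3} (2 exp(-m^{1/10}))^{1/3} ≤ 1` (`k = 1.5`).
Ratio: for `y = t² l² ≤ .3`: `-log(1-2y) ≤ 2y + 5y²`, `-log(1+y) ≤ -y + y²/2`, `log(1-l²) ≤ -l²`, sum
`≤ ∑ (|t²-1| l² + 6 t⁴ l⁴) ≤ 5 δ C log m + 7 C`. -/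
def St_Qfm : Prop := ∀ C : ℝ, 0 < C → ∃ C' : ℝ, ∀ᶠ m : ℕ in atTop,
  ∀ E : Matrix (Fin m) (Fin m) ℝ, Hyp C m E → ∀ t : ℝ, |t - 1| ≤ 2 * dl m →
  ∫ θ, Real.exp (t ^ 2 / 2 * ∑ i, ((xj E (xx θ) i).im ^ 2 - (xj E (xx θ) i).re ^ 2))
    ∂(PP (Fin m)) ≤ C' / √(Dl E)

/-- [Wa1] (4.4 (i)).

On `max |ξ_i| ≤ δ` (`ξ_i = xj E (xx θ) i`, `∑ ξ_i = 0`): `∏(1+tξ_i) = exp(∑ log(1+tξ_i))`,
`log(1+y) = y - y²/2 + O(|y|³)`, so it differs from `exp(-t²/2 ∑ ξ²)` by a factor `1 + O(m δ³)`,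
and `|exp(-t²/2 ∑ξ²)| = exp(t²/2 ∑((Im)²-(Re)²))`: `St_Qfm`.  Off: both are at most
`exp(t²|ξ|²/2)` (AM-GM), Hoelder (3/2, 3) with `St_Exp` (`k = .75 t² ≤ .8`) and `St_Pb1`.
`Dl E ≤ 1`. -/
def St_Wa1 : Prop := ∀ C : ℝ, 0 < C → ∀ᶠ m : ℕ in atTop,
  ∀ E : Matrix (Fin m) (Fin m) ℝ, Hyp C m E → ∀ t : ℝ, |t - 1| ≤ 2 * dl m →
  ‖(∫ θ, ∏ i, (1 + (t : ℂ) * xj E (xx θ) i) ∂(PP (Fin m))) -
    ∫ θ, Complex.exp (-(t : ℂ) ^ 2 / 2 * ∑ i, xj E (xx θ) i ^ 2) ∂(PP (Fin m))‖ ≤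
    (m : ℝ) ^ (-(3 / 20) : ℝ) / √(Dl E)

/-- [Wa2] (4.4 (ii), (iii)).

`∑ ξ_i² = ∑ l_a² y_a²`, `y_a = ⟨e_a, x⟩ ∈ ℂ`; `exp(-t² l² y²/2) = ∫ e^{i t l g y} dγ(g)` (complex `y`);
Fubini; `∏_j ∫ e^{i u_j x} dν₂ = ∏ (1 + i u_j)` (`St_Law`), `u_j = t ∑ l_a g_a e_a(j)`, `∑ u_j = 0`.
On `max |u| ≤ δ`: `∏(1+iu_j) = exp(∑u²/2)(1+O(mδ³))`; off: `≤ exp(∑u²/2)`; `St_Gau` (Hoelder).
`∫ exp(∑u²/2) dγ = ∏ (1-t²l²)^{-1/2} = Δ^{-1/2}(1+O(δ log m))`. -/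
def St_Wa2 : Prop := ∀ C : ℝ, 0 < C → ∀ᶠ m : ℕ in atTop,
  ∀ E : Matrix (Fin m) (Fin m) ℝ, Hyp C m E → ∀ t : ℝ, |t - 1| ≤ 2 * dl m →
  ‖(∫ θ, Complex.exp (-(t : ℂ) ^ 2 / 2 * ∑ i, xj E (xx θ) i ^ 2) ∂(PP (Fin m))) * √(Dl E) - 1‖ ≤
    (m : ℝ) ^ (-(3 / 20) : ℝ)

/-- [Cen] (4.5) the central region.

`HH = ∫ Ψ dPP` (`St_Jpp`).  Good event: `St_Det`, and `|∏ d_v| = (αβ)^m ∏ |1 + ξ_v/α_v|
≤ 4 (αβ)^m exp(∑_L ((Im)²-(Re)²)/(2α²)) exp(∑_R .../(2β²))` (logarithm as in `St_Wa1`), so by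
`St_Fub`, `St_Qfm` `∫_G |∏ d_v| ≤ 4 C'² (αβ)^m/Δ`.  Bad event: `‖Ψ‖ + 2Δ|∏ d_v| ≤ m^{C'} (αβ)^m
exp(|ξ_L|²/(2α²) + |ξ_R|²/(2β²))` (`St_Psb`, `St_Xpb` with `A = α`), Hoelder (3/2, 3), `St_Exp`,
`St_Pbd`.  `∫ ∏ d_v = (αβ)^m M(1/α) M(1/β)` (`St_Fub`), `St_Wa1`, `St_Wa2`; `Δ ≥ m^{-C'}`. -/
def St_Cen : Prop := ∀ C : ℝ, 0 < C → ∀ᶠ m : ℕ in atTop,
  ∀ E : Matrix (Fin m) (Fin m) ℝ, Hyp C m E → ∀ α β : ℝ, |α - 1| ≤ dl m → |β - 1| ≤ dl m →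
  ‖HH E α β - 2 * ((α * β : ℝ) : ℂ) ^ m‖ ≤ (m : ℝ) ^ (-(1 / 10) : ℝ) * (α * β) ^ m

/-- [Int] (5.) the integration; Theorem A.

`I = 2 m ham` by `St_Idn`; substitute `a = mα`, `b = mβ` (`da db = m² dα dβ`).  Inside the square
`|α-1|, |β-1| ≤ δ`: `St_Cen`.  Outside: `St_Far`, where `gg ≥ δ² = m^{-4/5}` for one of `α`, `β` and
`∫ exp(-(m/50) gg α) dα ≤ 200`, so the contribution is `≤ m^{C'+3} e^{-2m} exp(-m^{1/5}/50)`.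
`∫∫ e^{-a-b}(ab/m²)^m = (m!/m^m)²`, its part outside the square is `≤ m² e^{-2m} exp(-c m^{1/5})`
(`α^m e^{-mα} ≤ e^{-m} exp(-m gg α/8)`), and `(m!/m^m)² ≥ e^{-2m}`. -/
def St_Int : Prop := ∀ C : ℝ, 0 < C → ∀ ε : ℝ, 0 < ε → ∀ᶠ m : ℕ in atTop,
  ∀ E : Matrix (Fin m) (Fin m) ℝ, Hyp C m E →
  |ham (BB E) * (m : ℝ) ^ (2 * m + 1) / (m.factorial : ℝ) ^ 2 - 1| ≤ ε

end Pool.Agent.PCW
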