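import Mathlib
import Pool.Agent.PCW.St

set_option autoImplicit false

/-!
# PCW, module Bdd: the inequality of bounded differences
-/

namespace Pool.Agent.PCW

open Finset Filter MeasureTheory Matrix

/-- weak Hoeffding lemma -/
private theorem Bdd_hoef (μ : Measure ℝ) [IsProbabilityMeasure μ] (g : ℝ → ℝ) (hg : Measurable g)
    (hgi : Integrable g μ) (c : ℝ) (hc : ∀ y y', |g y - g y'| ≤ c) (s : ℝ) :
    ∫ y, Real.exp (s * g y) ∂μ ≤ Real.exp (s * (∫ y, g y ∂μ) + s ^ 2 * c ^ 2 / 2) := by
  have hc0 : 0 ≤ c := (abs_nonneg _).trans (hc 0 0)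
  set m := ∫ y, g y ∂μ with hm
  have hdev : ∀ y, |g y - m| ≤ c := by
    intro y
    have h1 : g y - m = ∫ y', (g y - g y') ∂μ := by
      rw [integral_sub (integrable_const _) hgi, integral_const]
      simp [hm]
    rw [h1]
    calc |∫ y', (g y - g y') ∂μ| ≤ ∫ y', |g y - g y'| ∂μ := abs_integral_le_integral_abs
      _ ≤ ∫ _y', c ∂μ := by
          refine integral_mono_of_nonneg (Eventually.of_forall fun _ => abs_nonneg _)
            (integrable_const _) (Eventually.of_forall fun y' => hc y y')
      _ = c := by simp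
  have hsub := ProbabilityTheory.hasSubgaussianMGF_of_mem_Icc_of_integral_eq_zero
    (μ := μ) (X := fun y => g y - m) (a := -c) (b := c)
    (hg.sub_const m).aemeasurable
    (Eventually.of_forall fun y => by
      have h1 := abs_le.1 (hdev y)
      exact ⟨h1.1, h1.2⟩)
    (by
      show ∫ y, (g y - m) ∂μ = 0
      rw [integral_sub hgi (integrable_const _), integral_const]
      simp [hm])
  have h2 := hsub.mgf_le s
  have h3 : ((‖c - -c‖₊ / 2) ^ 2 : NNReal) = (c ^ 2 : ℝ) := by
    push_cast
    rw [Real.norm_eq_abs, abs_of_nonneg (by linarith)]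
    ring
  rw [h3] at h2
  have h4 : ∫ y, Real.exp (s * g y) ∂μ = Real.exp (s * m) *
      ProbabilityTheory.mgf (fun y => g y - m) μ s := by
    rw [ProbabilityTheory.mgf, ← integral_const_mul]
    refine integral_congr_ae (Eventually.of_forall fun y => ?_)
    show Real.exp (s * g y) = Real.exp (s * m) * Real.exp (s * (g y - m))
    rw [← Real.exp_add]
    congr 1
    ring
  rw [h4, Real.exp_add]
  refine mul_le_mul_of_nonneg_left ?_ (Real.exp_pos _).le
  refine h2.trans (le_of_eq ?_)
  congr 1
  ring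

/-- a function with bounded differences is bounded -/
private theorem Bdd_bdd {ι : Type} [Fintype ι] [DecidableEq ι] (f : (ι → ℝ) → ℝ) (c : ι → ℝ)
    (h : ∀ θ v y, |f (Function.update θ v y) - f θ| ≤ c v) (θ : ι → ℝ) :
    |f θ| ≤ |f 0| + ∑ v, c v := by
  have key : ∀ S : Finset ι, |f (S.piecewise θ 0) - f 0| ≤ ∑ v ∈ S, c v := by
    intro S
    induction S using Finset.induction_on with
    | empty => simp
    | insert j S hj ih =>
      rw [Finset.piecewise_insert, Finset.sum_insert hj]
      calc |f (Function.update (S.piecewise θ 0) j (θ j)) - f 0|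
          ≤ |f (Function.update (S.piecewise θ 0) j (θ j)) - f (S.piecewise θ 0)| +
            |f (S.piecewise θ 0) - f 0| := abs_sub_le _ _ _
        _ ≤ _ := add_le_add (h _ _ _) ih
  have h1 := key Finset.univ
  rw [Finset.piecewise_univ] at h1
  have h2 := abs_sub_abs_le_abs_sub (f θ) (f 0)
  linarith

private theorem Bdd_int {X : Type} [MeasurableSpace X] (ν : Measure X) [IsFiniteMeasure ν]
    (f : X → ℝ) (hf : Measurable f) (M : ℝ) (h : ∀ x, |f x| ≤ M) : Integrable f ν :=
  Integrable.of_bound hf.aestronglyMeasurable M (Eventually.of_forall h)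

/-- the exponential moment -/
private theorem Bdd_mgf (μ : Measure ℝ) [IsProbabilityMeasure μ] (s : ℝ) : ∀ (n : ℕ)
    (f : (Fin n → ℝ) → ℝ) (c : Fin n → ℝ), Measurable f →
    (∀ θ v y, |f (Function.update θ v y) - f θ| ≤ c v) →
    ∫ θ, Real.exp (s * f θ) ∂(Measure.pi fun _ : Fin n => μ) ≤
      Real.exp (s * (∫ θ, f θ ∂(Measure.pi fun _ : Fin n => μ)) + s ^ 2 * (∑ v, c v ^ 2) / 2) := by
  intro n
  induction n with
  | zero =>
    intro f c hf h
    have h0 : ∀ θ : Fin 0 → ℝ, f θ = f 0 := fun θ => by rw [Subsingleton.elim θ 0]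
    have h1 : (∫ θ, Real.exp (s * f θ) ∂(Measure.pi fun _ : Fin 0 => μ)) = Real.exp (s * f 0) := by
      simp_rw [h0]
      rw [integral_const]
      simp
    have h2 : (∫ θ, f θ ∂(Measure.pi fun _ : Fin 0 => μ)) = f 0 := by
      simp_rw [h0]
      rw [integral_const]
      simp
    rw [h1, h2]
    simp
  | succ n ih =>
    intro f c hf h
    set M := |f 0| + ∑ v, c v with hM
    have hfM : ∀ θ, |f θ| ≤ M := Bdd_bdd f c h
    -- `f` as a function of two variables
    have hcons : Measurable fun p : ℝ × (Fin n → ℝ) => (Fin.cons p.1 p.2 : Fin (n + 1) → ℝ) := by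
      rw [measurable_pi_iff]
      intro i
      refine Fin.cases ?_ (fun i => ?_) i
      · simpa using measurable_fst
      · simp only [Fin.cons_succ]
        exact (measurable_pi_apply i).comp measurable_snd
    have hf2 : Measurable fun p : ℝ × (Fin n → ℝ) => f (Fin.cons p.1 p.2) := hf.comp hcons
    have hmp := measurePreserving_piFinSuccAbove (fun _ : Fin (n + 1) => μ) 0
    -- integral over the product
    have hprod : ∀ F : (Fin (n + 1) → ℝ) → ℝ, Measurable F → (∃ B, ∀ θ, |F θ| ≤ B) →
        ∫ θ, F θ ∂(Measure.pi fun _ : Fin (n + 1) => μ) =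
          ∫ θ, (∫ y, F (Fin.cons y θ) ∂μ) ∂(Measure.pi fun _ : Fin n => μ) := by
      intro F hF ⟨B, hB⟩
      have h1 := hmp.symm.integral_comp' (g := F)
      rw [← h1]
      have h2 : ∀ p : ℝ × (Fin n → ℝ),
          (MeasurableEquiv.piFinSuccAbove (fun _ : Fin (n + 1) => ℝ) 0).symm p =
            Fin.cons p.1 p.2 := by
        intro p
        show (Fin.insertNth 0 p.1 p.2 : Fin (n + 1) → ℝ) = Fin.cons p.1 p.2
        rw [Fin.insertNth_zero']
      simp_rw [h2]
      exact integral_prod_symm _ (Bdd_int _ _ (hF.comp hcons) B (fun p => hB _))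
    have hg : ∀ θ : Fin n → ℝ, Measurable fun y => f (Fin.cons y θ) := fun θ =>
      hf2.comp (measurable_id.prodMk measurable_const)
    have hgi : ∀ θ : Fin n → ℝ, Integrable (fun y => f (Fin.cons y θ)) μ := fun θ =>
      Bdd_int _ _ (hg θ) M (fun y => hfM _)
    -- the mean over the first variable
    let F : (Fin n → ℝ) → ℝ := fun θ => ∫ y, f (Fin.cons y θ) ∂μ
    have hF : Measurable F := by
      have h1 : StronglyMeasurable fun p : (Fin n → ℝ) × ℝ => f (Fin.cons p.2 p.1) :=
        (hf2.comp measurable_swap).stronglyMeasurable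
      exact (h1.integral_prod_right (ν := μ)).measurable
    have hFb : ∀ θ v y, |F (Function.update θ v y) - F θ| ≤ c v.succ := by
      intro θ v y
      have h1 : F (Function.update θ v y) - F θ =
          ∫ z, (f (Fin.cons z (Function.update θ v y)) - f (Fin.cons z θ)) ∂μ :=
        (integral_sub (hgi _) (hgi _)).symm
      rw [h1]
      have h2 : ∀ z : ℝ, |f (Fin.cons z (Function.update θ v y)) - f (Fin.cons z θ)| ≤
          c v.succ := by
        intro z
        rw [Fin.cons_update]
        exact h _ _ _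
      calc |∫ z, (f (Fin.cons z (Function.update θ v y)) - f (Fin.cons z θ)) ∂μ|
          ≤ ∫ z, |f (Fin.cons z (Function.update θ v y)) - f (Fin.cons z θ)| ∂μ :=
            abs_integral_le_integral_abs
        _ ≤ ∫ _z, c v.succ ∂μ := integral_mono_of_nonneg
            (Eventually.of_forall fun _ => abs_nonneg _) (integrable_const _)
            (Eventually.of_forall h2)
        _ = c v.succ := by simp
    have hc0 : ∀ θ : Fin n → ℝ, ∀ y y', |f (Fin.cons y θ) - f (Fin.cons y' θ)| ≤ c 0 := by
      intro θ y y'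
      have h1 := h (Fin.cons y' θ) 0 y
      rwa [Fin.update_cons_zero] at h1
    have hexpM : ∀ θ, |Real.exp (s * f θ)| ≤ Real.exp (|s| * M) := by
      intro θ
      rw [abs_of_pos (Real.exp_pos _)]
      refine Real.exp_le_exp.2 ((le_abs_self _).trans ?_)
      rw [abs_mul]
      exact mul_le_mul_of_nonneg_left (hfM θ) (abs_nonneg _)
    have hFM : ∀ θ, |F θ| ≤ M := by
      intro θ
      calc |∫ y, f (Fin.cons y θ) ∂μ| ≤ ∫ y, |f (Fin.cons y θ)| ∂μ := abs_integral_le_integral_abs
        _ ≤ ∫ _y, M ∂μ := integral_mono_of_nonneg (Eventually.of_forall fun _ => abs_nonneg _)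
            (integrable_const _) (Eventually.of_forall fun y => hfM _)
        _ = M := by simp
    have hexpF : Measurable fun θ => Real.exp (s * F θ + s ^ 2 * c 0 ^ 2 / 2) :=
      Real.measurable_exp.comp ((hF.const_mul s).add_const _)
    rw [hprod (fun θ => Real.exp (s * f θ)) (Real.measurable_exp.comp (hf.const_mul s))
      ⟨_, hexpM⟩, hprod f hf ⟨M, hfM⟩]
    calc ∫ θ, (∫ y, Real.exp (s * f (Fin.cons y θ)) ∂μ) ∂(Measure.pi fun _ : Fin n => μ)
        ≤ ∫ θ, Real.exp (s * F θ + s ^ 2 * c 0 ^ 2 / 2) ∂(Measure.pi fun _ : Fin n => μ) := by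
          refine integral_mono_of_nonneg
            (Eventually.of_forall fun θ => integral_nonneg fun y => (Real.exp_pos _).le) ?_
            (Eventually.of_forall fun θ => Bdd_hoef μ _ (hg θ) (hgi θ) (c 0) (hc0 θ) s)
          refine Bdd_int _ _ hexpF (Real.exp (|s| * M + s ^ 2 * c 0 ^ 2 / 2)) (fun θ => ?_)
          rw [abs_of_pos (Real.exp_pos _)]
          refine Real.exp_le_exp.2 (add_le_add ((le_abs_self _).trans ?_) le_rfl)
          rw [abs_mul]
          exact mul_le_mul_of_nonneg_left (hFM θ) (abs_nonneg _)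
      _ = Real.exp (s ^ 2 * c 0 ^ 2 / 2) *
            ∫ θ, Real.exp (s * F θ) ∂(Measure.pi fun _ : Fin n => μ) := by
          rw [← integral_const_mul]
          refine integral_congr_ae (Eventually.of_forall fun θ => ?_)
          show Real.exp (s * F θ + s ^ 2 * c 0 ^ 2 / 2) =
            Real.exp (s ^ 2 * c 0 ^ 2 / 2) * Real.exp (s * F θ)
          rw [← Real.exp_add, add_comm]
      _ ≤ Real.exp (s ^ 2 * c 0 ^ 2 / 2) *
            Real.exp (s * (∫ θ, F θ ∂(Measure.pi fun _ : Fin n => μ)) +
              s ^ 2 * (∑ v : Fin n, c v.succ ^ 2) / 2) :=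
          mul_le_mul_of_nonneg_left (ih F (fun v => c v.succ) hF hFb) (Real.exp_pos _).le
      _ = _ := by
          rw [← Real.exp_add, Fin.sum_univ_succ]
          congr 1
          ring

theorem thm_Bdd : St_Bdd := by
  intro ι _ _ μ _ f c hf h t ht
  -- transfer to `Fin n`
  let n := Fintype.card ι
  let e : Fin n ≃ ι := (Fintype.equivFin ι).symm
  have hmp := measurePreserving_piCongrLeft (fun _ : ι => μ) e
  have hval : ∀ (θ : Fin n → ℝ) (i : ι),
      (MeasurableEquiv.piCongrLeft (fun _ : ι => ℝ) e) θ i = θ (e.symm i) := by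
    intro θ i
    have h1 := Equiv.piCongrLeft_apply_apply (fun _ : ι => ℝ) e θ (e.symm i)
    rw [Equiv.apply_symm_apply] at h1
    exact h1
  have hfun : ∀ θ : Fin n → ℝ,
      (MeasurableEquiv.piCongrLeft (fun _ : ι => ℝ) e) θ = fun i => θ (e.symm i) := fun θ =>
    funext (hval θ)
  let g : (Fin n → ℝ) → ℝ := fun θ => f (fun i => θ (e.symm i))
  have hg : Measurable g := hf.comp (measurable_pi_iff.2 fun i => measurable_pi_apply (e.symm i))
  have hgb : ∀ θ v y, |g (Function.update θ v y) - g θ| ≤ c (e v) := by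
    intro θ v y
    have h1 : (fun i => Function.update θ v y (e.symm i)) =
        Function.update (fun i => θ (e.symm i)) (e v) y := by
      ext i
      by_cases hi : i = e v
      · subst hi
        simp
      · have h2 : e.symm i ≠ v := fun h => hi (by rw [← h, Equiv.apply_symm_apply])
        simp [Function.update_of_ne hi, Function.update_of_ne h2]
    show |f (fun i => Function.update θ v y (e.symm i)) - f (fun i => θ (e.symm i))| ≤ c (e v)
    rw [h1]
    exact h _ _ _
  have hint : ∀ F : (ι → ℝ) → ℝ, ∫ θ, F θ ∂(Measure.pi fun _ : ι => μ) =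
      ∫ θ, F (fun i => θ (e.symm i)) ∂(Measure.pi fun _ : Fin n => μ) := by
    intro F
    rw [← hmp.integral_comp' (g := F)]
    simp_rw [hfun]
  have hfM := Bdd_bdd f c h
  set M := |f 0| + ∑ v, c v
  set m := ∫ θ', f θ' ∂(Measure.pi fun _ : ι => μ) with hm
  have hmgf : ∀ s : ℝ, ProbabilityTheory.mgf (fun θ => f θ - m) (Measure.pi fun _ : ι => μ) s ≤
      Real.exp (s ^ 2 * (∑ v, c v ^ 2) / 2) := by
    intro s
    have h1 := Bdd_mgf μ s n g (fun v => c (e v)) hg hgb
    have h2 : ProbabilityTheory.mgf (fun θ => f θ - m) (Measure.pi fun _ : ι => μ) s =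
        Real.exp (-(s * m)) * ∫ θ, Real.exp (s * g θ) ∂(Measure.pi fun _ : Fin n => μ) := by
      rw [ProbabilityTheory.mgf, hint, ← integral_const_mul]
      refine integral_congr_ae (Eventually.of_forall fun θ => ?_)
      show Real.exp (s * (f (fun i => θ (e.symm i)) - m)) = Real.exp (-(s * m)) *
        Real.exp (s * f (fun i => θ (e.symm i)))
      rw [← Real.exp_add]
      congr 1
      ring
    have h3 : (∫ θ, g θ ∂(Measure.pi fun _ : Fin n => μ)) = m := (hint f).symm
    have h4 : ∑ v, c (e v) ^ 2 = ∑ v, c v ^ 2 := Equiv.sum_comp e (fun v => c v ^ 2)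
    rw [h3, h4] at h1
    rw [h2]
    calc Real.exp (-(s * m)) * ∫ θ, Real.exp (s * g θ) ∂(Measure.pi fun _ : Fin n => μ)
        ≤ Real.exp (-(s * m)) * Real.exp (s * m + s ^ 2 * (∑ v, c v ^ 2) / 2) :=
          mul_le_mul_of_nonneg_left h1 (Real.exp_pos _).le
      _ = _ := by
          rw [← Real.exp_add]
          congr 1
          ring
  set Q := ∑ v, c v ^ 2 with hQ
  have hQ0 : 0 ≤ Q := Finset.sum_nonneg fun v _ => sq_nonneg _
  rcases hQ0.eq_or_lt with hq | hq
  · rw [← hq]
    simp only [mul_zero, div_zero, neg_zero, Real.exp_zero]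
    exact measureReal_le_one
  · have hs : 0 ≤ t / Q := div_nonneg ht hq.le
    have h5 : Integrable (fun θ => Real.exp (t / Q * (f θ - m))) (Measure.pi fun _ : ι => μ) := by
      refine Bdd_int _ _ (Real.measurable_exp.comp ((hf.sub_const m).const_mul _))
        (Real.exp (t / Q * (M + |m|))) (fun θ => ?_)
      rw [abs_of_pos (Real.exp_pos _)]
      refine Real.exp_le_exp.2 (mul_le_mul_of_nonneg_left ?_ hs)
      have h6 := (le_abs_self (f θ)).trans (hfM θ)
      have h7 := neg_abs_le m
      linarith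
    refine (ProbabilityTheory.measure_ge_le_exp_mul_mgf (X := fun θ => f θ - m) t hs h5).trans ?_
    calc Real.exp (-(t / Q) * t) * ProbabilityTheory.mgf (fun θ => f θ - m)
          (Measure.pi fun _ : ι => μ) (t / Q)
        ≤ Real.exp (-(t / Q) * t) * Real.exp ((t / Q) ^ 2 * Q / 2) :=
          mul_le_mul_of_nonneg_left (hmgf _) (Real.exp_pos _).le
      _ = _ := by
          rw [← Real.exp_add]
          congr 1
          field_simp
          ring

end Pool.Agent.PCW
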