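import Mathlib
import Pool.Agent.PCW.St

set_option autoImplicit false

/-! PCW Bes: the inequality for the Bessel functions. -/

namespace Pool.Agent.PCW

open Finset Filter MeasureTheory Matrix

private theorem Bes_int (f : ℝ → ℂ) :
    ∫ θ, f θ ∂nu = (1 / (2 * Real.pi) : ℝ) • ∫ θ in (0 : ℝ)..(2 * Real.pi), f θ := by
  rw [nu, integral_smul_measure, ENNReal.toReal_ofReal (by positivity),
    intervalIntegral.integral_of_le (by positivity)]

private theorem Bes_exp (n : ℤ) :
    ∫ θ : ℝ, Complex.exp (n * (θ * Complex.I)) ∂nu = if n = 0 then 1 else 0 := by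
  rw [Bes_int]
  split_ifs with h
  · subst h
    simp only [Int.cast_zero, zero_mul, Complex.exp_zero, intervalIntegral.integral_const, sub_zero]
    have hpi : (2 * Real.pi) ≠ 0 := by positivity
    rw [smul_smul, one_div, inv_mul_cancel₀ hpi, one_smul]
  · have hc : ((n : ℂ) * Complex.I) ≠ 0 := mul_ne_zero (by exact_mod_cast h) Complex.I_ne_zero
    have h1 : ∀ θ : ℝ, Complex.exp (n * (θ * Complex.I)) = Complex.exp ((n * Complex.I) * θ) := by
      intro θ
      congr 1
      ring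
    simp_rw [h1]
    rw [integral_exp_mul_complex hc]
    have h2 : Complex.exp ((n : ℂ) * Complex.I * ((2 * Real.pi : ℝ) : ℂ)) = 1 := by
      have : (n : ℂ) * Complex.I * ((2 * Real.pi : ℝ) : ℂ) = n * (2 * Real.pi * Complex.I) := by
        push_cast
        ring
      rw [this, Complex.exp_int_mul_two_pi_mul_I]
    rw [h2]
    simp

/-- the term of the exponential series -/
private noncomputable def Bes_a (x : ℂ) (k : ℕ) : ℂ := x ^ k / (k.factorial : ℂ)

private theorem Bes_a_sum (x : ℂ) : HasSum (Bes_a x) (Complex.exp x) := by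
  have := NormedSpace.expSeries_div_hasSum_exp (𝔸 := ℂ) x
  rwa [← Complex.exp_eq_exp_ℂ] at this

private theorem Bes_a_norm (x : ℂ) (k : ℕ) : ‖Bes_a x k‖ = ‖x‖ ^ k / (k.factorial : ℝ) := by
  rw [Bes_a, norm_div, norm_pow]
  simp

private theorem Bes_a_summable (x : ℂ) : Summable (fun k : ℕ => ‖Bes_a x k‖) :=
  (Real.summable_pow_div_factorial ‖x‖).congr fun k => (Bes_a_norm x k).symm

private theorem Bes_a_mul (x y : ℂ) (k : ℕ) : Bes_a (x * y) k = Bes_a x k * y ^ k := by
  rw [Bes_a, Bes_a, mul_pow]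
  ring

private theorem Bes_prod (x y : ℂ) : HasSum (fun p : ℕ × ℕ => Bes_a x p.1 * Bes_a y p.2)
    (Complex.exp x * Complex.exp y) :=
  HasSum.mul (Bes_a_sum x) (Bes_a_sum y)
    (summable_mul_of_summable_norm (Bes_a_summable x) (Bes_a_summable y))

private theorem Bes_sum (w : ℂ) (z : ℂ) : HasSum
    (fun p : ℕ × ℕ => Bes_a (w / 2 * z) p.1 * Bes_a (starRingEnd ℂ w / 2 * starRingEnd ℂ z) p.2)
    ((Real.exp ((w * z).re) : ℝ) : ℂ) := by
  have h1 := Bes_prod (w / 2 * z) (starRingEnd ℂ w / 2 * starRingEnd ℂ z)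
  rw [← Complex.exp_add] at h1
  have h2 : w / 2 * z + starRingEnd ℂ w / 2 * starRingEnd ℂ z = (((w * z).re : ℝ) : ℂ) := by
    have h3 := Complex.add_conj (w * z)
    rw [map_mul] at h3
    have h4 : w / 2 * z + starRingEnd ℂ w / 2 * starRingEnd ℂ z =
      (w * z + starRingEnd ℂ w * starRingEnd ℂ z) / 2 := by ring
    rw [h4, h3]
    push_cast
    ring
  rwa [h2, ← Complex.ofReal_exp] at h1

private theorem Bes_conj (θ : ℝ) :
    starRingEnd ℂ (Complex.exp (θ * Complex.I)) = Complex.exp (-(θ * Complex.I)) := by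
  rw [← Complex.exp_conj, map_mul, Complex.conj_ofReal, Complex.conj_I]
  congr 1
  ring

private theorem Bes_term (w : ℂ) (m : ℕ) (p : ℕ × ℕ) (θ : ℝ) :
    (Bes_a (w / 2 * Complex.exp (θ * Complex.I)) p.1 *
      Bes_a (starRingEnd ℂ w / 2 * starRingEnd ℂ (Complex.exp (θ * Complex.I))) p.2) *
      Complex.exp ((m : ℤ) * (θ * Complex.I)) =
    (Bes_a (w / 2) p.1 * Bes_a (starRingEnd ℂ w / 2) p.2) *
      Complex.exp ((((p.1 : ℤ) - (p.2 : ℤ) + (m : ℤ) : ℤ) : ℂ) * (θ * Complex.I)) := by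
  rw [Bes_a_mul, Bes_a_mul, Bes_conj, ← Complex.exp_nat_mul, ← Complex.exp_nat_mul]
  have h1 : Complex.exp ((((p.1 : ℤ) - (p.2 : ℤ) + (m : ℤ) : ℤ) : ℂ) * (θ * Complex.I)) =
      Complex.exp ((p.1 : ℂ) * (θ * Complex.I)) * Complex.exp ((p.2 : ℂ) * -(θ * Complex.I)) *
        Complex.exp ((m : ℤ) * (θ * Complex.I)) := by
    rw [← Complex.exp_add, ← Complex.exp_add]
    congr 1
    push_cast
    ring
  rw [h1]
  ring

private theorem Bes_key (hp : IsProbabilityMeasure nu) (w : ℂ) (m : ℕ) : HasSum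
    (fun k : ℕ => Bes_a (w / 2) k * Bes_a (starRingEnd ℂ w / 2) (k + m))
    (∫ θ : ℝ, ((Real.exp ((w * Complex.exp (θ * Complex.I)).re) : ℝ) : ℂ) *
      Complex.exp ((m : ℤ) * (θ * Complex.I)) ∂nu) := by
  have h2 : HasSum (fun p : ℕ × ℕ => ∫ θ : ℝ, (Bes_a (w / 2 * Complex.exp (θ * Complex.I)) p.1 *
      Bes_a (starRingEnd ℂ w / 2 * starRingEnd ℂ (Complex.exp (θ * Complex.I))) p.2) *
      Complex.exp ((m : ℤ) * (θ * Complex.I)) ∂nu)
      (∫ θ : ℝ, ((Real.exp ((w * Complex.exp (θ * Complex.I)).re) : ℝ) : ℂ) *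
        Complex.exp ((m : ℤ) * (θ * Complex.I)) ∂nu) := by
    refine hasSum_integral_of_dominated_convergence
      (fun p _ => ‖Bes_a (w / 2) p.1 * Bes_a (starRingEnd ℂ w / 2) p.2‖) ?_ ?_ ?_ ?_ ?_
    · intro p
      refine Continuous.aestronglyMeasurable ?_
      simp only [Bes_term]
      fun_prop
    · intro p
      refine Eventually.of_forall fun θ => ?_
      rw [Bes_term, norm_mul]
      have h3 : ‖Complex.exp ((((p.1 : ℤ) - (p.2 : ℤ) + (m : ℤ) : ℤ) : ℂ) *
          (θ * Complex.I))‖ = 1 := by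
        have h4 : (((p.1 : ℤ) - (p.2 : ℤ) + (m : ℤ) : ℤ) : ℂ) * (θ * Complex.I) =
            ((((p.1 : ℤ) - (p.2 : ℤ) + (m : ℤ) : ℤ) : ℝ) * θ : ℝ) * Complex.I := by
          push_cast
          ring
        rw [h4, Complex.norm_exp_ofReal_mul_I]
      rw [h3, mul_one]
    · refine Eventually.of_forall fun θ => ?_
      have h3 := summable_mul_of_summable_norm (f := fun k => ‖Bes_a (w / 2) k‖)
        (g := fun k => ‖Bes_a (starRingEnd ℂ w / 2) k‖)
        (by simpa using Bes_a_summable (w / 2)) (by simpa using Bes_a_summable (starRingEnd ℂ w / 2))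
      exact h3.congr fun p => (norm_mul _ _).symm
    · exact integrable_const _
    · refine Eventually.of_forall fun θ => ?_
      exact (Bes_sum w (Complex.exp (θ * Complex.I))).mul_right _
  have h3 : ∀ p : ℕ × ℕ, ∫ θ : ℝ, (Bes_a (w / 2 * Complex.exp (θ * Complex.I)) p.1 *
      Bes_a (starRingEnd ℂ w / 2 * starRingEnd ℂ (Complex.exp (θ * Complex.I))) p.2) *
      Complex.exp ((m : ℤ) * (θ * Complex.I)) ∂nu =
      if p.2 = p.1 + m then Bes_a (w / 2) p.1 * Bes_a (starRingEnd ℂ w / 2) p.2 else 0 := by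
    intro p
    simp_rw [Bes_term]
    rw [integral_const_mul, Bes_exp]
    by_cases h : p.2 = p.1 + m
    · rw [if_pos h, if_pos (by omega), mul_one]
    · rw [if_neg h, if_neg (by omega), mul_zero]
  simp_rw [h3] at h2
  have hinj : Function.Injective (fun k : ℕ => ((k, k + m) : ℕ × ℕ)) := by
    intro a b hab
    exact congrArg Prod.fst hab
  rw [← hinj.hasSum_iff] at h2
  · simpa only [Function.comp_def, if_true] using h2
  · intro p hp
    rw [if_neg]
    intro h
    apply hp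
    exact ⟨p.1, Prod.ext rfl h.symm⟩

/-- the two real series -/
private theorem Bes_real (u : ℝ) (hu : 0 ≤ u) : ∃ I q : ℝ,
    HasSum (fun k : ℕ => u ^ k / ((k.factorial : ℝ) * (k.factorial : ℝ))) I ∧
    HasSum (fun k : ℕ => u ^ k / ((k.factorial : ℝ) * ((k + 1).factorial : ℝ))) q ∧
    0 ≤ q ∧ I ≤ q * (1 + u / 2) ∧ q ≤ Real.exp (u / 2) := by
  have hf1 : ∀ k : ℕ, (1 : ℝ) ≤ (k.factorial : ℝ) := fun k => by
    exact_mod_cast Nat.succ_le_of_lt (Nat.factorial_pos k)
  have hsI : Summable (fun k : ℕ => u ^ k / ((k.factorial : ℝ) * (k.factorial : ℝ))) := by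
    refine Summable.of_nonneg_of_le (fun k => ?_) (fun k => ?_) (Real.summable_pow_div_factorial u)
    · have := hf1 k
      positivity
    · have h1 := hf1 k
      have h2 : 0 ≤ u ^ k := by positivity
      refine div_le_div_of_nonneg_left h2 (by linarith) ?_
      nlinarith
  have hsq : Summable (fun k : ℕ => u ^ k / ((k.factorial : ℝ) * ((k + 1).factorial : ℝ))) := by
    refine Summable.of_nonneg_of_le (fun k => ?_) (fun k => ?_) (Real.summable_pow_div_factorial u)
    · have := hf1 k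
      have := hf1 (k + 1)
      positivity
    · have h1 := hf1 k
      have h3 := hf1 (k + 1)
      have h2 : 0 ≤ u ^ k := by positivity
      refine div_le_div_of_nonneg_left h2 (by linarith) ?_
      nlinarith
  obtain ⟨I, hI⟩ := hsI
  obtain ⟨q, hq⟩ := hsq
  refine ⟨I, q, hI, hq, ?_, ?_, ?_⟩
  · refine hq.nonneg fun k => ?_
    have := hf1 k
    have := hf1 (k + 1)
    positivity
  · have h1 := (hasSum_nat_add_iff' (f := fun k : ℕ =>
      u ^ k / ((k.factorial : ℝ) * (k.factorial : ℝ))) 1).2 hI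
    have h2 := (hasSum_nat_add_iff' (f := fun k : ℕ =>
      u ^ k / ((k.factorial : ℝ) * ((k + 1).factorial : ℝ))) 1).2 hq
    have h3 := h1.sub h2
    have h4 := hq.mul_left (u / 2)
    have h5 := hasSum_le (fun k : ℕ => ?_) h3 h4
    · simp only [Finset.sum_range_one, pow_zero, Nat.factorial_zero, Nat.cast_one, mul_one,
        div_one, Nat.factorial_one, zero_add] at h5
      linarith
    · have g1 := hf1 k
      have e1 : (((k + 1).factorial : ℕ) : ℝ) = (k + 1) * (k.factorial : ℝ) := by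
        rw [Nat.factorial_succ]
        push_cast
        ring
      have e2 : (((k + 1 + 1).factorial : ℕ) : ℝ) = (k + 2) * ((k + 1) * (k.factorial : ℝ)) := by
        rw [Nat.factorial_succ, Nat.cast_mul, e1]
        push_cast
        ring
      rw [e2, e1]
      have hk : (0 : ℝ) ≤ (k : ℝ) := Nat.cast_nonneg k
      have hg : (k.factorial : ℝ) ≠ 0 := by positivity
      have e3 : u ^ (k + 1) / (((k : ℝ) + 1) * (k.factorial : ℝ) * (((k : ℝ) + 1) * (k.factorial : ℝ))) -
          u ^ (k + 1) / (((k : ℝ) + 1) * (k.factorial : ℝ) *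
            (((k : ℝ) + 2) * (((k : ℝ) + 1) * (k.factorial : ℝ)))) =
          u ^ (k + 1) / ((k.factorial : ℝ) * (((k : ℝ) + 2) * (((k : ℝ) + 1) * (k.factorial : ℝ)))) := by
        field_simp
        ring
      rw [e3]
      have e4 : u / 2 * (u ^ k / ((k.factorial : ℝ) * (((k : ℝ) + 1) * (k.factorial : ℝ)))) =
          u ^ (k + 1) / ((k.factorial : ℝ) * (2 * (((k : ℝ) + 1) * (k.factorial : ℝ)))) := by
        rw [pow_succ]
        field_simp
      rw [e4]
      refine div_le_div_of_nonneg_left (by positivity) (by positivity) ?_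
      have h6 : (0 : ℝ) ≤ ((k : ℝ) + 1) * (k.factorial : ℝ) := by positivity
      have h7 : 2 * (((k : ℝ) + 1) * (k.factorial : ℝ)) ≤
          ((k : ℝ) + 2) * (((k : ℝ) + 1) * (k.factorial : ℝ)) := by
        nlinarith
      nlinarith
  · have h1 : HasSum (fun k : ℕ => (u / 2) ^ k / (k.factorial : ℝ)) (Real.exp (u / 2)) := by
      have := NormedSpace.expSeries_div_hasSum_exp (𝔸 := ℝ) (u / 2)
      rwa [← Real.exp_eq_exp_ℝ] at this
    refine hasSum_le (fun k : ℕ => ?_) hq h1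
    have h2 : (2 : ℝ) ^ k ≤ ((k + 1).factorial : ℝ) := by
      have h3 : 2 ^ k ≤ (k + 1).factorial := by
        induction k with
        | zero => simp
        | succ n ih =>
          rw [Nat.factorial_succ, pow_succ, mul_comm]
          exact Nat.mul_le_mul (by omega) ih
      exact_mod_cast h3
    have h4 := hf1 k
    rw [div_pow, div_div]
    refine div_le_div_of_nonneg_left (by positivity) (by positivity) ?_
    rw [mul_comm]
    exact mul_le_mul_of_nonneg_left h2 (by linarith)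

private theorem Bes_cont_int {f : ℝ → ℂ} (hf : Continuous f) : Integrable f nu := by
  have h1 : IntegrableOn f (Set.Ioc 0 (2 * Real.pi)) volume :=
    (hf.integrableOn_Icc).mono_set Set.Ioc_subset_Icc_self
  exact Integrable.smul_measure h1 ENNReal.ofReal_ne_top

private theorem Bes_norm (w : ℂ) : (((‖w‖ ^ 2 / 4 : ℝ)) : ℂ) = (w / 2) * (starRingEnd ℂ w / 2) := by
  have h1 : w * starRingEnd ℂ w = ((‖w‖ ^ 2 : ℝ) : ℂ) := by
    rw [Complex.mul_conj, Complex.normSq_eq_norm_sq]
  have h2 : (w / 2) * (starRingEnd ℂ w / 2) = (w * starRingEnd ℂ w) / 4 := by ring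
  rw [h2, h1]
  push_cast
  ring

theorem thm_Bes (h1 : St_Law) : St_Bes := by
  intro ρ c hρ
  obtain ⟨hprob, -, hnorm, -, -, -⟩ := h1
  obtain ⟨w, hw⟩ : ∃ w : ℂ, w = ρ * starRingEnd ℂ c := ⟨_, rfl⟩
  obtain ⟨u, hu⟩ : ∃ u : ℝ, u = ‖w‖ ^ 2 / 4 := ⟨_, rfl⟩
  have hu0 : 0 ≤ u := by rw [hu]; positivity
  obtain ⟨I, q, hI, hq, hq0, hIq, hqe⟩ := Bes_real u hu0
  have hmu : 0 < mu ρ := by
    unfold mu
    positivity
  -- the two complex integrals
  have k0 := Bes_key hprob w 0
  have k1 := Bes_key hprob w 1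
  have e0 : (∫ θ : ℝ, ((Real.exp ((w * Complex.exp (θ * Complex.I)).re) : ℝ) : ℂ) *
      Complex.exp (((0 : ℕ) : ℤ) * (θ * Complex.I)) ∂nu) = (I : ℂ) := by
    refine k0.unique ?_
    have h2 := (Complex.hasSum_ofReal (f := fun k : ℕ =>
      u ^ k / ((k.factorial : ℝ) * (k.factorial : ℝ)))).2 hI
    have h3 : (fun k : ℕ => Bes_a (w / 2) k * Bes_a (starRingEnd ℂ w / 2) (k + 0)) =
        fun k : ℕ => ((u ^ k / ((k.factorial : ℝ) * (k.factorial : ℝ)) : ℝ) : ℂ) := by
      funext k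
      rw [Bes_a, Bes_a, add_zero, Complex.ofReal_div, Complex.ofReal_pow, hu, Bes_norm, mul_pow]
      push_cast
      ring
    rw [h3]
    exact h2
  have e1 : (∫ θ : ℝ, ((Real.exp ((w * Complex.exp (θ * Complex.I)).re) : ℝ) : ℂ) *
      Complex.exp (((1 : ℕ) : ℤ) * (θ * Complex.I)) ∂nu) = starRingEnd ℂ w / 2 * (q : ℂ) := by
    refine k1.unique ?_
    have h2 := (Complex.hasSum_ofReal (f := fun k : ℕ =>
      u ^ k / ((k.factorial : ℝ) * ((k + 1).factorial : ℝ)))).2 hq
    have h3 : (fun k : ℕ => Bes_a (w / 2) k * Bes_a (starRingEnd ℂ w / 2) (k + 1)) =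
        fun k : ℕ => starRingEnd ℂ w / 2 *
          ((u ^ k / ((k.factorial : ℝ) * ((k + 1).factorial : ℝ)) : ℝ) : ℂ) := by
      funext k
      rw [Bes_a, Bes_a, Complex.ofReal_div, Complex.ofReal_pow, hu, Bes_norm, mul_pow, pow_succ]
      push_cast
      ring
    rw [h3]
    exact h2.mul_left _
  -- the real integral
  have hcE : Continuous fun θ : ℝ =>
      ((Real.exp ((w * Complex.exp (θ * Complex.I)).re) : ℝ) : ℂ) := by
    have h2 : Continuous fun θ : ℝ => (w * Complex.exp (θ * Complex.I)).re :=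
      Complex.continuous_re.comp (by fun_prop)
    exact Complex.continuous_ofReal.comp (Real.continuous_exp.comp h2)
  have hint0 : Integrable (fun θ : ℝ =>
      ((Real.exp ((w * Complex.exp (θ * Complex.I)).re) : ℝ) : ℂ) *
      Complex.exp (((0 : ℕ) : ℤ) * (θ * Complex.I))) nu :=
    Bes_cont_int (hcE.mul (by fun_prop))
  have hint1 : Integrable (fun θ : ℝ =>
      ((Real.exp ((w * Complex.exp (θ * Complex.I)).re) : ℝ) : ℂ) *
      Complex.exp (((1 : ℕ) : ℤ) * (θ * Complex.I))) nu :=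
    Bes_cont_int (hcE.mul (by fun_prop))
  have hL : ∫ θ, Real.exp ((starRingEnd ℂ c * pt ρ θ).re) * ‖cw ρ θ‖ ∂nu =
      mu ρ * I + ρ * c.re / 2 * q := by
    have h2 : ∫ θ : ℝ, ((mu ρ : ℂ) * (((Real.exp ((w * Complex.exp (θ * Complex.I)).re) : ℝ) : ℂ) *
        Complex.exp (((0 : ℕ) : ℤ) * (θ * Complex.I))) +
        ((Real.exp ((w * Complex.exp (θ * Complex.I)).re) : ℝ) : ℂ) *
        Complex.exp (((1 : ℕ) : ℤ) * (θ * Complex.I))) ∂nu =
        (mu ρ : ℂ) * (I : ℂ) + starRingEnd ℂ w / 2 * (q : ℂ) := by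
      rw [integral_add (hint0.const_mul _) hint1, integral_const_mul, e0, e1]
    have h3 := Complex.reCLM.integral_comp_comm ((hint0.const_mul (mu ρ : ℂ)).add hint1)
    have h4 : ∀ θ : ℝ, Real.exp ((starRingEnd ℂ c * pt ρ θ).re) * ‖cw ρ θ‖ =
        Complex.reCLM ((mu ρ : ℂ) * (((Real.exp ((w * Complex.exp (θ * Complex.I)).re) : ℝ) : ℂ) *
        Complex.exp (((0 : ℕ) : ℤ) * (θ * Complex.I))) +
        ((Real.exp ((w * Complex.exp (θ * Complex.I)).re) : ℝ) : ℂ) *
        Complex.exp (((1 : ℕ) : ℤ) * (θ * Complex.I))) := by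
      intro θ
      have h5 : starRingEnd ℂ c * pt ρ θ = w * Complex.exp (θ * Complex.I) := by
        rw [hw, pt]
        ring
      have h6 : Complex.exp (((0 : ℕ) : ℤ) * (θ * Complex.I)) = 1 := by simp
      have h7 : Complex.exp (((1 : ℕ) : ℤ) * (θ * Complex.I)) =
          Complex.exp (θ * Complex.I) := by simp
      rw [h5, h6, h7, hnorm ρ θ hρ, Complex.reCLM_apply, Complex.add_re, mul_one,
        ← Complex.ofReal_mul, Complex.ofReal_re, Complex.re_ofReal_mul,
        Complex.exp_ofReal_mul_I_re]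
      ring
    simp_rw [h4]
    have h8 : ∫ θ : ℝ, Complex.reCLM ((mu ρ : ℂ) *
        (((Real.exp ((w * Complex.exp (θ * Complex.I)).re) : ℝ) : ℂ) *
        Complex.exp (((0 : ℕ) : ℤ) * (θ * Complex.I))) +
        ((Real.exp ((w * Complex.exp (θ * Complex.I)).re) : ℝ) : ℂ) *
        Complex.exp (((1 : ℕ) : ℤ) * (θ * Complex.I))) ∂nu =
        Complex.reCLM ((mu ρ : ℂ) * (I : ℂ) + starRingEnd ℂ w / 2 * (q : ℂ)) := by
      rw [← h2]
      exact h3
    rw [h8, Complex.reCLM_apply, Complex.add_re, ← Complex.ofReal_mul, Complex.ofReal_re,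
      mul_comm (starRingEnd ℂ w / 2), Complex.re_ofReal_mul]
    have h9 : (starRingEnd ℂ w / 2).re = ρ * c.re / 2 := by
      rw [hw, map_mul, Complex.conj_conj, Complex.conj_ofReal]
      have h10 : (ρ : ℂ) * c / 2 = ((ρ / 2 : ℝ) : ℂ) * c := by
        push_cast
        ring
      rw [h10, Complex.re_ofReal_mul]
      ring
    rw [h9]
    ring
  rw [hL]
  have hu2 : ρ ^ 2 * ‖c‖ ^ 2 / 4 = u := by
    rw [hu, hw, norm_mul, RCLike.norm_conj, Complex.norm_real, Real.norm_eq_abs, mul_pow, sq_abs]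
  rw [hu2]
  obtain ⟨s, hs⟩ : ∃ s : ℝ, s = ρ * c.re / (2 * mu ρ) := ⟨_, rfl⟩
  have hs2 : ρ * c.re / 2 = mu ρ * s := by
    rw [hs]
    field_simp
  rw [← hs, hs2]
  have h5 : 1 + (u / 2 + s) ≤ Real.exp (u / 2 + s) := by
    have := Real.add_one_le_exp (u / 2 + s)
    linarith
  calc mu ρ * I + mu ρ * s * q = mu ρ * (I + s * q) := by ring
    _ ≤ mu ρ * (q * (1 + (u / 2 + s))) := by
        refine mul_le_mul_of_nonneg_left ?_ hmu.le
        linarith
    _ ≤ mu ρ * (Real.exp (u / 2) * Real.exp (u / 2 + s)) := by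
        refine mul_le_mul_of_nonneg_left ?_ hmu.le
        calc q * (1 + (u / 2 + s)) ≤ q * Real.exp (u / 2 + s) :=
              mul_le_mul_of_nonneg_left h5 hq0
          _ ≤ Real.exp (u / 2) * Real.exp (u / 2 + s) :=
              mul_le_mul_of_nonneg_right hqe (Real.exp_pos _).le
    _ = mu ρ * Real.exp (u + s) := by
        rw [← Real.exp_add]
        congr 2
        ring

end Pool.Agent.PCW
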