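import Pool.Agent.PCW.St

/-!
# PCW: the central region (module Cen, helper47)
-/

set_option autoImplicit false

namespace Pool.Agent.PCW

open Finset Filter MeasureTheory Matrix

/-! ### The points `xx θ` -/

private theorem Cen_xx_cont {ι : Type} : Continuous (fun θ : ι → ℝ => xx θ) := by
  unfold xx pt
  fun_prop

private theorem Cen_xx_norm {ι : Type} (θ : ι → ℝ) (v : ι) : ‖xx θ v‖ = 2 := by
  unfold xx pt
  rw [norm_mul, Complex.norm_exp_ofReal_mul_I, mul_one, Complex.norm_real]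
  norm_num

private theorem Cen_int {ι : Type} [Fintype ι] (hp : IsProbabilityMeasure nu2) {E' : Type}
    [NormedAddCommGroup E'] (F : (ι → ℂ) → E') (hF : Continuous F) :
    Integrable (fun θ => F (xx θ)) (PP ι) := by
  have hP : IsProbabilityMeasure (PP ι) := by
    unfold PP
    infer_instance
  obtain ⟨c, hc⟩ := (isCompact_closedBall (0 : ι → ℂ) 2).exists_bound_of_continuousOn
    hF.continuousOn
  apply Integrable.of_bound (C := c)
  · exact (hF.comp Cen_xx_cont).aestronglyMeasurable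
  · refine Filter.Eventually.of_forall fun θ => hc _ ?_
    rw [mem_closedBall_zero_iff, pi_norm_le_iff_of_nonneg (by norm_num)]
    intro v
    exact (Cen_xx_norm θ v).le

/-! ### Elementary inequalities -/

private theorem Cen_log1 (y : ℂ) (hy : ‖y‖ ≤ 1 / 4) :
    ‖1 + y‖ ≤ Real.exp (y.re + (y.im ^ 2 - y.re ^ 2) / 2 + 15 * ‖y‖ ^ 3) := by
  obtain ⟨r, hr⟩ : ∃ r : ℝ, r = ‖y‖ := ⟨_, rfl⟩
  obtain ⟨a, ha⟩ : ∃ a : ℝ, a = y.re := ⟨_, rfl⟩
  obtain ⟨b, hb⟩ : ∃ b : ℝ, b = y.im := ⟨_, rfl⟩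
  have hr2 : r ^ 2 = a ^ 2 + b ^ 2 := by
    rw [hr, ha, hb, Complex.sq_norm, Complex.normSq_apply]
    ring
  have h1y : ‖1 + y‖ ^ 2 = 1 + (2 * a + r ^ 2) := by
    rw [Complex.sq_norm, Complex.normSq_apply, hr2, ha, hb]
    simp
    ring
  have hr0 : 0 ≤ r := by rw [hr]; exact norm_nonneg _
  have har : |a| ≤ r := by rw [hr, ha]; exact Complex.abs_re_le_norm y
  rw [← hr] at hy
  obtain ⟨u, hu⟩ : ∃ u : ℝ, u = 2 * a + r ^ 2 := ⟨_, rfl⟩
  have ha' := abs_le.mp har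
  have hu1 : |u| ≤ 9 / 4 * r := by
    rw [hu, abs_le]
    constructor
    · nlinarith
    · nlinarith
  have hu2 : |u| ≤ 9 / 16 := by linarith
  have hlog := Real.abs_log_sub_add_sum_range_le (x := -u) (by rw [abs_neg]; linarith) 2
  rw [abs_neg, Finset.sum_range_succ, Finset.sum_range_one] at hlog
  have hlog2 := (abs_le.mp hlog).2
  have hu3 : |u| ^ (2 + 1) / (1 - |u|) ≤ 27 * r ^ 3 := by
    rw [div_le_iff₀ (by linarith)]
    have h1 : |u| ^ (2 + 1) ≤ (9 / 4 * r) ^ 3 := pow_le_pow_left₀ (abs_nonneg u) hu1 3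
    have h2 : (9 / 4 * r) ^ 3 = 729 / 64 * r ^ 3 := by ring
    have h3 : 0 ≤ r ^ 3 := by positivity
    have h4 : 27 * r ^ 3 * (7 / 16) ≤ 27 * r ^ 3 * (1 - |u|) :=
      mul_le_mul_of_nonneg_left (by linarith) (by positivity)
    calc |u| ^ (2 + 1) ≤ 729 / 64 * r ^ 3 := h1.trans h2.le
      _ ≤ 27 * r ^ 3 * (7 / 16) := by linarith
      _ ≤ 27 * r ^ 3 * (1 - |u|) := h4
  have hlog3 : Real.log (1 + u) ≤ u - u ^ 2 / 2 + 27 * r ^ 3 := by
    have e1 : (1 : ℝ) - -u = 1 + u := by ring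
    rw [e1] at hlog2
    norm_num at hlog2
    have e2 : |u| ^ 3 / (1 - |u|) ≤ 27 * r ^ 3 := hu3
    linarith
  have hu4 : u - u ^ 2 / 2 ≤ 2 * a + b ^ 2 - a ^ 2 + 2 * r ^ 3 := by
    have h1 : -(a * r ^ 2) ≤ r ^ 3 := by
      have : -a * r ^ 2 ≤ r * r ^ 2 := mul_le_mul_of_nonneg_right (by linarith) (by positivity)
      nlinarith
    have h2 : u - u ^ 2 / 2 = 2 * a + (r ^ 2 - 2 * a ^ 2) - 2 * (a * r ^ 2) - r ^ 4 / 2 := by
      rw [hu]
      ring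
    have h3 : r ^ 2 - 2 * a ^ 2 = b ^ 2 - a ^ 2 := by rw [hr2]; ring
    have h4 : 0 ≤ r ^ 4 := by positivity
    rw [h2, h3]
    linarith
  have hpos : 0 < 1 + u := by
    have := (abs_le.mp hu2).1
    linarith
  have hexp : 1 + u ≤ Real.exp (2 * (a + (b ^ 2 - a ^ 2) / 2 + 15 * r ^ 3)) := by
    rw [← Real.log_le_iff_le_exp hpos]
    have h3 : 0 ≤ r ^ 3 := by positivity
    linarith
  rw [← ha, ← hb, ← hr]
  have h5 : ‖1 + y‖ ^ 2 ≤ Real.exp (a + (b ^ 2 - a ^ 2) / 2 + 15 * r ^ 3) ^ 2 := by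
    rw [h1y, ← hu, ← Real.exp_nat_mul]
    exact_mod_cast hexp
  exact le_of_sq_le_sq h5 (Real.exp_pos _).le

private theorem Cen_prod1 (m : ℕ) (α δ : ℝ) (ξ : Fin m → ℂ) (hα : 1 / 2 ≤ α) (hδ : δ ≤ 1 / 8)
    (hξ : ∀ i, ‖ξ i‖ ≤ δ) (hs : ∑ i, ξ i = 0) :
    ∏ i, ‖(α : ℂ) + ξ i‖ ≤ α ^ m * Real.exp (120 * m * δ ^ 3) *
      Real.exp (1 / (2 * α ^ 2) * ∑ i, ((ξ i).im ^ 2 - (ξ i).re ^ 2)) := by
  have hα0 : 0 < α := by linarith
  have hfac : ∀ i, ‖(α : ℂ) + ξ i‖ ≤ α * Real.exp ((ξ i).re / α +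
      1 / (2 * α ^ 2) * ((ξ i).im ^ 2 - (ξ i).re ^ 2) + 120 * δ ^ 3) := by
    intro i
    have hαc : (α : ℂ) ≠ 0 := by exact_mod_cast hα0.ne'
    have h1 : (α : ℂ) + ξ i = α * (1 + ξ i / α) := by
      rw [mul_add, mul_one, mul_div_cancel₀ _ hαc]
    have hn : ‖ξ i / (α : ℂ)‖ = ‖ξ i‖ / α := by
      rw [norm_div, Complex.norm_real, Real.norm_of_nonneg hα0.le]
    have hn2 : ‖ξ i‖ / α ≤ 2 * δ := by
      rw [div_le_iff₀ hα0]
      have := hξ i
      have h0 : 0 ≤ δ := (norm_nonneg _).trans this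
      nlinarith
    have h2 := Cen_log1 (ξ i / α) (by rw [hn]; linarith)
    rw [h1, norm_mul, Complex.norm_real, Real.norm_of_nonneg hα0.le]
    apply mul_le_mul_of_nonneg_left _ hα0.le
    refine h2.trans (Real.exp_le_exp.mpr ?_)
    rw [hn, Complex.div_ofReal_re, Complex.div_ofReal_im]
    have h3 : (‖ξ i‖ / α) ^ 3 ≤ (2 * δ) ^ 3 := pow_le_pow_left₀ (by positivity) hn2 3
    have h4 : ((ξ i).im / α) ^ 2 - ((ξ i).re / α) ^ 2 =
        2 * (1 / (2 * α ^ 2) * ((ξ i).im ^ 2 - (ξ i).re ^ 2)) := by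
      field_simp
    rw [h4]
    have h5 : (2 * δ) ^ 3 = 8 * δ ^ 3 := by ring
    rw [h5] at h3
    linarith
  calc ∏ i, ‖(α : ℂ) + ξ i‖ ≤ ∏ i, (α * Real.exp ((ξ i).re / α +
      1 / (2 * α ^ 2) * ((ξ i).im ^ 2 - (ξ i).re ^ 2) + 120 * δ ^ 3)) :=
        Finset.prod_le_prod (fun i _ => norm_nonneg _) (fun i _ => hfac i)
    _ = α ^ m * Real.exp (∑ i, ((ξ i).re / α +
      1 / (2 * α ^ 2) * ((ξ i).im ^ 2 - (ξ i).re ^ 2) + 120 * δ ^ 3)) := by
        rw [Finset.prod_mul_distrib, Finset.prod_const, Finset.card_univ, Fintype.card_fin,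
          Real.exp_sum]
    _ = _ := by
        rw [Finset.sum_add_distrib, Finset.sum_add_distrib, ← Finset.sum_div, ← Complex.re_sum, hs,
          Complex.zero_re, zero_div, zero_add, Finset.sum_const, Finset.card_univ,
          Fintype.card_fin, nsmul_eq_mul, ← Finset.mul_sum, Real.exp_add]
        ring_nf

/-! ### The matrix `E` -/

private theorem Cen_xj_sum {m : ℕ} {C : ℝ} {E : Matrix (Fin m) (Fin m) ℝ} (hE : Hyp C m E)
    (y : Fin m → ℂ) : ∑ i, xj E y i = 0 := by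
  unfold xj
  rw [Finset.sum_comm]
  apply Finset.sum_eq_zero
  intro j _
  rw [← Finset.sum_mul]
  have h1 : ∑ i, (E i j : ℂ) = ((∑ i, E j i : ℝ) : ℂ) := by
    rw [Complex.ofReal_sum]
    apply Finset.sum_congr rfl
    intro i _
    rw [hE.symm i j]
  rw [h1, hE.row j, Complex.ofReal_zero, zero_mul]

private theorem Cen_xi_l {m : ℕ} (E : Matrix (Fin m) (Fin m) ℝ) (x : V m → ℂ) (i : Fin m) :
    xi E x (Sum.inl i) = xj E (fun j => x (Sum.inr j)) i := by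
  unfold xi xj Eb
  rw [Fintype.sum_sum_type]
  simp

private theorem Cen_xi_r {m : ℕ} (E : Matrix (Fin m) (Fin m) ℝ) (x : V m → ℂ) (i : Fin m) :
    xi E x (Sum.inr i) = xj E (fun j => x (Sum.inl j)) i := by
  unfold xi xj Eb
  rw [Fintype.sum_sum_type]
  simp

private theorem Cen_dv_l {m : ℕ} (E : Matrix (Fin m) (Fin m) ℝ) (α β : ℝ) (x : V m → ℂ)
    (i : Fin m) : dv E α β x (Sum.inl i) = (α : ℂ) + xj E (fun j => x (Sum.inr j)) i := by
  unfold dv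
  rw [Cen_xi_l]
  rfl

private theorem Cen_dv_r {m : ℕ} (E : Matrix (Fin m) (Fin m) ℝ) (α β : ℝ) (x : V m → ℂ)
    (i : Fin m) : dv E α β x (Sum.inr i) = (β : ℂ) + xj E (fun j => x (Sum.inl j)) i := by
  unfold dv
  rw [Cen_xi_r]
  rfl

private theorem Cen_BB {m : ℕ} {C : ℝ} {E : Matrix (Fin m) (Fin m) ℝ} (hm : 1 ≤ m)
    (hE : Hyp C m E) (i : Fin m) : ∑ j, BB E i j ^ 2 * 2 ^ 2 ≤ 4 * (C * Real.log m + 1) / m := by
  have hm0 : (0 : ℝ) < m := by exact_mod_cast hm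
  have h1 : ∑ j, BB E i j ^ 2 * 2 ^ 2 = 4 * (∑ j, E i j ^ 2) + 8 / m * (∑ j, E i j) + 4 / m := by
    have h2 : ∀ j, BB E i j ^ 2 * 2 ^ 2 = 4 * E i j ^ 2 + 8 / m * E i j + 4 / (m : ℝ) ^ 2 := by
      intro j
      unfold BB
      field_simp
      ring
    rw [Finset.sum_congr rfl (fun j _ => h2 j), Finset.sum_add_distrib, Finset.sum_add_distrib,
      ← Finset.mul_sum, ← Finset.mul_sum, Finset.sum_const, Finset.card_univ, Fintype.card_fin,
      nsmul_eq_mul]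
    congr 1
    field_simp
  rw [h1, hE.row i, mul_zero, add_zero]
  have h3 := hE.sq i
  have h4 : 4 * (C * Real.log m + 1) / m = 4 * (C * Real.log m / m) + 4 / m := by ring
  rw [h4]
  linarith

private theorem Cen_Bb_l {m : ℕ} {C : ℝ} {E : Matrix (Fin m) (Fin m) ℝ} (hm : 1 ≤ m)
    (hE : Hyp C m E) (x : V m → ℂ) (hx : ∀ v, ‖x v‖ = 2) (v : V m) :
    ∑ w, Bb E v w ^ 2 * ‖x w‖ ^ 2 ≤ 4 * (C * Real.log m + 1) / m := by
  rw [Fintype.sum_sum_type]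
  simp only [hx]
  rcases v with i | i
  · have h1 : ∑ j, Bb E (Sum.inl i) (Sum.inl j) ^ 2 * (2 : ℝ) ^ 2 = 0 := by
      apply Finset.sum_eq_zero
      intro j _
      unfold Bb
      simp
    rw [h1, zero_add]
    exact Cen_BB hm hE i
  · have h1 : ∑ j, Bb E (Sum.inr i) (Sum.inr j) ^ 2 * (2 : ℝ) ^ 2 = 0 := by
      apply Finset.sum_eq_zero
      intro j _
      unfold Bb
      simp
    rw [h1, add_zero]
    exact Cen_BB hm hE i

/-- continuity of the one-sided forms -/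
private theorem Cen_xj_cont {m : ℕ} (E : Matrix (Fin m) (Fin m) ℝ) (i : Fin m) :
    Continuous (fun y : Fin m → ℂ => xj E y i) := by
  unfold xj
  fun_prop

private theorem Cen_dv_cont {m : ℕ} (E : Matrix (Fin m) (Fin m) ℝ) (α β : ℝ) (v : V m) :
    Continuous (fun x : V m → ℂ => dv E α β x v) := by
  unfold dv xi
  fun_prop

private theorem Cen_LL_cont {m : ℕ} (E : Matrix (Fin m) (Fin m) ℝ) (α β : ℝ) :
    Continuous (fun x : V m → ℂ => LL E α β x) := by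
  unfold LL
  apply Continuous.sub
  · apply Continuous.matrix_diagonal
    exact continuous_pi (Cen_dv_cont E α β)
  · apply Continuous.matrix_mul continuous_const
    exact Continuous.matrix_diagonal continuous_id

private theorem Cen_Psi_cont {m : ℕ} (E : Matrix (Fin m) (Fin m) ℝ) (α β : ℝ) :
    Continuous (Psi E α β) := by
  unfold Psi
  apply Continuous.sub
  · apply Continuous.matrix_trace
    apply Continuous.matrix_mul
    · apply Continuous.matrix_diagonal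
      exact continuous_pi (Cen_dv_cont E α β)
    · exact (Cen_LL_cont E α β).matrix_adjugate
  · exact continuous_const.mul (Cen_LL_cont E α β).matrix_det

/-- one side of the bad event -/
private theorem Cen_bad1 (h6 : St_Xpb) {m : ℕ} {C : ℝ} {E : Matrix (Fin m) (Fin m) ℝ}
    (hm : 1 ≤ m) (hC : 0 < C) (hE : Hyp C m E) (α : ℝ) (hα : 49 / 50 ≤ α) (y : Fin m → ℂ) :
    ∏ i, √(‖(α : ℂ) + xj E y i‖ ^ 2 + 4 * (C * Real.log m + 1) / m) ≤
      α ^ m * Real.exp (3 * (C * Real.log m + 1)) *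
        Real.exp (1 / (2 * α ^ 2) * ∑ i, ‖xj E y i‖ ^ 2) := by
  have hα0 : 0 < α := by linarith
  have hm0 : (0 : ℝ) < m := by exact_mod_cast hm
  have hlog : 0 ≤ Real.log m := Real.log_nonneg (by exact_mod_cast hm)
  have hκ : 0 ≤ 4 * (C * Real.log m + 1) / m := by positivity
  refine (h6 m α _ α (xj E y) hm hκ hα0 (Cen_xj_sum hE y)).trans ?_
  apply mul_le_mul_of_nonneg_right _ (Real.exp_pos _).le
  apply mul_le_mul_of_nonneg_left _ (by positivity)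
  apply Real.exp_le_exp.mpr
  have h1 : (m : ℝ) * (α ^ 2 + 4 * (C * Real.log m + 1) / m - α ^ 2) / (2 * α ^ 2) =
      2 * (C * Real.log m + 1) / α ^ 2 := by
    field_simp
    ring
  rw [h1, div_le_iff₀ (by positivity)]
  have h2 : (49 / 50) ^ 2 ≤ α ^ 2 := pow_le_pow_left₀ (by norm_num) hα 2
  have h3 : 0 ≤ C * Real.log m + 1 := by positivity
  nlinarith

/-- the general pointwise bound -/
private theorem Cen_bad (h5 : St_Psb) (h6 : St_Xpb) {m : ℕ} {C : ℝ}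
    {E : Matrix (Fin m) (Fin m) ℝ} (hm : 1 ≤ m) (hC : 0 < C) (hE : Hyp C m E) (α β : ℝ)
    (hα : 49 / 50 ≤ α) (hβ : 49 / 50 ≤ β) (hD0 : 0 ≤ Dl E) (hD1 : Dl E ≤ 1) (x : V m → ℂ)
    (hx : ∀ v, ‖x v‖ = 2) :
    ‖Psi E α β x - 2 * Dl E * ∏ v, dv E α β x v‖ ≤
      (6 * m) * (α * β) ^ m * Real.exp (6 * (C * Real.log m + 1)) *
        (Real.exp (1 / (2 * β ^ 2) * ∑ i, ‖xj E (fun j => x (Sum.inl j)) i‖ ^ 2) *
        Real.exp (1 / (2 * α ^ 2) * ∑ i, ‖xj E (fun j => x (Sum.inr j)) i‖ ^ 2)) := by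
  have hm1 : (1 : ℝ) ≤ m := by exact_mod_cast hm
  have hm0 : (0 : ℝ) < m := by linarith
  have hlog : 0 ≤ Real.log m := Real.log_nonneg hm1
  set κ : ℝ := 4 * (C * Real.log m + 1) / m with hκdef
  have hκ : 0 ≤ κ := by rw [hκdef]; positivity
  set Q : ℝ := ∏ v, √(‖dv E α β x v‖ ^ 2 + κ) with hQ
  have hPsi : ‖Psi E α β x‖ ≤ 4 * m * Q := by
    refine (h5 m E α β x).trans ?_
    apply mul_le_mul_of_nonneg_left _ (by positivity)
    apply Finset.prod_le_prod (fun v _ => Real.sqrt_nonneg _)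
    intro v _
    apply Real.sqrt_le_sqrt
    have := Cen_Bb_l hm hE x hx v
    linarith
  have hPi : ‖∏ v, dv E α β x v‖ ≤ Q := by
    rw [norm_prod]
    apply Finset.prod_le_prod (fun v _ => norm_nonneg _)
    intro v _
    apply Real.le_sqrt_of_sq_le
    linarith
  have hQ0 : 0 ≤ Q := Finset.prod_nonneg (fun v _ => Real.sqrt_nonneg _)
  have hQle : Q ≤ (α ^ m * Real.exp (3 * (C * Real.log m + 1)) *
        Real.exp (1 / (2 * α ^ 2) * ∑ i, ‖xj E (fun j => x (Sum.inr j)) i‖ ^ 2)) *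
      (β ^ m * Real.exp (3 * (C * Real.log m + 1)) *
        Real.exp (1 / (2 * β ^ 2) * ∑ i, ‖xj E (fun j => x (Sum.inl j)) i‖ ^ 2)) := by
    rw [hQ, Fintype.prod_sum_type]
    apply mul_le_mul
    · have := Cen_bad1 h6 hm hC hE α hα (fun j => x (Sum.inr j))
      refine le_trans (le_of_eq ?_) this
      apply Finset.prod_congr rfl
      intro i _
      rw [Cen_dv_l]
    · have := Cen_bad1 h6 hm hC hE β hβ (fun j => x (Sum.inl j))
      refine le_trans (le_of_eq ?_) this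
      apply Finset.prod_congr rfl
      intro i _
      rw [Cen_dv_r]
    · exact Finset.prod_nonneg (fun v _ => Real.sqrt_nonneg _)
    · have : 0 < α := by linarith
      positivity
  have h1 : ‖Psi E α β x - 2 * Dl E * ∏ v, dv E α β x v‖ ≤ 6 * m * Q := by
    refine (norm_sub_le _ _).trans ?_
    have h2 : ‖(2 : ℂ) * (Dl E : ℂ) * ∏ v, dv E α β x v‖ ≤ 2 * Q := by
      rw [norm_mul, norm_mul, Complex.norm_real, Real.norm_of_nonneg hD0]
      have h3 : ‖(2 : ℂ)‖ = 2 := by simp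
      rw [h3]
      have h4 : 2 * Dl E * ‖∏ v, dv E α β x v‖ ≤ 2 * 1 * Q := by
        apply mul_le_mul _ hPi (norm_nonneg _) (by norm_num)
        linarith
      linarith
    have h5 : 2 * Q ≤ 2 * m * Q := by nlinarith
    linarith
  refine h1.trans ?_
  have h7 : 6 * (m : ℝ) * Q ≤ 6 * m * ((α ^ m * Real.exp (3 * (C * Real.log m + 1)) *
        Real.exp (1 / (2 * α ^ 2) * ∑ i, ‖xj E (fun j => x (Sum.inr j)) i‖ ^ 2)) *
      (β ^ m * Real.exp (3 * (C * Real.log m + 1)) *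
        Real.exp (1 / (2 * β ^ 2) * ∑ i, ‖xj E (fun j => x (Sum.inl j)) i‖ ^ 2))) :=
    mul_le_mul_of_nonneg_left hQle (by positivity)
  refine h7.trans (le_of_eq ?_)
  have h8 : Real.exp (6 * (C * Real.log m + 1)) = Real.exp (3 * (C * Real.log m + 1)) *
      Real.exp (3 * (C * Real.log m + 1)) := by
    rw [← Real.exp_add]
    congr 1
    ring
  rw [h8, mul_pow]
  ring

/-- the pointwise bound on the good event -/
private theorem Cen_good {m : ℕ} {C : ℝ} {E : Matrix (Fin m) (Fin m) ℝ} (hE : Hyp C m E)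
    (α β : ℝ) (hα : 49 / 50 ≤ α) (hβ : 49 / 50 ≤ β) (hδ : dl m ≤ 1 / 8)
    (h2 : Real.exp (120 * m * dl m ^ 3) ≤ 2) (x : V m → ℂ) (hG : Good E α β x) :
    ‖∏ v, dv E α β x v‖ ≤ 4 * (α * β) ^ m *
      (Real.exp (1 / (2 * β ^ 2) * ∑ i, ((xj E (fun j => x (Sum.inl j)) i).im ^ 2 -
        (xj E (fun j => x (Sum.inl j)) i).re ^ 2)) *
      Real.exp (1 / (2 * α ^ 2) * ∑ i, ((xj E (fun j => x (Sum.inr j)) i).im ^ 2 -
        (xj E (fun j => x (Sum.inr j)) i).re ^ 2))) := by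
  have hα0 : 0 < α := by linarith
  have hβ0 : 0 < β := by linarith
  rw [norm_prod, Fintype.prod_sum_type]
  have e1 := Cen_prod1 m α (dl m) (xj E (fun j => x (Sum.inr j))) (by linarith) hδ
    (fun i => by rw [← Cen_xi_l]; exact hG.a _) (Cen_xj_sum hE _)
  have e2 := Cen_prod1 m β (dl m) (xj E (fun j => x (Sum.inl j))) (by linarith) hδ
    (fun i => by rw [← Cen_xi_r]; exact hG.a _) (Cen_xj_sum hE _)
  have e3 : ∏ i, ‖dv E α β x (Sum.inl i)‖ = ∏ i, ‖(α : ℂ) + xj E (fun j => x (Sum.inr j)) i‖ :=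
    Finset.prod_congr rfl (fun i _ => by rw [Cen_dv_l])
  have e4 : ∏ i, ‖dv E α β x (Sum.inr i)‖ = ∏ i, ‖(β : ℂ) + xj E (fun j => x (Sum.inl j)) i‖ :=
    Finset.prod_congr rfl (fun i _ => by rw [Cen_dv_r])
  rw [e3, e4]
  refine (mul_le_mul e1 e2 (Finset.prod_nonneg (fun _ _ => norm_nonneg _))
    (by positivity)).trans ?_
  set X := Real.exp (1 / (2 * α ^ 2) * ∑ i, ((xj E (fun j => x (Sum.inr j)) i).im ^ 2 -
        (xj E (fun j => x (Sum.inr j)) i).re ^ 2)) with hX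
  set Y := Real.exp (1 / (2 * β ^ 2) * ∑ i, ((xj E (fun j => x (Sum.inl j)) i).im ^ 2 -
        (xj E (fun j => x (Sum.inl j)) i).re ^ 2)) with hY
  set Z := Real.exp (120 * m * dl m ^ 3) with hZ
  have hZ0 : 0 < Z := Real.exp_pos _
  have hX0 : 0 < X := Real.exp_pos _
  have hY0 : 0 < Y := Real.exp_pos _
  have hZZ : Z * Z ≤ 4 := by nlinarith
  have h5 : 0 ≤ (α * β) ^ m * (Y * X) := by positivity
  calc α ^ m * Z * X * (β ^ m * Z * Y) = (Z * Z) * ((α * β) ^ m * (Y * X)) := by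
        rw [mul_pow]; ring
    _ ≤ 4 * ((α * β) ^ m * (Y * X)) := mul_le_mul_of_nonneg_right hZZ h5
    _ = 4 * (α * β) ^ m * (Y * X) := by ring

/-! ### Integration -/

private theorem Cen_integral {Ω : Type} [MeasurableSpace Ω] (μ : Measure Ω)
    [IsProbabilityMeasure μ] (f : Ω → ℂ) (B : Set Ω) (q e : Ω → ℝ)
    (hf : Integrable f μ) (hq : Integrable q μ) (he : Integrable e μ) (hq0 : ∀ ω, 0 ≤ q ω)
    (he0 : ∀ ω, 0 ≤ e ω) (A1 A2 K K2 : ℝ) (hA1 : 0 ≤ A1) (hA2 : 0 ≤ A2) (hK : 0 ≤ K)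
    (hK2 : 0 ≤ K2) (hgood : ∀ ω, ω ∉ B → ‖f ω‖ ≤ A1 * q ω)
    (hbad : ∀ ω, ‖f ω‖ ≤ A2 * (K + K2 * e ω)) :
    ‖∫ ω, f ω ∂μ‖ ≤ A1 * (∫ ω, q ω ∂μ) + A2 * (K * μ.real B + K2 * ∫ ω, e ω ∂μ) := by
  classical
  have hB : B ⊆ toMeasurable μ B := subset_toMeasurable μ B
  have hBm : MeasurableSet (toMeasurable μ B) := measurableSet_toMeasurable μ B
  have hBr : μ.real (toMeasurable μ B) = μ.real B := by
    unfold Measure.real
    rw [measure_toMeasurable]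
  have hpt : ∀ ω, ‖f ω‖ ≤ A1 * q ω + A2 * (K * (toMeasurable μ B).indicator (fun _ => (1 : ℝ)) ω +
      K2 * e ω) := by
    intro ω
    by_cases hω : ω ∈ B
    · rw [Set.indicator_of_mem (hB hω), mul_one]
      have h1 := hbad ω
      have h2 : 0 ≤ A1 * q ω := mul_nonneg hA1 (hq0 ω)
      linarith
    · have h1 := hgood ω hω
      have h2 : 0 ≤ (toMeasurable μ B).indicator (fun _ => (1 : ℝ)) ω :=
        Set.indicator_nonneg (fun _ _ => zero_le_one) ω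
      have h3 : 0 ≤ A2 * (K * (toMeasurable μ B).indicator (fun _ => (1 : ℝ)) ω + K2 * e ω) :=
        mul_nonneg hA2 (add_nonneg (mul_nonneg hK h2) (mul_nonneg hK2 (he0 ω)))
      linarith
  have hind : Integrable ((toMeasurable μ B).indicator (fun _ => (1 : ℝ))) μ :=
    (integrable_const 1).indicator hBm
  have hi1 : Integrable (fun ω => K * (toMeasurable μ B).indicator (fun _ => (1 : ℝ)) ω +
      K2 * e ω) μ := (hind.const_mul K).add (he.const_mul K2)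
  have hi2 : Integrable (fun ω => A1 * q ω + A2 * (K * (toMeasurable μ B).indicator
      (fun _ => (1 : ℝ)) ω + K2 * e ω)) μ := (hq.const_mul A1).add (hi1.const_mul A2)
  refine (norm_integral_le_integral_norm f).trans ((integral_mono hf.norm hi2 hpt).trans ?_)
  rw [integral_add (hq.const_mul A1) (hi1.const_mul A2), integral_const_mul, integral_const_mul,
    integral_add (hind.const_mul K) (he.const_mul K2), integral_const_mul, integral_const_mul,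
    integral_indicator hBm, integral_const, smul_eq_mul, mul_one]
  rw [show (μ.restrict (toMeasurable μ B)).real Set.univ = μ.real (toMeasurable μ B) by
    rw [measureReal_restrict_apply MeasurableSet.univ, Set.univ_inter], hBr]

/-- the law is a probability measure -/
private theorem Cen_prob (hp : IsProbabilityMeasure nu2) (ι : Type) [Fintype ι] :
    IsProbabilityMeasure (PP ι) := by
  unfold PP
  infer_instance

/-- the mean of the product -/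
private theorem Cen_fub (hp : IsProbabilityMeasure nu2) (h3 : St_Fub) {m : ℕ}
    (E : Matrix (Fin m) (Fin m) ℝ) (α β : ℝ) (hα : 0 < α) (hβ : 0 < β) :
    ∫ θ, ∏ v, dv E α β (xx θ) v ∂(PP (V m)) = ((α * β : ℝ) : ℂ) ^ m *
      ((∫ θ, ∏ i, (1 + ((1 / α : ℝ) : ℂ) * xj E (xx θ) i) ∂(PP (Fin m))) *
        ∫ θ, ∏ i, (1 + ((1 / β : ℝ) : ℂ) * xj E (xx θ) i) ∂(PP (Fin m))) := by
  have h := (h3 m nu2).1 (fun φ => ∏ i, ((β : ℂ) + xj E (xx φ) i))
    (fun φ => ∏ i, ((α : ℂ) + xj E (xx φ) i))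
  have h4 : ∀ θ : V m → ℝ, ∏ v, dv E α β (xx θ) v =
      (∏ i, ((β : ℂ) + xj E (xx (fun i => θ (Sum.inl i))) i)) *
        ∏ i, ((α : ℂ) + xj E (xx (fun i => θ (Sum.inr i))) i) := by
    intro θ
    rw [Fintype.prod_sum_type, mul_comm]
    congr 1
    · apply Finset.prod_congr rfl
      intro i _
      rw [Cen_dv_r]
      rfl
    · apply Finset.prod_congr rfl
      intro i _
      rw [Cen_dv_l]
      rfl
  have h5 : ∀ (γ : ℝ), 0 < γ → ∀ φ : Fin m → ℝ, ∏ i, ((γ : ℂ) + xj E (xx φ) i) =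
      (γ : ℂ) ^ m * ∏ i, (1 + ((1 / γ : ℝ) : ℂ) * xj E (xx φ) i) := by
    intro γ hγ φ
    have hγc : (γ : ℂ) ≠ 0 := by exact_mod_cast hγ.ne'
    have h6 : ∀ i, (γ : ℂ) + xj E (xx φ) i = γ * (1 + ((1 / γ : ℝ) : ℂ) * xj E (xx φ) i) := by
      intro i
      push_cast
      field_simp
    rw [Finset.prod_congr rfl (fun i _ => h6 i), Finset.prod_mul_distrib, Finset.prod_const,
      Finset.card_univ, Fintype.card_fin]
  unfold PP
  simp_rw [h4]
  rw [h]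
  simp_rw [h5 α hα, h5 β hβ]
  rw [integral_const_mul, integral_const_mul]
  push_cast
  rw [mul_pow]
  ring

/-- the main term -/
private theorem Cen_main (hp : IsProbabilityMeasure nu2) (h3 : St_Fub) {m : ℕ}
    (E : Matrix (Fin m) (Fin m) ℝ) (α β ε : ℝ) (hα : 0 < α) (hβ : 0 < β) (hD0 : 0 < Dl E)
    (hε : ε ≤ 1 / 2)
    (hW1 : ∀ t : ℝ, t = 1 / α ∨ t = 1 / β →
      ‖(∫ θ, ∏ i, (1 + (t : ℂ) * xj E (xx θ) i) ∂(PP (Fin m))) -
        ∫ θ, Complex.exp (-(t : ℂ) ^ 2 / 2 * ∑ i, xj E (xx θ) i ^ 2) ∂(PP (Fin m))‖ ≤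
        ε / √(Dl E))
    (hW2 : ∀ t : ℝ, t = 1 / α ∨ t = 1 / β →
      ‖(∫ θ, Complex.exp (-(t : ℂ) ^ 2 / 2 * ∑ i, xj E (xx θ) i ^ 2) ∂(PP (Fin m))) * √(Dl E) -
        1‖ ≤ ε) :
    ‖(Dl E : ℂ) * (∫ θ, ∏ v, dv E α β (xx θ) v ∂(PP (V m))) - ((α * β : ℝ) : ℂ) ^ m‖ ≤
      6 * ε * (α * β) ^ m := by
  have hs0 : 0 < √(Dl E) := Real.sqrt_pos.mpr hD0
  have hM : ∀ t : ℝ, t = 1 / α ∨ t = 1 / β →
      ‖(∫ θ, ∏ i, (1 + (t : ℂ) * xj E (xx θ) i) ∂(PP (Fin m))) * √(Dl E) - 1‖ ≤ 2 * ε := by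
    intro t ht
    have e1 := hW1 t ht
    have e2 := hW2 t ht
    set a := ∫ θ, ∏ i, (1 + (t : ℂ) * xj E (xx θ) i) ∂(PP (Fin m))
    set b := ∫ θ, Complex.exp (-(t : ℂ) ^ 2 / 2 * ∑ i, xj E (xx θ) i ^ 2) ∂(PP (Fin m))
    have e3 : a * √(Dl E) - 1 = (a - b) * √(Dl E) + (b * √(Dl E) - 1) := by ring
    rw [e3]
    refine (norm_add_le _ _).trans ?_
    rw [norm_mul, Complex.norm_real, Real.norm_of_nonneg hs0.le]
    rw [le_div_iff₀ hs0] at e1
    linarith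
  rw [Cen_fub hp h3 E α β hα hβ]
  have e1 := hM (1 / α) (Or.inl rfl)
  have e2 := hM (1 / β) (Or.inr rfl)
  set a := ∫ θ, ∏ i, (1 + ((1 / α : ℝ) : ℂ) * xj E (xx θ) i) ∂(PP (Fin m))
  set b := ∫ θ, ∏ i, (1 + ((1 / β : ℝ) : ℂ) * xj E (xx θ) i) ∂(PP (Fin m))
  have hDs : (Dl E : ℂ) = (√(Dl E) : ℂ) * (√(Dl E) : ℂ) := by
    rw [← Complex.ofReal_mul, Real.mul_self_sqrt hD0.le]
  have e3 : (Dl E : ℂ) * (((α * β : ℝ) : ℂ) ^ m * (a * b)) - ((α * β : ℝ) : ℂ) ^ m =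
      ((α * β : ℝ) : ℂ) ^ m * ((a * √(Dl E) - 1) + (b * √(Dl E) - 1) +
        (a * √(Dl E) - 1) * (b * √(Dl E) - 1)) := by
    rw [hDs]
    ring
  have hε0 : 0 ≤ ε := by
    have := (norm_nonneg _).trans e1
    linarith
  rw [e3, norm_mul, norm_pow, Complex.norm_real, Real.norm_of_nonneg (by positivity), mul_comm]
  apply mul_le_mul_of_nonneg_right _ (by positivity)
  refine (norm_add_le _ _).trans ?_
  have e4 := norm_add_le (a * √(Dl E) - 1) (b * √(Dl E) - 1)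
  have e5 : ‖(a * √(Dl E) - 1) * (b * √(Dl E) - 1)‖ ≤ 2 * ε * (2 * ε) := by
    rw [norm_mul]
    exact mul_le_mul e1 e2 (norm_nonneg _) (by linarith)
  nlinarith

/-! ### Large `m` -/

private theorem Cen_ev_pow (a : ℝ) (ha : 0 < a) :
    Tendsto (fun m : ℕ => (m : ℝ) ^ (-a)) atTop (nhds 0) :=
  (tendsto_rpow_neg_atTop ha).comp tendsto_natCast_atTop_atTop

private theorem Cen_ev_dl : ∀ᶠ m : ℕ in atTop, dl m ≤ 1 / 50 := by
  have h := Cen_ev_pow (2 / 5) (by norm_num)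
  exact (h.eventually_le_const (by norm_num : (0 : ℝ) < 1 / 50)).mono fun m hm => hm

private theorem Cen_ev_exp2 : ∀ᶠ m : ℕ in atTop, Real.exp (120 * m * dl m ^ 3) ≤ 2 := by
  have h := Cen_ev_pow (1 / 5) (by norm_num)
  have h1 := h.eventually_le_const
    (show (0 : ℝ) < Real.log 2 / 120 from by positivity)
  filter_upwards [h1, eventually_ge_atTop 1] with m hm hm1
  have hm0 : (0 : ℝ) < m := by exact_mod_cast hm1
  have e1 : (m : ℝ) * dl m ^ 3 = (m : ℝ) ^ (-(1 / 5) : ℝ) := by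
    unfold dl
    rw [← Real.rpow_natCast, ← Real.rpow_mul hm0.le]
    conv_lhs => rw [← Real.rpow_one (m : ℝ), ← Real.rpow_mul hm0.le, ← Real.rpow_add hm0]
    norm_num
  rw [mul_assoc, e1]
  rw [← Real.le_log_iff_exp_le (by norm_num)]
  linarith

private theorem Cen_ev_exp (N : ℝ) :
    Tendsto (fun m : ℕ => (m : ℝ) ^ N * Real.exp (-((m : ℝ) ^ (1 / 10 : ℝ) / 4))) atTop
      (nhds 0) := by
  have h1 := tendsto_rpow_mul_exp_neg_mul_atTop_nhds_zero (10 * N) (1 / 4) (by norm_num)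
  have h2 : Tendsto (fun m : ℕ => (m : ℝ) ^ (1 / 10 : ℝ)) atTop atTop :=
    (tendsto_rpow_atTop (by norm_num)).comp tendsto_natCast_atTop_atTop
  refine (h1.comp h2).congr' ?_
  filter_upwards [eventually_ge_atTop 1] with m hm
  have hm0 : (0 : ℝ) ≤ m := Nat.cast_nonneg _
  show ((m : ℝ) ^ (1 / 10 : ℝ)) ^ (10 * N) * Real.exp (-(1 / 4) * (m : ℝ) ^ (1 / 10 : ℝ)) = _
  rw [← Real.rpow_mul hm0]
  congr 1
  · congr 1
    ring
  · congr 1
    ring

private theorem Cen_ev_fin (C : ℝ) (C₁ : ℕ) (C₂ : ℝ) : ∀ᶠ m : ℕ in atTop,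
    4 * C₂ ^ 2 * (m : ℝ) ^ (-(1 / 3) : ℝ) + 6 * m * Real.exp (6 * (C * Real.log m + 1)) *
      (Real.exp (-((m : ℝ) ^ (1 / 10 : ℝ) / 4)) * (1 + ((m : ℝ) ^ C₁) ^ 2)) +
      12 * (m : ℝ) ^ (-(3 / 20) : ℝ) ≤ (m : ℝ) ^ (-(1 / 10) : ℝ) := by
  have t1 : Tendsto (fun m : ℕ => 4 * C₂ ^ 2 * (m : ℝ) ^ (-(7 / 30) : ℝ)) atTop (nhds 0) := by
    have := (Cen_ev_pow (7 / 30) (by norm_num)).const_mul (4 * C₂ ^ 2)
    rwa [mul_zero] at this
  have t2 : Tendsto (fun m : ℕ => 12 * Real.exp 6 * ((m : ℝ) ^ (1 + 6 * C + 2 * C₁ + 1 / 10) *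
      Real.exp (-((m : ℝ) ^ (1 / 10 : ℝ) / 4)))) atTop (nhds 0) := by
    have := (Cen_ev_exp (1 + 6 * C + 2 * C₁ + 1 / 10)).const_mul (12 * Real.exp 6)
    rwa [mul_zero] at this
  have t3 : Tendsto (fun m : ℕ => 12 * (m : ℝ) ^ (-(1 / 20) : ℝ)) atTop (nhds 0) := by
    have := (Cen_ev_pow (1 / 20) (by norm_num)).const_mul 12
    rwa [mul_zero] at this
  filter_upwards [t1.eventually_le_const (show (0 : ℝ) < 1 / 4 by norm_num),
    t2.eventually_le_const (show (0 : ℝ) < 1 / 4 by norm_num),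
    t3.eventually_le_const (show (0 : ℝ) < 1 / 4 by norm_num), eventually_ge_atTop 1]
    with m e1 e2 e3 hm
  have hm1 : (1 : ℝ) ≤ m := by exact_mod_cast hm
  have hm0 : (0 : ℝ) < m := by linarith
  set w : ℝ := (m : ℝ) ^ (-(1 / 10) : ℝ) with hw
  have hw0 : 0 < w := Real.rpow_pos_of_pos hm0 _
  have f1 : 4 * C₂ ^ 2 * (m : ℝ) ^ (-(1 / 3) : ℝ) ≤ 1 / 4 * w := by
    have : (m : ℝ) ^ (-(1 / 3) : ℝ) = (m : ℝ) ^ (-(7 / 30) : ℝ) * w := by
      rw [hw, ← Real.rpow_add hm0]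
      norm_num
    rw [this, ← mul_assoc]
    exact mul_le_mul_of_nonneg_right e1 hw0.le
  have f3 : 12 * (m : ℝ) ^ (-(3 / 20) : ℝ) ≤ 1 / 4 * w := by
    have : (m : ℝ) ^ (-(3 / 20) : ℝ) = (m : ℝ) ^ (-(1 / 20) : ℝ) * w := by
      rw [hw, ← Real.rpow_add hm0]
      norm_num
    rw [this, ← mul_assoc]
    exact mul_le_mul_of_nonneg_right e3 hw0.le
  have f2 : 6 * m * Real.exp (6 * (C * Real.log m + 1)) *
      (Real.exp (-((m : ℝ) ^ (1 / 10 : ℝ) / 4)) * (1 + ((m : ℝ) ^ C₁) ^ 2)) ≤ 1 / 4 * w := by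
    set X := Real.exp (-((m : ℝ) ^ (1 / 10 : ℝ) / 4)) with hX
    have hX0 : 0 < X := Real.exp_pos _
    have g1 : 1 + ((m : ℝ) ^ C₁) ^ 2 ≤ 2 * (m : ℝ) ^ (2 * (C₁ : ℝ)) := by
      have h1 : ((m : ℝ) ^ C₁) ^ 2 = (m : ℝ) ^ (2 * (C₁ : ℝ)) := by
        rw [← pow_mul, ← Real.rpow_natCast]
        congr 1
        push_cast
        ring
      have h2 : 1 ≤ (m : ℝ) ^ (2 * (C₁ : ℝ)) := Real.one_le_rpow hm1 (by positivity)
      rw [h1]
      linarith
    have g2 : Real.exp (6 * (C * Real.log m + 1)) = Real.exp 6 * (m : ℝ) ^ (6 * C) := by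
      rw [Real.rpow_def_of_pos hm0, ← Real.exp_add]
      congr 1
      ring
    rw [g2]
    have g3 : (m : ℝ) ^ (1 + 6 * C + 2 * C₁ + 1 / 10) * w =
        m * (m : ℝ) ^ (6 * C) * (m : ℝ) ^ (2 * (C₁ : ℝ)) := by
      rw [hw, ← Real.rpow_add hm0]
      have h3 : (m : ℝ) * (m : ℝ) ^ (6 * C) = (m : ℝ) ^ (1 + 6 * C) := by
        rw [Real.rpow_add hm0, Real.rpow_one]
      rw [h3, ← Real.rpow_add hm0]
      congr 1
      ring
    calc 6 * m * (Real.exp 6 * (m : ℝ) ^ (6 * C)) * (X * (1 + ((m : ℝ) ^ C₁) ^ 2))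
        ≤ 6 * m * (Real.exp 6 * (m : ℝ) ^ (6 * C)) * (X * (2 * (m : ℝ) ^ (2 * (C₁ : ℝ)))) := by
          apply mul_le_mul_of_nonneg_left _ (by positivity)
          exact mul_le_mul_of_nonneg_left g1 hX0.le
      _ = 12 * Real.exp 6 * X * (m * (m : ℝ) ^ (6 * C) * (m : ℝ) ^ (2 * (C₁ : ℝ))) := by ring
      _ = 12 * Real.exp 6 * ((m : ℝ) ^ (1 + 6 * C + 2 * C₁ + 1 / 10) * X) * w := by
          rw [← g3]
          ring
      _ ≤ 1 / 4 * w := mul_le_mul_of_nonneg_right e2 hw0.le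
  linarith

/-- `0 < Δ ≤ 1` -/
private theorem Cen_D (h4 : St_Spe) {m : ℕ} {C : ℝ} {E : Matrix (Fin m) (Fin m) ℝ} (hm : 1 ≤ m)
    (hE : Hyp C m E) : 0 < Dl E ∧ Dl E ≤ 1 := by
  obtain ⟨e, l, hSp, hD, -⟩ := h4 C m E hm hE
  rw [hD]
  have h1 : ∀ a, l a ^ 2 ≤ 1 / 2 := by
    intro a
    have h2 := hSp.small a
    rw [← sq_abs]
    have h3 : |l a| ^ 2 ≤ 0.53 ^ 2 := pow_le_pow_left₀ (abs_nonneg _) h2 2
    norm_num at h3 ⊢
    linarith
  constructor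
  · apply Finset.prod_pos
    intro a _
    have := h1 a
    linarith
  · apply Finset.prod_le_one
    · intro a _
      have := h1 a
      linarith
    · intro a _
      have := sq_nonneg (l a)
      linarith

/-- the error term -/
private theorem Cen_err (hp : IsProbabilityMeasure nu2) (h3 : St_Fub) (h5 : St_Psb)
    (h6 : St_Xpb) {m : ℕ} {C : ℝ} {C₁ : ℕ} {C₂ : ℝ} (hC : 0 < C) (hm : 1 ≤ m)
    (hδ : dl m ≤ 1 / 50) (hexp2 : Real.exp (120 * m * dl m ^ 3) ≤ 2)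
    {E : Matrix (Fin m) (Fin m) ℝ} (hE : Hyp C m E) (hD0 : 0 < Dl E) (hD1 : Dl E ≤ 1)
    (hExp : ∀ k : ℝ, 0 ≤ k → k ≤ 0.8 →
      ∫ θ, Real.exp (k * ∑ i, ‖xj E (xx θ) i‖ ^ 2) ∂(PP (Fin m)) ≤ (m : ℝ) ^ C₁)
    (hQfm : ∀ t : ℝ, |t - 1| ≤ 2 * dl m →
      ∫ θ, Real.exp (t ^ 2 / 2 * ∑ i, ((xj E (xx θ) i).im ^ 2 - (xj E (xx θ) i).re ^ 2))
        ∂(PP (Fin m)) ≤ C₂ / √(Dl E))
    (α β : ℝ) (hα : |α - 1| ≤ dl m) (hβ : |β - 1| ≤ dl m)
    (hα' : 49 / 50 ≤ α) (hβ' : 49 / 50 ≤ β)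
    (htα : |1 / α - 1| ≤ 2 * dl m) (htβ : |1 / β - 1| ≤ 2 * dl m)
    (hPbd : (PP (V m)).real {θ | ¬ Good E α β (xx θ)} ≤ Real.exp (-(m : ℝ) ^ (1 / 10 : ℝ)))
    (hDet : ∀ x : V m → ℂ, (∀ v, ‖x v‖ = 2) → Good E α β x →
      ‖Psi E α β x - 2 * Dl E * ∏ v, dv E α β x v‖ ≤
        (m : ℝ) ^ (-(1 / 3) : ℝ) * Dl E * ‖∏ v, dv E α β x v‖) :
    ‖∫ θ, (Psi E α β (xx θ) - 2 * Dl E * ∏ v, dv E α β (xx θ) v) ∂(PP (V m))‖ ≤
      (4 * C₂ ^ 2 * (m : ℝ) ^ (-(1 / 3) : ℝ) + 6 * m * Real.exp (6 * (C * Real.log m + 1)) *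
      (Real.exp (-((m : ℝ) ^ (1 / 10 : ℝ) / 4)) * (1 + ((m : ℝ) ^ C₁) ^ 2))) * (α * β) ^ m := by
  have hP := Cen_prob hp (V m)
  have hα0 : 0 < α := by linarith
  have hβ0 : 0 < β := by linarith
  have hm0 : (0 : ℝ) < m := by exact_mod_cast hm
  set p : ℝ := (α * β) ^ m with hpdef
  have hp0 : 0 < p := by rw [hpdef]; positivity
  set κ : ℝ := (m : ℝ) ^ (1 / 10 : ℝ) with hκ
  have hκ0 : 0 ≤ κ := by rw [hκ]; positivity
  -- the functions
  set q1 : ℝ → (Fin m → ℂ) → ℝ := fun γ y => Real.exp (1 / (2 * γ ^ 2) *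
    ∑ i, ((xj E y i).im ^ 2 - (xj E y i).re ^ 2)) with hq1
  set e1 : ℝ → (Fin m → ℂ) → ℝ := fun γ y => Real.exp (3 / (4 * γ ^ 2) *
    ∑ i, ‖xj E y i‖ ^ 2) with he1
  have hq1c : ∀ γ, Continuous (q1 γ) := by
    intro γ
    rw [hq1]
    apply Real.continuous_exp.comp
    apply continuous_const.mul
    apply continuous_finsetSum
    intro i _
    exact ((Complex.continuous_im.comp (Cen_xj_cont E i)).pow 2).sub
      ((Complex.continuous_re.comp (Cen_xj_cont E i)).pow 2)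
  have he1c : ∀ γ, Continuous (e1 γ) := by
    intro γ
    rw [he1]
    apply Real.continuous_exp.comp
    apply continuous_const.mul
    apply continuous_finsetSum
    intro i _
    exact (Cen_xj_cont E i).norm.pow 2
  have hL : Continuous (fun x : V m → ℂ => fun j : Fin m => x (Sum.inl j)) := by fun_prop
  have hR : Continuous (fun x : V m → ℂ => fun j : Fin m => x (Sum.inr j)) := by fun_prop
  have hqi : Integrable (fun θ : V m → ℝ => q1 β (fun j => xx θ (Sum.inl j)) *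
      q1 α (fun j => xx θ (Sum.inr j))) (PP (V m)) :=
    Cen_int hp (fun x => q1 β (fun j => x (Sum.inl j)) * q1 α (fun j => x (Sum.inr j)))
      (((hq1c β).comp hL).mul ((hq1c α).comp hR))
  have hei : Integrable (fun θ : V m → ℝ => e1 β (fun j => xx θ (Sum.inl j)) *
      e1 α (fun j => xx θ (Sum.inr j))) (PP (V m)) :=
    Cen_int hp (fun x => e1 β (fun j => x (Sum.inl j)) * e1 α (fun j => x (Sum.inr j)))
      (((he1c β).comp hL).mul ((he1c α).comp hR))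
  have hfi : Integrable (fun θ : V m → ℝ => Psi E α β (xx θ) -
      2 * Dl E * ∏ v, dv E α β (xx θ) v) (PP (V m)) := by
    apply Cen_int hp (fun x => Psi E α β x - 2 * Dl E * ∏ v, dv E α β x v)
    apply (Cen_Psi_cont E α β).sub
    apply continuous_const.mul
    exact continuous_finsetProd _ (fun v _ => Cen_dv_cont E α β v)
  have hxx : ∀ (θ : V m → ℝ) (v : V m), ‖xx θ v‖ = 2 := fun θ v => Cen_xx_norm θ v
  have hmain := Cen_integral (PP (V m)) (fun θ => Psi E α β (xx θ) -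
      2 * Dl E * ∏ v, dv E α β (xx θ) v) {θ | ¬ Good E α β (xx θ)}
    (fun θ => q1 β (fun j => xx θ (Sum.inl j)) * q1 α (fun j => xx θ (Sum.inr j)))
    (fun θ => e1 β (fun j => xx θ (Sum.inl j)) * e1 α (fun j => xx θ (Sum.inr j)))
    hfi hqi hei (fun θ => (mul_pos (Real.exp_pos _) (Real.exp_pos _)).le)
    (fun θ => (mul_pos (Real.exp_pos _) (Real.exp_pos _)).le)
    ((m : ℝ) ^ (-(1 / 3) : ℝ) * Dl E * (4 * p))
    (6 * m * p * Real.exp (6 * (C * Real.log m + 1))) (Real.exp (κ / 2)) (Real.exp (-(κ / 4)))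
    (by positivity) (by positivity) (Real.exp_pos _).le (Real.exp_pos _).le
    (by
      intro θ hθ
      have hG : Good E α β (xx θ) := by
        by_contra hc
        exact hθ hc
      refine (hDet (xx θ) (hxx θ) hG).trans ?_
      rw [mul_assoc ((m : ℝ) ^ (-(1 / 3) : ℝ) * Dl E) (4 * p)]
      apply mul_le_mul_of_nonneg_left _ (by positivity)
      exact Cen_good hE α β hα' hβ' (by linarith) hexp2 (xx θ) hG)
    (by
      intro θ
      refine (Cen_bad h5 h6 hm hC hE α β hα' hβ' hD0.le hD1 (xx θ) (hxx θ)).trans ?_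
      apply mul_le_mul_of_nonneg_left _ (by positivity)
      rw [he1]
      simp only
      rw [← Real.exp_add, ← Real.exp_add]
      set a := ∑ i, ‖xj E (fun j => xx θ (Sum.inl j)) i‖ ^ 2
      set b := ∑ i, ‖xj E (fun j => xx θ (Sum.inr j)) i‖ ^ 2
      obtain ⟨s, hs⟩ : ∃ s, s = 1 / (2 * β ^ 2) * a + 1 / (2 * α ^ 2) * b := ⟨_, rfl⟩
      have hs2 : 3 / (4 * β ^ 2) * a + 3 / (4 * α ^ 2) * b = 3 / 2 * s := by
        rw [hs]
        ring
      rw [hs2, ← hs, ← Real.exp_add]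
      rcases le_or_gt s (κ / 2) with h | h
      · have := Real.exp_le_exp.mpr h
        have := Real.exp_pos (-(κ / 4) + 3 / 2 * s)
        linarith
      · have h8 : Real.exp s ≤ Real.exp (-(κ / 4) + 3 / 2 * s) :=
          Real.exp_le_exp.mpr (by linarith)
        have := Real.exp_pos (κ / 2)
        linarith)
  -- the integrals
  have hIq : ∫ θ, q1 β (fun j => xx θ (Sum.inl j)) * q1 α (fun j => xx θ (Sum.inr j))
      ∂(PP (V m)) ≤ C₂ ^ 2 / Dl E := by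
    have h := (h3 m nu2).2 (fun φ => q1 β (xx φ)) (fun φ => q1 α (xx φ))
    have h' : ∫ θ, q1 β (fun j => xx θ (Sum.inl j)) * q1 α (fun j => xx θ (Sum.inr j))
      ∂(PP (V m)) = (∫ φ, q1 β (xx φ) ∂(PP (Fin m))) * ∫ φ, q1 α (xx φ) ∂(PP (Fin m)) := h
    rw [h']
    have k1 : ∀ γ : ℝ, 0 < γ → |1 / γ - 1| ≤ 2 * dl m →
        ∫ φ, q1 γ (xx φ) ∂(PP (Fin m)) ≤ C₂ / √(Dl E) := by
      intro γ hγ hγ'
      refine le_trans (le_of_eq ?_) (hQfm (1 / γ) hγ')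
      congr 1
      funext φ
      rw [hq1]
      simp only
      congr 2
      field_simp
    have k2 : ∀ γ : ℝ, 0 ≤ ∫ φ, q1 γ (xx φ) ∂(PP (Fin m)) :=
      fun γ => integral_nonneg (fun φ => (Real.exp_pos _).le)
    have k3 : C₂ ^ 2 / Dl E = C₂ / √(Dl E) * (C₂ / √(Dl E)) := by
      rw [div_mul_div_comm, Real.mul_self_sqrt hD0.le, pow_two]
    rw [k3]
    exact mul_le_mul (k1 β hβ0 htβ) (k1 α hα0 htα) (k2 α) ((k2 β).trans (k1 β hβ0 htβ))
  have hIe : ∫ θ, e1 β (fun j => xx θ (Sum.inl j)) * e1 α (fun j => xx θ (Sum.inr j))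
      ∂(PP (V m)) ≤ ((m : ℝ) ^ C₁) ^ 2 := by
    have h := (h3 m nu2).2 (fun φ => e1 β (xx φ)) (fun φ => e1 α (xx φ))
    have h' : ∫ θ, e1 β (fun j => xx θ (Sum.inl j)) * e1 α (fun j => xx θ (Sum.inr j))
      ∂(PP (V m)) = (∫ φ, e1 β (xx φ) ∂(PP (Fin m))) * ∫ φ, e1 α (xx φ) ∂(PP (Fin m)) := h
    rw [h', pow_two]
    have k1 : ∀ γ : ℝ, 49 / 50 ≤ γ → ∫ φ, e1 γ (xx φ) ∂(PP (Fin m)) ≤ (m : ℝ) ^ C₁ := by
      intro γ hγ
      apply hExp
      · positivity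
      · have h9 : (49 / 50) ^ 2 ≤ γ ^ 2 := pow_le_pow_left₀ (by norm_num) hγ 2
        rw [div_le_iff₀ (by positivity)]
        norm_num at h9 ⊢
        linarith
    have k2 : ∀ γ : ℝ, 0 ≤ ∫ φ, e1 γ (xx φ) ∂(PP (Fin m)) :=
      fun γ => integral_nonneg (fun φ => (Real.exp_pos _).le)
    exact mul_le_mul (k1 β hβ') (k1 α hα') (k2 α) (by positivity)
  refine hmain.trans ?_
  have g1 : (m : ℝ) ^ (-(1 / 3) : ℝ) * Dl E * (4 * p) *
      (∫ θ, q1 β (fun j => xx θ (Sum.inl j)) * q1 α (fun j => xx θ (Sum.inr j)) ∂(PP (V m))) ≤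
      4 * C₂ ^ 2 * (m : ℝ) ^ (-(1 / 3) : ℝ) * p := by
    refine (mul_le_mul_of_nonneg_left hIq (by positivity)).trans (le_of_eq ?_)
    field_simp
  have g2 : Real.exp (κ / 2) * (PP (V m)).real {θ | ¬ Good E α β (xx θ)} +
      Real.exp (-(κ / 4)) * (∫ θ, e1 β (fun j => xx θ (Sum.inl j)) *
        e1 α (fun j => xx θ (Sum.inr j)) ∂(PP (V m))) ≤
      Real.exp (-(κ / 4)) * (1 + ((m : ℝ) ^ C₁) ^ 2) := by
    have k1 : Real.exp (κ / 2) * (PP (V m)).real {θ | ¬ Good E α β (xx θ)} ≤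
        Real.exp (-(κ / 4)) := by
      refine (mul_le_mul_of_nonneg_left hPbd (Real.exp_pos _).le).trans ?_
      rw [← Real.exp_add]
      apply Real.exp_le_exp.mpr
      linarith
    have k2 := mul_le_mul_of_nonneg_left hIe (Real.exp_pos (-(κ / 4))).le
    rw [mul_add, mul_one]
    linarith
  have g3 := mul_le_mul_of_nonneg_left g2
    (show 0 ≤ 6 * m * p * Real.exp (6 * (C * Real.log m + 1)) by positivity)
  rw [add_mul]
  refine add_le_add g1 (g3.trans (le_of_eq ?_))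
  ring

theorem thm_Cen (h1 : St_Law) (h2 : St_Jpp) (h3 : St_Fub) (h4 : St_Spe) (h5 : St_Psb)
    (h6 : St_Xpb) (h7 : St_Exp) (h8 : St_Pbd) (h9 : St_Det) (h10 : St_Qfm) (h11 : St_Wa1)
    (h12 : St_Wa2) : St_Cen := by
  have hp : IsProbabilityMeasure nu2 := h1.2.1
  intro C hC
  obtain ⟨C₁, hExp⟩ := h7 C hC
  obtain ⟨C₂, hQfm⟩ := h10 C hC
  have hη : ∀ᶠ m : ℕ in atTop, (m : ℝ) ^ (-(3 / 20) : ℝ) ≤ 1 / 2 :=
    (Cen_ev_pow (3 / 20) (by norm_num)).eventually_le_const (by norm_num)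
  filter_upwards [hExp, hQfm, h8 C hC, h9 C hC, h11 C hC, h12 C hC, eventually_ge_atTop 1,
    Cen_ev_dl, Cen_ev_exp2, Cen_ev_fin C C₁ C₂, hη] with m hExp hQfm hPbd hDet hWa1 hWa2 hm hδ
    hexp2 hfin hη
  intro E hE α β hα hβ
  obtain ⟨hD0, hD1⟩ := Cen_D h4 hm hE
  have hα1 := abs_le.mp hα
  have hβ1 := abs_le.mp hβ
  have hα' : 49 / 50 ≤ α := by linarith [hα1.1]
  have hβ' : 49 / 50 ≤ β := by linarith [hβ1.1]
  have hinv : ∀ γ : ℝ, |γ - 1| ≤ dl m → 49 / 50 ≤ γ → |1 / γ - 1| ≤ 2 * dl m := by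
    intro γ hγ hγ'
    have hγ0 : 0 < γ := by linarith
    have e1 : 1 / γ - 1 = -(γ - 1) / γ := by
      field_simp
      ring
    rw [e1, abs_div, abs_neg, abs_of_pos hγ0, div_le_iff₀ hγ0]
    have h0 : 0 ≤ dl m := (abs_nonneg _).trans hγ
    nlinarith
  have htα := hinv α hα hα'
  have htβ := hinv β hβ hβ'
  have herr := Cen_err hp h3 h5 h6 hC hm hδ hexp2 hE hD0 hD1 (hExp E hE) (hQfm E hE) α β hα hβ
    hα' hβ' htα htβ (hPbd E hE α β hα hβ) (hDet E hE α β hα hβ)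
  have hmn := Cen_main hp h3 E α β ((m : ℝ) ^ (-(3 / 20) : ℝ)) (by linarith) (by linarith) hD0 hη
    (by
      rintro t (rfl | rfl)
      · exact hWa1 E hE _ htα
      · exact hWa1 E hE _ htβ)
    (by
      rintro t (rfl | rfl)
      · exact hWa2 E hE _ htα
      · exact hWa2 E hE _ htβ)
  have hHH : HH E α β = ∫ θ, Psi E α β (xx θ) ∂(PP (V m)) := h2 (V m) (Psi E α β)
    (Cen_Psi_cont E α β)
  have hpi : Integrable (fun θ : V m → ℝ => 2 * (Dl E : ℂ) * ∏ v, dv E α β (xx θ) v)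
      (PP (V m)) := by
    apply Cen_int hp (fun x => 2 * (Dl E : ℂ) * ∏ v, dv E α β x v)
    apply continuous_const.mul
    exact continuous_finsetProd _ (fun v _ => Cen_dv_cont E α β v)
  have hps : Integrable (fun θ : V m → ℝ => Psi E α β (xx θ)) (PP (V m)) :=
    Cen_int hp _ (Cen_Psi_cont E α β)
  rw [integral_sub hps hpi, ← hHH, integral_const_mul] at herr
  have e1 : HH E α β - 2 * ((α * β : ℝ) : ℂ) ^ m =
      (HH E α β - 2 * (Dl E : ℂ) * ∫ θ, ∏ v, dv E α β (xx θ) v ∂(PP (V m))) +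
      2 * ((Dl E : ℂ) * (∫ θ, ∏ v, dv E α β (xx θ) v ∂(PP (V m))) - ((α * β : ℝ) : ℂ) ^ m) := by
    ring
  rw [e1]
  refine (norm_add_le _ _).trans ?_
  rw [norm_mul]
  have h2n : ‖(2 : ℂ)‖ = 2 := by simp
  rw [h2n]
  have hp0 : 0 ≤ (α * β) ^ m := by
    have : 0 < α := by linarith
    have : 0 < β := by linarith
    positivity
  have hfin' := mul_le_mul_of_nonneg_right hfin hp0
  rw [add_mul] at hfin'
  linarith

end Pool.Agent.PCW
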