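import Mathlib
import Pool.Agent.PCW.Defs
import Pool.Agent.PCZ.Asm
import Pool.Agent.PC.Circle
import Pool.Agent.GBQ.Stmts

set_option autoImplicit false

/-!
# PCW: statements on primes and prime circles (section 6 of the paper) and the final theorem
-/

namespace Pool.Agent.PCW

open Finset Filter MeasureTheory
open Pool.Agent.PC (PA dd HP)
open Pool.Agent.PCX (wdeg)
open Pool.Agent.PCZ (Bd Entropies IsScaling)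
open Pool.Agent.GBQ (lam LamS ee)
open Pool.Agent.MT (IsWt)
open Pool.Agent.PrimeCircle (numPrimeCircles)

/-! ### Block N: the spectral bound -/

/-- [Smj] (6.1) major arcs with a CONSTANT sieve limit `z`.

As `GBQ.thm_Major` (copy Pool/Agent/GBQ/Major.lean; hypotheses `St_SWAP`, `St_SmAP`, both proved:
`GBQ.thm_SWAP GV.swap`, `GBQ.thm_SmAP`).  `I(b) = ∑ η(x/X) e(bx/X)`, `‖I(b)‖ ≤ X`.
`lam` part: classes `c` coprime to `q` by `St_SWAP` (error `X/(log X)^{B₁+1}` each), the others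
contribute `O(q log X)` (`GBQ.major_powers`): total `(∑_{c coprime} e(ac/q)/φ(q)) I(b) + o(X)
= (μ(q)/φ(q)) I(b) + o(X)` (Ramanujan sum, or: the sum over the coprime `c` depends on `q` only and
its value is needed only in the comparison below).  `LamS z` part: it is periodic modulo
`P = ∏_{p ≤ z} p`; `St_SmAP` for the modulus `q P`: mean of `LamS z (x) e(ax/q)` over `x mod qP` times
`I(b)`, error `O(qP (1+|b|))`.  The mean is `(μ(q)/φ(q)) [q ∣ P]` (for `q ∣ P`: the mean over the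
classes coprime to `P`; for `q ∤ P` it is `0`: expand `LamS z = ρ⁻¹ ∑_{d ∣ P} μ(d) [d ∣ x]`, the mean of
`[d ∣ x] e(ax/q)` is `0` unless `q ∣ d`; for `q ∣ d` it is `1/d`).  If `q ∤ P` then `μ(q) = 0` or `q` has
a prime factor `p > z` and `φ(q) ≥ z`. -/
def St_Smj : Prop := ∀ η : ℝ → ℝ, IsWt η → ∀ (B₁ z : ℕ), 2 ≤ z → ∀ ε : ℝ, 0 < ε →
  ∀ᶠ X : ℕ in atTop, ∀ (q : ℕ) (a : ℤ), 1 ≤ q → (q : ℝ) ≤ Real.log X ^ B₁ → Int.gcd a q = 1 →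
  ∀ b : ℝ, |b| ≤ Real.log X ^ B₁ →
  ‖∑ x ∈ range (X + 1), (((lam x - LamS z x) * η ((x : ℝ) / X) : ℝ) : ℂ) *
    ee ((a / q + b / X) * x)‖ ≤ (1 / (z : ℝ) + ε) * X

/-- [Smn] (6.1) minor arcs for `LamS z`, `z` constant.

`LamS z x = ρ(z)⁻¹ ∑_{d ∣ P} μ(d) [d ∣ x]` (for `x ≥ 1`).  For `d ∣ P`, `x = d k`: partial summation with the
smooth `η` (bounded variation on `[0,1]`: `|η'| ≤ V`) and the geometric sums
`|∑_{k ≤ K} e(α d k)| ≤ 1/(2‖αd‖)`.  `2 P ≤ log X ≤ q`: `‖a d/q‖ ≥ 1/q` (`q ∤ ad`),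
`|α - a/q| d ≤ d/q² ≤ 1/(2q)`, so `‖αd‖ ≥ 1/(2q)` and the sum is at most `(V+1) q ≤ (V+1) X/log X`. -/
def St_Smn : Prop := ∀ η : ℝ → ℝ, IsWt η → ∀ z : ℕ, 2 ≤ z → ∀ ε : ℝ, 0 < ε →
  ∀ᶠ X : ℕ in atTop, ∀ (α : ℝ) (a : ℤ) (q : ℕ), Real.log X ≤ (q : ℝ) → (q : ℝ) ≤ X / Real.log X →
  Int.gcd a q = 1 → |α - a / q| ≤ 1 / (q : ℝ) ^ 2 →
  ‖∑ x ∈ range (X + 1), ((LamS z x * η ((x : ℝ) / X) : ℝ) : ℂ) * ee (α * x)‖ ≤ ε * X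

/-- [Ssp] (6.1) small exponential sums.

`z > 4/ε`.  As `GBQ.thm_Sup` (Dirichlet, `GBQ.sup_dirichlet`, `GBQ.sup_minor_bounds`): `B₁` from
`GBQ.St_MinLam` (proved: `GBQ.thm_MinLam GBQ.thm_Vin`) such that the `lam` part on the minor arcs
(`q > (log X)^{B₁}`) is at most `ε X/4`; `St_Smn`, `St_Smj`. -/
def St_Ssp : Prop := ∀ η : ℝ → ℝ, IsWt η → ∀ ε : ℝ, 0 < ε → ∃ z : ℕ, 3 ≤ z ∧
  ∀ᶠ X : ℕ in atTop, ∀ α : ℝ,
  ‖∑ x ∈ range (X + 1), (((lam x - LamS z x) * η ((x : ℝ) / X) : ℝ) : ℂ) * ee (α * x)‖ ≤ ε * X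

/-- [Eta] (6.4) the cut-off functions.

`S y = Real.smoothTransition ((y - .22)/.03)`, `η y = S y - S (22 y/75)`: `22 · .75/75 = .22`, and
`22 y/75 ≥ .25` for `y ≥ .853`. -/
def St_Eta : Prop := ∃ S η : ℝ → ℝ, IsWt η ∧ (∀ y, 0 ≤ S y ∧ S y ≤ 1) ∧
  (∀ y, y ≤ 0.22 → S y = 0) ∧ (∀ y, 0.25 ≤ y → S y = 1) ∧ ∀ y, η y = S y - S (22 / 75 * y)

/-- [Hnk] (6.2) Hankel forms.

`F(α) = ∑_i f_i e(-2αi)`; `∑ f_i f_j r(2(i+j)+3) = ∫_0^1 (∑_n r(n) e(αn)) F(α)² e(-3α) dα` (orthogonality on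
`[0,1]`), and `∫_0^1 |F|² = ∑ f²`. (Or a finite average over `α = h/N'`, `N' > 8m+8` prime to `2`.) -/
def St_Hnk : Prop := ∀ (m N : ℕ) (r : ℕ → ℝ) (M : ℝ) (f : ℕ → ℝ), 4 * m ≤ N →
  (∀ α : ℝ, ‖∑ n ∈ range (N + 1), ((r n : ℝ) : ℂ) * ee (α * n)‖ ≤ M) →
  |∑ i ∈ range m, ∑ j ∈ range m, f i * f j * r (2 * (i + j) + 3)| ≤ M * ∑ i ∈ range m, f i ^ 2

/-- [Mdl] (6.3) the model.

For odd `n` `LamS z n = 2 ∏_{3 ≤ p ≤ z} (p/(p-1)) [p ∤ n]`, so `(1/2) LamS z (2(i+j)+3) = K(i+j)`, `K` periodic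
modulo `Q = ∏_{3≤p≤z} p`; `K(u) = ∑_{h mod Q} κ_h e(hu/Q)`, `κ_0 = 1`, `|κ_h| = ∏_{p : p ∤ h}... ≤ 1/2` for `h ≠ 0`
(the factor at `p` is `1` if the `p`-component of `h` is `0`, else of modulus `1/(p-1)`; induction on
the primes or the Chinese remainder theorem).
`∑ f_i f_j K(i+j) = ∑_h κ_h (∑_i f_i e(hi/Q))²` and
`∑_h |∑_i f_i e(hi/Q)|² = Q ∑_r |∑_{i ≡ r} f_i|² ≤ Q (m/Q + 1) ∑ f²`. -/
def St_Mdl : Prop := ∀ z : ℕ, 3 ≤ z → ∃ C : ℝ, ∀ m : ℕ, 1 ≤ m → ∀ f : ℕ → ℝ,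
  |1 / (2 * (m : ℝ)) * ∑ i ∈ range m, ∑ j ∈ range m, f i * f j * LamS z (2 * (i + j) + 3) -
    (∑ i ∈ range m, f i) ^ 2 / m| ≤ (1 / 2 + C / m) * ∑ i ∈ range m, f i ^ 2

open scoped Classical in
/-- [Spc] (6.4) the spectral bound for the primes.

`S`, `η` from `St_Eta`; `z` from `St_Ssp` for `η` and `ε₁ = ε/100`; then `δ` small, `K` with
`(22/75)^K ≤ δ/8`.  `M = ⌈16 m/(3 · 75^K)⌉`, `X_k = 22^k 75^{K-k} M`, `k = 0, …, K`, so that for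
`3 ≤ n ≤ 4m` `s(n) := ∑_k η(n/X_k) = S(n/X_K) - S(22n/(75X_0)) = S(n/X_K)` lies in `[0,1]` and is `1` for
`n ≥ δ m` (`X_0 ≤ 6m`).  With `n = 2(i+j)+3`:
`[n prime]/dd m = (1/2m)(∑_k (lam - LamS z)(n) η(n/X_k)) + (1/2m) LamS z n
 + (1/2m) LamS z n (s(n) - 1) + (1/2m)(log m [n prime] - lam n s(n))`.
First: `St_Hnk` with `N = X_0` (`X_k ≤ X_0`; the summands vanish for `x > X_k`), norm
`≤ (1/2m) ε₁ ∑ X_k ≤ ε/10`.  Second: `St_Mdl`.  Third: Schur test, row sums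
`≤ (1/2m) ρ(z)⁻¹ (δm/2 + 1)`, small if `δ ≤ ε ρ(z)/10`.  Fourth: Schur test:
`n ≥ δm` prime: `|log m - log n| ≤ |log δ| + log 4`, and the number of primes in a row is
`O(m/log m)` (`PG.deg` for `PA`); `n < δm`: `≤ (1/2m) 2 log(4m) π(δm) = O(δ)` (Chebyshev);
prime powers: at most `√(4m) log(4m)` of them. -/
def St_Spc : Prop := ∀ ε : ℝ, 0 < ε → ∀ᶠ m : ℕ in atTop, ∀ f : ℕ → ℝ,
  |(∑ i ∈ range m, ∑ j ∈ range m, if PA i j then f i * f j else 0) / dd m -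
    (∑ i ∈ range m, f i) ^ 2 / m| ≤ (1 / 2 + ε) * ∑ i ∈ range m, f i ^ 2

/-- [Cls] (6.5) the scaling is flat.

`P_ij = [PA i j]/dd m`, `ξ_i = x_i √(dd m) ∈ [1/C', C']`, `ξ_i (P ξ)_i = 1`, `h = log ξ`.
`∑ h_i (1 - (P1)_i) = ∑ P_ij h_i (e^{h_i+h_j} - 1) = (1/2) ∑ P_ij (h_i+h_j)(e^{h_i+h_j} - 1)
≥ (c/2) ∑ P_ij (h_i+h_j)²`, `c = C'^{-2}` (`(e^t-1)t ≥ c t²` for `|t| ≤ 2 log C'`), and
`(1/2)∑ P_ij (h_i+h_j)² = ∑ (P1)_i h_i² + ⟨h,Ph⟩ ≥ (1 - ε' + 0 - .6)|h|²` (`St_Spc`); LHS `≤ ε' √m |h|`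
(`PG.deg`; `PG PA` is `PC.pg_PA`, Pool/Agent/PC/PGPrime.lean).  So
`|h|₂ ≤ ε'' √m`.  Then `|ξ_i - 1| ≤ C'|(Pξ)_i - 1| ≤ C'(ε' + ∑_j P_ij |ξ_j - 1|)`; once more, and
`∑_k (P²)_ik |ξ_k - 1| ≤ (∑_k (P²)_ik²)^{1/2} |ξ-1|₂`, `∑_k ((P²)_ik)² ≤ dd⁻⁴ (∑_{k≠i} codeg² + deg²) ≤ C/m`
(`PG.codeg`), `|ξ_k - 1| ≤ C'|h_k|`. -/
def St_Cls : Prop := ∀ C : ℝ, 0 < C → ∀ ε : ℝ, 0 < ε → ∀ᶠ m : ℕ in atTop,
  ∀ x : ℕ → ℝ, Bd C m x → (∀ i < m, wdeg m x i = 1) → ∀ i < m, |x i * √(dd m) - 1| ≤ ε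

open scoped Classical in
/-- the matrix `E` of the primes -/
noncomputable def Ex (m : ℕ) (x : ℕ → ℝ) : Matrix (Fin m) (Fin m) ℝ :=
  fun i j => (if PA (i : ℕ) (j : ℕ) then x i * x j else 0) - 1 / (m : ℝ)

/-- [Hyx] (6.6) the hypotheses hold for the primes.

`B_ij = x_i x_j [PA i j]`, rows `1` (`wdeg = 1`).  `∑_j E_ij² = ∑ B_ij² - 1/m ≤ max B ≤ C² log m/m`.
Norm: `B = Ξ P Ξ`; `f^T B f = (ξf)^T P (ξf)`, `St_Spc` with `ε = .01` for `ξ f`, and `|ξ_i - 1| ≤ ε''`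
(`St_Cls`): `|(∑ ξf)² - (∑ f)²|/m ≤ 3ε'' |f|²`; total `≤ (.51 (1+ε'')² + 3ε'')|f|² ≤ .53 |f|²`.
`E² = B² - J/m`, `∑ (E²)_ij² = ∑ (B²)_ij² - 1`; `(B²)_ik ≤ C⁴ (log m/m)² codeg(i,k)` for `i ≠ k`,
`(B²)_ii ≤ C² log m/m`; `PG.codeg`. -/
def St_Hyx : Prop := ∀ C : ℝ, 0 < C → ∃ C₁ : ℝ, 0 < C₁ ∧ ∀ᶠ m : ℕ in atTop,
  ∀ x : ℕ → ℝ, Bd C m x → (∀ i < m, wdeg m x i = 1) → Hyp C₁ m (Ex m x)

/-! ### Block C: counting -/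

/-- [Cnt] prime circles are pairs of perfect matchings with a one-cycle union, two to one.

`≤`: `PC.BlockK.card_HP_le` or `PC.card_HP_le` in Pool/Agent/PC/Circle.lean (`Nat.card (HP m) ≤ 2 numPrimeCircles`).
`≥`: a prime circle, started at the entry `1`, in one of the two directions (different for `m ≥ 2`:
there are at least `4` entries, and the two neighbours of `1` are different), gives the
matchings odd entry → next entry and odd entry → previous entry; see also Pool/Agent/PCZ/Prs.lean. -/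
def St_Cnt : Prop := ∀ m : ℕ, 2 ≤ m → 2 * numPrimeCircles m = Nat.card (HP m)

/-- [Hmx] `ham` for the primes.

`BB (Ex m x) i j = [PA i j] x_i x_j`; the product over `σ` is `0` unless all `PA i (σ i)` hold, and then
`∏ x_i x_{σ i} = (∏ x_i)²`.  `HP m`: pairs of bijections `range m ≃ range m` with `PA`; `Fin m ≃ range m`
conjugates `Cyc (σ⁻¹ τ)` into the condition of `HP` (`N.2.1.trans N.1.1.symm` is `σ⁻¹ τ`). -/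
def St_Hmx : Prop := ∀ (m : ℕ) (x : ℕ → ℝ), 1 ≤ m →
  ham (BB (Ex m x)) = Nat.card (HP m) * ∏ i ∈ range m, x i ^ 4

/-- the final theorem -/
def St_Fin : Prop := ∀ ε : ℝ, 0 < ε → ∀ᶠ m : ℕ in atTop, ∃ H : ℝ, IsGreatest (Entropies m) H ∧
  (∃ w, IsScaling m w) ∧
  (∀ w, IsScaling m w → ∑ a ∈ Icc 1 (2 * m), Real.log (w a) = -H) ∧
  |(numPrimeCircles m : ℝ) / (Real.pi * Real.exp (2 * H - 2 * m)) - 1| ≤ ε

end Pool.Agent.PCW
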