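import Mathlib
import Pool.Agent.PCW.StN
import Pool.Agent.PC.PGPrime

set_option autoImplicit false

/-!
# PCW, module Cls: the symmetric scaling of the prime matrix is flat
-/

namespace Pool.Agent.PCW

open Finset Filter
open Pool.Agent.PC (PA dd dX codeg)
open Pool.Agent.PCX (wdeg)
open Pool.Agent.PCZ (Bd)

private lemma Cls_key {L t : ℝ} (hL : 0 ≤ L) (h1 : -L ≤ t) :
    Real.exp (-L) * t ^ 2 ≤ t * (Real.exp t - 1) := by
  rcases le_total 0 t with ht | ht
  · have e1 : t ≤ Real.exp t - 1 := by linarith [Real.add_one_le_exp t]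
    have e2 : Real.exp (-L) ≤ 1 := Real.exp_le_one_iff.2 (by linarith)
    have e3 : t * t ≤ t * (Real.exp t - 1) := mul_le_mul_of_nonneg_left e1 ht
    nlinarith [sq_nonneg t]
  · have e1 : -t ≤ Real.exp (-t) - 1 := by linarith [Real.add_one_le_exp (-t)]
    have e2 : Real.exp t * Real.exp (-t) = 1 := by rw [← Real.exp_add]; simp
    have e3 : Real.exp (-L) ≤ Real.exp t := Real.exp_le_exp.2 h1
    have e4 : Real.exp t * (-t) ≤ 1 - Real.exp t := by
      have : Real.exp t * (-t) ≤ Real.exp t * (Real.exp (-t) - 1) :=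
        mul_le_mul_of_nonneg_left e1 (Real.exp_pos t).le
      rw [mul_sub, e2, mul_one] at this
      exact this
    have e5 : (-t) * (Real.exp t * (-t)) ≤ (-t) * (1 - Real.exp t) :=
      mul_le_mul_of_nonneg_left e4 (by linarith)
    have e6 : Real.exp (-L) * t ^ 2 ≤ Real.exp t * t ^ 2 :=
      mul_le_mul_of_nonneg_right e3 (sq_nonneg t)
    nlinarith

private lemma Cls_exp_sub {t : ℝ} : |Real.exp t - 1| ≤ Real.exp |t| * |t| := by
  rcases le_total 0 t with ht | ht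
  · have e1 : 0 ≤ Real.exp t - 1 := by linarith [Real.add_one_le_exp t]
    rw [abs_of_nonneg e1, abs_of_nonneg ht]
    have e2 : -t + 1 ≤ Real.exp (-t) := Real.add_one_le_exp (-t)
    have e3 : Real.exp t * Real.exp (-t) = 1 := by rw [← Real.exp_add]; simp
    have e4 : Real.exp t * (-t + 1) ≤ Real.exp t * Real.exp (-t) :=
      mul_le_mul_of_nonneg_left e2 (Real.exp_pos t).le
    rw [e3] at e4
    linarith
  · have e1 : Real.exp t - 1 ≤ 0 := by
      have := Real.exp_le_one_iff.2 ht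
      linarith
    rw [abs_of_nonpos e1, abs_of_nonpos ht]
    have e2 : t + 1 ≤ Real.exp t := Real.add_one_le_exp t
    have e3 : 1 ≤ Real.exp (-t) := Real.one_le_exp (by linarith)
    nlinarith

private lemma Cls_core (m : ℕ) (hm : 0 < m) (P : ℕ → ℕ → ℝ) (ξ : ℕ → ℝ) (Λ δ K : ℝ)
    (hΛ : 1 ≤ Λ) (hδ0 : 0 < δ) (hδ : δ ≤ 1 / 10) (hK : 0 ≤ K)
    (Psymm : ∀ i j, P i j = P j i) (Pnn : ∀ i j, 0 ≤ P i j)
    (hlow : ∀ i < m, Λ⁻¹ ≤ ξ i) (hup : ∀ i < m, ξ i ≤ Λ)
    (heq : ∀ i < m, ξ i * ∑ j ∈ range m, P i j * ξ j = 1)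
    (hrow : ∀ i < m, |∑ j ∈ range m, P i j - 1| ≤ δ)
    (hspec : ∀ f : ℕ → ℝ, -(3 / 5) * ∑ i ∈ range m, f i ^ 2 ≤
      ∑ i ∈ range m, ∑ j ∈ range m, P i j * (f i * f j))
    (h4 : ∀ i < m, ∑ k ∈ range m, (∑ j ∈ range m, P i j * P j k) ^ 2 ≤ K / m) :
    ∀ i < m, |ξ i - 1| ≤ δ * (Λ + 2 * Λ ^ 2 + Λ ^ 2 * (√K * (Λ ^ 3 / (3 / 10)))) := by
  classical
  have hΛ0 : 0 < Λ := by linarith
  have hξ : ∀ i < m, 0 < ξ i := fun i hi => lt_of_lt_of_le (inv_pos.2 hΛ0) (hlow i hi)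
  set h : ℕ → ℝ := fun i => Real.log (ξ i) with hh
  have hexp : ∀ i < m, Real.exp (h i) = ξ i := fun i hi => Real.exp_log (hξ i hi)
  have hlo : ∀ i < m, -Real.log Λ ≤ h i := by
    intro i hi
    rw [← Real.log_inv]
    exact Real.log_le_log (inv_pos.2 hΛ0) (hlow i hi)
  have hhi : ∀ i < m, h i ≤ Real.log Λ := fun i hi => Real.log_le_log (hξ i hi) (hup i hi)
  have hL0 : 0 ≤ Real.log Λ := Real.log_nonneg hΛ
  have hc : Real.exp (-(2 * Real.log Λ)) = (Λ ^ 2)⁻¹ := by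
    rw [Real.exp_neg, two_mul, Real.exp_add, Real.exp_log hΛ0, sq]
  -- the pointwise inequality
  have key : ∀ i < m, ∀ j < m, (Λ ^ 2)⁻¹ * (h i + h j) ^ 2 ≤ (h i + h j) * (ξ i * ξ j - 1) := by
    intro i hi j hj
    have e1 := Cls_key (L := 2 * Real.log Λ) (t := h i + h j) (by linarith)
      (by linarith [hlo i hi, hlo j hj])
    rw [hc, Real.exp_add, hexp i hi, hexp j hj] at e1
    exact e1
  -- the identity
  have id1 : ∑ i ∈ range m, h i * (1 - ∑ j ∈ range m, P i j) =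
      ∑ i ∈ range m, ∑ j ∈ range m, P i j * (h i * (ξ i * ξ j - 1)) := by
    refine sum_congr rfl fun i hi => ?_
    rw [mem_range] at hi
    have e1 : (1 : ℝ) - ∑ j ∈ range m, P i j = ∑ j ∈ range m, P i j * (ξ i * ξ j - 1) := by
      nth_rewrite 1 [← heq i hi]
      rw [mul_sum, ← sum_sub_distrib]
      exact sum_congr rfl fun j _ => by ring
    rw [e1, mul_sum]
    exact sum_congr rfl fun j _ => by ring
  have id2 : ∑ i ∈ range m, ∑ j ∈ range m, P i j * (h i * (ξ i * ξ j - 1)) =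
      ∑ i ∈ range m, ∑ j ∈ range m, P i j * (h j * (ξ i * ξ j - 1)) := by
    rw [sum_comm]
    refine sum_congr rfl fun i _ => sum_congr rfl fun j _ => ?_
    rw [Psymm j i, mul_comm (ξ j) (ξ i)]
  have id3 : 2 * ∑ i ∈ range m, h i * (1 - ∑ j ∈ range m, P i j) =
      ∑ i ∈ range m, ∑ j ∈ range m, P i j * ((h i + h j) * (ξ i * ξ j - 1)) := by
    rw [two_mul]
    nth_rewrite 2 [id1]
    rw [id2, id1, ← sum_add_distrib]
    refine sum_congr rfl fun i _ => ?_
    rw [← sum_add_distrib]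
    exact sum_congr rfl fun j _ => by ring
  have low1 : (Λ ^ 2)⁻¹ * ∑ i ∈ range m, ∑ j ∈ range m, P i j * (h i + h j) ^ 2 ≤
      2 * ∑ i ∈ range m, h i * (1 - ∑ j ∈ range m, P i j) := by
    rw [id3, mul_sum]
    refine sum_le_sum fun i hi => ?_
    rw [mul_sum]
    refine sum_le_sum fun j hj => ?_
    rw [mem_range] at hi hj
    have := mul_le_mul_of_nonneg_left (key i hi j hj) (Pnn i j)
    linarith
  have id4 : ∑ i ∈ range m, ∑ j ∈ range m, P i j * (h i + h j) ^ 2 =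
      2 * ∑ i ∈ range m, (∑ j ∈ range m, P i j) * h i ^ 2 +
      2 * ∑ i ∈ range m, ∑ j ∈ range m, P i j * (h i * h j) := by
    have e1 : ∑ i ∈ range m, ∑ j ∈ range m, P i j * h j ^ 2 =
        ∑ i ∈ range m, (∑ j ∈ range m, P i j) * h i ^ 2 := by
      rw [sum_comm]
      refine sum_congr rfl fun i _ => ?_
      rw [sum_mul]
      exact sum_congr rfl fun j _ => by rw [Psymm j i]
    have e2 : ∑ i ∈ range m, ∑ j ∈ range m, P i j * (h i + h j) ^ 2 =
        ∑ i ∈ range m, (∑ j ∈ range m, P i j) * h i ^ 2 +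
        ∑ i ∈ range m, ∑ j ∈ range m, P i j * h j ^ 2 +
        2 * ∑ i ∈ range m, ∑ j ∈ range m, P i j * (h i * h j) := by
      rw [mul_sum, ← sum_add_distrib, ← sum_add_distrib]
      refine sum_congr rfl fun i _ => ?_
      rw [sum_mul, mul_sum, ← sum_add_distrib, ← sum_add_distrib]
      exact sum_congr rfl fun j _ => by ring
    rw [e2, e1]
    ring
  set H : ℝ := ∑ i ∈ range m, h i ^ 2 with hH
  have hH0 : 0 ≤ H := sum_nonneg fun i _ => sq_nonneg _
  have low2 : 3 / 5 * H ≤ ∑ i ∈ range m, ∑ j ∈ range m, P i j * (h i + h j) ^ 2 := by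
    rw [id4]
    have e1 : 9 / 10 * H ≤ ∑ i ∈ range m, (∑ j ∈ range m, P i j) * h i ^ 2 := by
      rw [hH, mul_sum]
      refine sum_le_sum fun i hi => ?_
      rw [mem_range] at hi
      have := (abs_le.1 (hrow i hi)).1
      exact mul_le_mul_of_nonneg_right (by linarith) (sq_nonneg _)
    have e2 := hspec h
    rw [← hH] at e2
    linarith
  -- the upper bound of the left side
  have up1 : 2 * ∑ i ∈ range m, h i * (1 - ∑ j ∈ range m, P i j) ≤
      (Λ ^ 2)⁻¹ * (3 / 10) * H + m * (δ ^ 2 * Λ ^ 2 / (3 / 10)) := by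
    have e1 : ∀ i ∈ range m, 2 * (h i * (1 - ∑ j ∈ range m, P i j)) ≤
        (Λ ^ 2)⁻¹ * (3 / 10) * h i ^ 2 + δ ^ 2 * Λ ^ 2 / (3 / 10) := by
      intro i hi
      rw [mem_range] at hi
      set w : ℝ := 1 - ∑ j ∈ range m, P i j with hw
      have hw2 : w ^ 2 ≤ δ ^ 2 := by
        have : |w| ≤ δ := by rw [hw, abs_sub_comm]; exact hrow i hi
        rw [← sq_abs w]
        exact pow_le_pow_left₀ (abs_nonneg _) this 2
      have e2 : 0 ≤ (Λ ^ 2)⁻¹ * (3 / 10) * (h i - Λ ^ 2 / (3 / 10) * w) ^ 2 := by positivity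
      have e3 : (Λ ^ 2)⁻¹ * (3 / 10) * (h i - Λ ^ 2 / (3 / 10) * w) ^ 2 =
          (Λ ^ 2)⁻¹ * (3 / 10) * h i ^ 2 - 2 * (h i * w) + w ^ 2 * Λ ^ 2 / (3 / 10) := by
        have : Λ ≠ 0 := hΛ0.ne'
        field_simp
        ring
      have e4 : w ^ 2 * Λ ^ 2 / (3 / 10) ≤ δ ^ 2 * Λ ^ 2 / (3 / 10) := by
        have : w ^ 2 * Λ ^ 2 ≤ δ ^ 2 * Λ ^ 2 := mul_le_mul_of_nonneg_right hw2 (sq_nonneg _)
        linarith
      linarith
    rw [mul_sum]
    refine (sum_le_sum e1).trans (le_of_eq ?_)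
    rw [sum_add_distrib, ← mul_sum, sum_const, card_range, nsmul_eq_mul]
  have hHb : H ≤ m * (δ * Λ ^ 2 / (3 / 10)) ^ 2 := by
    have e1 : (Λ ^ 2)⁻¹ * (3 / 5 * H) ≤
        (Λ ^ 2)⁻¹ * (3 / 10) * H + m * (δ ^ 2 * Λ ^ 2 / (3 / 10)) :=
      (mul_le_mul_of_nonneg_left low2 (by positivity)).trans (low1.trans up1)
    have e2 : (Λ ^ 2)⁻¹ * (3 / 10) * H ≤ m * (δ ^ 2 * Λ ^ 2 / (3 / 10)) := by linarith
    have e3 : Λ ^ 2 / (3 / 10) * ((Λ ^ 2)⁻¹ * (3 / 10) * H) = H := by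
      have : Λ ≠ 0 := hΛ0.ne'
      field_simp
    have e4 := mul_le_mul_of_nonneg_left e2 (show 0 ≤ Λ ^ 2 / (3 / 10) by positivity)
    rw [e3] at e4
    refine e4.trans (le_of_eq ?_)
    ring
  -- the sup bound
  set u : ℕ → ℝ := fun i => |ξ i - 1| with hu
  have hu0 : ∀ i, 0 ≤ u i := fun i => abs_nonneg _
  have hu1 : ∀ i < m, u i ≤ Λ * |h i| := by
    intro i hi
    have e1 := Cls_exp_sub (t := h i)
    rw [hexp i hi] at e1
    refine e1.trans (mul_le_mul_of_nonneg_right ?_ (abs_nonneg _))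
    rw [← Real.exp_log hΛ0]
    exact Real.exp_le_exp.2 (abs_le.2 ⟨hlo i hi, hhi i hi⟩)
  have hu2 : ∑ i ∈ range m, u i ^ 2 ≤ m * (δ * Λ ^ 3 / (3 / 10)) ^ 2 := by
    have e1 : ∑ i ∈ range m, u i ^ 2 ≤ ∑ i ∈ range m, Λ ^ 2 * h i ^ 2 := by
      refine sum_le_sum fun i hi => ?_
      rw [mem_range] at hi
      calc u i ^ 2 ≤ (Λ * |h i|) ^ 2 := pow_le_pow_left₀ (hu0 i) (hu1 i hi) 2
        _ = Λ ^ 2 * h i ^ 2 := by rw [mul_pow, sq_abs]
    rw [← mul_sum] at e1
    refine e1.trans ((mul_le_mul_of_nonneg_left hHb (sq_nonneg Λ)).trans (le_of_eq ?_))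
    ring
  have hu3 : ∀ i < m, u i ≤ Λ * (δ + ∑ j ∈ range m, P i j * u j) := by
    intro i hi
    have e1 : ξ i - 1 = ξ i * (1 - ∑ j ∈ range m, P i j * ξ j) := by
      rw [mul_sub, heq i hi, mul_one]
    have e2 : 1 - ∑ j ∈ range m, P i j * ξ j =
        -((∑ j ∈ range m, P i j - 1) + ∑ j ∈ range m, P i j * (ξ j - 1)) := by
      have : ∑ j ∈ range m, P i j * (ξ j - 1) =
          ∑ j ∈ range m, P i j * ξ j - ∑ j ∈ range m, P i j := by
        rw [← sum_sub_distrib]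
        exact sum_congr rfl fun j _ => by ring
      rw [this]
      ring
    have e3 : |1 - ∑ j ∈ range m, P i j * ξ j| ≤ δ + ∑ j ∈ range m, P i j * u j := by
      rw [e2, abs_neg]
      refine (abs_add_le _ _).trans (add_le_add (hrow i hi) ?_)
      refine (abs_sum_le_sum_abs _ _).trans (le_of_eq (sum_congr rfl fun j _ => ?_))
      rw [abs_mul, abs_of_nonneg (Pnn i j)]
    show |ξ i - 1| ≤ _
    rw [e1, abs_mul, abs_of_pos (hξ i hi)]
    exact mul_le_mul (hup i hi) e3 (abs_nonneg _) hΛ0.le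
  intro i hi
  have hrow2 : ∑ j ∈ range m, P i j ≤ 2 := by
    have := (abs_le.1 (hrow i hi)).2
    linarith
  have f1 : ∑ j ∈ range m, P i j * u j ≤
      2 * (Λ * δ) + Λ * ∑ k ∈ range m, (∑ j ∈ range m, P i j * P j k) * u k := by
    have e1 : ∑ j ∈ range m, P i j * u j ≤
        ∑ j ∈ range m, P i j * (Λ * (δ + ∑ k ∈ range m, P j k * u k)) := by
      refine sum_le_sum fun j hj => ?_
      exact mul_le_mul_of_nonneg_left (hu3 j (mem_range.1 hj)) (Pnn i j)
    have e2 : ∑ j ∈ range m, P i j * (Λ * (δ + ∑ k ∈ range m, P j k * u k)) =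
        (∑ j ∈ range m, P i j) * (Λ * δ) +
          Λ * ∑ j ∈ range m, P i j * ∑ k ∈ range m, P j k * u k := by
      rw [sum_mul, mul_sum, ← sum_add_distrib]
      exact sum_congr rfl fun j _ => by ring
    have e3 : ∑ j ∈ range m, P i j * ∑ k ∈ range m, P j k * u k =
        ∑ k ∈ range m, (∑ j ∈ range m, P i j * P j k) * u k := by
      simp_rw [mul_sum, sum_mul]
      rw [sum_comm]
      exact sum_congr rfl fun k _ => sum_congr rfl fun j _ => by ring
    rw [e2, e3] at e1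
    have e4 : (∑ j ∈ range m, P i j) * (Λ * δ) ≤ 2 * (Λ * δ) :=
      mul_le_mul_of_nonneg_right hrow2 (by positivity)
    linarith
  have f2 : ∑ k ∈ range m, (∑ j ∈ range m, P i j * P j k) * u k ≤
      √K * (δ * Λ ^ 3 / (3 / 10)) := by
    have e1 : (∑ k ∈ range m, (∑ j ∈ range m, P i j * P j k) * u k) ^ 2 ≤
        (∑ k ∈ range m, (∑ j ∈ range m, P i j * P j k) ^ 2) * ∑ k ∈ range m, u k ^ 2 :=
      sum_mul_sq_le_sq_mul_sq _ _ _
    have hm' : (0 : ℝ) < m := by exact_mod_cast hm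
    have e2 : (∑ k ∈ range m, (∑ j ∈ range m, P i j * P j k) ^ 2) * ∑ k ∈ range m, u k ^ 2 ≤
        (K / m) * (m * (δ * Λ ^ 3 / (3 / 10)) ^ 2) :=
      mul_le_mul (h4 i hi) hu2 (sum_nonneg fun k _ => sq_nonneg _) (by positivity)
    have e3 : (K / m) * (m * (δ * Λ ^ 3 / (3 / 10)) ^ 2) =
        (√K * (δ * Λ ^ 3 / (3 / 10))) ^ 2 := by
      rw [mul_pow, Real.sq_sqrt hK]
      field_simp
    rw [e3] at e2
    exact abs_le_of_sq_le_sq' (e1.trans e2) (by positivity) |>.2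
  have f3 := hu3 i hi
  show u i ≤ _
  calc u i ≤ Λ * (δ + ∑ j ∈ range m, P i j * u j) := f3
    _ ≤ Λ * (δ + (2 * (Λ * δ) + Λ * (√K * (δ * Λ ^ 3 / (3 / 10))))) := by
        refine mul_le_mul_of_nonneg_left ?_ hΛ0.le
        have := mul_le_mul_of_nonneg_left f2 hΛ0.le
        linarith
    _ = δ * (Λ + 2 * Λ ^ 2 + Λ ^ 2 * (√K * (Λ ^ 3 / (3 / 10)))) := by ring

private lemma Cls_sqrt {m : ℕ} (hm : 2 ≤ m) : √(Real.log m / m) * √(dd m) = √2 := by
  have h1 : (0 : ℝ) < m := by exact_mod_cast (by omega : 0 < m)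
  have h2 : 0 < Real.log m := Real.log_pos (by exact_mod_cast (by omega : 1 < m))
  rw [← Real.sqrt_mul (by positivity)]
  congr 1
  unfold dd
  field_simp

theorem thm_Cls (h1 : St_Spc) : St_Cls := by
  classical
  intro C hC ε hε
  obtain ⟨C2, hC2, hcod⟩ := Pool.Agent.PC.pg_PA.codeg
  set Λ : ℝ := 2 * C + 1 with hΛd
  have hΛ : 1 ≤ Λ := by rw [hΛd]; linarith
  have hΛ0 : 0 < Λ := by linarith
  set M : ℝ := Λ + 2 * Λ ^ 2 + Λ ^ 2 * (√(C2 + 4) * (Λ ^ 3 / (3 / 10))) with hM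
  have hM0 : 0 < M := by
    rw [hM]
    have : 0 ≤ √(C2 + 4) := Real.sqrt_nonneg _
    positivity
  set δ : ℝ := min (1 / 10) (ε / M) with hδd
  have hδ0 : 0 < δ := lt_min (by norm_num) (div_pos hε hM0)
  have hδ1 : δ ≤ 1 / 10 := min_le_left _ _
  have hδ2 : δ * M ≤ ε := by
    have : δ ≤ ε / M := min_le_right _ _
    calc δ * M ≤ ε / M * M := mul_le_mul_of_nonneg_right this hM0.le
      _ = ε := div_mul_cancel₀ _ hM0.ne'
  filter_upwards [hcod, Pool.Agent.PC.pg_PA.deg δ hδ0, h1 (1 / 10) (by norm_num),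
    Pool.Agent.PC.sqrt_le_dd, eventually_ge_atTop 2] with m hcodm hdeg hspc hsq hm2 x hBd hw i hi
  have hd : 0 < dd m := Pool.Agent.PC.dd_pos hm2
  have hm0 : 0 < m := by omega
  have hm0' : (0 : ℝ) < m := by exact_mod_cast hm0
  set P : ℕ → ℕ → ℝ := fun i j => if PA i j then 1 / dd m else 0 with hP
  set ξ : ℕ → ℝ := fun i => x i * √(dd m) with hξ
  have hsd : √(dd m) * √(dd m) = dd m := Real.mul_self_sqrt hd.le
  have hs := Cls_sqrt hm2
  have hs2a : 1 ≤ √2 := by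
    rw [show (1 : ℝ) = √1 by simp]
    exact Real.sqrt_le_sqrt (by norm_num)
  have hs2b : √2 ≤ 2 := by
    rw [Real.sqrt_le_left (by norm_num)]
    norm_num
  have hPsym : ∀ i j, P i j = P j i := by
    intro i j
    have : PA i j ↔ PA j i := ⟨Pool.Agent.PC.pg_PA.symm i j, Pool.Agent.PC.pg_PA.symm j i⟩
    simp only [hP, this]
  have hPnn : ∀ i j, 0 ≤ P i j := by
    intro i j
    simp only [hP]
    split_ifs
    · positivity
    · exact le_rfl
  have hlow : ∀ i < m, Λ⁻¹ ≤ ξ i := by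
    intro i hi
    have e1 := (hBd i hi).1
    have e2 : C⁻¹ * √(Real.log m / m) * √(dd m) ≤ ξ i :=
      mul_le_mul_of_nonneg_right e1 (Real.sqrt_nonneg _)
    rw [mul_assoc, hs] at e2
    have e3 : Λ⁻¹ ≤ C⁻¹ := inv_anti₀ hC (by rw [hΛd]; linarith)
    have e4 : C⁻¹ * 1 ≤ C⁻¹ * √2 := mul_le_mul_of_nonneg_left hs2a (inv_pos.2 hC).le
    linarith
  have hup : ∀ i < m, ξ i ≤ Λ := by
    intro i hi
    have e1 := (hBd i hi).2
    have e2 : ξ i ≤ C * √(Real.log m / m) * √(dd m) :=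
      mul_le_mul_of_nonneg_right e1 (Real.sqrt_nonneg _)
    rw [mul_assoc, hs] at e2
    have e4 : C * √2 ≤ C * 2 := mul_le_mul_of_nonneg_left hs2b hC.le
    rw [hΛd]
    linarith
  have heq : ∀ i < m, ξ i * ∑ j ∈ range m, P i j * ξ j = 1 := by
    intro i hi
    rw [← hw i hi, wdeg, mul_sum]
    refine sum_congr rfl fun j _ => ?_
    simp only [hP, hξ]
    split_ifs
    · have : x i * √(dd m) * (1 / dd m * (x j * √(dd m))) =
          x i * x j * ((√(dd m) * √(dd m)) / dd m) := by ring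
      rw [this, hsd, div_self hd.ne', mul_one]
    · ring
  have hsumP : ∀ i, ∑ j ∈ range m, P i j = (dX PA (range m) i : ℝ) / dd m := by
    intro i
    simp only [hP, dX]
    rw [← sum_filter, sum_const, nsmul_eq_mul]
    have : (range m).filter (fun j => PA i j) = (range m).filter (fun j => PA j i) := by
      refine filter_congr fun j _ => ?_
      exact ⟨Pool.Agent.PC.pg_PA.symm i j, Pool.Agent.PC.pg_PA.symm j i⟩
    rw [this]
    ring
  have hrow : ∀ i < m, |∑ j ∈ range m, P i j - 1| ≤ δ := by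
    intro i hi
    rw [hsumP, abs_le]
    obtain ⟨e1, e2⟩ := hdeg i hi
    constructor
    · rw [neg_le_sub_iff_le_add, ← sub_le_iff_le_add, le_div_iff₀ hd]
      exact e1
    · rw [sub_le_iff_le_add, div_le_iff₀ hd]
      linarith
  have hspec : ∀ f : ℕ → ℝ, -(3 / 5) * ∑ i ∈ range m, f i ^ 2 ≤
      ∑ i ∈ range m, ∑ j ∈ range m, P i j * (f i * f j) := by
    intro f
    have e1 := (abs_le.1 (hspc f)).1
    have e2 : ∑ i ∈ range m, ∑ j ∈ range m, P i j * (f i * f j) =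
        (∑ i ∈ range m, ∑ j ∈ range m, if PA i j then f i * f j else 0) / dd m := by
      rw [sum_div]
      refine sum_congr rfl fun i _ => ?_
      rw [sum_div]
      refine sum_congr rfl fun j _ => ?_
      simp only [hP]
      split_ifs
      · ring
      · ring
    rw [e2]
    have e3 : 0 ≤ (∑ i ∈ range m, f i) ^ 2 / m := by positivity
    linarith
  have hPP : ∀ i k, ∑ j ∈ range m, P i j * P j k = (codeg PA m i k : ℝ) / dd m ^ 2 := by
    intro i k
    simp only [codeg]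
    rw [card_eq_sum_ones, Nat.cast_sum, sum_filter, sum_div]
    refine sum_congr rfl fun j _ => ?_
    rw [hPsym j k]
    simp only [hP]
    by_cases h1 : PA i j <;> by_cases h2 : PA k j <;> simp [h1, h2, sq]
  have h4 : ∀ i < m, ∑ k ∈ range m, (∑ j ∈ range m, P i j * P j k) ^ 2 ≤ (C2 + 4) / m := by
    intro i hi
    have hdm : (m : ℝ) ≤ dd m ^ 2 := by
      have := pow_le_pow_left₀ (Real.sqrt_nonneg _) hsq 2
      rwa [Real.sq_sqrt hm0'.le] at this
    rw [← add_sum_erase _ _ (mem_range.2 hi)]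
    have e1 : (∑ j ∈ range m, P i j * P j i) ^ 2 ≤ 4 / m := by
      have e2 : ∑ j ∈ range m, P i j * P j i ≤ 2 / dd m := by
        have e3 : ∑ j ∈ range m, P i j * P j i ≤ ∑ j ∈ range m, P i j * (1 / dd m) := by
          refine sum_le_sum fun j _ => mul_le_mul_of_nonneg_left ?_ (hPnn i j)
          simp only [hP]
          split_ifs
          · exact le_rfl
          · positivity
        rw [← sum_mul] at e3
        have e4 : ∑ j ∈ range m, P i j ≤ 2 := by
          have := (abs_le.1 (hrow i hi)).2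
          linarith
        refine e3.trans ?_
        rw [mul_one_div]
        exact div_le_div_of_nonneg_right e4 hd.le
      have e0 : 0 ≤ ∑ j ∈ range m, P i j * P j i :=
        sum_nonneg fun j _ => mul_nonneg (hPnn i j) (hPnn j i)
      calc (∑ j ∈ range m, P i j * P j i) ^ 2 ≤ (2 / dd m) ^ 2 := pow_le_pow_left₀ e0 e2 2
        _ = 4 / dd m ^ 2 := by rw [div_pow]; norm_num
        _ ≤ 4 / m := div_le_div_of_nonneg_left (by norm_num) hm0' hdm
    have e5 : ∑ k ∈ (range m).erase i, (∑ j ∈ range m, P i j * P j k) ^ 2 ≤ C2 / m := by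
      have e6 : ∑ k ∈ (range m).erase i, (∑ j ∈ range m, P i j * P j k) ^ 2 =
          (∑ k ∈ (range m).erase i, (codeg PA m i k : ℝ) ^ 2) / dd m ^ 4 := by
        rw [sum_div]
        refine sum_congr rfl fun k _ => ?_
        rw [hPP, div_pow]
        congr 1
        ring
      rw [e6, div_le_iff₀ (by positivity)]
      refine (hcodm i hi).trans (le_of_eq ?_)
      ring
    have e7 : (C2 + 4) / m = 4 / m + C2 / m := by ring
    rw [e7]
    exact add_le_add e1 e5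
  have := Cls_core m hm0 P ξ Λ δ (C2 + 4) hΛ hδ0 hδ1 (by linarith) hPsym hPnn hlow hup heq hrow
    hspec h4 i hi
  exact this.trans hδ2

end Pool.Agent.PCW
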