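import Pool.Agent.PCW.StN

/-!
helper1. Module Cnt of PCW: prime circles are pairs of perfect matchings, two to one.
-/

set_option autoImplicit false

namespace Pool.Agent.PCW

open Finset Pool.Agent.PC Pool.Agent.PrimeCircle
open Pool.Agent.PC.BlockK (ent ent_even ent_odd)

section surj

variable {m : ℕ}

/-- the parities of the entries alternate -/
private theorem cnt_parity (hm : 0 < m) {a : ZMod (2 * m) → ℕ} (ha : IsPrimeCircle m a)
    (h0 : a 0 = 1) (n : ℕ) : a (n : ZMod (2 * m)) % 2 = (n + 1) % 2 := by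
  have : NeZero (2 * m) := ⟨by omega⟩
  induction n with
  | zero => simp [h0]
  | succ n ih =>
    have h1 := ha.2.2 (n : ZMod (2 * m))
    have h2 := (ha.2.1 (n : ZMod (2 * m))).1
    have h3 := (ha.2.1 ((n : ZMod (2 * m)) + 1)).1
    have h4 : a (n : ZMod (2 * m)) ≠ a ((n : ZMod (2 * m)) + 1) := by
      intro h
      have h5 := ha.1 h
      have h6 : (1 : ZMod (2 * m)) = 0 := by
        have := congrArg (fun z => z - (n : ZMod (2 * m))) h5
        simpa using this.symm
      have h7 := (ZMod.natCast_eq_zero_iff 1 (2 * m)).1 (by simpa using h6)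
      have := Nat.le_of_dvd (by norm_num) h7
      omega
    have h5 : (a (n : ZMod (2 * m)) + a ((n : ZMod (2 * m)) + 1)) % 2 = 1 := by
      rcases Nat.Prime.eq_two_or_odd h1 with h | h
      · omega
      · exact h
    rw [Nat.cast_succ]
    omega

/-- the shift -/
private def cntS (hm : 0 < m) (k : range m) : range m :=
  ⟨((k : ℕ) + 1) % m, Finset.mem_range.2 (Nat.mod_lt _ hm)⟩

private theorem cntS_inj (hm : 0 < m) : Function.Injective (cntS hm) := by
  intro k l h
  have h1 : ((k : ℕ) + 1) % m = ((l : ℕ) + 1) % m := congrArg Subtype.val h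
  have h2 : (k : ℕ) ≡ (l : ℕ) [MOD m] := Nat.ModEq.add_right_cancel' 1 h1
  exact Subtype.ext (Nat.ModEq.eq_of_lt_of_lt h2 (Finset.mem_range.1 k.2) (Finset.mem_range.1 l.2))

/-- every circle which starts with the entry one comes from a pair of matchings -/
private theorem cnt_surj (hm : 0 < m) (a : ZMod (2 * m) → ℕ) (ha : IsPrimeCircle m a)
    (h0 : a 0 = 1) : ∃ P : HP m, (arr hm P).1 = a := by
  have hz : NeZero (2 * m) := ⟨by omega⟩
  have hpar := cnt_parity hm ha h0
  obtain ⟨F, hF⟩ : ∃ F : ℕ → ℕ, F = fun n : ℕ => a ((n : ℕ) : ZMod (2 * m)) := ⟨_, rfl⟩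
  have hF1 : ∀ n, 1 ≤ F n ∧ F n ≤ 2 * m := fun n => by rw [hF]; exact ha.2.1 _
  have hF2 : ∀ n, F n % 2 = (n + 1) % 2 := fun n => by rw [hF]; exact hpar n
  have hF3 : ∀ n, (F n + F (n + 1)).Prime := fun n => by
    have := ha.2.2 (n : ZMod (2 * m))
    rw [hF]
    simpa using this
  have hF4 : ∀ n, F (n + 2 * m) = F n := fun n => by
    rw [hF]
    show a _ = a _
    congr 1
    push_cast
    have : ((2 * m : ℕ) : ZMod (2 * m)) = 0 := ZMod.natCast_self _
    push_cast at this
    rw [this, add_zero]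
  have hF5 : ∀ n n', n < 2 * m → n' < 2 * m → F n = F n' → n = n' := by
    intro n n' hn hn' h
    rw [hF] at h
    have h1 := ha.1 h
    have h2 := (ZMod.natCast_eq_natCast_iff n n' (2 * m)).1 h1
    exact Nat.ModEq.eq_of_lt_of_lt h2 hn hn'
  -- odd entries, even entries
  let o : range m → range m := fun k => ⟨(F (2 * (k : ℕ)) - 1) / 2, Finset.mem_range.2 (by
    have h1 := hF1 (2 * (k : ℕ))
    have h2 := hF2 (2 * (k : ℕ))
    omega)⟩
  let e : range m → range m := fun k => ⟨(F (2 * (k : ℕ) + 1) - 2) / 2, Finset.mem_range.2 (by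
    have h1 := hF1 (2 * (k : ℕ) + 1)
    have h2 := hF2 (2 * (k : ℕ) + 1)
    omega)⟩
  have ho : ∀ k : range m, F (2 * (k : ℕ)) = 2 * (o k : ℕ) + 1 := by
    intro k
    have h1 := hF1 (2 * (k : ℕ))
    have h2 := hF2 (2 * (k : ℕ))
    show _ = 2 * ((F (2 * (k : ℕ)) - 1) / 2) + 1
    omega
  have he : ∀ k : range m, F (2 * (k : ℕ) + 1) = 2 * (e k : ℕ) + 2 := by
    intro k
    have h1 := hF1 (2 * (k : ℕ) + 1)
    have h2 := hF2 (2 * (k : ℕ) + 1)
    show _ = 2 * ((F (2 * (k : ℕ) + 1) - 2) / 2) + 2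
    omega
  have hoi : Function.Injective o := by
    intro k l h
    have h1 : F (2 * (k : ℕ)) = F (2 * (l : ℕ)) := by rw [ho, ho, h]
    have h2 := Finset.mem_range.1 k.2
    have h3 := Finset.mem_range.1 l.2
    have h4 := hF5 _ _ (by omega) (by omega) h1
    exact Subtype.ext (by omega)
  have hei : Function.Injective e := by
    intro k l h
    have h1 : F (2 * (k : ℕ) + 1) = F (2 * (l : ℕ) + 1) := by rw [he, he, h]
    have h2 := Finset.mem_range.1 k.2
    have h3 := Finset.mem_range.1 l.2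
    have h4 := hF5 _ _ (by omega) (by omega) h1
    exact Subtype.ext (by omega)
  let O : range m ≃ range m := Equiv.ofBijective o (Finite.injective_iff_bijective.1 hoi)
  let Ev : range m ≃ range m := Equiv.ofBijective e (Finite.injective_iff_bijective.1 hei)
  let s : range m ≃ range m := Equiv.ofBijective (cntS hm)
    (Finite.injective_iff_bijective.1 (cntS_inj hm))
  have hO : ∀ k, (O k : range m) = o k := fun _ => rfl
  have hE : ∀ k, (Ev k : range m) = e k := fun _ => rfl
  have hs : ∀ k, ((s k : range m) : ℕ) = ((k : ℕ) + 1) % m := fun _ => rfl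
  let N1 : range m ≃ range m := O.symm.trans Ev
  let N2 : range m ≃ range m := (O.symm.trans s.symm).trans Ev
  have hN1 : ∀ k, N1 (O k) = Ev k := fun k => by
    show Ev (O.symm (O k)) = _
    rw [Equiv.symm_apply_apply]
  have hN2 : ∀ k, N2 (O (s k)) = Ev k := fun k => by
    show Ev (s.symm (O.symm (O (s k)))) = _
    rw [Equiv.symm_apply_apply, Equiv.symm_apply_apply]
  have hρ : ∀ k, (N1.trans N2.symm : Equiv.Perm (range m)) (O k) = O (s k) := fun k => by
    show N2.symm (N1 (O k)) = _
    rw [hN1, Equiv.symm_apply_eq, hN2]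
  obtain ⟨z0, hz0⟩ : ∃ z0 : range m, z0 = ⟨0, Finset.mem_range.2 hm⟩ := ⟨_, rfl⟩
  have hOz : O z0 = z0 := by
    have h1 := ho z0
    rw [hz0] at h1
    have h2 : F (2 * 0) = 1 := by rw [hF]; simpa using h0
    have h3 : ((⟨0, Finset.mem_range.2 hm⟩ : range m) : ℕ) = 0 := rfl
    rw [h3, h2] at h1
    rw [hO, hz0]
    exact Subtype.ext (by rw [h3]; omega)
  have hpow : ∀ k : ℕ, ∀ hk : k < m,
      ((N1.trans N2.symm : Equiv.Perm (range m)) ^ k) z0 = O ⟨k, Finset.mem_range.2 hk⟩ := by
    intro k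
    induction k with
    | zero =>
      intro hk
      rw [pow_zero, Equiv.Perm.one_apply]
      have h3 : (⟨0, Finset.mem_range.2 hk⟩ : range m) = z0 := hz0.symm
      rw [h3, hOz]
    | succ k ih =>
      intro hk
      rw [pow_succ', Equiv.Perm.mul_apply, ih (by omega), hρ]
      congr 1
      apply Subtype.ext
      rw [hs]
      exact Nat.mod_eq_of_lt hk
  have hcyc : ∀ x y, Equiv.Perm.SameCycle (N2.trans N1.symm : Equiv.Perm (range m)) x y := by
    have h1 : ∀ y, Equiv.Perm.SameCycle (N1.trans N2.symm : Equiv.Perm (range m)) z0 y := by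
      intro y
      refine ⟨((O.symm y : range m) : ℕ), ?_⟩
      rw [zpow_natCast, hpow _ (Finset.mem_range.1 (O.symm y).2)]
      exact O.apply_symm_apply y
    intro x y
    have e2 : (N2.trans N1.symm : Equiv.Perm (range m)) =
        (N1.trans N2.symm : Equiv.Perm (range m))⁻¹ := by
      ext z
      rfl
    rw [e2, Equiv.Perm.sameCycle_inv]
    exact (h1 x).symm.trans (h1 y)
  have p1 : ∀ i : range m, PA (i : ℕ) (N1 i : ℕ) := by
    intro i
    obtain ⟨k, rfl⟩ := O.surjective i
    rw [hN1, hO, hE]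
    have h1 := hF3 (2 * (k : ℕ))
    rw [ho, he] at h1
    have e3 : 2 * (o k : ℕ) + 1 + (2 * (e k : ℕ) + 2) = 2 * ((o k : ℕ) + (e k : ℕ)) + 3 := by ring
    rw [e3] at h1
    exact h1
  have p2 : ∀ i : range m, PA (i : ℕ) (N2 i : ℕ) := by
    intro i
    obtain ⟨k', rfl⟩ := O.surjective i
    obtain ⟨k, rfl⟩ := s.surjective k'
    rw [hN2, hO, hE]
    have h1 := hF3 (2 * (k : ℕ) + 1)
    have h2 : F (2 * (k : ℕ) + 1 + 1) = 2 * (o (s k) : ℕ) + 1 := by
      rw [← ho]
      have h3 := Finset.mem_range.1 k.2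
      rcases Nat.lt_or_ge ((k : ℕ) + 1) m with h4 | h4
      · rw [hs, Nat.mod_eq_of_lt h4]
        congr 1
      · have h5 : (k : ℕ) + 1 = m := by omega
        rw [hs, h5, Nat.mod_self]
        have h6 := hF4 0
        rw [zero_add] at h6
        rw [mul_zero, ← h6]
        congr 1
        omega
    rw [h2, he] at h1
    have e3 : 2 * (e k : ℕ) + 2 + (2 * (o (s k) : ℕ) + 1) =
        2 * ((o (s k) : ℕ) + (e k : ℕ)) + 3 := by ring
    rw [e3] at h1
    exact h1
  refine ⟨⟨(⟨N1, p1⟩, ⟨N2, p2⟩), hcyc⟩, ?_⟩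
  funext z
  show ent N1 N2 ⟨0, Finset.mem_range.2 hm⟩ z.val = a z
  rw [← hz0]
  have hFz : a z = F z.val := by
    rw [hF]
    show _ = a _
    rw [ZMod.natCast_zmod_val]
  rw [hFz]
  have hzl := ZMod.val_lt z
  rcases Nat.even_or_odd' z.val with ⟨k, h | h⟩
  · rw [h, ent_even, hpow k (by omega), hO, ← ho]
  · rw [h, ent_odd, hpow k (by omega), hN1, hE, ← he]

end surj

theorem thm_Cnt : St_Cnt := by
  intro m hm
  have hm0 : 0 < m := by omega
  have hz : NeZero (2 * m) := ⟨by omega⟩
  refine le_antisymm ?_ (card_HP_le hm0)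
  -- a position of the entry one
  have hpos : ∀ b : {a : ZMod (2 * m) → ℕ // IsPrimeCircle m a}, ∃ c, b.1 c = 1 := fun b =>
    surj hm0 b.2 le_rfl (by omega)
  choose c hc using hpos
  let b : Quotient (circleSetoid m) → {a : ZMod (2 * m) → ℕ // IsPrimeCircle m a} :=
    fun q => q.out
  let R : Quotient (circleSetoid m) × Bool → (ZMod (2 * m) → ℕ) := fun q i =>
    if q.2 then (b q.1).1 (i + c (b q.1)) else (b q.1).1 (c (b q.1) - i)
  have hR : ∀ q, IsPrimeCircle m (R q) ∧ R q 0 = 1 := by
    rintro ⟨q, t⟩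
    obtain ⟨h1, h2, h3⟩ := (b q).2
    cases t
    · refine ⟨⟨?_, ?_, ?_⟩, ?_⟩
      · intro i j h
        have h4 := h1 (show (b q).1 (c (b q) - i) = (b q).1 (c (b q) - j) from h)
        exact sub_right_injective h4
      · exact fun i => h2 (c (b q) - i)
      · intro i
        show ((b q).1 (c (b q) - i) + (b q).1 (c (b q) - (i + 1))).Prime
        have h4 := h3 (c (b q) - (i + 1))
        rw [add_comm]
        have e : c (b q) - (i + 1) + 1 = c (b q) - i := by ring
        rwa [e] at h4
      · show (b q).1 (c (b q) - 0) = 1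
        rw [sub_zero, hc]
    · refine ⟨⟨?_, ?_, ?_⟩, ?_⟩
      · intro i j h
        have h4 := h1 (show (b q).1 (i + c (b q)) = (b q).1 (j + c (b q)) from h)
        exact add_left_injective _ h4
      · exact fun i => h2 (i + c (b q))
      · intro i
        show ((b q).1 (i + c (b q)) + (b q).1 (i + 1 + c (b q))).Prime
        have h4 := h3 (i + c (b q))
        have e : i + c (b q) + 1 = i + 1 + c (b q) := by ring
        rwa [e] at h4
      · show (b q).1 (0 + c (b q)) = 1
        rw [zero_add, hc]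
  have hrel : ∀ q, Quotient.mk (circleSetoid m) ⟨R q, (hR q).1⟩ = q.1 := by
    rintro ⟨q, t⟩
    rw [← Quotient.out_eq q]
    refine Quotient.sound ((circleSetoid m).symm' ?_)
    cases t
    · refine ⟨c (b q), Or.inr fun i => ?_⟩
      rw [Quotient.out_eq]
      rfl
    · refine ⟨c (b q), Or.inl fun i => ?_⟩
      rw [Quotient.out_eq]
      rfl
  choose P hP using fun q => cnt_surj hm0 (R q) (hR q).1 (hR q).2
  have hinj : Function.Injective P := by
    intro q q' h
    have h1 : R q = R q' := by rw [← hP q, ← hP q', h]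
    have h2 : q.1 = q'.1 := by
      rw [← hrel q, ← hrel q']
      congr 1
      exact Subtype.ext h1
    obtain ⟨q, t⟩ := q
    obtain ⟨q', t'⟩ := q'
    simp only at h2
    subst h2
    have h5 : ∀ i, (b q).1 (i + c (b q)) = (b q).1 (c (b q) - i) → i = -i := by
      intro i h6
      have h7 := (b q).2.1 h6
      have h8 := congrArg (fun z => z - c (b q)) h7
      simpa using h8
    have h6 : ¬ (1 : ZMod (2 * m)) = -1 := by
      intro h7
      have h8 : ((2 : ℕ) : ZMod (2 * m)) = 0 := by
        have h9 := congrArg (fun z => z + 1) h7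
        simp only [neg_add_cancel] at h9
        rw [← h9]
        norm_num
      have h9 := Nat.le_of_dvd (by norm_num) ((ZMod.natCast_eq_zero_iff 2 (2 * m)).1 h8)
      omega
    cases t <;> cases t'
    · rfl
    · exact absurd (h5 1 (congrFun h1 1).symm) h6
    · exact absurd (h5 1 (congrFun h1 1)) h6
    · rfl
  have hfin : Finite (HP m) := by
    unfold HP Mt
    have : Finite (range m ≃ range m) := inferInstance
    infer_instance
  have h1 := Nat.card_le_card_of_injective P hinj
  rw [Nat.card_prod] at h1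
  rw [numPrimeCircles]
  have h2 : Nat.card Bool = 2 := by simp
  rw [h2] at h1
  linarith

end Pool.Agent.PCW
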