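import Pool.Agent.PCW.St

set_option autoImplicit false

/-! The deterministic lemma (4.2). -/

namespace Pool.Agent.PCW

open Finset Filter MeasureTheory Matrix

/-- the Euclidean norm -/
noncomputable def Det_n {ι : Type} [Fintype ι] (f : ι → ℂ) : ℝ := √(∑ v, ‖f v‖ ^ 2)

section vec

variable {ι : Type} [Fintype ι]

private lemma Det_n_nonneg (f : ι → ℂ) : 0 ≤ Det_n f := Real.sqrt_nonneg _

private lemma Det_n_sq (f : ι → ℂ) : Det_n f ^ 2 = ∑ v, ‖f v‖ ^ 2 :=
  Real.sq_sqrt (by positivity)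

private lemma Det_cs (f g : ι → ℂ) : ‖∑ v, f v * g v‖ ≤ Det_n f * Det_n g := by
  calc ‖∑ v, f v * g v‖ ≤ ∑ v, ‖f v * g v‖ := norm_sum_le _ _
    _ = ∑ v, ‖f v‖ * ‖g v‖ := by simp only [norm_mul]
    _ ≤ _ := Real.sum_mul_le_sqrt_mul_sqrt _ _ _

private lemma Det_n_diag {d : ι → ℂ} {K : ℝ} (hK : 0 ≤ K) (hd : ∀ v, ‖d v‖ ≤ K) (f : ι → ℂ) :
    Det_n (fun v => d v * f v) ≤ K * Det_n f := by
  unfold Det_n
  rw [← Real.sqrt_sq hK, ← Real.sqrt_mul (sq_nonneg K)]
  apply Real.sqrt_le_sqrt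
  rw [Finset.mul_sum]
  apply Finset.sum_le_sum
  intro v _
  rw [norm_mul, mul_pow]
  have := hd v
  gcongr

private lemma Det_n_of {f : ι → ℂ} {K : ℝ} (hK : 0 ≤ K) (h : ∑ v, ‖f v‖ ^ 2 ≤ K ^ 2) :
    Det_n f ≤ K := by
  unfold Det_n
  rw [← Real.sqrt_sq hK]
  exact Real.sqrt_le_sqrt h

private lemma Det_n_mul {R : Matrix ι ι ℂ}
    (hR : ∀ f : ι → ℂ, ∑ v, ‖∑ w, R v w * f w‖ ^ 2 ≤ 30 ^ 2 * ∑ v, ‖f v‖ ^ 2) (f : ι → ℂ) :
    Det_n (R.mulVec f) ≤ 30 * Det_n f := by
  apply Det_n_of (by have := Det_n_nonneg f; positivity)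
  rw [mul_pow, Det_n_sq]
  exact hR f

private lemma Det_n_vm {R : Matrix ι ι ℂ}
    (hR : ∀ f : ι → ℂ, ∑ v, ‖∑ w, R w v * f w‖ ^ 2 ≤ 30 ^ 2 * ∑ v, ‖f v‖ ^ 2) (f : ι → ℂ) :
    Det_n (Matrix.vecMul f R) ≤ 30 * Det_n f := by
  apply Det_n_of (by have := Det_n_nonneg f; positivity)
  rw [mul_pow, Det_n_sq]
  refine le_trans (le_of_eq ?_) (hR f)
  apply Finset.sum_congr rfl
  intro v _
  congr 2
  unfold Matrix.vecMul dotProduct
  apply Finset.sum_congr rfl
  intro w _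
  ring

end vec

section alg

variable {m : ℕ} {E : Matrix (Fin m) (Fin m) ℝ} {α β : ℝ} {x : V m → ℂ}

/-- indicator of the left side -/
def Det_oL (m : ℕ) : V m → ℂ := Sum.elim (fun _ => 1) (fun _ => 0)
/-- indicator of the right side -/
def Det_oR (m : ℕ) : V m → ℂ := Sum.elim (fun _ => 0) (fun _ => 1)

private lemma Det_L0_mulVec (f : V m → ℂ) (v : V m) :
    (L0 E α β x).mulVec f v = dv E α β x v * f v - ∑ w, (Eb E v w : ℂ) * (x w * f w) := by
  unfold L0
  rw [Matrix.sub_mulVec, Pi.sub_apply, Matrix.mulVec_diagonal]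
  congr 1
  show ∑ w, (((Eb E).map fun r : ℝ => (r : ℂ)) * Matrix.diagonal x) v w * f w = _
  apply Finset.sum_congr rfl
  intro w _
  rw [Matrix.mul_diagonal, Matrix.map_apply]
  ring

private lemma Det_L0_vecMul (g : V m → ℂ) (w : V m) :
    Matrix.vecMul g (L0 E α β x) w = g w * dv E α β x w - (∑ v, g v * (Eb E v w : ℂ)) * x w := by
  unfold L0
  rw [Matrix.vecMul_sub, Pi.sub_apply, Matrix.vecMul_diagonal]
  congr 1
  show ∑ v, g v * (((Eb E).map fun r : ℝ => (r : ℂ)) * Matrix.diagonal x) v w = _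
  rw [Finset.sum_mul]
  apply Finset.sum_congr rfl
  intro v _
  rw [Matrix.mul_diagonal, Matrix.map_apply]
  ring

private lemma Det_mv_oL : (L0 E α β x).mulVec (Det_oL m) =
    fun v => (α : ℂ) * Det_oL m v + (Det_oL m v - Det_oR m v) * xi E x v := by
  funext v
  rw [Det_L0_mulVec]
  rcases v with i | i
  · simp [Det_oL, Det_oR, dv, al, xi, Fintype.sum_sum_type, Eb]
  · simp [Det_oL, Det_oR, dv, al, xi, Fintype.sum_sum_type, Eb]

private lemma Det_mv_oR : (L0 E α β x).mulVec (Det_oR m) =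
    fun v => (β : ℂ) * Det_oR m v - (Det_oL m v - Det_oR m v) * xi E x v := by
  funext v
  rw [Det_L0_mulVec]
  rcases v with i | i
  · simp [Det_oL, Det_oR, dv, al, xi, Fintype.sum_sum_type, Eb]
  · simp [Det_oL, Det_oR, dv, al, xi, Fintype.sum_sum_type, Eb]

private lemma Det_vm_xL (hs : ∀ i j, E i j = E j i) :
    Matrix.vecMul (fun v => Det_oL m v * x v) (L0 E α β x) =
    fun v => (α : ℂ) * (Det_oL m v * x v) + (Det_oL m v - Det_oR m v) * (xi E x v * x v) := by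
  funext v
  rw [Det_L0_vecMul]
  rcases v with i | i
  · simp [Det_oL, Det_oR, dv, al, xi, Fintype.sum_sum_type, Eb]
    ring
  · simp [Det_oL, Det_oR, dv, al, xi, Fintype.sum_sum_type, Eb]
    left
    apply Finset.sum_congr rfl
    intro j _
    rw [hs i j]
    ring

private lemma Det_vm_xR (hs : ∀ i j, E i j = E j i) :
    Matrix.vecMul (fun v => Det_oR m v * x v) (L0 E α β x) =
    fun v => (β : ℂ) * (Det_oR m v * x v) - (Det_oL m v - Det_oR m v) * (xi E x v * x v) := by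
  funext v
  rw [Det_L0_vecMul]
  rcases v with i | i
  · simp [Det_oL, Det_oR, dv, al, xi, Fintype.sum_sum_type, Eb]
    left
    apply Finset.sum_congr rfl
    intro j _
    rw [hs i j]
    ring
  · simp [Det_oL, Det_oR, dv, al, xi, Fintype.sum_sum_type, Eb]
    ring

end alg

/-- the situation of the lemma -/
structure Det_H (m : ℕ) (E : Matrix (Fin m) (Fin m) ℝ) (α β δ : ℝ) (x : V m → ℂ)
    (R : Matrix (V m) (V m) ℂ) : Prop where
  hm : 1 ≤ m
  hs : ∀ i j, E i j = E j i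
  ha : |α - 1| ≤ δ
  hb : |β - 1| ≤ δ
  hd : δ ≤ 1 / 1000
  hx : ∀ v, ‖x v‖ = 2
  hxi : ∀ v, ‖xi E x v‖ ≤ δ
  he : ‖∑ i, (x (Sum.inl i) - 1)‖ ≤ m * δ
  hf : ‖∑ i, (x (Sum.inr i) - 1)‖ ≤ m * δ
  hLR : L0 E α β x * R = 1
  hRL : R * L0 E α β x = 1
  hR : ∀ f : V m → ℂ, ∑ v, ‖∑ w, R v w * f w‖ ^ 2 ≤ 30 ^ 2 * ∑ v, ‖f v‖ ^ 2
  hR' : ∀ f : V m → ℂ, ∑ v, ‖∑ w, R w v * f w‖ ^ 2 ≤ 30 ^ 2 * ∑ v, ‖f v‖ ^ 2

/-- sign times `ξ` -/
noncomputable def Det_eta {m : ℕ} (E : Matrix (Fin m) (Fin m) ℝ) (x : V m → ℂ) (v : V m) : ℂ :=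
  (Det_oL m v - Det_oR m v) * xi E x v
/-- sign times `ξ x` -/
noncomputable def Det_zeta {m : ℕ} (E : Matrix (Fin m) (Fin m) ℝ) (x : V m → ℂ) (v : V m) : ℂ :=
  (Det_oL m v - Det_oR m v) * (xi E x v * x v)

namespace Det_H

variable {m : ℕ} {E : Matrix (Fin m) (Fin m) ℝ} {α β δ : ℝ} {x : V m → ℂ}
  {R : Matrix (V m) (V m) ℂ}

private lemma d0 (h : Det_H m E α β δ x R) : 0 ≤ δ := le_trans (abs_nonneg _) h.ha

private lemma a1 (h : Det_H m E α β δ x R) : 0.99 ≤ α ∧ α ≤ 1.01 := by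
  have h1 := abs_le.1 h.ha
  have h2 := h.hd
  constructor <;> linarith [h1.1, h1.2]

private lemma b1 (h : Det_H m E α β δ x R) : 0.99 ≤ β ∧ β ≤ 1.01 := by
  have h1 := abs_le.1 h.hb
  have h2 := h.hd
  constructor <;> linarith [h1.1, h1.2]

private lemma nosg (v : V m) : ‖Det_oL m v - Det_oR m v‖ = 1 := by
  rcases v with i | i <;> simp [Det_oL, Det_oR]

private lemma n_oL : Det_n (Det_oL m) = √m := by
  unfold Det_n
  congr 1
  simp [Det_oL, Fintype.sum_sum_type]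

private lemma n_oR : Det_n (Det_oR m) = √m := by
  unfold Det_n
  congr 1
  simp [Det_oR, Fintype.sum_sum_type]

private lemma n_xL (h : Det_H m E α β δ x R) : Det_n (fun v => Det_oL m v * x v) = 2 * √m := by
  unfold Det_n
  rw [show (2 : ℝ) * √m = √(4 * m) from by
    rw [Real.sqrt_mul (by norm_num)]
    congr 1
    rw [show (4 : ℝ) = 2 ^ 2 from by norm_num, Real.sqrt_sq (by norm_num)]]
  congr 1
  simp [Det_oL, Fintype.sum_sum_type, h.hx]
  ring

private lemma n_xR (h : Det_H m E α β δ x R) : Det_n (fun v => Det_oR m v * x v) = 2 * √m := by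
  unfold Det_n
  rw [show (2 : ℝ) * √m = √(4 * m) from by
    rw [Real.sqrt_mul (by norm_num)]
    congr 1
    rw [show (4 : ℝ) = 2 ^ 2 from by norm_num, Real.sqrt_sq (by norm_num)]]
  congr 1
  simp [Det_oR, Fintype.sum_sum_type, h.hx]
  ring

private lemma n_eta (h : Det_H m E α β δ x R) : Det_n (Det_eta E x) ≤ 1.42 * √m * δ := by
  have hd := h.d0
  apply Det_n_of (by positivity)
  have h1 : ∀ v, ‖Det_eta E x v‖ ^ 2 ≤ δ ^ 2 := by
    intro v
    unfold Det_eta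
    rw [norm_mul, nosg, one_mul]
    have := h.hxi v
    gcongr
  calc ∑ v, ‖Det_eta E x v‖ ^ 2 ≤ ∑ _v : V m, δ ^ 2 := Finset.sum_le_sum fun v _ => h1 v
    _ = 2 * m * δ ^ 2 := by
      rw [Finset.sum_const, Finset.card_univ, Fintype.card_sum, Fintype.card_fin, nsmul_eq_mul]
      push_cast
      ring
    _ ≤ (1.42 * √m * δ) ^ 2 := by
      rw [mul_pow, mul_pow, Real.sq_sqrt (by positivity)]
      have : 0 ≤ (m : ℝ) * δ ^ 2 := by positivity
      nlinarith

private lemma n_zeta (h : Det_H m E α β δ x R) : Det_n (Det_zeta E x) ≤ 2.84 * √m * δ := by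
  have hd := h.d0
  have h1 : Det_zeta E x = fun v => x v * Det_eta E x v := by
    funext v
    unfold Det_zeta Det_eta
    ring
  rw [h1]
  refine le_trans (Det_n_diag (K := 2) (by norm_num) (fun v => le_of_eq (h.hx v)) _) ?_
  have := h.n_eta
  linarith

private lemma n_A (h : Det_H m E α β δ x R) : Det_n (R.mulVec (Det_eta E x)) ≤ 42.6 * √m * δ := by
  have h1 := Det_n_mul h.hR (Det_eta E x)
  have := h.n_eta
  linarith

private lemma n_Z (h : Det_H m E α β δ x R) :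
    Det_n (Matrix.vecMul (Det_zeta E x) R) ≤ 85.2 * √m * δ := by
  have h1 := Det_n_vm h.hR' (Det_zeta E x)
  have := h.n_zeta
  linarith

private lemma RL (h : Det_H m E α β δ x R) (v : V m) :
    R.mulVec (Det_oL m) v = (Det_oL m v - R.mulVec (Det_eta E x) v) / α := by
  have ha : (α : ℂ) ≠ 0 := by
    have := h.a1.1
    exact_mod_cast (ne_of_gt (by linarith : (0 : ℝ) < α))
  have h1 : R.mulVec ((L0 E α β x).mulVec (Det_oL m)) = Det_oL m := by
    rw [Matrix.mulVec_mulVec, h.hRL, Matrix.one_mulVec]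
  rw [Det_mv_oL, show (fun v => (α : ℂ) * Det_oL m v + (Det_oL m v - Det_oR m v) * xi E x v)
    = (α : ℂ) • Det_oL m + Det_eta E x from rfl, Matrix.mulVec_add, Matrix.mulVec_smul] at h1
  have h2 := congrFun h1 v
  simp only [Pi.add_apply, Pi.smul_apply, smul_eq_mul] at h2
  rw [eq_div_iff ha, ← h2]
  ring

private lemma RR (h : Det_H m E α β δ x R) (v : V m) :
    R.mulVec (Det_oR m) v = (Det_oR m v + R.mulVec (Det_eta E x) v) / β := by
  have hb : (β : ℂ) ≠ 0 := by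
    have := h.b1.1
    exact_mod_cast (ne_of_gt (by linarith : (0 : ℝ) < β))
  have h1 : R.mulVec ((L0 E α β x).mulVec (Det_oR m)) = Det_oR m := by
    rw [Matrix.mulVec_mulVec, h.hRL, Matrix.one_mulVec]
  rw [Det_mv_oR, show (fun v => (β : ℂ) * Det_oR m v - (Det_oL m v - Det_oR m v) * xi E x v)
    = (β : ℂ) • Det_oR m - Det_eta E x from rfl, Matrix.mulVec_sub, Matrix.mulVec_smul] at h1
  have h2 := congrFun h1 v
  simp only [Pi.sub_apply, Pi.smul_apply, smul_eq_mul] at h2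
  rw [eq_div_iff hb, ← h2]
  ring

private lemma SL (h : Det_H m E α β δ x R) (v : V m) :
    Matrix.vecMul (fun v => Det_oL m v * x v) R v =
      (Det_oL m v * x v - Matrix.vecMul (Det_zeta E x) R v) / α := by
  have ha : (α : ℂ) ≠ 0 := by
    have := h.a1.1
    exact_mod_cast (ne_of_gt (by linarith : (0 : ℝ) < α))
  have h1 : Matrix.vecMul (Matrix.vecMul (fun v => Det_oL m v * x v) (L0 E α β x)) R =
      fun v => Det_oL m v * x v := by
    rw [Matrix.vecMul_vecMul, h.hLR, Matrix.vecMul_one]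
  rw [Det_vm_xL h.hs, show (fun v => (α : ℂ) * (Det_oL m v * x v) +
    (Det_oL m v - Det_oR m v) * (xi E x v * x v))
    = (α : ℂ) • (fun v => Det_oL m v * x v) + Det_zeta E x from rfl, Matrix.add_vecMul,
    Matrix.smul_vecMul] at h1
  have h2 := congrFun h1 v
  simp only [Pi.add_apply, Pi.smul_apply, smul_eq_mul] at h2
  rw [eq_div_iff ha, ← h2]
  ring

private lemma SR (h : Det_H m E α β δ x R) (v : V m) :
    Matrix.vecMul (fun v => Det_oR m v * x v) R v =
      (Det_oR m v * x v + Matrix.vecMul (Det_zeta E x) R v) / β := by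
  have hb : (β : ℂ) ≠ 0 := by
    have := h.b1.1
    exact_mod_cast (ne_of_gt (by linarith : (0 : ℝ) < β))
  have h1 : Matrix.vecMul (Matrix.vecMul (fun v => Det_oR m v * x v) (L0 E α β x)) R =
      fun v => Det_oR m v * x v := by
    rw [Matrix.vecMul_vecMul, h.hLR, Matrix.vecMul_one]
  rw [Det_vm_xR h.hs, show (fun v => (β : ℂ) * (Det_oR m v * x v) -
    (Det_oL m v - Det_oR m v) * (xi E x v * x v))
    = (β : ℂ) • (fun v => Det_oR m v * x v) - Det_zeta E x from rfl, Matrix.sub_vecMul,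
    Matrix.smul_vecMul] at h1
  have h2 := congrFun h1 v
  simp only [Pi.sub_apply, Pi.smul_apply, smul_eq_mul] at h2
  rw [eq_div_iff hb, ← h2]
  ring

private lemma dn (h : Det_H m E α β δ x R) (v : V m) : ‖dv E α β x v‖ ≤ 1.2 := by
  unfold dv
  refine le_trans (norm_add_le _ _) ?_
  have h1 := h.hxi v
  have h2 : ‖((al α β v : ℝ) : ℂ)‖ ≤ 1.01 := by
    rw [Complex.norm_real, Real.norm_eq_abs, abs_le]
    have ha := h.a1
    have hb := h.b1
    rcases v with i | i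
    · simp only [al, Sum.elim_inl]
      constructor <;> linarith [ha.1, ha.2]
    · simp only [al, Sum.elim_inr]
      constructor <;> linarith [hb.1, hb.2]
  have h3 := h.hd
  linarith

private lemma dlow (h : Det_H m E α β δ x R) (v : V m) : 0.9 ≤ ‖dv E α β x v‖ := by
  have h0 : ((al α β v : ℝ) : ℂ) = dv E α β x v - xi E x v := by unfold dv; ring
  have h1 := h.hxi v
  have h2 : 0.99 ≤ ‖((al α β v : ℝ) : ℂ)‖ := by
    rw [Complex.norm_real, Real.norm_eq_abs]
    have ha := h.a1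
    have hb := h.b1
    rcases v with i | i
    · simp only [al, Sum.elim_inl]
      exact le_trans ha.1 (le_abs_self _)
    · simp only [al, Sum.elim_inr]
      exact le_trans hb.1 (le_abs_self _)
  have h3 := h.hd
  have h4 := norm_sub_le (dv E α β x v) (xi E x v)
  rw [← h0] at h4
  linarith

private lemma bil (h : Det_H m E α β δ x R) (p q : V m → ℂ) (s t : ℂ) (hs : ‖s‖ = 1)
    (ht : ‖t‖ = 1) (hp : Det_n p ≤ 2 * √m) (hq : Det_n q ≤ √m) :
    ‖(∑ v, (p v + s * Matrix.vecMul (Det_zeta E x) R v) *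
      (dv E α β x v * (q v + t * R.mulVec (Det_eta E x) v))) - ∑ v, p v * (dv E α β x v * q v)‖ ≤
      209 * m * δ := by
  have hd0 := h.d0
  have hd1 := h.hd
  have hm0 : (0 : ℝ) ≤ m := by positivity
  have hK := Real.mul_self_sqrt hm0
  have hK0 := Real.sqrt_nonneg (m : ℝ)
  have e1 : (∑ v, (p v + s * Matrix.vecMul (Det_zeta E x) R v) *
      (dv E α β x v * (q v + t * R.mulVec (Det_eta E x) v))) - ∑ v, p v * (dv E α β x v * q v) =
      t * (∑ v, p v * (dv E α β x v * R.mulVec (Det_eta E x) v)) +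
      s * (∑ v, Matrix.vecMul (Det_zeta E x) R v * (dv E α β x v * q v)) +
      s * t * (∑ v, Matrix.vecMul (Det_zeta E x) R v *
        (dv E α β x v * R.mulVec (Det_eta E x) v)) := by
    rw [Finset.mul_sum, Finset.mul_sum, Finset.mul_sum, ← Finset.sum_sub_distrib,
      ← Finset.sum_add_distrib, ← Finset.sum_add_distrib]
    apply Finset.sum_congr rfl
    intro v _
    ring
  have hA := h.n_A
  have hZ := h.n_Z
  have hdA : Det_n (fun v => dv E α β x v * R.mulVec (Det_eta E x) v) ≤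
      1.2 * (42.6 * √m * δ) := by
    refine le_trans (Det_n_diag (K := 1.2) (by norm_num) h.dn _) ?_
    have h1 : Det_n (fun v => R.mulVec (Det_eta E x) v) ≤ 42.6 * √m * δ := hA
    linarith
  have hdq : Det_n (fun v => dv E α β x v * q v) ≤ 1.2 * √m := by
    refine le_trans (Det_n_diag (K := 1.2) (by norm_num) h.dn _) ?_
    linarith
  have b1 : ‖∑ v, p v * (dv E α β x v * R.mulVec (Det_eta E x) v)‖ ≤
      2 * √m * (1.2 * (42.6 * √m * δ)) := by
    refine le_trans (Det_cs _ _) ?_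
    exact mul_le_mul hp hdA (Det_n_nonneg _) (by positivity)
  have b2 : ‖∑ v, Matrix.vecMul (Det_zeta E x) R v * (dv E α β x v * q v)‖ ≤
      85.2 * √m * δ * (1.2 * √m) := by
    refine le_trans (Det_cs _ _) ?_
    exact mul_le_mul hZ hdq (Det_n_nonneg _) (by positivity)
  have b3 : ‖∑ v, Matrix.vecMul (Det_zeta E x) R v *
      (dv E α β x v * R.mulVec (Det_eta E x) v)‖ ≤
      85.2 * √m * δ * (1.2 * (42.6 * √m * δ)) := by
    refine le_trans (Det_cs _ _) ?_
    exact mul_le_mul hZ hdA (Det_n_nonneg _) (by positivity)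
  rw [e1]
  refine le_trans (norm_add_le _ _) ?_
  refine le_trans (add_le_add_left (norm_add_le _ _) _) ?_
  rw [norm_mul, norm_mul, norm_mul, norm_mul, hs, ht]
  have c1 : 2 * √m * (1.2 * (42.6 * √m * δ)) = 102.24 * m * δ := by
    calc 2 * √m * (1.2 * (42.6 * √m * δ)) = 102.24 * (√m * √m) * δ := by ring
      _ = _ := by rw [hK]
  have c2 : 85.2 * √m * δ * (1.2 * √m) = 102.24 * m * δ := by
    calc 85.2 * √m * δ * (1.2 * √m) = 102.24 * (√m * √m) * δ := by ring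
      _ = _ := by rw [hK]
  have c3 : 85.2 * √m * δ * (1.2 * (42.6 * √m * δ)) ≤ 4.36 * m * δ := by
    calc 85.2 * √m * δ * (1.2 * (42.6 * √m * δ)) = 4355.424 * (√m * √m) * δ * δ := by ring
      _ = 4355.424 * m * δ * δ := by rw [hK]
      _ ≤ 4355.424 * m * δ * (1 / 1000) := by gcongr
      _ ≤ _ := by
        have : 0 ≤ (m : ℝ) * δ := by positivity
        nlinarith
  have : 0 ≤ (m : ℝ) * δ := by positivity
  linarith

/-- `U` -/
def U (m : ℕ) : Matrix (V m) (Fin 2) ℂ := fun v a => if a = 0 then Det_oL m v else Det_oR m v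
/-- `W` -/
noncomputable def W {m : ℕ} (x : V m → ℂ) : Matrix (Fin 2) (V m) ℂ :=
  fun a v => (m : ℂ)⁻¹ * (if a = 0 then Det_oR m v * x v else Det_oL m v * x v)

private lemma LL_eq : LL E α β x = L0 E α β x - U m * W x := by
  ext v w
  have h1 : (U m * W x) v w = Det_oL m v * ((m : ℂ)⁻¹ * (Det_oR m w * x w)) +
      Det_oR m v * ((m : ℂ)⁻¹ * (Det_oL m w * x w)) := by
    rw [Matrix.mul_apply, Fin.sum_univ_two]
    simp [U, W]
  rw [Matrix.sub_apply, h1]
  unfold LL L0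
  rw [Matrix.sub_apply, Matrix.sub_apply, Matrix.mul_diagonal, Matrix.mul_diagonal,
    Matrix.map_apply, Matrix.map_apply]
  rcases v with i | i <;> rcases w with j | j <;>
    simp [Det_oL, Det_oR, Bb, Eb, BB] <;> ring

private lemma QU0 (h : Det_H m E α β δ x R) (v : V m) :
    (R * U m) v 0 = (Det_oL m v - R.mulVec (Det_eta E x) v) / α := by
  rw [← h.RL]
  rfl

private lemma QU1 (h : Det_H m E α β δ x R) (v : V m) :
    (R * U m) v 1 = (Det_oR m v + R.mulVec (Det_eta E x) v) / β := by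
  rw [← h.RR]
  rfl

private lemma WP0 (h : Det_H m E α β δ x R) (v : V m) :
    (W x * R) 0 v = (m : ℂ)⁻¹ * ((Det_oR m v * x v + Matrix.vecMul (Det_zeta E x) R v) / β) := by
  rw [← h.SR]
  show ∑ w, ((m : ℂ)⁻¹ * (Det_oR m w * x w)) * R w v = (m : ℂ)⁻¹ * ∑ w, (Det_oR m w * x w) * R w v
  rw [Finset.mul_sum]
  apply Finset.sum_congr rfl
  intro w _
  ring

private lemma WP1 (h : Det_H m E α β δ x R) (v : V m) :
    (W x * R) 1 v = (m : ℂ)⁻¹ * ((Det_oL m v * x v - Matrix.vecMul (Det_zeta E x) R v) / α) := by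
  rw [← h.SL]
  show ∑ w, ((m : ℂ)⁻¹ * (Det_oL m w * x w)) * R w v = (m : ℂ)⁻¹ * ∑ w, (Det_oL m w * x w) * R w v
  rw [Finset.mul_sum]
  apply Finset.sum_congr rfl
  intro w _
  ring

private lemma xA (h : Det_H m E α β δ x R) (p : V m → ℂ) (hp : Det_n p ≤ 2 * √m) :
    ‖∑ v, p v * R.mulVec (Det_eta E x) v‖ ≤ 85.2 * m * δ := by
  have hd0 := h.d0
  have hK := Real.mul_self_sqrt (show (0 : ℝ) ≤ m by positivity)
  refine le_trans (Det_cs _ _) ?_
  refine le_trans (mul_le_mul hp h.n_A (Det_n_nonneg _) (by positivity)) (le_of_eq ?_)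
  calc 2 * √m * (42.6 * √m * δ) = 85.2 * (√m * √m) * δ := by ring
    _ = _ := by rw [hK]

private lemma sumR (h : Det_H m E α β δ x R) :
    ‖(∑ v, Det_oR m v * x v * Det_oR m v) - m‖ ≤ m * δ := by
  refine le_trans (le_of_eq ?_) h.hf
  congr 1
  simp [Det_oR, Fintype.sum_sum_type]

private lemma sumL (h : Det_H m E α β δ x R) :
    ‖(∑ v, Det_oL m v * x v * Det_oL m v) - m‖ ≤ m * δ := by
  refine le_trans (le_of_eq ?_) h.he
  congr 1
  simp [Det_oL, Fintype.sum_sum_type]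

private lemma sumRd (h : Det_H m E α β δ x R) :
    ‖(∑ v, Det_oR m v * x v * (dv E α β x v * Det_oR m v)) - β * m‖ ≤ 3.01 * m * δ := by
  have hd0 := h.d0
  have h1 : (∑ v, Det_oR m v * x v * (dv E α β x v * Det_oR m v)) - β * m =
      β * ((∑ v, Det_oR m v * x v * Det_oR m v) - m) +
        ∑ i, x (Sum.inr i) * xi E x (Sum.inr i) := by
    simp [Det_oR, Fintype.sum_sum_type, dv, al]
    rw [mul_sub, Finset.mul_sum]
    have : ∀ i : Fin m, x (Sum.inr i) * ((β : ℂ) + xi E x (Sum.inr i)) =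
        β * x (Sum.inr i) + x (Sum.inr i) * xi E x (Sum.inr i) := fun i => by ring
    simp only [this, Finset.sum_add_distrib]
    ring
  rw [h1]
  refine le_trans (norm_add_le _ _) ?_
  have h2 : ‖∑ i, x (Sum.inr i) * xi E x (Sum.inr i)‖ ≤ 2 * m * δ := by
    refine le_trans (norm_sum_le _ _) ?_
    calc ∑ i, ‖x (Sum.inr i) * xi E x (Sum.inr i)‖ ≤ ∑ _i : Fin m, 2 * δ := by
          apply Finset.sum_le_sum
          intro i _
          rw [norm_mul, h.hx]
          have := h.hxi (Sum.inr i)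
          linarith
      _ = _ := by simp; ring
  have h3 : ‖(β : ℂ) * ((∑ v, Det_oR m v * x v * Det_oR m v) - m)‖ ≤ 1.01 * (m * δ) := by
    rw [norm_mul]
    have hb := h.b1
    have : ‖(β : ℂ)‖ ≤ 1.01 := by
      rw [Complex.norm_real, Real.norm_eq_abs, abs_le]
      constructor <;> linarith [hb.1, hb.2]
    exact mul_le_mul this h.sumR (norm_nonneg _) (by norm_num)
  linarith

private lemma sumLd (h : Det_H m E α β δ x R) :
    ‖(∑ v, Det_oL m v * x v * (dv E α β x v * Det_oL m v)) - α * m‖ ≤ 3.01 * m * δ := by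
  have hd0 := h.d0
  have h1 : (∑ v, Det_oL m v * x v * (dv E α β x v * Det_oL m v)) - α * m =
      α * ((∑ v, Det_oL m v * x v * Det_oL m v) - m) +
        ∑ i, x (Sum.inl i) * xi E x (Sum.inl i) := by
    simp [Det_oL, Fintype.sum_sum_type, dv, al]
    rw [mul_sub, Finset.mul_sum]
    have : ∀ i : Fin m, x (Sum.inl i) * ((α : ℂ) + xi E x (Sum.inl i)) =
        α * x (Sum.inl i) + x (Sum.inl i) * xi E x (Sum.inl i) := fun i => by ring
    simp only [this, Finset.sum_add_distrib]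
    ring
  rw [h1]
  refine le_trans (norm_add_le _ _) ?_
  have h2 : ‖∑ i, x (Sum.inl i) * xi E x (Sum.inl i)‖ ≤ 2 * m * δ := by
    refine le_trans (norm_sum_le _ _) ?_
    calc ∑ i, ‖x (Sum.inl i) * xi E x (Sum.inl i)‖ ≤ ∑ _i : Fin m, 2 * δ := by
          apply Finset.sum_le_sum
          intro i _
          rw [norm_mul, h.hx]
          have := h.hxi (Sum.inl i)
          linarith
      _ = _ := by simp; ring
  have h3 : ‖(α : ℂ) * ((∑ v, Det_oL m v * x v * Det_oL m v) - m)‖ ≤ 1.01 * (m * δ) := by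
    rw [norm_mul]
    have hb := h.a1
    have : ‖(α : ℂ)‖ ≤ 1.01 := by
      rw [Complex.norm_real, Real.norm_eq_abs, abs_le]
      constructor <;> linarith [hb.1, hb.2]
    exact mul_le_mul this h.sumL (norm_nonneg _) (by norm_num)
  linarith

/-- the final estimate of one entry -/
private lemma ent {K A' B' : ℝ} (hK : 0 ≤ K) (hm : 1 ≤ m) (hA : 0.99 ≤ A') (hB : 0.99 ≤ B')
    {S T : ℂ} (hST : ‖S - T‖ ≤ K * m * δ) (hd : 0 ≤ δ) :
    ‖(m : ℂ)⁻¹ * (S / A' / B') - (m : ℂ)⁻¹ * (T / A' / B')‖ ≤ 1.03 * K * δ := by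
  have hm0 : (0 : ℝ) < m := by exact_mod_cast (by omega : 0 < m)
  rw [show (m : ℂ)⁻¹ * (S / A' / B') - (m : ℂ)⁻¹ * (T / A' / B') =
    (m : ℂ)⁻¹ * ((S - T) / A' / B') from by ring, norm_mul, norm_inv, norm_div, norm_div,
    Complex.norm_natCast, Complex.norm_real, Complex.norm_real, Real.norm_eq_abs,
    Real.norm_eq_abs, abs_of_pos (by linarith), abs_of_pos (by linarith)]
  have hAB : 0.98 ≤ A' * B' := by nlinarith
  rw [div_div, inv_mul_le_iff₀ hm0, div_le_iff₀ (by linarith)]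
  refine le_trans hST ?_
  have h1 : 0 ≤ (m : ℝ) * (K * δ) := by positivity
  nlinarith

private lemma M_apply (a b : Fin 2) :
    (W x * R * U m) a b = ∑ v, W x a v * (R * U m) v b := by
  rw [Matrix.mul_assoc, Matrix.mul_apply]

private lemma N_apply (a b : Fin 2) :
    (W x * R * Matrix.diagonal (dv E α β x) * R * U m) a b =
      ∑ v, (W x * R) a v * (dv E α β x v * (R * U m) v b) := by
  rw [Matrix.mul_assoc, Matrix.mul_assoc (W x * R), Matrix.mul_apply]
  apply Finset.sum_congr rfl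
  intro v _
  rw [Matrix.diagonal_mul]

private lemma m0 (h : Det_H m E α β δ x R) : (m : ℂ) ≠ 0 := by
  have := h.hm
  exact_mod_cast (by omega : m ≠ 0)

private lemma al0 (h : Det_H m E α β δ x R) : (α : ℂ) ≠ 0 := by
  have := h.a1.1
  exact_mod_cast (ne_of_gt (by linarith : (0 : ℝ) < α))

private lemma be0 (h : Det_H m E α β δ x R) : (β : ℂ) ≠ 0 := by
  have := h.b1.1
  exact_mod_cast (ne_of_gt (by linarith : (0 : ℝ) < β))

private lemma RL0 (v : V m) : Det_oR m v * Det_oL m v = 0 := by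
  rcases v with i | i <;> simp [Det_oL, Det_oR]

private lemma M00 (h : Det_H m E α β δ x R) : ‖(W x * R * U m) 0 0‖ ≤ 300 * δ := by
  have hd0 := h.d0
  have e1 : (W x * R * U m) 0 0 =
      (m : ℂ)⁻¹ * ((-∑ v, Det_oR m v * x v * R.mulVec (Det_eta E x) v) / (α : ℝ) / (1 : ℝ)) := by
    rw [M_apply, ← Finset.sum_neg_distrib, Finset.sum_div, Finset.sum_div, Finset.mul_sum]
    apply Finset.sum_congr rfl
    intro v _
    rw [h.QU0]
    have h1 := RL0 v
    simp only [W, if_true]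
    rw [show (m : ℂ)⁻¹ * (Det_oR m v * x v) * ((Det_oL m v - R.mulVec (Det_eta E x) v) / α) =
      (m : ℂ)⁻¹ * ((Det_oR m v * Det_oL m v) * x v -
        Det_oR m v * x v * R.mulVec (Det_eta E x) v) / α from by ring, h1]
    push_cast
    ring
  have h2 := ent (K := 85.2) (A' := α) (B' := 1) (S := -∑ v, Det_oR m v * x v *
    R.mulVec (Det_eta E x) v) (T := 0) (by norm_num) h.hm h.a1.1 (by norm_num)
    (by rw [sub_zero, norm_neg]; exact h.xA _ (le_of_eq h.n_xR)) hd0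
  rw [e1]
  simp only [zero_div, mul_zero, sub_zero] at h2
  linarith

private lemma M11 (h : Det_H m E α β δ x R) : ‖(W x * R * U m) 1 1‖ ≤ 300 * δ := by
  have hd0 := h.d0
  have e1 : (W x * R * U m) 1 1 =
      (m : ℂ)⁻¹ * ((∑ v, Det_oL m v * x v * R.mulVec (Det_eta E x) v) / (β : ℝ) / (1 : ℝ)) := by
    rw [M_apply, Finset.sum_div, Finset.sum_div, Finset.mul_sum]
    apply Finset.sum_congr rfl
    intro v _
    rw [h.QU1]
    have h1 := RL0 v
    simp only [W, Fin.one_eq_zero_iff, OfNat.ofNat_ne_one, if_false]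
    rw [show (m : ℂ)⁻¹ * (Det_oL m v * x v) * ((Det_oR m v + R.mulVec (Det_eta E x) v) / β) =
      (m : ℂ)⁻¹ * ((Det_oR m v * Det_oL m v) * x v +
        Det_oL m v * x v * R.mulVec (Det_eta E x) v) / β from by ring, h1]
    push_cast
    ring
  have h2 := ent (K := 85.2) (A' := β) (B' := 1) (S := ∑ v, Det_oL m v * x v *
    R.mulVec (Det_eta E x) v) (T := 0) (by norm_num) h.hm h.b1.1 (by norm_num)
    (by rw [sub_zero]; exact h.xA _ (le_of_eq h.n_xL)) hd0
  rw [e1]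
  simp only [zero_div, mul_zero, sub_zero] at h2
  linarith

private lemma M01 (h : Det_H m E α β δ x R) : ‖(W x * R * U m) 0 1 - 1 / β‖ ≤ 300 * δ := by
  have hd0 := h.d0
  have e1 : (W x * R * U m) 0 1 =
      (m : ℂ)⁻¹ * (((∑ v, Det_oR m v * x v * Det_oR m v) +
        ∑ v, Det_oR m v * x v * R.mulVec (Det_eta E x) v) / (β : ℝ) / (1 : ℝ)) := by
    rw [M_apply, ← Finset.sum_add_distrib, Finset.sum_div, Finset.sum_div, Finset.mul_sum]
    apply Finset.sum_congr rfl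
    intro v _
    rw [h.QU1]
    simp only [W, if_true]
    push_cast
    ring
  have h2 := ent (K := 86.2) (A' := β) (B' := 1) (S := (∑ v, Det_oR m v * x v * Det_oR m v) +
        ∑ v, Det_oR m v * x v * R.mulVec (Det_eta E x) v) (T := m) (by norm_num) h.hm h.b1.1
    (by norm_num) (by
      have h3 := h.sumR
      have h4 := h.xA _ (le_of_eq h.n_xR)
      rw [add_sub_right_comm]
      refine le_trans (norm_add_le _ _) ?_
      linarith) hd0
  rw [e1]
  have h5 : (m : ℂ)⁻¹ * ((m : ℂ) / (β : ℝ) / (1 : ℝ)) = 1 / β := by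
    have := h.m0
    have := h.be0
    push_cast
    field_simp
  rw [h5] at h2
  linarith

private lemma M10 (h : Det_H m E α β δ x R) : ‖(W x * R * U m) 1 0 - 1 / α‖ ≤ 300 * δ := by
  have hd0 := h.d0
  have e1 : (W x * R * U m) 1 0 =
      (m : ℂ)⁻¹ * (((∑ v, Det_oL m v * x v * Det_oL m v) -
        ∑ v, Det_oL m v * x v * R.mulVec (Det_eta E x) v) / (α : ℝ) / (1 : ℝ)) := by
    rw [M_apply, ← Finset.sum_sub_distrib, Finset.sum_div, Finset.sum_div, Finset.mul_sum]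
    apply Finset.sum_congr rfl
    intro v _
    rw [h.QU0]
    simp only [W, Fin.one_eq_zero_iff, OfNat.ofNat_ne_one, if_false]
    push_cast
    ring
  have h2 := ent (K := 86.2) (A' := α) (B' := 1) (S := (∑ v, Det_oL m v * x v * Det_oL m v) -
        ∑ v, Det_oL m v * x v * R.mulVec (Det_eta E x) v) (T := m) (by norm_num) h.hm h.a1.1
    (by norm_num) (by
      have h3 := h.sumL
      have h4 := h.xA _ (le_of_eq h.n_xL)
      rw [sub_right_comm]
      refine le_trans (norm_sub_le _ _) ?_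
      linarith) hd0
  rw [e1]
  have h5 : (m : ℂ)⁻¹ * ((m : ℂ) / (α : ℝ) / (1 : ℝ)) = 1 / α := by
    have := h.m0
    have := h.al0
    push_cast
    field_simp
  rw [h5] at h2
  linarith

private lemma N00 (h : Det_H m E α β δ x R) :
    ‖(W x * R * Matrix.diagonal (dv E α β x) * R * U m) 0 0‖ ≤ 300 * δ := by
  have hd0 := h.d0
  have e1 : (W x * R * Matrix.diagonal (dv E α β x) * R * U m) 0 0 =
      (m : ℂ)⁻¹ * ((∑ v, (Det_oR m v * x v + 1 * Matrix.vecMul (Det_zeta E x) R v) *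
      (dv E α β x v * (Det_oL m v + (-1) * R.mulVec (Det_eta E x) v))) / (β : ℝ) / (α : ℝ)) := by
    rw [N_apply, Finset.sum_div, Finset.sum_div, Finset.mul_sum]
    apply Finset.sum_congr rfl
    intro v _
    rw [h.QU0, h.WP0]
    ring
  have hT : ∑ v, (Det_oR m v * x v) * (dv E α β x v * Det_oL m v) = 0 := by
    apply Finset.sum_eq_zero
    intro v _
    rw [show (Det_oR m v * x v) * (dv E α β x v * Det_oL m v) =
      (Det_oR m v * Det_oL m v) * (x v * dv E α β x v) from by ring, RL0, zero_mul]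
  have h3 := h.bil (fun v => Det_oR m v * x v) (Det_oL m) 1 (-1) (by simp) (by simp)
    (le_of_eq h.n_xR) (le_of_eq n_oL)
  rw [hT] at h3
  have h2 := ent (K := 209) (A' := β) (B' := α) (T := 0) (by norm_num) h.hm h.b1.1 h.a1.1 h3 hd0
  rw [e1]
  simp only [zero_div, mul_zero, sub_zero] at h2
  linarith

private lemma N11 (h : Det_H m E α β δ x R) :
    ‖(W x * R * Matrix.diagonal (dv E α β x) * R * U m) 1 1‖ ≤ 300 * δ := by
  have hd0 := h.d0
  have e1 : (W x * R * Matrix.diagonal (dv E α β x) * R * U m) 1 1 =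
      (m : ℂ)⁻¹ * ((∑ v, (Det_oL m v * x v + (-1) * Matrix.vecMul (Det_zeta E x) R v) *
      (dv E α β x v * (Det_oR m v + 1 * R.mulVec (Det_eta E x) v))) / (α : ℝ) / (β : ℝ)) := by
    rw [N_apply, Finset.sum_div, Finset.sum_div, Finset.mul_sum]
    apply Finset.sum_congr rfl
    intro v _
    rw [h.QU1, h.WP1]
    ring
  have hT : ∑ v, (Det_oL m v * x v) * (dv E α β x v * Det_oR m v) = 0 := by
    apply Finset.sum_eq_zero
    intro v _
    rw [show (Det_oL m v * x v) * (dv E α β x v * Det_oR m v) =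
      (Det_oR m v * Det_oL m v) * (x v * dv E α β x v) from by ring, RL0, zero_mul]
  have h3 := h.bil (fun v => Det_oL m v * x v) (Det_oR m) (-1) 1 (by simp) (by simp)
    (le_of_eq h.n_xL) (le_of_eq n_oR)
  rw [hT] at h3
  have h2 := ent (K := 209) (A' := α) (B' := β) (T := 0) (by norm_num) h.hm h.a1.1 h.b1.1 h3 hd0
  rw [e1]
  simp only [zero_div, mul_zero, sub_zero] at h2
  linarith

private lemma N01 (h : Det_H m E α β δ x R) :
    ‖(W x * R * Matrix.diagonal (dv E α β x) * R * U m) 0 1 - 1 / β‖ ≤ 300 * δ := by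
  have hd0 := h.d0
  have e1 : (W x * R * Matrix.diagonal (dv E α β x) * R * U m) 0 1 =
      (m : ℂ)⁻¹ * ((∑ v, (Det_oR m v * x v + 1 * Matrix.vecMul (Det_zeta E x) R v) *
      (dv E α β x v * (Det_oR m v + 1 * R.mulVec (Det_eta E x) v))) / (β : ℝ) / (β : ℝ)) := by
    rw [N_apply, Finset.sum_div, Finset.sum_div, Finset.mul_sum]
    apply Finset.sum_congr rfl
    intro v _
    rw [h.QU1, h.WP0]
    ring
  have h3 := h.bil (fun v => Det_oR m v * x v) (Det_oR m) 1 1 (by simp) (by simp)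
    (le_of_eq h.n_xR) (le_of_eq n_oR)
  have h4 := h.sumRd
  have h5 : ‖(∑ v, (Det_oR m v * x v + 1 * Matrix.vecMul (Det_zeta E x) R v) *
      (dv E α β x v * (Det_oR m v + 1 * R.mulVec (Det_eta E x) v))) - β * m‖ ≤
      212.01 * m * δ := by
    refine le_trans (norm_sub_le_norm_sub_add_norm_sub _ _ _) (le_trans (add_le_add h3 h4) ?_)
    linarith
  have h2 := ent (K := 212.01) (A' := β) (B' := β) (by norm_num) h.hm h.b1.1 h.b1.1 h5 hd0
  rw [e1]
  have h6 : (m : ℂ)⁻¹ * ((β : ℂ) * m / (β : ℝ) / (β : ℝ)) = 1 / β := by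
    have := h.m0
    have := h.be0
    field_simp
  rw [h6] at h2
  linarith

private lemma N10 (h : Det_H m E α β δ x R) :
    ‖(W x * R * Matrix.diagonal (dv E α β x) * R * U m) 1 0 - 1 / α‖ ≤ 300 * δ := by
  have hd0 := h.d0
  have e1 : (W x * R * Matrix.diagonal (dv E α β x) * R * U m) 1 0 =
      (m : ℂ)⁻¹ * ((∑ v, (Det_oL m v * x v + (-1) * Matrix.vecMul (Det_zeta E x) R v) *
      (dv E α β x v * (Det_oL m v + (-1) * R.mulVec (Det_eta E x) v))) / (α : ℝ) / (α : ℝ)) := by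
    rw [N_apply, Finset.sum_div, Finset.sum_div, Finset.mul_sum]
    apply Finset.sum_congr rfl
    intro v _
    rw [h.QU0, h.WP1]
    ring
  have h3 := h.bil (fun v => Det_oL m v * x v) (Det_oL m) (-1) (-1) (by simp) (by simp)
    (le_of_eq h.n_xL) (le_of_eq n_oL)
  have h4 := h.sumLd
  have h5 : ‖(∑ v, (Det_oL m v * x v + (-1) * Matrix.vecMul (Det_zeta E x) R v) *
      (dv E α β x v * (Det_oL m v + (-1) * R.mulVec (Det_eta E x) v))) - α * m‖ ≤
      212.01 * m * δ := by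
    refine le_trans (norm_sub_le_norm_sub_add_norm_sub _ _ _) (le_trans (add_le_add h3 h4) ?_)
    linarith
  have h2 := ent (K := 212.01) (A' := α) (B' := α) (by norm_num) h.hm h.a1.1 h.a1.1 h5 hd0
  rw [e1]
  have h6 : (m : ℂ)⁻¹ * ((α : ℂ) * m / (α : ℝ) / (α : ℝ)) = 1 / α := by
    have := h.m0
    have := h.al0
    field_simp
  rw [h6] at h2
  linarith

private lemma trAB (A B : Matrix (V m) (V m) ℂ) :
    ‖(A * B).trace‖ ≤ √(∑ v, ∑ w, ‖A v w‖ ^ 2) * √(∑ v, ∑ w, ‖B v w‖ ^ 2) := by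
  have h1 : (A * B).trace = ∑ p : V m × V m, A p.1 p.2 * B p.2 p.1 := by
    rw [Fintype.sum_prod_type]
    simp only [Matrix.trace, Matrix.diag_apply, Matrix.mul_apply]
  rw [h1]
  calc ‖∑ p : V m × V m, A p.1 p.2 * B p.2 p.1‖ ≤ ∑ p : V m × V m, ‖A p.1 p.2‖ * ‖B p.2 p.1‖ := by
        refine le_trans (norm_sum_le _ _) (le_of_eq ?_)
        simp only [norm_mul]
    _ ≤ √(∑ p : V m × V m, ‖A p.1 p.2‖ ^ 2) * √(∑ p : V m × V m, ‖B p.2 p.1‖ ^ 2) :=
        Real.sum_mul_le_sqrt_mul_sqrt _ _ _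
    _ = _ := by
        rw [Fintype.sum_prod_type, Fintype.sum_prod_type]
        congr 2
        exact Finset.sum_comm

private lemma trb (h : Det_H m E α β δ x R) {F : ℝ} (hF : ∑ v, ∑ w, Eb E v w ^ 2 ≤ F) :
    ‖(Matrix.diagonal (dv E α β x) * R).trace - 2 * m‖ ≤ 135 * F := by
  have hF0 : 0 ≤ F := le_trans (by positivity) hF
  set EE : Matrix (V m) (V m) ℂ := (Eb E).map (fun r : ℝ => (r : ℂ)) with hEE
  set X : Matrix (V m) (V m) ℂ := Matrix.diagonal x with hX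
  set Dg : Matrix (V m) (V m) ℂ := Matrix.diagonal (dv E α β x) with hDg
  set Di : Matrix (V m) (V m) ℂ := Matrix.diagonal (fun v => (dv E α β x v)⁻¹) with hDi
  have hdne : ∀ v, dv E α β x v ≠ 0 := by
    intro v hv
    have := h.dlow v
    rw [hv, norm_zero] at this
    norm_num at this
  have h1 : Di * Dg = 1 := by
    rw [hDi, hDg, Matrix.diagonal_mul_diagonal, ← Matrix.diagonal_one]
    congr 1
    funext v
    exact inv_mul_cancel₀ (hdne v)
  have h2 : Dg * R = 1 + EE * X * R := by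
    have h3 : (Dg - EE * X) * R = 1 := h.hLR
    rw [Matrix.sub_mul] at h3
    rw [← h3]
    abel
  have h4 : R = Di + Di * (EE * X * R) := by
    have : Di * (Dg * R) = R := by rw [← Matrix.mul_assoc, h1, Matrix.one_mul]
    rw [h2, Matrix.mul_add, Matrix.mul_one] at this
    exact this.symm
  have h5 : (EE * X * R).trace = (EE * X * Di * (EE * X * R)).trace := by
    have h6 : EE * X * R = EE * X * Di + EE * X * Di * (EE * X * R) := by
      conv_lhs => rw [h4]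
      rw [Matrix.mul_add, Matrix.mul_assoc (EE * X) Di]
    have h7 : (EE * X * Di).trace = 0 := by
      simp only [Matrix.trace, Matrix.diag_apply]
      apply Finset.sum_eq_zero
      intro v _
      rw [hDi, Matrix.mul_diagonal, hX, Matrix.mul_diagonal, hEE, Matrix.map_apply]
      rcases v with i | i <;> simp [Eb]
    conv_lhs => rw [h6]
    rw [Matrix.trace_add, h7, zero_add]
  have h8 : (Dg * R).trace - 2 * m = (EE * X * Di * (EE * X * R)).trace := by
    rw [h2, Matrix.trace_add, h5, Matrix.trace_one]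
    simp
    ring
  rw [h8]
  refine le_trans (trAB _ _) ?_
  have hA : ∑ v, ∑ w, ‖(EE * X * Di) v w‖ ^ 2 ≤ 5 * F := by
    calc ∑ v, ∑ w, ‖(EE * X * Di) v w‖ ^ 2 ≤ ∑ v, ∑ w, 5 * Eb E v w ^ 2 := by
          apply Finset.sum_le_sum
          intro v _
          apply Finset.sum_le_sum
          intro w _
          rw [hDi, Matrix.mul_diagonal, hX, Matrix.mul_diagonal, hEE, Matrix.map_apply,
            norm_mul, norm_mul, norm_inv, h.hx, Complex.norm_real, Real.norm_eq_abs, mul_pow,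
            mul_pow, sq_abs, inv_pow]
          have h9 := h.dlow w
          have h10 : (‖dv E α β x w‖ ^ 2)⁻¹ ≤ (0.81)⁻¹ := by
            apply inv_anti₀ (by norm_num)
            nlinarith
          have h11 : 0 ≤ Eb E v w ^ 2 := sq_nonneg _
          calc Eb E v w ^ 2 * 2 ^ 2 * (‖dv E α β x w‖ ^ 2)⁻¹
              ≤ Eb E v w ^ 2 * 2 ^ 2 * (0.81)⁻¹ := by gcongr
            _ ≤ _ := by norm_num; nlinarith
      _ = 5 * ∑ v, ∑ w, Eb E v w ^ 2 := by simp only [Finset.mul_sum]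
      _ ≤ _ := by linarith
  have hB : ∑ v, ∑ w, ‖(EE * X * R) v w‖ ^ 2 ≤ 3600 * F := by
    calc ∑ v, ∑ w, ‖(EE * X * R) v w‖ ^ 2 ≤ ∑ v, 3600 * ∑ w, Eb E v w ^ 2 := by
          apply Finset.sum_le_sum
          intro v _
          have h9 := h.hR' (fun u => (EE * X) v u)
          refine le_trans (le_of_eq ?_) (le_trans h9 (le_of_eq ?_))
          · apply Finset.sum_congr rfl
            intro w _
            congr 2
            rw [Matrix.mul_apply]
            apply Finset.sum_congr rfl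
            intro u _
            ring
          · rw [show (3600 : ℝ) = 30 ^ 2 * 4 from by norm_num, mul_assoc]
            congr 1
            rw [Finset.mul_sum]
            apply Finset.sum_congr rfl
            intro u _
            rw [hX, Matrix.mul_diagonal, hEE, Matrix.map_apply, norm_mul, h.hx,
              Complex.norm_real, Real.norm_eq_abs, mul_pow, sq_abs]
            ring
      _ = 3600 * ∑ v, ∑ w, Eb E v w ^ 2 := by simp only [Finset.mul_sum]
      _ ≤ _ := by linarith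
  calc √(∑ v, ∑ w, ‖(EE * X * Di) v w‖ ^ 2) * √(∑ v, ∑ w, ‖(EE * X * R) v w‖ ^ 2)
      ≤ √(5 * F) * √(3600 * F) := by
        apply mul_le_mul (Real.sqrt_le_sqrt hA) (Real.sqrt_le_sqrt hB) (Real.sqrt_nonneg _)
          (Real.sqrt_nonneg _)
    _ = √(5 * F * (3600 * F)) := (Real.sqrt_mul (by positivity) _).symm
    _ ≤ √((135 * F) ^ 2) := by
        apply Real.sqrt_le_sqrt
        nlinarith [sq_nonneg F]
    _ ≤ _ := by
        rw [Real.sqrt_sq (by positivity)]

/-- the bracket -/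
noncomputable def Bk (E : Matrix (Fin m) (Fin m) ℝ) (α β : ℝ) (x : V m → ℂ)
    (R : Matrix (V m) (V m) ℂ) : ℂ :=
  (1 - W x * R * U m).det * ((Matrix.diagonal (dv E α β x) * R).trace - 2 * m) +
    ((1 - W x * R * U m).adjugate * (W x * R * Matrix.diagonal (dv E α β x) * R * U m)).trace

private lemma psi_eq (h : Det_H m E α β δ x R) (h3 : St_Rk2) :
    Psi E α β x = (L0 E α β x).det * Bk E α β x R := by
  obtain ⟨e1, e2⟩ := h3 (V m) (L0 E α β x) R (U m) (W x) h.hLR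
  unfold Psi
  rw [LL_eq, e1, e2]
  have e3 : (Matrix.diagonal (dv E α β x) * (R * U m * (1 - W x * R * U m).adjugate * W x *
      R)).trace = ((1 - W x * R * U m).adjugate *
        (W x * R * Matrix.diagonal (dv E α β x) * R * U m)).trace := by
    have e4 : Matrix.diagonal (dv E α β x) * (R * U m * (1 - W x * R * U m).adjugate * W x * R) =
        (Matrix.diagonal (dv E α β x) * R * U m) * ((1 - W x * R * U m).adjugate * (W x * R)) := by
      simp only [Matrix.mul_assoc]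
    have e5 : (1 - W x * R * U m).adjugate * (W x * R * Matrix.diagonal (dv E α β x) * R * U m) =
        ((1 - W x * R * U m).adjugate * (W x * R)) *
          (Matrix.diagonal (dv E α β x) * R * U m) := by
      simp only [Matrix.mul_assoc]
    rw [e4, e5, Matrix.trace_mul_comm]
  rw [Matrix.mul_smul, Matrix.trace_smul, Matrix.mul_add, Matrix.trace_add, e3, Matrix.mul_smul,
    Matrix.trace_smul, smul_eq_mul, smul_eq_mul]
  unfold Bk
  ring

private lemma bk (h : Det_H m E α β δ x R) {F : ℝ} (hF : ∑ v, ∑ w, Eb E v w ^ 2 ≤ F) :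
    ‖Bk E α β x R - 2‖ ≤ 302 * δ * (675 * F + 8) := by
  have hd0 := h.d0
  have hd1 := h.hd
  have ha := h.a1
  have hb := h.b1
  have hF0 : 0 ≤ F := le_trans (by positivity) hF
  have hκ : (0 : ℝ) ≤ 302 * δ := by positivity
  have hκ1 : 302 * δ ≤ 0.302 := by linarith
  have ia : ‖(1 : ℂ) / α - 1‖ ≤ 2 * δ := by
    rw [show (1 : ℂ) / α - 1 = (((1 - α) / α : ℝ) : ℂ) from by
      have := h.al0
      push_cast
      field_simp, Complex.norm_real, Real.norm_eq_abs, abs_div, abs_of_pos (by linarith : 0 < α),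
      div_le_iff₀ (by linarith), abs_sub_comm]
    have := h.ha
    nlinarith
  have ib : ‖(1 : ℂ) / β - 1‖ ≤ 2 * δ := by
    rw [show (1 : ℂ) / β - 1 = (((1 - β) / β : ℝ) : ℂ) from by
      have := h.be0
      push_cast
      field_simp, Complex.norm_real, Real.norm_eq_abs, abs_div, abs_of_pos (by linarith : 0 < β),
      div_le_iff₀ (by linarith), abs_sub_comm]
    have := h.hb
    nlinarith
  set M := W x * R * U m with hM
  set N := W x * R * Matrix.diagonal (dv E α β x) * R * U m with hN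
  have a1 : ‖M 0 0‖ ≤ 302 * δ := le_trans h.M00 (by linarith)
  have a2 : ‖M 1 1‖ ≤ 302 * δ := le_trans h.M11 (by linarith)
  have a3 : ‖M 0 1 - 1‖ ≤ 302 * δ := by
    refine le_trans (norm_sub_le_norm_sub_add_norm_sub _ (1 / (β : ℂ)) _) ?_
    have := h.M01
    linarith
  have a4 : ‖M 1 0 - 1‖ ≤ 302 * δ := by
    refine le_trans (norm_sub_le_norm_sub_add_norm_sub _ (1 / (α : ℂ)) _) ?_
    have := h.M10
    linarith
  have b1 : ‖N 0 0‖ ≤ 302 * δ := le_trans h.N00 (by linarith)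
  have b2 : ‖N 1 1‖ ≤ 302 * δ := le_trans h.N11 (by linarith)
  have b3 : ‖N 0 1 - 1‖ ≤ 302 * δ := by
    refine le_trans (norm_sub_le_norm_sub_add_norm_sub _ (1 / (β : ℂ)) _) ?_
    have := h.N01
    linarith
  have b4 : ‖N 1 0 - 1‖ ≤ 302 * δ := by
    refine le_trans (norm_sub_le_norm_sub_add_norm_sub _ (1 / (α : ℂ)) _) ?_
    have := h.N10
    linarith
  have c1 : ‖(1 - M).det‖ ≤ 5 * (302 * δ) := by
    rw [Matrix.det_fin_two]
    simp only [Matrix.sub_apply, Matrix.one_apply_eq, Matrix.one_apply_ne (zero_ne_one),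
      Matrix.one_apply_ne (one_ne_zero)]
    rw [show (1 - M 0 0) * (1 - M 1 1) - (0 - M 0 1) * (0 - M 1 0) =
      -(M 0 0) - M 1 1 + M 0 0 * M 1 1 - (M 0 1 - 1) - (M 1 0 - 1) -
        (M 0 1 - 1) * (M 1 0 - 1) from by ring]
    have t1 : ‖M 0 0 * M 1 1‖ ≤ 302 * δ * (302 * δ) := by
      rw [norm_mul]; exact mul_le_mul a1 a2 (norm_nonneg _) hκ
    have t2 : ‖(M 0 1 - 1) * (M 1 0 - 1)‖ ≤ 302 * δ * (302 * δ) := by
      rw [norm_mul]; exact mul_le_mul a3 a4 (norm_nonneg _) hκ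
    have u1 := norm_sub_le (-(M 0 0) - M 1 1 + M 0 0 * M 1 1 - (M 0 1 - 1) - (M 1 0 - 1))
      ((M 0 1 - 1) * (M 1 0 - 1))
    have u2 := norm_sub_le (-(M 0 0) - M 1 1 + M 0 0 * M 1 1 - (M 0 1 - 1)) (M 1 0 - 1)
    have u3 := norm_sub_le (-(M 0 0) - M 1 1 + M 0 0 * M 1 1) (M 0 1 - 1)
    have u4 := norm_add_le (-(M 0 0) - M 1 1) (M 0 0 * M 1 1)
    have u5 := norm_sub_le (-(M 0 0)) (M 1 1)
    rw [norm_neg] at u5
    have u6 : 302 * δ * (302 * δ) ≤ 302 * δ * 0.302 := by gcongr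
    linarith
  have c2 : ‖((1 - M).adjugate * N).trace - 2‖ ≤ 8 * (302 * δ) := by
    rw [Matrix.adjugate_fin_two, Matrix.trace_fin_two, Matrix.mul_apply, Matrix.mul_apply,
      Fin.sum_univ_two, Fin.sum_univ_two]
    simp only [Matrix.sub_apply, Matrix.one_apply_eq, Matrix.one_apply_ne (zero_ne_one),
      Matrix.one_apply_ne (one_ne_zero), Matrix.of_apply, Matrix.cons_val', Matrix.cons_val_zero,
      Matrix.cons_val_one, Matrix.cons_val_fin_one]
    rw [show (1 - M 1 1) * N 0 0 + -(0 - M 0 1) * N 1 0 + (-(0 - M 1 0) * N 0 1 +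
        (1 - M 0 0) * N 1 1) - 2 =
      N 0 0 - M 1 1 * N 0 0 + (N 1 1 - M 0 0 * N 1 1) + ((M 0 1 - 1) + (N 1 0 - 1) +
        (M 0 1 - 1) * (N 1 0 - 1)) + ((M 1 0 - 1) + (N 0 1 - 1) +
        (M 1 0 - 1) * (N 0 1 - 1)) from by ring]
    have t1 : ‖M 1 1 * N 0 0‖ ≤ 302 * δ * (302 * δ) := by
      rw [norm_mul]; exact mul_le_mul a2 b1 (norm_nonneg _) hκ
    have t2 : ‖M 0 0 * N 1 1‖ ≤ 302 * δ * (302 * δ) := by
      rw [norm_mul]; exact mul_le_mul a1 b2 (norm_nonneg _) hκ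
    have t3 : ‖(M 0 1 - 1) * (N 1 0 - 1)‖ ≤ 302 * δ * (302 * δ) := by
      rw [norm_mul]; exact mul_le_mul a3 b4 (norm_nonneg _) hκ
    have t4 : ‖(M 1 0 - 1) * (N 0 1 - 1)‖ ≤ 302 * δ * (302 * δ) := by
      rw [norm_mul]; exact mul_le_mul a4 b3 (norm_nonneg _) hκ
    have u6 : 302 * δ * (302 * δ) ≤ 302 * δ * 0.302 := by gcongr
    have v1 := norm_sub_le (N 0 0) (M 1 1 * N 0 0)
    have v2 := norm_sub_le (N 1 1) (M 0 0 * N 1 1)
    have v3 := norm_add_le ((M 0 1 - 1) + (N 1 0 - 1)) ((M 0 1 - 1) * (N 1 0 - 1))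
    have v4 := norm_add_le (M 0 1 - 1) (N 1 0 - 1)
    have v5 := norm_add_le ((M 1 0 - 1) + (N 0 1 - 1)) ((M 1 0 - 1) * (N 0 1 - 1))
    have v6 := norm_add_le (M 1 0 - 1) (N 0 1 - 1)
    have v7 := norm_add_le (N 0 0 - M 1 1 * N 0 0 + (N 1 1 - M 0 0 * N 1 1) + ((M 0 1 - 1) +
      (N 1 0 - 1) + (M 0 1 - 1) * (N 1 0 - 1))) ((M 1 0 - 1) + (N 0 1 - 1) +
        (M 1 0 - 1) * (N 0 1 - 1))
    have v8 := norm_add_le (N 0 0 - M 1 1 * N 0 0 + (N 1 1 - M 0 0 * N 1 1)) ((M 0 1 - 1) +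
      (N 1 0 - 1) + (M 0 1 - 1) * (N 1 0 - 1))
    have v9 := norm_add_le (N 0 0 - M 1 1 * N 0 0) (N 1 1 - M 0 0 * N 1 1)
    linarith
  have c3 := h.trb hF
  unfold Bk
  rw [← hM, ← hN, add_sub_assoc]
  refine le_trans (norm_add_le _ _) ?_
  rw [norm_mul]
  have c4 : ‖(1 - M).det‖ * ‖(Matrix.diagonal (dv E α β x) * R).trace - 2 * m‖ ≤
      5 * (302 * δ) * (135 * F) := mul_le_mul c1 c3 (norm_nonneg _) (by positivity)
  linarith

end Det_H

private lemma Det_ev (C : ℝ) : ∀ᶠ m : ℕ in atTop,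
    3 * (m : ℝ) ^ (-(7 / 20) : ℝ) + 302 * dl m * (675 * (2 * (C * Real.log m)) + 8) ≤
      (m : ℝ) ^ (-(1 / 3) : ℝ) := by
  have hlog : Tendsto (fun x : ℝ => Real.log x / x ^ (1 / 15 : ℝ)) atTop (nhds 0) :=
    (isLittleO_log_rpow_atTop (by norm_num : (0 : ℝ) < 1 / 15)).tendsto_div_nhds_zero
  have h1 : Tendsto (fun x : ℝ => x ^ (-(1 / 60) : ℝ)) atTop (nhds 0) :=
    tendsto_rpow_neg_atTop (by norm_num)
  have h2 : Tendsto (fun x : ℝ => x ^ (-(1 / 15) : ℝ)) atTop (nhds 0) :=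
    tendsto_rpow_neg_atTop (by norm_num)
  have h3 : Tendsto (fun x : ℝ => 3 * x ^ (-(1 / 60) : ℝ) + 302 * (1350 * C *
      (Real.log x / x ^ (1 / 15 : ℝ)) + 8 * x ^ (-(1 / 15) : ℝ))) atTop (nhds 0) := by
    have := (h1.const_mul 3).add (((hlog.const_mul (1350 * C)).add (h2.const_mul 8)).const_mul 302)
    simpa using this
  have h4 := h3.comp tendsto_natCast_atTop_atTop
  have h5 : ∀ᶠ m : ℕ in atTop, 3 * (m : ℝ) ^ (-(1 / 60) : ℝ) + 302 * (1350 * C *
      (Real.log m / (m : ℝ) ^ (1 / 15 : ℝ)) + 8 * (m : ℝ) ^ (-(1 / 15) : ℝ)) ≤ 1 :=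
    h4.eventually_le_const (by norm_num)
  filter_upwards [h5, eventually_ge_atTop 1] with m hm hm1
  have hm0 : (0 : ℝ) < m := by exact_mod_cast (by omega : 0 < m)
  have e1 : (m : ℝ) ^ (-(7 / 20) : ℝ) = (m : ℝ) ^ (-(1 / 3) : ℝ) * (m : ℝ) ^ (-(1 / 60) : ℝ) := by
    rw [← Real.rpow_add hm0]; norm_num
  have e2 : dl m = (m : ℝ) ^ (-(1 / 3) : ℝ) * (m : ℝ) ^ (-(1 / 15) : ℝ) := by
    unfold dl
    rw [← Real.rpow_add hm0]; norm_num
  have e3 : Real.log m / (m : ℝ) ^ (1 / 15 : ℝ) = Real.log m * (m : ℝ) ^ (-(1 / 15) : ℝ) := by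
    rw [Real.rpow_neg hm0.le]; rfl
  rw [e3] at hm
  rw [e1, e2]
  have hp : 0 ≤ (m : ℝ) ^ (-(1 / 3) : ℝ) := by positivity
  calc 3 * ((m : ℝ) ^ (-(1 / 3) : ℝ) * (m : ℝ) ^ (-(1 / 60) : ℝ)) +
      302 * ((m : ℝ) ^ (-(1 / 3) : ℝ) * (m : ℝ) ^ (-(1 / 15) : ℝ)) *
        (675 * (2 * (C * Real.log m)) + 8)
      = (m : ℝ) ^ (-(1 / 3) : ℝ) * (3 * (m : ℝ) ^ (-(1 / 60) : ℝ) + 302 * (1350 * C *
        (Real.log m * (m : ℝ) ^ (-(1 / 15) : ℝ)) + 8 * (m : ℝ) ^ (-(1 / 15) : ℝ))) := by ring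
    _ ≤ (m : ℝ) ^ (-(1 / 3) : ℝ) * 1 := by gcongr
    _ = _ := mul_one _

theorem thm_Det (h1 : St_Spe) (h2 : St_Res) (h3 : St_Rk2) : St_Det := by
  intro C hC
  have hdl : ∀ᶠ m : ℕ in atTop, dl m ≤ 1 / 1000 := by
    have h4 : Tendsto (fun x : ℝ => x ^ (-(2 / 5) : ℝ)) atTop (nhds 0) :=
      tendsto_rpow_neg_atTop (by norm_num)
    exact (h4.comp tendsto_natCast_atTop_atTop).eventually_le_const (by norm_num)
  filter_upwards [h2 C hC, Det_ev C, hdl, eventually_ge_atTop 1] with m hres hev hd hm1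
  intro E hE α β hα hβ x hx hG
  obtain ⟨hdet, R, hLR, hRL, hR, hR'⟩ := hres E hE α β hα hβ x hx hG
  obtain ⟨e, l, hSp, hDl, -⟩ := h1 C m E hm1 hE
  have hm0 : (0 : ℝ) < m := by exact_mod_cast (by omega : 0 < m)
  have hDl0 : 0 ≤ Dl E := by
    rw [hDl]
    apply Finset.prod_nonneg
    intro a _
    have := hSp.small a
    have h5 : l a ^ 2 ≤ 0.53 ^ 2 := by rw [← sq_abs]; gcongr
    norm_num at h5
    linarith
  have hmd : (m : ℝ) ^ (3 / 5 : ℝ) = m * dl m := by
    unfold dl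
    nth_rewrite 2 [← Real.rpow_one (m : ℝ)]
    rw [← Real.rpow_add hm0]
    norm_num
  have hH : Det_H m E α β (dl m) x R :=
    { hm := hm1
      hs := hE.symm
      ha := hα
      hb := hβ
      hd := hd
      hx := hx
      hxi := hG.a
      he := hmd ▸ hG.e
      hf := hmd ▸ hG.f
      hLR := hLR
      hRL := hRL
      hR := hR
      hR' := hR' }
  have hF : ∑ v, ∑ w, Eb E v w ^ 2 ≤ 2 * (C * Real.log m) := by
    have h6 : ∑ v, ∑ w, Eb E v w ^ 2 = 2 * ∑ i, ∑ j, E i j ^ 2 := by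
      simp [Fintype.sum_sum_type, Eb]
      ring
    rw [h6]
    have h7 : ∑ i, ∑ j, E i j ^ 2 ≤ ∑ _i : Fin m, C * Real.log m / m :=
      Finset.sum_le_sum fun i _ => hE.sq i
    rw [Finset.sum_const, Finset.card_univ, Fintype.card_fin, nsmul_eq_mul,
      mul_div_cancel₀ _ (ne_of_gt hm0)] at h7
    linarith
  have hB := hH.bk hF
  have hP := Det_H.psi_eq hH h3
  have hp13 : (m : ℝ) ^ (-(1 / 3) : ℝ) ≤ 1 := by
    apply Real.rpow_le_one_of_one_le_of_nonpos (by exact_mod_cast hm1) (by norm_num)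
  have hp720 : 0 ≤ (m : ℝ) ^ (-(7 / 20) : ℝ) := by positivity
  set B := Det_H.Bk E α β x R with hBdef
  set P := ∏ v, dv E α β x v with hPdef
  have hB1 : ‖B - 2‖ ≤ 1 := by linarith
  have hB3 : ‖B‖ ≤ 3 := by
    have := norm_sub_norm_le B 2
    have h8 : ‖(2 : ℂ)‖ = 2 := by simp
    linarith
  rw [hP, show (L0 E α β x).det * B - 2 * (Dl E : ℂ) * P =
    ((L0 E α β x).det - (Dl E : ℂ) * P) * B + (Dl E : ℂ) * P * (B - 2) from by ring]
  refine le_trans (norm_add_le _ _) ?_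
  rw [norm_mul, norm_mul, norm_mul, Complex.norm_real, Real.norm_eq_abs, abs_of_nonneg hDl0]
  have hP0 : 0 ≤ Dl E * ‖P‖ := by positivity
  have i1 : ‖(L0 E α β x).det - (Dl E : ℂ) * P‖ * ‖B‖ ≤
      (m : ℝ) ^ (-(7 / 20) : ℝ) * Dl E * ‖P‖ * 3 :=
    mul_le_mul hdet hB3 (norm_nonneg _) (by positivity)
  have i2 : Dl E * ‖P‖ * ‖B - 2‖ ≤
      Dl E * ‖P‖ * (302 * dl m * (675 * (2 * (C * Real.log m)) + 8)) := by gcongr
  calc _ ≤ (m : ℝ) ^ (-(7 / 20) : ℝ) * Dl E * ‖P‖ * 3 +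
        Dl E * ‖P‖ * (302 * dl m * (675 * (2 * (C * Real.log m)) + 8)) := add_le_add i1 i2
    _ = (3 * (m : ℝ) ^ (-(7 / 20) : ℝ) + 302 * dl m * (675 * (2 * (C * Real.log m)) + 8)) *
        (Dl E * ‖P‖) := by ring
    _ ≤ (m : ℝ) ^ (-(1 / 3) : ℝ) * (Dl E * ‖P‖) := by gcongr
    _ = _ := by ring

end Pool.Agent.PCW
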