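import Mathlib
import Pool.Agent.PCW.St

/-!
# PCW [Dt1]: the determinant of `1 - A` for nearly nilpotent `A` (helper41)

The function `g τ = det (1 - τ A) exp (τ tr A + τ² tr A² / 2)` satisfies `g' = R g` with
`R = - τ² tr (A³ (1 - τ A)⁻¹)`, and `|R| ≤ (4 / 3) (a + b) b`, `a = frob A`, `b = frob A²`; Gronwall.
-/

set_option autoImplicit false

namespace Pool.Agent.PCW

open Finset Filter MeasureTheory Matrix

section dt1

variable {ι : Type} [Fintype ι] [DecidableEq ι]

attribute [local instance] Matrix.frobeniusNormedRing Matrix.frobeniusNormedAlgebra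

private theorem Dt1_frob (A : Matrix ι ι ℂ) : frob A = ‖A‖ := by
  rw [Matrix.frobenius_norm_def, frob, Real.sqrt_eq_rpow]
  simp only [Real.rpow_two]

private theorem Dt1_tr (A B : Matrix ι ι ℂ) : ‖(A * B).trace‖ ≤ ‖A‖ * ‖B‖ := by
  rw [← Dt1_frob, ← Dt1_frob]
  have h1 : ‖(A * B).trace‖ ≤ ∑ p : ι × ι, ‖A p.1 p.2‖ * ‖B p.2 p.1‖ := by
    rw [Matrix.trace, Fintype.sum_prod_type]
    refine (norm_sum_le _ _).trans (Finset.sum_le_sum fun i _ => ?_)
    rw [Matrix.diag_apply, Matrix.mul_apply]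
    refine (norm_sum_le _ _).trans (Finset.sum_le_sum fun j _ => ?_)
    rw [norm_mul]
  refine h1.trans ((Real.sum_mul_le_sqrt_mul_sqrt _ _ _).trans (le_of_eq ?_))
  unfold frob
  rw [Fintype.sum_prod_type, Fintype.sum_prod_type_right]

private theorem Dt1_der (A N : Matrix ι ι ℂ) (z : ℂ) (hN : (1 - z • A) * N = 1) :
    HasDerivAt (fun w : ℂ => (1 - w • A).det) (-(N * A).trace * (1 - z • A).det) z := by
  obtain ⟨Q, hQ⟩ : ∃ Q : Polynomial ℂ,
      Q = (1 + (Polynomial.X : Polynomial ℂ) • (-(N * A)).map Polynomial.C).det := ⟨_, rfl⟩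
  have hev : ∀ h : ℂ, Q.eval h = (1 + h • (-(N * A))).det := by
    intro h
    rw [hQ, ← Polynomial.coe_evalRingHom, RingHom.map_det]
    congr 1
    ext i j
    by_cases hij : i = j
    · subst hij
      simp
      exact mul_comm _ _
    · simp [hij]
      exact mul_comm _ _
  have hd : Q.derivative.eval 0 = (-(N * A)).trace := by
    rw [hQ]
    exact Matrix.derivative_det_one_add_X_smul _
  have hf : ∀ w : ℂ, (1 - w • A).det = (1 - z • A).det * Q.eval (w - z) := by
    intro w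
    rw [hev, ← Matrix.det_mul]
    congr 1
    rw [Matrix.mul_add, Matrix.mul_one, Matrix.mul_smul, Matrix.mul_neg, ← Matrix.mul_assoc, hN,
      Matrix.one_mul]
    module
  have h1 : HasDerivAt (fun w : ℂ => Q.eval (w - z)) (Q.derivative.eval (z - z)) z := by
    have h2 := HasDerivAt.comp z (h₂ := fun w : ℂ => Q.eval w) (h := fun w : ℂ => w - z)
      (Q.hasDerivAt (z - z)) ((hasDerivAt_id z).sub_const z)
    rwa [mul_one] at h2
  have h3 := h1.const_mul ((1 - z • A).det)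
  rw [sub_self, hd, Matrix.trace_neg] at h3
  have e : (fun w : ℂ => (1 - w • A).det) = fun w => (1 - z • A).det * Q.eval (w - z) :=
    funext hf
  rw [e, mul_comm (-(N * A).trace)]
  exact h3

theorem thm_Dt1 : St_Dt1 := by
  intro ι _ _ A hA
  rw [Dt1_frob, Dt1_frob]
  rw [Dt1_frob] at hA
  have : CompleteSpace (Matrix ι ι ℂ) := FiniteDimensional.complete ℂ _
  have ha : 0 ≤ ‖A‖ := norm_nonneg _
  have hb : 0 ≤ ‖A * A‖ := norm_nonneg _
  set a := ‖A‖ with hadef
  set b := ‖A * A‖ with hbdef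
  obtain ⟨r, hr⟩ : ∃ r : ℝ, r = 4 / 3 * ((a + b) * b) := ⟨_, rfl⟩
  have hr0 : 0 ≤ r := by
    rw [hr]
    positivity
  -- the resolvent
  have key : ∀ τ : ℝ, 0 ≤ τ → τ ≤ 1 → ∃ N : Matrix ι ι ℂ, (1 - (τ : ℂ) • A) * N = 1 ∧
      ∃ R : ℂ, ‖R‖ ≤ r ∧ (N * A).trace = A.trace + τ * (A * A).trace + R := by
    intro τ h0 h1
    have hX : ‖((τ : ℂ) ^ 2) • (A * A)‖ ≤ b / 1 := by
      rw [norm_smul, norm_pow, Complex.norm_real, Real.norm_eq_abs, abs_of_nonneg h0, div_one]
      have : τ ^ 2 ≤ 1 := pow_le_one₀ h0 h1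
      nlinarith
    rw [div_one] at hX
    have hX1 : ‖((τ : ℂ) ^ 2) • (A * A)‖ < 1 := by linarith
    obtain ⟨X, hXdef⟩ : ∃ X : Matrix ι ι ℂ, X = ((τ : ℂ) ^ 2) • (A * A) := ⟨_, rfl⟩
    rw [← hXdef] at hX hX1
    obtain ⟨M, hM1, hM2⟩ : ∃ M : Matrix ι ι ℂ, (1 - X) * M = 1 ∧ M * (1 - X) = 1 :=
      ⟨((Units.oneSub X hX1)⁻¹ : (Matrix ι ι ℂ)ˣ), (Units.oneSub X hX1).mul_inv,
        (Units.oneSub X hX1).inv_mul⟩
    -- `A` commutes with `M`
    have hc : A * M = M * A := by
      have e1 : A * (1 - X) = (1 - X) * A := by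
        rw [hXdef]
        simp only [Matrix.mul_sub, Matrix.sub_mul, Matrix.mul_one, Matrix.one_mul, Matrix.mul_smul,
          Matrix.smul_mul, Matrix.mul_assoc]
      calc A * M = M * (1 - X) * (A * M) := by rw [hM2, Matrix.one_mul]
        _ = M * ((1 - X) * A) * M := by simp only [Matrix.mul_assoc]
        _ = M * A * ((1 - X) * M) := by
            rw [← e1]
            simp only [Matrix.mul_assoc]
        _ = M * A := by rw [hM1, Matrix.mul_one]
    obtain ⟨W, hW⟩ : ∃ W : Matrix ι ι ℂ, W = A * A * M := ⟨_, rfl⟩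
    have hWn : ‖W‖ ≤ 4 / 3 * b := by
      have e1 : W = A * A + W * X := by
        have e2 : W * (1 - X) = A * A := by
          rw [hW, Matrix.mul_assoc, hM2, Matrix.mul_one]
        rw [Matrix.mul_sub, Matrix.mul_one] at e2
        rw [← e2]
        abel
      have e3 : ‖W‖ ≤ b + ‖W‖ * ‖X‖ := by
        calc ‖W‖ = ‖A * A + W * X‖ := by rw [← e1]
          _ ≤ ‖A * A‖ + ‖W * X‖ := norm_add_le _ _
          _ ≤ b + ‖W‖ * ‖X‖ := by
              have := norm_mul_le W X
              linarith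
      have e4 := norm_nonneg W
      nlinarith
    refine ⟨(1 + (τ : ℂ) • A) * M, ?_, (τ : ℂ) ^ 2 * ((A + (τ : ℂ) • (A * A)) * W).trace, ?_, ?_⟩
    · rw [← Matrix.mul_assoc]
      have e1 : (1 - (τ : ℂ) • A) * (1 + (τ : ℂ) • A) = 1 - X := by
        rw [hXdef]
        simp only [Matrix.mul_add, Matrix.sub_mul, Matrix.mul_one, Matrix.one_mul, Matrix.mul_smul,
          Matrix.smul_mul]
        module
      rw [e1, hM1]
    · rw [norm_mul, norm_pow, Complex.norm_real, Real.norm_eq_abs, abs_of_nonneg h0]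
      have e1 : τ ^ 2 ≤ 1 := pow_le_one₀ h0 h1
      have e2 := Dt1_tr (A + (τ : ℂ) • (A * A)) W
      have e3 : ‖A + (τ : ℂ) • (A * A)‖ ≤ a + b := by
        refine (norm_add_le _ _).trans ?_
        rw [norm_smul, Complex.norm_real, Real.norm_eq_abs, abs_of_nonneg h0]
        nlinarith
      have e4 : ‖A + (τ : ℂ) • (A * A)‖ * ‖W‖ ≤ (a + b) * (4 / 3 * b) :=
        mul_le_mul e3 hWn (norm_nonneg _) (by positivity)
      have e5 := norm_nonneg ((A + (τ : ℂ) • (A * A)) * W).trace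
      calc τ ^ 2 * ‖((A + (τ : ℂ) • (A * A)) * W).trace‖
          ≤ 1 * ‖((A + (τ : ℂ) • (A * A)) * W).trace‖ := mul_le_mul_of_nonneg_right e1 e5
        _ ≤ (a + b) * (4 / 3 * b) := by linarith
        _ = r := by
            rw [hr]
            ring
    · -- `N A = A + τ A² + τ² (A + τ A²) W`
      have e1 : (1 + (τ : ℂ) • A) * M * A =
          A + (τ : ℂ) • (A * A) + ((τ : ℂ) ^ 2) • ((A + (τ : ℂ) • (A * A)) * W) := by
        have e2 : (1 + (τ : ℂ) • A) * M * A = (A + (τ : ℂ) • (A * A)) * M := by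
          rw [Matrix.mul_assoc, ← hc, ← Matrix.mul_assoc, Matrix.add_mul, Matrix.one_mul,
            Matrix.smul_mul]
        have e3 : M = 1 + X * M := by
          have e4 := hM1
          rw [Matrix.sub_mul, Matrix.one_mul] at e4
          rw [← e4]
          abel
        rw [e2]
        conv_lhs => rw [e3]
        rw [Matrix.mul_add, Matrix.mul_one, hXdef, hW, Matrix.smul_mul, Matrix.mul_smul]
      rw [e1, Matrix.trace_add, Matrix.trace_add, Matrix.trace_smul, Matrix.trace_smul,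
        smul_eq_mul, smul_eq_mul]
  choose! N hN R hR hNR using key
  -- the function
  obtain ⟨f, hf⟩ : ∃ f : ℝ → ℂ, f = fun τ : ℝ => (1 - (τ : ℂ) • A).det *
    Complex.exp ((τ : ℂ) * A.trace + (τ : ℂ) ^ 2 * (A * A).trace / 2) - 1 := ⟨_, rfl⟩
  have hder : ∀ τ : ℝ, 0 ≤ τ → τ ≤ 1 → HasDerivAt f (-(R τ) * (f τ + 1)) τ := by
    intro τ h0 h1
    have e1 := (Dt1_der A (N τ) (τ : ℂ) (hN τ h0 h1)).comp_ofReal
    have e2 : HasDerivAt (fun z : ℂ => z * A.trace + z ^ 2 * (A * A).trace / 2)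
        (A.trace + (τ : ℂ) * (A * A).trace) (τ : ℂ) := by
      have e3 := ((hasDerivAt_id (τ : ℂ)).mul_const A.trace).add
        ((((hasDerivAt_id (τ : ℂ)).pow 2).mul_const (A * A).trace).div_const 2)
      refine e3.congr_deriv ?_
      simp only [id_eq, one_mul, Nat.cast_ofNat, mul_one]
      ring
    have e4 := e2.cexp.comp_ofReal
    have e5 := (e1.mul e4).sub_const 1
    rw [hf]
    refine e5.congr_deriv ?_
    rw [hNR τ h0 h1]
    ring
  have hcont : ContinuousOn f (Set.Icc 0 1) := fun τ hτ =>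
    (hder τ hτ.1 hτ.2).continuousAt.continuousWithinAt
  have hg := norm_le_gronwallBound_of_norm_deriv_right_le (f := f)
    (f' := fun τ => -(R τ) * (f τ + 1)) (δ := 0) (K := r) (ε := r) (a := 0) (b := 1) hcont
    (fun τ hτ => (hder τ hτ.1 hτ.2.le).hasDerivWithinAt) (by
      rw [hf]
      simp) (by
      intro τ hτ
      rw [norm_mul, norm_neg]
      have e1 := hR τ hτ.1 hτ.2.le
      have e2 : ‖f τ + 1‖ ≤ ‖f τ‖ + 1 := by
        refine (norm_add_le _ _).trans ?_
        rw [norm_one]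
      have e3 := norm_nonneg (f τ)
      calc ‖R τ‖ * ‖f τ + 1‖ ≤ r * (‖f τ‖ + 1) :=
            mul_le_mul e1 e2 (norm_nonneg _) hr0
        _ = r * ‖f τ‖ + r := by ring) 1 ⟨zero_le_one, le_rfl⟩
  have hf1 : f 1 = (1 - A).det * Complex.exp (A.trace + (A * A).trace / 2) - 1 := by
    rw [hf]
    simp
  rw [hf1] at hg
  refine hg.trans ?_
  have hrle : r ≤ 4 * a * b + 4 * b ^ 2 := by
    rw [hr]
    nlinarith [mul_nonneg ha hb, mul_nonneg hb hb]
  rcases eq_or_ne r 0 with h0 | h0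
  · rw [h0, gronwallBound_K0]
    simp only [sub_zero, mul_one, add_zero]
    have h2 : 0 ≤ 4 * a * b + 4 * b ^ 2 := by positivity
    have h3 := Real.add_one_le_exp (4 * a * b + 4 * b ^ 2)
    linarith
  · rw [gronwallBound_of_K_ne_0 h0, div_self h0]
    simp only [sub_zero, mul_one, zero_mul, zero_add, one_mul]
    have h3 := Real.exp_le_exp.2 hrle
    linarith

end dt1

end Pool.Agent.PCW
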