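import Pool.Agent.PCW.StN

/-!
# PCW, Eta: the cut-off functions
-/

set_option autoImplicit false

namespace Pool.Agent.PCW

open Finset Filter MeasureTheory
open Pool.Agent.MT (IsWt)

/-- The cut-off functions. -/
theorem thm_Eta : St_Eta := by
  obtain ⟨S, hS, h01, h0, h1⟩ : ∃ S : ℝ → ℝ, ContDiff ℝ (((⊤ : ℕ∞) : WithTop ℕ∞)) S ∧
      (∀ y, 0 ≤ S y ∧ S y ≤ 1) ∧ (∀ y, y ≤ 0.22 → S y = 0) ∧ (∀ y, 0.25 ≤ y → S y = 1) := by
    refine ⟨fun y => Real.smoothTransition ((y - 0.22) / 0.03), ?_, ?_, ?_, ?_⟩
    · exact Real.smoothTransition.contDiff.comp ((contDiff_id.sub contDiff_const).div_const _)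
    · exact fun y => ⟨Real.smoothTransition.nonneg _, Real.smoothTransition.le_one _⟩
    · intro y hy
      exact Real.smoothTransition.zero_of_nonpos (div_nonpos_of_nonpos_of_nonneg (by linarith) (by norm_num))
    · intro y hy
      refine Real.smoothTransition.one_of_one_le ?_
      rw [le_div_iff₀ (by norm_num)]
      linarith
  have hnn : ∀ y, 0 ≤ S y - S (22 / 75 * y) := by
    intro y
    rcases le_or_gt y 0.75 with hy | hy
    · rw [h0 (22 / 75 * y) (by linarith)]
      linarith [(h01 y).1]
    · rw [h1 y (by linarith)]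
      linarith [(h01 (22 / 75 * y)).2]
  refine ⟨S, fun y => S y - S (22 / 75 * y), ?_, h01, h0, h1, fun y => rfl⟩
  refine ⟨?_, hnn, ?_, ?_, ?_⟩
  · exact hS.sub (hS.comp (contDiff_const.mul contDiff_id))
  · intro y
    show S y - S (22 / 75 * y) ≤ 1
    linarith [(h01 y).2, (h01 (22 / 75 * y)).1]
  · intro y hy
    constructor
    · by_contra h
      exact hy (by
        show S y - S (22 / 75 * y) = 0
        rw [h0 y (by linarith), h0 (22 / 75 * y) (by linarith), sub_zero])
    · by_contra h
      exact hy (by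
        show S y - S (22 / 75 * y) = 0
        rw [h1 y (by linarith), h1 (22 / 75 * y) (by linarith), sub_self])
  · intro y hy1 hy2
    show S y - S (22 / 75 * y) = 1
    rw [h1 y (by linarith), h0 (22 / 75 * y) (by linarith), sub_zero]

end Pool.Agent.PCW
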