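import Mathlib
import Pool.Agent.PCW.St

set_option autoImplicit false

/-!
# PCW Exm: exponential moments of `|E x|²` (helper35)
-/

namespace Pool.Agent.PCW

open Finset MeasureTheory ProbabilityTheory

/-- the Gaussian integral -/
theorem Exm_gauss (t : ℝ) (ht : t < 1) :
    Integrable (fun x : ℝ => Real.exp (t * x ^ 2 / 2)) (gaussianReal 0 1) ∧
    ∫ x, Real.exp (t * x ^ 2 / 2) ∂(gaussianReal 0 1) = (√(1 - t))⁻¹ := by
  have h1 : 0 < 1 - t := sub_pos.2 ht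
  have hI : ∫ x, Real.exp (t * x ^ 2 / 2) ∂(gaussianReal 0 1) = (√(1 - t))⁻¹ := by
    rw [integral_gaussianReal_eq_integral_smul one_ne_zero]
    simp only [gaussianPDFReal, smul_eq_mul, NNReal.coe_one, sub_zero, mul_one]
    have : ∀ x : ℝ, (√(2 * Real.pi))⁻¹ * Real.exp (-x ^ 2 / 2) * Real.exp (t * x ^ 2 / 2)
       = (√(2 * Real.pi))⁻¹ * Real.exp (-((1 - t) / 2) * x ^ 2) := by
      intro x
      rw [mul_assoc, ← Real.exp_add]
      congr 2
      ring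
    simp_rw [this]
    rw [integral_const_mul, integral_gaussian]
    rw [← Real.sqrt_inv, ← Real.sqrt_mul (by positivity), ← Real.sqrt_inv]
    congr 1
    have := Real.pi_pos.ne'
    field_simp
  refine ⟨?_, hI⟩
  by_contra h
  rw [integral_undef h] at hI
  have : 0 < (√(1 - t))⁻¹ := by
    have := Real.sqrt_pos.2 h1
    positivity
  linarith

/-- the moment generating function -/
theorem Exm_mgf (t : ℝ) :
    Integrable (fun x : ℝ => Real.exp (t * x)) (gaussianReal 0 1) ∧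
    ∫ x, Real.exp (t * x) ∂(gaussianReal 0 1) = Real.exp (t ^ 2 / 2) := by
  refine ⟨integrable_exp_mul_gaussianReal t, ?_⟩
  have := congrFun (mgf_fun_id_gaussianReal (μ := 0) (v := 1)) t
  rw [mgf] at this
  rw [this]
  simp

/-- Parseval -/
theorem Exm_par {m : ℕ} (e : Fin m → Fin m → ℝ)
    (orth : ∀ a b, ∑ i, e a i * e b i = if a = b then 1 else 0) (r : Fin m → ℝ) :
    ∑ i, (∑ a, r a * e a i) ^ 2 = ∑ a, r a ^ 2 := by
  have h1 : ∀ i, (∑ a, r a * e a i) ^ 2 = ∑ a, ∑ b, r a * r b * (e a i * e b i) := by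
    intro i
    rw [sq, Finset.sum_mul_sum]
    refine Finset.sum_congr rfl fun a _ => Finset.sum_congr rfl fun b _ => ?_
    ring
  simp_rw [h1]
  rw [Finset.sum_comm]
  refine Finset.sum_congr rfl fun a _ => ?_
  rw [Finset.sum_comm]
  simp_rw [← Finset.mul_sum, orth]
  simp [sq]

/-- complex Parseval -/
theorem Exm_parc {m : ℕ} (e : Fin m → Fin m → ℝ)
    (orth : ∀ a b, ∑ i, e a i * e b i = if a = b then 1 else 0) (r : Fin m → ℂ) :
    ∑ i, ‖∑ a, r a * (e a i : ℂ)‖ ^ 2 = ∑ a, ‖r a‖ ^ 2 := by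
  have h : ∀ z : ℂ, ‖z‖ ^ 2 = z.re ^ 2 + z.im ^ 2 := by
    intro z
    rw [← Complex.normSq_eq_norm_sq, Complex.normSq_apply]
    ring
  simp_rw [h]
  rw [Finset.sum_add_distrib, Finset.sum_add_distrib]
  congr 1
  · rw [← Exm_par e orth (fun a => (r a).re)]
    refine Finset.sum_congr rfl fun i _ => ?_
    congr 1
    rw [Complex.re_sum]
    simp
  · rw [← Exm_par e orth (fun a => (r a).im)]
    refine Finset.sum_congr rfl fun i _ => ?_
    congr 1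
    rw [Complex.im_sum]
    simp

/-- the spectral form of `|E y|²` -/
theorem Exm_norm {C : ℝ} {m : ℕ} {E : Matrix (Fin m) (Fin m) ℝ} {e : Fin m → Fin m → ℝ}
    {l : Fin m → ℝ} (h : Sp C m E e l) (y : Fin m → ℂ) :
    ∑ i, ‖xj E y i‖ ^ 2 = ∑ a, l a ^ 2 * ‖∑ j, (e a j : ℂ) * y j‖ ^ 2 := by
  have h1 : ∀ i, xj E y i = ∑ a, ((l a : ℂ) * ∑ j, (e a j : ℂ) * y j) * (e a i : ℂ) := by
    intro i
    unfold xj
    simp_rw [h.dec, Finset.mul_sum, Finset.sum_mul]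
    rw [Finset.sum_comm]
    refine Finset.sum_congr rfl fun j _ => ?_
    push_cast
    rw [Finset.sum_mul]
    refine Finset.sum_congr rfl fun a _ => ?_
    ring
  simp_rw [h1]
  rw [Exm_parc e h.orth]
  refine Finset.sum_congr rfl fun a _ => ?_
  rw [norm_mul, mul_pow]
  congr 1
  rw [Complex.norm_real, Real.norm_eq_abs, sq_abs]

/-- the coefficients -/
noncomputable def Exm_c {m : ℕ} (e : Fin m → Fin m → ℝ) (l : Fin m → ℝ) (k : ℝ)
    (p : Fin m → ℝ × ℝ) (j : Fin m) : ℂ :=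
  ⟨√(2 * k) * ∑ a, l a * (p a).1 * e a j, √(2 * k) * ∑ a, l a * (p a).2 * e a j⟩

theorem Exm_c_cont {m : ℕ} (e : Fin m → Fin m → ℝ) (l : Fin m → ℝ) (k : ℝ) (j : Fin m) :
    Continuous (fun p : Fin m → ℝ × ℝ => (Exm_c e l k p j).re) ∧
    Continuous (fun p : Fin m → ℝ × ℝ => (Exm_c e l k p j).im) := by
  constructor
  · simp only [Exm_c]
    fun_prop
  · simp only [Exm_c]
    fun_prop

theorem Exm_c_sq {m : ℕ} (e : Fin m → Fin m → ℝ)
    (orth : ∀ a b, ∑ i, e a i * e b i = if a = b then 1 else 0) (l : Fin m → ℝ) (k : ℝ)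
    (hk : 0 ≤ k) (p : Fin m → ℝ × ℝ) :
    ∑ j, ‖Exm_c e l k p j‖ ^ 2 = 2 * k * ∑ a, l a ^ 2 * ((p a).1 ^ 2 + (p a).2 ^ 2) := by
  have h : ∀ z : ℂ, ‖z‖ ^ 2 = z.re ^ 2 + z.im ^ 2 := by
    intro z
    rw [← Complex.normSq_eq_norm_sq, Complex.normSq_apply]
    ring
  simp_rw [h]
  simp only [Exm_c]
  simp_rw [mul_pow, Real.sq_sqrt (by positivity : (0 : ℝ) ≤ 2 * k)]
  rw [Finset.sum_add_distrib, ← Finset.mul_sum, ← Finset.mul_sum,
    Exm_par e orth (fun a => l a * (p a).1), Exm_par e orth (fun a => l a * (p a).2),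
    ← mul_add, ← Finset.sum_add_distrib]
  congr 1
  refine Finset.sum_congr rfl fun a _ => ?_
  ring

theorem Exm_c_zero {m : ℕ} (e : Fin m → Fin m → ℝ) (l : Fin m → ℝ)
    (one : ∀ a, l a ≠ 0 → ∑ i, e a i = 0) (k : ℝ) (p : Fin m → ℝ × ℝ) :
    ∑ j, (Exm_c e l k p j).re = 0 := by
  simp only [Exm_c]
  rw [← Finset.mul_sum, Finset.sum_comm]
  have : ∀ a, ∑ j, l a * (p a).1 * e a j = 0 := by
    intro a
    rw [← Finset.mul_sum]
    by_cases h : l a = 0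
    · simp [h]
    · rw [one a h, mul_zero]
  simp [this]

/-- the exponent, two ways -/
theorem Exm_exp {m : ℕ} (e : Fin m → Fin m → ℝ) (l : Fin m → ℝ) (k : ℝ) (p : Fin m → ℝ × ℝ)
    (x : Fin m → ℂ) :
    ∑ j, (starRingEnd ℂ (Exm_c e l k p j) * x j).re =
      ∑ a, (√(2 * k) * l a * (∑ j, (e a j : ℂ) * x j).re * (p a).1 +
        √(2 * k) * l a * (∑ j, (e a j : ℂ) * x j).im * (p a).2) := by
  have h1 : ∀ j, (starRingEnd ℂ (Exm_c e l k p j) * x j).re =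
      ∑ a, (√(2 * k) * l a * (e a j * (x j).re) * (p a).1 +
        √(2 * k) * l a * (e a j * (x j).im) * (p a).2) := by
    intro j
    rw [Complex.mul_re]
    simp only [Exm_c, Complex.conj_re, Complex.conj_im]
    rw [Finset.sum_add_distrib, Finset.mul_sum, Finset.mul_sum, Finset.sum_mul, neg_mul,
      Finset.sum_mul, sub_neg_eq_add]
    congr 1
    · exact Finset.sum_congr rfl fun a _ => by ring
    · exact Finset.sum_congr rfl fun a _ => by ring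
  simp_rw [h1]
  rw [Finset.sum_comm]
  refine Finset.sum_congr rfl fun a _ => ?_
  rw [Finset.sum_add_distrib, ← Finset.sum_mul, ← Finset.mul_sum, ← Finset.sum_mul,
    ← Finset.mul_sum]
  congr 1
  · congr 2
    rw [Complex.re_sum]
    exact Finset.sum_congr rfl fun j _ => by simp
  · congr 2
    rw [Complex.im_sum]
    exact Finset.sum_congr rfl fun j _ => by simp

/-- the integrand -/
noncomputable def Exm_F {m : ℕ} (e : Fin m → Fin m → ℝ) (l : Fin m → ℝ) (k ρ : ℝ)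
    (θ : Fin m → ℝ) (p : Fin m → ℝ × ℝ) : ℝ :=
  ∏ j, (Real.exp ((starRingEnd ℂ (Exm_c e l k p j) * pt ρ (θ j)).re) * ‖cw ρ (θ j)‖)

theorem Exm_F_cont {m : ℕ} (e : Fin m → Fin m → ℝ) (l : Fin m → ℝ) (k ρ : ℝ) :
    Continuous (Function.uncurry (Exm_F e l k ρ)) := by
  unfold Function.uncurry Exm_F
  simp only [Complex.mul_re, Exm_c, Complex.conj_re, Complex.conj_im, pt, cw]
  fun_prop

theorem Exm_F_nonneg {m : ℕ} (e : Fin m → Fin m → ℝ) (l : Fin m → ℝ) (k ρ : ℝ)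
    (θ : Fin m → ℝ) (p : Fin m → ℝ × ℝ) : 0 ≤ Exm_F e l k ρ θ p :=
  Finset.prod_nonneg fun _ _ => mul_nonneg (Real.exp_pos _).le (norm_nonneg _)

/-- the bound after the integration over the angles -/
noncomputable def Exm_B {m : ℕ} (l : Fin m → ℝ) (k ρ : ℝ) (p : Fin m → ℝ × ℝ) : ℝ :=
  ∏ a, (mu ρ * (Real.exp (ρ ^ 2 * k * l a ^ 2 * (p a).1 ^ 2 / 2) *
    Real.exp (ρ ^ 2 * k * l a ^ 2 * (p a).2 ^ 2 / 2)))

theorem Exm_F_int1 (h1 : St_Law) {m : ℕ} (e : Fin m → Fin m → ℝ) (l : Fin m → ℝ) (k ρ : ℝ)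
    (p : Fin m → ℝ × ℝ) :
    Integrable (fun θ => Exm_F e l k ρ θ p) (Measure.pi fun _ => nu) := by
  have := h1.1
  refine Integrable.fintype_prod (f := fun j y =>
    Real.exp ((starRingEnd ℂ (Exm_c e l k p j) * pt ρ y).re) * ‖cw ρ y‖) fun j => ?_
  have hc : Continuous fun y : ℝ =>
      Real.exp ((starRingEnd ℂ (Exm_c e l k p j) * pt ρ y).re) * ‖cw ρ y‖ := by
    simp only [pt, cw]
    fun_prop
  unfold nu
  exact Integrable.smul_measure hc.integrableOn_Ioc ENNReal.ofReal_ne_top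

theorem Exm_F_le (h1 : St_Law) (h2 : St_Bes) {m : ℕ} (e : Fin m → Fin m → ℝ) (l : Fin m → ℝ)
    (orth : ∀ a b, ∑ i, e a i * e b i = if a = b then 1 else 0)
    (one : ∀ a, l a ≠ 0 → ∑ i, e a i = 0)
    (k ρ : ℝ) (hk : 0 ≤ k) (hρ : 0 < ρ) (p : Fin m → ℝ × ℝ) :
    ∫ θ, Exm_F e l k ρ θ p ∂(Measure.pi fun _ => nu) ≤ Exm_B l k ρ p := by
  have := h1.1
  have hmu : 0 < mu ρ := by unfold mu; positivity
  unfold Exm_F
  rw [integral_fintype_prod_eq_prod (𝕜 := ℝ) (fun j y =>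
    Real.exp ((starRingEnd ℂ (Exm_c e l k p j) * pt ρ y).re) * ‖cw ρ y‖)]
  calc _ ≤ ∏ j, (mu ρ * Real.exp (ρ ^ 2 * ‖Exm_c e l k p j‖ ^ 2 / 4 +
        ρ * (Exm_c e l k p j).re / (2 * mu ρ))) := by
        refine Finset.prod_le_prod (fun j _ => ?_) fun j _ => h2 ρ _ hρ
        exact integral_nonneg fun y => mul_nonneg (Real.exp_pos _).le (norm_nonneg _)
    _ = Exm_B l k ρ p := by
        unfold Exm_B
        rw [Finset.prod_mul_distrib, Finset.prod_mul_distrib, ← Real.exp_sum]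
        simp_rw [← Real.exp_add]
        rw [← Real.exp_sum]
        congr 2
        rw [Finset.sum_add_distrib]
        have e1 : ∑ j, ρ ^ 2 * ‖Exm_c e l k p j‖ ^ 2 / 4 =
            ρ ^ 2 / 4 * ∑ j, ‖Exm_c e l k p j‖ ^ 2 := by
          rw [Finset.mul_sum]
          exact Finset.sum_congr rfl fun j _ => by ring
        have e2 : ∑ j, ρ * (Exm_c e l k p j).re / (2 * mu ρ) =
            ρ / (2 * mu ρ) * ∑ j, (Exm_c e l k p j).re := by
          rw [Finset.mul_sum]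
          exact Finset.sum_congr rfl fun j _ => by ring
        rw [e1, e2, Exm_c_zero e l one, mul_zero, add_zero, Exm_c_sq e orth l k hk,
          Finset.mul_sum, Finset.mul_sum]
        exact Finset.sum_congr rfl fun a _ => by ring

theorem Exm_B_int {m : ℕ} (l : Fin m → ℝ) (k ρ : ℝ) (hl : ∀ a, ρ ^ 2 * k * l a ^ 2 < 1) :
    Integrable (Exm_B l k ρ)
      (Measure.pi fun _ : Fin m => (gaussianReal 0 1).prod (gaussianReal 0 1)) ∧
    ∫ p, Exm_B l k ρ p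
      ∂(Measure.pi fun _ : Fin m => (gaussianReal 0 1).prod (gaussianReal 0 1)) =
      mu ρ ^ m * ∏ a, (1 - ρ ^ 2 * k * l a ^ 2)⁻¹ := by
  constructor
  · refine Integrable.fintype_prod (f := fun a (y : ℝ × ℝ) =>
      mu ρ * (Real.exp (ρ ^ 2 * k * l a ^ 2 * y.1 ^ 2 / 2) *
        Real.exp (ρ ^ 2 * k * l a ^ 2 * y.2 ^ 2 / 2))) fun a => ?_
    exact ((Exm_gauss _ (hl a)).1.mul_prod (Exm_gauss _ (hl a)).1).const_mul _
  · unfold Exm_B
    rw [integral_fintype_prod_eq_prod (𝕜 := ℝ) (fun a (y : ℝ × ℝ) =>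
      mu ρ * (Real.exp (ρ ^ 2 * k * l a ^ 2 * y.1 ^ 2 / 2) *
        Real.exp (ρ ^ 2 * k * l a ^ 2 * y.2 ^ 2 / 2)))]
    have : ∀ a, ∫ y : ℝ × ℝ, mu ρ * (Real.exp (ρ ^ 2 * k * l a ^ 2 * y.1 ^ 2 / 2) *
        Real.exp (ρ ^ 2 * k * l a ^ 2 * y.2 ^ 2 / 2)) ∂((gaussianReal 0 1).prod (gaussianReal 0 1)) =
        mu ρ * (1 - ρ ^ 2 * k * l a ^ 2)⁻¹ := by
      intro a
      rw [integral_const_mul, integral_prod_mul (L := ℝ)
        (fun y => Real.exp (ρ ^ 2 * k * l a ^ 2 * y ^ 2 / 2))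
        (fun y => Real.exp (ρ ^ 2 * k * l a ^ 2 * y ^ 2 / 2)), (Exm_gauss _ (hl a)).2,
        ← mul_inv, Real.mul_self_sqrt (sub_pos.2 (hl a)).le]
    simp_rw [this]
    rw [Finset.prod_mul_distrib]
    simp

theorem Exm_F_gauss {m : ℕ} (e : Fin m → Fin m → ℝ) (l : Fin m → ℝ) (k ρ : ℝ) (hk : 0 ≤ k)
    (θ : Fin m → ℝ) :
    ∫ p, Exm_F e l k ρ θ p
      ∂(Measure.pi fun _ : Fin m => (gaussianReal 0 1).prod (gaussianReal 0 1)) =
      Real.exp (k * ∑ a, l a ^ 2 * ‖∑ j, (e a j : ℂ) * pt ρ (θ j)‖ ^ 2) *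
        ∏ j, ‖cw ρ (θ j)‖ := by
  unfold Exm_F
  simp_rw [Finset.prod_mul_distrib, ← Real.exp_sum, Exm_exp]
  rw [integral_mul_const]
  congr 1
  simp_rw [Real.exp_sum, Real.exp_add]
  rw [integral_fintype_prod_eq_prod (𝕜 := ℝ) (fun a (y : ℝ × ℝ) =>
      (Real.exp (√(2 * k) * l a * (∑ j, (e a j : ℂ) * pt ρ (θ j)).re * y.1) *
        Real.exp (√(2 * k) * l a * (∑ j, (e a j : ℂ) * pt ρ (θ j)).im * y.2)))]
  rw [Finset.mul_sum, Real.exp_sum]
  refine Finset.prod_congr rfl fun a _ => ?_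
  rw [integral_prod_mul (L := ℝ)
        (fun y => Real.exp (√(2 * k) * l a * (∑ j, (e a j : ℂ) * pt ρ (θ j)).re * y))
        (fun y => Real.exp (√(2 * k) * l a * (∑ j, (e a j : ℂ) * pt ρ (θ j)).im * y)),
    (Exm_mgf _).2, (Exm_mgf _).2, ← Real.exp_add]
  congr 1
  rw [← Complex.normSq_eq_norm_sq, Complex.normSq_apply]
  simp_rw [mul_pow, Real.sq_sqrt (by positivity : (0 : ℝ) ≤ 2 * k)]
  ring

theorem Exm_F_int (h1 : St_Law) (h2 : St_Bes) {m : ℕ} (e : Fin m → Fin m → ℝ) (l : Fin m → ℝ)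
    (orth : ∀ a b, ∑ i, e a i * e b i = if a = b then 1 else 0)
    (one : ∀ a, l a ≠ 0 → ∑ i, e a i = 0)
    (k ρ : ℝ) (hk : 0 ≤ k) (hρ : 0 < ρ) (hl : ∀ a, ρ ^ 2 * k * l a ^ 2 < 1) :
    Integrable (Function.uncurry (Exm_F e l k ρ)) ((Measure.pi fun _ : Fin m => nu).prod
      (Measure.pi fun _ : Fin m => (gaussianReal 0 1).prod (gaussianReal 0 1))) := by
  have := h1.1
  have hm : AEStronglyMeasurable (Function.uncurry (Exm_F e l k ρ))
      ((Measure.pi fun _ : Fin m => nu).prod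
      (Measure.pi fun _ : Fin m => (gaussianReal 0 1).prod (gaussianReal 0 1))) :=
    (Exm_F_cont e l k ρ).aestronglyMeasurable
  rw [integrable_prod_iff' hm]
  refine ⟨Filter.Eventually.of_forall fun p => Exm_F_int1 h1 e l k ρ p, ?_⟩
  refine (Exm_B_int l k ρ hl).1.mono' ?_ (Filter.Eventually.of_forall fun p => ?_)
  · exact hm.prod_swap.norm.integral_prod_right'
  · rw [Real.norm_of_nonneg (integral_nonneg fun _ => norm_nonneg _)]
    have : ∀ θ, ‖Function.uncurry (Exm_F e l k ρ) (θ, p)‖ = Exm_F e l k ρ θ p := fun θ =>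
      Real.norm_of_nonneg (Exm_F_nonneg e l k ρ θ p)
    simp_rw [this]
    exact Exm_F_le h1 h2 e l orth one k ρ hk hρ p

theorem thm_Exm (h1 : St_Law) (h2 : St_Bes) : St_Exm := by
  intro C m E e l h ρ k hρ hk hl
  have := h1.1
  simp_rw [Exm_norm h]
  simp_rw [← Exm_F_gauss e l k ρ hk]
  rw [integral_integral_swap (Exm_F_int h1 h2 e l h.orth h.one k ρ hk hρ hl),
    ← (Exm_B_int l k ρ hl).2]
  refine integral_mono_of_nonneg (Filter.Eventually.of_forall fun p => ?_)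
    (Exm_B_int l k ρ hl).1 (Filter.Eventually.of_forall fun p => ?_)
  · exact integral_nonneg fun θ => Exm_F_nonneg e l k ρ θ p
  · exact Exm_F_le h1 h2 e l h.orth h.one k ρ hk hρ p

end Pool.Agent.PCW
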