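import Pool.Agent.PCW.St

set_option autoImplicit false

/-!
# PCW, statement Exp : polynomial bound for the exponential moments
-/

namespace Pool.Agent.PCW

open Finset Filter MeasureTheory Matrix

private theorem Exp_cw2 (θ : ℝ) : cw 2 θ = ((1 + Real.cos θ : ℝ) : ℂ) := by
  unfold cw
  push_cast
  rw [Complex.cos]
  have h1 : -(θ : ℂ) * Complex.I = -((θ : ℂ) * Complex.I) := neg_mul _ _
  rw [h1]
  ring

private theorem Exp_norm (θ : ℝ) : ((‖cw 2 θ‖ : ℝ) : ℂ) = cw 2 θ := by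
  have h1 : 0 ≤ 1 + Real.cos θ := by linarith [Real.neg_one_le_cos θ]
  rw [Exp_cw2, Complex.norm_real, Real.norm_of_nonneg h1]

private theorem Exp_trans (h4 : St_Jpp) (m : ℕ) (E : Matrix (Fin m) (Fin m) ℝ) (k : ℝ) :
    ∫ θ, Real.exp (k * ∑ i, ‖xj E (xx θ) i‖ ^ 2) ∂(PP (Fin m)) =
    ∫ θ : Fin m → ℝ, Real.exp (k * ∑ i, ‖xj E (fun j => pt 2 (θ j)) i‖ ^ 2) * ∏ j, ‖cw 2 (θ j)‖
      ∂(Measure.pi fun _ => nu) := by
  have hF : Continuous (fun x : Fin m → ℂ =>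
      ((Real.exp (k * ∑ i, ‖xj E x i‖ ^ 2) : ℝ) : ℂ)) := by
    unfold xj
    fun_prop
  have h := h4 (Fin m) _ hF
  unfold JJ at h
  apply Complex.ofReal_injective
  rw [← integral_complex_ofReal, ← integral_complex_ofReal]
  refine Eq.trans h.symm ?_
  congr 1
  funext θ
  push_cast
  rw [mul_comm]
  congr 1
  exact Finset.prod_congr rfl (fun j _ => (Exp_norm (θ j)).symm)

private theorem Exp_inv {x : ℝ} (h0 : 0 ≤ x) (h1 : x ≤ 0.9) : (1 - x)⁻¹ ≤ Real.exp (10 * x) := by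
  have h2 : 0 < 1 - x := by norm_num at h1 ⊢; linarith
  have h3 : (1 - x)⁻¹ ≤ 10 * x + 1 := by
    rw [inv_le_iff_one_le_mul₀ h2]
    have h4 : 0 ≤ x * (9 - 10 * x) := mul_nonneg h0 (by norm_num at h1; linarith)
    linarith
  exact h3.trans (Real.add_one_le_exp _)

/-- [Exp] -/
theorem thm_Exp (h1 : St_Law) (h2 : St_Spe) (h3 : St_Exm) (h4 : St_Jpp) : St_Exp := by
  have _ := h1
  intro C hC
  refine ⟨⌈32 * C⌉₊, ?_⟩
  filter_upwards [eventually_ge_atTop 1] with m hm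
  intro E hE k hk0 hk1
  obtain ⟨e, l, hSp, -⟩ := h2 C m E hm hE
  have hl0 : ∀ a, 0 ≤ (2 : ℝ) ^ 2 * k * l a ^ 2 := fun a => by positivity
  have hl : ∀ a, (2 : ℝ) ^ 2 * k * l a ^ 2 ≤ 0.9 := by
    intro a
    have h5 : l a ^ 2 ≤ 0.53 ^ 2 := by
      rw [← sq_abs]
      exact pow_le_pow_left₀ (abs_nonneg _) (hSp.small a) 2
    have h6 : k * l a ^ 2 ≤ 0.8 * 0.53 ^ 2 := mul_le_mul hk1 h5 (sq_nonneg _) (by norm_num)
    have h7 : (2 : ℝ) ^ 2 * k * l a ^ 2 = 4 * (k * l a ^ 2) := by ring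
    rw [h7]
    norm_num at h6 ⊢
    linarith
  have h5 := h3 C m E e l hSp 2 k (by norm_num) hk0
    (fun a => (hl a).trans_lt (by norm_num))
  rw [Exp_trans h4 m E k]
  have hmu : mu 2 = 1 := by unfold mu; norm_num
  rw [hmu, one_pow, one_mul] at h5
  refine h5.trans ?_
  have hm1 : (1 : ℝ) ≤ m := by exact_mod_cast hm
  have hm0 : (0 : ℝ) < m := by linarith
  have h6 : ∏ a, (1 - (2 : ℝ) ^ 2 * k * l a ^ 2)⁻¹ ≤
      ∏ a, Real.exp (10 * ((2 : ℝ) ^ 2 * k * l a ^ 2)) := by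
    apply Finset.prod_le_prod
    · intro a _
      have h9 := hl a
      norm_num at h9
      exact inv_nonneg.2 (by norm_num; linarith)
    · intro a _
      exact Exp_inv (hl0 a) (hl a)
  refine h6.trans ?_
  rw [← Real.exp_sum, ← Finset.mul_sum, ← Finset.mul_sum]
  have h7 : 10 * ((2 : ℝ) ^ 2 * k * ∑ a, l a ^ 2) ≤ Real.log m * ⌈32 * C⌉₊ := by
    have h8 : ∑ a, l a ^ 2 ≤ C * Real.log m := hSp.two
    have h9 : 0 ≤ ∑ a, l a ^ 2 := Finset.sum_nonneg (fun a _ => sq_nonneg _)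
    have h10 : k * ∑ a, l a ^ 2 ≤ 0.8 * (C * Real.log m) :=
      mul_le_mul hk1 h8 h9 (by norm_num)
    have h11 : 32 * C ≤ ⌈32 * C⌉₊ := Nat.le_ceil _
    have h12 : 0 ≤ Real.log m := Real.log_nonneg hm1
    have h13 : Real.log m * (32 * C) ≤ Real.log m * ⌈32 * C⌉₊ :=
      mul_le_mul_of_nonneg_left h11 h12
    have h14 : 10 * ((2 : ℝ) ^ 2 * k * ∑ a, l a ^ 2) = 40 * (k * ∑ a, l a ^ 2) := by ring
    have h15 : (40 : ℝ) * (0.8 * (C * Real.log m)) = Real.log m * (32 * C) := by ring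
    rw [h14]
    linarith
  refine (Real.exp_le_exp.2 h7).trans ?_
  rw [Real.exp_mul, Real.exp_log hm0, Real.rpow_natCast]

end Pool.Agent.PCW
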