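import Pool.Agent.PCW.St

set_option autoImplicit false

/-! # PCW, module Fac: factorisation of `L₀` -/

namespace Pool.Agent.PCW

open Finset Filter MeasureTheory Matrix

private theorem Fac_sym {m : ℕ} (E : Matrix (Fin m) (Fin m) ℝ) {α β : ℝ} (hα : 0 < α) (hβ : 0 < β)
    (v w : V m) :
    √(1 / (α * β)) * √(al α β v) * √(al α β w) * Eb E v w = Eb E v w := by
  have h1 : √(1 / (α * β)) * (√α * √β) = 1 := by
    rw [← Real.sqrt_mul hα.le, ← Real.sqrt_mul (by positivity), one_div,
      inv_mul_cancel₀ (by positivity), Real.sqrt_one]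
  rcases v with i | i <;> rcases w with j | j
  · simp [Eb]
  · simp only [al, Sum.elim_inl, Sum.elim_inr]
    rw [show √(1 / (α * β)) * √α * √β = √(1 / (α * β)) * (√α * √β) by ring, h1, one_mul]
  · simp only [al, Sum.elim_inl, Sum.elim_inr]
    rw [show √(1 / (α * β)) * √β * √α = √(1 / (α * β)) * (√α * √β) by ring, h1, one_mul]
  · simp [Eb]

theorem thm_Fac : St_Fac := by
  intro m E α β x hα hβ hd hP
  have hsym := Fac_sym E hα hβ
  set t := √(1 / (α * β)) with ht
  set P := (1 - t • Eb E) with hPdef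
  have hV : VV E (1 / (α * β)) = (t • Eb E) * P⁻¹ := rfl
  have h1 : P * VV E (1 / (α * β)) = t • Eb E := by
    have h2 : P * (t • Eb E) = (t • Eb E) * P := by
      rw [hPdef, sub_mul, mul_sub, one_mul, mul_one]
    rw [hV, ← mul_assoc, h2, mul_assoc, hP, mul_one]
  have h1c : P.map (fun r : ℝ => (r : ℂ)) * (VV E (1 / (α * β))).map (fun r : ℝ => (r : ℂ)) =
      (t • Eb E).map (fun r : ℝ => (r : ℂ)) := by
    rw [← h1]
    exact (Matrix.map_mul (f := Complex.ofRealHom)).symm
  have hal : ∀ v : V m, 0 < al α β v := by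
    intro v
    rcases v with i | i
    · simpa [al] using hα
    · simpa [al] using hβ
  have hs : ∀ v : V m, (√(al α β v) : ℂ) * (√(al α β v) : ℂ) = (al α β v : ℂ) := by
    intro v
    exact_mod_cast Real.mul_self_sqrt (hal v).le
  have hs0 : ∀ v : V m, (√(al α β v) : ℂ) ≠ 0 := by
    intro v
    exact_mod_cast (Real.sqrt_pos.2 (hal v)).ne'
  rw [mul_sub, mul_one, ← mul_assoc, h1c]
  ext v w
  rw [Matrix.mul_diagonal, Matrix.diagonal_mul, Matrix.sub_apply, Matrix.mul_diagonal]
  simp only [L0, Matrix.sub_apply, Matrix.mul_diagonal, Matrix.map_apply, hPdef, Matrix.smul_apply,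
    smul_eq_mul, Matrix.one_apply, Matrix.diagonal_apply]
  have h3 := hsym v w
  have h3c : (t : ℂ) * (√(al α β v) : ℂ) * (√(al α β w) : ℂ) * (Eb E v w : ℂ) = (Eb E v w : ℂ) := by
    exact_mod_cast h3
  have hdw := hd w
  have hsw := hs0 w
  have hw := hs w
  by_cases hvw : v = w
  · subst hvw
    rw [if_pos rfl, if_pos rfl]
    push_cast
    field_simp
    rw [← hw]
    have h4 : (Eb E v v : ℂ) = 0 := by
      rcases v with i | i <;> simp [Eb]
    rw [h4]
    ring
  · rw [if_neg hvw, if_neg hvw]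
    push_cast
    have h5 : (√(al α β v) : ℂ) * (0 - (t : ℂ) * (Eb E v w : ℂ) - (t : ℂ) * (Eb E v w : ℂ) *
        (x w * (al α β w : ℂ) / dv E α β x w - 1)) *
        (dv E α β x w / (√(al α β w) : ℂ)) =
        -((t : ℂ) * (√(al α β v) : ℂ) * (√(al α β w) : ℂ) * (Eb E v w : ℂ)) * x w := by
      rw [← hw]
      field_simp
      ring
    rw [h5, h3c]
    ring

end Pool.Agent.PCW
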