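import Mathlib
import Pool.Agent.PCW.St

set_option autoImplicit false

/-!
# PCW: the far region (helper9)
-/

namespace Pool.Agent.PCW

open Finset Filter MeasureTheory Matrix

private theorem Far_pt (ρ θ : ℝ) (h : 0 ≤ ρ) : ‖pt ρ θ‖ = ρ := by
  unfold pt
  rw [norm_mul, Complex.norm_exp_ofReal_mul_I, Complex.norm_real, Real.norm_of_nonneg h, mul_one]

private theorem Far_ptc (ρ : ℝ) : Continuous fun θ : ℝ => pt ρ θ := by
  unfold pt
  fun_prop

private theorem Far_cwc (ρ : ℝ) : Continuous fun θ : ℝ => cw ρ θ := by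
  unfold cw
  fun_prop

/-- the one-sided integrand -/
private noncomputable def Far_f {m : ℕ} (E : Matrix (Fin m) (Fin m) ℝ) (κ ρ α : ℝ) (θ : Fin m → ℝ) : ℝ :=
  (∏ i, √(‖(α : ℂ) + xj E (fun j => pt ρ (θ j)) i‖ ^ 2 + κ)) * ∏ j, ‖cw ρ (θ j)‖

private theorem Far_fc {m : ℕ} (E : Matrix (Fin m) (Fin m) ℝ) (κ ρ α : ℝ) :
    Continuous (Far_f E κ ρ α) := by
  have h1 : ∀ j : Fin m, Continuous fun θ : Fin m → ℝ => pt ρ (θ j) := fun j =>
    (Far_ptc ρ).comp (continuous_apply j)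
  have h2 : ∀ j : Fin m, Continuous fun θ : Fin m → ℝ => cw ρ (θ j) := fun j =>
    (Far_cwc ρ).comp (continuous_apply j)
  unfold Far_f xj
  refine Continuous.mul (continuous_finsetProd _ fun i _ => ?_)
    (continuous_finsetProd _ fun j _ => (h2 j).norm)
  refine Continuous.sqrt (Continuous.add (Continuous.pow (Continuous.norm ?_) 2) continuous_const)
  exact continuous_const.add (continuous_finsetSum _ fun j _ => continuous_const.mul (h1 j))

private theorem Far_f0 {m : ℕ} (E : Matrix (Fin m) (Fin m) ℝ) (κ ρ α : ℝ) (θ : Fin m → ℝ) :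
    0 ≤ Far_f E κ ρ α θ :=
  mul_nonneg (prod_nonneg fun _ _ => Real.sqrt_nonneg _) (prod_nonneg fun _ _ => norm_nonneg _)

private theorem Far_fb (h1 : St_Law) {m : ℕ} (E : Matrix (Fin m) (Fin m) ℝ) (κ ρ α : ℝ) (hρ : 0 < ρ) :
    ∃ K : ℝ, ∀ θ, Far_f E κ ρ α θ ≤ K := by
  refine ⟨(∏ i, √((|α| + ∑ j, |E i j| * ρ) ^ 2 + κ)) * ∏ _j : Fin m, (mu ρ + 1), fun θ => ?_⟩
  unfold Far_f
  refine mul_le_mul (prod_le_prod (fun _ _ => Real.sqrt_nonneg _) fun i _ => ?_)
    (prod_le_prod (fun _ _ => norm_nonneg _) fun j _ => ?_) (prod_nonneg fun _ _ => norm_nonneg _)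
    (prod_nonneg fun _ _ => Real.sqrt_nonneg _)
  · refine Real.sqrt_le_sqrt ?_
    have : ‖(α : ℂ) + xj E (fun j => pt ρ (θ j)) i‖ ≤ |α| + ∑ j, |E i j| * ρ := by
      refine (norm_add_le _ _).trans (add_le_add ?_ ?_)
      · rw [Complex.norm_real]
        exact le_of_eq (Real.norm_eq_abs α)
      · unfold xj
        refine (norm_sum_le _ _).trans (sum_le_sum fun j _ => ?_)
        rw [norm_mul, Far_pt ρ _ hρ.le, Complex.norm_real, Real.norm_eq_abs]
    have h0 := norm_nonneg ((α : ℂ) + xj E (fun j => pt ρ (θ j)) i)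
    nlinarith
  · rw [h1.2.2.1 ρ (θ j) hρ]
    linarith [Real.cos_le_one (θ j)]

private theorem Far_row {C : ℝ} {m : ℕ} {E : Matrix (Fin m) (Fin m) ℝ} (hE : Hyp C m E) (hm : 0 < m)
    (i : Fin m) (ρ : ℝ) (hρ0 : 0 < ρ) (hρ : ρ ≤ 2) :
    ∑ j, BB E i j ^ 2 * ρ ^ 2 ≤ 4 * (C * Real.log m + 1) / m := by
  have hm' : (0 : ℝ) < m := by exact_mod_cast hm
  have h1 : ∑ j, BB E i j ^ 2 = ∑ j, E i j ^ 2 + 1 / m := by
    have : ∀ j, BB E i j ^ 2 = E i j ^ 2 + 2 / m * E i j + 1 / (m : ℝ) ^ 2 := by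
      intro j
      unfold BB
      ring
    rw [sum_congr rfl fun j _ => this j, sum_add_distrib, sum_add_distrib, ← mul_sum, hE.row i]
    rw [sum_const, card_univ, Fintype.card_fin, nsmul_eq_mul]
    field_simp
    ring
  rw [← sum_mul, h1]
  have h2 := hE.sq i
  have h3 : 4 * (C * Real.log m + 1) / m = (C * Real.log m / m + 1 / m) * 4 := by ring
  rw [h3]
  have h4 : ρ ^ 2 ≤ 4 := by nlinarith
  have h5 : 0 ≤ ∑ j, E i j ^ 2 + 1 / (m : ℝ) :=
    add_nonneg (sum_nonneg fun _ _ => sq_nonneg _) (by positivity)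
  exact mul_le_mul (by linarith) h4 (sq_nonneg _) (by linarith)

theorem thm_Far (h1 : St_Law) (h2 : St_Rad) (h3 : St_Fub) (h4 : St_Psb) (h5 : St_Fxa) : St_Far := by
  intro C hC
  obtain ⟨C', hC'⟩ := h5 C hC
  haveI := h1.1
  refine ⟨2 * C' + 2, ?_⟩
  filter_upwards [hC', eventually_ge_atTop 4] with m hm hm4 E hE α β hα hβ
  have hm0 : 0 < m := by omega
  have hmR : (4 : ℝ) ≤ m := by exact_mod_cast hm4
  obtain ⟨ρa, ha0, ha2, hA⟩ := hm E hE α hα
  obtain ⟨ρb, hb0, hb2, hB⟩ := hm E hE β hβ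
  set κ : ℝ := 4 * (C * Real.log m + 1) / m with hκ
  set r : V m → ℝ := Sum.elim (fun _ => ρb) (fun _ => ρa) with hr
  have hr0 : ∀ v, 0 < r v := by
    rintro (i | i)
    · exact hb0
    · exact ha0
  have hH : HH E α β = JJ r (Psi E α β) := (h2 m E α β r hr0).symm
  -- the pointwise bound
  have key : ∀ θ : V m → ℝ, ‖(∏ v, cw (r v) (θ v)) * Psi E α β (fun v => pt (r v) (θ v))‖ ≤
      4 * m * (Far_f E κ ρb β (fun i => θ (Sum.inl i)) * Far_f E κ ρa α (fun i => θ (Sum.inr i))) := by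
    intro θ
    set x : V m → ℂ := fun v => pt (r v) (θ v) with hx
    have e1 : ∏ v, √(‖dv E α β x v‖ ^ 2 + ∑ w, Bb E v w ^ 2 * ‖x w‖ ^ 2) ≤
        (∏ i, √(‖(α : ℂ) + xj E (fun j => pt ρa (θ (Sum.inr j))) i‖ ^ 2 + κ)) *
        ∏ i, √(‖(β : ℂ) + xj E (fun j => pt ρb (θ (Sum.inl j))) i‖ ^ 2 + κ) := by
      rw [Fintype.prod_sum_type]
      refine mul_le_mul (prod_le_prod (fun _ _ => Real.sqrt_nonneg _) fun i _ => ?_)
        (prod_le_prod (fun _ _ => Real.sqrt_nonneg _) fun i _ => ?_)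
        (prod_nonneg fun _ _ => Real.sqrt_nonneg _) (prod_nonneg fun _ _ => Real.sqrt_nonneg _)
      · refine Real.sqrt_le_sqrt (add_le_add (le_of_eq ?_) ?_)
        · congr 2
          unfold dv xi al Eb xj
          rw [Fintype.sum_sum_type]
          simp [hx, hr]
        · refine le_trans (le_of_eq ?_) (Far_row hE hm0 i ρa ha0 ha2)
          unfold Bb
          rw [Fintype.sum_sum_type]
          simp [hx, hr, Far_pt _ _ ha0.le]
      · refine Real.sqrt_le_sqrt (add_le_add (le_of_eq ?_) ?_)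
        · congr 2
          unfold dv xi al Eb xj
          rw [Fintype.sum_sum_type]
          simp [hx, hr]
        · refine le_trans (le_of_eq ?_) (Far_row hE hm0 i ρb hb0 hb2)
          unfold Bb
          rw [Fintype.sum_sum_type]
          simp [hx, hr, Far_pt _ _ hb0.le]
    have e2 : ‖∏ v, cw (r v) (θ v)‖ = (∏ i, ‖cw ρb (θ (Sum.inl i))‖) * ∏ i, ‖cw ρa (θ (Sum.inr i))‖ := by
      rw [norm_prod, Fintype.prod_sum_type]
      simp [hr]
    rw [norm_mul, e2]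
    have e3 := (h4 m E α β x).trans (mul_le_mul_of_nonneg_left e1 (by positivity))
    have e4 : 0 ≤ (∏ i, ‖cw ρb (θ (Sum.inl i))‖) * ∏ i, ‖cw ρa (θ (Sum.inr i))‖ :=
      mul_nonneg (prod_nonneg fun _ _ => norm_nonneg _) (prod_nonneg fun _ _ => norm_nonneg _)
    refine (mul_le_mul_of_nonneg_left e3 e4).trans (le_of_eq ?_)
    unfold Far_f
    ring
  -- the integral
  obtain ⟨Ka, hKa⟩ := Far_fb h1 E κ ρa α ha0
  obtain ⟨Kb, hKb⟩ := Far_fb h1 E κ ρb β hb0
  have hint : Integrable (fun θ : V m → ℝ =>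
      4 * (m : ℝ) * (Far_f E κ ρb β (fun i => θ (Sum.inl i)) * Far_f E κ ρa α (fun i => θ (Sum.inr i))))
      (Measure.pi fun _ => nu) := by
    refine Integrable.of_bound (C := 4 * m * (Kb * Ka)) (Continuous.aestronglyMeasurable ?_)
      (Eventually.of_forall fun θ => ?_)
    · refine continuous_const.mul (Continuous.mul ((Far_fc E κ ρb β).comp ?_)
        ((Far_fc E κ ρa α).comp ?_))
      · exact continuous_pi fun i => continuous_apply _
      · exact continuous_pi fun i => continuous_apply _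
    · rw [Real.norm_of_nonneg]
      · refine mul_le_mul_of_nonneg_left ?_ (by positivity)
        exact mul_le_mul (hKb _) (hKa _) (Far_f0 _ _ _ _ _) ((Far_f0 _ _ _ _ _).trans (hKb fun i => θ (Sum.inl i)))
      · exact mul_nonneg (by positivity) (mul_nonneg (Far_f0 _ _ _ _ _) (Far_f0 _ _ _ _ _))
  have hJ : ‖JJ r (Psi E α β)‖ ≤ 4 * m * ((∫ θ, Far_f E κ ρb β θ ∂(Measure.pi fun _ => nu)) *
      ∫ θ, Far_f E κ ρa α θ ∂(Measure.pi fun _ => nu)) := by
    rw [← (h3 m nu).2 (Far_f E κ ρb β) (Far_f E κ ρa α), ← integral_const_mul]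
    unfold JJ
    refine (norm_integral_le_integral_norm _).trans ?_
    exact integral_mono_of_nonneg (Eventually.of_forall fun θ => norm_nonneg _) hint
      (Eventually.of_forall key)
  rw [hH]
  have hA' : Real.exp (-(m * α)) * ∫ θ, Far_f E κ ρa α θ ∂(Measure.pi fun _ => nu) ≤
      (m : ℝ) ^ C' * Real.exp (-m) * Real.exp (-(1 / 50) * m * gg α) := hA
  have hB' : Real.exp (-(m * β)) * ∫ θ, Far_f E κ ρb β θ ∂(Measure.pi fun _ => nu) ≤
      (m : ℝ) ^ C' * Real.exp (-m) * Real.exp (-(1 / 50) * m * gg β) := hB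
  have hA0 : 0 ≤ Real.exp (-(m * α)) * ∫ θ, Far_f E κ ρa α θ ∂(Measure.pi fun _ => nu) :=
    mul_nonneg (Real.exp_pos _).le (integral_nonneg fun θ => Far_f0 _ _ _ _ _)
  have hB0 : 0 ≤ Real.exp (-(m * β)) * ∫ θ, Far_f E κ ρb β θ ∂(Measure.pi fun _ => nu) :=
    mul_nonneg (Real.exp_pos _).le (integral_nonneg fun θ => Far_f0 _ _ _ _ _)
  have hprod := mul_le_mul hB' hA' hA0 (hB0.trans hB')
  have e5 : Real.exp (-(m * (α + β))) = Real.exp (-(m * α)) * Real.exp (-(m * β)) := by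
    rw [← Real.exp_add]
    ring_nf
  have e6 : Real.exp (-(2 * m)) = Real.exp (-(m : ℝ)) * Real.exp (-(m : ℝ)) := by
    rw [← Real.exp_add]
    ring_nf
  have e7 : Real.exp (-(1 / 50) * m * (gg α + gg β)) =
      Real.exp (-(1 / 50) * m * gg α) * Real.exp (-(1 / 50) * m * gg β) := by
    rw [← Real.exp_add]
    ring_nf
  have e8 : 4 * (m : ℝ) ≤ m ^ 2 := by nlinarith
  calc Real.exp (-(m * (α + β))) * ‖JJ r (Psi E α β)‖
      ≤ Real.exp (-(m * (α + β))) * (4 * m * ((∫ θ, Far_f E κ ρb β θ ∂(Measure.pi fun _ => nu)) *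
      ∫ θ, Far_f E κ ρa α θ ∂(Measure.pi fun _ => nu))) :=
        mul_le_mul_of_nonneg_left hJ (Real.exp_pos _).le
    _ = 4 * m * ((Real.exp (-(m * β)) * ∫ θ, Far_f E κ ρb β θ ∂(Measure.pi fun _ => nu)) *
        (Real.exp (-(m * α)) * ∫ θ, Far_f E κ ρa α θ ∂(Measure.pi fun _ => nu))) := by
        rw [e5]
        ring
    _ ≤ m ^ 2 * (((m : ℝ) ^ C' * Real.exp (-m) * Real.exp (-(1 / 50) * m * gg β)) *
        ((m : ℝ) ^ C' * Real.exp (-m) * Real.exp (-(1 / 50) * m * gg α))) :=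
        mul_le_mul e8 hprod (mul_nonneg hB0 hA0) (by positivity)
    _ = _ := by
        rw [e6, e7, pow_add, pow_mul]
        ring

end Pool.Agent.PCW
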