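import Mathlib
import Pool.Agent.PCW.St
import Pool.Agent.PCW.StN

set_option autoImplicit false

/-! PCW Fin: the final theorem from Theorem A and the counting statements. -/

namespace Pool.Agent.PCW

open Finset Filter
open Pool.Agent.PCX (wdeg)
open Pool.Agent.PCZ (Bd Entropies IsScaling)
open Pool.Agent.PrimeCircle (numPrimeCircles)

private theorem Fin_stirling {m : ℕ} (hm : 1 ≤ m) :
    (m.factorial : ℝ) ^ 2 * Real.exp (2 * m) / (2 * Real.pi * (m : ℝ) ^ (2 * m + 1)) =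
      Stirling.stirlingSeq m ^ 2 / Real.pi := by
  have hm0 : (0 : ℝ) < m := by exact_mod_cast hm
  have hpi : Real.pi ≠ 0 := Real.pi_ne_zero
  unfold Stirling.stirlingSeq
  have h1 : (√(2 * (m : ℝ))) ^ 2 = 2 * m := Real.sq_sqrt (by positivity)
  have h3 : (((m : ℝ) / Real.exp 1) ^ m) ^ 2 = (m : ℝ) ^ (2 * m) / Real.exp (2 * m) := by
    rw [← pow_mul, div_pow, ← Real.exp_nat_mul, mul_comm m 2]
    push_cast
    ring_nf
  rw [div_pow, mul_pow, h1, h3]
  have h4 : Real.exp (2 * m) ≠ 0 := (Real.exp_pos _).ne'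
  field_simp
  ring

theorem thm_Fin (hI : St_Int) (hX : St_Hyx) (hC : St_Cnt) (hM : St_Hmx)
    (hE : Pool.Agent.PCZ.Stmt_Exi) (hU : Pool.Agent.PCZ.Stmt_Uni)
    (hS : Pool.Agent.PCZ.Stmt_Sc) : St_Fin := by
  intro ε hε
  obtain ⟨C, hC0, hE⟩ := hE
  obtain ⟨C₁, hC₁, hX⟩ := hX C hC0
  have hst : Tendsto (fun m : ℕ => Stirling.stirlingSeq m ^ 2 / Real.pi) atTop (nhds 1) := by
    have h1 := (Stirling.tendsto_stirlingSeq_sqrt_pi.pow 2).div_const Real.pi
    rw [Real.sq_sqrt Real.pi_pos.le, div_self Real.pi_ne_zero] at h1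
    exact h1
  have hst1 : ∀ᶠ m : ℕ in atTop, |Stirling.stirlingSeq m ^ 2 / Real.pi - 1| ≤ min (ε / 4) 1 := by
    have h2 := (Metric.tendsto_nhds.1 hst) (min (ε / 4) 1) (lt_min (by positivity) one_pos)
    filter_upwards [h2] with m h
    rw [Real.dist_eq] at h
    exact h.le
  have hlog : Tendsto (fun m : ℕ => Real.log m) atTop atTop :=
    Real.tendsto_log_atTop.comp tendsto_natCast_atTop_atTop
  filter_upwards [hE, hX, hI C₁ hC₁ (ε / 4) (by positivity), hst1, eventually_ge_atTop 2,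
    hlog.eventually_ge_atTop 1] with m hE hX hI hst hm hL1
  obtain ⟨x, hx, hx1⟩ := hE
  have hm0 : (0 : ℝ) < m := by positivity
  have hρ : 0 < √(Real.log m / m) := Real.sqrt_pos.2 (by positivity)
  have hxpos : ∀ i < m, 0 < x i := fun i hi => lt_of_lt_of_le (by positivity) (hx i hi).1
  obtain ⟨hs1, hs2⟩ := hS m x hxpos hx1
  have hw0 : IsScaling m (fun a => x ((a - 1) / 2)) := hs1
  have hA := hI (Ex m x) (hX x hx hx1)
  rw [hM m x (by omega)] at hA
  have hcount : (Nat.card (Pool.Agent.PC.HP m) : ℝ) = 2 * numPrimeCircles m := by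
    rw [← hC m hm]
    push_cast
    ring
  rw [hcount] at hA
  refine ⟨-2 * ∑ i ∈ range m, Real.log (x i), Pool.Agent.PCZ.Ent_greatest m x hxpos hx1,
    ⟨_, hw0⟩, ?_, ?_⟩
  · intro w hw
    have key : ∀ w : ℕ → ℝ, IsScaling m w → ∀ a ∈ Icc 1 (2 * m), 0 < w a ∧
        w a * (∑ b ∈ Icc 1 (2 * m), @ite ℝ (b ≠ a ∧ (a + b).Prime)
          (Classical.propDecidable _) (w b) 0) = 1 := by
      intro w hw a ha
      refine ⟨(hw a ha).1, ?_⟩
      refine Eq.trans ?_ (hw a ha).2
      congr 1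
      rw [Finset.sum_filter]
      refine Finset.sum_congr rfl fun b _ => ?_
      by_cases h : b ≠ a ∧ (a + b).Prime
      · rw [if_pos h, if_pos h]
      · rw [if_neg h, if_neg h]
    rw [hU (Icc 1 (2 * m)) (fun a b => b ≠ a ∧ (a + b).Prime)
      (fun a b h => ⟨h.1.symm, by rw [add_comm]; exact h.2⟩) w _ (key w hw) (key _ hw0), hs2]
    ring
  · set N : ℝ := (numPrimeCircles m : ℝ) with hN
    set P : ℝ := ∏ i ∈ range m, x i ^ 4 with hP
    have hPpos : 0 < P := Finset.prod_pos fun i hi => pow_pos (hxpos i (mem_range.1 hi)) 4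
    have hexp : Real.exp (2 * (-2 * ∑ i ∈ range m, Real.log (x i)) - 2 * m) =
        P⁻¹ * (Real.exp (2 * m))⁻¹ := by
      rw [sub_eq_add_neg, Real.exp_add, Real.exp_neg]
      congr 1
      have h1 : Real.log P = 4 * ∑ i ∈ range m, Real.log (x i) := by
        rw [hP, Real.log_prod (fun i hi => (pow_pos (hxpos i (mem_range.1 hi)) 4).ne'),
          Finset.mul_sum]
        refine Finset.sum_congr rfl fun i _ => ?_
        rw [Real.log_pow]
        push_cast
        ring
      rw [show 2 * (-2 * ∑ i ∈ range m, Real.log (x i)) = -Real.log P by rw [h1]; ring,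
        Real.exp_neg, Real.exp_log hPpos]
    rw [hexp]
    set A : ℝ := 2 * N * P * (m : ℝ) ^ (2 * m + 1) / (m.factorial : ℝ) ^ 2 with hAdef
    set S : ℝ := Stirling.stirlingSeq m ^ 2 / Real.pi with hSdef
    have hfac : (m.factorial : ℝ) ≠ 0 := by exact_mod_cast m.factorial_ne_zero
    have hmul : N / (Real.pi * (P⁻¹ * (Real.exp (2 * m))⁻¹)) = A * S := by
      rw [hSdef, ← Fin_stirling (by omega), hAdef]
      have h4 : Real.exp (2 * m) ≠ 0 := (Real.exp_pos _).ne'
      have hpi : Real.pi ≠ 0 := Real.pi_ne_zero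
      field_simp
    rw [hmul]
    have hA' : |A - 1| ≤ ε / 4 := hA
    have hS' : |S - 1| ≤ ε / 4 := hst.trans (min_le_left _ _)
    have hS'' : |S - 1| ≤ 1 := hst.trans (min_le_right _ _)
    have hSabs : |S| ≤ 2 := by
      have := abs_add_le (S - 1) 1
      rw [sub_add_cancel, abs_one] at this
      linarith
    calc |A * S - 1| = |(A - 1) * S + (S - 1)| := by ring_nf
      _ ≤ |(A - 1) * S| + |S - 1| := abs_add_le _ _
      _ = |A - 1| * |S| + |S - 1| := by rw [abs_mul]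
      _ ≤ (ε / 4) * 2 + ε / 4 := by gcongr
      _ ≤ ε := by linarith

end Pool.Agent.PCW
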