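import Pool.Agent.PCW.St

/-!
# PCW, Fub: the two sides are independent
-/

set_option autoImplicit false

namespace Pool.Agent.PCW

open Finset Filter MeasureTheory Matrix

private theorem Fub_gen {L : Type} [RCLike L] (m : ℕ) (μ : Measure ℝ) [IsProbabilityMeasure μ]
    (F G : (Fin m → ℝ) → L) :
    ∫ θ : V m → ℝ, F (fun i => θ (Sum.inl i)) * G (fun i => θ (Sum.inr i))
      ∂(Measure.pi fun _ => μ) =
      (∫ θ, F θ ∂(Measure.pi fun _ => μ)) * ∫ θ, G θ ∂(Measure.pi fun _ => μ) := by
  have hmp := MeasureTheory.measurePreserving_sumPiEquivProdPi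
    (X := fun _ : V m => ℝ) (fun _ : V m => μ)
  rw [← integral_prod_mul F G]
  exact hmp.integral_comp' (fun z : (Fin m → ℝ) × (Fin m → ℝ) => F z.1 * G z.2)

/-- The two sides are independent. -/
theorem thm_Fub : St_Fub := by
  intro m μ _
  exact ⟨fun F G => Fub_gen m μ F G, fun F G => Fub_gen m μ F G⟩

end Pool.Agent.PCW
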