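import Mathlib
import Pool.Agent.PCW.St
import Pool.Agent.PCW.Exm

set_option autoImplicit false

/-!
# PCW Gau: facts on Gaussian vectors (helper35)
-/

namespace Pool.Agent.PCW

open Finset MeasureTheory ProbabilityTheory Filter

theorem Gau_lin {ι : Type} [Fintype ι] (c : ι → ℝ) :
    Integrable (fun g : ι → ℝ => Real.exp (∑ a, c a * g a))
      (Measure.pi fun _ => gaussianReal 0 1) ∧
    ∫ g : ι → ℝ, Real.exp (∑ a, c a * g a) ∂(Measure.pi fun _ => gaussianReal 0 1) =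
      Real.exp ((∑ a, c a ^ 2) / 2) := by
  simp_rw [Real.exp_sum]
  constructor
  · exact Integrable.fintype_prod (f := fun a y => Real.exp (c a * y)) fun a => (Exm_mgf _).1
  · rw [integral_fintype_prod_eq_prod (𝕜 := ℝ) (fun a y => Real.exp (c a * y))]
    simp_rw [(Exm_mgf _).2]
    rw [← Real.exp_sum, Finset.sum_div]

theorem Gau_tail {ι : Type} [Fintype ι] (c : ι → ℝ) (v δ : ℝ) (hv : 0 < v) (hδ : 0 ≤ δ)
    (hc : ∑ a, c a ^ 2 ≤ v) :
    (Measure.pi fun _ : ι => gaussianReal 0 1).real {g | δ ≤ ∑ a, c a * g a} ≤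
      Real.exp (-(δ ^ 2 / (2 * v))) := by
  have h1 : Integrable (fun g : ι → ℝ => Real.exp (δ / v * ∑ a, c a * g a))
      (Measure.pi fun _ => gaussianReal 0 1) := by
    have := (Gau_lin (fun a => δ / v * c a)).1
    simpa only [Finset.mul_sum, mul_assoc] using this
  have h2 : ∫ g : ι → ℝ, Real.exp (δ / v * ∑ a, c a * g a)
      ∂(Measure.pi fun _ => gaussianReal 0 1) = Real.exp ((δ / v) ^ 2 * (∑ a, c a ^ 2) / 2) := by
    have := (Gau_lin (fun a => δ / v * c a)).2
    simp only [mul_pow, ← Finset.mul_sum] at this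
    rw [← this]
    simp only [Finset.mul_sum, mul_assoc]
  have h3 := measure_ge_le_exp_mul_mgf (X := fun g : ι → ℝ => ∑ a, c a * g a)
    (μ := Measure.pi fun _ : ι => gaussianReal 0 1) δ (t := δ / v) (by positivity) h1
  refine h3.trans ?_
  rw [mgf, h2, ← Real.exp_add, Real.exp_le_exp]
  have h4 : (δ / v) ^ 2 * (∑ a, c a ^ 2) / 2 ≤ (δ / v) ^ 2 * v / 2 := by
    have : 0 ≤ (δ / v) ^ 2 := by positivity
    nlinarith
  have h5 : -(δ / v) * δ + (δ / v) ^ 2 * v / 2 = -(δ ^ 2 / (2 * v)) := by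
    field_simp
    ring
  linarith

theorem Gau_num (C : ℝ) (hC : 0 < C) : ∀ᶠ m : ℕ in atTop, 2 ≤ m ∧
    2 * m * Real.exp (-(dl m ^ 2 / (2 * (1.03 * (C * Real.log m / m))))) ≤
      Real.exp (-(m : ℝ) ^ (1 / 10 : ℝ)) := by
  have hlo := (isLittleO_log_rpow_atTop (r := 1 / 20) (by norm_num)).bound
    (show (0 : ℝ) < min 1 (1 / (10 * C)) by positivity)
  have h1 := tendsto_natCast_atTop_atTop (R := ℝ) |>.eventually hlo
  filter_upwards [h1, eventually_ge_atTop 2] with m hm hm2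
  refine ⟨hm2, ?_⟩
  have hm0 : (2 : ℝ) ≤ m := by exact_mod_cast hm2
  have hmp : (0 : ℝ) < m := by linarith
  have hlog : 0 < Real.log m := Real.log_pos (by linarith)
  rw [Real.norm_of_nonneg hlog.le, Real.norm_of_nonneg (by positivity)] at hm
  set y : ℝ := (m : ℝ) ^ (1 / 20 : ℝ) with hy
  have hy1 : 1 ≤ y := Real.one_le_rpow (by linarith) (by norm_num)
  have hy2 : (m : ℝ) ^ (1 / 10 : ℝ) = y ^ 2 := by
    rw [hy, ← Real.rpow_natCast, ← Real.rpow_mul hmp.le]
    norm_num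
  have hy4 : dl m ^ 2 * m = y ^ 4 := by
    rw [hy, dl, ← Real.rpow_natCast, ← Real.rpow_natCast, ← Real.rpow_mul hmp.le,
      ← Real.rpow_mul hmp.le]
    nth_rw 2 [← Real.rpow_one (m : ℝ)]
    rw [← Real.rpow_add hmp]
    norm_num
  have hl1 : Real.log m ≤ y := hm.trans (by
    have := min_le_left 1 (1 / (10 * C))
    nlinarith)
  have hl2 : 10 * C * Real.log m ≤ y := by
    have h3 := min_le_right 1 (1 / (10 * C))
    have h4 : Real.log m ≤ 1 / (10 * C) * y := hm.trans (by nlinarith)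
    calc 10 * C * Real.log m ≤ 10 * C * (1 / (10 * C) * y) := by gcongr
      _ = y := by field_simp
  have h5 : Real.log (2 * m) ≤ 2 * y := by
    rw [Real.log_mul (by norm_num) hmp.ne']
    have : Real.log 2 ≤ Real.log m := Real.log_le_log (by norm_num) hm0
    linarith
  have h6 : 2 * (m : ℝ) = Real.exp (Real.log (2 * m)) := by
    rw [Real.exp_log (by positivity)]
  rw [hy2, h6, ← Real.exp_add, Real.exp_le_exp]
  have h7 : dl m ^ 2 / (2 * (1.03 * (C * Real.log m / m))) =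
      y ^ 4 / (2.06 * (C * Real.log m)) := by
    rw [← hy4]
    field_simp
    ring
  rw [h7]
  have h8 : 3 * y ^ 2 ≤ y ^ 4 / (2.06 * (C * Real.log m)) := by
    rw [le_div_iff₀ (by positivity)]
    have : 2.06 * (C * Real.log m) ≤ 0.206 * y := by linarith
    calc 3 * y ^ 2 * (2.06 * (C * Real.log m)) ≤ 3 * y ^ 2 * (0.206 * y) := by gcongr
      _ ≤ y ^ 4 := by
          have : 0 < y ^ 3 := by positivity
          nlinarith
  nlinarith

theorem Gau_prod {m : ℕ} (l : Fin m → ℝ) (small : ∀ a, |l a| ≤ 0.53) (s k : ℝ) (hs : |s| ≤ 1.01)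
    (hk : k ≤ 1.5) (a : Fin m) : 2 * k * s ^ 2 * l a ^ 2 < 1 ∧
    (√(1 - 2 * k * s ^ 2 * l a ^ 2))⁻¹ ≤ Real.exp (25 * l a ^ 2) := by
  have h1 : l a ^ 2 ≤ 0.2809 := by
    rw [← sq_abs]
    have := small a
    have := abs_nonneg (l a)
    nlinarith
  have h2 : s ^ 2 ≤ 1.0201 := by
    rw [← sq_abs]
    have := abs_nonneg s
    nlinarith
  have h3 : 0 ≤ l a ^ 2 := sq_nonneg _
  have h4 : 0 ≤ s ^ 2 := sq_nonneg _
  have h5 : 2 * k * s ^ 2 * l a ^ 2 ≤ 3.0603 * l a ^ 2 := by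
    have : k * s ^ 2 ≤ 1.5 * 1.0201 := by
      by_cases hk0 : 0 ≤ k
      · exact mul_le_mul hk h2 h4 (by norm_num)
      · have : k * s ^ 2 ≤ 0 := mul_nonpos_of_nonpos_of_nonneg (not_le.1 hk0).le h4
        linarith
    nlinarith
  have h6 : 3.0603 * l a ^ 2 ≤ 0.86 := by nlinarith
  refine ⟨by linarith, ?_⟩
  have h7 : √(1 - 3.0603 * l a ^ 2) ≤ √(1 - 2 * k * s ^ 2 * l a ^ 2) :=
    Real.sqrt_le_sqrt (by linarith)
  have h8 : 1 - 3.0603 * l a ^ 2 ≤ √(1 - 3.0603 * l a ^ 2) := by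
    apply Real.le_sqrt_of_sq_le
    nlinarith
  have h9 : 0 < 1 - 3.0603 * l a ^ 2 := by linarith
  calc (√(1 - 2 * k * s ^ 2 * l a ^ 2))⁻¹ ≤ (1 - 3.0603 * l a ^ 2)⁻¹ :=
        inv_anti₀ h9 (h8.trans h7)
    _ ≤ 1 + 25 * l a ^ 2 := by
        rw [inv_le_iff_one_le_mul₀ h9]
        nlinarith
    _ ≤ Real.exp (25 * l a ^ 2) := by
        have := Real.add_one_le_exp (25 * l a ^ 2)
        linarith

theorem thm_Gau : St_Gau := by
  intro C hC
  refine ⟨⌈25 * C⌉₊, ?_⟩
  filter_upwards [Gau_num C hC] with m hm E e l h s hs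
  obtain ⟨hm2, hnum⟩ := hm
  have hm0 : (2 : ℝ) ≤ m := by exact_mod_cast hm2
  have hmp : (0 : ℝ) < m := by linarith
  have hlog : 0 < Real.log m := Real.log_pos (by linarith)
  have hpar : ∀ g : Fin m → ℝ, ∑ j, (s * ∑ a, l a * g a * e a j) ^ 2 =
      ∑ a, s ^ 2 * l a ^ 2 * g a ^ 2 := by
    intro g
    simp_rw [mul_pow s]
    rw [← Finset.mul_sum, Exm_par e h.orth (fun a => l a * g a), Finset.mul_sum]
    exact Finset.sum_congr rfl fun a _ => by ring
  refine ⟨fun k hk => ?_, ?_⟩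
  · have hF : ∀ g : Fin m → ℝ, Real.exp (k * ∑ j, (s * ∑ a, l a * g a * e a j) ^ 2) =
        ∏ a, Real.exp (2 * k * s ^ 2 * l a ^ 2 * g a ^ 2 / 2) := by
      intro g
      rw [hpar, Finset.mul_sum, Real.exp_sum]
      exact Finset.prod_congr rfl fun a _ => by congr 1; ring
    have hp := Gau_prod l h.small s k hs hk
    simp_rw [hF]
    refine ⟨?_, ?_, ?_⟩
    · exact Integrable.fintype_prod (f := fun a y =>
        Real.exp (2 * k * s ^ 2 * l a ^ 2 * y ^ 2 / 2)) fun a => (Exm_gauss _ (hp a).1).1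
    · rw [integral_fintype_prod_eq_prod (𝕜 := ℝ) (fun a y =>
        Real.exp (2 * k * s ^ 2 * l a ^ 2 * y ^ 2 / 2))]
      exact Finset.prod_congr rfl fun a _ => (Exm_gauss _ (hp a).1).2
    · calc ∏ a, (√(1 - 2 * k * s ^ 2 * l a ^ 2))⁻¹ ≤ ∏ a, Real.exp (25 * l a ^ 2) :=
            Finset.prod_le_prod (fun a _ => by positivity) fun a _ => (hp a).2
        _ = Real.exp (25 * ∑ a, l a ^ 2) := by rw [← Real.exp_sum, Finset.mul_sum]
        _ ≤ Real.exp (25 * (C * Real.log m)) := by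
            rw [Real.exp_le_exp]
            linarith [h.two]
        _ = (m : ℝ) ^ (25 * C) := by
            rw [Real.rpow_def_of_pos hmp]
            congr 1
            ring
        _ ≤ (m : ℝ) ^ ((⌈25 * C⌉₊ : ℕ) : ℝ) :=
            Real.rpow_le_rpow_of_exponent_le (by linarith) (Nat.le_ceil _)
        _ = (m : ℝ) ^ ⌈25 * C⌉₊ := Real.rpow_natCast _ _
  · set v : ℝ := 1.03 * (C * Real.log m / m) with hv
    have hv0 : 0 < v := by positivity
    have hd0 : 0 ≤ dl m := by unfold dl; positivity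
    have hs2 : s ^ 2 ≤ 1.0201 := by
      rw [← sq_abs]
      have := abs_nonneg s
      nlinarith
    have hvar : ∀ j (σ : ℝ), σ ^ 2 = 1 → ∑ a, (σ * (s * (l a * e a j))) ^ 2 ≤ v := by
      intro j σ hσ
      have h1 : ∑ a, (σ * (s * (l a * e a j))) ^ 2 = s ^ 2 * ∑ a, l a ^ 2 * e a j ^ 2 := by
        rw [Finset.mul_sum]
        refine Finset.sum_congr rfl fun a _ => ?_
        rw [mul_pow, hσ]
        ring
      rw [h1]
      have h2 := h.diag j
      have h3 : 0 ≤ ∑ a, l a ^ 2 * e a j ^ 2 := Finset.sum_nonneg fun a _ => by positivity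
      have h4 : 0 ≤ C * Real.log m / m := by positivity
      nlinarith
    have hsub : {g : Fin m → ℝ | ¬ ∀ j, |s * ∑ a, l a * g a * e a j| ≤ dl m} ⊆
        ⋃ j : Fin m, ({g | dl m ≤ ∑ a, (1 * (s * (l a * e a j))) * g a} ∪
          {g | dl m ≤ ∑ a, (-1 * (s * (l a * e a j))) * g a}) := by
      intro g hg
      simp only [Set.mem_setOf_eq, not_forall, not_le] at hg
      obtain ⟨j, hj⟩ := hg
      refine Set.mem_iUnion.2 ⟨j, ?_⟩
      have e1 : ∑ a, (1 * (s * (l a * e a j))) * g a = s * ∑ a, l a * g a * e a j := by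
        rw [Finset.mul_sum]
        exact Finset.sum_congr rfl fun a _ => by ring
      have e2 : ∑ a, (-1 * (s * (l a * e a j))) * g a = -(s * ∑ a, l a * g a * e a j) := by
        rw [Finset.mul_sum, ← Finset.sum_neg_distrib]
        exact Finset.sum_congr rfl fun a _ => by ring
      rcases lt_abs.1 hj with h1 | h1
      · left
        simp only [Set.mem_setOf_eq]
        rw [e1]
        exact h1.le
      · right
        simp only [Set.mem_setOf_eq]
        rw [e2]
        exact h1.le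
    calc (Measure.pi fun _ : Fin m => gaussianReal 0 1).real
          {g : Fin m → ℝ | ¬ ∀ j, |s * ∑ a, l a * g a * e a j| ≤ dl m}
        ≤ (Measure.pi fun _ : Fin m => gaussianReal 0 1).real
          (⋃ j : Fin m, ({g | dl m ≤ ∑ a, (1 * (s * (l a * e a j))) * g a} ∪
          {g | dl m ≤ ∑ a, (-1 * (s * (l a * e a j))) * g a})) := measureReal_mono hsub
      _ ≤ ∑ j : Fin m, (Measure.pi fun _ : Fin m => gaussianReal 0 1).real
          ({g | dl m ≤ ∑ a, (1 * (s * (l a * e a j))) * g a} ∪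
          {g | dl m ≤ ∑ a, (-1 * (s * (l a * e a j))) * g a}) := measureReal_iUnion_fintype_le _
      _ ≤ ∑ j : Fin m, 2 * Real.exp (-(dl m ^ 2 / (2 * v))) := by
          refine Finset.sum_le_sum fun j _ => ?_
          refine (measureReal_union_le _ _).trans ?_
          have h1 := Gau_tail (fun a => 1 * (s * (l a * e a j))) v (dl m) hv0 hd0
            (hvar j 1 (by norm_num))
          have h2 := Gau_tail (fun a => -1 * (s * (l a * e a j))) v (dl m) hv0 hd0
            (hvar j (-1) (by norm_num))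
          linarith
      _ = 2 * m * Real.exp (-(dl m ^ 2 / (2 * v))) := by
          rw [Finset.sum_const, Finset.card_univ, Fintype.card_fin, nsmul_eq_mul]
          ring
      _ ≤ _ := hnum

end Pool.Agent.PCW
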