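import Mathlib
import Pool.Agent.PCW.St
import Pool.Agent.Helper19.Det

set_option autoImplicit false

/-! PCW Had: the inequality of Hadamard. -/

namespace Pool.Agent.PCW

open Finset

theorem thm_Had : St_Had := by
  intro ι _ _ M
  by_cases h0 : ∃ i, ∑ j, ‖M i j‖ ^ 2 = 0
  · obtain ⟨i, hi⟩ := h0
    have h1 : ∀ j, M i j = 0 := by
      intro j
      have := (Finset.sum_eq_zero_iff_of_nonneg (fun j _ => by positivity)).1 hi j (mem_univ j)
      simpa using this
    rw [Matrix.det_eq_zero_of_row_eq_zero i h1, norm_zero]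
    exact Finset.prod_nonneg fun _ _ => Real.sqrt_nonneg _
  · push Not at h0
    rw [← Matrix.det_transpose]
    refine Pool.Agent.Helper19.hadamard M.transpose (fun i => √(∑ j, ‖M i j‖ ^ 2)) ?_ ?_
    · intro i
      refine Real.sqrt_pos.2 (lt_of_le_of_ne ?_ (Ne.symm (h0 i)))
      positivity
    · intro i
      rw [Real.sq_sqrt (by positivity)]
      rfl

end Pool.Agent.PCW
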