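import Pool.Agent.PCW.StN

set_option autoImplicit false

/-!
# PCW: `ham` for the primes
-/

namespace Pool.Agent.PCW

open Finset Filter MeasureTheory
open Pool.Agent.PC (PA dd HP)

private lemma Hmx_sc {α β : Type} (ψ : α ≃ β) (π : Equiv.Perm α) :
    (∀ x y, (ψ.permCongr π).SameCycle x y) ↔ ∀ x y, π.SameCycle x y := by
  have hp : ∀ n : ℤ, ψ.permCongr π ^ n = ψ.permCongr (π ^ n) := fun n =>
    (map_zpow ψ.permCongrHom π n).symm
  constructor
  · intro h x y
    obtain ⟨n, hn⟩ := h (ψ x) (ψ y)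
    rw [hp n, Equiv.permCongr_apply, Equiv.symm_apply_apply] at hn
    exact ⟨n, ψ.injective hn⟩
  · intro h x y
    obtain ⟨n, hn⟩ := h (ψ.symm x) (ψ.symm y)
    refine ⟨n, ?_⟩
    rw [hp n, Equiv.permCongr_apply, hn, Equiv.apply_symm_apply]

/-- the indices -/
private def Hmx_e (m : ℕ) : Fin m ≃ {x // x ∈ range m} where
  toFun i := ⟨i, mem_range.2 i.2⟩
  invFun x := ⟨x, mem_range.1 x.2⟩
  left_inv _ := rfl
  right_inv _ := rfl

private lemma Hmx_eval (m : ℕ) (σ : Equiv.Perm (Fin m)) (i : Fin m) :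
    (((Hmx_e m).permCongr σ (Hmx_e m i) : {x // x ∈ range m}) : ℕ) = σ i := rfl

private lemma Hmx_card (m : ℕ) :
    Nat.card {p : Equiv.Perm (Fin m) × Equiv.Perm (Fin m) //
      (∀ i : Fin m, PA (i : ℕ) (p.1 i : ℕ)) ∧ (∀ i : Fin m, PA (i : ℕ) (p.2 i : ℕ)) ∧
        Cyc (p.1⁻¹ * p.2)} =
    Nat.card (HP m) := by
  have key : ∀ p : Equiv.Perm (Fin m) × Equiv.Perm (Fin m),
      ((Hmx_e m).permCongr p.2).trans ((Hmx_e m).permCongr p.1).symm =
        (Hmx_e m).permCongr (p.1⁻¹ * p.2) := by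
    intro p
    refine Equiv.ext fun x => ?_
    rw [Equiv.trans_apply, Equiv.symm_apply_eq]
    simp only [Equiv.permCongr_apply, Equiv.symm_apply_apply, Equiv.Perm.mul_apply]
    have h := Equiv.apply_symm_apply p.1 (p.2 ((Hmx_e m).symm x))
    exact congrArg (Hmx_e m) h.symm
  refine Nat.card_eq_of_bijective (fun p => (⟨(⟨(Hmx_e m).permCongr p.1.1, ?_⟩,
    ⟨(Hmx_e m).permCongr p.1.2, ?_⟩), ?_⟩ : HP m)) ⟨?_, ?_⟩
  · intro i
    have h := p.2.1 ((Hmx_e m).symm i)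
    have e := Hmx_eval m p.1.1 ((Hmx_e m).symm i)
    rw [Equiv.apply_symm_apply] at e
    rw [e]
    exact h
  · intro i
    have h := p.2.2.1 ((Hmx_e m).symm i)
    have e := Hmx_eval m p.1.2 ((Hmx_e m).symm i)
    rw [Equiv.apply_symm_apply] at e
    rw [e]
    exact h
  · show ∀ x y, Equiv.Perm.SameCycle
      (((Hmx_e m).permCongr p.1.2).trans ((Hmx_e m).permCongr p.1.1).symm) x y
    rw [key p.1]
    exact (Hmx_sc _ _).2 p.2.2.2
  · intro p q h
    have h1 := congrArg (fun N : HP m => N.1.1.1) h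
    have h2 := congrArg (fun N : HP m => N.1.2.1) h
    exact Subtype.ext (Prod.ext ((Hmx_e m).permCongr.injective h1)
      ((Hmx_e m).permCongr.injective h2))
  · intro N
    obtain ⟨⟨⟨σ, hσ⟩, ⟨τ, hτ⟩⟩, hN⟩ := N
    refine ⟨⟨((Hmx_e m).permCongr.symm σ, (Hmx_e m).permCongr.symm τ), ?_, ?_, ?_⟩, ?_⟩
    · show ∀ i : Fin m, PA (i : ℕ) (((Hmx_e m).permCongr.symm σ) i : ℕ)
      intro i
      have h := hσ (Hmx_e m i)
      have e := Hmx_eval m ((Hmx_e m).permCongr.symm σ) i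
      rw [Equiv.apply_symm_apply] at e
      rw [← e]
      exact h
    · show ∀ i : Fin m, PA (i : ℕ) (((Hmx_e m).permCongr.symm τ) i : ℕ)
      intro i
      have h := hτ (Hmx_e m i)
      have e := Hmx_eval m ((Hmx_e m).permCongr.symm τ) i
      rw [Equiv.apply_symm_apply] at e
      rw [← e]
      exact h
    · have h := key ((Hmx_e m).permCongr.symm σ, (Hmx_e m).permCongr.symm τ)
      simp only [Equiv.apply_symm_apply] at h
      have h2 : ∀ x y, Equiv.Perm.SameCycle (τ.trans σ.symm) x y := hN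
      rw [h] at h2
      exact (Hmx_sc _ _).1 h2
    · refine Subtype.ext (Prod.ext (Subtype.ext ?_) (Subtype.ext ?_))
      · exact Equiv.apply_symm_apply _ _
      · exact Equiv.apply_symm_apply _ _

open scoped Classical in
/-- **Hmx** -/
theorem thm_Hmx : St_Hmx := by
  intro m x hm
  have hB : ∀ i j : Fin m, BB (Ex m x) i j =
      if PA (i : ℕ) (j : ℕ) then x i * x j else 0 := by
    intro i j
    unfold BB Ex
    ring
  have hP : ∀ σ : Equiv.Perm (Fin m), ∏ i, BB (Ex m x) i (σ i) =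
      if ∀ i : Fin m, PA (i : ℕ) (σ i : ℕ) then (∏ i : Fin m, x i) ^ 2 else 0 := by
    intro σ
    split_ifs with h
    · have h1 : ∀ i ∈ (univ : Finset (Fin m)), BB (Ex m x) i (σ i) = x i * x (σ i : Fin m) := by
        intro i _
        rw [hB, if_pos (h i)]
      rw [Finset.prod_congr rfl h1, Finset.prod_mul_distrib,
        Equiv.prod_comp σ (fun i : Fin m => x (i : ℕ)), pow_two]
    · obtain ⟨i, hi⟩ := not_forall.1 h
      refine Finset.prod_eq_zero (mem_univ i) ?_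
      rw [hB, if_neg hi]
  have h4 : ∏ i ∈ range m, x i ^ 4 = (∏ i : Fin m, x i) ^ 4 := by
    rw [Finset.prod_range (fun i => x i ^ 4), Finset.prod_pow]
  rw [← Hmx_card m, h4, Nat.card_eq_fintype_card, Fintype.card_subtype]
  unfold ham
  simp only [hP]
  rw [← Finset.sum_product']
  rw [Finset.card_filter]
  push_cast
  rw [Finset.sum_mul, Finset.univ_product_univ]
  refine Finset.sum_congr rfl fun p _ => ?_
  by_cases h1 : ∀ i : Fin m, PA (i : ℕ) (p.1 i : ℕ)
  · by_cases h2 : ∀ i : Fin m, PA (i : ℕ) (p.2 i : ℕ)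
    · by_cases h3 : Cyc (p.1⁻¹ * p.2)
      · rw [if_pos h1, if_pos h2, if_pos h3, if_pos ⟨h1, h2, h3⟩]
        ring
      · rw [if_neg h3, if_neg fun h => h3 h.2.2]
        ring
    · have hne : ¬((∀ i : Fin m, PA (i : ℕ) (p.1 i : ℕ)) ∧ (∀ i : Fin m, PA (i : ℕ) (p.2 i : ℕ)) ∧
          Cyc (p.1⁻¹ * p.2)) := fun h => h2 h.2.1
      rw [if_neg h2, if_neg hne]
      split_ifs <;> ring
  · have hne : ¬((∀ i : Fin m, PA (i : ℕ) (p.1 i : ℕ)) ∧ (∀ i : Fin m, PA (i : ℕ) (p.2 i : ℕ)) ∧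
        Cyc (p.1⁻¹ * p.2)) := fun h => h1 h.1
    rw [if_neg h1, if_neg hne]
    split_ifs <;> ring

end Pool.Agent.PCW
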