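import Pool.Agent.PCW.StN
import Pool.Agent.GBQ.Basic

/-!
# PCW: Hankel forms and exponential sums
-/

set_option autoImplicit false

noncomputable section

namespace Pool.Agent.PCW

open Finset Filter MeasureTheory
open Pool.Agent.GBQ (lam LamS ee)

/-- the orthogonality relation for the finite average -/
private lemma Hnk_orth (L : ℕ) (hL : 0 < L) (k : ℤ) (hk : |k| < L) :
    ∑ h ∈ range L, ee ((h : ℝ) / L * (k : ℝ)) = if k = 0 then (L : ℂ) else 0 := by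
  have hL0 : (L : ℝ) ≠ 0 := by exact_mod_cast hL.ne'
  split_ifs with h0
  · subst h0
    simp [Pool.Agent.GBQ.ee_zero]
  · have hg : ∀ h : ℕ, ee ((h : ℝ) / L * (k : ℝ)) = ee ((k : ℝ) / L) ^ h := by
      intro h
      induction h with
      | zero => simp [Pool.Agent.GBQ.ee_zero]
      | succ h ih =>
        rw [pow_succ, ← ih, ← Pool.Agent.GBQ.ee_add]
        congr 1
        push_cast
        ring
    rw [sum_congr rfl fun h _ => hg h]
    have h1 : ee ((k : ℝ) / L) ^ L = 1 := by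
      rw [← hg L, div_self hL0, one_mul]
      exact Pool.Agent.GBQ.ee_int k
    have h2 : ee ((k : ℝ) / L) ≠ 1 := by
      intro h2
      unfold ee at h2
      rw [Complex.exp_eq_one_iff] at h2
      obtain ⟨n, hn⟩ := h2
      have hpi : (Real.pi : ℂ) ≠ 0 := by exact_mod_cast Real.pi_ne_zero
      have h3 : ((k : ℝ) / L : ℝ) = (n : ℝ) := by
        have h4 : (((k : ℝ) / L : ℝ) : ℂ) = ((n : ℝ) : ℂ) := by
          have h5 : (2 * Real.pi * Complex.I : ℂ) ≠ 0 :=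
            mul_ne_zero (mul_ne_zero two_ne_zero hpi) Complex.I_ne_zero
          apply mul_right_cancel₀ h5
          rw [← sub_eq_zero]
          rw [← sub_eq_zero] at hn
          push_cast at hn ⊢
          linear_combination hn
        exact_mod_cast h4
      rw [div_eq_iff hL0] at h3
      have h6 : k = n * L := by exact_mod_cast h3
      rw [h6, abs_mul, Nat.abs_cast] at hk
      have h7 : n ≠ 0 := by
        rintro rfl
        exact h0 (by rw [h6, zero_mul])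
      have h8 : 1 ≤ |n| := Int.one_le_abs h7
      nlinarith
    have h3 := mul_geom_sum (ee ((k : ℝ) / L)) L
    rw [h1, sub_self] at h3
    exact (mul_eq_zero.1 h3).resolve_left (sub_ne_zero.2 h2)

private lemma Hnk_mul (x : ℝ) (a b : ℤ) :
    ee (x * (a : ℝ)) * ee (x * (b : ℝ)) = ee (x * ((a + b : ℤ) : ℝ)) := by
  rw [← Pool.Agent.GBQ.ee_add]
  congr 1
  push_cast
  ring

/-- the finite average of the form -/
private lemma Hnk_A (m N : ℕ) (r f : ℕ → ℝ) (hN : 4 * m ≤ N) :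
    ∑ h ∈ range (N + 1), (∑ n ∈ range (N + 1), ((r n : ℝ) : ℂ) *
        ee ((h : ℝ) / (N + 1 : ℕ) * ((n : ℤ) : ℝ))) *
      (∑ i ∈ range m, ((f i : ℝ) : ℂ) * ee ((h : ℝ) / (N + 1 : ℕ) * ((-(2 * i) : ℤ) : ℝ))) *
      (∑ i ∈ range m, ((f i : ℝ) : ℂ) * ee ((h : ℝ) / (N + 1 : ℕ) * ((-(2 * i) : ℤ) : ℝ))) *
      ee ((h : ℝ) / (N + 1 : ℕ) * ((-3 : ℤ) : ℝ)) =
    ((N + 1 : ℕ) : ℂ) *
      ((∑ i ∈ range m, ∑ j ∈ range m, f i * f j * r (2 * (i + j) + 3) : ℝ) : ℂ) := by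
  have h1 : ∀ h ∈ range (N + 1), (∑ n ∈ range (N + 1), ((r n : ℝ) : ℂ) *
        ee ((h : ℝ) / (N + 1 : ℕ) * ((n : ℤ) : ℝ))) *
      (∑ i ∈ range m, ((f i : ℝ) : ℂ) * ee ((h : ℝ) / (N + 1 : ℕ) * ((-(2 * i) : ℤ) : ℝ))) *
      (∑ i ∈ range m, ((f i : ℝ) : ℂ) * ee ((h : ℝ) / (N + 1 : ℕ) * ((-(2 * i) : ℤ) : ℝ))) *
      ee ((h : ℝ) / (N + 1 : ℕ) * ((-3 : ℤ) : ℝ)) =
      ∑ n ∈ range (N + 1), ∑ i ∈ range m, ∑ j ∈ range m, ((f i * f j * r n : ℝ) : ℂ) *
        ee ((h : ℝ) / (N + 1 : ℕ) * (((n : ℤ) + -(2 * i) + -(2 * j) + -3 : ℤ) : ℝ)) := by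
    intro h _
    rw [sum_mul, sum_mul, sum_mul]
    refine sum_congr rfl fun n _ => ?_
    rw [mul_sum, sum_mul]
    refine sum_congr rfl fun i _ => ?_
    rw [mul_sum, sum_mul, sum_mul]
    refine sum_congr rfl fun j _ => ?_
    rw [← Hnk_mul _ _ (-3), ← Hnk_mul _ _ (-(2 * (j : ℤ))), ← Hnk_mul _ (n : ℤ)]
    push_cast
    ring
  rw [sum_congr rfl h1, sum_comm]
  have h2 : ∀ n ∈ range (N + 1), ∑ h ∈ range (N + 1), ∑ i ∈ range m, ∑ j ∈ range m,
        ((f i * f j * r n : ℝ) : ℂ) *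
        ee ((h : ℝ) / (N + 1 : ℕ) * (((n : ℤ) + -(2 * i) + -(2 * j) + -3 : ℤ) : ℝ)) =
      ∑ i ∈ range m, ∑ j ∈ range m, ((f i * f j * r n : ℝ) : ℂ) *
        (if (n : ℤ) + -(2 * i) + -(2 * j) + -3 = 0 then (((N + 1 : ℕ)) : ℂ) else 0) := by
    intro n hn
    rw [sum_comm]
    refine sum_congr rfl fun i hi => ?_
    rw [sum_comm]
    refine sum_congr rfl fun j hj => ?_
    rw [← mul_sum]
    rw [mem_range] at hn hi hj
    rw [Hnk_orth (N + 1) (Nat.succ_pos N)]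
    rw [abs_lt]
    constructor <;> push_cast <;> omega
  rw [sum_congr rfl h2, sum_comm]
  push_cast
  rw [mul_sum]
  refine sum_congr rfl fun i hi => ?_
  rw [sum_comm, mul_sum]
  refine sum_congr rfl fun j hj => ?_
  rw [mem_range] at hi hj
  rw [sum_eq_single (2 * (i + j) + 3)]
  · rw [if_pos (by push_cast; ring)]
    ring
  · intro n _ hne
    rw [if_neg (by omega), mul_zero]
  · intro hne
    exfalso
    apply hne
    rw [mem_range]
    omega

/-- the finite average of the square -/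
private lemma Hnk_B (m N : ℕ) (f : ℕ → ℝ) (hN : 4 * m ≤ N) :
    ∑ h ∈ range (N + 1),
      ‖∑ i ∈ range m, ((f i : ℝ) : ℂ) * ee ((h : ℝ) / (N + 1 : ℕ) * ((-(2 * i) : ℤ) : ℝ))‖ ^ 2 =
    ((N + 1 : ℕ) : ℝ) * ∑ i ∈ range m, f i ^ 2 := by
  have h1 : ∀ h ∈ range (N + 1),
      ((‖∑ i ∈ range m, ((f i : ℝ) : ℂ) *
        ee ((h : ℝ) / (N + 1 : ℕ) * ((-(2 * i) : ℤ) : ℝ))‖ ^ 2 : ℝ) : ℂ) =
      ∑ i ∈ range m, ∑ j ∈ range m, ((f i * f j : ℝ) : ℂ) *
        ee ((h : ℝ) / (N + 1 : ℕ) * ((-(2 * i) + 2 * j : ℤ) : ℝ)) := by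
    intro h _
    rw [Complex.ofReal_pow, ← Complex.mul_conj', map_sum, sum_mul]
    refine sum_congr rfl fun i _ => ?_
    rw [mul_sum]
    refine sum_congr rfl fun j _ => ?_
    rw [map_mul, Complex.conj_ofReal, ← Pool.Agent.GBQ.ee_neg]
    have h2 : -((h : ℝ) / (N + 1 : ℕ) * ((-(2 * j) : ℤ) : ℝ)) =
        (h : ℝ) / (N + 1 : ℕ) * ((2 * j : ℤ) : ℝ) := by
      push_cast
      ring
    rw [h2, ← Hnk_mul]
    push_cast
    ring
  have h2 : ((∑ h ∈ range (N + 1),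
      ‖∑ i ∈ range m, ((f i : ℝ) : ℂ) *
        ee ((h : ℝ) / (N + 1 : ℕ) * ((-(2 * i) : ℤ) : ℝ))‖ ^ 2 : ℝ) : ℂ) =
      ((((N + 1 : ℕ) : ℝ) * ∑ i ∈ range m, f i ^ 2 : ℝ) : ℂ) := by
    rw [Complex.ofReal_sum, sum_congr rfl h1, sum_comm, Complex.ofReal_mul, Complex.ofReal_sum,
      mul_sum]
    refine sum_congr rfl fun i hi => ?_
    rw [sum_comm, sum_eq_single i]
    · rw [← mul_sum, Hnk_orth (N + 1) (Nat.succ_pos N) _ (by
        rw [abs_lt]
        constructor <;> push_cast <;> omega), if_pos (by ring)]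
      push_cast
      ring
    · intro j hj hne
      rw [mem_range] at hi hj
      rw [← mul_sum, Hnk_orth (N + 1) (Nat.succ_pos N) _ (by
        rw [abs_lt]
        constructor <;> push_cast <;> omega), if_neg (by omega), mul_zero]
    · intro h3
      exact absurd hi h3
  exact_mod_cast h2

theorem thm_Hnk : St_Hnk := by
  intro m N r M f hN hM
  have hA := Hnk_A m N r f hN
  have hB := Hnk_B m N f hN
  have hL : (0 : ℝ) < ((N + 1 : ℕ) : ℝ) := by positivity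
  have h1 := congrArg norm hA
  rw [norm_mul, Complex.norm_natCast, Complex.norm_real, Real.norm_eq_abs] at h1
  have h2 : ((N + 1 : ℕ) : ℝ) *
      |∑ i ∈ range m, ∑ j ∈ range m, f i * f j * r (2 * (i + j) + 3)| ≤
      ∑ h ∈ range (N + 1), M * ‖∑ i ∈ range m, ((f i : ℝ) : ℂ) *
        ee ((h : ℝ) / (N + 1 : ℕ) * ((-(2 * i) : ℤ) : ℝ))‖ ^ 2 := by
    rw [← h1]
    refine (norm_sum_le _ _).trans (sum_le_sum fun h _ => ?_)
    rw [norm_mul, norm_mul, norm_mul, Pool.Agent.GBQ.ee_norm, mul_one, pow_two, ← mul_assoc]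
    refine mul_le_mul_of_nonneg_right (mul_le_mul_of_nonneg_right ?_ (norm_nonneg _))
      (norm_nonneg _)
    exact_mod_cast hM ((h : ℝ) / (N + 1 : ℕ))
  rw [← mul_sum, hB] at h2
  nlinarith

end Pool.Agent.PCW
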