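import Pool.Agent.PCW.StN
import Pool.Agent.PC.PGPrime

set_option autoImplicit false

/-!
# PCW: the hypotheses hold for the primes (helper78)
-/

namespace Pool.Agent.PCW

open Finset Filter MeasureTheory
open Pool.Agent.PC (PA dd HP)
open Pool.Agent.PCX (wdeg)
open Pool.Agent.PCZ (Bd Entropies IsScaling)

open scoped Classical in
/-- the matrix `B` -/
private noncomputable def Bx (m : ℕ) (x : ℕ → ℝ) (i j : Fin m) : ℝ :=
  if PA (i : ℕ) (j : ℕ) then x i * x j else 0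

private lemma Hyx_Ex (m : ℕ) (x : ℕ → ℝ) (i j : Fin m) : Ex m x i j = Bx m x i j - 1 / (m : ℝ) := rfl

private lemma Hyx_symm (m : ℕ) (x : ℕ → ℝ) (i j : Fin m) : Bx m x i j = Bx m x j i := by
  unfold Bx
  have h : PA (i : ℕ) (j : ℕ) ↔ PA (j : ℕ) (i : ℕ) :=
    ⟨Pool.Agent.PC.pg_PA.symm _ _, Pool.Agent.PC.pg_PA.symm _ _⟩
  by_cases hp : PA (i : ℕ) (j : ℕ)
  · rw [if_pos hp, if_pos (h.1 hp), mul_comm]
  · rw [if_neg hp, if_neg (fun h' => hp (h.2 h'))]

private lemma Hyx_sum (m : ℕ) (x : ℕ → ℝ) (h : ∀ i < m, wdeg m x i = 1) (i : Fin m) :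
    ∑ j, Bx m x i j = 1 := by
  classical
  rw [← h i i.2]
  unfold wdeg Bx
  rw [Finset.sum_range]

private lemma Hyx_L {m : ℕ} (hm : 3 ≤ m) : 0 ≤ Real.log m / m := by
  have : 0 ≤ Real.log (m : ℝ) := Real.log_nonneg (by exact_mod_cast (by omega : 1 ≤ m))
  positivity

private lemma Hyx_pos {C : ℝ} (hC : 0 < C) {m : ℕ} {x : ℕ → ℝ} (hb : Bd C m x) (i : Fin m) : 0 ≤ x i :=
  le_trans (by positivity) (hb i i.2).1

private lemma Hyx_nonneg {C : ℝ} (hC : 0 < C) {m : ℕ} {x : ℕ → ℝ} (hb : Bd C m x) (i j : Fin m) :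
    0 ≤ Bx m x i j := by
  unfold Bx
  split_ifs
  · exact mul_nonneg (Hyx_pos hC hb i) (Hyx_pos hC hb j)
  · exact le_rfl

private lemma Hyx_xx {C : ℝ} (hC : 0 < C) {m : ℕ} (hm : 3 ≤ m) {x : ℕ → ℝ} (hb : Bd C m x) (i j : Fin m) :
    x i * x j ≤ C ^ 2 * (Real.log m / m) := by
  have h1 := (hb i i.2).2
  have h2 := (hb j j.2).2
  have h3 := mul_le_mul h1 h2 (Hyx_pos hC hb j) (by positivity)
  refine h3.trans (le_of_eq ?_)
  have := Real.mul_self_sqrt (Hyx_L hm)
  calc C * √(Real.log m / m) * (C * √(Real.log m / m))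
      = C ^ 2 * (√(Real.log m / m) * √(Real.log m / m)) := by ring
    _ = _ := by rw [this]

private lemma Hyx_le {C : ℝ} (hC : 0 < C) {m : ℕ} (hm : 3 ≤ m) {x : ℕ → ℝ} (hb : Bd C m x) (i j : Fin m) :
    Bx m x i j ≤ C ^ 2 * (Real.log m / m) := by
  unfold Bx
  split_ifs
  · exact Hyx_xx hC hm hb i j
  · have := Hyx_L hm
    positivity

private lemma Hyx_sq {C : ℝ} (hC : 0 < C) {m : ℕ} (hm : 3 ≤ m) {x : ℕ → ℝ} (hb : Bd C m x)
    (h : ∀ i < m, wdeg m x i = 1) (i : Fin m) :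
    ∑ j, Bx m x i j ^ 2 ≤ C ^ 2 * (Real.log m / m) := by
  calc ∑ j, Bx m x i j ^ 2 ≤ ∑ j, C ^ 2 * (Real.log m / m) * Bx m x i j := by
        refine Finset.sum_le_sum fun j _ => ?_
        rw [pow_two]
        exact mul_le_mul_of_nonneg_right (Hyx_le hC hm hb i j) (Hyx_nonneg hC hb i j)
    _ = _ := by rw [← Finset.mul_sum, Hyx_sum m x h i, mul_one]

private lemma Hyx_EE (m : ℕ) (hm : 3 ≤ m) (x : ℕ → ℝ) (h : ∀ i < m, wdeg m x i = 1) (i k : Fin m) :
    (Ex m x * Ex m x) i k = ∑ j, Bx m x i j * Bx m x j k - 1 / (m : ℝ) := by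
  rw [Matrix.mul_apply]
  have hm0 : (m : ℝ) ≠ 0 := by
    have : m ≠ 0 := by omega
    exact_mod_cast this
  have e : ∀ j, Ex m x i j * Ex m x j k =
      Bx m x i j * Bx m x j k - (1 / (m : ℝ)) * Bx m x i j - (1 / (m : ℝ)) * Bx m x k j +
        1 / (m : ℝ) * (1 / (m : ℝ)) := by
    intro j
    rw [Hyx_Ex, Hyx_Ex, Hyx_symm m x k j]
    ring
  rw [Finset.sum_congr rfl fun j _ => e j, Finset.sum_add_distrib, Finset.sum_sub_distrib,
    Finset.sum_sub_distrib, ← Finset.mul_sum, ← Finset.mul_sum, Hyx_sum m x h i, Hyx_sum m x h k,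
    Finset.sum_const, Finset.card_univ, Fintype.card_fin, nsmul_eq_mul]
  field_simp
  ring

private lemma Hyx_cod {C : ℝ} (hC : 0 < C) {m : ℕ} (hm : 3 ≤ m) {x : ℕ → ℝ} (hb : Bd C m x)
    (i k : Fin m) :
    ∑ j, Bx m x i j * Bx m x j k ≤
      (C ^ 2 * (Real.log m / m)) ^ 2 * (Pool.Agent.PC.codeg PA m i k : ℝ) := by
  classical
  have hL := Hyx_L hm
  have e1 : (Pool.Agent.PC.codeg PA m i k : ℝ) =
      ∑ j : Fin m, if PA (i : ℕ) (j : ℕ) ∧ PA (k : ℕ) (j : ℕ) then (1 : ℝ) else 0 := by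
    unfold Pool.Agent.PC.codeg
    rw [Finset.card_filter, Finset.sum_range]
    push_cast
    refine Finset.sum_congr rfl fun j _ => ?_
    by_cases hc : PA (i : ℕ) (j : ℕ) ∧ PA (k : ℕ) (j : ℕ)
    · simp only [hc, and_self, if_true]
    · simp only [hc, if_false]
  rw [e1, Finset.mul_sum]
  refine Finset.sum_le_sum fun j _ => ?_
  by_cases hc : PA (i : ℕ) (j : ℕ) ∧ PA (k : ℕ) (j : ℕ)
  · rw [if_pos hc, mul_one, pow_two]
    exact mul_le_mul (Hyx_le hC hm hb i j) (Hyx_le hC hm hb j k) (Hyx_nonneg hC hb j k) (by positivity)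
  · rw [if_neg hc, mul_zero]
    refine le_of_eq ?_
    by_cases h1 : PA (i : ℕ) (j : ℕ)
    · have h2 : ¬ PA (k : ℕ) (j : ℕ) := fun h2 => hc ⟨h1, h2⟩
      rw [Hyx_symm m x j k]
      unfold Bx
      rw [if_neg h2, mul_zero]
    · unfold Bx
      rw [if_neg h1, zero_mul]

private lemma Hyx_log {m : ℕ} (hm : 3 ≤ m) : Real.log m ^ 2 ≤ 4 * m := by
  have hm0 : (0 : ℝ) < m := by exact_mod_cast (by omega : 0 < m)
  have h1 : 0 ≤ Real.log (m : ℝ) := Real.log_nonneg (by exact_mod_cast (by omega : 1 ≤ m))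
  have h2 : Real.log (√(m : ℝ)) ≤ √(m : ℝ) - 1 := Real.log_le_sub_one_of_pos (Real.sqrt_pos.2 hm0)
  rw [Real.log_sqrt hm0.le] at h2
  have h3 : Real.log (m : ℝ) ≤ 2 * √(m : ℝ) := by linarith
  calc Real.log (m : ℝ) ^ 2 ≤ (2 * √(m : ℝ)) ^ 2 := pow_le_pow_left₀ h1 h3 2
    _ = 4 * m := by rw [mul_pow, Real.sq_sqrt hm0.le]; norm_num

private lemma Hyx_four {C : ℝ} (hC : 0 < C) {m : ℕ} (hm : 3 ≤ m) {x : ℕ → ℝ} (hb : Bd C m x)
    (h : ∀ i < m, wdeg m x i = 1) (C' : ℝ)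
    (hcod : ∀ i < m, ∑ k ∈ (range m).erase i, (Pool.Agent.PC.codeg PA m i k : ℝ) ^ 2 ≤
      C' * dd m ^ 4 / m) :
    ∑ i, ∑ k, (Ex m x * Ex m x) i k ^ 2 ≤ 2 * (4 * C ^ 4 + 16 * C ^ 8 * C') + 2 := by
  classical
  have hm0 : (0 : ℝ) < m := by exact_mod_cast (by omega : 0 < m)
  have hL := Hyx_L hm
  have hlog : 0 < Real.log (m : ℝ) := Real.log_pos (by exact_mod_cast (by omega : 1 < m))
  have h1 : ∀ i : Fin m, ∑ k, (∑ j, Bx m x i j * Bx m x j k) ^ 2 ≤ (4 * C ^ 4 + 16 * C ^ 8 * C') / m := by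
    intro i
    rw [← Finset.add_sum_erase _ _ (Finset.mem_univ i)]
    have a1 : (∑ j, Bx m x i j * Bx m x j i) ^ 2 ≤ 4 * C ^ 4 / m := by
      have b1 : ∑ j, Bx m x i j * Bx m x j i = ∑ j, Bx m x i j ^ 2 := by
        refine Finset.sum_congr rfl fun j _ => ?_
        rw [Hyx_symm m x j i, pow_two]
      rw [b1]
      have b2 := Hyx_sq hC hm hb h i
      have b3 : 0 ≤ ∑ j, Bx m x i j ^ 2 := Finset.sum_nonneg fun j _ => sq_nonneg _
      calc (∑ j, Bx m x i j ^ 2) ^ 2 ≤ (C ^ 2 * (Real.log m / m)) ^ 2 := pow_le_pow_left₀ b3 b2 2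
        _ = C ^ 4 * Real.log m ^ 2 / (m * m) := by field_simp
        _ ≤ C ^ 4 * (4 * m) / (m * m) := by
            have := Hyx_log hm
            gcongr
        _ = _ := by field_simp
    have a2 : ∑ k ∈ (Finset.univ : Finset (Fin m)).erase i, (∑ j, Bx m x i j * Bx m x j k) ^ 2 ≤
        16 * C ^ 8 * C' / m := by
      have b1 : ∀ k : Fin m, (∑ j, Bx m x i j * Bx m x j k) ^ 2 ≤
          (C ^ 2 * (Real.log m / m)) ^ 4 * (Pool.Agent.PC.codeg PA m i k : ℝ) ^ 2 := by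
        intro k
        have c1 := Hyx_cod hC hm hb i k
        have c2 : 0 ≤ ∑ j, Bx m x i j * Bx m x j k :=
          Finset.sum_nonneg fun j _ => mul_nonneg (Hyx_nonneg hC hb i j) (Hyx_nonneg hC hb j k)
        calc _ ≤ ((C ^ 2 * (Real.log m / m)) ^ 2 * (Pool.Agent.PC.codeg PA m i k : ℝ)) ^ 2 :=
              pow_le_pow_left₀ c2 c1 2
          _ = _ := by ring
      have b2 : ∑ k ∈ (Finset.univ : Finset (Fin m)).erase i, (Pool.Agent.PC.codeg PA m i k : ℝ) ^ 2 =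
          ∑ k ∈ (range m).erase i, (Pool.Agent.PC.codeg PA m i k : ℝ) ^ 2 := by
        refine Finset.sum_bij (fun (k : Fin m) _ => (k : ℕ)) ?_ ?_ ?_ ?_
        · intro k hk
          rw [Finset.mem_erase] at hk ⊢
          exact ⟨fun h' => hk.1 (Fin.ext h'), Finset.mem_range.2 k.2⟩
        · intro k _ l _ hkl
          exact Fin.ext hkl
        · intro k hk
          rw [Finset.mem_erase, Finset.mem_range] at hk
          exact ⟨⟨k, hk.2⟩, Finset.mem_erase.2 ⟨fun h' => hk.1 (by rw [← h']), Finset.mem_univ _⟩, rfl⟩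
        · intro k _
          rfl
      calc _ ≤ ∑ k ∈ (Finset.univ : Finset (Fin m)).erase i,
            (C ^ 2 * (Real.log m / m)) ^ 4 * (Pool.Agent.PC.codeg PA m i k : ℝ) ^ 2 :=
            Finset.sum_le_sum fun k _ => b1 k
        _ = (C ^ 2 * (Real.log m / m)) ^ 4 *
            ∑ k ∈ (range m).erase i, (Pool.Agent.PC.codeg PA m i k : ℝ) ^ 2 := by
            rw [← Finset.mul_sum, b2]
        _ ≤ (C ^ 2 * (Real.log m / m)) ^ 4 * (C' * dd m ^ 4 / m) :=
            mul_le_mul_of_nonneg_left (hcod i i.2) (by positivity)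
        _ = _ := by
            unfold dd
            have := hlog.ne'
            field_simp
            ring
    calc _ ≤ 4 * C ^ 4 / m + 16 * C ^ 8 * C' / m := add_le_add a1 a2
      _ = _ := by ring
  have h2 : ∀ i k : Fin m, (Ex m x * Ex m x) i k ^ 2 ≤
      2 * (∑ j, Bx m x i j * Bx m x j k) ^ 2 + 2 * (1 / (m : ℝ)) ^ 2 := by
    intro i k
    rw [Hyx_EE m hm x h i k]
    nlinarith [sq_nonneg (∑ j, Bx m x i j * Bx m x j k + 1 / (m : ℝ))]
  calc ∑ i, ∑ k, (Ex m x * Ex m x) i k ^ 2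
      ≤ ∑ i : Fin m, ∑ k : Fin m, (2 * (∑ j, Bx m x i j * Bx m x j k) ^ 2 + 2 * (1 / (m : ℝ)) ^ 2) :=
        Finset.sum_le_sum fun i _ => Finset.sum_le_sum fun k _ => h2 i k
    _ = ∑ i : Fin m, (2 * ∑ k : Fin m, (∑ j, Bx m x i j * Bx m x j k) ^ 2 + 2 / m) := by
        refine Finset.sum_congr rfl fun i _ => ?_
        rw [Finset.sum_add_distrib, ← Finset.mul_sum, Finset.sum_const, Finset.card_univ,
          Fintype.card_fin, nsmul_eq_mul]
        field_simp
    _ ≤ ∑ i : Fin m, (2 * ((4 * C ^ 4 + 16 * C ^ 8 * C') / m) + 2 / m) :=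
        Finset.sum_le_sum fun i _ => by
          have := h1 i
          linarith
    _ = _ := by
        rw [Finset.sum_const, Finset.card_univ, Fintype.card_fin, nsmul_eq_mul]
        field_simp

private lemma Hyx_norm {m : ℕ} (hm : 3 ≤ m) {x : ℕ → ℝ}
    (hs : ∀ f : ℕ → ℝ, |(∑ i ∈ range m, ∑ j ∈ range m, open scoped Classical in
        if PA i j then f i * f j else 0) / dd m -
      (∑ i ∈ range m, f i) ^ 2 / m| ≤ (1 / 2 + 0.01) * ∑ i ∈ range m, f i ^ 2)
    (hx : ∀ i < m, |x i * √(dd m) - 1| ≤ 0.001) (f : Fin m → ℝ) :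
    |∑ i, ∑ j, f i * f j * Ex m x i j| ≤ 0.53 * ∑ i, f i ^ 2 := by
  classical
  have hm0 : (0 : ℝ) < m := by exact_mod_cast (by omega : 0 < m)
  have hlog : 0 < Real.log (m : ℝ) := Real.log_pos (by exact_mod_cast (by omega : 1 < m))
  have hd : 0 < dd m := by
    unfold dd
    positivity
  set g : Fin m → ℝ := fun i => x i * √(dd m) * f i with hg
  have hs' := hs (fun i => if h : i < m then g ⟨i, h⟩ else 0)
  rw [Finset.sum_range, Finset.sum_range, Finset.sum_range] at hs'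
  simp only [Fin.is_lt, dite_true, Fin.eta] at hs'
  have e1 : ∀ i : Fin m, (∑ j ∈ range m, if PA (i : ℕ) j then
      g i * (if h : j < m then g ⟨j, h⟩ else 0) else 0) =
      ∑ j : Fin m, if PA (i : ℕ) (j : ℕ) then g i * g j else 0 := by
    intro i
    rw [Finset.sum_range]
    simp only [Fin.is_lt, dite_true, Fin.eta]
  rw [Finset.sum_congr rfl fun i _ => e1 i] at hs'
  have e2 : (∑ i : Fin m, ∑ j : Fin m, if PA (i : ℕ) (j : ℕ) then g i * g j else 0) / dd m =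
      ∑ i, ∑ j, f i * f j * Bx m x i j := by
    rw [Finset.sum_div]
    refine Finset.sum_congr rfl fun i _ => ?_
    rw [Finset.sum_div]
    refine Finset.sum_congr rfl fun j _ => ?_
    unfold Bx
    by_cases hp : PA (i : ℕ) (j : ℕ)
    · rw [if_pos hp, if_pos hp, hg]
      have := Real.mul_self_sqrt hd.le
      rw [div_eq_iff hd.ne']
      calc x i * √(dd m) * f i * (x j * √(dd m) * f j)
          = x i * f i * x j * f j * (√(dd m) * √(dd m)) := by ring
        _ = _ := by rw [this]; ring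
    · rw [if_neg hp, if_neg hp]
      simp
  rw [e2] at hs'
  have e3 : ∑ i, ∑ j, f i * f j * Ex m x i j =
      ∑ i, ∑ j, f i * f j * Bx m x i j - (∑ i, f i) ^ 2 / m := by
    have : ∀ i j, f i * f j * Ex m x i j = f i * f j * Bx m x i j - f i * f j / m := by
      intro i j
      rw [Hyx_Ex]
      ring
    simp only [this, Finset.sum_sub_distrib]
    congr 1
    rw [pow_two, Finset.sum_mul_sum, Finset.sum_div]
    refine Finset.sum_congr rfl fun i _ => ?_
    rw [Finset.sum_div]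
  rw [e3]
  have hgf : ∀ i, |g i - f i| ≤ 0.001 * |f i| := by
    intro i
    have : g i - f i = (x i * √(dd m) - 1) * f i := by
      rw [hg]
      ring
    rw [this, abs_mul]
    exact mul_le_mul_of_nonneg_right (hx i i.2) (abs_nonneg _)
  have hgf2 : ∀ i, (g i - f i) ^ 2 ≤ 0.000001 * f i ^ 2 := by
    intro i
    have h1 := pow_le_pow_left₀ (abs_nonneg _) (hgf i) 2
    rw [sq_abs, mul_pow, sq_abs] at h1
    refine h1.trans (le_of_eq ?_)
    norm_num
  have hgp : ∀ i, (g i + f i) ^ 2 ≤ 4.004001 * f i ^ 2 := by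
    intro i
    have h1 : |g i + f i| ≤ 2.001 * |f i| := by
      have : g i + f i = (g i - f i) + 2 * f i := by ring
      rw [this]
      refine (abs_add_le _ _).trans ?_
      have h2 := hgf i
      rw [abs_mul, abs_two]
      linarith
    have h2 := pow_le_pow_left₀ (abs_nonneg _) h1 2
    rw [sq_abs, mul_pow, sq_abs] at h2
    refine h2.trans (le_of_eq ?_)
    norm_num
  have hg2 : ∑ i, g i ^ 2 ≤ 1.002001 * ∑ i, f i ^ 2 := by
    rw [Finset.mul_sum]
    refine Finset.sum_le_sum fun i _ => ?_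
    have h1 : |g i| ≤ 1.001 * |f i| := by
      have : g i = (g i - f i) + f i := by ring
      rw [this]
      refine (abs_add_le _ _).trans ?_
      have h2 := hgf i
      linarith
    have h2 := pow_le_pow_left₀ (abs_nonneg _) h1 2
    have h3 : (1.001 * |f i|) ^ 2 = 1.002001 * f i ^ 2 := by
      rw [mul_pow, sq_abs]
      norm_num
    rw [h3, sq_abs] at h2
    exact h2
  set F := ∑ i, f i ^ 2 with hF
  have hF0 : 0 ≤ F := Finset.sum_nonneg fun i _ => sq_nonneg _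
  have hd1 : (∑ i, (g i - f i)) ^ 2 ≤ m * (0.000001 * F) := by
    have h1 := sq_sum_le_card_mul_sum_sq (s := (Finset.univ : Finset (Fin m))) (f := fun i => g i - f i)
    rw [Finset.card_univ, Fintype.card_fin] at h1
    refine h1.trans (mul_le_mul_of_nonneg_left ?_ hm0.le)
    rw [hF, Finset.mul_sum]
    exact Finset.sum_le_sum fun i _ => hgf2 i
  have hd2 : (∑ i, (g i + f i)) ^ 2 ≤ m * (4.004001 * F) := by
    have h1 := sq_sum_le_card_mul_sum_sq (s := (Finset.univ : Finset (Fin m))) (f := fun i => g i + f i)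
    rw [Finset.card_univ, Fintype.card_fin] at h1
    refine h1.trans (mul_le_mul_of_nonneg_left ?_ hm0.le)
    rw [hF, Finset.mul_sum]
    exact Finset.sum_le_sum fun i _ => hgp i
  have hdiff : |(∑ i, g i) ^ 2 / m - (∑ i, f i) ^ 2 / m| ≤ 0.002001 * F := by
    have e4 : (∑ i, g i) ^ 2 / m - (∑ i, f i) ^ 2 / m =
        ((∑ i, (g i - f i)) * (∑ i, (g i + f i))) / m := by
      rw [Finset.sum_sub_distrib, Finset.sum_add_distrib]
      ring
    rw [e4, abs_div, abs_of_pos hm0, div_le_iff₀ hm0]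
    refine abs_le_of_sq_le_sq ?_ (by positivity)
    rw [mul_pow]
    calc (∑ i, (g i - f i)) ^ 2 * (∑ i, (g i + f i)) ^ 2
        ≤ (m * (0.000001 * F)) * (m * (4.004001 * F)) :=
          mul_le_mul hd1 hd2 (sq_nonneg _) (by positivity)
      _ = _ := by ring
  have hfin : |∑ i, ∑ j, f i * f j * Bx m x i j - (∑ i, f i) ^ 2 / m| ≤
      |∑ i, ∑ j, f i * f j * Bx m x i j - (∑ i, g i) ^ 2 / m| +
        |(∑ i, g i) ^ 2 / m - (∑ i, f i) ^ 2 / m| := abs_sub_le _ _ _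
  nlinarith [hs', hdiff, hfin, hg2]

/-- **Hyx** -/
theorem thm_Hyx (h1 : St_Spc) (h2 : St_Cls) : St_Hyx := by
  classical
  intro C hC
  obtain ⟨C', hC', hcod⟩ := Pool.Agent.PC.pg_PA.codeg
  refine ⟨C ^ 2 + (2 * (4 * C ^ 4 + 16 * C ^ 8 * C') + 2), by positivity, ?_⟩
  filter_upwards [hcod, h1 0.01 (by norm_num), h2 C hC 0.001 (by norm_num),
    eventually_ge_atTop 3] with m hcod hs hx hm x hb hw
  have hm0 : (0 : ℝ) < m := by exact_mod_cast (by omega : 0 < m)
  have hlog : 0 < Real.log (m : ℝ) := Real.log_pos (by exact_mod_cast (by omega : 1 < m))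
  refine ⟨?_, ?_, ?_, ?_, ?_⟩
  · intro i j
    rw [Hyx_Ex, Hyx_Ex, Hyx_symm]
  · intro i
    simp only [Hyx_Ex]
    rw [Finset.sum_sub_distrib, Hyx_sum m x hw i, Finset.sum_const, Finset.card_univ,
      Fintype.card_fin, nsmul_eq_mul]
    field_simp
    ring
  · intro i
    have e : ∀ j, Ex m x i j ^ 2 = Bx m x i j ^ 2 - (2 / (m : ℝ)) * Bx m x i j + 1 / (m : ℝ) ^ 2 := by
      intro j
      rw [Hyx_Ex]
      ring
    rw [Finset.sum_congr rfl fun j _ => e j, Finset.sum_add_distrib, Finset.sum_sub_distrib,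
      ← Finset.mul_sum, Hyx_sum m x hw i, Finset.sum_const, Finset.card_univ,
      Fintype.card_fin, nsmul_eq_mul]
    have a1 := Hyx_sq hC hm hb hw i
    have a2 : (m : ℝ) * (1 / (m : ℝ) ^ 2) = 1 / m := by field_simp
    have a3 : (2 : ℝ) / m * 1 = 1 / m + 1 / m := by ring
    have a4 : 0 < 1 / (m : ℝ) := by positivity
    have a5 : C ^ 2 * (Real.log m / m) ≤
        (C ^ 2 + (2 * (4 * C ^ 4 + 16 * C ^ 8 * C') + 2)) * Real.log m / m := by
      rw [mul_div_assoc]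
      refine mul_le_mul_of_nonneg_right ?_ (by positivity)
      have : 0 < 2 * (4 * C ^ 4 + 16 * C ^ 8 * C') + 2 := by positivity
      linarith
    rw [a2, a3]
    linarith
  · intro f
    exact Hyx_norm hm (fun f => hs f) (hx x hb hw) f
  · refine (Hyx_four hC hm hb hw C' hcod).trans ?_
    have : 0 < C ^ 2 := by positivity
    linarith

end Pool.Agent.PCW
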