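import Mathlib
import Pool.Agent.PCW.St

set_option autoImplicit false

/-! PCW Idn: the identity for `ham`. -/

namespace Pool.Agent.PCW

open Finset Filter MeasureTheory

/-! ### linearity of the functional -/

private theorem Idn_fin : IsFiniteMeasure nu := by
  constructor
  rw [nu, Measure.smul_apply, Measure.restrict_apply MeasurableSet.univ, Set.univ_inter,
    Real.volume_Ioc, smul_eq_mul]
  exact ENNReal.mul_lt_top ENNReal.ofReal_lt_top ENNReal.ofReal_lt_top

private theorem Idn_cw_cont (ρ : ℝ) : Continuous (cw ρ) := by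
  unfold cw
  fun_prop

private theorem Idn_pt_cont (ρ : ℝ) : Continuous (pt ρ) := by
  unfold pt
  fun_prop

private theorem Idn_pt_norm (θ : ℝ) : ‖pt 2 θ‖ = 2 := by
  unfold pt
  rw [norm_mul, Complex.norm_exp_ofReal_mul_I]
  simp

private theorem Idn_cw_norm (θ : ℝ) : ‖cw 2 θ‖ ≤ 2 := by
  unfold cw
  have h1 : ‖Complex.exp (-(θ * Complex.I))‖ = 1 := by
    have : (-(θ * Complex.I) : ℂ) = ((-θ : ℝ) : ℂ) * Complex.I := by
      push_cast
      ring
    rw [this, Complex.norm_exp_ofReal_mul_I]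
  have h2 : ‖Complex.exp (-(θ * Complex.I)) / ((2 : ℝ) : ℂ)‖ = 1 / 2 := by
    rw [norm_div, h1]
    simp
  have h3 : ‖((2 : ℝ) : ℂ) / 4 * Complex.exp (θ * Complex.I)‖ = 1 / 2 := by
    rw [norm_mul, Complex.norm_exp_ofReal_mul_I, norm_div]
    norm_num
  calc _ ≤ ‖(1 : ℂ) + Complex.exp (-(θ * Complex.I)) / ((2 : ℝ) : ℂ)‖ +
      ‖((2 : ℝ) : ℂ) / 4 * Complex.exp (θ * Complex.I)‖ := norm_add_le _ _
    _ ≤ (‖(1 : ℂ)‖ + ‖Complex.exp (-(θ * Complex.I)) / ((2 : ℝ) : ℂ)‖) +
      ‖((2 : ℝ) : ℂ) / 4 * Complex.exp (θ * Complex.I)‖ := by gcongr; exact norm_add_le _ _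
    _ = 2 := by rw [h2, h3, norm_one]; norm_num

private theorem Idn_int {ι : Type} [Fintype ι] (F : (ι → ℂ) → ℂ) (hF : Continuous F) :
    Integrable (fun θ : ι → ℝ => (∏ v, cw 2 (θ v)) * F (fun v => pt 2 (θ v)))
      (Measure.pi fun _ => nu) := by
  have : IsFiniteMeasure nu := Idn_fin
  have hc1 : Continuous fun θ : ι → ℝ => ∏ v, cw 2 (θ v) :=
    continuous_finsetProd _ fun v _ => (Idn_cw_cont 2).comp (continuous_apply v)
  have hc2 : Continuous fun θ : ι → ℝ => F (fun v => pt 2 (θ v)) :=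
    hF.comp (continuous_pi fun v => (Idn_pt_cont 2).comp (continuous_apply v))
  obtain ⟨C, hC⟩ := (isCompact_closedBall (0 : ι → ℂ) 2).exists_bound_of_continuousOn
    hF.continuousOn
  refine Integrable.of_bound (hc1.mul hc2).aestronglyMeasurable (2 ^ Fintype.card ι * C)
    (Filter.Eventually.of_forall fun θ => ?_)
  rw [norm_mul, norm_prod]
  have h1 : ∏ v, ‖cw 2 (θ v)‖ ≤ 2 ^ Fintype.card ι := by
    calc ∏ v, ‖cw 2 (θ v)‖ ≤ ∏ _v : ι, (2 : ℝ) :=
          Finset.prod_le_prod (fun _ _ => norm_nonneg _) fun v _ => Idn_cw_norm _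
      _ = 2 ^ Fintype.card ι := by rw [Finset.prod_const, Finset.card_univ]
  have h2 : ‖F (fun v => pt 2 (θ v))‖ ≤ C := by
    apply hC
    rw [mem_closedBall_zero_iff, pi_norm_le_iff_of_nonneg (by norm_num)]
    intro v
    rw [Idn_pt_norm]
  exact mul_le_mul h1 h2 (norm_nonneg _) (by positivity)

private theorem Idn_lin {ι κ : Type} [Fintype ι] [Fintype κ] (c : κ → ℂ)
    (F : κ → (ι → ℂ) → ℂ) (hF : ∀ k, Continuous (F k)) :
    JJ (fun _ : ι => (2 : ℝ)) (fun x => -∑ k, c k * F k x) =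
      -∑ k, c k * JJ (fun _ : ι => (2 : ℝ)) (F k) := by
  unfold JJ
  have h1 : ∀ θ : ι → ℝ, (∏ v, cw 2 (θ v)) * -∑ k, c k * F k (fun v => pt 2 (θ v)) =
      -∑ k, c k * ((∏ v, cw 2 (θ v)) * F k (fun v => pt 2 (θ v))) := by
    intro θ
    rw [mul_neg, Finset.mul_sum]
    congr 1
    exact Finset.sum_congr rfl fun k _ => by ring
  simp_rw [h1]
  rw [integral_neg, integral_finsetSum _ fun k _ => (Idn_int (F k) (hF k)).const_mul (c k)]
  congr 1
  exact Finset.sum_congr rfl fun k _ => integral_const_mul _ _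

/-! ### one cycle -/

/-- the permutation of `V` belonging to a pair of permutations -/
private def Idn_P {m : ℕ} (q : Equiv.Perm (Fin m) × Equiv.Perm (Fin m)) : Equiv.Perm (V m) :=
  (Equiv.sumCongr q.1 q.2⁻¹).trans (Equiv.sumComm _ _)

private theorem Idn_P_inl {m : ℕ} (q : Equiv.Perm (Fin m) × Equiv.Perm (Fin m)) (i : Fin m) :
    Idn_P q (Sum.inl i) = Sum.inr (q.1 i) := rfl

private theorem Idn_P_inr {m : ℕ} (q : Equiv.Perm (Fin m) × Equiv.Perm (Fin m)) (i : Fin m) :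
    Idn_P q (Sum.inr i) = Sum.inl (q.2⁻¹ i) := rfl

private theorem Idn_inj {m : ℕ} : Function.Injective (Idn_P (m := m)) := by
  rintro ⟨σ, τ⟩ ⟨σ', τ'⟩ h
  have h1 : σ = σ' := by
    ext i
    have := congrArg (fun w : Equiv.Perm (V m) => w (Sum.inl i)) h
    simp only [Idn_P_inl, Sum.inr.injEq] at this
    rw [this]
  have h2 : τ⁻¹ = τ'⁻¹ := by
    ext i
    have := congrArg (fun w : Equiv.Perm (V m) => w (Sum.inr i)) h
    simp only [Idn_P_inr, Sum.inl.injEq] at this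
    rw [this]
  rw [h1, inv_injective h2]

private theorem Idn_range {m : ℕ} (ω : Equiv.Perm (V m))
    (h : ∀ i, ∃ j, ω (Sum.inl i) = Sum.inr j) : ω ∈ Set.range (Idn_P (m := m)) := by
  have h1 : (ω.trans (Equiv.sumComm (Fin m) (Fin m)) : Equiv.Perm (V m)) ∈
      (Equiv.Perm.sumCongrHom (Fin m) (Fin m)).range := by
    apply Equiv.Perm.mem_sumCongrHom_range_of_perm_mapsTo_inl
    rintro _ ⟨i, rfl⟩
    obtain ⟨j, hj⟩ := h i
    exact ⟨j, by rw [Equiv.trans_apply, hj]; rfl⟩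
  obtain ⟨⟨σ, ρ⟩, hσ⟩ := h1
  refine ⟨(σ, ρ⁻¹), ?_⟩
  ext v
  have h2 : ∀ v, Equiv.sumCongr σ ρ v = Equiv.sumComm (Fin m) (Fin m) (ω v) := fun v => by
    have := congrArg (fun w : Equiv.Perm (V m) => w v) hσ
    exact this
  show (Equiv.sumComm _ _) (Equiv.sumCongr σ ρ⁻¹⁻¹ v) = ω v
  rw [inv_inv, h2 v]
  cases ω v <;> rfl

private theorem Idn_sq {m : ℕ} (q : Equiv.Perm (Fin m) × Equiv.Perm (Fin m)) (i : Fin m) :
    (Idn_P q ^ 2) (Sum.inl i) = Sum.inl ((q.2⁻¹ * q.1) i) := by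
  rw [pow_two, Equiv.Perm.mul_apply, Idn_P_inl, Idn_P_inr]
  rfl

private theorem Idn_zpow {m : ℕ} (q : Equiv.Perm (Fin m) × Equiv.Perm (Fin m)) (k : ℤ)
    (i : Fin m) : (Idn_P q ^ (2 * k)) (Sum.inl i) = Sum.inl (((q.2⁻¹ * q.1) ^ k) i) := by
  have h0 : ∀ n : ℕ, ∀ i : Fin m,
      ((Idn_P q ^ 2) ^ n) (Sum.inl i) = Sum.inl (((q.2⁻¹ * q.1) ^ n) i) := by
    intro n
    induction n with
    | zero => intro i; rfl
    | succ n ih =>
      intro i
      rw [pow_succ, Equiv.Perm.mul_apply, Idn_sq, ih, pow_succ, Equiv.Perm.mul_apply]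
      rfl
  have e : Idn_P q ^ (2 * k) = (Idn_P q ^ 2) ^ k := by
    rw [zpow_mul]
    rfl
  rw [e]
  rcases Int.eq_nat_or_neg k with ⟨n, rfl | rfl⟩
  · rw [zpow_natCast, zpow_natCast]
    exact h0 n i
  · rw [zpow_neg, zpow_neg, zpow_natCast, zpow_natCast, Equiv.Perm.inv_eq_iff_eq, h0]
    rw [← Equiv.Perm.mul_apply, mul_inv_cancel]
    rfl

private theorem Idn_par {m : ℕ} (q : Equiv.Perm (Fin m) × Equiv.Perm (Fin m)) (k : ℤ)
    (i j : Fin m) (h : (Idn_P q ^ (2 * k + 1)) (Sum.inl i) = Sum.inl j) : False := by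
  rw [zpow_add_one, Equiv.Perm.mul_apply, Idn_P_inl] at h
  have h1 : Sum.inr (q.1 i) = (Idn_P q ^ (-(2 * k) : ℤ)) (Sum.inl j) := by
    rw [zpow_neg, ← h, ← Equiv.Perm.mul_apply, inv_mul_cancel]
    rfl
  have h2 : (-(2 * k) : ℤ) = 2 * (-k) := by ring
  rw [h2, Idn_zpow] at h1
  exact absurd h1 (by simp)

private theorem Idn_cyc {m : ℕ} (q : Equiv.Perm (Fin m) × Equiv.Perm (Fin m)) :
    Cyc (Idn_P q) ↔ Cyc (q.1⁻¹ * q.2) := by
  have hinv : (q.1⁻¹ * q.2) = (q.2⁻¹ * q.1)⁻¹ := by rw [mul_inv_rev, inv_inv]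
  constructor
  · intro h i j
    rw [hinv, Equiv.Perm.sameCycle_inv]
    obtain ⟨k, hk⟩ := h (Sum.inl i) (Sum.inl j)
    obtain ⟨l, hl | hl⟩ := Int.even_or_odd' k
    · rw [hl, Idn_zpow] at hk
      exact ⟨l, Sum.inl.inj hk⟩
    · rw [hl] at hk
      exact (Idn_par q l i j hk).elim
  · intro h
    have h1 : ∀ i j : Fin m, (Idn_P q).SameCycle (Sum.inl i) (Sum.inl j) := by
      intro i j
      have h2 := h i j
      rw [hinv, Equiv.Perm.sameCycle_inv] at h2
      obtain ⟨k, hk⟩ := h2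
      exact ⟨2 * k, by rw [Idn_zpow, hk]⟩
    have h3 : ∀ x : V m, ∃ i : Fin m, (Idn_P q).SameCycle x (Sum.inl i) := by
      rintro (i | i)
      · exact ⟨i, Equiv.Perm.SameCycle.refl _ _⟩
      · exact ⟨q.2⁻¹ i, 1, by rw [zpow_one, Idn_P_inr]⟩
    intro x y
    obtain ⟨i, hi⟩ := h3 x
    obtain ⟨j, hj⟩ := h3 y
    exact hi.trans ((h1 i j).trans hj.symm)

private theorem Idn_ham {m : ℕ} (E : Matrix (Fin m) (Fin m) ℝ) (hE : ∀ i j, E i j = E j i) :
    (∑ ω : Equiv.Perm (V m), (open scoped Classical in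
      if Cyc ω then ∏ v, Bb E v (ω v) else 0)) = ham (BB E) := by
  classical
  have hB : ∀ i j, BB E i j = BB E j i := fun i j => by unfold BB; rw [hE]
  have h1 : ham (BB E) = ∑ q : Equiv.Perm (Fin m) × Equiv.Perm (Fin m),
      if Cyc (q.1⁻¹ * q.2) then (∏ i, BB E i (q.1 i)) * ∏ i, BB E i (q.2 i) else 0 := by
    unfold ham
    rw [Fintype.sum_prod_type]
  rw [h1]
  symm
  refine Fintype.sum_of_injective Idn_P Idn_inj _ _ ?_ ?_
  · intro ω hω
    have h2 : ∃ i, ∀ j, ω (Sum.inl i) ≠ Sum.inr j := by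
      by_contra hc
      push Not at hc
      exact hω (Idn_range ω hc)
    obtain ⟨i, hi⟩ := h2
    have h3 : Bb E (Sum.inl i) (ω (Sum.inl i)) = 0 := by
      cases h4 : ω (Sum.inl i) with
      | inl j => rfl
      | inr j => exact absurd h4 (hi j)
    rw [Finset.prod_eq_zero (Finset.mem_univ (Sum.inl i)) h3]
    simp
  · intro q
    have h2 : ∏ v, Bb E v (Idn_P q v) = (∏ i, BB E i (q.1 i)) * ∏ i, BB E i (q.2 i) := by
      rw [Fintype.prod_sum_type]
      congr 1
      calc ∏ i, Bb E (Sum.inr i) (Idn_P q (Sum.inr i)) = ∏ i, BB E i (q.2⁻¹ i) := rfl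
        _ = ∏ i, BB E (q.2 i) (q.2⁻¹ (q.2 i)) := (Equiv.prod_comp q.2 _).symm
        _ = ∏ i, BB E i (q.2 i) := Finset.prod_congr rfl fun i _ => by
          have h5 : q.2⁻¹ (q.2 i) = i := q.2.symm_apply_apply i
          rw [h5, hB]
    rw [h2]
    by_cases hc : Cyc (q.1⁻¹ * q.2)
    · rw [if_pos hc, if_pos ((Idn_cyc q).2 hc)]
    · rw [if_neg hc, if_neg fun h => hc ((Idn_cyc q).1 h)]

/-! ### balanced supports -/

private theorem Idn_bal {m : ℕ} (E : Matrix (Fin m) (Fin m) ℝ) (π : Equiv.Perm (V m))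
    (h : ∏ v ∈ π.support, Bb E (π v) v ≠ 0) :
    (π.supportᶜ.filter (fun v => v.isLeft)).card =
      (π.supportᶜ.filter (fun v => v.isRight)).card := by
  have h0 : ∀ v ∈ π.support, Bb E (π v) v ≠ 0 := fun v hv h1 =>
    h (Finset.prod_eq_zero hv h1)
  have hl : ∀ v ∈ π.support, v.isLeft = true → (π v).isRight = true := by
    intro v hv h1
    by_contra h2
    apply h0 v hv
    cases v with
    | inl i =>
      cases h3 : π (Sum.inl i) with
      | inl j => rfl
      | inr j => rw [h3] at h2; simp at h2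
    | inr i => simp at h1
  have hr : ∀ v ∈ π.support, v.isRight = true → (π v).isLeft = true := by
    intro v hv h1
    by_contra h2
    apply h0 v hv
    cases v with
    | inr i =>
      cases h3 : π (Sum.inr i) with
      | inr j => rfl
      | inl j => rw [h3] at h2; simp at h2
    | inl i => simp at h1
  have c1 : (π.support.filter (fun v => v.isLeft)).card ≤
      (π.support.filter (fun v => v.isRight)).card := by
    apply Finset.card_le_card_of_injOn π
    · intro v hv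
      rw [Finset.mem_coe, Finset.mem_filter] at hv
      rw [Finset.mem_coe, Finset.mem_filter]
      exact ⟨Equiv.Perm.apply_mem_support.2 hv.1, hl v hv.1 hv.2⟩
    · exact π.injective.injOn
  have c2 : (π.support.filter (fun v => v.isRight)).card ≤
      (π.support.filter (fun v => v.isLeft)).card := by
    apply Finset.card_le_card_of_injOn π
    · intro v hv
      rw [Finset.mem_coe, Finset.mem_filter] at hv
      rw [Finset.mem_coe, Finset.mem_filter]
      exact ⟨Equiv.Perm.apply_mem_support.2 hv.1, hr v hv.1 hv.2⟩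
    · exact π.injective.injOn
  have s1 : (π.support.filter (fun v => v.isLeft)).card +
      (π.supportᶜ.filter (fun v => v.isLeft)).card = m := by
    rw [Finset.card_filter, Finset.card_filter, Finset.sum_add_sum_compl,
      Fintype.sum_sum_type]
    simp
  have s2 : (π.support.filter (fun v => v.isRight)).card +
      (π.supportᶜ.filter (fun v => v.isRight)).card = m := by
    rw [Finset.card_filter, Finset.card_filter, Finset.sum_add_sum_compl,
      Fintype.sum_sum_type]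
    simp
  omega

private theorem Idn_symm {m : ℕ} (E : Matrix (Fin m) (Fin m) ℝ) (hE : ∀ i j, E i j = E j i)
    (v w : V m) : Bb E v w = Bb E w v := by
  have hB : ∀ i j, BB E i j = BB E j i := fun i j => by unfold BB; rw [hE]
  rcases v with i | i <;> rcases w with j | j <;> simp [Bb, hB i j]

private theorem Idn_cont {m : ℕ} (E : Matrix (Fin m) (Fin m) ℝ) (α β : ℝ) (S T : Finset (V m)) :
    Continuous fun x : V m → ℂ => (∏ v ∈ T, x v) * ∏ v ∈ S, dv E α β x v := by
  unfold dv xi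
  fun_prop

theorem thm_Idn (h1 : St_Tog) (h2 : St_Psx) (h3 : St_Prm) : St_Idn := by
  classical
  intro m E hm hE
  -- the coefficients
  set cR : Equiv.Perm (V m) → ℝ := fun π => ((Equiv.Perm.sign π : ℤ) : ℝ) * π.support.card *
    (-1) ^ π.support.card * ∏ v ∈ π.support, Bb E (π v) v with hcR
  set F : Equiv.Perm (V m) → ℝ × ℝ → (V m → ℂ) → ℂ := fun π p x =>
    (∏ v ∈ π.support, x v) * ∏ v ∈ π.supportᶜ, dv E (p.1 / m) (p.2 / m) x v with hF
  have e1 : ∀ p : ℝ × ℝ, HH E (p.1 / m) (p.2 / m) =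
      -∑ π, (cR π : ℂ) * JJ (fun _ => 2) (F π p) := by
    intro p
    rw [← Idn_lin (fun π => (cR π : ℂ)) (fun π => F π p) fun π => Idn_cont E _ _ _ _]
    unfold HH
    congr 1
    funext x
    rw [h2]
    congr 1
    refine Finset.sum_congr rfl fun π _ => ?_
    simp only [hcR, hF]
    push_cast
    rfl
  -- the single terms
  have e2 : ∀ π, cR π ≠ 0 → IntegrableOn (fun p : ℝ × ℝ => (Real.exp (-p.1 - p.2) : ℂ) *
      JJ (fun _ => 2) (F π p)) (Set.Ioi 0 ×ˢ Set.Ioi 0) ∧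
      ∫ p in Set.Ioi (0 : ℝ) ×ˢ Set.Ioi (0 : ℝ), (Real.exp (-p.1 - p.2) : ℂ) *
        JJ (fun _ => 2) (F π p) = ((∑ κ : Equiv.Perm (V m),
          if Equiv.Perm.Disjoint π κ then ∏ v ∈ π.supportᶜ, Bb E v (κ v) else 0 : ℝ) : ℂ) := by
    intro π hπ
    have hne : ∏ v ∈ π.support, Bb E (π v) v ≠ 0 := fun h0 => hπ (by simp only [hcR, h0, mul_zero])
    have h4 := h3 m E π.supportᶜ hm (Idn_bal E π hne)
    simp only [compl_compl] at h4
    refine ⟨h4.1, ?_⟩
    rw [h4.2]
    congr 1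
    refine Finset.sum_congr rfl fun κ _ => ?_
    have h5 : (∀ v, v ∉ π.supportᶜ → κ v = v) ↔ Equiv.Perm.Disjoint π κ := by
      constructor
      · intro h v
        by_cases hv : π v = v
        · exact Or.inl hv
        · exact Or.inr (h v (by rw [Finset.mem_compl, not_not, Equiv.Perm.mem_support]; exact hv))
      · intro h v hv
        rw [Finset.mem_compl, not_not, Equiv.Perm.mem_support] at hv
        exact (h v).resolve_left hv
    by_cases h6 : Equiv.Perm.Disjoint π κ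
    · rw [if_pos (h5.2 h6), if_pos h6]
    · rw [if_neg fun h => h6 (h5.1 h), if_neg h6]
  have e3 : ∀ p : ℝ × ℝ, (Real.exp (-p.1 - p.2) : ℂ) * HH E (p.1 / m) (p.2 / m) =
      -∑ π, (cR π : ℂ) * ((Real.exp (-p.1 - p.2) : ℂ) * JJ (fun _ => 2) (F π p)) := by
    intro p
    rw [e1, mul_neg, Finset.mul_sum]
    congr 1
    exact Finset.sum_congr rfl fun π _ => by ring
  have e4 : ∀ π, IntegrableOn (fun p : ℝ × ℝ => (cR π : ℂ) * ((Real.exp (-p.1 - p.2) : ℂ) *
      JJ (fun _ => 2) (F π p))) (Set.Ioi 0 ×ˢ Set.Ioi 0) := by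
    intro π
    by_cases hπ : cR π = 0
    · rw [hπ]
      simp only [Complex.ofReal_zero, zero_mul]
      exact integrableOn_zero
    · exact (e2 π hπ).1.const_mul _
  constructor
  · simp_rw [e3]
    exact (integrable_finsetSum _ fun π _ => e4 π).neg
  · simp_rw [e3]
    rw [integral_neg, integral_finsetSum _ fun π _ => e4 π]
    have e5 : ∀ π, ∫ p in Set.Ioi (0 : ℝ) ×ˢ Set.Ioi (0 : ℝ), (cR π : ℂ) *
        ((Real.exp (-p.1 - p.2) : ℂ) * JJ (fun _ => 2) (F π p)) =
        ((cR π * ∑ κ : Equiv.Perm (V m),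
          if Equiv.Perm.Disjoint π κ then ∏ v ∈ π.supportᶜ, Bb E v (κ v) else 0 : ℝ) : ℂ) := by
      intro π
      by_cases hπ : cR π = 0
      · rw [hπ]
        simp
      · rw [integral_const_mul, (e2 π hπ).2]
        push_cast
        rfl
    rw [Finset.sum_congr rfl fun π _ => e5 π, ← Complex.ofReal_sum, ← Complex.ofReal_neg]
    congr 1
    have e6 := h1 (V m) (Bb E) (fun v => by
      rcases v with i | i <;> simp [Bb])
    rw [Idn_ham E hE] at e6
    have e7 : ∑ π, cR π * ∑ κ : Equiv.Perm (V m),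
          (if Equiv.Perm.Disjoint π κ then ∏ v ∈ π.supportᶜ, Bb E v (κ v) else 0) =
        -((Fintype.card (V m) : ℕ) : ℝ) * ham (BB E) := by
      rw [← e6]
      refine Finset.sum_congr rfl fun π _ => ?_
      rw [Finset.mul_sum]
      refine Finset.sum_congr rfl fun κ _ => ?_
      have e8 : ∏ v ∈ π.support, Bb E (π v) v = ∏ v ∈ π.support, Bb E v (π v) :=
        Finset.prod_congr rfl fun v _ => Idn_symm E hE _ _
      by_cases h6 : Equiv.Perm.Disjoint π κ
      · rw [if_pos h6, if_pos h6]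
        simp only [hcR]
        rw [e8]
        ring
      · rw [if_neg h6, if_neg h6, mul_zero]
    rw [e7]
    have e9 : ((Fintype.card (V m) : ℕ) : ℝ) = 2 * m := by
      rw [Fintype.card_sum, Fintype.card_fin]
      push_cast
      ring
    rw [e9]
    ring

end Pool.Agent.PCW
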