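import Mathlib
import Pool.Agent.PCW.St

set_option autoImplicit false

/-! PCW Int: the integration (section 5 of the paper); Theorem A. -/

namespace Pool.Agent.PCW

open Finset Filter MeasureTheory Matrix

/-- the density of the main term in one variable -/
private noncomputable def Int_g (m : ℕ) (a : ℝ) : ℝ := Real.exp (-a) * (a / m) ^ m

/-- the majorant in one variable -/
private noncomputable def Int_e (m : ℕ) (a : ℝ) : ℝ := Real.exp (-(1 / (200 * (m : ℝ))) * a)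

private theorem Int_gint (m : ℕ) : IntegrableOn (Int_g m) (Set.Ioi 0) ∧
    ∫ a in Set.Ioi (0 : ℝ), Int_g m a = (m.factorial : ℝ) / (m : ℝ) ^ m := by
  have hs : (0 : ℝ) < (m : ℝ) + 1 := by positivity
  have h1 := Real.GammaIntegral_convergent hs
  have h2 := Real.Gamma_eq_integral hs
  rw [Real.Gamma_nat_eq_factorial] at h2
  have he : (fun x : ℝ => Real.exp (-x) * x ^ ((m : ℝ) + 1 - 1)) =
      fun x : ℝ => Real.exp (-x) * x ^ m := by
    funext x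
    rw [add_sub_cancel_right, Real.rpow_natCast]
  rw [he] at h1
  have h3 : (m.factorial : ℝ) = ∫ x in Set.Ioi (0 : ℝ), Real.exp (-x) * x ^ m := by
    rw [h2]
    congr 1
  have hg : Int_g m = fun x : ℝ => (Real.exp (-x) * x ^ m) * ((m : ℝ) ^ m)⁻¹ := by
    funext x
    rw [Int_g, div_pow]
    ring
  rw [hg]
  refine ⟨h1.mul_const _, ?_⟩
  rw [integral_mul_const, ← h3]
  rfl

private theorem Int_eint {m : ℕ} (hm : 1 ≤ m) : IntegrableOn (Int_e m) (Set.Ioi 0) ∧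
    ∫ a in Set.Ioi (0 : ℝ), Int_e m a = 200 * m := by
  have hm0 : (0 : ℝ) < m := by exact_mod_cast hm
  have hneg : -(1 / (200 * (m : ℝ))) < 0 := by
    have : 0 < 1 / (200 * (m : ℝ)) := by positivity
    linarith
  refine ⟨integrableOn_exp_mul_Ioi hneg 0, ?_⟩
  have h := integral_exp_mul_Ioi hneg 0
  have h2 : ∫ a in Set.Ioi (0 : ℝ), Int_e m a =
      ∫ x : ℝ in Set.Ioi 0, Real.exp (-(1 / (200 * (m : ℝ))) * x) := rfl
  rw [h2, h, mul_zero, Real.exp_zero]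
  field_simp

/-- `s e^{-s}` against the rate function -/
private theorem Int_gg {α : ℝ} (hα : 0 ≤ α) :
    α * Real.exp (-α) ≤ Real.exp (-1) * Real.exp (-(1 / 50 * gg α)) := by
  obtain ⟨s, hs, rfl⟩ : ∃ s : ℝ, 0 ≤ s ∧ α = s ^ 2 :=
    ⟨√α, Real.sqrt_nonneg _, (Real.sq_sqrt hα).symm⟩
  have h1 : s ≤ Real.exp (s - 1) := by
    have := Real.add_one_le_exp (s - 1)
    linarith
  have h2 : s ^ 2 ≤ Real.exp (2 * (s - 1)) := by
    have : Real.exp (2 * (s - 1)) = Real.exp (s - 1) ^ 2 := by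
      rw [← Real.exp_nat_mul]
      norm_num
    rw [this]
    exact pow_le_pow_left₀ hs h1 2
  have h3 : 1 / 50 * gg (s ^ 2) ≤ (s - 1) ^ 2 := by
    unfold gg
    rcases le_or_gt s (3 / 2) with h | h
    · have h4 : min ((s ^ 2 - 1) ^ 2) |s ^ 2 - 1| ≤ (s ^ 2 - 1) ^ 2 := min_le_left _ _
      have h5 : (s ^ 2 - 1) ^ 2 ≤ 50 * (s - 1) ^ 2 := by
        have h6 : (s ^ 2 - 1) ^ 2 = (s - 1) ^ 2 * (s + 1) ^ 2 := by ring
        rw [h6]
        have h7 : (s + 1) ^ 2 ≤ 50 := by nlinarith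
        nlinarith [sq_nonneg (s - 1)]
      linarith
    · have h4 : min ((s ^ 2 - 1) ^ 2) |s ^ 2 - 1| ≤ |s ^ 2 - 1| := min_le_right _ _
      have h5 : |s ^ 2 - 1| = s ^ 2 - 1 := abs_of_nonneg (by nlinarith)
      have h6 := h4.trans (le_of_eq h5)
      nlinarith
  calc s ^ 2 * Real.exp (-s ^ 2) ≤ Real.exp (2 * (s - 1)) * Real.exp (-s ^ 2) :=
        mul_le_mul_of_nonneg_right h2 (Real.exp_pos _).le
    _ = Real.exp (2 * (s - 1) + -s ^ 2) := (Real.exp_add _ _).symm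
    _ ≤ Real.exp (-1 + -(1 / 50 * gg (s ^ 2))) := by
        apply Real.exp_le_exp.mpr
        nlinarith
    _ = Real.exp (-1) * Real.exp (-(1 / 50 * gg (s ^ 2))) := Real.exp_add _ _

private theorem Int_gnn (α : ℝ) : 0 ≤ gg α := le_min (sq_nonneg _) (abs_nonneg _)

private theorem Int_gm {m : ℕ} {α : ℝ} (hα : 0 ≤ α) :
    Real.exp (-(m * α)) * α ^ m ≤ Real.exp (-m) * Real.exp (-(1 / 50 * m * gg α)) := by
  have h := pow_le_pow_left₀ (mul_nonneg hα (Real.exp_pos _).le) (Int_gg hα) m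
  rw [mul_pow, mul_pow, ← Real.exp_nat_mul, ← Real.exp_nat_mul, ← Real.exp_nat_mul] at h
  have e1 : (m : ℝ) * -α = -(m * α) := by ring
  have e2 : (m : ℝ) * -1 = -m := by ring
  have e3 : (m : ℝ) * -(1 / 50 * gg α) = -(1 / 50 * m * gg α) := by ring
  rw [e1, e2, e3] at h
  linarith

private theorem Int_tail {m : ℕ} (hm : 1 ≤ m) {a : ℝ} (ha : 0 < a) :
    Real.exp (-(1 / 100 * m * gg (a / m))) ≤ 2 * Int_e m a := by
  have hm0 : (1 : ℝ) ≤ m := by exact_mod_cast hm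
  have hmp : (0 : ℝ) < m := by linarith
  unfold Int_e
  have hx : -(1 / (200 * (m : ℝ))) * a = -(1 / 200 * (a / m)) := by
    field_simp
  rw [hx]
  rcases le_or_gt (a / m) 2 with h | h
  · have h1 : Real.exp (-(1 / 100 * m * gg (a / m))) ≤ 1 := by
      apply Real.exp_le_one_iff.mpr
      have := Int_gnn (a / m)
      have : 0 ≤ 1 / 100 * m * gg (a / m) := by positivity
      linarith
    have h2 : 1 - 1 / 100 ≤ Real.exp (-(1 / 200 * (a / m))) := by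
      have := Real.add_one_le_exp (-(1 / 200 * (a / m)))
      linarith
    linarith
  · have hg : a / m - 1 ≤ gg (a / m) := by
      apply le_min
      · nlinarith
      · exact le_abs_self _
    have h1 : Real.exp (-(1 / 100 * m * gg (a / m))) ≤ Real.exp (-(1 / 200 * (a / m))) := by
      apply Real.exp_le_exp.mpr
      have h2 : 1 / 100 * (m : ℝ) * gg (a / m) ≥ 1 / 100 * 1 * (a / m - 1) := by
        have h3 : 0 ≤ a / m - 1 := by linarith
        have h4 : (1 : ℝ) * (a / m - 1) ≤ m * gg (a / m) := mul_le_mul hm0 hg h3 (by linarith)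
        nlinarith
      nlinarith
    have := Real.exp_pos (-(1 / 200 * (a / m)))
    linarith

private theorem Int_lim (C' : ℕ) {ε : ℝ} (hε : 0 < ε) : ∀ᶠ m : ℕ in atTop,
    (m : ℝ) ^ (-(1 / 10) : ℝ) + 160000 * (m : ℝ) ^ 2 * (((m : ℝ) ^ C' + 2) *
      Real.exp (-((m : ℝ) ^ (1 / 5 : ℝ) / 100))) ≤ 2 * ε := by
  have hz : Tendsto (fun m : ℕ => (m : ℝ) ^ (1 / 5 : ℝ) / 100) atTop atTop :=
    ((tendsto_rpow_atTop (by norm_num : (0 : ℝ) < 1 / 5)).comp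
      tendsto_natCast_atTop_atTop).atTop_div_const (by norm_num)
  have h1 : Tendsto (fun m : ℕ => (m : ℝ) ^ (-(1 / 10) : ℝ)) atTop (nhds 0) :=
    (tendsto_rpow_neg_atTop (by norm_num : (0 : ℝ) < 1 / 10)).comp tendsto_natCast_atTop_atTop
  have h2 : Tendsto (fun z : ℝ => 160000 * 100 ^ (10 + 5 * C') *
      (z ^ (10 + 5 * C') * Real.exp (-z)) + 320000 * 100 ^ 10 * (z ^ 10 * Real.exp (-z)))
      atTop (nhds (160000 * 100 ^ (10 + 5 * C') * 0 + 320000 * 100 ^ 10 * 0)) :=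
    ((Real.tendsto_pow_mul_exp_neg_atTop_nhds_zero _).const_mul _).add
      ((Real.tendsto_pow_mul_exp_neg_atTop_nhds_zero _).const_mul _)
  have h3 := h1.add (h2.comp hz)
  simp only [mul_zero, add_zero] at h3
  have h4 := h3.eventually (ge_mem_nhds (show (0 : ℝ) < 2 * ε by positivity))
  filter_upwards [h4] with m hm
  refine le_trans (le_of_eq ?_) hm
  simp only [Function.comp_apply]
  have hm0 : (0 : ℝ) ≤ m := Nat.cast_nonneg m
  have hy : (m : ℝ) = (100 * ((m : ℝ) ^ (1 / 5 : ℝ) / 100)) ^ 5 := by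
    rw [mul_div_cancel₀ _ (by norm_num : (100 : ℝ) ≠ 0), ← Real.rpow_natCast, ← Real.rpow_mul hm0]
    norm_num
  obtain ⟨z, hzd⟩ : ∃ z : ℝ, z = (m : ℝ) ^ (1 / 5 : ℝ) / 100 := ⟨_, rfl⟩
  rw [← hzd] at hy ⊢
  have e1 : (m : ℝ) ^ 2 = 100 ^ 10 * z ^ 10 := by
    rw [hy]
    ring
  have e2 : (m : ℝ) ^ C' = 100 ^ (5 * C') * z ^ (5 * C') := by
    rw [hy, ← pow_mul, mul_pow]
  rw [e1, e2, pow_add, pow_add]
  ring

private theorem Int_dl {m : ℕ} (hm : 1 ≤ m) : 0 < dl m ∧ dl m ≤ 1 ∧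
    (m : ℝ) * dl m ^ 2 = (m : ℝ) ^ (1 / 5 : ℝ) := by
  have hm1 : (1 : ℝ) ≤ m := by exact_mod_cast hm
  have hm0 : (0 : ℝ) < m := by linarith
  unfold dl
  refine ⟨Real.rpow_pos_of_pos hm0 _, Real.rpow_le_one_of_one_le_of_nonpos hm1 (by norm_num), ?_⟩
  rw [← Real.rpow_natCast, ← Real.rpow_mul hm0.le]
  nth_rewrite 1 [← Real.rpow_one (m : ℝ)]
  rw [← Real.rpow_add hm0]
  norm_num

private theorem Int_out {m : ℕ} (hm : 1 ≤ m) {α : ℝ} (h : ¬ |α - 1| ≤ dl m) :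
    dl m ^ 2 ≤ gg α := by
  obtain ⟨h1, h2, -⟩ := Int_dl hm
  rw [not_le] at h
  apply le_min
  · rw [← sq_abs (α - 1)]
    exact pow_le_pow_left₀ h1.le h.le 2
  · nlinarith

private theorem Int_key {m : ℕ} {C' : ℕ} (hm : 1 ≤ m) (E : Matrix (Fin m) (Fin m) ℝ)
    (hf : ∀ α β : ℝ, 0 ≤ α → 0 ≤ β →
      Real.exp (-(m * (α + β))) * ‖HH E α β‖ ≤
        (m : ℝ) ^ C' * Real.exp (-(2 * m)) * Real.exp (-(1 / 50) * m * (gg α + gg β)))
    (hc : ∀ α β : ℝ, |α - 1| ≤ dl m → |β - 1| ≤ dl m →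
      ‖HH E α β - 2 * ((α * β : ℝ) : ℂ) ^ m‖ ≤ (m : ℝ) ^ (-(1 / 10) : ℝ) * (α * β) ^ m)
    {a b : ℝ} (ha : 0 < a) (hb : 0 < b) :
    ‖(Real.exp (-a - b) : ℂ) * HH E (a / m) (b / m) - ((2 * (Int_g m a * Int_g m b) : ℝ) : ℂ)‖ ≤
      (m : ℝ) ^ (-(1 / 10) : ℝ) * (Int_g m a * Int_g m b) +
        4 * (((m : ℝ) ^ C' + 2) * Real.exp (-(2 * m)) * Real.exp (-((m : ℝ) ^ (1 / 5 : ℝ) / 100))) *
          (Int_e m a * Int_e m b) := by
  have hm1 : (1 : ℝ) ≤ m := by exact_mod_cast hm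
  have hm0 : (0 : ℝ) < m := by linarith
  obtain ⟨α, hα⟩ : ∃ α : ℝ, α = a / m := ⟨_, rfl⟩
  obtain ⟨β, hβ⟩ : ∃ β : ℝ, β = b / m := ⟨_, rfl⟩
  have hα0 : 0 ≤ α := by rw [hα]; positivity
  have hβ0 : 0 ≤ β := by rw [hβ]; positivity
  have haα : a = m * α := by rw [hα]; field_simp
  have hbβ : b = m * β := by rw [hβ]; field_simp
  have hga : Int_g m a = Real.exp (-(m * α)) * α ^ m := by
    unfold Int_g
    rw [← hα, ← haα]
  have hgb : Int_g m b = Real.exp (-(m * β)) * β ^ m := by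
    unfold Int_g
    rw [← hβ, ← hbβ]
  have hga0 : 0 ≤ Int_g m a := by rw [hga]; positivity
  have hgb0 : 0 ≤ Int_g m b := by rw [hgb]; positivity
  have hea0 : 0 < Int_e m a := Real.exp_pos _
  have heb0 : 0 < Int_e m b := Real.exp_pos _
  have hexp : Real.exp (-a - b) = Real.exp (-(m * (α + β))) := by
    rw [haα, hbβ]
    congr 1
    ring
  have hprod : Real.exp (-(m * (α + β))) * (α * β) ^ m = Int_g m a * Int_g m b := by
    rw [hga, hgb]
    have : Real.exp (-(m * (α + β))) = Real.exp (-(m * α)) * Real.exp (-(m * β)) := by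
      rw [← Real.exp_add]
      congr 1
      ring
    rw [this, mul_pow]
    ring
  have hG : ((2 * (Int_g m a * Int_g m b) : ℝ) : ℂ) =
      (Real.exp (-(m * (α + β))) : ℂ) * (2 * ((α * β : ℝ) : ℂ) ^ m) := by
    rw [← hprod]
    push_cast
    ring
  rw [← hα, ← hβ, hexp, hG]
  have hep := Real.exp_pos (-(m * (α + β)))
  by_cases hin : |α - 1| ≤ dl m ∧ |β - 1| ≤ dl m
  · have h1 := hc α β hin.1 hin.2
    rw [← mul_sub, norm_mul, Complex.norm_real, Real.norm_of_nonneg hep.le]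
    have h2 : Real.exp (-(m * (α + β))) * ‖HH E α β - 2 * ((α * β : ℝ) : ℂ) ^ m‖ ≤
        (m : ℝ) ^ (-(1 / 10) : ℝ) * (Int_g m a * Int_g m b) := by
      rw [← hprod]
      calc _ ≤ Real.exp (-(m * (α + β))) * ((m : ℝ) ^ (-(1 / 10) : ℝ) * (α * β) ^ m) :=
            mul_le_mul_of_nonneg_left h1 hep.le
        _ = _ := by ring
    have h3 : 0 ≤ 4 * (((m : ℝ) ^ C' + 2) * Real.exp (-(2 * m)) *
        Real.exp (-((m : ℝ) ^ (1 / 5 : ℝ) / 100))) * (Int_e m a * Int_e m b) := by positivity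
    linarith
  · have hout : dl m ^ 2 ≤ gg α + gg β := by
      rcases not_and_or.mp hin with h | h
      · have := Int_out hm h
        have := Int_gnn β
        linarith
      · have := Int_out hm h
        have := Int_gnn α
        linarith
    have h1 : ‖(Real.exp (-(m * (α + β))) : ℂ) * HH E α β -
        (Real.exp (-(m * (α + β))) : ℂ) * (2 * ((α * β : ℝ) : ℂ) ^ m)‖ ≤
        Real.exp (-(m * (α + β))) * ‖HH E α β‖ + 2 * (Int_g m a * Int_g m b) := by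
      refine (norm_sub_le _ _).trans ?_
      rw [norm_mul, Complex.norm_real, Real.norm_of_nonneg hep.le, ← hG, Complex.norm_real,
        Real.norm_of_nonneg (by positivity)]
    have h2 := hf α β hα0 hβ0
    have h3 : Int_g m a * Int_g m b ≤ Real.exp (-(2 * m)) *
        Real.exp (-(1 / 50) * m * (gg α + gg β)) := by
      rw [hga, hgb]
      have h4 := mul_le_mul (Int_gm (m := m) hα0) (Int_gm (m := m) hβ0) (by positivity)
        (by positivity)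
      refine h4.trans (le_of_eq ?_)
      rw [← Real.exp_add, ← Real.exp_add, ← Real.exp_add, ← Real.exp_add]
      congr 1
      ring
    have h5 : Real.exp (-(1 / 50) * m * (gg α + gg β)) ≤
        Real.exp (-((m : ℝ) ^ (1 / 5 : ℝ) / 100)) *
          ((2 * Int_e m a) * (2 * Int_e m b)) := by
      have h6 := Int_tail hm ha
      have h7 := Int_tail hm hb
      rw [← hα] at h6
      rw [← hβ] at h7
      have h8 : Real.exp (-(1 / 100 * m * gg α)) * Real.exp (-(1 / 100 * m * gg β)) ≤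
          (2 * Int_e m a) * (2 * Int_e m b) :=
        mul_le_mul h6 h7 (Real.exp_pos _).le (by positivity)
      refine le_trans ?_ (mul_le_mul_of_nonneg_left h8 (Real.exp_pos _).le)
      rw [← Real.exp_add, ← Real.exp_add]
      apply Real.exp_le_exp.mpr
      have h9 : (m : ℝ) ^ (1 / 5 : ℝ) ≤ m * (gg α + gg β) := by
        rw [← (Int_dl hm).2.2]
        exact mul_le_mul_of_nonneg_left hout hm0.le
      nlinarith
    have h10 : Real.exp (-(m * (α + β))) * ‖HH E α β‖ + 2 * (Int_g m a * Int_g m b) ≤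
        ((m : ℝ) ^ C' + 2) * Real.exp (-(2 * m)) * Real.exp (-(1 / 50) * m * (gg α + gg β)) := by
      nlinarith
    have h11 : ((m : ℝ) ^ C' + 2) * Real.exp (-(2 * m)) *
        Real.exp (-(1 / 50) * m * (gg α + gg β)) ≤ ((m : ℝ) ^ C' + 2) * Real.exp (-(2 * m)) *
        (Real.exp (-((m : ℝ) ^ (1 / 5 : ℝ) / 100)) * ((2 * Int_e m a) * (2 * Int_e m b))) :=
      mul_le_mul_of_nonneg_left h5 (by positivity)
    have h12 : 0 ≤ (m : ℝ) ^ (-(1 / 10) : ℝ) * (Int_g m a * Int_g m b) := by positivity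
    have h13 : ((m : ℝ) ^ C' + 2) * Real.exp (-(2 * m)) *
        (Real.exp (-((m : ℝ) ^ (1 / 5 : ℝ) / 100)) * ((2 * Int_e m a) * (2 * Int_e m b))) =
        4 * (((m : ℝ) ^ C' + 2) * Real.exp (-(2 * m)) *
          Real.exp (-((m : ℝ) ^ (1 / 5 : ℝ) / 100))) * (Int_e m a * Int_e m b) := by ring
    linarith

private theorem Int_fin {m : ℕ} {C' : ℕ} (hm : 1 ≤ m) (E : Matrix (Fin m) (Fin m) ℝ) (I : ℝ)
    (hFi : IntegrableOn (fun p : ℝ × ℝ => (Real.exp (-p.1 - p.2) : ℂ) * HH E (p.1 / m) (p.2 / m))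
      (Set.Ioi 0 ×ˢ Set.Ioi 0))
    (hFe : ∫ p in Set.Ioi (0 : ℝ) ×ˢ Set.Ioi (0 : ℝ), (Real.exp (-p.1 - p.2) : ℂ) *
      HH E (p.1 / m) (p.2 / m) = (I : ℂ))
    (hf : ∀ α β : ℝ, 0 ≤ α → 0 ≤ β →
      Real.exp (-(m * (α + β))) * ‖HH E α β‖ ≤
        (m : ℝ) ^ C' * Real.exp (-(2 * m)) * Real.exp (-(1 / 50) * m * (gg α + gg β)))
    (hc : ∀ α β : ℝ, |α - 1| ≤ dl m → |β - 1| ≤ dl m →
      ‖HH E α β - 2 * ((α * β : ℝ) : ℂ) ^ m‖ ≤ (m : ℝ) ^ (-(1 / 10) : ℝ) * (α * β) ^ m) :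
    |I - 2 * ((m.factorial : ℝ) / (m : ℝ) ^ m) ^ 2| ≤ ((m.factorial : ℝ) / (m : ℝ) ^ m) ^ 2 *
      ((m : ℝ) ^ (-(1 / 10) : ℝ) + 160000 * (m : ℝ) ^ 2 * (((m : ℝ) ^ C' + 2) *
        Real.exp (-((m : ℝ) ^ (1 / 5 : ℝ) / 100)))) := by
  have hm1 : (1 : ℝ) ≤ m := by exact_mod_cast hm
  have hm0 : (0 : ℝ) < m := by linarith
  obtain ⟨P, hP⟩ : ∃ P : ℝ, P = (m.factorial : ℝ) / (m : ℝ) ^ m := ⟨_, rfl⟩
  have hfac : (0 : ℝ) < m.factorial := by exact_mod_cast Nat.factorial_pos m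
  have hP0 : 0 < P := by rw [hP]; positivity
  obtain ⟨D, hD⟩ : ∃ D : ℝ, D = ((m : ℝ) ^ C' + 2) * Real.exp (-(2 * m)) *
    Real.exp (-((m : ℝ) ^ (1 / 5 : ℝ) / 100)) := ⟨_, rfl⟩
  obtain ⟨r, hr⟩ : ∃ r : ℝ, r = (m : ℝ) ^ (-(1 / 10) : ℝ) := ⟨_, rfl⟩
  have hvol : (volume : Measure (ℝ × ℝ)).restrict (Set.Ioi (0 : ℝ) ×ˢ Set.Ioi (0 : ℝ)) =
      (volume.restrict (Set.Ioi (0 : ℝ))).prod (volume.restrict (Set.Ioi (0 : ℝ))) := by
    rw [Measure.prod_restrict]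
    rfl
  obtain ⟨hg1, hg2⟩ := Int_gint m
  obtain ⟨he1, he2⟩ := Int_eint hm
  have hgg : Integrable (fun p : ℝ × ℝ => Int_g m p.1 * Int_g m p.2)
      ((volume : Measure (ℝ × ℝ)).restrict (Set.Ioi (0 : ℝ) ×ˢ Set.Ioi (0 : ℝ))) := by
    rw [hvol]
    exact Integrable.mul_prod hg1 hg1
  have hee : Integrable (fun p : ℝ × ℝ => Int_e m p.1 * Int_e m p.2)
      ((volume : Measure (ℝ × ℝ)).restrict (Set.Ioi (0 : ℝ) ×ˢ Set.Ioi (0 : ℝ))) := by
    rw [hvol]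
    exact Integrable.mul_prod he1 he1
  have hggi : ∫ p in Set.Ioi (0 : ℝ) ×ˢ Set.Ioi (0 : ℝ), Int_g m p.1 * Int_g m p.2 = P * P := by
    rw [hvol, integral_prod_mul, hg2, hP]
  have heei : ∫ p in Set.Ioi (0 : ℝ) ×ˢ Set.Ioi (0 : ℝ), Int_e m p.1 * Int_e m p.2 =
      (200 * m) * (200 * m) := by
    rw [hvol, integral_prod_mul, he2]
  have hGi : Integrable (fun p : ℝ × ℝ => ((2 * (Int_g m p.1 * Int_g m p.2) : ℝ) : ℂ))
      ((volume : Measure (ℝ × ℝ)).restrict (Set.Ioi (0 : ℝ) ×ˢ Set.Ioi (0 : ℝ))) :=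
    (hgg.const_mul 2).ofReal
  have hGe : ∫ p in Set.Ioi (0 : ℝ) ×ˢ Set.Ioi (0 : ℝ),
      ((2 * (Int_g m p.1 * Int_g m p.2) : ℝ) : ℂ) = ((2 * (P * P) : ℝ) : ℂ) := by
    have h := integral_ofReal (𝕜 := ℂ)
      (μ := (volume : Measure (ℝ × ℝ)).restrict (Set.Ioi (0 : ℝ) ×ˢ Set.Ioi (0 : ℝ)))
      (f := fun p : ℝ × ℝ => 2 * (Int_g m p.1 * Int_g m p.2))
    rw [integral_const_mul, hggi] at h
    exact h
  have hHi : Integrable (fun p : ℝ × ℝ => r * (Int_g m p.1 * Int_g m p.2) +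
      4 * D * (Int_e m p.1 * Int_e m p.2))
      ((volume : Measure (ℝ × ℝ)).restrict (Set.Ioi (0 : ℝ) ×ˢ Set.Ioi (0 : ℝ))) :=
    (hgg.const_mul r).add (hee.const_mul (4 * D))
  have hHe : ∫ p in Set.Ioi (0 : ℝ) ×ˢ Set.Ioi (0 : ℝ), (r * (Int_g m p.1 * Int_g m p.2) +
      4 * D * (Int_e m p.1 * Int_e m p.2)) = r * (P * P) + 4 * D * ((200 * m) * (200 * m)) := by
    rw [integral_add (hgg.const_mul r) (hee.const_mul (4 * D)), integral_const_mul,
      integral_const_mul, hggi, heei]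
  have hmain : ‖∫ p in Set.Ioi (0 : ℝ) ×ˢ Set.Ioi (0 : ℝ),
      ((Real.exp (-p.1 - p.2) : ℂ) * HH E (p.1 / m) (p.2 / m) -
        ((2 * (Int_g m p.1 * Int_g m p.2) : ℝ) : ℂ))‖ ≤
      ∫ p in Set.Ioi (0 : ℝ) ×ˢ Set.Ioi (0 : ℝ), (r * (Int_g m p.1 * Int_g m p.2) +
        4 * D * (Int_e m p.1 * Int_e m p.2)) := by
    apply norm_integral_le_of_norm_le hHi
    filter_upwards [ae_restrict_mem (measurableSet_Ioi.prod measurableSet_Ioi)] with p hp
    rw [hr, hD]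
    exact Int_key hm E hf hc hp.1 hp.2
  rw [integral_sub hFi hGi, hFe, hGe, hHe, ← Complex.ofReal_sub, Complex.norm_real,
    Real.norm_eq_abs] at hmain
  have hexp : Real.exp (-(2 * m)) ≤ P ^ 2 := by
    have h1 : (m : ℝ) ^ m / (m.factorial : ℝ) ≤ Real.exp m :=
      Real.pow_div_factorial_le_exp m hm0.le m
    have h2 : Real.exp (-m) ≤ P := by
      rw [Real.exp_neg, hP]
      have h3 : ((m : ℝ) ^ m / (m.factorial : ℝ))⁻¹ = (m.factorial : ℝ) / (m : ℝ) ^ m := by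
        rw [inv_div]
      rw [← h3]
      exact inv_anti₀ (by positivity) h1
    have h4 : Real.exp (-(2 * m)) = Real.exp (-m) ^ 2 := by
      rw [← Real.exp_nat_mul]
      congr 1
      push_cast
      ring
    rw [h4]
    exact pow_le_pow_left₀ (Real.exp_pos _).le h2 2
  rw [← hP, ← hr]
  have h5 : 2 * P ^ 2 = 2 * (P * P) := by ring
  rw [h5]
  refine hmain.trans ?_
  have h6 : 4 * D * ((200 * m) * (200 * m)) ≤ P ^ 2 * (160000 * (m : ℝ) ^ 2 *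
      (((m : ℝ) ^ C' + 2) * Real.exp (-((m : ℝ) ^ (1 / 5 : ℝ) / 100)))) := by
    have h7 := mul_le_mul_of_nonneg_right hexp (show 0 ≤ 160000 * (m : ℝ) ^ 2 *
      (((m : ℝ) ^ C' + 2) * Real.exp (-((m : ℝ) ^ (1 / 5 : ℝ) / 100))) by positivity)
    refine le_trans (le_of_eq ?_) h7
    rw [hD]
    ring
  linarith

theorem thm_Int (h1 : St_Idn) (h2 : St_Far) (h3 : St_Cen) : St_Int := by
  intro C hC ε hε
  obtain ⟨C', hfar⟩ := h2 C hC
  filter_upwards [hfar, h3 C hC, Int_lim C' hε, eventually_ge_atTop 1] with m hf hc hl hm E hE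
  have hm1 : (1 : ℝ) ≤ m := by exact_mod_cast hm
  have hm0 : (0 : ℝ) < m := by linarith
  obtain ⟨hFi, hFe⟩ := h1 m E hm hE.symm
  have hmain := Int_fin hm E _ hFi hFe (hf E hE) (hc E hE)
  have hfac : (0 : ℝ) < m.factorial := by exact_mod_cast Nat.factorial_pos m
  have hP2 : 0 < ((m.factorial : ℝ) / (m : ℝ) ^ m) ^ 2 := by positivity
  have h4 := hmain.trans (mul_le_mul_of_nonneg_left hl hP2.le)
  have h5 : ham (BB E) * (m : ℝ) ^ (2 * m + 1) / (m.factorial : ℝ) ^ 2 - 1 =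
      (2 * m * ham (BB E) - 2 * ((m.factorial : ℝ) / (m : ℝ) ^ m) ^ 2) /
        (2 * ((m.factorial : ℝ) / (m : ℝ) ^ m) ^ 2) := by
    have h6 : (m : ℝ) ^ (2 * m + 1) = m * ((m : ℝ) ^ m) ^ 2 := by ring
    rw [h6]
    field_simp
  rw [h5, abs_div, abs_of_pos (by positivity : 0 < 2 * ((m.factorial : ℝ) / (m : ℝ) ^ m) ^ 2),
    div_le_iff₀ (by positivity)]
  linarith

end Pool.Agent.PCW
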