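import Mathlib
import Pool.Agent.PCW.St

set_option autoImplicit false

/-!
# PCW: radius 2 (helper9)
-/

namespace Pool.Agent.PCW

open Finset Filter MeasureTheory Matrix ProbabilityTheory

private theorem Jpp_cw (θ : ℝ) : cw 2 θ = ((1 + Real.cos θ : ℝ) : ℂ) := by
  unfold cw
  have h1 : (Real.cos θ : ℂ) = (Complex.exp (θ * Complex.I) + Complex.exp (-(θ * Complex.I))) / 2 := by
    rw [Complex.ofReal_cos, Complex.cos]
    ring_nf
  push_cast
  push_cast at h1
  rw [h1]
  ring

private theorem Jpp_meas : Measurable fun θ : ℝ => ENNReal.ofReal (1 + Real.cos θ) := by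
  fun_prop

private theorem Jpp_pp (h1 : St_Law) (ι : Type) [Fintype ι] :
    PP ι = (Measure.pi fun _ : ι => nu).withDensity
      fun θ => ∏ v, ENNReal.ofReal (1 + Real.cos (θ v)) := by
  classical
  haveI := h1.1
  haveI := h1.2.1
  unfold PP
  refine Measure.pi_eq fun s hs => ?_
  rw [withDensity_apply _ (MeasurableSet.univ_pi hs), ← lintegral_indicator (MeasurableSet.univ_pi hs)]
  have e1 : ∀ θ : ι → ℝ, (Set.univ.pi s).indicator
      (fun θ => ∏ v, ENNReal.ofReal (1 + Real.cos (θ v))) θ =
      ∏ v, (s v).indicator (fun x => ENNReal.ofReal (1 + Real.cos x)) (θ v) := by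
    intro θ
    by_cases hθ : θ ∈ Set.univ.pi s
    · rw [Set.indicator_of_mem hθ]
      refine Finset.prod_congr rfl fun v _ => ?_
      rw [Set.indicator_of_mem (hθ v (Set.mem_univ v))]
    · rw [Set.indicator_of_notMem hθ]
      have : ∃ v, θ v ∉ s v := by
        by_contra hc
        push Not at hc
        exact hθ fun v _ => hc v
      obtain ⟨v, hv⟩ := this
      exact (Finset.prod_eq_zero (Finset.mem_univ v) (Set.indicator_of_notMem hv _)).symm
  rw [lintegral_congr e1]
  have hm : ∀ v, Measurable ((s v).indicator fun x : ℝ => ENNReal.ofReal (1 + Real.cos x)) :=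
    fun v => Jpp_meas.indicator (hs v)
  have hi : iIndepFun (fun (v : ι) (θ : ι → ℝ) =>
      (s v).indicator (fun x => ENNReal.ofReal (1 + Real.cos x)) (θ v))
      (Measure.pi fun _ : ι => nu) :=
    iIndepFun_pi (μ := fun _ : ι => nu) fun v => (hm v).aemeasurable
  rw [lintegral_prod_eq_prod_lintegral_of_indepFun Finset.univ _ hi
    fun v => (hm v).comp (measurable_pi_apply v)]
  refine Finset.prod_congr rfl fun v _ => ?_
  have e2 := (measurePreserving_eval (fun _ : ι => nu) v).lintegral_comp (hm v)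
  simp only [Function.eval] at e2
  rw [e2, lintegral_indicator (hs v), nu2, withDensity_apply _ (hs v)]

theorem thm_Jpp (h1 : St_Law) : St_Jpp := by
  intro ι _ F _
  haveI := h1.1
  unfold JJ
  rw [Jpp_pp h1 ι, integral_withDensity_eq_integral_toReal_smul]
  · refine integral_congr_ae (Eventually.of_forall fun θ => ?_)
    change _ = (∏ v, ENNReal.ofReal (1 + Real.cos (θ v))).toReal • F (xx θ)
    rw [ENNReal.toReal_prod]
    have e : (∏ v, cw 2 (θ v)) = ((∏ v, (ENNReal.ofReal (1 + Real.cos (θ v))).toReal : ℝ) : ℂ) := by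
      rw [Complex.ofReal_prod]
      refine Finset.prod_congr rfl fun v _ => ?_
      rw [Jpp_cw, ENNReal.toReal_ofReal (by linarith [Real.neg_one_le_cos (θ v)])]
    change (∏ v, cw 2 (θ v)) * F (xx θ) = _
    rw [e, Complex.real_smul]
  · exact Finset.measurable_prod _ fun v _ => Jpp_meas.comp (measurable_pi_apply v)
  · exact Eventually.of_forall fun θ => ENNReal.prod_lt_top fun v _ => ENNReal.ofReal_lt_top

end Pool.Agent.PCW
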