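import Mathlib
import Pool.Agent.PCW.St

set_option autoImplicit false

/-! PCW Law: basic facts on the measures. -/

namespace Pool.Agent.PCW

open Finset Filter MeasureTheory Matrix

private theorem Law_prob : IsProbabilityMeasure nu := by
  constructor
  have hpi : 0 < 2 * Real.pi := by positivity
  rw [nu, Measure.smul_apply, Measure.restrict_apply MeasurableSet.univ, Set.univ_inter,
    Real.volume_Ioc, smul_eq_mul, ← ENNReal.ofReal_mul (by positivity), sub_zero,
    one_div, inv_mul_cancel₀ hpi.ne', ENNReal.ofReal_one]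

private theorem Law_int (f : ℝ → ℂ) :
    ∫ θ, f θ ∂nu = (1 / (2 * Real.pi) : ℝ) • ∫ θ in (0 : ℝ)..(2 * Real.pi), f θ := by
  rw [nu, integral_smul_measure, ENNReal.toReal_ofReal (by positivity),
    intervalIntegral.integral_of_le (by positivity)]

private theorem Law_int_real (f : ℝ → ℝ) :
    ∫ θ, f θ ∂nu = (1 / (2 * Real.pi) : ℝ) • ∫ θ in (0 : ℝ)..(2 * Real.pi), f θ := by
  rw [nu, integral_smul_measure, ENNReal.toReal_ofReal (by positivity),
    intervalIntegral.integral_of_le (by positivity)]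

private theorem Law_exp (n : ℤ) :
    ∫ θ : ℝ, Complex.exp (n * (θ * Complex.I)) ∂nu = if n = 0 then 1 else 0 := by
  rw [Law_int]
  split_ifs with h
  · subst h
    simp only [Int.cast_zero, zero_mul, Complex.exp_zero, intervalIntegral.integral_const, sub_zero]
    have hpi : (2 * Real.pi) ≠ 0 := by positivity
    rw [smul_smul, one_div, inv_mul_cancel₀ hpi, one_smul]
  · have hc : ((n : ℂ) * Complex.I) ≠ 0 := mul_ne_zero (by exact_mod_cast h) Complex.I_ne_zero
    have h1 : ∀ θ : ℝ, Complex.exp (n * (θ * Complex.I)) = Complex.exp ((n * Complex.I) * θ) := by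
      intro θ
      congr 1
      ring
    simp_rw [h1]
    rw [integral_exp_mul_complex hc]
    have h2 : Complex.exp ((n : ℂ) * Complex.I * ((2 * Real.pi : ℝ) : ℂ)) = 1 := by
      have : (n : ℂ) * Complex.I * ((2 * Real.pi : ℝ) : ℂ) = n * (2 * Real.pi * Complex.I) := by
        push_cast
        ring
      rw [this, Complex.exp_int_mul_two_pi_mul_I]
    rw [h2]
    simp

private theorem Law_cont_int {f : ℝ → ℂ} (hf : Continuous f) : Integrable f nu := by
  have h1 : IntegrableOn f (Set.Ioc 0 (2 * Real.pi)) volume :=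
    (hf.integrableOn_Icc).mono_set Set.Ioc_subset_Icc_self
  exact Integrable.smul_measure h1 ENNReal.ofReal_ne_top

private theorem Law_cw_cont (ρ : ℝ) : Continuous (cw ρ) := by
  unfold cw
  fun_prop

private theorem Law_pt_cont (ρ : ℝ) : Continuous (pt ρ) := by
  unfold pt
  fun_prop

private theorem Law_cw2 (θ : ℝ) : cw 2 θ = ((1 + Real.cos θ : ℝ) : ℂ) := by
  unfold cw
  push_cast
  rw [Complex.cos, show (-(↑θ : ℂ) * Complex.I) = -(↑θ * Complex.I) by ring]
  ring

private theorem Law_norm (ρ θ : ℝ) (h : 0 < ρ) : ‖cw ρ θ‖ = mu ρ + Real.cos θ := by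
  have hre : (cw ρ θ).re = 1 + mu ρ * Real.cos θ := by
    unfold cw mu
    rw [show -((θ : ℂ) * Complex.I) = ((-θ : ℝ) : ℂ) * Complex.I by push_cast; ring]
    rw [Complex.add_re, Complex.add_re, Complex.div_ofReal_re, Complex.exp_ofReal_mul_I_re,
      show ((ρ : ℂ) / 4) = ((ρ / 4 : ℝ) : ℂ) by push_cast; ring, Complex.re_ofReal_mul,
      Complex.exp_ofReal_mul_I_re, Real.cos_neg, Complex.one_re]
    ring
  have him : (cw ρ θ).im = (ρ / 4 - 1 / ρ) * Real.sin θ := by
    unfold cw
    rw [show -((θ : ℂ) * Complex.I) = ((-θ : ℝ) : ℂ) * Complex.I by push_cast; ring]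
    rw [Complex.add_im, Complex.add_im, Complex.div_ofReal_im, Complex.exp_ofReal_mul_I_im,
      show ((ρ : ℂ) / 4) = ((ρ / 4 : ℝ) : ℂ) by push_cast; ring, Complex.im_ofReal_mul,
      Complex.exp_ofReal_mul_I_im, Real.sin_neg, Complex.one_im]
    ring
  have hmu : 1 ≤ mu ρ := by
    unfold mu
    have h0 : 0 ≤ (ρ / 2 - 1) ^ 2 / ρ := by positivity
    have h1 : 1 / ρ + ρ / 4 - 1 = (ρ / 2 - 1) ^ 2 / ρ := by
      field_simp
      ring
    linarith
  have hpos : 0 ≤ mu ρ + Real.cos θ := by linarith [Real.neg_one_le_cos θ]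
  have hsq : ‖cw ρ θ‖ ^ 2 = (mu ρ + Real.cos θ) ^ 2 := by
    rw [← Complex.normSq_eq_norm_sq, Complex.normSq_apply, hre, him]
    have h2 : (ρ / 4 - 1 / ρ) ^ 2 = mu ρ ^ 2 - 1 := by
      unfold mu
      field_simp
      ring
    have h3 : Real.sin θ ^ 2 = 1 - Real.cos θ ^ 2 := Real.sin_sq θ
    calc (1 + mu ρ * Real.cos θ) * (1 + mu ρ * Real.cos θ) +
        (ρ / 4 - 1 / ρ) * Real.sin θ * ((ρ / 4 - 1 / ρ) * Real.sin θ)
        = (1 + mu ρ * Real.cos θ) ^ 2 + (ρ / 4 - 1 / ρ) ^ 2 * Real.sin θ ^ 2 := by ring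
      _ = (mu ρ + Real.cos θ) ^ 2 := by
          rw [h2, h3]
          ring
  exact (pow_left_inj₀ (norm_nonneg _) hpos two_ne_zero).1 hsq

private theorem Law_mom (ρ : ℝ) (k : ℕ) (h : 0 < ρ) :
    ∫ θ, pt ρ θ ^ k * cw ρ θ ∂nu = if k ≤ 1 then 1 else 0 := by
  have hρ : (ρ : ℂ) ≠ 0 := by exact_mod_cast h.ne'
  have h1 : ∀ θ : ℝ, pt ρ θ ^ k * cw ρ θ =
      (ρ : ℂ) ^ k * Complex.exp ((k : ℤ) * (θ * Complex.I)) +
      ((ρ : ℂ) ^ k / ρ) * Complex.exp ((((k : ℤ) - 1 : ℤ) : ℂ) * (θ * Complex.I)) +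
      ((ρ : ℂ) ^ k * (ρ / 4)) * Complex.exp ((((k : ℤ) + 1 : ℤ) : ℂ) * (θ * Complex.I)) := by
    intro θ
    unfold pt cw
    have e1 : Complex.exp ((k : ℤ) * ((θ : ℂ) * Complex.I)) =
        Complex.exp ((θ : ℂ) * Complex.I) ^ k := by
      rw [← Complex.exp_nat_mul]
      push_cast
      ring_nf
    have e2 : Complex.exp ((((k : ℤ) - 1 : ℤ) : ℂ) * ((θ : ℂ) * Complex.I)) =
        Complex.exp ((θ : ℂ) * Complex.I) ^ k * Complex.exp (-((θ : ℂ) * Complex.I)) := by
      rw [← Complex.exp_nat_mul, ← Complex.exp_add]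
      push_cast
      ring_nf
    have e3 : Complex.exp ((((k : ℤ) + 1 : ℤ) : ℂ) * ((θ : ℂ) * Complex.I)) =
        Complex.exp ((θ : ℂ) * Complex.I) ^ k * Complex.exp ((θ : ℂ) * Complex.I) := by
      rw [← Complex.exp_nat_mul, ← Complex.exp_add]
      push_cast
      ring_nf
    rw [e1, e2, e3, mul_pow]
    ring
  have hc : ∀ n : ℤ, Integrable (fun θ : ℝ => Complex.exp (n * (θ * Complex.I))) nu := fun n =>
    Law_cont_int (by fun_prop)
  simp_rw [h1]
  rw [integral_add, integral_add, integral_const_mul, integral_const_mul, integral_const_mul,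
    Law_exp, Law_exp, Law_exp]
  · rcases Nat.lt_or_ge k 2 with hk | hk
    · interval_cases k
      · simp
      · simp [hρ]
    · rw [if_neg (by omega), if_neg (by omega), if_neg (by omega), if_neg (by omega)]
      simp
  · exact (hc _).const_mul _
  · exact (hc _).const_mul _
  · exact ((hc _).const_mul _).add ((hc _).const_mul _)
  · exact (hc _).const_mul _

private theorem Law_dens (F : ℝ → ℂ) :
    ∫ θ, F θ ∂nu2 = ∫ θ, F θ * cw 2 θ ∂nu := by
  rw [nu2, integral_withDensity_eq_integral_toReal_smul]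
  · refine integral_congr_ae (Eventually.of_forall fun θ => ?_)
    simp only
    rw [ENNReal.toReal_ofReal (by linarith [Real.neg_one_le_cos θ]), Law_cw2, Complex.real_smul,
      mul_comm]
  · exact (measurable_const.add Real.measurable_cos).ennreal_ofReal
  · exact Eventually.of_forall fun θ => ENNReal.ofReal_lt_top

private theorem Law_prob2 : IsProbabilityMeasure nu2 := by
  haveI := Law_prob
  constructor
  rw [nu2, withDensity_apply _ MeasurableSet.univ, Measure.restrict_univ,
    ← ofReal_integral_eq_lintegral_ofReal]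
  · have h1 : ((∫ θ, (1 + Real.cos θ) ∂nu : ℝ) : ℂ) = 1 := by
      rw [← integral_complex_ofReal]
      have := Law_mom 2 0 two_pos
      simp only [pow_zero, one_mul] at this
      rw [if_pos (by norm_num)] at this
      rw [← this]
      exact integral_congr_ae (Eventually.of_forall fun θ => (Law_cw2 θ).symm)
    have h2 : ∫ θ, (1 + Real.cos θ) ∂nu = 1 := by exact_mod_cast h1
    rw [h2, ENNReal.ofReal_one]
  · have hc : Continuous fun θ : ℝ => 1 + Real.cos θ := by fun_prop
    have h1 : IntegrableOn (fun θ : ℝ => 1 + Real.cos θ) (Set.Ioc 0 (2 * Real.pi)) volume :=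
      (hc.integrableOn_Icc).mono_set Set.Ioc_subset_Icc_self
    exact Integrable.smul_measure h1 ENNReal.ofReal_ne_top
  · exact Eventually.of_forall fun θ => by
      simp only [Pi.zero_apply]
      linarith [Real.neg_one_le_cos θ]

private theorem Law_chf (u : ℝ) :
    ∫ θ, Complex.exp (Complex.I * u * pt 2 θ) ∂nu2 = 1 + Complex.I * u := by
  haveI := Law_prob2
  haveI := Law_prob
  have hpt : ∀ θ : ℝ, ‖pt 2 θ‖ = 2 := by
    intro θ
    unfold pt
    rw [norm_mul, Complex.norm_exp_ofReal_mul_I]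
    simp
  have hmom : ∀ k : ℕ, ∫ θ, (pt 2 θ) ^ k ∂nu2 = if k ≤ 1 then 1 else 0 := by
    intro k
    rw [Law_dens]
    exact Law_mom 2 k two_pos
  have hs : ∀ θ : ℝ, HasSum (fun k : ℕ => (Complex.I * u * pt 2 θ) ^ k / (k.factorial : ℂ))
      (Complex.exp (Complex.I * u * pt 2 θ)) := by
    intro θ
    have := NormedSpace.expSeries_div_hasSum_exp (𝔸 := ℂ) (Complex.I * u * pt 2 θ)
    rwa [← Complex.exp_eq_exp_ℂ] at this
  have h2 : HasSum (fun k : ℕ => ∫ θ, (Complex.I * u * pt 2 θ) ^ k / (k.factorial : ℂ) ∂nu2)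
      (∫ θ, Complex.exp (Complex.I * u * pt 2 θ) ∂nu2) := by
    refine hasSum_integral_of_dominated_convergence
      (fun k _ => (|u| * 2) ^ k / (k.factorial : ℝ)) ?_ ?_ ?_ ?_ ?_
    · intro k
      refine Continuous.aestronglyMeasurable ?_
      have := Law_pt_cont 2
      fun_prop
    · intro k
      refine Eventually.of_forall fun θ => ?_
      rw [norm_div, norm_pow, norm_mul, norm_mul, hpt, Complex.norm_I, one_mul]
      simp
    · refine Eventually.of_forall fun θ => ?_
      exact Real.summable_pow_div_factorial (|u| * 2)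
    · exact integrable_const _
    · exact Eventually.of_forall fun θ => hs θ
  have h3 : ∀ k : ℕ, ∫ θ, (Complex.I * u * pt 2 θ) ^ k / (k.factorial : ℂ) ∂nu2 =
      if k ≤ 1 then (Complex.I * u) ^ k / (k.factorial : ℂ) else 0 := by
    intro k
    have : ∀ θ : ℝ, (Complex.I * u * pt 2 θ) ^ k / (k.factorial : ℂ) =
        ((Complex.I * u) ^ k / (k.factorial : ℂ)) * pt 2 θ ^ k := by
      intro θ
      rw [mul_pow]
      ring
    simp_rw [this]
    rw [integral_const_mul, hmom]
    split_ifs <;> simp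
  simp_rw [h3] at h2
  have h4 : HasSum (fun k : ℕ => if k ≤ 1 then (Complex.I * u) ^ k / (k.factorial : ℂ) else 0)
      (∑ k ∈ range 2, if k ≤ 1 then (Complex.I * u) ^ k / (k.factorial : ℂ) else 0) := by
    refine hasSum_sum_of_ne_finset_zero fun k hk => ?_
    rw [mem_range] at hk
    rw [if_neg (by omega)]
  rw [h2.unique h4, sum_range_succ, sum_range_succ, sum_range_zero]
  simp

theorem thm_Law : St_Law :=
  ⟨Law_prob, Law_prob2, Law_norm, Law_mom, fun F _ => Law_dens fun θ => F (pt 2 θ), Law_chf⟩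

end Pool.Agent.PCW
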