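import Pool.Agent.PCW.StN

set_option autoImplicit false

/-!
# PCW, module Mdl: the periodic model

The matrix `K(i + j)` of the model is a tensor product over the odd primes `p ≤ z` of the matrices
`(p / (p - 1)) (J - Π)`, `Π` a permutation matrix. The bound follows by induction over the primes.
-/

namespace Pool.Agent.PCW

open Finset Filter MeasureTheory
open Pool.Agent.GBQ (lam LamS ee)

/-- nonnegative matrices with all row and column sums `N`, close to the matrix of ones -/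
private structure Mdl_P {A : Type} [Fintype A] (N : ℝ) (K : A → A → ℝ) : Prop where
  N0 : 0 ≤ N
  pos : ∀ a b, 0 ≤ K a b
  row : ∀ a, ∑ b, K a b = N
  col : ∀ b, ∑ a, K a b = N
  q : ∀ F : A → ℝ, |∑ a, ∑ b, F a * F b * K a b - (∑ a, F a) ^ 2| ≤ N / 2 * ∑ a, F a ^ 2

private theorem Mdl_schur {A : Type} [Fintype A] {N : ℝ} {K : A → A → ℝ} (h : Mdl_P N K)
    (x y : A → ℝ) :
    |∑ a, ∑ b, K a b * (x a * y b)| ≤ N / 2 * (∑ a, x a ^ 2 + ∑ b, y b ^ 2) := by
  have h1 : ∀ a b, |K a b * (x a * y b)| ≤ K a b * (x a ^ 2 / 2) + K a b * (y b ^ 2 / 2) := by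
    intro a b
    rw [abs_mul, abs_of_nonneg (h.pos a b), ← mul_add]
    refine mul_le_mul_of_nonneg_left ?_ (h.pos a b)
    rw [abs_le]
    constructor
    · nlinarith [sq_nonneg (x a + y b)]
    · nlinarith [sq_nonneg (x a - y b)]
  calc |∑ a, ∑ b, K a b * (x a * y b)| ≤ ∑ a, |∑ b, K a b * (x a * y b)| :=
        Finset.abs_sum_le_sum_abs _ _
    _ ≤ ∑ a, ∑ b, |K a b * (x a * y b)| :=
        Finset.sum_le_sum fun a _ => Finset.abs_sum_le_sum_abs _ _
    _ ≤ ∑ a, ∑ b, (K a b * (x a ^ 2 / 2) + K a b * (y b ^ 2 / 2)) :=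
        Finset.sum_le_sum fun a _ => Finset.sum_le_sum fun b _ => h1 a b
    _ = ∑ a, (∑ b, K a b) * (x a ^ 2 / 2) + ∑ b, (∑ a, K a b) * (y b ^ 2 / 2) := by
        simp only [Finset.sum_add_distrib]
        congr 1
        · exact Finset.sum_congr rfl fun a _ => (Finset.sum_mul _ _ _).symm
        · rw [Finset.sum_comm]
          exact Finset.sum_congr rfl fun a _ => (Finset.sum_mul _ _ _).symm
    _ = N / 2 * (∑ a, x a ^ 2 + ∑ b, y b ^ 2) := by
        simp only [h.row, h.col]
        rw [mul_add, Finset.mul_sum, Finset.mul_sum]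
        congr 1
        · exact Finset.sum_congr rfl fun a _ => by ring
        · exact Finset.sum_congr rfl fun a _ => by ring

private theorem Mdl_one {B : Type} [Fintype B] [DecidableEq B] (f : B → ℝ) (c : ℝ) (t : B) :
    ∑ s, f s * (if s = t then 0 else c) = c * (∑ s, f s - f t) := by
  have h1 : ∀ s, f s * (if s = t then 0 else c) = c * f s - (if s = t then c * f s else 0) := by
    intro s
    split_ifs <;> ring
  simp only [h1]
  rw [Finset.sum_sub_distrib, Finset.sum_ite_eq' Finset.univ t, if_pos (Finset.mem_univ t),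
    ← Finset.mul_sum]
  ring

private theorem Mdl_step {A B : Type} [Fintype A] [Fintype B] [DecidableEq B] {N : ℝ}
    {K : A → A → ℝ} (h : Mdl_P N K) (P : ℝ) (hP : (Fintype.card B : ℝ) = P) (h3 : 3 ≤ P)
    (σ : Equiv.Perm B) :
    Mdl_P (A := A × B) (N * P)
      (fun u v => K u.1 v.1 * (if v.2 = σ u.2 then 0 else P / (P - 1))) := by
  have hP1 : P - 1 ≠ 0 := by linarith
  have hc : P / (P - 1) * (P - 1) = P := div_mul_cancel₀ _ hP1
  have hc0 : 0 ≤ P / (P - 1) := div_nonneg (by linarith) (by linarith)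
  have hc2 : P / (P - 1) ≤ P / 2 := by
    apply div_le_div_of_nonneg_left <;> linarith
  have hcard : ∑ _s : B, (1 : ℝ) = P := by
    rw [Finset.sum_const, Finset.card_univ, nsmul_eq_mul, mul_one, hP]
  have hsum : ∀ t : B, ∑ s : B, (if s = t then 0 else P / (P - 1)) = P := by
    intro t
    have h1 := Mdl_one (fun _ : B => (1 : ℝ)) (P / (P - 1)) t
    simp only [one_mul] at h1
    rw [h1, hcard, hc]
  refine ⟨mul_nonneg h.N0 (by linarith), ?_, ?_, ?_, ?_⟩
  · intro u v
    refine mul_nonneg (h.pos _ _) ?_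
    split_ifs
    · exact le_refl _
    · exact hc0
  · intro u
    rw [Fintype.sum_prod_type]
    simp only [← Finset.mul_sum, hsum]
    rw [← Finset.sum_mul, h.row]
  · intro v
    rw [Fintype.sum_prod_type]
    have h1 : ∑ r : B, (if v.2 = σ r then 0 else P / (P - 1)) = P := by
      refine (Finset.sum_congr rfl fun r _ => ?_).trans (hsum (σ.symm v.2))
      by_cases hr : v.2 = σ r
      · rw [if_pos hr, if_pos (by rw [hr, Equiv.symm_apply_apply])]
      · rw [if_neg hr, if_neg]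
        intro h2
        exact hr (by rw [h2, Equiv.apply_symm_apply])
    simp only [← Finset.mul_sum, h1]
    rw [← Finset.sum_mul, h.col]
  · intro F
    obtain ⟨Φ, hΦ⟩ : ∃ Φ : A → ℝ, ∀ a, P * Φ a = ∑ r, F (a, r) :=
      ⟨fun a => (∑ r, F (a, r)) / P, fun a => mul_div_cancel₀ _ (by linarith)⟩
    obtain ⟨D, hD⟩ : ∃ D : A → B → ℝ, ∀ a r, F (a, r) = Φ a + D a r :=
      ⟨fun a r => F (a, r) - Φ a, fun a r => by ring⟩
    have hD0 : ∀ a, ∑ r, D a r = 0 := by
      intro a
      have h1 : ∑ r, F (a, r) = P * Φ a + ∑ r, D a r := by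
        simp only [hD, Finset.sum_add_distrib]
        rw [Finset.sum_const, Finset.card_univ, nsmul_eq_mul, hP]
      linarith [hΦ a]
    have hDσ : ∀ a, ∑ r, D a (σ r) = 0 := by
      intro a
      rw [Equiv.sum_comp σ (D a)]
      exact hD0 a
    have hin : ∀ b r, ∑ s, F (b, s) * (if s = σ r then 0 else P / (P - 1)) =
        P * Φ b - P / (P - 1) * D b (σ r) := by
      intro b r
      rw [Mdl_one (fun s => F (b, s)) (P / (P - 1)) (σ r), ← hΦ, hD]
      linear_combination (Φ b) * hc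
    have hin2 : ∀ a b, ∑ r, ∑ s, F (a, r) * F (b, s) *
        (K a b * (if s = σ r then 0 else P / (P - 1))) =
        P ^ 2 * (Φ a * Φ b * K a b) - P / (P - 1) * ∑ r, K a b * (D a r * D b (σ r)) := by
      intro a b
      have h1 : ∀ r, ∑ s, F (a, r) * F (b, s) *
          (K a b * (if s = σ r then 0 else P / (P - 1))) =
          K a b * Φ b * P * F (a, r) - K a b * (P / (P - 1)) * Φ a * D b (σ r) -
            P / (P - 1) * (K a b * (D a r * D b (σ r))) := by
        intro r
        have h2 : ∀ s, F (a, r) * F (b, s) * (K a b * (if s = σ r then 0 else P / (P - 1))) =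
            F (a, r) * K a b * (F (b, s) * (if s = σ r then 0 else P / (P - 1))) := by
          intro s
          ring
        simp only [h2]
        rw [← Finset.mul_sum, hin, hD a r]
        ring
      simp only [h1]
      rw [Finset.sum_sub_distrib, Finset.sum_sub_distrib, ← Finset.mul_sum, ← Finset.mul_sum,
        ← Finset.mul_sum, hDσ, ← hΦ]
      ring
    have hT : ∑ u : A × B, ∑ v : A × B, F u * F v *
        (K u.1 v.1 * (if v.2 = σ u.2 then 0 else P / (P - 1))) =
        P ^ 2 * (∑ a, ∑ b, Φ a * Φ b * K a b) -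
          P / (P - 1) * ∑ r, ∑ a, ∑ b, K a b * (D a r * D b (σ r)) := by
      calc ∑ u : A × B, ∑ v : A × B, F u * F v *
            (K u.1 v.1 * (if v.2 = σ u.2 then 0 else P / (P - 1)))
          = ∑ a, ∑ r, ∑ b, ∑ s, F (a, r) * F (b, s) *
            (K a b * (if s = σ r then 0 else P / (P - 1))) := by
            rw [Fintype.sum_prod_type]
            refine Finset.sum_congr rfl fun a _ => Finset.sum_congr rfl fun r _ => ?_
            rw [Fintype.sum_prod_type]
        _ = ∑ a, ∑ b, ∑ r, ∑ s, F (a, r) * F (b, s) *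
            (K a b * (if s = σ r then 0 else P / (P - 1))) :=
            Finset.sum_congr rfl fun a _ => Finset.sum_comm
        _ = ∑ a, ∑ b, (P ^ 2 * (Φ a * Φ b * K a b) -
            P / (P - 1) * ∑ r, K a b * (D a r * D b (σ r))) :=
            Finset.sum_congr rfl fun a _ => Finset.sum_congr rfl fun b _ => hin2 a b
        _ = P ^ 2 * (∑ a, ∑ b, Φ a * Φ b * K a b) -
            P / (P - 1) * ∑ a, ∑ b, ∑ r, K a b * (D a r * D b (σ r)) := by
            rw [Finset.mul_sum, Finset.mul_sum, ← Finset.sum_sub_distrib]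
            refine Finset.sum_congr rfl fun a _ => ?_
            rw [Finset.mul_sum, Finset.mul_sum, ← Finset.sum_sub_distrib]
        _ = _ := by
            congr 2
            calc ∑ a, ∑ b, ∑ r, K a b * (D a r * D b (σ r))
                = ∑ a, ∑ r, ∑ b, K a b * (D a r * D b (σ r)) :=
                  Finset.sum_congr rfl fun a _ => Finset.sum_comm
              _ = ∑ r, ∑ a, ∑ b, K a b * (D a r * D b (σ r)) := Finset.sum_comm
    have hS : ∑ u : A × B, F u = P * ∑ a, Φ a := by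
      rw [Fintype.sum_prod_type, Finset.mul_sum]
      exact Finset.sum_congr rfl fun a _ => (hΦ a).symm
    have hQ : ∑ u : A × B, F u ^ 2 = P * ∑ a, Φ a ^ 2 + ∑ a, ∑ r, D a r ^ 2 := by
      rw [Fintype.sum_prod_type, Finset.mul_sum, ← Finset.sum_add_distrib]
      refine Finset.sum_congr rfl fun a _ => ?_
      have h1 : ∀ r, F (a, r) ^ 2 = Φ a ^ 2 + 2 * Φ a * D a r + D a r ^ 2 := by
        intro r
        rw [hD]
        ring
      simp only [h1]
      rw [Finset.sum_add_distrib, Finset.sum_add_distrib, ← Finset.mul_sum, hD0,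
        Finset.sum_const, Finset.card_univ, nsmul_eq_mul, hP]
      ring
    have hR : |∑ r, ∑ a, ∑ b, K a b * (D a r * D b (σ r))| ≤ N * ∑ a, ∑ r, D a r ^ 2 := by
      calc |∑ r, ∑ a, ∑ b, K a b * (D a r * D b (σ r))|
          ≤ ∑ r, |∑ a, ∑ b, K a b * (D a r * D b (σ r))| := Finset.abs_sum_le_sum_abs _ _
        _ ≤ ∑ r, N / 2 * (∑ a, D a r ^ 2 + ∑ b, D b (σ r) ^ 2) :=
            Finset.sum_le_sum fun r _ => Mdl_schur h (fun a => D a r) (fun b => D b (σ r))
        _ = N * ∑ a, ∑ r, D a r ^ 2 := by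
            rw [← Finset.mul_sum, Finset.sum_add_distrib,
              Equiv.sum_comp σ (fun r => ∑ b, D b r ^ 2), Finset.sum_comm]
            ring
    rw [hT, hS, hQ]
    have h1 := h.q Φ
    have h2 : P ^ 2 * (∑ a, ∑ b, Φ a * Φ b * K a b) -
          P / (P - 1) * ∑ r, ∑ a, ∑ b, K a b * (D a r * D b (σ r)) - (P * ∑ a, Φ a) ^ 2 =
        P ^ 2 * (∑ a, ∑ b, Φ a * Φ b * K a b - (∑ a, Φ a) ^ 2) -
          P / (P - 1) * ∑ r, ∑ a, ∑ b, K a b * (D a r * D b (σ r)) := by ring
    rw [h2]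
    have hDD : 0 ≤ ∑ a, ∑ r, D a r ^ 2 :=
      Finset.sum_nonneg fun a _ => Finset.sum_nonneg fun r _ => sq_nonneg _
    calc |P ^ 2 * (∑ a, ∑ b, Φ a * Φ b * K a b - (∑ a, Φ a) ^ 2) -
          P / (P - 1) * ∑ r, ∑ a, ∑ b, K a b * (D a r * D b (σ r))|
        ≤ |P ^ 2 * (∑ a, ∑ b, Φ a * Φ b * K a b - (∑ a, Φ a) ^ 2)| +
          |P / (P - 1) * ∑ r, ∑ a, ∑ b, K a b * (D a r * D b (σ r))| := abs_sub _ _
      _ = P ^ 2 * |∑ a, ∑ b, Φ a * Φ b * K a b - (∑ a, Φ a) ^ 2| +
          P / (P - 1) * |∑ r, ∑ a, ∑ b, K a b * (D a r * D b (σ r))| := by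
          rw [abs_mul, abs_mul, abs_of_nonneg (sq_nonneg P), abs_of_nonneg hc0]
      _ ≤ P ^ 2 * (N / 2 * ∑ a, Φ a ^ 2) + P / 2 * (N * ∑ a, ∑ r, D a r ^ 2) := by
          refine add_le_add (mul_le_mul_of_nonneg_left h1 (sq_nonneg P)) ?_
          exact (mul_le_mul_of_nonneg_left hR hc0).trans
            (mul_le_mul_of_nonneg_right hc2 (mul_nonneg h.N0 hDD))
      _ = N * P / 2 * (P * ∑ a, Φ a ^ 2 + ∑ a, ∑ r, D a r ^ 2) := by ring

private theorem Mdl_ex (S : Finset ℕ) : (∀ p ∈ S, p.Prime ∧ p ≠ 2) →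
    ∃ (A : Type) (_ : Fintype A) (K : A → A → ℝ) (φ : ℕ → A),
      Mdl_P ((∏ p ∈ S, p : ℕ) : ℝ) K ∧
      (∀ i j, K (φ i) (φ j) =
        ∏ p ∈ S, if p ∣ 2 * (i + j) + 3 then (0 : ℝ) else (p : ℝ) / ((p : ℝ) - 1)) ∧
      ∀ i j, φ i = φ j → i ≡ j [MOD ∏ p ∈ S, p] := by
  classical
  induction S using Finset.induction_on with
  | empty =>
    intro _
    refine ⟨Unit, inferInstance, fun _ _ => 1, fun _ => (), ⟨?_, ?_, ?_, ?_, ?_⟩, ?_, ?_⟩
    · simp
    · intro a b
      norm_num
    · intro a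
      simp
    · intro a
      simp
    · intro F
      simp only [Finset.univ_unique, Finset.sum_singleton, mul_one, Finset.prod_empty,
        Nat.cast_one]
      rw [show F default * F default - F default ^ 2 = 0 by ring, abs_zero]
      positivity
    · intro i j
      simp
    · intro i j _
      simp only [Finset.prod_empty]
      exact Nat.modEq_one
  | insert p S hpS ih =>
    intro hS
    obtain ⟨A, _, K, φ, hK, hφ, hmod⟩ := ih fun q hq => hS q (Finset.mem_insert_of_mem hq)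
    obtain ⟨hp, hp2⟩ := hS p (Finset.mem_insert_self p S)
    have : Fact p.Prime := ⟨hp⟩
    have hp3 : 3 ≤ p := by
      have := hp.two_le
      omega
    have h2 : (2 : ZMod p) ≠ 0 := by
      intro h
      have h1 : ((2 : ℕ) : ZMod p) = 0 := by exact_mod_cast h
      rw [ZMod.natCast_eq_zero_iff] at h1
      have := Nat.le_of_dvd (by norm_num) h1
      omega
    have key : ∀ i j : ℕ, ((j : ZMod p) = (Equiv.subLeft (-(3 / 2) : ZMod p)) (i : ZMod p)) ↔
        p ∣ 2 * (i + j) + 3 := by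
      intro i j
      rw [← ZMod.natCast_eq_zero_iff]
      push_cast
      rw [Equiv.subLeft_apply]
      constructor
      · intro h
        rw [h]
        field_simp
        ring
      · intro h
        have h3 : (3 : ZMod p) / 2 * 2 = 3 := div_mul_cancel₀ _ h2
        have h4 : (2 : ZMod p) * ((j : ZMod p) - (-(3 / 2) - i)) = 0 := by
          linear_combination h + h3
        rcases mul_eq_zero.1 h4 with h5 | h5
        · exact absurd h5 h2
        · exact sub_eq_zero.1 h5
    refine ⟨A × ZMod p, inferInstance, fun u v => K u.1 v.1 *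
        (if v.2 = (Equiv.subLeft (-(3 / 2) : ZMod p)) u.2 then 0 else (p : ℝ) / ((p : ℝ) - 1)),
      fun i => (φ i, (i : ZMod p)), ?_, ?_, ?_⟩
    · have h1 := Mdl_step hK (p : ℝ) (by rw [ZMod.card]) (by exact_mod_cast hp3)
        (Equiv.subLeft (-(3 / 2) : ZMod p))
      rw [Finset.prod_insert hpS, Nat.cast_mul, mul_comm]
      exact h1
    · intro i j
      change K (φ i) (φ j) * (if ((j : ℕ) : ZMod p) =
        (Equiv.subLeft (-(3 / 2) : ZMod p)) ((i : ℕ) : ZMod p) then 0 else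
          (p : ℝ) / ((p : ℝ) - 1)) = _
      rw [Finset.prod_insert hpS, ← hφ i j]
      by_cases hd : p ∣ 2 * (i + j) + 3
      · rw [if_pos hd, if_pos ((key i j).2 hd), mul_comm]
      · rw [if_neg hd, if_neg fun h => hd ((key i j).1 h), mul_comm]
    · intro i j hij
      rw [Prod.mk.injEq] at hij
      rw [Finset.prod_insert hpS]
      refine (Nat.modEq_and_modEq_iff_modEq_mul ?_).1
        ⟨(ZMod.natCast_eq_natCast_iff i j p).1 hij.2, hmod i j hij.1⟩
      refine Nat.Coprime.prod_right fun q hq => ?_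
      refine (Nat.coprime_primes hp (hS q (Finset.mem_insert_of_mem hq)).1).2 ?_
      rintro rfl
      exact hpS hq

private theorem Mdl_count (Q m : ℕ) (hQ : 0 < Q) (T : Finset ℕ) (hT : ∀ i ∈ T, i < m)
    (h : ∀ i ∈ T, ∀ j ∈ T, i ≡ j [MOD Q]) : (T.card : ℝ) ≤ (m : ℝ) / Q + 1 := by
  rcases T.eq_empty_or_nonempty with h0 | ⟨a, ha⟩
  · rw [h0, Finset.card_empty]
    push_cast
    positivity
  · have h1 : T ⊆ (Finset.range m).filter fun j => j ≡ a [MOD Q] := by
      intro j hj
      rw [Finset.mem_filter, Finset.mem_range]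
      exact ⟨hT j hj, h j hj a ha⟩
    have h2 := Finset.card_le_card h1
    have h3 := Nat.count_modEq_card (b := m) (r := Q) hQ a
    rw [Nat.count_eq_card_filter_range] at h3
    have h4 : (if a % Q < m % Q then 1 else 0) ≤ 1 := by split_ifs <;> omega
    have h5 : T.card ≤ m / Q + 1 := by omega
    calc (T.card : ℝ) ≤ ((m / Q + 1 : ℕ) : ℝ) := by exact_mod_cast h5
      _ = ((m / Q : ℕ) : ℝ) + 1 := by push_cast; rfl
      _ ≤ (m : ℝ) / Q + 1 := by
          have := @Nat.cast_div_le ℝ _ _ _ m Q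
          linarith

private theorem Mdl_lam (z : ℕ) (hz : 3 ≤ z) (n : ℕ) (hn : ¬ 2 ∣ n) :
    LamS z n = 2 * ∏ p ∈ (Pool.Agent.GBQ.pr z).erase 2,
      if p ∣ n then (0 : ℝ) else (p : ℝ) / ((p : ℝ) - 1) := by
  have h2 : 2 ∈ Pool.Agent.GBQ.pr z := by
    unfold Pool.Agent.GBQ.pr
    rw [Finset.mem_filter, Finset.mem_range]
    exact ⟨by omega, Nat.prime_two⟩
  unfold LamS
  by_cases hr : Pool.Agent.GBQ.Rough z n
  · rw [if_pos hr]
    unfold Pool.Agent.GBQ.rho
    rw [← Finset.mul_prod_erase _ _ h2, mul_inv, ← Finset.prod_inv_distrib]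
    congr 1
    · norm_num
    · refine Finset.prod_congr rfl fun p hp => ?_
      rw [Finset.mem_erase] at hp
      rw [if_neg (hr p hp.2)]
      have h3 : p.Prime := by
        have := hp.2
        unfold Pool.Agent.GBQ.pr at this
        exact (Finset.mem_filter.1 this).2
      have h4 : (1 : ℝ) < p := by exact_mod_cast h3.one_lt
      have h5 : (p : ℝ) - 1 ≠ 0 := by linarith
      have h6 : (p : ℝ) ≠ 0 := by linarith
      field_simp
  · rw [if_neg hr]
    unfold Pool.Agent.GBQ.Rough at hr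
    push Not at hr
    obtain ⟨p, hp, hd⟩ := hr
    rw [Finset.prod_eq_zero (i := p)]
    · rw [mul_zero]
    · rw [Finset.mem_erase]
      refine ⟨?_, hp⟩
      rintro rfl
      exact hn hd
    · rw [if_pos hd]

theorem thm_Mdl : St_Mdl := by
  classical
  intro z hz
  have hS : ∀ p ∈ (Pool.Agent.GBQ.pr z).erase 2, p.Prime ∧ p ≠ 2 := by
    intro p hp
    rw [Finset.mem_erase] at hp
    have h1 := hp.2
    unfold Pool.Agent.GBQ.pr at h1
    exact ⟨(Finset.mem_filter.1 h1).2, hp.1⟩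
  obtain ⟨A, _, K, φ, hK, hφ, hmod⟩ := Mdl_ex _ hS
  obtain ⟨Q, hQ⟩ : ∃ Q : ℕ, Q = ∏ p ∈ (Pool.Agent.GBQ.pr z).erase 2, p := ⟨_, rfl⟩
  rw [← hQ] at hK
  simp only [← hQ] at hmod
  have hQ0 : 0 < Q := by
    rw [hQ]
    exact Finset.prod_pos fun p hp => (hS p hp).1.pos
  have hQR : (0 : ℝ) < Q := by exact_mod_cast hQ0
  refine ⟨(Q : ℝ) / 2, fun m hm f => ?_⟩
  have hm0 : (0 : ℝ) < m := by exact_mod_cast hm
  obtain ⟨F, hF⟩ : ∃ F : A → ℝ, ∀ a, F a = ∑ i ∈ range m, if φ i = a then f i else 0 :=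
    ⟨_, fun _ => rfl⟩
  have hFG : ∀ G : A → ℝ, ∑ a, F a * G a = ∑ i ∈ range m, f i * G (φ i) := by
    intro G
    simp only [hF, Finset.sum_mul]
    rw [Finset.sum_comm]
    refine Finset.sum_congr rfl fun i _ => ?_
    rw [Finset.sum_eq_single (φ i)]
    · rw [if_pos rfl]
    · intro b _ hb
      rw [if_neg (Ne.symm hb), zero_mul]
    · intro h
      exact absurd (Finset.mem_univ _) h
  have h1 : ∑ a, F a = ∑ i ∈ range m, f i := by
    have := hFG fun _ => 1
    simpa using this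
  have h2 : ∑ a, ∑ b, F a * F b * K a b =
      ∑ i ∈ range m, ∑ j ∈ range m, f i * f j * K (φ i) (φ j) := by
    have e1 : ∀ a, ∑ b, F a * F b * K a b = F a * ∑ j ∈ range m, f j * K a (φ j) := by
      intro a
      rw [← hFG (fun b => K a b), Finset.mul_sum]
      exact Finset.sum_congr rfl fun b _ => by ring
    simp only [e1]
    rw [hFG fun a => ∑ j ∈ range m, f j * K a (φ j)]
    refine Finset.sum_congr rfl fun i _ => ?_
    rw [Finset.mul_sum]
    exact Finset.sum_congr rfl fun j _ => by ring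
  have h3 : ∀ a, F a ^ 2 ≤ ((m : ℝ) / Q + 1) * ∑ i ∈ range m, if φ i = a then f i ^ 2 else 0 := by
    intro a
    have e1 : F a = ∑ i ∈ (range m).filter (fun i => φ i = a), f i := by
      rw [hF, Finset.sum_filter]
    have e2 : (∑ i ∈ range m, if φ i = a then f i ^ 2 else 0) =
        ∑ i ∈ (range m).filter (fun i => φ i = a), f i ^ 2 := by
      rw [Finset.sum_filter]
    rw [e1, e2]
    refine (sq_sum_le_card_mul_sum_sq).trans ?_
    refine mul_le_mul_of_nonneg_right ?_ (Finset.sum_nonneg fun i _ => sq_nonneg _)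
    refine Mdl_count Q m hQ0 _ ?_ ?_
    · intro i hi
      exact Finset.mem_range.1 (Finset.mem_filter.1 hi).1
    · intro i hi j hj
      exact hmod i j (((Finset.mem_filter.1 hi).2).trans ((Finset.mem_filter.1 hj).2).symm)
  have h4 : ∑ a, F a ^ 2 ≤ ((m : ℝ) / Q + 1) * ∑ i ∈ range m, f i ^ 2 := by
    refine (Finset.sum_le_sum fun a _ => h3 a).trans (le_of_eq ?_)
    rw [← Finset.mul_sum, Finset.sum_comm]
    congr 1
    refine Finset.sum_congr rfl fun i _ => ?_
    rw [Finset.sum_ite_eq Finset.univ (φ i), if_pos (Finset.mem_univ _)]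
  have h5 := hK.q F
  rw [h1, h2] at h5
  have h6 : ∀ i j, LamS z (2 * (i + j) + 3) = 2 * K (φ i) (φ j) := by
    intro i j
    rw [Mdl_lam z hz _ (by omega), hφ]
  have h7 : 1 / (2 * (m : ℝ)) * ∑ i ∈ range m, ∑ j ∈ range m, f i * f j *
      LamS z (2 * (i + j) + 3) - (∑ i ∈ range m, f i) ^ 2 / m =
      1 / (m : ℝ) * (∑ i ∈ range m, ∑ j ∈ range m, f i * f j * K (φ i) (φ j) -
        (∑ i ∈ range m, f i) ^ 2) := by
    have e1 : ∑ i ∈ range m, ∑ j ∈ range m, f i * f j * LamS z (2 * (i + j) + 3) =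
        2 * ∑ i ∈ range m, ∑ j ∈ range m, f i * f j * K (φ i) (φ j) := by
      rw [Finset.mul_sum]
      refine Finset.sum_congr rfl fun i _ => ?_
      rw [Finset.mul_sum]
      exact Finset.sum_congr rfl fun j _ => by rw [h6]; ring
    rw [e1]
    field_simp
  rw [h7, abs_mul, abs_of_nonneg (by positivity)]
  calc 1 / (m : ℝ) * |∑ i ∈ range m, ∑ j ∈ range m, f i * f j * K (φ i) (φ j) -
        (∑ i ∈ range m, f i) ^ 2|
      ≤ 1 / (m : ℝ) * ((Q : ℝ) / 2 * (((m : ℝ) / Q + 1) * ∑ i ∈ range m, f i ^ 2)) :=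
        mul_le_mul_of_nonneg_left
          (h5.trans (mul_le_mul_of_nonneg_left h4 (by positivity))) (by positivity)
    _ = (1 / 2 + (Q : ℝ) / 2 / m) * ∑ i ∈ range m, f i ^ 2 := by
        field_simp

end Pool.Agent.PCW
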