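import Mathlib
import Pool.Agent.PCW.St

set_option autoImplicit false

/-!
# PCW: the one-sided bad event (helper9)
-/

namespace Pool.Agent.PCW

open Finset Filter MeasureTheory Matrix

private theorem Pb1_pt (ρ θ : ℝ) (h : 0 ≤ ρ) : ‖pt ρ θ‖ = ρ := by
  unfold pt
  rw [norm_mul, Complex.norm_exp_ofReal_mul_I, Complex.norm_real, Real.norm_of_nonneg h, mul_one]

private theorem Pb1_ptc (ρ : ℝ) : Continuous fun θ : ℝ => pt ρ θ := by
  unfold pt
  fun_prop

/-- the linear functional -/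
private noncomputable def Pb1_f {m : ℕ} (E : Matrix (Fin m) (Fin m) ℝ) (c : ℂ) (i : Fin m)
    (θ : Fin m → ℝ) : ℝ :=
  (c * xj E (xx θ) i).re

private theorem Pb1_fc {m : ℕ} (E : Matrix (Fin m) (Fin m) ℝ) (c : ℂ) (i : Fin m) :
    Continuous (Pb1_f E c i) := by
  have h1 : ∀ j : Fin m, Continuous fun θ : Fin m → ℝ => pt 2 (θ j) := fun j =>
    (Pb1_ptc 2).comp (continuous_apply j)
  unfold Pb1_f xj xx
  refine Complex.continuous_re.comp (continuous_const.mul ?_)
  exact continuous_finsetSum _ fun j _ => continuous_const.mul (h1 j)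

private theorem Pb1_mean1 (h1 : St_Law) : ∫ θ, pt 2 θ ∂nu2 = 1 := by
  have e1 := h1.2.2.2.2.1 (fun z => z) continuous_id
  have e2 := h1.2.2.2.1 2 1 (by norm_num)
  simp only [pow_one, le_refl, if_true] at e2
  exact e1.trans e2

private theorem Pb1_int (h1 : St_Law) : Integrable (fun θ : ℝ => pt 2 θ) nu2 := by
  haveI := h1.2.1
  exact Integrable.of_bound (C := 2) (Pb1_ptc 2).aestronglyMeasurable
    (Eventually.of_forall fun θ => le_of_eq (Pb1_pt 2 θ (by norm_num)))

private theorem Pb1_mean (h1 : St_Law) {m : ℕ} (E : Matrix (Fin m) (Fin m) ℝ) (c : ℂ) (i : Fin m)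
    (hE : ∑ j, E i j = 0) : ∫ θ, Pb1_f E c i θ ∂(PP (Fin m)) = 0 := by
  haveI := h1.2.1
  have hj : ∀ j : Fin m, ∫ θ : Fin m → ℝ, pt 2 (θ j) ∂(PP (Fin m)) = 1 := by
    intro j
    unfold PP
    have := integral_comp_eval (μ := fun _ : Fin m => nu2) (i := j) (f := fun θ : ℝ => pt 2 θ)
      (Pb1_ptc 2).aestronglyMeasurable
    rw [this, Pb1_mean1 h1]
  haveI : IsProbabilityMeasure (PP (Fin m)) := by
    unfold PP
    infer_instance
  have hi : ∀ j : Fin m, Integrable (fun θ : Fin m → ℝ => (E i j : ℂ) * pt 2 (θ j)) (PP (Fin m)) := by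
    intro j
    refine Integrable.const_mul ?_ _
    exact Integrable.of_bound (C := 2) ((Pb1_ptc 2).comp (continuous_apply j)).aestronglyMeasurable
      (Eventually.of_forall fun θ => le_of_eq (Pb1_pt 2 _ (by norm_num)))
  have e1 : ∫ θ, c * xj E (xx θ) i ∂(PP (Fin m)) = 0 := by
    rw [integral_const_mul]
    have : ∫ θ, xj E (xx θ) i ∂(PP (Fin m)) = 0 := by
      unfold xj xx
      rw [integral_finsetSum _ fun j _ => hi j]
      have : ∀ j : Fin m, ∫ θ : Fin m → ℝ, (E i j : ℂ) * pt 2 (θ j) ∂(PP (Fin m)) = (E i j : ℂ) := by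
        intro j
        rw [integral_const_mul, hj, mul_one]
      rw [sum_congr rfl fun j _ => this j]
      exact_mod_cast hE
    rw [this, mul_zero]
  have hint : Integrable (fun θ => c * xj E (xx θ) i) (PP (Fin m)) := by
    refine Integrable.const_mul ?_ _
    unfold xj xx
    exact integrable_finsetSum _ fun j _ => hi j
  have e2 := integral_re hint
  unfold Pb1_f
  have e3 : ∫ θ, (c * xj E (xx θ) i).re ∂(PP (Fin m)) =
      (∫ θ, c * xj E (xx θ) i ∂(PP (Fin m))).re := e2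
  rw [e3, e1]
  simp

private theorem Pb1_diff {m : ℕ} (E : Matrix (Fin m) (Fin m) ℝ) (c : ℂ) (hc : ‖c‖ = 1) (i : Fin m)
    (θ : Fin m → ℝ) (v : Fin m) (y : ℝ) :
    |Pb1_f E c i (Function.update θ v y) - Pb1_f E c i θ| ≤ 4 * |E i v| := by
  unfold Pb1_f
  rw [← Complex.sub_re, ← mul_sub]
  refine (Complex.abs_re_le_norm _).trans ?_
  rw [norm_mul, hc, one_mul]
  unfold xj xx
  rw [← sum_sub_distrib]
  have e1 : ∀ j, (E i j : ℂ) * pt 2 (Function.update θ v y j) - (E i j : ℂ) * pt 2 (θ j) =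
      if j = v then (E i v : ℂ) * (pt 2 y - pt 2 (θ v)) else 0 := by
    intro j
    by_cases h : j = v
    · subst h
      simp
      ring
    · simp [h]
  rw [sum_congr rfl fun j _ => e1 j, sum_ite_eq' univ v]
  simp only [mem_univ, if_true]
  rw [norm_mul, Complex.norm_real, Real.norm_eq_abs, mul_comm]
  refine mul_le_mul_of_nonneg_right ?_ (abs_nonneg _)
  refine (norm_sub_le _ _).trans ?_
  rw [Pb1_pt 2 _ (by norm_num), Pb1_pt 2 _ (by norm_num)]
  norm_num

private theorem Pb1_num (C : ℝ) (hC : 0 < C) : ∀ᶠ m : ℕ in atTop,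
    4 * (m : ℝ) * Real.exp (-((dl m / 2) ^ 2 / (64 * ((C * Real.log m + 1) / m)))) ≤
      Real.exp (-(m : ℝ) ^ (1 / 10 : ℝ)) := by
  have hlog : ∀ᶠ x : ℝ in atTop, Real.log x ≤ x ^ (1 / 40 : ℝ) := by
    have := (isLittleO_log_rpow_atTop (r := 1 / 40) (by norm_num)).bound (c := 1) one_pos
    filter_upwards [this, eventually_ge_atTop 1] with x hx h1
    rw [one_mul, Real.norm_eq_abs, Real.norm_eq_abs] at hx
    rw [abs_of_nonneg (Real.rpow_nonneg (by linarith) _)] at hx
    exact (le_abs_self _).trans hx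
  have hy : ∀ᶠ x : ℝ in atTop, 1024 * (C + 1) ≤ x ^ (1 / 40 : ℝ) :=
    (tendsto_rpow_atTop (by norm_num : (0 : ℝ) < 1 / 40)).eventually_ge_atTop _
  have hn := tendsto_natCast_atTop_atTop (R := ℝ)
  filter_upwards [hn.eventually hlog, hn.eventually hy, eventually_ge_atTop 1] with m h1 h2 h3
  have hm : (1 : ℝ) ≤ m := by exact_mod_cast h3
  have hm0 : (0 : ℝ) < m := by linarith
  set y : ℝ := (m : ℝ) ^ (1 / 40 : ℝ) with hyd
  have hy1 : 1024 ≤ y := by nlinarith
  have hL0 : 0 ≤ Real.log m := Real.log_nonneg hm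
  have e1 : (m : ℝ) ^ (1 / 10 : ℝ) = y ^ 4 := by
    rw [hyd, ← Real.rpow_natCast, ← Real.rpow_mul hm0.le]
    norm_num
  have e2 : dl m ^ 2 * m = y ^ 8 := by
    rw [dl, hyd, ← Real.rpow_natCast, ← Real.rpow_natCast, ← Real.rpow_mul hm0.le,
      ← Real.rpow_mul hm0.le, ← Real.rpow_add_one hm0.ne']
    norm_num
  have e3 : (dl m / 2) ^ 2 / (64 * ((C * Real.log m + 1) / m)) =
      y ^ 8 / (256 * (C * Real.log m + 1)) := by
    rw [← e2]
    have : C * Real.log m + 1 ≠ 0 := by positivity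
    field_simp
    ring
  rw [e1, e3]
  have e4 : 4 * (m : ℝ) = Real.exp (Real.log (4 * m)) := (Real.exp_log (by positivity)).symm
  rw [e4, ← Real.exp_add]
  refine Real.exp_le_exp.2 ?_
  have e5 : Real.log (4 * m) ≤ 2 + y := by
    rw [Real.log_mul (by norm_num) hm0.ne']
    have : Real.log 4 ≤ 2 := by
      have h4 : (4 : ℝ) = 2 ^ 2 := by norm_num
      rw [h4, Real.log_pow]
      have := Real.log_two_lt_d9
      push_cast
      linarith
    linarith
  have hpos : 0 < 256 * (C * Real.log m + 1) := by positivity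
  have e6 : 2 + y + y ^ 4 ≤ y ^ 8 / (256 * (C * Real.log m + 1)) := by
    rw [le_div_iff₀ hpos]
    have a1 : C * Real.log m + 1 ≤ (C + 1) * y := by nlinarith
    have a2 : 2 + y + y ^ 4 ≤ 4 * y ^ 4 := by nlinarith [sq_nonneg (y ^ 2 - 1), sq_nonneg y, sq_nonneg (y - 1)]
    have a3 : (2 + y + y ^ 4) * (256 * (C * Real.log m + 1)) ≤ (4 * y ^ 4) * (256 * ((C + 1) * y)) :=
      mul_le_mul a2 (by linarith) hpos.le (by positivity)
    refine a3.trans ?_
    have a4 : 4 * y ^ 4 * (256 * ((C + 1) * y)) = y ^ 5 * (1024 * (C + 1)) := by ring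
    rw [a4]
    have a5 : y ^ 8 = y ^ 5 * y ^ 3 := by ring
    rw [a5]
    refine mul_le_mul_of_nonneg_left ?_ (by positivity)
    have a6 : y ≤ y ^ 3 := by nlinarith [sq_nonneg y, sq_nonneg (y - 1)]
    linarith
  linarith

theorem thm_Pb1 (h1 : St_Law) (h2 : St_Bdd) : St_Pb1 := by
  intro C hC
  haveI := h1.2.1
  filter_upwards [Pb1_num C hC, eventually_ge_atTop 1] with m hm hm1 E hE
  have hm0 : (0 : ℝ) < m := by exact_mod_cast hm1
  have hm1' : (1 : ℝ) ≤ m := by exact_mod_cast hm1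
  haveI : IsProbabilityMeasure (PP (Fin m)) := by
    unfold PP
    infer_instance
  have hdl : 0 < dl m := Real.rpow_pos_of_pos hm0 _
  have hL0 : 0 ≤ Real.log m := Real.log_nonneg hm1'
  -- one functional
  have one : ∀ (c : ℂ), ‖c‖ = 1 → ∀ i : Fin m,
      (PP (Fin m)).real {θ | dl m / 2 ≤ Pb1_f E c i θ} ≤
        Real.exp (-((dl m / 2) ^ 2 / (64 * ((C * Real.log m + 1) / m)))) := by
    intro c hc i
    have := h2 (Fin m) nu2 (Pb1_f E c i) (fun v => 4 * (|E i v| + 1 / m)) (Pb1_fc E c i).measurable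
      (fun θ v y => (Pb1_diff E c hc i θ v y).trans (by
        have : (0 : ℝ) ≤ 1 / m := by positivity
        nlinarith)) (dl m / 2) (by positivity)
    have hmean := Pb1_mean h1 E c i (hE.row i)
    unfold PP at hmean ⊢
    rw [hmean] at this
    simp only [sub_zero] at this
    refine this.trans (Real.exp_le_exp.2 (neg_le_neg ?_))
    have hs : ∑ v, (4 * (|E i v| + 1 / (m : ℝ))) ^ 2 ≤ 32 * ((C * Real.log m + 1) / m) := by
      have e1 : ∀ v, (4 * (|E i v| + 1 / (m : ℝ))) ^ 2 ≤ 32 * (E i v ^ 2 + 1 / (m : ℝ) ^ 2) := by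
        intro v
        have e2 : E i v ^ 2 = |E i v| ^ 2 := (sq_abs _).symm
        have e3 : 1 / (m : ℝ) ^ 2 = (1 / m) ^ 2 := by ring
        rw [e2, e3]
        nlinarith [sq_nonneg (|E i v| - 1 / m)]
      refine (sum_le_sum fun v _ => e1 v).trans ?_
      rw [← mul_sum, sum_add_distrib, sum_const, card_univ, Fintype.card_fin, nsmul_eq_mul]
      have e4 : (m : ℝ) * (1 / (m : ℝ) ^ 2) = 1 / m := by
        field_simp
      have e5 := hE.sq i
      rw [e4, add_div]
      linarith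
    have hpos : 0 < ∑ v, (4 * (|E i v| + 1 / (m : ℝ))) ^ 2 := by
      refine sum_pos (fun v _ => ?_) ⟨i, mem_univ i⟩
      have : (0 : ℝ) < 1 / m := by positivity
      have := abs_nonneg (E i v)
      positivity
    refine div_le_div_of_nonneg_left (by positivity) (by positivity) ?_
    linarith
  -- the union
  set c4 : Fin 4 → ℂ := ![1, -1, Complex.I, -Complex.I] with hc4
  have hc : ∀ k, ‖c4 k‖ = 1 := by
    intro k
    fin_cases k <;> simp [hc4]
  have hsub : {θ : Fin m → ℝ | ¬ ∀ i, ‖xj E (xx θ) i‖ ≤ dl m} ⊆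
      ⋃ p : Fin m × Fin 4, {θ | dl m / 2 ≤ Pb1_f E (c4 p.2) p.1 θ} := by
    intro θ hθ
    simp only [Set.mem_ofPred_eq, not_forall, not_le] at hθ
    obtain ⟨i, hi⟩ := hθ
    rw [Set.mem_iUnion]
    set z := xj E (xx θ) i with hz
    have h3 := Complex.norm_le_abs_re_add_abs_im z
    by_contra hcon
    push Not at hcon
    have g : ∀ k, (c4 k * z).re < dl m / 2 := by
      intro k
      have := hcon (i, k)
      simp only [Set.mem_ofPred_eq, not_le] at this
      exact this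
    have g0 := g 0
    have g1 := g 1
    have g2 := g 2
    have g3 := g 3
    simp [hc4] at g0 g1 g2 g3
    have b1 : |z.re| < dl m / 2 := abs_lt.2 ⟨by linarith, g0⟩
    have b2 : |z.im| < dl m / 2 := abs_lt.2 ⟨by linarith, g3⟩
    linarith
  have hfin : (PP (Fin m)).real {θ : Fin m → ℝ | ¬ ∀ i, ‖xj E (xx θ) i‖ ≤ dl m} ≤
      ∑ p : Fin m × Fin 4, (PP (Fin m)).real {θ | dl m / 2 ≤ Pb1_f E (c4 p.2) p.1 θ} :=
    (measureReal_mono hsub).trans (measureReal_iUnion_fintype_le _)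
  refine hfin.trans (le_trans ?_ hm)
  refine (sum_le_sum fun p _ => one (c4 p.2) (hc p.2) p.1).trans ?_
  rw [sum_const, card_univ, Fintype.card_prod, Fintype.card_fin, Fintype.card_fin, nsmul_eq_mul]
  push_cast
  refine le_of_eq ?_
  ring

end Pool.Agent.PCW
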