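import Mathlib
import Pool.Agent.PCW.St

set_option autoImplicit false

/-! PCW Pbd: probability of the bad event. -/

namespace Pool.Agent.PCW

open Finset Filter MeasureTheory Matrix

private theorem Pbd_S (h2 : St_Bdd) {ι : Type} [Fintype ι] [DecidableEq ι] [Nonempty ι]
    (μ : Measure ℝ) [IsProbabilityMeasure μ] (f : (ι → ℝ) → ℝ) (c : ι → ℝ) (S t : ℝ)
    (hf : Measurable f) (hc : ∀ θ v y, |f (Function.update θ v y) - f θ| ≤ c v)
    (hS : ∑ v, c v ^ 2 ≤ S) (ht : 0 ≤ t) :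
    (Measure.pi fun _ : ι => μ).real
      {θ | t ≤ f θ - ∫ θ', f θ' ∂(Measure.pi fun _ : ι => μ)} ≤
      Real.exp (-(t ^ 2 / (2 * S))) := by
  have hcard : (0 : ℝ) < Fintype.card ι := by exact_mod_cast Fintype.card_pos
  have h0 : 0 ≤ (S - ∑ v, c v ^ 2) / Fintype.card ι := div_nonneg (by linarith) hcard.le
  have hcn : ∀ v, 0 ≤ c v := fun v => le_trans (abs_nonneg _) (hc (fun _ => 0) v 0)
  have h1 := h2 ι μ f (fun v => √(c v ^ 2 + (S - ∑ v, c v ^ 2) / Fintype.card ι)) hf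
    (fun θ v y => (hc θ v y).trans (Real.le_sqrt_of_sq_le (by linarith))) t ht
  have h3 : ∑ v, √(c v ^ 2 + (S - ∑ v, c v ^ 2) / Fintype.card ι) ^ 2 = S := by
    have : ∀ v, √(c v ^ 2 + (S - ∑ v, c v ^ 2) / Fintype.card ι) ^ 2 =
        c v ^ 2 + (S - ∑ v, c v ^ 2) / Fintype.card ι := fun v =>
      Real.sq_sqrt (add_nonneg (sq_nonneg _) h0)
    simp_rw [this, Finset.sum_add_distrib, Finset.sum_const, Finset.card_univ, nsmul_eq_mul]
    field_simp
    ring
  rw [h3] at h1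
  exact h1

private theorem Pbd_cx (h2 : St_Bdd) {ι : Type} [Fintype ι] [DecidableEq ι] [Nonempty ι]
    (μ : Measure ℝ) [IsProbabilityMeasure μ] (F : (ι → ℝ) → ℂ) (c : ι → ℝ) (S t : ℝ)
    (hF : Continuous F) (hI : Integrable F (Measure.pi fun _ : ι => μ))
    (hc : ∀ θ v y, ‖F (Function.update θ v y) - F θ‖ ≤ c v)
    (hS : ∑ v, c v ^ 2 ≤ S) (ht : 0 ≤ t)
    (hm : ‖∫ θ, F θ ∂(Measure.pi fun _ : ι => μ)‖ ≤ t) :
    (Measure.pi fun _ : ι => μ).real {θ | 4 * t < ‖F θ‖} ≤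
      4 * Real.exp (-(t ^ 2 / (2 * S))) := by
  set P : Measure (ι → ℝ) := Measure.pi fun _ : ι => μ with hP
  have hre : ∫ θ, (F θ).re ∂P = (∫ θ, F θ ∂P).re := by
    have := integral_re hI
    simpa using this
  have him : ∫ θ, (F θ).im ∂P = (∫ θ, F θ ∂P).im := by
    have := integral_im hI
    simpa using this
  have mre : Measurable fun θ => (F θ).re := (Complex.continuous_re.comp hF).measurable
  have mim : Measurable fun θ => (F θ).im := (Complex.continuous_im.comp hF).measurable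
  have b1 := Pbd_S h2 μ (fun θ => (F θ).re) c S t mre (fun θ v y => by
    rw [← Complex.sub_re]
    exact (Complex.abs_re_le_norm _).trans (hc θ v y)) hS ht
  have b2 := Pbd_S h2 μ (fun θ => -(F θ).re) c S t mre.neg (fun θ v y => by
    rw [neg_sub_neg, abs_sub_comm, ← Complex.sub_re]
    exact (Complex.abs_re_le_norm _).trans (hc θ v y)) hS ht
  have b3 := Pbd_S h2 μ (fun θ => (F θ).im) c S t mim (fun θ v y => by
    rw [← Complex.sub_im]
    exact (Complex.abs_im_le_norm _).trans (hc θ v y)) hS ht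
  have b4 := Pbd_S h2 μ (fun θ => -(F θ).im) c S t mim.neg (fun θ v y => by
    rw [neg_sub_neg, abs_sub_comm, ← Complex.sub_im]
    exact (Complex.abs_im_le_norm _).trans (hc θ v y)) hS ht
  rw [← hP] at b1 b2 b3 b4
  rw [integral_neg] at b2 b4
  have hsub : {θ | 4 * t < ‖F θ‖} ⊆
      ({θ | t ≤ (F θ).re - ∫ θ', (F θ').re ∂P} ∪ {θ | t ≤ -(F θ).re - -∫ θ', (F θ').re ∂P}) ∪
      ({θ | t ≤ (F θ).im - ∫ θ', (F θ').im ∂P} ∪ {θ | t ≤ -(F θ).im - -∫ θ', (F θ').im ∂P}) := by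
    intro θ hθ
    by_contra hcon
    simp only [Set.mem_union, Set.mem_ofPred_eq, not_or, not_le] at hcon hθ
    obtain ⟨⟨c1, c2⟩, c3, c4⟩ := hcon
    have e1 : |∫ θ', (F θ').re ∂P| ≤ t := by
      rw [hre]
      exact (Complex.abs_re_le_norm _).trans hm
    have e2 : |∫ θ', (F θ').im ∂P| ≤ t := by
      rw [him]
      exact (Complex.abs_im_le_norm _).trans hm
    have e3 : ‖F θ‖ ≤ |(F θ).re| + |(F θ).im| := Complex.norm_le_abs_re_add_abs_im _
    have e4 : |(F θ).re| < 2 * t := by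
      rw [abs_lt]
      rw [abs_le] at e1
      constructor <;> linarith [e1.1, e1.2]
    have e5 : |(F θ).im| < 2 * t := by
      rw [abs_lt]
      rw [abs_le] at e2
      constructor <;> linarith [e2.1, e2.2]
    linarith
  refine (measureReal_mono hsub).trans ?_
  refine (measureReal_union_le _ _).trans ?_
  have u1 := measureReal_union_le (μ := P) {θ | t ≤ (F θ).re - ∫ θ', (F θ').re ∂P}
    {θ | t ≤ -(F θ).re - -∫ θ', (F θ').re ∂P}
  have u2 := measureReal_union_le (μ := P) {θ | t ≤ (F θ).im - ∫ θ', (F θ').im ∂P}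
    {θ | t ≤ -(F θ).im - -∫ θ', (F θ').im ∂P}
  linarith

private theorem Pbd_pt_cont : Continuous (pt 2) := by
  unfold pt
  fun_prop

private theorem Pbd_pt_norm (θ : ℝ) : ‖pt 2 θ‖ = 2 := by
  unfold pt
  rw [norm_mul, Complex.norm_exp_ofReal_mul_I]
  simp

private theorem Pbd_z_norm (θ : ℝ) : ‖pt 2 θ - 1‖ ≤ 3 := by
  refine (norm_sub_le _ _).trans ?_
  rw [Pbd_pt_norm, norm_one]
  norm_num

private theorem Pbd_d_norm (θ θ' : ℝ) : ‖pt 2 θ - pt 2 θ'‖ ≤ 4 := by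
  refine (norm_sub_le _ _).trans ?_
  rw [Pbd_pt_norm, Pbd_pt_norm]
  norm_num

private theorem Pbd_int {ι : Type} [Fintype ι] (h1 : St_Law) {F : (ι → ℝ) → ℂ}
    (hF : Continuous F) (B : ℝ) (hB : ∀ θ, ‖F θ‖ ≤ B) : Integrable F (PP ι) := by
  have : IsProbabilityMeasure nu2 := h1.2.1
  unfold PP
  exact Integrable.of_bound hF.aestronglyMeasurable B (Eventually.of_forall hB)

private theorem Pbd_intR {ι : Type} [Fintype ι] (h1 : St_Law) {F : (ι → ℝ) → ℝ}
    (hF : Continuous F) (B : ℝ) (hB : ∀ θ, ‖F θ‖ ≤ B) : Integrable F (PP ι) := by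
  have : IsProbabilityMeasure nu2 := h1.2.1
  unfold PP
  exact Integrable.of_bound hF.aestronglyMeasurable B (Eventually.of_forall hB)

private theorem Pbd_one (h1 : St_Law) {ι : Type} [Fintype ι] [DecidableEq ι] (v : ι)
    (g : ℝ → ℂ) : ∫ θ, g (θ v) ∂(PP ι) = ∫ θ, g θ ∂nu2 := by
  have : IsProbabilityMeasure nu2 := h1.2.1
  have h := integral_fintype_prod_eq_prod (ι := ι) (𝕜 := ℂ) (μ := fun _ => nu2)
    (fun i (y : ℝ) => if i = v then g y else 1)
  unfold PP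
  have e1 : ∀ x : ι → ℝ, (∏ i, (if i = v then g (x i) else 1)) = g (x v) := by
    intro x
    rw [Finset.prod_ite_eq' Finset.univ v (fun i => g (x i))]
    simp
  simp_rw [e1] at h
  rw [h, Finset.prod_eq_single v]
  · simp
  · intro b _ hb
    simp [hb]
  · simp

private theorem Pbd_two (h1 : St_Law) {ι : Type} [Fintype ι] [DecidableEq ι] {v w : ι}
    (hvw : v ≠ w) (f g : ℝ → ℂ) :
    ∫ θ, f (θ v) * g (θ w) ∂(PP ι) = (∫ θ, f θ ∂nu2) * ∫ θ, g θ ∂nu2 := by
  have : IsProbabilityMeasure nu2 := h1.2.1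
  have h := integral_fintype_prod_eq_prod (ι := ι) (𝕜 := ℂ) (μ := fun _ => nu2)
    (fun i (y : ℝ) => (if i = v then f y else 1) * (if i = w then g y else 1))
  unfold PP
  have e1 : ∀ x : ι → ℝ, (∏ i, ((if i = v then f (x i) else 1) * (if i = w then g (x i) else 1))) =
      f (x v) * g (x w) := by
    intro x
    rw [Finset.prod_mul_distrib, Finset.prod_ite_eq' Finset.univ v (fun i => f (x i)),
      Finset.prod_ite_eq' Finset.univ w (fun i => g (x i))]
    simp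
  simp_rw [e1] at h
  rw [h]
  have e2 : ∀ i : ι, (∫ y, ((if i = v then f y else 1) * (if i = w then g y else 1)) ∂nu2) =
      (if i = v then ∫ y, f y ∂nu2 else 1) * (if i = w then ∫ y, g y ∂nu2 else 1) := by
    intro i
    by_cases hv : i = v
    · have hw : i ≠ w := fun h => hvw (hv.symm.trans h)
      simp [hv, hvw]
    · by_cases hw : i = w
      · simp [hw, Ne.symm hvw]
      · simp [hv, hw]
  simp_rw [e2]
  rw [Finset.prod_mul_distrib, Finset.prod_ite_eq' Finset.univ v (fun _ => ∫ y, f y ∂nu2),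
    Finset.prod_ite_eq' Finset.univ w (fun _ => ∫ y, g y ∂nu2)]
  simp

private theorem Pbd_m (h1 : St_Law) (k : ℕ) : ∫ θ, pt 2 θ ^ k ∂nu2 = if k ≤ 1 then 1 else 0 := by
  rw [h1.2.2.2.2.1 (fun z => z ^ k) (by fun_prop)]
  exact h1.2.2.2.1 2 k two_pos

private theorem Pbd_I (h1 : St_Law) {g : ℝ → ℂ} (hg : Continuous g) (B : ℝ)
    (hB : ∀ θ, ‖g θ‖ ≤ B) : Integrable g nu2 := by
  have : IsProbabilityMeasure nu2 := h1.2.1
  exact Integrable.of_bound hg.aestronglyMeasurable B (Eventually.of_forall hB)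

private theorem Pbd_z1 (h1 : St_Law) : ∫ θ, (pt 2 θ - 1) ∂nu2 = 0 := by
  have : IsProbabilityMeasure nu2 := h1.2.1
  rw [integral_sub (Pbd_I h1 Pbd_pt_cont 2 fun θ => (Pbd_pt_norm θ).le) (integrable_const _)]
  have := Pbd_m h1 1
  simp only [pow_one, le_refl, if_true] at this
  rw [this]
  simp

private theorem Pbd_z2 (h1 : St_Law) : ∫ θ, (pt 2 θ - 1) * (pt 2 θ - 1) ∂nu2 = -1 := by
  have : IsProbabilityMeasure nu2 := h1.2.1
  have e : ∀ θ, (pt 2 θ - 1) * (pt 2 θ - 1) = pt 2 θ ^ 2 + (-2 * pt 2 θ + 1) := by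
    intro θ; ring
  simp_rw [e]
  have i1 : Integrable (fun θ => pt 2 θ ^ 2) nu2 :=
    Pbd_I h1 (Pbd_pt_cont.pow 2) 4 fun θ => by rw [norm_pow, Pbd_pt_norm]; norm_num
  have i2 : Integrable (fun θ => pt 2 θ) nu2 := Pbd_I h1 Pbd_pt_cont 2 fun θ => (Pbd_pt_norm θ).le
  have i4 : Integrable (fun θ => -2 * pt 2 θ) nu2 := i2.const_mul _
  have i5 : Integrable (fun θ => -2 * pt 2 θ + 1) nu2 := i4.add (integrable_const _)
  rw [integral_add i1 i5, integral_add i4 (integrable_const _), integral_const_mul, Pbd_m h1 2]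
  have := Pbd_m h1 1
  simp only [pow_one, le_refl, if_true] at this
  rw [this]
  simp
  norm_num

private theorem Pbd_z3 (h1 : St_Law) :
    ∫ θ, (pt 2 θ - 1) * (starRingEnd ℂ) (pt 2 θ - 1) ∂nu2 = 3 := by
  have : IsProbabilityMeasure nu2 := h1.2.1
  have i2 : Integrable (fun θ => pt 2 θ) nu2 := Pbd_I h1 Pbd_pt_cont 2 fun θ => (Pbd_pt_norm θ).le
  have i3 : Integrable (fun θ => (starRingEnd ℂ) (pt 2 θ)) nu2 :=
    Pbd_I h1 (Complex.continuous_conj.comp Pbd_pt_cont) 2 fun θ => by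
      rw [RCLike.norm_conj]; exact (Pbd_pt_norm θ).le
  have hm := Pbd_m h1 1
  simp only [pow_one, le_refl, if_true] at hm
  have hmc : ∫ θ, (starRingEnd ℂ) (pt 2 θ) ∂nu2 = 1 := by
    rw [integral_conj, hm]
    simp
  have e : ∀ θ, (pt 2 θ - 1) * (starRingEnd ℂ) (pt 2 θ - 1) =
      5 + (-1 * pt 2 θ + -1 * (starRingEnd ℂ) (pt 2 θ)) := by
    intro θ
    have : pt 2 θ * (starRingEnd ℂ) (pt 2 θ) = 4 := by
      rw [Complex.mul_conj, Complex.normSq_eq_norm_sq, Pbd_pt_norm]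
      norm_num
    rw [map_sub, map_one]
    linear_combination this
  simp_rw [e]
  have i4 : Integrable (fun θ => -1 * pt 2 θ) nu2 := i2.const_mul _
  have i5 : Integrable (fun θ => -1 * (starRingEnd ℂ) (pt 2 θ)) nu2 := i3.const_mul _
  have i6 : Integrable (fun θ => -1 * pt 2 θ + -1 * (starRingEnd ℂ) (pt 2 θ)) nu2 := i4.add i5
  rw [integral_add (integrable_const _) i6, integral_add i4 i5, integral_const_mul,
    integral_const_mul, hm, hmc]
  simp
  norm_num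


private theorem Pbd_xx_cont {ι : Type} (v : ι) : Continuous fun θ : ι → ℝ => xx θ v :=
  Pbd_pt_cont.comp (continuous_apply v)

private theorem Pbd_upd {ι : Type} [DecidableEq ι] (θ : ι → ℝ) (v : ι) (y : ℝ) (w : ι) :
    xx (Function.update θ v y) w = if w = v then pt 2 y else xx θ w := by
  unfold xx
  by_cases h : w = v
  · subst h
    simp
  · rw [Function.update_of_ne h, if_neg h]

private theorem Pbd_lin (h1 : St_Law) (h2 : St_Bdd) {ι : Type} [Fintype ι] [DecidableEq ι]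
    [Nonempty ι] (a : ι → ℝ) (S t : ℝ) (hS : 16 * ∑ v, a v ^ 2 ≤ S) (ht : 0 ≤ t) :
    (PP ι).real {θ | 4 * t < ‖∑ v, (a v : ℂ) * (xx θ v - 1)‖} ≤
      4 * Real.exp (-(t ^ 2 / (2 * S))) := by
  have : IsProbabilityMeasure nu2 := h1.2.1
  have hcont : Continuous fun θ : ι → ℝ => ∑ v, (a v : ℂ) * (xx θ v - 1) :=
    continuous_finsetSum _ fun v _ => ((Pbd_xx_cont v).sub continuous_const).const_mul _
  have hI : Integrable (fun θ : ι → ℝ => ∑ v, (a v : ℂ) * (xx θ v - 1)) (PP ι) := by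
    refine Pbd_int h1 hcont (∑ v, |a v| * 3) fun θ => ?_
    refine (norm_sum_le _ _).trans (Finset.sum_le_sum fun v _ => ?_)
    rw [norm_mul, Complex.norm_real, Real.norm_eq_abs]
    exact mul_le_mul_of_nonneg_left (Pbd_z_norm _) (abs_nonneg _)
  refine Pbd_cx h2 nu2 (fun θ => ∑ v, (a v : ℂ) * (xx θ v - 1)) (fun v => 4 * |a v|) S t
    hcont hI ?_ ?_ ht ?_
  · intro θ v y
    have e : ∑ w, (a w : ℂ) * (xx (Function.update θ v y) w - 1) -
        ∑ w, (a w : ℂ) * (xx θ w - 1) = (a v : ℂ) * (pt 2 y - xx θ v) := by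
      rw [← Finset.sum_sub_distrib, Finset.sum_eq_single v]
      · rw [Pbd_upd, if_pos rfl]
        ring
      · intro b _ hb
        rw [Pbd_upd, if_neg hb]
        ring
      · simp
    rw [e, norm_mul, Complex.norm_real, Real.norm_eq_abs, mul_comm]
    exact mul_le_mul_of_nonneg_right (Pbd_d_norm _ _) (abs_nonneg _)
  · refine le_trans (le_of_eq ?_) hS
    rw [Finset.mul_sum]
    refine Finset.sum_congr rfl fun v _ => ?_
    rw [mul_pow, sq_abs]
    norm_num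
  · have e : ∫ θ, ∑ v, (a v : ℂ) * (xx θ v - 1) ∂(PP ι) = 0 := by
      rw [integral_finsetSum]
      · refine Finset.sum_eq_zero fun v _ => ?_
        rw [integral_const_mul]
        have := Pbd_one h1 v (fun y => pt 2 y - 1)
        rw [show (fun θ : ι → ℝ => xx θ v - 1) = fun θ => pt 2 (θ v) - 1 from rfl, this,
          Pbd_z1 h1, mul_zero]
      · intro v _
        refine Integrable.const_mul ?_ _
        exact Pbd_int h1 ((Pbd_xx_cont v).sub continuous_const) 3 fun θ => Pbd_z_norm _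
    change ‖∫ θ, ∑ v, (a v : ℂ) * (xx θ v - 1) ∂(PP ι)‖ ≤ t
    rw [e, norm_zero]
    exact ht

private theorem Pbd_quad (h1 : St_Law) (h2 : St_Bdd) {ι : Type} [Fintype ι] [DecidableEq ι]
    [Nonempty ι] (a : ι → ι → ℝ) (K t : ℝ) (ha : ∀ v w, 0 ≤ a v w) (hs : ∀ v w, a v w = a w v)
    (hK : ∀ v, ∑ w, a v w ≤ K) (hd : ∑ v, a v v ≤ t) (ht : 0 ≤ t) :
    (PP ι).real {θ | 4 * t < ‖∑ v, ∑ w, (a v w : ℂ) * (xx θ v - 1) * (xx θ w - 1)‖} ≤
      4 * Real.exp (-(t ^ 2 / (2 * (Fintype.card ι * (40 * K) ^ 2)))) := by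
  have : IsProbabilityMeasure nu2 := h1.2.1
  have hK0 : 0 ≤ K := le_trans (Finset.sum_nonneg fun w _ => ha (Classical.arbitrary ι) w) (hK _)
  have hcont : Continuous fun θ : ι → ℝ =>
      ∑ v, ∑ w, (a v w : ℂ) * (xx θ v - 1) * (xx θ w - 1) :=
    continuous_finsetSum _ fun v _ => continuous_finsetSum _ fun w _ =>
      (((Pbd_xx_cont v).sub continuous_const).const_mul _).mul
        ((Pbd_xx_cont w).sub continuous_const)
  have hb : ∀ (θ : ι → ℝ) v w, ‖(a v w : ℂ) * (xx θ v - 1) * (xx θ w - 1)‖ ≤ a v w * 3 * 3 := by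
    intro θ v w
    rw [norm_mul, norm_mul, Complex.norm_real, Real.norm_eq_abs, abs_of_nonneg (ha v w)]
    exact mul_le_mul (mul_le_mul_of_nonneg_left (Pbd_z_norm _) (ha v w)) (Pbd_z_norm _)
      (norm_nonneg _) (mul_nonneg (ha v w) (by norm_num))
  have hI : Integrable (fun θ : ι → ℝ =>
      ∑ v, ∑ w, (a v w : ℂ) * (xx θ v - 1) * (xx θ w - 1)) (PP ι) := by
    refine Pbd_int h1 hcont (∑ v, ∑ w, a v w * 3 * 3) fun θ => ?_
    refine (norm_sum_le _ _).trans (Finset.sum_le_sum fun v _ => ?_)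
    exact (norm_sum_le _ _).trans (Finset.sum_le_sum fun w _ => hb θ v w)
  refine Pbd_cx h2 nu2 (fun θ => ∑ v, ∑ w, (a v w : ℂ) * (xx θ v - 1) * (xx θ w - 1))
    (fun _ => 40 * K) _ t hcont hI ?_ ?_ ht ?_
  · intro θ u y
    set z : ι → ℂ := fun v => xx θ v - 1 with hz
    set d : ℂ := pt 2 y - xx θ u with hd'
    have ez : ∀ w, xx (Function.update θ u y) w - 1 = z w + (if w = u then d else 0) := by
      intro w
      rw [Pbd_upd]
      by_cases h : w = u
      · subst h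
        simp only [if_true, hz, hd']
        ring
      · simp only [if_neg h, hz]
        ring
    have e : ∑ v, ∑ w, (a v w : ℂ) * (xx (Function.update θ u y) v - 1) *
        (xx (Function.update θ u y) w - 1) -
        ∑ v, ∑ w, (a v w : ℂ) * (xx θ v - 1) * (xx θ w - 1) =
        2 * d * ∑ w, (a u w : ℂ) * z w + a u u * d ^ 2 := by
      simp_rw [ez]
      have e1 : ∀ v w, (a v w : ℂ) * (z v + (if v = u then d else 0)) *
          (z w + (if w = u then d else 0)) = (a v w : ℂ) * z v * z w +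
          (if w = u then (a v w : ℂ) * z v * d else 0) +
          (if v = u then (a v w : ℂ) * z w * d else 0) +
          (if v = u then (if w = u then (a v w : ℂ) * d * d else 0) else 0) := by
        intro v w
        split_ifs <;> ring
      simp_rw [e1, Finset.sum_add_distrib]
      have e2 : ∑ v, ∑ w, (if w = u then (a v w : ℂ) * z v * d else 0) =
          d * ∑ w, (a u w : ℂ) * z w := by
        rw [Finset.mul_sum]
        refine Finset.sum_congr rfl fun v _ => ?_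
        rw [Finset.sum_ite_eq' Finset.univ u, if_pos (Finset.mem_univ _), hs v u]
        ring
      have e3 : ∑ v, ∑ w, (if v = u then (a v w : ℂ) * z w * d else 0) =
          d * ∑ w, (a u w : ℂ) * z w := by
        rw [Finset.sum_comm, Finset.mul_sum]
        refine Finset.sum_congr rfl fun w _ => ?_
        rw [Finset.sum_ite_eq' Finset.univ u, if_pos (Finset.mem_univ _)]
        ring
      have e4 : ∑ v, ∑ w, (if v = u then (if w = u then (a v w : ℂ) * d * d else 0) else 0) =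
          a u u * d ^ 2 := by
        rw [Finset.sum_comm]
        simp_rw [Finset.sum_ite_eq' Finset.univ u, if_pos (Finset.mem_univ u)]
        rw [Finset.sum_ite_eq' Finset.univ u, if_pos (Finset.mem_univ _)]
        ring
      rw [e2, e3, e4]
      simp only [hz]
      ring
    have hdn : ‖d‖ ≤ 4 := Pbd_d_norm _ _
    have hsum : ‖∑ w, (a u w : ℂ) * z w‖ ≤ K * 3 := by
      refine (norm_sum_le _ _).trans ?_
      refine le_trans (Finset.sum_le_sum (g := fun w => a u w * 3) fun w _ => ?_) ?_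
      · rw [norm_mul, Complex.norm_real, Real.norm_eq_abs, abs_of_nonneg (ha u w)]
        exact mul_le_mul_of_nonneg_left (Pbd_z_norm _) (ha u w)
      · rw [← Finset.sum_mul]
        exact mul_le_mul_of_nonneg_right (hK u) (by norm_num)
    have hauu : a u u ≤ K :=
      le_trans (Finset.single_le_sum (fun w _ => ha u w) (Finset.mem_univ u)) (hK u)
    change ‖∑ v, ∑ w, (a v w : ℂ) * (xx (Function.update θ u y) v - 1) *
        (xx (Function.update θ u y) w - 1) -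
        ∑ v, ∑ w, (a v w : ℂ) * (xx θ v - 1) * (xx θ w - 1)‖ ≤ 40 * K
    rw [e]
    refine (norm_add_le _ _).trans ?_
    rw [norm_mul, norm_mul, norm_mul, norm_pow, Complex.norm_real, Real.norm_eq_abs,
      abs_of_nonneg (ha u u)]
    have n2 : ‖(2 : ℂ)‖ = 2 := by simp
    rw [n2]
    have b1 : 2 * ‖d‖ * ‖∑ w, (a u w : ℂ) * z w‖ ≤ 2 * 4 * (K * 3) :=
      mul_le_mul (by linarith) hsum (norm_nonneg _) (by norm_num)
    have b2 : a u u * ‖d‖ ^ 2 ≤ K * 4 ^ 2 :=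
      mul_le_mul hauu (pow_le_pow_left₀ (norm_nonneg _) hdn 2) (by positivity) hK0
    linarith
  · rw [Finset.sum_const, Finset.card_univ, nsmul_eq_mul]
  · have e : ∫ θ, ∑ v, ∑ w, (a v w : ℂ) * (xx θ v - 1) * (xx θ w - 1) ∂(PP ι) =
        -((∑ v, a v v : ℝ) : ℂ) := by
      have hI2 : ∀ v w, Integrable (fun θ : ι → ℝ =>
          (a v w : ℂ) * (xx θ v - 1) * (xx θ w - 1)) (PP ι) := fun v w =>
        Pbd_int h1 ((((Pbd_xx_cont v).sub continuous_const).const_mul _).mul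
          ((Pbd_xx_cont w).sub continuous_const)) _ fun θ => hb θ v w
      rw [integral_finsetSum _ fun v _ => integrable_finsetSum _ fun w _ => hI2 v w]
      push_cast
      rw [← Finset.sum_neg_distrib]
      refine Finset.sum_congr rfl fun v _ => ?_
      rw [integral_finsetSum _ fun w _ => hI2 v w, Finset.sum_eq_single v]
      · have e1 : ∀ θ : ι → ℝ, (a v v : ℂ) * (xx θ v - 1) * (xx θ v - 1) =
            (a v v : ℂ) * ((pt 2 (θ v) - 1) * (pt 2 (θ v) - 1)) := by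
          intro θ
          unfold xx
          ring
        simp_rw [e1]
        rw [integral_const_mul, Pbd_one h1 v (fun y => (pt 2 y - 1) * (pt 2 y - 1)), Pbd_z2 h1]
        ring
      · intro w _ hw
        have e1 : ∀ θ : ι → ℝ, (a v w : ℂ) * (xx θ v - 1) * (xx θ w - 1) =
            (a v w : ℂ) * ((pt 2 (θ v) - 1) * (pt 2 (θ w) - 1)) := by
          intro θ
          unfold xx
          ring
        simp_rw [e1]
        rw [integral_const_mul, Pbd_two h1 (Ne.symm hw) (fun y => pt 2 y - 1)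
          (fun y => pt 2 y - 1), Pbd_z1 h1]
        ring
      · simp
    change ‖∫ θ, ∑ v, ∑ w, (a v w : ℂ) * (xx θ v - 1) * (xx θ w - 1) ∂(PP ι)‖ ≤ t
    rw [e, norm_neg, Complex.norm_real, Real.norm_eq_abs,
      abs_of_nonneg (Finset.sum_nonneg fun v _ => ha v v)]
    exact hd


private theorem Pbd_tri {ι : Type} [Fintype ι] (A B : ι → ι → ℂ) :
    |√(∑ i, ∑ j, ‖A i j‖ ^ 2) - √(∑ i, ∑ j, ‖B i j‖ ^ 2)| ≤
      √(∑ i, ∑ j, ‖A i j - B i j‖ ^ 2) := by
  let a : EuclideanSpace ℂ (ι × ι) := WithLp.toLp 2 (fun p => A p.1 p.2)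
  let b : EuclideanSpace ℂ (ι × ι) := WithLp.toLp 2 (fun p => B p.1 p.2)
  have h := abs_norm_sub_norm_le a b
  have ha : ‖a‖ = √(∑ i, ∑ j, ‖A i j‖ ^ 2) := by
    rw [EuclideanSpace.norm_eq, Fintype.sum_prod_type]
  have hb : ‖b‖ = √(∑ i, ∑ j, ‖B i j‖ ^ 2) := by
    rw [EuclideanSpace.norm_eq, Fintype.sum_prod_type]
  have hab : ‖a - b‖ = √(∑ i, ∑ j, ‖A i j - B i j‖ ^ 2) := by
    rw [EuclideanSpace.norm_eq, Fintype.sum_prod_type]
    rfl
  rw [ha, hb, hab] at h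
  exact h

private theorem Pbd_sqint (h1 : St_Law) {ι : Type} [Fintype ι] [DecidableEq ι] (c : ι → ℝ) :
    ∫ θ, ‖∑ v, (c v : ℂ) * (xx θ v - 1)‖ ^ 2 ∂(PP ι) = 3 * ∑ v, c v ^ 2 := by
  have : IsProbabilityMeasure nu2 := h1.2.1
  have e0 : ((∫ θ, ‖∑ v, (c v : ℂ) * (xx θ v - 1)‖ ^ 2 ∂(PP ι) : ℝ) : ℂ) =
      ((3 * ∑ v, c v ^ 2 : ℝ) : ℂ) := by
    rw [← integral_complex_ofReal]
    have e1 : ∀ θ : ι → ℝ, ((‖∑ v, (c v : ℂ) * (xx θ v - 1)‖ ^ 2 : ℝ) : ℂ) =
        ∑ v, ∑ w, ((c v : ℂ) * c w) * ((pt 2 (θ v) - 1) * (starRingEnd ℂ) (pt 2 (θ w) - 1)) := by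
      intro θ
      rw [← Complex.normSq_eq_norm_sq, ← Complex.mul_conj, map_sum, Finset.sum_mul_sum]
      refine Finset.sum_congr rfl fun v _ => Finset.sum_congr rfl fun w _ => ?_
      rw [map_mul, Complex.conj_ofReal]
      unfold xx
      ring
    simp_rw [e1]
    have hz : Continuous fun y : ℝ => pt 2 y - 1 := Pbd_pt_cont.sub continuous_const
    have hzc : Continuous fun y : ℝ => (starRingEnd ℂ) (pt 2 y - 1) :=
      Complex.continuous_conj.comp hz
    have hI2 : ∀ v w, Integrable (fun θ : ι → ℝ =>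
        ((c v : ℂ) * c w) * ((pt 2 (θ v) - 1) * (starRingEnd ℂ) (pt 2 (θ w) - 1))) (PP ι) := by
      intro v w
      refine Integrable.const_mul (Pbd_int h1 ((hz.comp (continuous_apply v)).mul
        (hzc.comp (continuous_apply w))) 9 fun θ => ?_) _
      change ‖(pt 2 (θ v) - 1) * (starRingEnd ℂ) (pt 2 (θ w) - 1)‖ ≤ 9
      rw [norm_mul, RCLike.norm_conj]
      have := mul_le_mul (Pbd_z_norm (θ v)) (Pbd_z_norm (θ w)) (norm_nonneg _) (by norm_num)
      linarith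
    rw [integral_finsetSum _ fun v _ => integrable_finsetSum _ fun w _ => hI2 v w]
    push_cast
    rw [Finset.mul_sum]
    refine Finset.sum_congr rfl fun v _ => ?_
    rw [integral_finsetSum _ fun w _ => hI2 v w, Finset.sum_eq_single v]
    · rw [integral_const_mul,
        Pbd_one h1 v (fun y => (pt 2 y - 1) * (starRingEnd ℂ) (pt 2 y - 1)), Pbd_z3 h1]
      ring
    · intro w _ hw
      rw [integral_const_mul, Pbd_two h1 (Ne.symm hw) (fun y => pt 2 y - 1)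
        (fun y => (starRingEnd ℂ) (pt 2 y - 1)), Pbd_z1 h1]
      ring
    · simp
  exact_mod_cast e0

private theorem Pbd_frob (h1 : St_Law) (h2 : St_Bdd) {ι : Type} [Fintype ι] [DecidableEq ι]
    [Nonempty ι] (b : ι → ι → ℝ) (hs : ∀ v w, b v w = b w v) (K s : ℝ)
    (hK : ∀ v, ∑ w, b v w ^ 2 ≤ K) (hs0 : 0 < s) (hm : 12 * Fintype.card ι * K ^ 2 ≤ s ^ 2) :
    (PP ι).real {θ | s < √(∑ i, ∑ j, ‖∑ v, (b i v : ℂ) * (xx θ v - 1) * b v j‖ ^ 2)} ≤
      Real.exp (-((s / 2) ^ 2 / (2 * (Fintype.card ι * (4 * K) ^ 2)))) := by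
  have : IsProbabilityMeasure nu2 := h1.2.1
  have hprob : IsProbabilityMeasure (PP ι) := by unfold PP; infer_instance
  have hK0 : 0 ≤ K := le_trans (Finset.sum_nonneg fun w _ => sq_nonneg _) (hK (Classical.arbitrary ι))
  set f : (ι → ℝ) → ℝ := fun θ =>
    √(∑ i, ∑ j, ‖∑ v, (b i v : ℂ) * (xx θ v - 1) * b v j‖ ^ 2) with hf
  have hcij : ∀ i j, Continuous fun θ : ι → ℝ => ‖∑ v, (b i v : ℂ) * (xx θ v - 1) * b v j‖ ^ 2 :=
    fun i j => (continuous_finsetSum _ fun v _ =>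
      (((Pbd_xx_cont v).sub continuous_const).const_mul _).mul continuous_const).norm.pow 2
  have hcont2 : Continuous fun θ : ι → ℝ =>
      ∑ i, ∑ j, ‖∑ v, (b i v : ℂ) * (xx θ v - 1) * b v j‖ ^ 2 :=
    continuous_finsetSum _ fun i _ => continuous_finsetSum _ fun j _ => hcij i j
  have hcont : Continuous f := hcont2.sqrt
  have hbd : ∀ (θ : ι → ℝ) i j, ‖∑ v, (b i v : ℂ) * (xx θ v - 1) * b v j‖ ^ 2 ≤
      (∑ v, |b i v| * 3 * |b v j|) ^ 2 := by
    intro θ i j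
    refine pow_le_pow_left₀ (norm_nonneg _) ?_ 2
    refine (norm_sum_le _ _).trans (Finset.sum_le_sum fun v _ => ?_)
    rw [norm_mul, norm_mul, Complex.norm_real, Complex.norm_real, Real.norm_eq_abs,
      Real.norm_eq_abs]
    exact mul_le_mul_of_nonneg_right (mul_le_mul_of_nonneg_left (Pbd_z_norm _) (abs_nonneg _))
      (abs_nonneg _)
  have hIij : ∀ i j, Integrable (fun θ : ι → ℝ =>
      ‖∑ v, (b i v : ℂ) * (xx θ v - 1) * b v j‖ ^ 2) (PP ι) := fun i j =>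
    Pbd_intR h1 (hcij i j) _ fun θ => by
      rw [Real.norm_eq_abs, abs_of_nonneg (sq_nonneg _)]
      exact hbd θ i j
  have hI2 : Integrable (fun θ : ι → ℝ =>
      ∑ i, ∑ j, ‖∑ v, (b i v : ℂ) * (xx θ v - 1) * b v j‖ ^ 2) (PP ι) :=
    integrable_finsetSum _ fun i _ => integrable_finsetSum _ fun j _ => hIij i j
  have hf0 : ∀ θ, 0 ≤ f θ := fun θ => Real.sqrt_nonneg _
  have hf2 : ∀ θ, f θ ^ 2 = ∑ i, ∑ j, ‖∑ v, (b i v : ℂ) * (xx θ v - 1) * b v j‖ ^ 2 := fun θ =>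
    Real.sq_sqrt (Finset.sum_nonneg fun i _ => Finset.sum_nonneg fun j _ => sq_nonneg _)
  have hI : Integrable f (PP ι) := by
    refine Pbd_intR h1 hcont (∑ i, ∑ j, (∑ v, |b i v| * 3 * |b v j|) ^ 2 + 1) fun θ => ?_
    rw [Real.norm_eq_abs, abs_of_nonneg (hf0 θ)]
    have h3 : f θ ^ 2 ≤ ∑ i, ∑ j, (∑ v, |b i v| * 3 * |b v j|) ^ 2 := by
      rw [hf2]
      exact Finset.sum_le_sum fun i _ => Finset.sum_le_sum fun j _ => hbd θ i j
    nlinarith [sq_nonneg (f θ - 1)]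
  have hmean : ∫ θ, f θ ∂(PP ι) ≤ s / 2 := by
    have e1 : ∫ θ, f θ ∂(PP ι) ≤ ∫ θ, ((∑ i, ∑ j,
        ‖∑ v, (b i v : ℂ) * (xx θ v - 1) * b v j‖ ^ 2) * (1 / s) + s / 4) ∂(PP ι) := by
      refine integral_mono hI ((hI2.mul_const _).add (integrable_const _)) fun θ => ?_
      change f θ ≤ _
      rw [← hf2]
      have : 0 ≤ (f θ - s / 2) ^ 2 / s := by positivity
      have e : f θ ^ 2 * (1 / s) + s / 4 - f θ = (f θ - s / 2) ^ 2 / s := by
        field_simp
        ring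
      linarith
    refine e1.trans ?_
    have hI3 : Integrable (fun θ : ι → ℝ => (∑ i, ∑ j,
        ‖∑ v, (b i v : ℂ) * (xx θ v - 1) * b v j‖ ^ 2) * (1 / s)) (PP ι) := hI2.mul_const _
    rw [integral_add hI3 (integrable_const _), integral_mul_const,
      integral_finsetSum _ fun i _ => integrable_finsetSum _ fun j _ => hIij i j]
    have e2 : ∀ i, ∫ θ, ∑ j, ‖∑ v, (b i v : ℂ) * (xx θ v - 1) * b v j‖ ^ 2 ∂(PP ι) =
        ∑ j, 3 * ∑ v, (b i v * b v j) ^ 2 := by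
      intro i
      rw [integral_finsetSum _ fun j _ => hIij i j]
      refine Finset.sum_congr rfl fun j _ => ?_
      rw [← Pbd_sqint h1 (fun v => b i v * b v j)]
      refine integral_congr_ae (Eventually.of_forall fun θ => ?_)
      simp only
      congr 2
      refine Finset.sum_congr rfl fun v _ => ?_
      push_cast
      ring
    simp_rw [e2]
    have e3 : ∑ i, ∑ j, 3 * ∑ v, (b i v * b v j) ^ 2 = 3 * ∑ v, (∑ w, b v w ^ 2) ^ 2 := by
      have : ∀ i j, 3 * ∑ v, (b i v * b v j) ^ 2 = ∑ v, 3 * (b v i ^ 2 * b v j ^ 2) := by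
        intro i j
        rw [Finset.mul_sum]
        refine Finset.sum_congr rfl fun v _ => ?_
        rw [hs i v, mul_pow]
      simp_rw [this]
      have e4 : ∑ i, ∑ j, ∑ v, 3 * (b v i ^ 2 * b v j ^ 2) =
          ∑ v, ∑ i, ∑ j, 3 * (b v i ^ 2 * b v j ^ 2) := by
        have : ∀ i, ∑ j, ∑ v, 3 * (b v i ^ 2 * b v j ^ 2) =
            ∑ v, ∑ j, 3 * (b v i ^ 2 * b v j ^ 2) := fun i => Finset.sum_comm
        simp_rw [this]
        exact Finset.sum_comm
      rw [e4, Finset.mul_sum]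
      refine Finset.sum_congr rfl fun v _ => ?_
      rw [sq (∑ w, b v w ^ 2), Finset.sum_mul_sum, Finset.mul_sum]
      refine Finset.sum_congr rfl fun i _ => ?_
      rw [Finset.mul_sum]
    rw [e3]
    have e5 : ∑ v, (∑ w, b v w ^ 2) ^ 2 ≤ Fintype.card ι * K ^ 2 := by
      refine (Finset.sum_le_sum fun v _ => pow_le_pow_left₀
        (Finset.sum_nonneg fun w _ => sq_nonneg _) (hK v) 2).trans (le_of_eq ?_)
      rw [Finset.sum_const, Finset.card_univ, nsmul_eq_mul]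
    have e6 : 3 * (∑ v, (∑ w, b v w ^ 2) ^ 2) * (1 / s) ≤ s / 4 := by
      rw [mul_one_div, div_le_iff₀ hs0]
      nlinarith
    simp only [integral_const, probReal_univ, one_smul]
    linarith
  have hdiff : ∀ (θ : ι → ℝ) u y, |f (Function.update θ u y) - f θ| ≤ 4 * K := by
    intro θ u y
    refine (Pbd_tri _ _).trans ?_
    have e : ∀ i j, ∑ v, (b i v : ℂ) * (xx (Function.update θ u y) v - 1) * b v j -
        ∑ v, (b i v : ℂ) * (xx θ v - 1) * b v j = (b i u : ℂ) * (pt 2 y - xx θ u) * b u j := by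
      intro i j
      rw [← Finset.sum_sub_distrib, Finset.sum_eq_single u]
      · rw [Pbd_upd, if_pos rfl]
        ring
      · intro w _ hw
        rw [Pbd_upd, if_neg hw]
        ring
      · simp
    simp_rw [e]
    have hd : ‖pt 2 y - xx θ u‖ ≤ 4 := Pbd_d_norm _ _
    have e2 : ∑ i, ∑ j, ‖(b i u : ℂ) * (pt 2 y - xx θ u) * b u j‖ ^ 2 =
        (‖pt 2 y - xx θ u‖ * ∑ w, b u w ^ 2) ^ 2 := by
      have : ∀ i j, ‖(b i u : ℂ) * (pt 2 y - xx θ u) * b u j‖ ^ 2 =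
          ‖pt 2 y - xx θ u‖ ^ 2 * (b u i ^ 2 * b u j ^ 2) := by
        intro i j
        rw [norm_mul, norm_mul, Complex.norm_real, Complex.norm_real, Real.norm_eq_abs,
          Real.norm_eq_abs, mul_pow, mul_pow, sq_abs, sq_abs, hs i u]
        ring
      simp_rw [this]
      rw [mul_pow, sq (∑ w, b u w ^ 2), Finset.sum_mul_sum, Finset.mul_sum]
      refine Finset.sum_congr rfl fun i _ => ?_
      rw [Finset.mul_sum]
    rw [e2, Real.sqrt_sq (mul_nonneg (norm_nonneg _) (Finset.sum_nonneg fun w _ => sq_nonneg _))]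
    exact mul_le_mul hd (hK u) (Finset.sum_nonneg fun w _ => sq_nonneg _) (by norm_num)
  have hmain := Pbd_S h2 nu2 f (fun _ => 4 * K) (Fintype.card ι * (4 * K) ^ 2) (s / 2)
    hcont.measurable hdiff (by rw [Finset.sum_const, Finset.card_univ, nsmul_eq_mul])
    (by linarith)
  refine le_trans (measureReal_mono ?_) hmain
  intro θ hθ
  simp only [Set.mem_ofPred_eq] at hθ ⊢
  change s / 2 ≤ f θ - ∫ θ', f θ' ∂(PP ι)
  change s < f θ at hθ
  linarith


private theorem Pbd_num (y t S : ℝ) (hS : 0 < S) (h : 4 * y * S ≤ t ^ 2) :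
    Real.exp (-(t ^ 2 / (2 * S))) ≤ Real.exp (-(2 * y)) := by
  rw [Real.exp_le_exp, neg_le_neg_iff, le_div_iff₀ (by linarith)]
  linarith

private theorem Pbd_ev (K : ℝ) : ∀ᶠ m : ℕ in atTop,
    K * Real.log m ^ 2 ≤ (m : ℝ) ^ (1 / 10 : ℝ) ∧ K * Real.log m ≤ (m : ℝ) ^ (1 / 10 : ℝ) ∧
    (2048 : ℝ) ≤ (m : ℝ) ^ (1 / 10 : ℝ) ∧
    8 * ((m : ℝ) ^ (1 / 10 : ℝ)) ^ 10 + 20 ≤ Real.exp ((m : ℝ) ^ (1 / 10 : ℝ)) ∧ 2 ≤ m := by
  have hK : (0 : ℝ) < 1 / (|K| + 1) := by positivity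
  have t1 : Tendsto (fun m : ℕ => (m : ℝ) ^ (1 / 10 : ℝ)) atTop atTop :=
    (tendsto_rpow_atTop (by norm_num)).comp tendsto_natCast_atTop_atTop
  have a1 := ((isLittleO_log_rpow_rpow_atTop (s := 1 / 10) (2 : ℝ) (by norm_num)).def hK)
  have a2 := ((isLittleO_log_rpow_atTop (r := 1 / 10) (by norm_num)).def hK)
  have a3 := (Real.isLittleO_pow_exp_atTop (n := 10)).def (show (0 : ℝ) < 1 / 16 by norm_num)
  filter_upwards [tendsto_natCast_atTop_atTop.eventually a1,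
    tendsto_natCast_atTop_atTop.eventually a2, t1.eventually a3, t1.eventually_ge_atTop 2048,
    eventually_ge_atTop 2] with m h1 h2 h3 h4 h5
  have hy : (0 : ℝ) ≤ (m : ℝ) ^ (1 / 10 : ℝ) := by positivity
  have hm : (2 : ℝ) ≤ m := by exact_mod_cast h5
  have hL : 0 ≤ Real.log m := Real.log_nonneg (by linarith)
  rw [Real.norm_eq_abs, Real.norm_eq_abs, abs_of_nonneg hy, Real.rpow_two,
    abs_of_nonneg (sq_nonneg _)] at h1
  rw [Real.norm_eq_abs, Real.norm_eq_abs, abs_of_nonneg hy, abs_of_nonneg hL] at h2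
  have key : ∀ z : ℝ, 0 ≤ z → z ≤ 1 / (|K| + 1) * (m : ℝ) ^ (1 / 10 : ℝ) →
      K * z ≤ (m : ℝ) ^ (1 / 10 : ℝ) := by
    intro z hz hle
    have e1 : K * z ≤ (|K| + 1) * z :=
      mul_le_mul_of_nonneg_right (by linarith [le_abs_self K]) hz
    refine e1.trans ((mul_le_mul_of_nonneg_left hle (by positivity)).trans (le_of_eq ?_))
    field_simp
  refine ⟨key _ (sq_nonneg _) h1, key _ hL h2, h4, ?_, h5⟩
  rw [Real.norm_eq_abs, Real.norm_eq_abs, abs_of_nonneg (by positivity),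
    abs_of_nonneg (Real.exp_pos _).le] at h3
  have h6 : 40 ≤ Real.exp ((m : ℝ) ^ (1 / 10 : ℝ)) := by
    have := Real.add_one_le_exp ((m : ℝ) ^ (1 / 10 : ℝ))
    linarith
  linarith

theorem thm_Pbd (h1 : St_Law) (h2 : St_Bdd) (h3 : St_Vvb) : St_Pbd := by
  intro C hC
  filter_upwards [h3 C hC, Pbd_ev (5120000 * C ^ 2), Pbd_ev (1024 * C)] with m hV hm1 hm2
  intro E hE α β hα hβ
  have hprob : IsProbabilityMeasure nu2 := h1.2.1
  have hprob2 : IsProbabilityMeasure (PP (V m)) := by unfold PP; infer_instance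
  obtain ⟨q1, -, y1, y2, m2⟩ := hm1
  obtain ⟨-, q2, -, -, -⟩ := hm2
  have : NeZero m := ⟨by omega⟩
  have hne : Nonempty (V m) := ⟨Sum.inl 0⟩
  set y : ℝ := (m : ℝ) ^ (1 / 10 : ℝ) with hy
  have hy0 : 0 < y := by linarith
  have hm0 : (0 : ℝ) < m := by
    have : 0 < m := by omega
    exact_mod_cast this
  have hmy : (m : ℝ) = y ^ 10 := by
    rw [hy, ← Real.rpow_natCast, ← Real.rpow_mul hm0.le]
    norm_num
  have hdl : dl m = (y ^ 4)⁻¹ := by
    rw [hy, dl, ← Real.rpow_natCast, ← Real.rpow_mul hm0.le, ← Real.rpow_neg hm0.le]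
    norm_num
  have hm35 : (m : ℝ) ^ (3 / 5 : ℝ) = y ^ 6 := by
    rw [hy, ← Real.rpow_natCast, ← Real.rpow_mul hm0.le]
    norm_num
  set L : ℝ := Real.log m with hL
  have hL0 : 0 < L := Real.log_pos (by
    have : (2 : ℝ) ≤ m := by exact_mod_cast m2
    linarith)
  have hCL : 0 < C * L := mul_pos hC hL0
  have hp : Real.exp (-(2 * y)) * (8 * (m : ℝ) + 20) ≤ Real.exp (-y) := by
    rw [hmy]
    have e : Real.exp (-(2 * y)) = Real.exp (-y) * Real.exp (-y) := by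
      rw [← Real.exp_add]
      congr 1
      ring
    rw [e, mul_assoc]
    have e2 : Real.exp (-y) * (8 * y ^ 10 + 20) ≤ Real.exp (-y) * Real.exp y :=
      mul_le_mul_of_nonneg_left y2 (Real.exp_pos _).le
    rw [← Real.exp_add, neg_add_cancel, Real.exp_zero] at e2
    have := mul_le_mul_of_nonneg_left e2 (Real.exp_pos (-y)).le
    linarith
  -- the parameter t
  have hd1 : dl m ≤ 1 / 16 := by
    rw [hdl, inv_eq_one_div]
    refine one_div_le_one_div_of_le (by norm_num) ?_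
    nlinarith [pow_le_pow_left₀ (by norm_num : (0 : ℝ) ≤ 2) (by linarith : (2 : ℝ) ≤ y) 4]
  have hd0 : 0 < dl m := by rw [hdl]; positivity
  have ht : |1 / (α * β) - 1| ≤ 3 * dl m := by
    rw [abs_le] at hα hβ
    have hab : 0.87 ≤ α * β := by nlinarith [hα.1, hα.2, hβ.1, hβ.2]
    have hab' : |1 - α * β| ≤ 2.1 * dl m := by
      rw [abs_le]
      constructor <;> nlinarith [hα.1, hα.2, hβ.1, hβ.2]
    have hpos : 0 < α * β := by linarith
    have e : 1 / (α * β) - 1 = (1 - α * β) / (α * β) := by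
      rw [sub_div, div_self hpos.ne']
    rw [e, abs_div, abs_of_pos hpos, div_le_iff₀ hpos]
    nlinarith
  obtain ⟨-, V1, V2, V3, -, -⟩ := hV E hE (1 / (α * β)) ht
  set W := VV E (1 / (α * β)) with hW
  -- facts on Eb
  have hEs : ∀ v w, Eb E v w = Eb E w v := by
    rintro (i | i) (j | j) <;> simp [Eb, hE.symm i j]
  have hEr : ∀ v, ∑ w, Eb E v w = 0 := by
    rintro (i | i)
    · simp [Eb, Fintype.sum_sum_type, hE.row i]
    · simp [Eb, Fintype.sum_sum_type, hE.row i]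
  have hEq : ∀ v, ∑ w, Eb E v w ^ 2 ≤ C * L / m := by
    rintro (i | i)
    · simpa [Eb, Fintype.sum_sum_type] using hE.sq i
    · simpa [Eb, Fintype.sum_sum_type] using hE.sq i
  have hcard : (Fintype.card (V m) : ℝ) = 2 * m := by
    simp only [V, Fintype.card_sum, Fintype.card_fin]
    push_cast
    ring
  -- the events
  have Ea : ∀ v, (PP (V m)).real {θ | 4 * (dl m / 4) <
      ‖∑ w, (Eb E v w : ℂ) * (xx θ w - 1)‖} ≤ 4 * Real.exp (-(2 * y)) := by
    intro v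
    refine (Pbd_lin h1 h2 (fun w => Eb E v w) (16 * (C * L / m)) (dl m / 4)
      (mul_le_mul_of_nonneg_left (hEq v) (by norm_num)) (by linarith)).trans ?_
    refine mul_le_mul_of_nonneg_left (Pbd_num y _ _ (by positivity) ?_) (by norm_num)
    rw [hdl, hmy]
    have : 4 * y * (16 * (C * L / y ^ 10)) = (1024 * C * L) * ((1 / 16) * (y * (y ^ 10)⁻¹)) := by
      field_simp
      ring
    rw [this]
    have e2 : ((y ^ 4)⁻¹ / 4) ^ 2 = y * ((1 / 16) * (y * (y ^ 10)⁻¹)) := by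
      field_simp
      ring
    rw [e2]
    exact mul_le_mul_of_nonneg_right q2 (by positivity)
  have Eb' : (PP (V m)).real {θ | dl m <
      √(∑ i, ∑ j, ‖∑ v, (Eb E i v : ℂ) * (xx θ v - 1) * Eb E v j‖ ^ 2)} ≤
      Real.exp (-(2 * y)) := by
    have hq : C ^ 2 * L ^ 2 * 5120000 ≤ y := by linarith
    refine (Pbd_frob h1 h2 (fun v w => Eb E v w) hEs (C * L / m) (dl m) hEq hd0 ?_).trans ?_
    · rw [hcard, hdl, hmy]
      have e1 : 12 * (2 * y ^ 10) * (C * L / y ^ 10) ^ 2 = (24 * (C ^ 2 * L ^ 2)) * (y ^ 10)⁻¹ := by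
        field_simp
        ring
      have e2 : ((y ^ 4)⁻¹) ^ 2 = y ^ 2 * (y ^ 10)⁻¹ := by
        field_simp
      rw [e1, e2]
      refine mul_le_mul_of_nonneg_right ?_ (by positivity)
      nlinarith
    · refine Pbd_num y _ _ (by rw [hcard]; positivity) ?_
      rw [hcard, hdl, hmy]
      have e1 : 4 * y * (2 * y ^ 10 * (4 * (C * L / y ^ 10)) ^ 2) =
          (512 * (C ^ 2 * L ^ 2)) * ((1 / 4) * (y * (y ^ 10)⁻¹)) := by
        field_simp
        ring
      have e2 : ((y ^ 4)⁻¹ / 2) ^ 2 = y * ((1 / 4) * (y * (y ^ 10)⁻¹)) := by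
        field_simp
        ring
      rw [e1, e2]
      refine mul_le_mul_of_nonneg_right ?_ (by positivity)
      nlinarith [mul_nonneg (sq_nonneg C) (sq_nonneg L)]
  have Ec : (PP (V m)).real {θ | 4 * (dl m / 4) <
      ‖∑ v, (W v v : ℂ) * (xx θ v - 1)‖} ≤ 4 * Real.exp (-(2 * y)) := by
    refine (Pbd_lin h1 h2 (fun v => W v v) (16 * (2 * m * (5 * C * L / m) ^ 2)) (dl m / 4)
      (mul_le_mul_of_nonneg_left ?_ (by norm_num)) (by linarith)).trans ?_
    · refine (Finset.sum_le_sum fun v _ => pow_le_pow_left₀ (V2 v).1 (V2 v).2 2).trans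
        (le_of_eq ?_)
      rw [Finset.sum_const, Finset.card_univ, nsmul_eq_mul, hcard]
    · refine mul_le_mul_of_nonneg_left (Pbd_num y _ _ (by positivity) ?_) (by norm_num)
      rw [hdl, hmy]
      have e1 : 4 * y * (16 * (2 * y ^ 10 * (5 * C * L / y ^ 10) ^ 2)) =
          (51200 * (C ^ 2 * L ^ 2)) * ((1 / 16) * (y * (y ^ 10)⁻¹)) := by
        field_simp
        ring
      have e2 : ((y ^ 4)⁻¹ / 4) ^ 2 = y * ((1 / 16) * (y * (y ^ 10)⁻¹)) := by
        field_simp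
        ring
      rw [e1, e2]
      refine mul_le_mul_of_nonneg_right ?_ (by positivity)
      nlinarith [mul_nonneg (sq_nonneg C) (sq_nonneg L)]
  have Ed : (PP (V m)).real {θ | 4 * (dl m / 4) <
      ‖∑ v, ∑ w, ((W v w ^ 2 : ℝ) : ℂ) * (xx θ v - 1) * (xx θ w - 1)‖} ≤
      4 * Real.exp (-(2 * y)) := by
    refine (Pbd_quad h1 h2 (fun v w => W v w ^ 2) (5 * C * L / m) (dl m / 4)
      (fun v w => sq_nonneg _) (fun v w => by rw [V1 v w]) V3 ?_ (by linarith)).trans ?_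
    · refine (Finset.sum_le_sum fun v _ => pow_le_pow_left₀ (V2 v).1 (V2 v).2 2).trans ?_
      rw [Finset.sum_const, Finset.card_univ, nsmul_eq_mul, hcard, hdl, hmy]
      have e1 : 2 * y ^ 10 * (5 * C * L / y ^ 10) ^ 2 = (50 * (C ^ 2 * L ^ 2)) * (y ^ 10)⁻¹ := by
        field_simp
        ring
      have e2 : (y ^ 4)⁻¹ / 4 = (y ^ 6 / 4) * (y ^ 10)⁻¹ := by
        field_simp
      rw [e1, e2]
      refine mul_le_mul_of_nonneg_right ?_ (by positivity)
      have : y ≤ y ^ 6 := le_self_pow₀ (by linarith) (by norm_num)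
      nlinarith [mul_nonneg (sq_nonneg C) (sq_nonneg L)]
    · refine mul_le_mul_of_nonneg_left (Pbd_num y _ _ (by rw [hcard]; positivity) ?_) (by norm_num)
      rw [hcard, hdl, hmy]
      have e1 : 4 * y * (2 * y ^ 10 * (40 * (5 * C * L / y ^ 10)) ^ 2) =
          (5120000 * (C ^ 2 * L ^ 2)) * ((1 / 16) * (y * (y ^ 10)⁻¹)) := by
        field_simp
        ring
      have e2 : ((y ^ 4)⁻¹ / 4) ^ 2 = y * ((1 / 16) * (y * (y ^ 10)⁻¹)) := by
        field_simp
        ring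
      rw [e1, e2]
      refine mul_le_mul_of_nonneg_right ?_ (by positivity)
      nlinarith [mul_nonneg (sq_nonneg C) (sq_nonneg L)]
  have Eind : ∀ a : V m → ℝ, ∑ v, a v ^ 2 = m → (PP (V m)).real {θ | 4 * (y ^ 6 / 4) <
      ‖∑ v, (a v : ℂ) * (xx θ v - 1)‖} ≤ 4 * Real.exp (-(2 * y)) := by
    intro a ha
    refine (Pbd_lin h1 h2 a (16 * m) (y ^ 6 / 4) (by rw [ha]) (by positivity)).trans ?_
    refine mul_le_mul_of_nonneg_left (Pbd_num y _ _ (by positivity) ?_) (by norm_num)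
    rw [hmy]
    have e1 : 4 * y * (16 * y ^ 10) = 1024 * (y ^ 11 / 16) := by ring
    have e2 : (y ^ 6 / 4) ^ 2 = y * (y ^ 11 / 16) := by ring
    rw [e1, e2]
    refine mul_le_mul_of_nonneg_right (by linarith) (by positivity)
  have Ee := Eind (Sum.elim (fun _ => 1) (fun _ => 0)) (by simp [Fintype.sum_sum_type])
  have Ef := Eind (Sum.elim (fun _ => 0) (fun _ => 1)) (by simp [Fintype.sum_sum_type])
  have hsub : {θ : V m → ℝ | ¬ Good E α β (xx θ)} ⊆
      (⋃ v, {θ | 4 * (dl m / 4) < ‖∑ w, (Eb E v w : ℂ) * (xx θ w - 1)‖}) ∪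
      ({θ | dl m < √(∑ i, ∑ j, ‖∑ v, (Eb E i v : ℂ) * (xx θ v - 1) * Eb E v j‖ ^ 2)} ∪
      ({θ | 4 * (dl m / 4) < ‖∑ v, (W v v : ℂ) * (xx θ v - 1)‖} ∪
      ({θ | 4 * (dl m / 4) < ‖∑ v, ∑ w, ((W v w ^ 2 : ℝ) : ℂ) * (xx θ v - 1) * (xx θ w - 1)‖} ∪
      ({θ | 4 * (y ^ 6 / 4) < ‖∑ v, ((Sum.elim (fun _ => 1) (fun _ => 0) : V m → ℝ) v : ℂ) *
        (xx θ v - 1)‖} ∪
      {θ | 4 * (y ^ 6 / 4) < ‖∑ v, ((Sum.elim (fun _ => 0) (fun _ => 1) : V m → ℝ) v : ℂ) *
        (xx θ v - 1)‖})))) := by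
    intro θ hθ
    by_contra hcon
    simp only [Set.mem_union, Set.mem_iUnion, Set.mem_ofPred_eq, not_or, not_exists,
      not_lt] at hcon hθ
    obtain ⟨ca, cb, cc, cd, ce, cf⟩ := hcon
    apply hθ
    refine ⟨?_, ?_, ?_, ?_, ?_, ?_⟩
    · intro v
      have e : xi E (xx θ) v = ∑ w, (Eb E v w : ℂ) * (xx θ w - 1) := by
        unfold xi
        have : ∑ w, (Eb E v w : ℂ) = 0 := by
          rw [← Complex.ofReal_sum, hEr v, Complex.ofReal_zero]
        simp_rw [mul_sub, mul_one, Finset.sum_sub_distrib]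
        rw [this, sub_zero]
      rw [e]
      linarith [ca v]
    · refine le_trans (le_of_eq ?_) cb
      unfold frob
      congr 1
      refine Finset.sum_congr rfl fun i _ => Finset.sum_congr rfl fun j _ => ?_
      rw [Matrix.mul_apply]
      simp only [Matrix.mul_diagonal, Matrix.map_apply]
    · linarith
    · have e : ∑ v, ∑ w, (W v w : ℂ) ^ 2 * (xx θ v - 1) * (xx θ w - 1) =
          ∑ v, ∑ w, ((W v w ^ 2 : ℝ) : ℂ) * (xx θ v - 1) * (xx θ w - 1) := by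
        push_cast
        rfl
      rw [← hW, e]
      linarith
    · rw [hm35]
      have e : ∑ i : Fin m, (xx θ (Sum.inl i) - 1) =
          ∑ v, ((Sum.elim (fun _ => 1) (fun _ => 0) : V m → ℝ) v : ℂ) * (xx θ v - 1) := by
        simp [Fintype.sum_sum_type]
      rw [e]
      linarith
    · rw [hm35]
      have e : ∑ i : Fin m, (xx θ (Sum.inr i) - 1) =
          ∑ v, ((Sum.elim (fun _ => 0) (fun _ => 1) : V m → ℝ) v : ℂ) * (xx θ v - 1) := by
        simp [Fintype.sum_sum_type]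
      rw [e]
      linarith
  refine (measureReal_mono hsub).trans ?_
  refine (measureReal_union_le _ _).trans ?_
  have u1 := measureReal_iUnion_fintype_le (μ := PP (V m))
    (fun v => {θ | 4 * (dl m / 4) < ‖∑ w, (Eb E v w : ℂ) * (xx θ w - 1)‖})
  have u2 := u1.trans (Finset.sum_le_sum fun v _ => Ea v)
  rw [Finset.sum_const, Finset.card_univ, nsmul_eq_mul, hcard] at u2
  have u3 := measureReal_union_le (μ := PP (V m)) {θ | dl m < √(∑ i, ∑ j,
      ‖∑ v, (Eb E i v : ℂ) * (xx θ v - 1) * Eb E v j‖ ^ 2)}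
    ({θ | 4 * (dl m / 4) < ‖∑ v, (W v v : ℂ) * (xx θ v - 1)‖} ∪
      ({θ | 4 * (dl m / 4) < ‖∑ v, ∑ w, ((W v w ^ 2 : ℝ) : ℂ) * (xx θ v - 1) * (xx θ w - 1)‖} ∪
      ({θ | 4 * (y ^ 6 / 4) < ‖∑ v, ((Sum.elim (fun _ => 1) (fun _ => 0) : V m → ℝ) v : ℂ) *
        (xx θ v - 1)‖} ∪
      {θ | 4 * (y ^ 6 / 4) < ‖∑ v, ((Sum.elim (fun _ => 0) (fun _ => 1) : V m → ℝ) v : ℂ) *
        (xx θ v - 1)‖})))
  have u4 := measureReal_union_le (μ := PP (V m))
    {θ | 4 * (dl m / 4) < ‖∑ v, (W v v : ℂ) * (xx θ v - 1)‖}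
      ({θ | 4 * (dl m / 4) < ‖∑ v, ∑ w, ((W v w ^ 2 : ℝ) : ℂ) * (xx θ v - 1) * (xx θ w - 1)‖} ∪
      ({θ | 4 * (y ^ 6 / 4) < ‖∑ v, ((Sum.elim (fun _ => 1) (fun _ => 0) : V m → ℝ) v : ℂ) *
        (xx θ v - 1)‖} ∪
      {θ | 4 * (y ^ 6 / 4) < ‖∑ v, ((Sum.elim (fun _ => 0) (fun _ => 1) : V m → ℝ) v : ℂ) *
        (xx θ v - 1)‖}))
  have u5 := measureReal_union_le (μ := PP (V m))
      {θ | 4 * (dl m / 4) < ‖∑ v, ∑ w, ((W v w ^ 2 : ℝ) : ℂ) * (xx θ v - 1) * (xx θ w - 1)‖}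
      ({θ | 4 * (y ^ 6 / 4) < ‖∑ v, ((Sum.elim (fun _ => 1) (fun _ => 0) : V m → ℝ) v : ℂ) *
        (xx θ v - 1)‖} ∪
      {θ | 4 * (y ^ 6 / 4) < ‖∑ v, ((Sum.elim (fun _ => 0) (fun _ => 1) : V m → ℝ) v : ℂ) *
        (xx θ v - 1)‖})
  have u6 := measureReal_union_le (μ := PP (V m))
      {θ | 4 * (y ^ 6 / 4) < ‖∑ v, ((Sum.elim (fun _ => 1) (fun _ => 0) : V m → ℝ) v : ℂ) *
        (xx θ v - 1)‖}
      {θ | 4 * (y ^ 6 / 4) < ‖∑ v, ((Sum.elim (fun _ => 0) (fun _ => 1) : V m → ℝ) v : ℂ) *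
        (xx θ v - 1)‖}
  have hp' : Real.exp (-(2 * y)) * (8 * (m : ℝ) + 20) =
      8 * (m : ℝ) * Real.exp (-(2 * y)) + 20 * Real.exp (-(2 * y)) := by ring
  have hexp := Real.exp_pos (-(2 * y))
  linarith

end Pool.Agent.PCW
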