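import Mathlib
import Pool.Agent.PCW.St

set_option autoImplicit false

/-! PCW Phi: the functional on polynomials (helper file for Prm and Rad). -/

namespace Pool.Agent.PCW

open Finset Filter MeasureTheory

variable {σ : Type} [Fintype σ]

/-- the functional: the sum of the coefficients of the squarefree monomials -/
noncomputable def phi (σ : Type) [Fintype σ] : MvPolynomial σ ℂ →ₗ[ℂ] ℂ :=
  open scoped Classical in
  (MvPolynomial.basisMonomials σ ℂ).constr ℂ (fun d => if ∀ v, d v ≤ 1 then 1 else 0)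

open scoped Classical in
theorem phi_monomial (d : σ →₀ ℕ) (c : ℂ) :
    phi σ (MvPolynomial.monomial d c) = if ∀ v, d v ≤ 1 then c else 0 := by
  have h1 : MvPolynomial.monomial d c = c • (MvPolynomial.basisMonomials σ ℂ) d := by
    rw [MvPolynomial.coe_basisMonomials, MvPolynomial.smul_monomial, smul_eq_mul, mul_one]
  rw [h1, map_smul, phi, Module.Basis.constr_basis]
  split_ifs <;> simp

theorem phi_cw_int {f : ℝ → ℂ} (hf : Continuous f) : Integrable f nu := by
  have h1 : IntegrableOn f (Set.Ioc 0 (2 * Real.pi)) volume :=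
    (hf.integrableOn_Icc).mono_set Set.Ioc_subset_Icc_self
  exact Integrable.smul_measure h1 ENNReal.ofReal_ne_top

theorem cw_cont (ρ : ℝ) : Continuous (cw ρ) := by
  unfold cw
  fun_prop

theorem pt_cont (ρ : ℝ) : Continuous (pt ρ) := by
  unfold pt
  fun_prop

/-- `JJ` of a polynomial -/
theorem JJ_eval (h1 : St_Law) (r : σ → ℝ) (hr : ∀ v, 0 < r v) (p : MvPolynomial σ ℂ) :
    JJ r (fun x => MvPolynomial.eval x p) = phi σ p := by
  classical
  obtain ⟨hp1, -, -, hmom, -, -⟩ := h1
  have hone : ∀ (v : σ) (k : ℕ), Integrable (fun θ : ℝ => cw (r v) θ * pt (r v) θ ^ k) nu := by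
    intro v k
    refine phi_cw_int ?_
    have := cw_cont (r v)
    have := pt_cont (r v)
    fun_prop
  have hval : ∀ (d : σ →₀ ℕ), ∫ θ : σ → ℝ, ∏ v, (cw (r v) (θ v) * pt (r v) (θ v) ^ d v)
      ∂(Measure.pi fun _ => nu) = if ∀ v, d v ≤ 1 then 1 else 0 := by
    intro d
    rw [integral_fintype_prod_eq_prod (𝕜 := ℂ) (fun v θ => cw (r v) θ * pt (r v) θ ^ d v)]
    have h2 : ∀ v, ∫ θ, cw (r v) θ * pt (r v) θ ^ d v ∂nu = if d v ≤ 1 then 1 else 0 := by
      intro v
      rw [← hmom (r v) (d v) (hr v)]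
      exact integral_congr_ae (Eventually.of_forall fun θ => mul_comm _ _)
    simp_rw [h2]
    split_ifs with h
    · exact Finset.prod_eq_one fun v _ => if_pos (h v)
    · push Not at h
      obtain ⟨v, hv⟩ := h
      exact Finset.prod_eq_zero (mem_univ v) (if_neg (by omega))
  have hint : ∀ (d : σ →₀ ℕ), Integrable (fun θ : σ → ℝ =>
      ∏ v, (cw (r v) (θ v) * pt (r v) (θ v) ^ d v)) (Measure.pi fun _ => nu) := fun d =>
    Integrable.fintype_prod (fun v => hone v (d v))
  have hsum : ∀ θ : σ → ℝ, (∏ v, cw (r v) (θ v)) *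
      MvPolynomial.eval (fun v => pt (r v) (θ v)) p =
      ∑ d ∈ p.support, p.coeff d * ∏ v, (cw (r v) (θ v) * pt (r v) (θ v) ^ d v) := by
    intro θ
    rw [MvPolynomial.eval_eq', Finset.mul_sum]
    refine Finset.sum_congr rfl fun d _ => ?_
    rw [Finset.prod_mul_distrib]
    ring
  unfold JJ
  simp_rw [hsum]
  rw [integral_finsetSum _ fun d _ => (hint d).const_mul _]
  conv_rhs => rw [p.as_sum, map_sum]
  refine Finset.sum_congr rfl fun d _ => ?_
  rw [integral_const_mul, hval, phi_monomial]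
  split_ifs <;> simp

end Pool.Agent.PCW
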