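import Mathlib
import Pool.Agent.PCW.Phi

set_option autoImplicit false

/-! PCW Rad: the functional does not depend on the radii. -/

namespace Pool.Agent.PCW

open Finset Filter MeasureTheory

/-- `d_v` as a polynomial -/
noncomputable def dvp {m : ℕ} (E : Matrix (Fin m) (Fin m) ℝ) (α β : ℝ) (v : V m) :
    MvPolynomial (V m) ℂ :=
  MvPolynomial.C (al α β v : ℂ) + ∑ w, MvPolynomial.C (Eb E v w : ℂ) * MvPolynomial.X w

theorem eval_dvp {m : ℕ} (E : Matrix (Fin m) (Fin m) ℝ) (α β : ℝ) (v : V m) (x : V m → ℂ) :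
    MvPolynomial.eval x (dvp E α β v) = dv E α β x v := by
  simp only [dvp, dv, xi, map_add, map_sum, map_mul, MvPolynomial.eval_C, MvPolynomial.eval_X]

private theorem Rad_Psi (h2 : St_Psx) {m : ℕ} (E : Matrix (Fin m) (Fin m) ℝ) (α β : ℝ) :
    ∃ p : MvPolynomial (V m) ℂ, ∀ x, Psi E α β x = MvPolynomial.eval x p := by
  refine ⟨-∑ π : Equiv.Perm (V m), MvPolynomial.C (((Equiv.Perm.sign π : ℤ) : ℂ) * π.support.card *
    (-1) ^ π.support.card * (∏ v ∈ π.support, (Bb E (π v) v : ℂ))) *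
      ((∏ v ∈ π.support, MvPolynomial.X v) * ∏ v ∈ π.supportᶜ, dvp E α β v), fun x => ?_⟩
  rw [h2, map_neg, map_sum]
  congr 1
  refine Finset.sum_congr rfl fun π _ => ?_
  rw [RingHom.map_mul (MvPolynomial.eval x), MvPolynomial.eval_C,
    RingHom.map_mul (MvPolynomial.eval x), map_prod (MvPolynomial.eval x),
    map_prod (MvPolynomial.eval x)]
  simp only [MvPolynomial.eval_X, eval_dvp]

theorem thm_Rad (h1 : St_Law) (h2 : St_Psx) : St_Rad := by
  intro m E α β r hr
  obtain ⟨p, hp⟩ := Rad_Psi h2 E α β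
  have h3 : Psi E α β = fun x => MvPolynomial.eval x p := funext hp
  rw [HH, h3, JJ_eval h1 r hr, JJ_eval h1 _ fun _ => two_pos]

end Pool.Agent.PCW
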