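import Mathlib
import Pool.Agent.PCW.Phi
import Pool.Agent.PCW.Rad

set_option autoImplicit false

/-! PCW Prm: the functional gives permanents. -/

namespace Pool.Agent.PCW

open Finset Filter MeasureTheory

section general

variable {σ : Type} [Fintype σ] [DecidableEq σ]

omit [DecidableEq σ] in
private theorem Prm_zero {d : σ →₀ ℕ} (hd : ¬ ∀ v, d v ≤ 1) (q : MvPolynomial σ ℂ) :
    phi σ (q * MvPolynomial.monomial d 1) = 0 := by
  classical
  rw [q.as_sum, Finset.sum_mul, map_sum]
  refine Finset.sum_eq_zero fun e _ => ?_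
  rw [MvPolynomial.monomial_mul, phi_monomial, if_neg]
  intro h
  apply hd
  intro v
  have := h v
  rw [Finsupp.add_apply] at this
  omega

private theorem Prm_pow (W : Finset σ) (k : ℕ) : ∀ d : σ →₀ ℕ, (∑ v ∈ W, d v) + k = W.card →
    phi σ ((∑ w ∈ W, MvPolynomial.X w) ^ k * MvPolynomial.monomial d 1) =
      (k.factorial : ℂ) * phi σ (MvPolynomial.monomial d 1) := by
  classical
  induction k with
  | zero =>
    intro d _
    simp
  | succ k ih =>
    intro d hk
    by_cases hd : ∀ v, d v ≤ 1
    · have h1 : (∑ w ∈ W, (MvPolynomial.X w : MvPolynomial σ ℂ)) ^ (k + 1) *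
          MvPolynomial.monomial d 1 = ∑ w ∈ W, (∑ w ∈ W, MvPolynomial.X w) ^ k *
            MvPolynomial.monomial (d + Finsupp.single w 1) 1 := by
        rw [pow_succ, mul_assoc, Finset.sum_mul, Finset.mul_sum]
        refine Finset.sum_congr rfl fun w _ => ?_
        rw [MvPolynomial.X, MvPolynomial.monomial_mul, add_comm, one_mul]
      rw [h1, map_sum]
      have h2 : ∀ w ∈ W, phi σ ((∑ w ∈ W, MvPolynomial.X w) ^ k *
          MvPolynomial.monomial (d + Finsupp.single w 1) 1) =
          if d w = 0 then (k.factorial : ℂ) else 0 := by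
        intro w hw
        split_ifs with h0
        · rw [ih (d + Finsupp.single w 1), phi_monomial, if_pos, mul_one]
          · intro v
            rw [Finsupp.add_apply]
            by_cases hv : v = w
            · subst hv
              rw [Finsupp.single_eq_same, h0]
            · rw [Finsupp.single_eq_of_ne hv]
              exact hd v
          · rw [← hk]
            have : ∑ v ∈ W, (d + Finsupp.single w 1 : σ →₀ ℕ) v = (∑ v ∈ W, d v) + 1 := by
              simp only [Finsupp.add_apply]
              rw [Finset.sum_add_distrib]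
              congr 1
              rw [Finset.sum_eq_single w]
              · simp
              · intro b _ hb
                exact Finsupp.single_eq_of_ne hb
              · intro h
                exact absurd hw h
            omega
        · refine Prm_zero ?_ _
          intro h
          have := h w
          rw [Finsupp.add_apply, Finsupp.single_eq_same] at this
          omega
      rw [Finset.sum_congr rfl h2, ← Finset.sum_filter, Finset.sum_const, nsmul_eq_mul,
        phi_monomial, if_pos hd, mul_one, Nat.factorial_succ]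
      have h3 : (W.filter (fun w => d w = 0)).card = k + 1 := by
        have h4 : ∑ v ∈ W, d v = (W.filter (fun w => ¬ d w = 0)).card := by
          rw [Finset.card_filter]
          refine Finset.sum_congr rfl fun v _ => ?_
          have := hd v
          split_ifs with h
          · omega
          · omega
        have h5 := Finset.card_filter_add_card_filter_not (s := W) (fun w => d w = 0)
        omega
      rw [h3]
      push_cast
      ring
    · rw [Prm_zero hd, phi_monomial, if_neg hd, mul_zero]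

private theorem Prm_powh (W : Finset σ) (k n : ℕ) (q : MvPolynomial σ ℂ)
    (hq : MvPolynomial.IsWeightedHomogeneous (fun v => if v ∈ W then 1 else 0) q n)
    (hn : n + k = W.card) :
    phi σ ((∑ w ∈ W, MvPolynomial.X w) ^ k * q) = (k.factorial : ℂ) * phi σ q := by
  classical
  conv_lhs => rw [q.as_sum]
  conv_rhs => rw [q.as_sum]
  rw [Finset.mul_sum, map_sum, map_sum, Finset.mul_sum]
  refine Finset.sum_congr rfl fun d hd => ?_
  have h1 := hq (MvPolynomial.mem_support_iff.1 hd)
  have h2 : ∑ v ∈ W, d v = n := by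
    rw [← h1, Finsupp.weight_apply, Finsupp.sum_fintype _ _ (by simp)]
    simp only [smul_eq_mul, mul_ite, mul_one, mul_zero]
    rw [← Finset.sum_filter]
    congr 1
    ext v
    simp
  have h3 : MvPolynomial.monomial d (q.coeff d) = (q.coeff d) • MvPolynomial.monomial d (1 : ℂ) := by
    rw [MvPolynomial.smul_monomial, smul_eq_mul, mul_one]
  rw [h3, mul_smul_comm, map_smul, map_smul, Prm_pow W k d (by omega), smul_eq_mul, smul_eq_mul]
  ring

private theorem Prm_inj (g : σ → σ) :
    (open scoped Classical in phi σ (∏ v, MvPolynomial.X (g v)) =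
      if Function.Injective g then 1 else 0) := by
  classical
  have h1 : (∏ v, (MvPolynomial.X (g v) : MvPolynomial σ ℂ)) =
      MvPolynomial.monomial (∑ v, Finsupp.single (g v) 1) 1 := by
    rw [MvPolynomial.monomial_sum_one]
    rfl
  rw [h1, phi_monomial]
  have h2 : ∀ w, (∑ v, Finsupp.single (g v) 1 : σ →₀ ℕ) w =
      (univ.filter (fun v => g v = w)).card := by
    intro w
    rw [Finsupp.finsetSum_apply, Finset.card_filter]
    refine Finset.sum_congr rfl fun v _ => ?_
    rw [Finsupp.single_apply]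
  congr 1
  rw [eq_iff_iff]
  constructor
  · intro h a b hab
    have h3 := h (g a)
    rw [h2, Finset.card_le_one] at h3
    exact h3 a (by simp) b (by simp [hab])
  · intro h w
    rw [h2, Finset.card_le_one]
    intro a ha b hb
    rw [mem_filter] at ha hb
    exact h (ha.2.trans hb.2.symm)

private theorem Prm_perm (C : σ → σ → ℂ) :
    phi σ (∏ v, ∑ w, MvPolynomial.C (C v w) * MvPolynomial.X w) =
      ∑ κ : Equiv.Perm σ, ∏ v, C v (κ v) := by
  classical
  rw [Finset.prod_univ_sum, map_sum]
  have h1 : ∀ g : σ → σ, phi σ (∏ v, (MvPolynomial.C (C v (g v)) * MvPolynomial.X (g v))) =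
      if Function.Injective g then ∏ v, C v (g v) else 0 := by
    intro g
    rw [Finset.prod_mul_distrib, ← map_prod, ← MvPolynomial.smul_eq_C_mul, map_smul, Prm_inj,
      smul_eq_mul]
    split_ifs <;> simp
  rw [Finset.sum_congr rfl fun g _ => h1 g, ← Finset.sum_filter]
  symm
  refine Finset.sum_bij (fun κ _ => (κ : σ → σ)) ?_ ?_ ?_ ?_
  · intro κ _
    rw [mem_filter]
    exact ⟨by simp, κ.injective⟩
  · intro κ _ κ' _ h
    exact DFunLike.coe_injective h
  · intro g hg
    rw [mem_filter] at hg
    exact ⟨Equiv.ofBijective g (Finite.injective_iff_bijective.1 hg.2), mem_univ _, rfl⟩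
  · intro κ _
    rfl

end general

section side

variable {m : ℕ} (E : Matrix (Fin m) (Fin m) ℝ)

/-- `ξ_v` as a polynomial -/
private noncomputable def Prm_xi (v : V m) : MvPolynomial (V m) ℂ :=
  ∑ w, MvPolynomial.C (Eb E v w : ℂ) * MvPolynomial.X w

private def Prm_R (m : ℕ) : Finset (V m) := univ.filter (fun v => v.isRight)
private def Prm_L (m : ℕ) : Finset (V m) := univ.filter (fun v => v.isLeft)

private theorem Prm_hom_xi (v : V m) :
    MvPolynomial.IsWeightedHomogeneous (fun v => if v ∈ Prm_R m then 1 else 0) (Prm_xi E v)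
      (if v.isLeft then 1 else 0) ∧
    MvPolynomial.IsWeightedHomogeneous (fun v => if v ∈ Prm_L m then 1 else 0) (Prm_xi E v)
      (if v.isRight then 1 else 0) := by
  constructor
  · refine MvPolynomial.IsWeightedHomogeneous.sum _ _ _ fun w _ => ?_
    rcases v with i | i <;> rcases w with j | j
    · have h0 : Eb E (Sum.inl i) (Sum.inl j) = 0 := rfl
      rw [h0]
      simpa using MvPolynomial.isWeightedHomogeneous_zero ℂ _ _
    · have h1 := (MvPolynomial.isWeightedHomogeneous_C (fun v => if v ∈ Prm_R m then 1 else 0)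
        ((Eb E (Sum.inl i) (Sum.inr j) : ℝ) : ℂ)).mul
        (MvPolynomial.isWeightedHomogeneous_X ℂ (fun v => if v ∈ Prm_R m then 1 else 0)
          (Sum.inr j))
      simpa [Prm_R] using h1
    · have h1 := (MvPolynomial.isWeightedHomogeneous_C (fun v => if v ∈ Prm_R m then 1 else 0)
        ((Eb E (Sum.inr i) (Sum.inl j) : ℝ) : ℂ)).mul
        (MvPolynomial.isWeightedHomogeneous_X ℂ (fun v => if v ∈ Prm_R m then 1 else 0)
          (Sum.inl j))
      simpa [Prm_R] using h1
    · have h0 : Eb E (Sum.inr i) (Sum.inr j) = 0 := rfl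
      rw [h0]
      simpa using MvPolynomial.isWeightedHomogeneous_zero ℂ _ _
  · refine MvPolynomial.IsWeightedHomogeneous.sum _ _ _ fun w _ => ?_
    rcases v with i | i <;> rcases w with j | j
    · have h0 : Eb E (Sum.inl i) (Sum.inl j) = 0 := rfl
      rw [h0]
      simpa using MvPolynomial.isWeightedHomogeneous_zero ℂ _ _
    · have h1 := (MvPolynomial.isWeightedHomogeneous_C (fun v => if v ∈ Prm_L m then 1 else 0)
        ((Eb E (Sum.inl i) (Sum.inr j) : ℝ) : ℂ)).mul
        (MvPolynomial.isWeightedHomogeneous_X ℂ (fun v => if v ∈ Prm_L m then 1 else 0)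
          (Sum.inr j))
      simpa [Prm_L] using h1
    · have h1 := (MvPolynomial.isWeightedHomogeneous_C (fun v => if v ∈ Prm_L m then 1 else 0)
        ((Eb E (Sum.inr i) (Sum.inl j) : ℝ) : ℂ)).mul
        (MvPolynomial.isWeightedHomogeneous_X ℂ (fun v => if v ∈ Prm_L m then 1 else 0)
          (Sum.inl j))
      simpa [Prm_L] using h1
    · have h0 : Eb E (Sum.inr i) (Sum.inr j) = 0 := rfl
      rw [h0]
      simpa using MvPolynomial.isWeightedHomogeneous_zero ℂ _ _

/-- the polynomial `h_T` -/
private noncomputable def Prm_h (S T : Finset (V m)) : MvPolynomial (V m) ℂ :=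
  (∏ v ∈ Sᶜ, MvPolynomial.X v) * ∏ v ∈ S \ T, Prm_xi E v

private theorem Prm_hom_h (S T : Finset (V m)) :
    MvPolynomial.IsWeightedHomogeneous (fun v => if v ∈ Prm_R m then 1 else 0) (Prm_h E S T)
      ((Sᶜ.filter (fun v => v.isRight)).card + ((S \ T).filter (fun v => v.isLeft)).card) ∧
    MvPolynomial.IsWeightedHomogeneous (fun v => if v ∈ Prm_L m then 1 else 0) (Prm_h E S T)
      ((Sᶜ.filter (fun v => v.isLeft)).card + ((S \ T).filter (fun v => v.isRight)).card) := by
  constructor
  · have h1 := MvPolynomial.IsWeightedHomogeneous.prod Sᶜ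
      (fun v => (MvPolynomial.X v : MvPolynomial (V m) ℂ)) _
      (fun v _ => MvPolynomial.isWeightedHomogeneous_X ℂ
        (fun v => if v ∈ Prm_R m then 1 else 0) v)
    have h2 := MvPolynomial.IsWeightedHomogeneous.prod (S \ T) (Prm_xi E) _
      (fun v _ => (Prm_hom_xi E v).1)
    have h3 := h1.mul h2
    rw [Finset.card_filter, Finset.card_filter]
    simpa [Prm_R, Prm_h] using h3
  · have h1 := MvPolynomial.IsWeightedHomogeneous.prod Sᶜ
      (fun v => (MvPolynomial.X v : MvPolynomial (V m) ℂ)) _
      (fun v _ => MvPolynomial.isWeightedHomogeneous_X ℂ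
        (fun v => if v ∈ Prm_L m then 1 else 0) v)
    have h2 := MvPolynomial.IsWeightedHomogeneous.prod (S \ T) (Prm_xi E) _
      (fun v _ => (Prm_hom_xi E v).2)
    have h3 := h1.mul h2
    rw [Finset.card_filter, Finset.card_filter]
    simpa [Prm_L, Prm_h] using h3

private theorem Prm_hom_sumL (l : ℕ) :
    MvPolynomial.IsWeightedHomogeneous (fun v => if v ∈ Prm_R m then 1 else 0)
      ((∑ w ∈ Prm_L m, (MvPolynomial.X w : MvPolynomial (V m) ℂ)) ^ l) 0 := by
  have h1 : MvPolynomial.IsWeightedHomogeneous (fun v => if v ∈ Prm_R m then 1 else 0)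
      (∑ w ∈ Prm_L m, (MvPolynomial.X w : MvPolynomial (V m) ℂ)) 0 := by
    refine MvPolynomial.IsWeightedHomogeneous.sum _ _ _ fun w hw => ?_
    have h2 := MvPolynomial.isWeightedHomogeneous_X ℂ (fun v => if v ∈ Prm_R m then 1 else 0) w
    have h3 : w ∉ Prm_R m := by
      rw [Prm_L, mem_filter] at hw
      rw [Prm_R, mem_filter]
      rcases w with i | i
      · simp
      · simp at hw
    rwa [if_neg h3] at h2
  simpa using h1.pow l

end side

section main

variable {m : ℕ} (E : Matrix (Fin m) (Fin m) ℝ)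

private theorem Prm_card (S T : Finset (V m)) (hT : T ⊆ S)
    (hS : (S.filter (fun v => v.isLeft)).card = (S.filter (fun v => v.isRight)).card) :
    ((Sᶜ.filter (fun v => v.isRight)).card + ((S \ T).filter (fun v => v.isLeft)).card) +
      (T.filter (fun v => v.isLeft)).card = (Prm_R m).card ∧
    ((Sᶜ.filter (fun v => v.isLeft)).card + ((S \ T).filter (fun v => v.isRight)).card) +
      (T.filter (fun v => v.isRight)).card = (Prm_L m).card := by
  classical
  have h1 : ∀ p : V m → Prop, ∀ _ : DecidablePred p,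
      ((S \ T).filter p).card + (T.filter p).card = (S.filter p).card := by
    intro p _
    rw [← Finset.card_union_of_disjoint]
    · congr 1
      ext v
      simp only [mem_union, mem_filter, Finset.mem_sdiff]
      constructor
      · rintro (⟨⟨h1, _⟩, h3⟩ | ⟨h1, h3⟩)
        · exact ⟨h1, h3⟩
        · exact ⟨hT h1, h3⟩
      · rintro ⟨h1, h3⟩
        by_cases h2 : v ∈ T
        · exact Or.inr ⟨h2, h3⟩
        · exact Or.inl ⟨⟨h1, h2⟩, h3⟩
    · rw [Finset.disjoint_left]
      intro v hv hv'
      simp only [mem_filter, Finset.mem_sdiff] at hv hv'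
      exact hv.1.2 hv'.1
  have h2 : ∀ p : V m → Prop, ∀ _ : DecidablePred p,
      (Sᶜ.filter p).card + (S.filter p).card = (univ.filter p).card := by
    intro p _
    rw [← Finset.card_union_of_disjoint]
    · congr 1
      ext v
      simp only [mem_union, mem_filter, mem_compl, mem_univ, true_and]
      constructor
      · rintro (⟨_, h3⟩ | ⟨_, h3⟩) <;> exact h3
      · intro h3
        by_cases h2 : v ∈ S
        · exact Or.inr ⟨h2, h3⟩
        · exact Or.inl ⟨h2, h3⟩
    · rw [Finset.disjoint_left]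
      intro v hv hv'
      simp only [mem_filter, mem_compl] at hv hv'
      exact hv.1 hv'.1
  have a1 := h1 (fun v => v.isLeft) inferInstance
  have a2 := h1 (fun v => v.isRight) inferInstance
  have b1 := h2 (fun v => v.isLeft) inferInstance
  have b2 := h2 (fun v => v.isRight) inferInstance
  unfold Prm_R Prm_L
  constructor
  · omega
  · omega

/-- the value of the functional on the mixed product -/
private theorem Prm_mixed (S T : Finset (V m)) (hT : T ⊆ S)
    (hS : (S.filter (fun v => v.isLeft)).card = (S.filter (fun v => v.isRight)).card) :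
    phi (V m) ((∑ w ∈ Prm_R m, MvPolynomial.X w) ^ (T.filter (fun v => v.isLeft)).card *
      ((∑ w ∈ Prm_L m, MvPolynomial.X w) ^ (T.filter (fun v => v.isRight)).card *
        Prm_h E S T)) =
      ((T.filter (fun v => v.isLeft)).card.factorial : ℂ) *
        (((T.filter (fun v => v.isRight)).card.factorial : ℂ) * phi (V m) (Prm_h E S T)) := by
  obtain ⟨c1, c2⟩ := Prm_card S T hT hS
  obtain ⟨p1, p2⟩ := Prm_hom_h E S T
  rw [Prm_powh (Prm_R m) _ _ _ ((Prm_hom_sumL _).mul p1) (by rw [zero_add]; exact c1),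
    Prm_powh (Prm_L m) _ _ _ p2 c2]

/-- the right side -/
private theorem Prm_rhs (S : Finset (V m))
    (hS : (S.filter (fun v => v.isLeft)).card = (S.filter (fun v => v.isRight)).card) :
    ((∑ κ : Equiv.Perm (V m), (open scoped Classical in
      if ∀ v, v ∉ S → κ v = v then ∏ v ∈ S, Bb E v (κ v) else 0) : ℝ) : ℂ) =
    ∑ T ∈ S.powerset, (1 / (m : ℂ)) ^ T.card *
      (((T.filter (fun v => v.isLeft)).card.factorial : ℂ) *
        (((T.filter (fun v => v.isRight)).card.factorial : ℂ) * phi (V m) (Prm_h E S T))) := by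
  classical
  set Z : V m → MvPolynomial (V m) ℂ := fun v =>
    if v.isLeft then ∑ w ∈ Prm_R m, MvPolynomial.X w else ∑ w ∈ Prm_L m, MvPolynomial.X w with hZ
  have hBZ : ∀ v : V m, (∑ w, MvPolynomial.C (Bb E v w : ℂ) * MvPolynomial.X w :
      MvPolynomial (V m) ℂ) = MvPolynomial.C (1 / (m : ℂ)) * Z v + Prm_xi E v := by
    intro v
    have h1 : ∀ w, (Bb E v w : ℂ) = (Eb E v w : ℂ) +
        (if (v.isLeft ∧ w ∈ Prm_R m) ∨ (v.isRight ∧ w ∈ Prm_L m) then 1 / (m : ℂ) else 0) := by
      intro w
      rcases v with i | i <;> rcases w with j | j <;>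
        simp [Bb, Eb, BB, Prm_R, Prm_L, Matrix.fromBlocks]
    have h2 : ∀ w, (MvPolynomial.C (Bb E v w : ℂ) * MvPolynomial.X w : MvPolynomial (V m) ℂ) =
        MvPolynomial.C (Eb E v w : ℂ) * MvPolynomial.X w +
        (if (v.isLeft ∧ w ∈ Prm_R m) ∨ (v.isRight ∧ w ∈ Prm_L m) then
          MvPolynomial.C (1 / (m : ℂ)) * MvPolynomial.X w else 0) := by
      intro w
      rw [h1, MvPolynomial.C_add, add_mul]
      congr 1
      split_ifs <;> simp
    rw [Finset.sum_congr rfl fun w _ => h2 w, Finset.sum_add_distrib, add_comm, Prm_xi]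
    congr 1
    rw [← Finset.sum_filter, hZ]
    rcases v with i | i
    · simp only [Sum.isLeft_inl, Sum.isRight_inl, true_and, Bool.false_eq_true, false_and,
        or_false, if_true]
      rw [Finset.mul_sum]
      refine Finset.sum_congr ?_ fun _ _ => rfl
      ext w
      simp
    · simp only [Sum.isLeft_inr, Sum.isRight_inr, true_and, Bool.false_eq_true, false_and,
        false_or, if_false]
      rw [Finset.mul_sum]
      refine Finset.sum_congr ?_ fun _ _ => rfl
      ext w
      simp
  have h3 := Prm_perm (fun v w : V m => if v ∈ S then (Bb E v w : ℂ) else if v = w then 1 else 0)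
  have h4 : ∀ κ : Equiv.Perm (V m), (∏ v, if v ∈ S then (Bb E v (κ v) : ℂ) else
      if v = κ v then 1 else 0) =
      ((if ∀ v, v ∉ S → κ v = v then ∏ v ∈ S, Bb E v (κ v) else 0 : ℝ) : ℂ) := by
    intro κ
    rw [← Finset.prod_mul_prod_compl S]
    have h40 : (∏ v ∈ S, if v ∈ S then (Bb E v (κ v) : ℂ) else if v = κ v then 1 else 0) =
        ∏ v ∈ S, (Bb E v (κ v) : ℂ) := Finset.prod_congr rfl fun v hv => if_pos hv
    rw [h40]
    split_ifs with h
    · rw [Finset.prod_eq_one (s := Sᶜ), mul_one]
      · push_cast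
        rfl
      · intro v hv
        rw [mem_compl] at hv
        rw [if_neg hv, if_pos (h v hv).symm]
    · push Not at h
      obtain ⟨v, hv, hne⟩ := h
      rw [Finset.prod_eq_zero (s := Sᶜ) (i := v) (mem_compl.2 hv), mul_zero]
      · simp
      · rw [if_neg hv, if_neg (Ne.symm hne)]
  have h5 : (∏ v : V m, ∑ w, MvPolynomial.C (if v ∈ S then (Bb E v w : ℂ) else
      if v = w then 1 else 0) * MvPolynomial.X w : MvPolynomial (V m) ℂ) =
      (∏ v ∈ Sᶜ, MvPolynomial.X v) * ∏ v ∈ S, (MvPolynomial.C (1 / (m : ℂ)) * Z v +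
        Prm_xi E v) := by
    rw [← Finset.prod_mul_prod_compl S, mul_comm]
    congr 1
    · refine Finset.prod_congr rfl fun v hv => ?_
      rw [mem_compl] at hv
      simp only [if_neg hv]
      rw [Finset.sum_eq_single v]
      · simp
      · intro w _ hw
        rw [if_neg (Ne.symm hw)]
        simp
      · intro h
        exact absurd (mem_univ _) h
    · refine Finset.prod_congr rfl fun v hv => ?_
      simp only [if_pos hv]
      exact hBZ v
  push_cast
  rw [← Finset.sum_congr rfl fun κ _ => (h4 κ).trans (by push_cast; rfl)]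
  rw [← h3, h5, Finset.prod_add, Finset.mul_sum, map_sum]
  refine Finset.sum_congr rfl fun T hT => ?_
  have hT' := Finset.mem_powerset.1 hT
  have h6 : (∏ i ∈ T, (MvPolynomial.C (1 / (m : ℂ)) * Z i) : MvPolynomial (V m) ℂ) =
      MvPolynomial.C ((1 / (m : ℂ)) ^ T.card) *
        ((∑ w ∈ Prm_R m, MvPolynomial.X w) ^ (T.filter (fun v => v.isLeft)).card *
          (∑ w ∈ Prm_L m, MvPolynomial.X w) ^ (T.filter (fun v => v.isRight)).card) := by
    rw [Finset.prod_mul_distrib, Finset.prod_const, ← map_pow]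
    congr 1
    have h7 : ∏ i ∈ T, Z i = ∏ i ∈ T, ((if i.isLeft then ∑ w ∈ Prm_R m, MvPolynomial.X w else 1) *
        (if i.isRight then ∑ w ∈ Prm_L m, MvPolynomial.X w else 1)) := by
      refine Finset.prod_congr rfl fun v _ => ?_
      rw [hZ]
      rcases v with i | i <;> simp
    rw [h7, Finset.prod_mul_distrib, ← Finset.prod_filter, ← Finset.prod_filter,
      Finset.prod_const, Finset.prod_const]
  rw [h6, ← Prm_mixed E S T hT' hS, Prm_h]
  rw [show ∀ a b c d e : MvPolynomial (V m) ℂ, a * (MvPolynomial.C ((1 / (m : ℂ)) ^ T.card) *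
    (b * c) * d) = MvPolynomial.C ((1 / (m : ℂ)) ^ T.card) * (b * (c * (a * d))) by
      intro a b c d _
      ring]
  · rw [← MvPolynomial.smul_eq_C_mul, map_smul, smul_eq_mul]
  · exact 0

private theorem Prm_lhs (h1 : St_Law) (S : Finset (V m)) (α β : ℝ) :
    JJ (fun _ => 2) (fun x => (∏ v ∈ Sᶜ, x v) * ∏ v ∈ S, dv E α β x v) =
    ∑ T ∈ S.powerset, (α : ℂ) ^ (T.filter (fun v => v.isLeft)).card *
      (β : ℂ) ^ (T.filter (fun v => v.isRight)).card * phi (V m) (Prm_h E S T) := by
  classical
  have h2 : (fun x : V m → ℂ => (∏ v ∈ Sᶜ, x v) * ∏ v ∈ S, dv E α β x v) =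
      fun x => MvPolynomial.eval x ((∏ v ∈ Sᶜ, MvPolynomial.X v) * ∏ v ∈ S, dvp E α β v) := by
    funext x
    rw [RingHom.map_mul (MvPolynomial.eval x), map_prod (MvPolynomial.eval x),
      map_prod (MvPolynomial.eval x)]
    simp only [MvPolynomial.eval_X, eval_dvp]
  rw [h2, JJ_eval h1 _ fun _ => two_pos]
  have h3 : (∏ v ∈ S, dvp E α β v) = ∑ T ∈ S.powerset,
      (∏ v ∈ T, MvPolynomial.C (al α β v : ℂ)) * ∏ v ∈ S \ T, Prm_xi E v := by
    rw [← Finset.prod_add]
    rfl
  rw [h3, Finset.mul_sum, map_sum]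
  refine Finset.sum_congr rfl fun T _ => ?_
  have h4 : (∏ v ∈ T, MvPolynomial.C (al α β v : ℂ) : MvPolynomial (V m) ℂ) =
      MvPolynomial.C ((α : ℂ) ^ (T.filter (fun v => v.isLeft)).card *
      (β : ℂ) ^ (T.filter (fun v => v.isRight)).card) := by
    rw [← map_prod]
    congr 1
    have h7 : ∏ i ∈ T, (al α β i : ℂ) = ∏ i ∈ T, ((if i.isLeft then (α : ℂ) else 1) *
        (if i.isRight then (β : ℂ) else 1)) := by
      refine Finset.prod_congr rfl fun v _ => ?_
      rcases v with i | i <;> simp [al]
    rw [h7, Finset.prod_mul_distrib, ← Finset.prod_filter, ← Finset.prod_filter,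
      Finset.prod_const, Finset.prod_const]
  rw [h4, mul_left_comm, ← MvPolynomial.smul_eq_C_mul, map_smul, smul_eq_mul, Prm_h]

private theorem Prm_int1 (k : ℕ) :
    IntegrableOn (fun a : ℝ => (Real.exp (-a) : ℂ) * (((a / m : ℝ) : ℂ)) ^ k) (Set.Ioi 0) ∧
    ∫ a in Set.Ioi (0 : ℝ), (Real.exp (-a) : ℂ) * (((a / m : ℝ) : ℂ)) ^ k =
      (k.factorial : ℂ) * (1 / (m : ℂ)) ^ k := by
  have hk : (0 : ℝ) < k + 1 := by positivity
  have h1 := Real.GammaIntegral_convergent hk
  have h2 := Real.Gamma_eq_integral hk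
  have h3 : Set.EqOn (fun a : ℝ => Real.exp (-a) * a ^ ((k : ℝ) + 1 - 1))
      (fun a : ℝ => Real.exp (-a) * a ^ k) (Set.Ioi 0) := by
    intro a _
    simp only
    rw [add_sub_cancel_right, Real.rpow_natCast]
  have h4 : IntegrableOn (fun a : ℝ => Real.exp (-a) * a ^ k) (Set.Ioi 0) :=
    h1.congr_fun h3 measurableSet_Ioi
  have h5 : ∫ a in Set.Ioi (0 : ℝ), Real.exp (-a) * a ^ k = k.factorial := by
    rw [← Real.Gamma_nat_eq_factorial, h2]
    exact (setIntegral_congr_fun measurableSet_Ioi h3).symm
  have h6 : (fun a : ℝ => (Real.exp (-a) : ℂ) * (((a / m : ℝ) : ℂ)) ^ k) =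
      fun a : ℝ => (((Real.exp (-a) * a ^ k : ℝ)) : ℂ) * (1 / (m : ℂ)) ^ k := by
    funext a
    push_cast
    rw [div_eq_mul_one_div, mul_pow]
    ring
  rw [h6]
  constructor
  · exact (h4.ofReal).mul_const _
  · rw [integral_mul_const, integral_complex_ofReal, h5]
    simp

theorem thm_Prm (h1 : St_Law) : St_Prm := by
  classical
  intro m E S _ hS
  have hfun : (fun p : ℝ × ℝ => (Real.exp (-p.1 - p.2) : ℂ) *
      JJ (fun _ => 2) (fun x => (∏ v ∈ Sᶜ, x v) * ∏ v ∈ S, dv E (p.1 / m) (p.2 / m) x v)) =
      fun p : ℝ × ℝ => ∑ T ∈ S.powerset,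
        (((Real.exp (-p.1) : ℂ) * ((p.1 / m : ℝ) : ℂ) ^ (T.filter (fun v => v.isLeft)).card) *
        ((Real.exp (-p.2) : ℂ) * ((p.2 / m : ℝ) : ℂ) ^ (T.filter (fun v => v.isRight)).card)) *
          phi (V m) (Prm_h E S T) := by
    funext p
    rw [Prm_lhs E h1, Finset.mul_sum]
    refine Finset.sum_congr rfl fun T _ => ?_
    rw [sub_eq_add_neg, Real.exp_add]
    push_cast
    ring
  have hterm : ∀ T : Finset (V m), IntegrableOn (fun p : ℝ × ℝ =>
      (((Real.exp (-p.1) : ℂ) * ((p.1 / m : ℝ) : ℂ) ^ (T.filter (fun v => v.isLeft)).card) *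
        ((Real.exp (-p.2) : ℂ) * ((p.2 / m : ℝ) : ℂ) ^ (T.filter (fun v => v.isRight)).card)) *
          phi (V m) (Prm_h E S T)) (Set.Ioi 0 ×ˢ Set.Ioi 0) := by
    intro T
    have a1 := (Prm_int1 (m := m) (T.filter (fun v => v.isLeft)).card).1
    have a2 := (Prm_int1 (m := m) (T.filter (fun v => v.isRight)).card).1
    rw [IntegrableOn, Measure.volume_eq_prod, ← Measure.prod_restrict]
    exact (Integrable.mul_prod a1 a2).mul_const _
  constructor
  · rw [hfun]
    exact integrable_finsetSum _ fun T _ => hterm T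
  · rw [hfun, integral_finsetSum _ fun T _ => hterm T, Prm_rhs E S hS]
    refine Finset.sum_congr rfl fun T _ => ?_
    rw [integral_mul_const, Measure.volume_eq_prod,
      setIntegral_prod_mul (fun a : ℝ => (Real.exp (-a) : ℂ) * ((a / m : ℝ) : ℂ) ^
        (T.filter (fun v => v.isLeft)).card) (fun a : ℝ => (Real.exp (-a) : ℂ) *
          ((a / m : ℝ) : ℂ) ^ (T.filter (fun v => v.isRight)).card),
      (Prm_int1 _).2, (Prm_int1 _).2]
    have hc : T.card = (T.filter (fun v => v.isLeft)).card +
        (T.filter (fun v => v.isRight)).card := by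
      rw [← Finset.card_filter_add_card_filter_not (s := T) (fun v => v.isLeft = true)]
      congr 2
      ext v
      rcases v with i | i <;> simp
    rw [hc, pow_add]
    ring

end main

end Pool.Agent.PCW
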