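import Pool.Agent.PCW.St

/-! PCW, module Psb (helper85): the row bound for `Psi`. -/

set_option autoImplicit false

namespace Pool.Agent.PCW

open Finset Filter MeasureTheory Matrix

private lemma Psb_diag {m : ℕ} (E : Matrix (Fin m) (Fin m) ℝ) (v : V m) : Bb E v v = 0 := by
  rcases v with i | i <;> simp [Bb]

private lemma Psb_entry {m : ℕ} (E : Matrix (Fin m) (Fin m) ℝ) (α β : ℝ) (x : V m → ℂ)
    (v w : V m) :
    LL E α β x v w = (if v = w then dv E α β x v else 0) - (Bb E v w : ℂ) * x w := by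
  unfold LL
  rw [Matrix.sub_apply, Matrix.diagonal_apply, Matrix.mul_diagonal, Matrix.map_apply]

private lemma Psb_row {m : ℕ} (E : Matrix (Fin m) (Fin m) ℝ) (α β : ℝ) (x : V m → ℂ) (v : V m) :
    √(∑ w, ‖LL E α β x v w‖ ^ 2) =
      √(‖dv E α β x v‖ ^ 2 + ∑ w, Bb E v w ^ 2 * ‖x w‖ ^ 2) := by
  congr 1
  have h : ∀ w, ‖LL E α β x v w‖ ^ 2 =
      (if v = w then ‖dv E α β x v‖ ^ 2 else 0) + Bb E v w ^ 2 * ‖x w‖ ^ 2 := by
    intro w
    rw [Psb_entry]
    by_cases hw : v = w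
    · subst hw
      rw [if_pos rfl, if_pos rfl, Psb_diag]
      simp
    · rw [if_neg hw, if_neg hw, zero_sub, zero_add, norm_neg, norm_mul, mul_pow,
        Complex.norm_real, Real.norm_eq_abs, sq_abs]
  rw [Finset.sum_congr rfl fun w _ => h w, Finset.sum_add_distrib, Finset.sum_ite_eq,
    if_pos (Finset.mem_univ v)]

theorem thm_Psb (h1 : St_Had) : St_Psb := by
  intro m E α β x
  obtain ⟨r, hr⟩ : ∃ r : V m → ℝ, r = fun v =>
      √(‖dv E α β x v‖ ^ 2 + ∑ w, Bb E v w ^ 2 * ‖x w‖ ^ 2) := ⟨_, rfl⟩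
  have hrow : ∀ v, √(∑ w, ‖LL E α β x v w‖ ^ 2) = r v := fun v => by
    rw [hr]
    exact Psb_row E α β x v
  have hr0 : ∀ v, 0 ≤ r v := fun v => by
    rw [hr]
    exact Real.sqrt_nonneg _
  have hdr : ∀ v, ‖dv E α β x v‖ ≤ r v := by
    intro v
    rw [hr]
    refine Real.le_sqrt_of_sq_le ?_
    have : 0 ≤ ∑ w, Bb E v w ^ 2 * ‖x w‖ ^ 2 :=
      Finset.sum_nonneg fun w _ => mul_nonneg (sq_nonneg _) (sq_nonneg _)
    linarith
  have hdet : ‖(LL E α β x).det‖ ≤ ∏ v, r v := by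
    have h := h1 (V m) (LL E α β x)
    rwa [Finset.prod_congr rfl fun v _ => hrow v] at h
  have hadj : ∀ v, ‖dv E α β x v * (LL E α β x).adjugate v v‖ ≤ ∏ v, r v := by
    intro v
    have h := h1 (V m) ((LL E α β x).updateRow v (Pi.single v 1))
    rw [← Finset.mul_prod_erase univ _ (Finset.mem_univ v)] at h
    have e1 : √(∑ j, ‖((LL E α β x).updateRow v (Pi.single v 1)) v j‖ ^ 2) = 1 := by
      rw [Finset.sum_eq_single v]
      · rw [Matrix.updateRow_self, Pi.single_eq_same]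
        simp
      · intro w _ hw
        rw [Matrix.updateRow_self, Pi.single_eq_of_ne hw]
        simp
      · intro h
        exact absurd (Finset.mem_univ v) h
    have e2 : ∏ u ∈ univ.erase v, √(∑ j, ‖((LL E α β x).updateRow v (Pi.single v 1)) u j‖ ^ 2) =
        ∏ u ∈ univ.erase v, r u := by
      refine Finset.prod_congr rfl fun u hu => ?_
      rw [← hrow u, Matrix.updateRow_ne (Finset.ne_of_mem_erase hu)]
    rw [e1, e2, one_mul] at h
    rw [norm_mul, Matrix.adjugate_apply, ← Finset.mul_prod_erase univ r (Finset.mem_univ v)]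
    exact mul_le_mul (hdr v) h (norm_nonneg _) (hr0 v)
  have htr : ‖(Matrix.diagonal (dv E α β x) * (LL E α β x).adjugate).trace‖ ≤
      2 * m * ∏ v, r v := by
    have e : (Matrix.diagonal (dv E α β x) * (LL E α β x).adjugate).trace =
        ∑ v, dv E α β x v * (LL E α β x).adjugate v v := by
      unfold Matrix.trace
      refine Finset.sum_congr rfl fun v _ => ?_
      rw [Matrix.diag_apply, Matrix.diagonal_mul]
    rw [e]
    refine (norm_sum_le _ _).trans ?_
    refine (Finset.sum_le_sum fun v _ => hadj v).trans ?_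
    rw [Finset.sum_const, nsmul_eq_mul, Finset.card_univ, Fintype.card_sum, Fintype.card_fin]
    push_cast
    apply le_of_eq
    ring
  have e3 : ∏ v, √(‖dv E α β x v‖ ^ 2 + ∑ w, Bb E v w ^ 2 * ‖x w‖ ^ 2) = ∏ v, r v := by
    rw [hr]
  rw [e3]
  have e4 : ‖2 * (m : ℂ) * (LL E α β x).det‖ ≤ 2 * m * ∏ v, r v := by
    rw [norm_mul]
    have e5 : ‖2 * (m : ℂ)‖ = 2 * m := by
      rw [norm_mul]
      simp
    rw [e5]
    exact mul_le_mul_of_nonneg_left hdet (by positivity)
  calc ‖Psi E α β x‖ ≤ ‖(Matrix.diagonal (dv E α β x) * (LL E α β x).adjugate).trace‖ +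
        ‖2 * (m : ℂ) * (LL E α β x).det‖ := norm_sub_le _ _
    _ ≤ 2 * m * ∏ v, r v + 2 * m * ∏ v, r v := add_le_add htr e4
    _ = 4 * m * ∏ v, r v := by ring

end Pool.Agent.PCW
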