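import Pool.Agent.PCW.St

set_option autoImplicit false

/-!
# PCW, module Psf: the one-variable function (helper18)
-/

namespace Pool.Agent.PCW

open Finset Filter MeasureTheory Matrix

private lemma Psf_cont : Continuous fun θ : ℝ => pt 2 θ := by
  unfold pt
  fun_prop

private lemma Psf_norm (θ : ℝ) : ‖pt 2 θ‖ = 2 := by
  unfold pt
  rw [norm_mul, Complex.norm_exp_ofReal_mul_I, mul_one]
  simp

private lemma Psf_mulconj (θ : ℝ) : pt 2 θ * (starRingEnd ℂ) (pt 2 θ) = 4 := by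
  rw [Complex.mul_conj, Complex.normSq_eq_norm_sq, Psf_norm]
  norm_num

private lemma Psf_mu2 : mu 2 = 1 := by
  unfold mu
  norm_num

private lemma Psf_int [IsProbabilityMeasure nu2] (F : ℂ → ℂ) (hF : Continuous F) (C : ℝ)
    (hC : ∀ θ, ‖F (pt 2 θ)‖ ≤ C) : Integrable (fun θ => F (pt 2 θ)) nu2 :=
  Integrable.of_bound ((hF.comp Psf_cont).aestronglyMeasurable) C (Eventually.of_forall hC)

/-- the exponent -/
private noncomputable def Psf_Z (w u : ℝ) (z : ℂ) : ℂ :=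
  w * (z.im : ℂ) + Complex.I * u * ((z.re : ℂ) - 1)

private lemma Psf_Zcont (w u : ℝ) : Continuous (Psf_Z w u) := by
  unfold Psf_Z
  fun_prop

private lemma Psf_Zre (w u : ℝ) (z : ℂ) : (Psf_Z w u z).re = w * z.im := by
  unfold Psf_Z
  simp

private lemma Psf_first (h1 : St_Law) (h2 : St_Bes) (w u : ℝ) :
    ‖∫ θ, Complex.exp (Psf_Z w u (pt 2 θ)) ∂nu2‖ ≤ Real.exp (w ^ 2) := by
  obtain ⟨-, -, -, -, h5, -⟩ := h1
  have hc : Continuous fun z => Complex.exp (Psf_Z w u z) :=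
    Complex.continuous_exp.comp (Psf_Zcont w u)
  rw [h5 _ hc]
  refine (norm_integral_le_integral_norm _).trans ?_
  have h3 := h2 2 (Complex.I * w) (by norm_num)
  have e1 : ∀ θ : ℝ, ‖Complex.exp (Psf_Z w u (pt 2 θ)) * cw 2 θ‖ =
      Real.exp ((starRingEnd ℂ (Complex.I * w) * pt 2 θ).re) * ‖cw 2 θ‖ := by
    intro θ
    rw [norm_mul, Complex.norm_exp, Psf_Zre]
    congr 2
    simp
  have e2 : mu 2 * Real.exp (2 ^ 2 * ‖Complex.I * (w : ℂ)‖ ^ 2 / 4 +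
      2 * (Complex.I * (w : ℂ)).re / (2 * mu 2)) = Real.exp (w ^ 2) := by
    rw [Psf_mu2, norm_mul, Complex.norm_I, Complex.norm_real, Real.norm_eq_abs, one_mul, one_mul,
      sq_abs]
    congr 1
    simp
    ring
  rw [← e2]
  refine le_trans (le_of_eq ?_) h3
  exact integral_congr_ae (Eventually.of_forall e1)

private lemma Psf_mom (h1 : St_Law) (c0 c1 c2 c3 c4 : ℂ) :
    ∫ θ, (c0 + c1 * pt 2 θ + c2 * (starRingEnd ℂ) (pt 2 θ) + c3 * pt 2 θ ^ 2 +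
      c4 * (starRingEnd ℂ) (pt 2 θ) ^ 2) ∂nu2 = c0 + c1 + c2 := by
  obtain ⟨-, hp, -, h4, h5, -⟩ := h1
  have := hp
  have hid : Continuous fun z : ℂ => z := continuous_id
  have hsq : Continuous fun z : ℂ => z ^ 2 := continuous_pow 2
  have hcj : Continuous fun z : ℂ => (starRingEnd ℂ) z := Complex.continuous_conj
  have hcs : Continuous fun z : ℂ => (starRingEnd ℂ) z ^ 2 := hcj.pow 2
  have m1 : ∫ θ, pt 2 θ ∂nu2 = 1 := by
    rw [h5 (fun z => z) hid]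
    have := h4 2 1 (by norm_num)
    simpa using this
  have m2 : ∫ θ, pt 2 θ ^ 2 ∂nu2 = 0 := by
    rw [h5 (fun z => z ^ 2) hsq]
    have := h4 2 2 (by norm_num)
    simpa using this
  have m1' : ∫ θ, (starRingEnd ℂ) (pt 2 θ) ∂nu2 = 1 := by
    rw [integral_conj, m1, map_one]
  have m2' : ∫ θ, (starRingEnd ℂ) (pt 2 θ) ^ 2 ∂nu2 = 0 := by
    have : (fun θ : ℝ => (starRingEnd ℂ) (pt 2 θ) ^ 2) =
        fun θ : ℝ => (starRingEnd ℂ) (pt 2 θ ^ 2) := by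
      funext θ
      rw [map_pow]
    rw [this, integral_conj, m2, map_zero]
  have i1 : Integrable (fun θ => pt 2 θ) nu2 :=
    Psf_int (fun z => z) hid 2 fun θ => (Psf_norm θ).le
  have i2 : Integrable (fun θ => pt 2 θ ^ 2) nu2 :=
    Psf_int (fun z => z ^ 2) hsq 4 fun θ => by rw [norm_pow, Psf_norm]; norm_num
  have i1' : Integrable (fun θ => (starRingEnd ℂ) (pt 2 θ)) nu2 :=
    Psf_int (fun z => (starRingEnd ℂ) z) hcj 2 fun θ => by
      rw [RCLike.norm_conj, Psf_norm]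
  have i2' : Integrable (fun θ => (starRingEnd ℂ) (pt 2 θ) ^ 2) nu2 :=
    Psf_int (fun z => (starRingEnd ℂ) z ^ 2) hcs 4 fun θ => by
      rw [norm_pow, RCLike.norm_conj, Psf_norm]; norm_num
  have i0 : Integrable (fun _ : ℝ => c0) nu2 := integrable_const _
  have j1 : Integrable (fun θ => c0 + c1 * pt 2 θ) nu2 := i0.add (i1.const_mul c1)
  have j2 : Integrable (fun θ => c0 + c1 * pt 2 θ + c2 * (starRingEnd ℂ) (pt 2 θ)) nu2 :=
    j1.add (i1'.const_mul c2)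
  have j3 : Integrable (fun θ => c0 + c1 * pt 2 θ + c2 * (starRingEnd ℂ) (pt 2 θ) +
      c3 * pt 2 θ ^ 2) nu2 := j2.add (i2.const_mul c3)
  rw [integral_add j3 (i2'.const_mul c4), integral_add j2 (i2.const_mul c3),
    integral_add j1 (i1'.const_mul c2), integral_add i0 (i1.const_mul c1)]
  simp only [integral_const_mul, m1, m2, m1', m2']
  simp

private lemma Psf_Zalg (w u : ℝ) (z : ℂ) (hz : z * (starRingEnd ℂ) z = 4) :
    1 + Psf_Z w u z + Psf_Z w u z ^ 2 / 2 =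
      (1 - Complex.I * u + ((Complex.I * u) ^ 2 + 8 * ((Complex.I * u / 2) ^ 2 - (-(Complex.I * w / 2)) ^ 2)) / 2) +
      ((-(Complex.I * w / 2) + Complex.I * u / 2) -
        Complex.I * u * (-(Complex.I * w / 2) + Complex.I * u / 2)) * z +
      ((Complex.I * w / 2 + Complex.I * u / 2) -
        Complex.I * u * (Complex.I * w / 2 + Complex.I * u / 2)) * (starRingEnd ℂ) z +
      ((-(Complex.I * w / 2) + Complex.I * u / 2) ^ 2 / 2) * z ^ 2 +
      ((Complex.I * w / 2 + Complex.I * u / 2) ^ 2 / 2) * (starRingEnd ℂ) z ^ 2 := by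
  have hI : Complex.I ^ 2 = -1 := Complex.I_sq
  have him : (z.im : ℂ) = -(Complex.I / 2) * (z - (starRingEnd ℂ) z) := by
    rw [Complex.im_eq_sub_conj]
    have : (2 * Complex.I) ≠ 0 := by simp
    field_simp
    rw [hI]
    ring
  have hre : (z.re : ℂ) = (z + (starRingEnd ℂ) z) / 2 := Complex.re_eq_add_conj z
  unfold Psf_Z
  rw [him, hre]
  set y := (starRingEnd ℂ) z with hy
  linear_combination ((-(Complex.I * w / 2) + Complex.I * u / 2) *
    (Complex.I * w / 2 + Complex.I * u / 2)) * hz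

private lemma Psf_gint (h1 : St_Law) (w u : ℝ) :
    ∫ θ, (1 + Psf_Z w u (pt 2 θ) + Psf_Z w u (pt 2 θ) ^ 2 / 2) ∂nu2 =
      ((1 + w ^ 2 - u ^ 2 / 2 : ℝ) : ℂ) := by
  have hI : Complex.I ^ 2 = -1 := Complex.I_sq
  rw [integral_congr_ae (Eventually.of_forall fun θ => Psf_Zalg w u (pt 2 θ) (Psf_mulconj θ)),
    Psf_mom h1]
  push_cast
  linear_combination (-(w : ℂ) ^ 2 + (u : ℂ) ^ 2 / 2) * hI

theorem thm_Psf (h1 : St_Law) (h2 : St_Bes) : St_Psf := by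
  refine ⟨fun w u => Psf_first h1 h2 w u, ?_⟩
  intro w u δ hδ hw hu
  have hδ0 : 0 ≤ δ := (abs_nonneg w).trans hw
  have hgi := Psf_gint h1 w u
  obtain ⟨-, hp, -, -, -, -⟩ := h1
  have := hp
  show ‖∫ θ, Complex.exp (Psf_Z w u (pt 2 θ)) ∂nu2‖ ≤ _
  have hZ : ∀ θ, ‖Psf_Z w u (pt 2 θ)‖ ≤ 5 * δ := by
    intro θ
    unfold Psf_Z
    have hi : |(pt 2 θ).im| ≤ 2 := (Complex.abs_im_le_norm _).trans (Psf_norm θ).le
    have hr : |(pt 2 θ).re| ≤ 2 := (Complex.abs_re_le_norm _).trans (Psf_norm θ).le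
    have a1 : ‖(w : ℂ) * ((pt 2 θ).im : ℂ)‖ ≤ δ * 2 := by
      rw [norm_mul, Complex.norm_real, Complex.norm_real, Real.norm_eq_abs, Real.norm_eq_abs]
      exact mul_le_mul hw hi (abs_nonneg _) hδ0
    have a2 : ‖Complex.I * (u : ℂ) * (((pt 2 θ).re : ℂ) - 1)‖ ≤ δ * 3 := by
      rw [norm_mul, norm_mul, Complex.norm_I, one_mul, Complex.norm_real, Real.norm_eq_abs]
      refine mul_le_mul hu ?_ (norm_nonneg _) hδ0
      have : (((pt 2 θ).re : ℂ) - 1) = (((pt 2 θ).re - 1 : ℝ) : ℂ) := by push_cast; ring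
      rw [this, Complex.norm_real, Real.norm_eq_abs]
      rw [abs_le] at hr ⊢
      constructor <;> linarith [hr.1, hr.2]
    calc ‖(w : ℂ) * ((pt 2 θ).im : ℂ) + Complex.I * (u : ℂ) * (((pt 2 θ).re : ℂ) - 1)‖
        ≤ ‖(w : ℂ) * ((pt 2 θ).im : ℂ)‖ + ‖Complex.I * (u : ℂ) * (((pt 2 θ).re : ℂ) - 1)‖ :=
          norm_add_le _ _
      _ ≤ δ * 2 + δ * 3 := add_le_add a1 a2
      _ = 5 * δ := by ring
  have hZc := Psf_Zcont w u
  have hint1 : Integrable (fun θ => Complex.exp (Psf_Z w u (pt 2 θ))) nu2 := by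
    refine Psf_int (fun z => Complex.exp (Psf_Z w u z)) (Complex.continuous_exp.comp hZc)
      (Real.exp (5 * δ)) fun θ => ?_
    rw [Complex.norm_exp]
    exact Real.exp_le_exp.2 ((Complex.re_le_norm _).trans (hZ θ))
  have hint2 : Integrable (fun θ => 1 + Psf_Z w u (pt 2 θ) + Psf_Z w u (pt 2 θ) ^ 2 / 2) nu2 := by
    refine Psf_int (fun z => 1 + Psf_Z w u z + Psf_Z w u z ^ 2 / 2)
      ((continuous_const.add hZc).add ((hZc.pow 2).div_const 2))
      (1 + 5 * δ + (5 * δ) ^ 2 / 2) fun θ => ?_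
    refine (norm_add_le _ _).trans (add_le_add ((norm_add_le _ _).trans (add_le_add ?_ (hZ θ))) ?_)
    · simp
    · rw [norm_div, norm_pow]
      have : ‖(2 : ℂ)‖ = 2 := by simp
      rw [this]
      exact div_le_div_of_nonneg_right (pow_le_pow_left₀ (norm_nonneg _) (hZ θ) 2) (by norm_num)
  have hsplit : ∫ θ, Complex.exp (Psf_Z w u (pt 2 θ)) ∂nu2 =
      ((1 + w ^ 2 - u ^ 2 / 2 : ℝ) : ℂ) + ∫ θ, (Complex.exp (Psf_Z w u (pt 2 θ)) -
        (1 + Psf_Z w u (pt 2 θ) + Psf_Z w u (pt 2 θ) ^ 2 / 2)) ∂nu2 := by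
    rw [integral_sub hint1 hint2, hgi]
    ring
  have herr : ‖∫ θ, (Complex.exp (Psf_Z w u (pt 2 θ)) -
        (1 + Psf_Z w u (pt 2 θ) + Psf_Z w u (pt 2 θ) ^ 2 / 2)) ∂nu2‖ ≤ 125 * δ ^ 3 := by
    have hb : ∀ θ, ‖Complex.exp (Psf_Z w u (pt 2 θ)) -
        (1 + Psf_Z w u (pt 2 θ) + Psf_Z w u (pt 2 θ) ^ 2 / 2)‖ ≤ 125 * δ ^ 3 := by
      intro θ
      set Z := Psf_Z w u (pt 2 θ) with hZd
      have hZ1 : ‖Z‖ ≤ 1 := (hZ θ).trans (by linarith)
      have h3 := Complex.exp_bound hZ1 (n := 3) (by norm_num)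
      have h4 : ∑ m ∈ Finset.range 3, Z ^ m / (m.factorial : ℂ) = 1 + Z + Z ^ 2 / 2 := by
        simp [Finset.sum_range_succ, Nat.factorial]
      rw [h4] at h3
      refine h3.trans ?_
      have h5 : ‖Z‖ ^ 3 ≤ (5 * δ) ^ 3 := pow_le_pow_left₀ (norm_nonneg _) (hZ θ) 3
      have h6 : ((Nat.succ 3 : ℕ) : ℝ) * ((Nat.factorial 3 : ℕ) * (3 : ℕ) : ℝ)⁻¹ ≤ 1 := by
        norm_num [Nat.factorial]
      calc ‖Z‖ ^ 3 * (((Nat.succ 3 : ℕ) : ℝ) * ((Nat.factorial 3 : ℕ) * (3 : ℕ) : ℝ)⁻¹)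
          ≤ ‖Z‖ ^ 3 * 1 := mul_le_mul_of_nonneg_left h6 (by positivity)
        _ ≤ (5 * δ) ^ 3 := by rw [mul_one]; exact h5
        _ = 125 * δ ^ 3 := by ring
    have h7 := norm_integral_le_of_norm_le_const (μ := nu2) (Eventually.of_forall hb)
    simpa using h7
  rw [hsplit]
  refine (norm_add_le _ _).trans ?_
  have hpos : 0 ≤ 1 + w ^ 2 - u ^ 2 / 2 := by
    have : u ^ 2 ≤ 1 := by
      have h8 : |u| ≤ 1 := hu.trans (by linarith)
      exact (sq_le_one_iff_abs_le_one u).2 h8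
    nlinarith [sq_nonneg w]
  rw [Complex.norm_real, Real.norm_eq_abs, abs_of_nonneg hpos]
  have h9 := Real.add_one_le_exp (w ^ 2 - u ^ 2 / 2 + 125 * δ ^ 3)
  linarith

end Pool.Agent.PCW
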