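import Pool.Agent.PCW.St

set_option autoImplicit false

/-!
# PCW, module Psx: expansion of `Ψ` over permutations
-/

namespace Pool.Agent.PCW

open Finset Filter MeasureTheory Matrix

private theorem Psx_Bb0 {m : ℕ} (E : Matrix (Fin m) (Fin m) ℝ) (v : V m) : Bb E v v = 0 := by
  rcases v with i | i
  · simp [Bb]
  · simp [Bb]

private theorem Psx_LL {m : ℕ} (E : Matrix (Fin m) (Fin m) ℝ) (α β : ℝ) (x : V m → ℂ)
    (i j : V m) :
    LL E α β x i j = (if i = j then dv E α β x i else 0) - (Bb E i j : ℂ) * x j := by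
  unfold LL
  rw [Matrix.sub_apply, Matrix.mul_diagonal, Matrix.map_apply, Matrix.diagonal_apply]

private theorem Psx_prod {n : Type} [Fintype n] [DecidableEq n] (L : Matrix n n ℂ) (d : n → ℂ)
    (h : ∀ v, L v v = d v) (v : n) (π : Equiv.Perm n) :
    ∏ u, (L.updateRow v (d v • Pi.single v (1 : ℂ))) (π u) u =
      if π v = v then ∏ u, L (π u) u else 0 := by
  by_cases hv : π v = v
  · rw [if_pos hv]
    refine Finset.prod_congr rfl fun u _ => ?_
    by_cases hu : π u = v
    · have h1 : u = v := π.injective (hu.trans hv.symm)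
      subst h1
      rw [hu, Matrix.updateRow_self, Pi.smul_apply, Pi.single_eq_same, smul_eq_mul, mul_one, h u]
    · rw [Matrix.updateRow_ne hu]
  · rw [if_neg hv]
    refine Finset.prod_eq_zero (Finset.mem_univ (π⁻¹ v)) ?_
    have h1 : π (π⁻¹ v) = v := π.apply_symm_apply v
    have h2 : π⁻¹ v ≠ v := by
      intro h3
      apply hv
      rw [h3] at h1
      exact h1
    rw [h1, Matrix.updateRow_self, Pi.smul_apply, Pi.single_eq_of_ne h2, smul_zero]

private theorem Psx_tr {n : Type} [Fintype n] [DecidableEq n] (L : Matrix n n ℂ) (d : n → ℂ)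
    (h : ∀ v, L v v = d v) :
    (Matrix.diagonal d * L.adjugate).trace = ∑ π : Equiv.Perm n,
      ((Equiv.Perm.sign π : ℤ) : ℂ) * ((Fintype.card n : ℂ) - π.support.card) *
        ∏ u, L (π u) u := by
  have h1 : ∀ v, (Matrix.diagonal d * L.adjugate) v v = ∑ π : Equiv.Perm n,
      ((Equiv.Perm.sign π : ℤ) : ℂ) * (if π v = v then ∏ u, L (π u) u else 0) := by
    intro v
    rw [Matrix.diagonal_mul, Matrix.adjugate_apply, ← Matrix.det_updateRow_smul,
      Matrix.det_apply']
    exact Finset.sum_congr rfl fun π _ => by rw [Psx_prod L d h v π]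
  unfold Matrix.trace
  simp only [Matrix.diag_apply, h1]
  rw [Finset.sum_comm]
  refine Finset.sum_congr rfl fun π _ => ?_
  rw [← Finset.mul_sum, mul_assoc]
  congr 1
  rw [← Finset.sum_filter, Finset.sum_const, nsmul_eq_mul]
  congr 1
  have h2 : (Finset.univ.filter fun v => π v = v) = π.supportᶜ := by
    ext v
    rw [Finset.mem_filter, Finset.mem_compl, Equiv.Perm.mem_support, not_not]
    exact ⟨fun h => h.2, fun h => ⟨Finset.mem_univ _, h⟩⟩
  rw [h2, Finset.card_compl, Nat.cast_sub (Finset.card_le_univ _)]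

theorem thm_Psx : St_Psx := by
  intro m E α β x
  have hd : ∀ v, LL E α β x v v = dv E α β x v := by
    intro v
    rw [Psx_LL, if_pos rfl, Psx_Bb0, Complex.ofReal_zero, zero_mul, sub_zero]
  have hcard : ((Fintype.card (V m) : ℕ) : ℂ) = 2 * m := by
    rw [Fintype.card_sum, Fintype.card_fin]
    push_cast
    ring
  have hprod : ∀ π : Equiv.Perm (V m), ∏ u, LL E α β x (π u) u =
      (-1) ^ π.support.card * (∏ v ∈ π.support, (Bb E (π v) v : ℂ)) *
        ((∏ v ∈ π.support, x v) * ∏ v ∈ π.supportᶜ, dv E α β x v) := by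
    intro π
    rw [← Finset.prod_mul_prod_compl π.support]
    have h1 : ∏ u ∈ π.support, LL E α β x (π u) u =
        (-1) ^ π.support.card * (∏ v ∈ π.support, (Bb E (π v) v : ℂ)) *
          ∏ v ∈ π.support, x v := by
      rw [← Finset.prod_const, ← Finset.prod_mul_distrib, ← Finset.prod_mul_distrib]
      refine Finset.prod_congr rfl fun u hu => ?_
      rw [Psx_LL, if_neg (Equiv.Perm.mem_support.1 hu)]
      ring
    have h2 : ∏ u ∈ π.supportᶜ, LL E α β x (π u) u = ∏ v ∈ π.supportᶜ, dv E α β x v := by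
      refine Finset.prod_congr rfl fun u hu => ?_
      rw [Finset.mem_compl, Equiv.Perm.mem_support, not_not] at hu
      rw [hu, hd]
    rw [h1, h2]
    ring
  unfold Psi
  rw [Psx_tr (LL E α β x) (dv E α β x) hd, hcard, Matrix.det_apply', Finset.mul_sum,
    ← Finset.sum_sub_distrib, ← Finset.sum_neg_distrib]
  refine Finset.sum_congr rfl fun π _ => ?_
  rw [hprod π]
  ring

end Pool.Agent.PCW
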