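import Pool.Agent.PCW.St

set_option autoImplicit false

namespace Pool.Agent.PCW

open Finset Filter MeasureTheory Matrix

private lemma Qfm_cmgf (z : ℂ) :
    ∫ g : ℝ, Complex.exp (z * g) ∂(ProbabilityTheory.gaussianReal 0 1) = Complex.exp (z ^ 2 / 2) := by
  have h := ProbabilityTheory.complexMGF_id_gaussianReal (μ := 0) (v := 1) z
  simp only [ProbabilityTheory.complexMGF, id_eq] at h
  rw [h]
  congr 1
  push_cast
  ring

/-- the mean of a product of exponentials of independent Gaussian variables -/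
private lemma Qfm_prod {m : ℕ} (z : Fin m → ℂ) :
    ∫ g : Fin m → ℝ, Complex.exp (∑ a, z a * g a)
      ∂(Measure.pi fun _ => ProbabilityTheory.gaussianReal 0 1) =
      Complex.exp (∑ a, z a ^ 2 / 2) := by
  have h1 : ∀ g : Fin m → ℝ, Complex.exp (∑ a, z a * g a) = ∏ a, Complex.exp (z a * g a) :=
    fun g => Complex.exp_sum _ _
  simp_rw [h1]
  rw [integral_fintype_prod_eq_prod (f := fun a (g : ℝ) => Complex.exp (z a * g))]
  rw [Complex.exp_sum]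
  exact Finset.prod_congr rfl fun a _ => Qfm_cmgf (z a)

/-- the linear combinations of the Gaussian variables -/
private noncomputable def Qfm_w {m : ℕ} (t : ℝ) (e : Fin m → Fin m → ℝ) (l : Fin m → ℝ)
    (g : Fin m → ℝ) (j : Fin m) : ℝ := t * ∑ a, l a * g a * e a j

private lemma Qfm_w_cont {m : ℕ} (t : ℝ) (e : Fin m → Fin m → ℝ) (l : Fin m → ℝ) (j : Fin m) :
    Continuous fun g : Fin m → ℝ => Qfm_w t e l g j := by
  unfold Qfm_w
  fun_prop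

/-- the kernel -/
private noncomputable def Qfm_K (w u θ : ℝ) : ℂ :=
  Complex.exp (w * (pt 2 θ).im + Complex.I * u * ((pt 2 θ).re - 1))

private lemma Qfm_pt_cont : Continuous (pt 2) := by
  unfold pt
  fun_prop

private lemma Qfm_pt_norm (θ : ℝ) : ‖pt 2 θ‖ = 2 := by
  unfold pt
  rw [norm_mul, Complex.norm_exp_ofReal_mul_I]
  simp

private lemma Qfm_K_cont : Continuous fun p : ℝ × ℝ × ℝ => Qfm_K p.1 p.2.1 p.2.2 := by
  unfold Qfm_K
  have h := Qfm_pt_cont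
  fun_prop

private lemma Qfm_K_norm (w u θ : ℝ) : ‖Qfm_K w u θ‖ ≤ Real.exp (w ^ 2 + 1) := by
  unfold Qfm_K
  rw [Complex.norm_exp]
  apply Real.exp_le_exp.2
  have h1 : ((w : ℂ) * (pt 2 θ).im + Complex.I * u * ((pt 2 θ).re - 1)).re = w * (pt 2 θ).im := by
    simp
  rw [h1]
  have h2 : |(pt 2 θ).im| ≤ 2 := (Complex.abs_im_le_norm _).trans (Qfm_pt_norm θ).le
  have h3 := abs_le.1 h2
  nlinarith [sq_nonneg (w - 1), sq_nonneg (w + 1), abs_nonneg w, sq_abs w,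
    mul_le_mul_of_nonneg_left h2 (abs_nonneg w), le_abs_self (w * (pt 2 θ).im),
    abs_mul w (pt 2 θ).im, sq_nonneg (|w| - 1)]

/-- the joint kernel -/
private noncomputable def Qfm_Phi {m : ℕ} (t : ℝ) (e : Fin m → Fin m → ℝ) (l : Fin m → ℝ)
    (θ : Fin m → ℝ) (p : (Fin m → ℝ) × (Fin m → ℝ)) : ℂ :=
  ∏ j, Qfm_K (Qfm_w t e l p.1 j) (Qfm_w t e l p.2 j) (θ j)

private lemma Qfm_Phi_cont {m : ℕ} (t : ℝ) (e : Fin m → Fin m → ℝ) (l : Fin m → ℝ) :
    Continuous (Function.uncurry (Qfm_Phi t e l)) := by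
  unfold Qfm_Phi Function.uncurry
  refine continuous_finsetProd _ fun j _ => ?_
  have h1 : Continuous fun a : (Fin m → ℝ) × (Fin m → ℝ) × (Fin m → ℝ) =>
      (Qfm_w t e l a.2.1 j, Qfm_w t e l a.2.2 j, a.1 j) := by
    refine Continuous.prodMk ?_ (Continuous.prodMk ?_ ?_)
    · exact (Qfm_w_cont t e l j).comp (continuous_fst.comp continuous_snd)
    · exact (Qfm_w_cont t e l j).comp (continuous_snd.comp continuous_snd)
    · exact (continuous_apply j).comp continuous_fst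
  exact Qfm_K_cont.comp h1

private lemma Qfm_Phi_norm {m : ℕ} (t : ℝ) (e : Fin m → Fin m → ℝ) (l : Fin m → ℝ)
    (θ : Fin m → ℝ) (p : (Fin m → ℝ) × (Fin m → ℝ)) :
    ‖Qfm_Phi t e l θ p‖ ≤ Real.exp m * Real.exp (1 * ∑ j, (Qfm_w t e l p.1 j) ^ 2) := by
  unfold Qfm_Phi
  rw [norm_prod, one_mul, ← Real.exp_add]
  have h1 : (m : ℝ) + ∑ j, (Qfm_w t e l p.1 j) ^ 2 = ∑ j, ((Qfm_w t e l p.1 j) ^ 2 + 1) := by
    rw [Finset.sum_add_distrib]
    simp [add_comm]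
  rw [h1, Real.exp_sum]
  exact Finset.prod_le_prod (fun _ _ => norm_nonneg _) fun j _ => Qfm_K_norm _ _ _

/-- integrating out the angles -/
private lemma Qfm_inner (hp : IsProbabilityMeasure nu2) {m : ℕ} (t : ℝ) (e : Fin m → Fin m → ℝ)
    (l : Fin m → ℝ) (p : (Fin m → ℝ) × (Fin m → ℝ)) :
    ∫ θ, Qfm_Phi t e l θ p ∂(PP (Fin m)) =
      ∏ j, ∫ θ, Qfm_K (Qfm_w t e l p.1 j) (Qfm_w t e l p.2 j) θ ∂nu2 := by
  unfold Qfm_Phi PP
  exact integral_fintype_prod_eq_prod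
    (f := fun j (θ : ℝ) => Qfm_K (Qfm_w t e l p.1 j) (Qfm_w t e l p.2 j) θ)

/-- integrating out the Gaussian variables -/
private lemma Qfm_outer {m : ℕ} (t : ℝ) (e : Fin m → Fin m → ℝ)
    (l : Fin m → ℝ) (θ : Fin m → ℝ) :
    ∫ p, Qfm_Phi t e l θ p ∂((Measure.pi fun _ : Fin m => ProbabilityTheory.gaussianReal 0 1).prod
      (Measure.pi fun _ : Fin m => ProbabilityTheory.gaussianReal 0 1)) =
      ((Real.exp (t ^ 2 / 2 * (∑ a, l a ^ 2 * (∑ j, e a j * (pt 2 (θ j)).im) ^ 2 -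
        ∑ a, l a ^ 2 * (∑ j, e a j * ((pt 2 (θ j)).re - 1)) ^ 2)) : ℝ) : ℂ) := by
  have h1 : ∀ p : (Fin m → ℝ) × (Fin m → ℝ), Qfm_Phi t e l θ p =
      Complex.exp (∑ a, ((t * l a * ∑ j, e a j * (pt 2 (θ j)).im : ℝ) : ℂ) * p.1 a) *
      Complex.exp (∑ a, (Complex.I * ((t * l a * ∑ j, e a j * ((pt 2 (θ j)).re - 1) : ℝ) : ℂ)) *
        p.2 a) := by
    intro p
    unfold Qfm_Phi Qfm_K Qfm_w
    rw [← Complex.exp_sum, ← Complex.exp_add, Finset.sum_add_distrib]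
    congr 2
    · push_cast
      simp only [Finset.mul_sum, Finset.sum_mul]
      rw [Finset.sum_comm]
      refine Finset.sum_congr rfl fun a _ => Finset.sum_congr rfl fun j _ => ?_
      ring
    · push_cast
      simp only [Finset.mul_sum, Finset.sum_mul]
      rw [Finset.sum_comm]
      refine Finset.sum_congr rfl fun a _ => Finset.sum_congr rfl fun j _ => ?_
      ring
  simp_rw [h1]
  rw [integral_prod_mul (f := fun g : Fin m → ℝ =>
      Complex.exp (∑ a, ((t * l a * ∑ j, e a j * (pt 2 (θ j)).im : ℝ) : ℂ) * g a))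
    (g := fun g : Fin m → ℝ =>
      Complex.exp (∑ a, (Complex.I * ((t * l a * ∑ j, e a j * ((pt 2 (θ j)).re - 1) : ℝ) : ℂ)) *
        g a))]
  rw [Qfm_prod, Qfm_prod, ← Complex.exp_add, Complex.ofReal_exp]
  congr 1
  push_cast
  rw [mul_sub, Finset.mul_sum, Finset.mul_sum, sub_eq_add_neg, ← Finset.sum_neg_distrib]
  congr 1
  · refine Finset.sum_congr rfl fun a _ => ?_
    ring
  · refine Finset.sum_congr rfl fun a _ => ?_
    have hI : Complex.I ^ 2 = -1 := Complex.I_sq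
    linear_combination ((t : ℂ) * l a * ∑ j, (e a j : ℂ) * ((pt 2 (θ j)).re - 1)) ^ 2 / 2 * hI

private lemma Qfm_young (S ε : ℝ) (hε : 0 < ε) :
    Real.exp S ≤ ε * Real.exp (1.5 * S) + (ε ^ 2)⁻¹ := by
  have h1 : Real.exp S = Real.exp (S / 2) ^ 2 := by
    rw [← Real.exp_nat_mul]
    congr 1
    push_cast
    ring
  have h2 : Real.exp (1.5 * S) = Real.exp (S / 2) ^ 3 := by
    rw [← Real.exp_nat_mul]
    congr 1
    push_cast
    ring
  rw [h1, h2]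
  have h3 : 0 < Real.exp (S / 2) := Real.exp_pos _
  set s := Real.exp (S / 2)
  have h4 : 0 < (ε ^ 2)⁻¹ := by positivity
  by_cases h : 1 ≤ ε * s
  · have h5 : s ^ 2 ≤ ε * s * s ^ 2 := le_mul_of_one_le_left (by positivity) h
    have h6 : ε * s * s ^ 2 = ε * s ^ 3 := by ring
    linarith
  · push Not at h
    have h5 : s ^ 2 * ε ^ 2 ≤ 1 := by
      have : s ^ 2 * ε ^ 2 = (ε * s) ^ 2 := by ring
      rw [this]
      exact pow_le_one₀ (by positivity) h.le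
    have h6 : s ^ 2 ≤ (ε ^ 2)⁻¹ := by
      rw [← one_div, le_div_iff₀ (by positivity)]
      exact h5
    have h7 : 0 ≤ ε * s ^ 3 := by positivity
    linarith

/-- the bad event -/
private def Qfm_bad {m : ℕ} (t : ℝ) (e : Fin m → Fin m → ℝ) (l : Fin m → ℝ) (δ : ℝ) :
    Set (Fin m → ℝ) := {g | ¬ ∀ j, |Qfm_w t e l g j| ≤ δ}

private lemma Qfm_bad_meas {m : ℕ} (t : ℝ) (e : Fin m → Fin m → ℝ) (l : Fin m → ℝ) (δ : ℝ) :
    MeasurableSet (Qfm_bad t e l δ) := by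
  unfold Qfm_bad
  apply MeasurableSet.compl
  have h : {g : Fin m → ℝ | ∀ j, |Qfm_w t e l g j| ≤ δ} = ⋂ j, {g | |Qfm_w t e l g j| ≤ δ} := by
    ext g
    simp
  change MeasurableSet {g : Fin m → ℝ | ∀ j, |Qfm_w t e l g j| ≤ δ}
  rw [h]
  exact MeasurableSet.iInter fun j =>
    (isClosed_le (Qfm_w_cont t e l j).abs continuous_const).measurableSet

/-- the pointwise bound -/
private lemma Qfm_point (h4 : St_Psf) {m : ℕ} (t : ℝ) (e : Fin m → Fin m → ℝ)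
    (l : Fin m → ℝ) (δ : ℝ) (hδ : δ ≤ 1 / 10) (hexp : Real.exp (125 * m * δ ^ 3) ≤ 2)
    (ε : ℝ) (hε : 0 < ε) (p : (Fin m → ℝ) × (Fin m → ℝ)) :
    ‖∏ j, ∫ θ, Qfm_K (Qfm_w t e l p.1 j) (Qfm_w t e l p.2 j) θ ∂nu2‖ ≤
      2 * Real.exp (1 * ∑ j, (Qfm_w t e l p.1 j) ^ 2) *
        Real.exp (-(1 / 2) * ∑ j, (Qfm_w t e l p.2 j) ^ 2) +
      (ε * Real.exp (1.5 * ∑ j, (Qfm_w t e l p.1 j) ^ 2) +
        (ε ^ 2)⁻¹ * (Qfm_bad t e l δ).indicator (fun _ => (1 : ℝ)) p.1) * 1 +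
      Real.exp (1 * ∑ j, (Qfm_w t e l p.1 j) ^ 2) *
        (Qfm_bad t e l δ).indicator (fun _ => (1 : ℝ)) p.2 := by
  have hi : ∀ g : Fin m → ℝ, 0 ≤ (Qfm_bad t e l δ).indicator (fun _ => (1 : ℝ)) g :=
    fun g => Set.indicator_nonneg (fun _ _ => zero_le_one) g
  have hε2 : 0 < (ε ^ 2)⁻¹ := by positivity
  have hX0 := Real.exp_pos (1 * ∑ j, (Qfm_w t e l p.1 j) ^ 2)
  have hY0 := Real.exp_pos (-(1 / 2) * ∑ j, (Qfm_w t e l p.2 j) ^ 2)
  have hZ0 := Real.exp_pos (1.5 * ∑ j, (Qfm_w t e l p.1 j) ^ 2)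
  have hA : 0 ≤ 2 * Real.exp (1 * ∑ j, (Qfm_w t e l p.1 j) ^ 2) *
        Real.exp (-(1 / 2) * ∑ j, (Qfm_w t e l p.2 j) ^ 2) := by positivity
  have hB : 0 ≤ ε * Real.exp (1.5 * ∑ j, (Qfm_w t e l p.1 j) ^ 2) := by positivity
  have hB' : 0 ≤ (ε ^ 2)⁻¹ * (Qfm_bad t e l δ).indicator (fun _ => (1 : ℝ)) p.1 :=
    mul_nonneg hε2.le (hi _)
  have hC : 0 ≤ Real.exp (1 * ∑ j, (Qfm_w t e l p.1 j) ^ 2) *
        (Qfm_bad t e l δ).indicator (fun _ => (1 : ℝ)) p.2 := mul_nonneg hX0.le (hi _)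
  have hgen : ‖∏ j, ∫ θ, Qfm_K (Qfm_w t e l p.1 j) (Qfm_w t e l p.2 j) θ ∂nu2‖ ≤
      Real.exp (1 * ∑ j, (Qfm_w t e l p.1 j) ^ 2) := by
    rw [norm_prod, one_mul, Real.exp_sum]
    exact Finset.prod_le_prod (fun _ _ => norm_nonneg _) fun j _ => h4.1 _ _
  by_cases hp1 : p.1 ∈ Qfm_bad t e l δ
  · have h5 := Qfm_young (∑ j, (Qfm_w t e l p.1 j) ^ 2) ε hε
    rw [one_mul] at hgen
    have h6 : (Qfm_bad t e l δ).indicator (fun _ => (1 : ℝ)) p.1 = 1 :=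
      Set.indicator_of_mem hp1 _
    rw [h6] at hB' ⊢
    rw [one_mul] at hA hC ⊢
    linarith
  · by_cases hp2 : p.2 ∈ Qfm_bad t e l δ
    · have h6 : (Qfm_bad t e l δ).indicator (fun _ => (1 : ℝ)) p.2 = 1 :=
        Set.indicator_of_mem hp2 _
      rw [h6] at hC ⊢
      linarith
    · have hw : ∀ j, |Qfm_w t e l p.1 j| ≤ δ := by
        by_contra hc
        exact hp1 hc
      have hu : ∀ j, |Qfm_w t e l p.2 j| ≤ δ := by
        by_contra hc
        exact hp2 hc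
      have h5 : ‖∏ j, ∫ θ, Qfm_K (Qfm_w t e l p.1 j) (Qfm_w t e l p.2 j) θ ∂nu2‖ ≤
          2 * Real.exp (1 * ∑ j, (Qfm_w t e l p.1 j) ^ 2) *
            Real.exp (-(1 / 2) * ∑ j, (Qfm_w t e l p.2 j) ^ 2) := by
        rw [norm_prod]
        have h6 : ∏ j, ‖∫ θ, Qfm_K (Qfm_w t e l p.1 j) (Qfm_w t e l p.2 j) θ ∂nu2‖ ≤
            ∏ j, Real.exp ((Qfm_w t e l p.1 j) ^ 2 - (Qfm_w t e l p.2 j) ^ 2 / 2 +
              125 * δ ^ 3) :=
          Finset.prod_le_prod (fun _ _ => norm_nonneg _) fun j _ =>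
            h4.2 _ _ δ hδ (hw j) (hu j)
        rw [← Real.exp_sum] at h6
        have h7 : ∑ j, ((Qfm_w t e l p.1 j) ^ 2 - (Qfm_w t e l p.2 j) ^ 2 / 2 + 125 * δ ^ 3) =
            125 * m * δ ^ 3 + (1 * ∑ j, (Qfm_w t e l p.1 j) ^ 2 +
              -(1 / 2) * ∑ j, (Qfm_w t e l p.2 j) ^ 2) := by
          rw [Finset.sum_add_distrib, Finset.sum_sub_distrib, ← Finset.sum_div]
          simp only [Finset.sum_const, Finset.card_univ, Fintype.card_fin, nsmul_eq_mul]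
          ring
        rw [h7, Real.exp_add, Real.exp_add] at h6
        refine h6.trans ?_
        rw [mul_assoc 2]
        exact mul_le_mul_of_nonneg_right hexp (by positivity)
      linarith

private lemma Qfm_main (h1 : St_Law) (h4 : St_Psf) {m : ℕ} (t : ℝ) (e : Fin m → Fin m → ℝ)
    (l : Fin m → ℝ) (δ : ℝ) (hδ : δ ≤ 1 / 10) (hexp : Real.exp (125 * m * δ ^ 3) ≤ 2)
    (ε : ℝ) (hε : 0 < ε)
    (hX : Integrable (fun g => Real.exp (1 * ∑ j, (Qfm_w t e l g j) ^ 2))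
      (Measure.pi fun _ : Fin m => ProbabilityTheory.gaussianReal 0 1))
    (hZ : Integrable (fun g => Real.exp (1.5 * ∑ j, (Qfm_w t e l g j) ^ 2))
      (Measure.pi fun _ : Fin m => ProbabilityTheory.gaussianReal 0 1))
    (hY : Integrable (fun g => Real.exp (-(1 / 2) * ∑ j, (Qfm_w t e l g j) ^ 2))
      (Measure.pi fun _ : Fin m => ProbabilityTheory.gaussianReal 0 1)) :
    ∫ θ, Real.exp (t ^ 2 / 2 * (∑ a, l a ^ 2 * (∑ j, e a j * (pt 2 (θ j)).im) ^ 2 -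
        ∑ a, l a ^ 2 * (∑ j, e a j * ((pt 2 (θ j)).re - 1)) ^ 2)) ∂(PP (Fin m)) ≤
      2 * (∫ g, Real.exp (1 * ∑ j, (Qfm_w t e l g j) ^ 2)
        ∂(Measure.pi fun _ : Fin m => ProbabilityTheory.gaussianReal 0 1)) *
        (∫ g, Real.exp (-(1 / 2) * ∑ j, (Qfm_w t e l g j) ^ 2)
          ∂(Measure.pi fun _ : Fin m => ProbabilityTheory.gaussianReal 0 1)) +
      (ε * (∫ g, Real.exp (1.5 * ∑ j, (Qfm_w t e l g j) ^ 2)
        ∂(Measure.pi fun _ : Fin m => ProbabilityTheory.gaussianReal 0 1)) +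
        (ε ^ 2)⁻¹ * (Measure.pi fun _ : Fin m => ProbabilityTheory.gaussianReal 0 1).real
          (Qfm_bad t e l δ)) +
      (∫ g, Real.exp (1 * ∑ j, (Qfm_w t e l g j) ^ 2)
        ∂(Measure.pi fun _ : Fin m => ProbabilityTheory.gaussianReal 0 1)) *
        (Measure.pi fun _ : Fin m => ProbabilityTheory.gaussianReal 0 1).real
          (Qfm_bad t e l δ) := by
  have hpr : IsProbabilityMeasure nu2 := h1.2.1
  have hPP : IsProbabilityMeasure (PP (Fin m)) := by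
    unfold PP
    infer_instance
  set Γ : Measure (Fin m → ℝ) := Measure.pi fun _ : Fin m => ProbabilityTheory.gaussianReal 0 1
    with hΓ
  have hint : Integrable (Function.uncurry (Qfm_Phi t e l)) ((PP (Fin m)).prod (Γ.prod Γ)) := by
    have hD : Integrable (fun x : (Fin m → ℝ) × (Fin m → ℝ) × (Fin m → ℝ) =>
        Real.exp m * Real.exp (1 * ∑ j, (Qfm_w t e l x.2.1 j) ^ 2))
        ((PP (Fin m)).prod (Γ.prod Γ)) := by
      refine Integrable.const_mul ?_ _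
      have h5 : Integrable (fun p : (Fin m → ℝ) × (Fin m → ℝ) =>
          Real.exp (1 * ∑ j, (Qfm_w t e l p.1 j) ^ 2)) (Γ.prod Γ) := hX.comp_fst Γ
      exact h5.comp_snd (PP (Fin m))
    refine hD.mono' (Qfm_Phi_cont t e l).aestronglyMeasurable (ae_of_all _ fun x => ?_)
    exact Qfm_Phi_norm t e l x.1 x.2
  have hswap := integral_integral_swap hint
  have h6 : ∀ θ : Fin m → ℝ, ∫ p, Qfm_Phi t e l θ p ∂(Γ.prod Γ) =
      ((Real.exp (t ^ 2 / 2 * (∑ a, l a ^ 2 * (∑ j, e a j * (pt 2 (θ j)).im) ^ 2 -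
        ∑ a, l a ^ 2 * (∑ j, e a j * ((pt 2 (θ j)).re - 1)) ^ 2)) : ℝ) : ℂ) :=
    fun θ => Qfm_outer t e l θ
  rw [integral_congr_ae (ae_of_all _ h6), integral_complex_ofReal,
    integral_congr_ae (ae_of_all _ fun p => Qfm_inner hpr t e l p)] at hswap
  have hind : Integrable ((Qfm_bad t e l δ).indicator (fun _ => (1 : ℝ))) Γ :=
    (integrable_const (1 : ℝ)).indicator (Qfm_bad_meas t e l δ)
  have hindv : ∫ g, (Qfm_bad t e l δ).indicator (fun _ => (1 : ℝ)) g ∂Γ =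
      Γ.real (Qfm_bad t e l δ) := by
    rw [integral_indicator_const _ (Qfm_bad_meas t e l δ), smul_eq_mul, mul_one]
  have hi1 : Integrable (fun p : (Fin m → ℝ) × (Fin m → ℝ) =>
      2 * Real.exp (1 * ∑ j, (Qfm_w t e l p.1 j) ^ 2) *
        Real.exp (-(1 / 2) * ∑ j, (Qfm_w t e l p.2 j) ^ 2)) (Γ.prod Γ) :=
    (hX.const_mul 2).mul_prod hY
  have hi2 : Integrable (fun p : (Fin m → ℝ) × (Fin m → ℝ) =>
      (ε * Real.exp (1.5 * ∑ j, (Qfm_w t e l p.1 j) ^ 2) +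
        (ε ^ 2)⁻¹ * (Qfm_bad t e l δ).indicator (fun _ => (1 : ℝ)) p.1) * 1) (Γ.prod Γ) :=
    ((hZ.const_mul ε).add (hind.const_mul _)).mul_prod (integrable_const (1 : ℝ))
  have hi3 : Integrable (fun p : (Fin m → ℝ) × (Fin m → ℝ) =>
      Real.exp (1 * ∑ j, (Qfm_w t e l p.1 j) ^ 2) *
        (Qfm_bad t e l δ).indicator (fun _ => (1 : ℝ)) p.2) (Γ.prod Γ) :=
    hX.mul_prod hind
  have hb := norm_integral_le_of_norm_le ((hi1.add hi2).add hi3) (μ := Γ.prod Γ)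
    (f := fun p => ∏ j, ∫ θ, Qfm_K (Qfm_w t e l p.1 j) (Qfm_w t e l p.2 j) θ ∂nu2)
    (ae_of_all _ fun p => Qfm_point h4 t e l δ hδ hexp ε hε p)
  rw [← hswap, Complex.norm_real] at hb
  refine (le_abs_self _).trans (hb.trans (le_of_eq ?_))
  rw [integral_add' (hi1.add hi2) hi3, integral_add' hi1 hi2]
  rw [integral_prod_mul (f := fun g : Fin m → ℝ => 2 * Real.exp (1 * ∑ j, (Qfm_w t e l g j) ^ 2))
    (g := fun g : Fin m → ℝ => Real.exp (-(1 / 2) * ∑ j, (Qfm_w t e l g j) ^ 2)),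
    integral_prod_mul (f := fun g : Fin m → ℝ => ε * Real.exp (1.5 * ∑ j, (Qfm_w t e l g j) ^ 2) +
        (ε ^ 2)⁻¹ * (Qfm_bad t e l δ).indicator (fun _ => (1 : ℝ)) g)
    (g := fun _ : Fin m → ℝ => (1 : ℝ)),
    integral_prod_mul (f := fun g : Fin m → ℝ => Real.exp (1 * ∑ j, (Qfm_w t e l g j) ^ 2))
    (g := fun g : Fin m → ℝ => (Qfm_bad t e l δ).indicator (fun _ => (1 : ℝ)) g)]
  rw [integral_const_mul, hindv, integral_add (hZ.const_mul ε) (hind.const_mul _),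
    integral_const_mul, integral_const_mul, hindv]
  simp

private lemma Qfm_elem (l t : ℝ) (hl : |l| ≤ 0.53) (ht : |t| ≤ 1.01) :
    1 - l ^ 2 ≤ Real.exp ((t ^ 2 - 1) * l ^ 2 + 5.5 * t ^ 4 * l ^ 4) *
      ((1 - 2 * 1 * t ^ 2 * l ^ 2) * (1 - 2 * (-(1 / 2)) * t ^ 2 * l ^ 2)) ∧
    0.4 ≤ 1 - 2 * 1 * t ^ 2 * l ^ 2 := by
  have hl2 : l ^ 2 ≤ 0.2809 := by
    have := pow_le_pow_left₀ (abs_nonneg l) hl 2
    rw [sq_abs] at this
    linarith
  have ht2 : t ^ 2 ≤ 1.0201 := by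
    have := pow_le_pow_left₀ (abs_nonneg t) ht 2
    rw [sq_abs] at this
    linarith
  have hy : t ^ 2 * l ^ 2 ≤ 0.3 := by
    have := mul_le_mul ht2 hl2 (sq_nonneg l) (by norm_num)
    linarith
  have hy0 : 0 ≤ t ^ 2 * l ^ 2 := by positivity
  set y := t ^ 2 * l ^ 2 with hydef
  have h1 : Real.exp (-(2 * y + 5 * y ^ 2)) ≤ 1 - 2 * y := by
    have h2 := Real.quadratic_le_exp_of_nonneg (x := 2 * y + 5 * y ^ 2) (by positivity)
    have h3 : 1 ≤ Real.exp (2 * y + 5 * y ^ 2) * (1 - 2 * y) := by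
      have h4 : 1 ≤ (1 + (2 * y + 5 * y ^ 2) + (2 * y + 5 * y ^ 2) ^ 2 / 2) * (1 - 2 * y) := by
        have h5 : (1 + (2 * y + 5 * y ^ 2) + (2 * y + 5 * y ^ 2) ^ 2 / 2) * (1 - 2 * y) =
            1 + y ^ 2 * (3 - 4 * y - 7.5 * y ^ 2 - 25 * y ^ 3) := by ring
        rw [h5]
        have h6 : y ^ 2 ≤ 0.09 := by nlinarith
        have h7 : y ^ 3 ≤ 0.027 := by
          have : y ^ 3 = y ^ 2 * y := by ring
          rw [this]
          nlinarith
        have h8 : 0 ≤ 3 - 4 * y - 7.5 * y ^ 2 - 25 * y ^ 3 := by linarith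
        have := mul_nonneg (sq_nonneg y) h8
        linarith
      exact h4.trans (mul_le_mul_of_nonneg_right h2 (by linarith))
    rw [Real.exp_neg, inv_le_iff_one_le_mul₀ (Real.exp_pos _), mul_comm]
    exact h3
  have h2 : Real.exp (y - y ^ 2 / 2) ≤ 1 + y := by
    have h3 := Real.le_log_one_add_of_nonneg hy0
    have h4 : y - y ^ 2 / 2 ≤ 2 * y / (y + 2) := by
      rw [le_div_iff₀ (by linarith)]
      nlinarith [mul_nonneg (mul_nonneg hy0 hy0) hy0]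
    calc Real.exp (y - y ^ 2 / 2) ≤ Real.exp (Real.log (1 + y)) :=
          Real.exp_le_exp.2 (h4.trans h3)
      _ = 1 + y := Real.exp_log (by linarith)
  have h3 : 1 - l ^ 2 ≤ Real.exp (-l ^ 2) := by
    have := Real.add_one_le_exp (-l ^ 2)
    linarith
  have e1 : 1 - 2 * 1 * t ^ 2 * l ^ 2 = 1 - 2 * y := by rw [hydef]; ring
  have e2 : 1 - 2 * (-(1 / 2)) * t ^ 2 * l ^ 2 = 1 + y := by rw [hydef]; ring
  rw [e1, e2]
  refine ⟨?_, by linarith⟩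
  have h4 : Real.exp (-(2 * y + 5 * y ^ 2)) * Real.exp (y - y ^ 2 / 2) ≤ (1 - 2 * y) * (1 + y) :=
    mul_le_mul h1 h2 (Real.exp_pos _).le (by linarith)
  have h5 : Real.exp (-l ^ 2) = Real.exp ((t ^ 2 - 1) * l ^ 2 + 5.5 * t ^ 4 * l ^ 4) *
      (Real.exp (-(2 * y + 5 * y ^ 2)) * Real.exp (y - y ^ 2 / 2)) := by
    rw [← Real.exp_add, ← Real.exp_add]
    congr 1
    rw [hydef]
    ring
  calc 1 - l ^ 2 ≤ Real.exp (-l ^ 2) := h3
    _ = _ := h5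
    _ ≤ _ := mul_le_mul_of_nonneg_left h4 (Real.exp_pos _).le

private lemma Qfm_one (p q r E : ℝ) (hp : 0 < p) (hq : 0 < q) (hr : 0 < r)
    (h : r ≤ Real.exp E * (p * q)) :
    (√p)⁻¹ * (√q)⁻¹ ≤ Real.exp (E / 2) * (√r)⁻¹ := by
  have h1 : √r ≤ Real.exp (E / 2) * (√p * √q) := by
    have h2 := Real.sqrt_le_sqrt h
    rw [Real.sqrt_mul (Real.exp_pos E).le, Real.sqrt_mul hp.le] at h2
    have h3 : √(Real.exp E) = Real.exp (E / 2) := by
      rw [Real.exp_half]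
    rwa [h3] at h2
  have hp' := Real.sqrt_pos.2 hp
  have hq' := Real.sqrt_pos.2 hq
  have hr' := Real.sqrt_pos.2 hr
  rw [← mul_inv, ← one_div, ← div_eq_mul_inv, div_le_div_iff₀ (by positivity) hr', one_mul]
  exact h1

private lemma Qfm_ratio {m : ℕ} (l : Fin m → ℝ) (t D : ℝ) (hl : ∀ a, |l a| ≤ 0.53)
    (ht : |t| ≤ 1.01) (hD : ∑ a, ((t ^ 2 - 1) * l a ^ 2 + 5.5 * t ^ 4 * l a ^ 4) ≤ D) :
    (∏ a, (√(1 - 2 * 1 * t ^ 2 * l a ^ 2))⁻¹) *
      (∏ a, (√(1 - 2 * (-(1 / 2)) * t ^ 2 * l a ^ 2))⁻¹) ≤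
      Real.exp (D / 2) / √(∏ a, (1 - l a ^ 2)) := by
  have hl2 : ∀ a, l a ^ 2 ≤ 0.2809 := by
    intro a
    have := pow_le_pow_left₀ (abs_nonneg (l a)) (hl a) 2
    rw [sq_abs] at this
    linarith
  rw [← Finset.prod_mul_distrib]
  have h1 : ∀ a, (√(1 - 2 * 1 * t ^ 2 * l a ^ 2))⁻¹ *
      (√(1 - 2 * (-(1 / 2)) * t ^ 2 * l a ^ 2))⁻¹ ≤
      Real.exp (((t ^ 2 - 1) * l a ^ 2 + 5.5 * t ^ 4 * l a ^ 4) / 2) *
        (√(1 - l a ^ 2))⁻¹ := by
    intro a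
    obtain ⟨h2, h3⟩ := Qfm_elem (l a) t (hl a) ht
    refine Qfm_one _ _ _ _ (by linarith) ?_ ?_ h2
    · have : 0 ≤ t ^ 2 * l a ^ 2 := by positivity
      linarith
    · have := hl2 a
      linarith
  have h2 : ∏ a, (√(1 - 2 * 1 * t ^ 2 * l a ^ 2))⁻¹ *
      (√(1 - 2 * (-(1 / 2)) * t ^ 2 * l a ^ 2))⁻¹ ≤
      ∏ a, (Real.exp (((t ^ 2 - 1) * l a ^ 2 + 5.5 * t ^ 4 * l a ^ 4) / 2) *
        (√(1 - l a ^ 2))⁻¹) :=
    Finset.prod_le_prod (fun _ _ => by positivity) fun a _ => h1 a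
  refine h2.trans ?_
  rw [Finset.prod_mul_distrib, ← Real.exp_sum, Finset.prod_inv_distrib,
    Real.sqrt_prod _ (fun a _ => by have := hl2 a; linarith), div_eq_mul_inv]
  refine mul_le_mul_of_nonneg_right ?_ (inv_nonneg.2 (Finset.prod_nonneg fun _ _ => Real.sqrt_nonneg _))
  apply Real.exp_le_exp.2
  rw [← Finset.sum_div]
  linarith

private lemma Qfm_ev1 (c : ℝ) (hc : 0 < c) : ∀ᶠ m : ℕ in atTop, dl m ≤ c := by
  have h := (tendsto_rpow_neg_atTop (show (0 : ℝ) < 2 / 5 by norm_num)).comp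
    (tendsto_natCast_atTop_atTop (R := ℝ))
  filter_upwards [h.eventually (ge_mem_nhds hc)] with m hm
  exact hm

private lemma Qfm_ev2 : ∀ᶠ m : ℕ in atTop, Real.exp (125 * m * dl m ^ 3) ≤ 2 := by
  have h := (tendsto_rpow_neg_atTop (show (0 : ℝ) < 1 / 5 by norm_num)).comp
    (tendsto_natCast_atTop_atTop (R := ℝ))
  have hlog : 0 < Real.log 2 / 125 := by
    have := Real.log_pos one_lt_two
    positivity
  filter_upwards [h.eventually (ge_mem_nhds hlog), eventually_ge_atTop 1] with m hm hm1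
  have hm0 : (0 : ℝ) < m := by exact_mod_cast hm1
  have h1 : (m : ℝ) * dl m ^ 3 = (m : ℝ) ^ (-(1 / 5) : ℝ) := by
    unfold dl
    rw [← Real.rpow_natCast, ← Real.rpow_mul hm0.le]
    nth_rw 1 [← Real.rpow_one (m : ℝ)]
    rw [← Real.rpow_add hm0]
    norm_num
  have h2 : 125 * (m : ℝ) * dl m ^ 3 ≤ Real.log 2 := by
    rw [mul_assoc, h1]
    have : ((m : ℝ) ^ (-(1 / 5) : ℝ)) ≤ Real.log 2 / 125 := hm
    linarith
  calc Real.exp (125 * m * dl m ^ 3) ≤ Real.exp (Real.log 2) := Real.exp_le_exp.2 h2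
    _ = 2 := Real.exp_log two_pos

private lemma Qfm_ev3 (c : ℕ) : ∀ᶠ m : ℕ in atTop,
    (m : ℝ) ^ c * Real.exp (-((m : ℝ) ^ (1 / 10 : ℝ) / 4)) ≤ 1 := by
  have h := Real.tendsto_pow_mul_exp_neg_atTop_nhds_zero (10 * c)
  have h1 : Tendsto (fun m : ℕ => (m : ℝ) ^ (1 / 10 : ℝ) / 4) atTop atTop :=
    ((tendsto_rpow_atTop (show (0 : ℝ) < 1 / 10 by norm_num)).comp
      (tendsto_natCast_atTop_atTop (R := ℝ))).atTop_div_const (by norm_num)
  have h2 := (h.comp h1).const_mul ((4 : ℝ) ^ (10 * c))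
  rw [mul_zero] at h2
  filter_upwards [h2.eventually (ge_mem_nhds one_pos), eventually_ge_atTop 1] with m hm hm1
  have hm0 : (0 : ℝ) < m := by exact_mod_cast hm1
  refine le_trans (le_of_eq ?_) hm
  simp only [Function.comp_apply]
  rw [← mul_assoc, ← mul_pow]
  congr 1
  rw [mul_div_cancel₀ _ (by norm_num : (4 : ℝ) ≠ 0), ← Real.rpow_natCast, ← Real.rpow_natCast,
    ← Real.rpow_mul hm0.le]
  congr 1
  push_cast
  ring

private lemma Qfm_ev4 (C : ℝ) : ∀ᶠ m : ℕ in atTop, 5 * dl m * (C * Real.log m) ≤ 1 := by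
  have h := ((isLittleO_log_rpow_atTop (show (0 : ℝ) < 2 / 5 by norm_num)).tendsto_div_nhds_zero).comp
    (tendsto_natCast_atTop_atTop (R := ℝ))
  have h2 := h.const_mul (5 * C)
  rw [mul_zero] at h2
  filter_upwards [h2.eventually (ge_mem_nhds one_pos), eventually_ge_atTop 1] with m hm hm1
  have hm0 : (0 : ℝ) < m := by exact_mod_cast hm1
  refine le_trans (le_of_eq ?_) hm
  simp only [Function.comp_apply]
  unfold dl
  rw [Real.rpow_neg hm0.le]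
  ring

theorem thm_Qfm (h1 : St_Law) (h2 : St_Spe) (h3 : St_Gau) (h4 : St_Psf) : St_Qfm := by
  intro C hC
  obtain ⟨C₁, hG⟩ := h3 C hC
  refine ⟨2 * Real.exp ((1 + 6 * C) / 2) + 3, ?_⟩
  filter_upwards [hG, eventually_ge_atTop 1, Qfm_ev1 (1 / 200) (by norm_num), Qfm_ev2,
    Qfm_ev3 C₁, Qfm_ev4 C] with m hG hm1 hδ hexp hpoly hlog
  intro E hE t ht
  obtain ⟨e, l, hSp, hDl, _, hre, _, _⟩ := h2 C m E hm1 hE
  have hδ0 : 0 ≤ dl m := by
    unfold dl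
    positivity
  have ht1 := abs_le.1 ht
  have htabs : |t| ≤ 1.01 := by
    rw [abs_le]
    constructor <;> linarith
  obtain ⟨hk, hP⟩ := hG E e l hSp t htabs
  obtain ⟨hX, hXv, hXb⟩ := hk 1 (by norm_num)
  obtain ⟨hZ, hZv, hZb⟩ := hk 1.5 le_rfl
  obtain ⟨hY, hYv, -⟩ := hk (-(1 / 2)) (by norm_num)
  -- the quadratic forms
  have hform : ∀ θ : Fin m → ℝ,
      ∑ i, ((xj E (xx θ) i).im ^ 2 - (xj E (xx θ) i).re ^ 2) =
      ∑ a, l a ^ 2 * (∑ j, e a j * (pt 2 (θ j)).im) ^ 2 -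
        ∑ a, l a ^ 2 * (∑ j, e a j * ((pt 2 (θ j)).re - 1)) ^ 2 := by
    intro θ
    have him : ∀ i, (xj E (xx θ) i).im = ∑ j, E i j * (pt 2 (θ j)).im := by
      intro i
      unfold xj xx
      rw [Complex.im_sum]
      exact Finset.sum_congr rfl fun j _ => Complex.im_ofReal_mul _ _
    have hre' : ∀ i, (xj E (xx θ) i).re = ∑ j, E i j * ((pt 2 (θ j)).re - 1) := by
      intro i
      unfold xj xx
      rw [Complex.re_sum]
      have h5 : ∑ j, E i j * ((pt 2 (θ j)).re - 1) = ∑ j, E i j * (pt 2 (θ j)).re := by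
        have h6 : ∀ j, E i j * ((pt 2 (θ j)).re - 1) = E i j * (pt 2 (θ j)).re - E i j :=
          fun j => by ring
        rw [Finset.sum_congr rfl fun j _ => h6 j, Finset.sum_sub_distrib, hE.row i, sub_zero]
      rw [h5]
      exact Finset.sum_congr rfl fun j _ => Complex.re_ofReal_mul _ _
    rw [Finset.sum_sub_distrib]
    simp_rw [him, hre']
    rw [hre (fun j => (pt 2 (θ j)).im), hre (fun j => (pt 2 (θ j)).re - 1)]
  simp_rw [hform]
  set ε : ℝ := Real.exp (-((m : ℝ) ^ (1 / 10 : ℝ) / 4)) with hε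
  have hε0 : 0 < ε := Real.exp_pos _
  have hmain := Qfm_main h1 h4 t e l (dl m) (by linarith) hexp ε hε0 hX hZ hY
  refine hmain.trans ?_
  have hP' : (Measure.pi fun _ : Fin m => ProbabilityTheory.gaussianReal 0 1).real
      (Qfm_bad t e l (dl m)) ≤ Real.exp (-(m : ℝ) ^ (1 / 10 : ℝ)) := hP
  have hX' : ∫ g, Real.exp (1 * ∑ j, (Qfm_w t e l g j) ^ 2)
      ∂(Measure.pi fun _ : Fin m => ProbabilityTheory.gaussianReal 0 1) =
      ∏ a, (√(1 - 2 * 1 * t ^ 2 * l a ^ 2))⁻¹ := hXv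
  have hY' : ∫ g, Real.exp (-(1 / 2) * ∑ j, (Qfm_w t e l g j) ^ 2)
      ∂(Measure.pi fun _ : Fin m => ProbabilityTheory.gaussianReal 0 1) =
      ∏ a, (√(1 - 2 * (-(1 / 2)) * t ^ 2 * l a ^ 2))⁻¹ := hYv
  have hZ' : ∫ g, Real.exp (1.5 * ∑ j, (Qfm_w t e l g j) ^ 2)
      ∂(Measure.pi fun _ : Fin m => ProbabilityTheory.gaussianReal 0 1) ≤ (m : ℝ) ^ C₁ :=
    hZv.le.trans hZb
  rw [hX', hY']
  have hmp : (0 : ℝ) ≤ (m : ℝ) ^ (1 / 10 : ℝ) := by positivity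
  -- the bad parts
  have b1 : ε * (∫ g, Real.exp (1.5 * ∑ j, (Qfm_w t e l g j) ^ 2)
      ∂(Measure.pi fun _ : Fin m => ProbabilityTheory.gaussianReal 0 1)) ≤ 1 := by
    calc _ ≤ ε * (m : ℝ) ^ C₁ := mul_le_mul_of_nonneg_left hZ' hε0.le
      _ = (m : ℝ) ^ C₁ * ε := mul_comm _ _
      _ ≤ 1 := hpoly
  have b2 : (ε ^ 2)⁻¹ * (Measure.pi fun _ : Fin m => ProbabilityTheory.gaussianReal 0 1).real
      (Qfm_bad t e l (dl m)) ≤ 1 := by
    have h5 : (ε ^ 2)⁻¹ = Real.exp ((m : ℝ) ^ (1 / 10 : ℝ) / 2) := by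
      rw [hε, ← Real.exp_nat_mul, ← Real.exp_neg]
      congr 1
      push_cast
      ring
    rw [h5]
    calc _ ≤ Real.exp ((m : ℝ) ^ (1 / 10 : ℝ) / 2) * Real.exp (-(m : ℝ) ^ (1 / 10 : ℝ)) :=
          mul_le_mul_of_nonneg_left hP' (Real.exp_pos _).le
      _ = Real.exp (-(m : ℝ) ^ (1 / 10 : ℝ) / 2) := by
          rw [← Real.exp_add]
          congr 1
          ring
      _ ≤ 1 := Real.exp_le_one_iff.2 (by linarith)
  have b3 : (∏ a, (√(1 - 2 * 1 * t ^ 2 * l a ^ 2))⁻¹) *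
      (Measure.pi fun _ : Fin m => ProbabilityTheory.gaussianReal 0 1).real
        (Qfm_bad t e l (dl m)) ≤ 1 := by
    calc _ ≤ (m : ℝ) ^ C₁ * Real.exp (-(m : ℝ) ^ (1 / 10 : ℝ)) :=
          mul_le_mul hXb hP' measureReal_nonneg (by positivity)
      _ ≤ (m : ℝ) ^ C₁ * ε := by
          refine mul_le_mul_of_nonneg_left ?_ (by positivity)
          rw [hε]
          exact Real.exp_le_exp.2 (by linarith)
      _ ≤ 1 := hpoly
  -- the main part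
  have hsum : ∑ a, ((t ^ 2 - 1) * l a ^ 2 + 5.5 * t ^ 4 * l a ^ 4) ≤ 1 + 6 * C := by
    rw [Finset.sum_add_distrib, ← Finset.mul_sum, ← Finset.mul_sum]
    have h5 : t ^ 2 - 1 ≤ 5 * dl m := by
      have h6 : t ^ 2 - 1 = (t - 1) * (t + 1) := by ring
      rw [h6]
      nlinarith [mul_nonneg hδ0 hδ0]
    have h6 : 0 ≤ ∑ a, l a ^ 2 := Finset.sum_nonneg fun _ _ => sq_nonneg _
    have h7 : (t ^ 2 - 1) * ∑ a, l a ^ 2 ≤ 5 * dl m * (C * Real.log m) :=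
      mul_le_mul h5 hSp.two h6 (by positivity)
    have h8 : 0 ≤ ∑ a, l a ^ 4 := Finset.sum_nonneg fun _ _ => by positivity
    have h9 : t ^ 4 ≤ 1.05 := by
      have h10 := pow_le_pow_left₀ (abs_nonneg t) htabs 4
      have h11 : |t| ^ 4 = t ^ 4 := by
        rw [← abs_pow]
        exact abs_of_nonneg (by positivity)
      rw [h11] at h10
      refine h10.trans ?_
      norm_num
    have h10 : 5.5 * t ^ 4 * ∑ a, l a ^ 4 ≤ 6 * C := by
      have h12 : 5.5 * t ^ 4 ≤ 6 := by linarith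
      exact mul_le_mul h12 hSp.four h8 (by norm_num)
    linarith
  have hr := Qfm_ratio l t (1 + 6 * C) hSp.small htabs hsum
  rw [← hDl] at hr
  have hl2 : ∀ a, l a ^ 2 ≤ 0.2809 := by
    intro a
    have := pow_le_pow_left₀ (abs_nonneg (l a)) (hSp.small a) 2
    rw [sq_abs] at this
    linarith
  have hD0 : 0 < Dl E := by
    rw [hDl]
    exact Finset.prod_pos fun a _ => by have := hl2 a; linarith
  have hD1 : Dl E ≤ 1 := by
    rw [hDl]
    exact Finset.prod_le_one (fun a _ => by have := hl2 a; linarith)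
      fun a _ => by have := sq_nonneg (l a); linarith
  have hs0 : 0 < √(Dl E) := Real.sqrt_pos.2 hD0
  have hs1 : √(Dl E) ≤ 1 := Real.sqrt_le_one.2 hD1
  have h3s : 3 ≤ 3 / √(Dl E) := by
    rw [le_div_iff₀ hs0]
    linarith
  rw [add_div, mul_div_assoc]
  rw [mul_assoc 2]
  linarith

end Pool.Agent.PCW
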