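import Mathlib
import Pool.Agent.PCW.Defs

set_option autoImplicit false

/-!
# PCW, helper file of the module Res: operator norm and Frobenius norm (elementary)
-/

namespace Pool.Agent.PCW.ResA

open Finset Matrix

variable {ι κ : Type} [Fintype ι] [Fintype κ]

/-- the Euclidean norm -/
noncomputable def nrm (f : κ → ℂ) : ℝ := √(∑ v, ‖f v‖ ^ 2)

omit [Fintype ι] in
theorem nrm_eq (f : κ → ℂ) : nrm f = ‖(WithLp.toLp 2 f : EuclideanSpace ℂ κ)‖ := by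
  rw [EuclideanSpace.norm_eq]; rfl

omit [Fintype ι] in
theorem nrm_nonneg (f : κ → ℂ) : 0 ≤ nrm f := Real.sqrt_nonneg _

omit [Fintype ι] in
theorem nrm_sq (f : κ → ℂ) : nrm f ^ 2 = ∑ v, ‖f v‖ ^ 2 :=
  Real.sq_sqrt (Finset.sum_nonneg fun _ _ => by positivity)

omit [Fintype ι] in
theorem nrm_add (f g : κ → ℂ) : nrm (f + g) ≤ nrm f + nrm g := by
  rw [nrm_eq, nrm_eq, nrm_eq]
  have : (WithLp.toLp 2 (f + g) : EuclideanSpace ℂ κ) = WithLp.toLp 2 f + WithLp.toLp 2 g := rfl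
  rw [this]
  exact norm_add_le _ _

omit [Fintype ι] in
theorem nrm_zero (f : κ → ℂ) (h : nrm f ≤ 0) : f = 0 := by
  have h1 : ∑ v, ‖f v‖ ^ 2 = 0 := by
    rw [← nrm_sq, le_antisymm h (nrm_nonneg f)]; norm_num
  have h2 := (Finset.sum_eq_zero_iff_of_nonneg (fun v _ => by positivity)).1 h1
  ext v
  have h3 := h2 v (Finset.mem_univ v)
  have h4 : ‖f v‖ = 0 := by
    by_contra hc
    have : 0 < ‖f v‖ ^ 2 := by positivity
    linarith
  simpa using h4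

omit [Fintype ι] in
theorem nrm_le_of_sq {f : κ → ℂ} {c : ℝ} (hc : 0 ≤ c) (h : ∑ v, ‖f v‖ ^ 2 ≤ c ^ 2) :
    nrm f ≤ c := by
  unfold nrm
  exact (Real.sqrt_le_left hc).2 h

/-- operator norm at most `c` -/
def Op (A : Matrix ι ι ℂ) (c : ℝ) : Prop := ∀ f : ι → ℂ, nrm (A *ᵥ f) ≤ c * nrm f

theorem Op.mono {A : Matrix ι ι ℂ} {a b : ℝ} (h : Op A a) (hab : a ≤ b) : Op A b := fun f =>
  (h f).trans (mul_le_mul_of_nonneg_right hab (nrm_nonneg f))

theorem Op.mul {A B : Matrix ι ι ℂ} {a b : ℝ} (ha : 0 ≤ a) (hA : Op A a) (hB : Op B b) :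
    Op (A * B) (a * b) := by
  intro f
  rw [← Matrix.mulVec_mulVec, mul_assoc]
  exact (hA _).trans (mul_le_mul_of_nonneg_left (hB f) ha)

theorem Op.add {A B : Matrix ι ι ℂ} {a b : ℝ} (hA : Op A a) (hB : Op B b) :
    Op (A + B) (a + b) := by
  intro f
  rw [Matrix.add_mulVec, add_mul]
  exact (nrm_add _ _).trans (add_le_add (hA f) (hB f))

theorem Op.one [DecidableEq ι] : Op (1 : Matrix ι ι ℂ) 1 := by
  intro f
  rw [Matrix.one_mulVec, one_mul]

theorem Op.diag [DecidableEq ι] {d : ι → ℂ} {c : ℝ} (hc : 0 ≤ c) (h : ∀ v, ‖d v‖ ≤ c) :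
    Op (Matrix.diagonal d) c := by
  intro f
  apply nrm_le_of_sq (mul_nonneg hc (nrm_nonneg f))
  rw [mul_pow, nrm_sq, Finset.mul_sum]
  apply Finset.sum_le_sum
  intro v _
  rw [Matrix.mulVec_diagonal, norm_mul, mul_pow]
  apply mul_le_mul_of_nonneg_right _ (by positivity)
  exact pow_le_pow_left₀ (norm_nonneg _) (h v) 2

theorem Op.trans {A : Matrix ι ι ℂ} {c : ℝ} (hc : 0 ≤ c) (hA : Op A c) : Op Aᵀ c := by
  intro f
  set g : ι → ℂ := Aᵀ *ᵥ f with hg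
  -- `∑ |g|² = ∑_v f_v (A conj g)_v`
  have h1 : ((nrm g ^ 2 : ℝ) : ℂ) = ∑ v, f v * (A *ᵥ (fun w => (starRingEnd ℂ) (g w))) v := by
    rw [nrm_sq]
    push_cast
    have h2 : ∀ w, ((‖g w‖ : ℂ)) ^ 2 = g w * (starRingEnd ℂ) (g w) := by
      intro w
      rw [Complex.mul_conj, Complex.normSq_eq_norm_sq]; push_cast; rfl
    simp only [h2]
    simp only [Matrix.mulVec, dotProduct, Finset.mul_sum]
    rw [Finset.sum_comm]
    refine Finset.sum_congr rfl fun w _ => ?_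
    rw [hg]
    simp only [Matrix.mulVec, dotProduct, Matrix.transpose_apply]
    rw [Finset.sum_mul]
    refine Finset.sum_congr rfl fun v _ => ?_
    ring
  have h3 : nrm g ^ 2 ≤ nrm f * nrm (A *ᵥ (fun w => (starRingEnd ℂ) (g w))) := by
    have h4 : nrm g ^ 2 = ‖((nrm g ^ 2 : ℝ) : ℂ)‖ := by
      rw [Complex.norm_real, Real.norm_of_nonneg (by positivity)]
    rw [h4, h1]
    calc ‖∑ v, f v * (A *ᵥ (fun w => (starRingEnd ℂ) (g w))) v‖
        ≤ ∑ v, ‖f v‖ * ‖(A *ᵥ (fun w => (starRingEnd ℂ) (g w))) v‖ := by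
          refine (norm_sum_le _ _).trans (le_of_eq ?_)
          exact Finset.sum_congr rfl fun v _ => norm_mul _ _
      _ ≤ nrm f * nrm (A *ᵥ (fun w => (starRingEnd ℂ) (g w))) := by
          unfold nrm
          exact Real.sum_mul_le_sqrt_mul_sqrt _ _ _
  have h5 : nrm (fun w => (starRingEnd ℂ) (g w)) = nrm g := by
    unfold nrm
    congr 1
    refine Finset.sum_congr rfl fun w _ => ?_
    rw [Complex.norm_conj]
  have h6 : nrm g * nrm g ≤ (c * nrm f) * nrm g := by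
    have := hA (fun w => (starRingEnd ℂ) (g w))
    rw [h5] at this
    calc nrm g * nrm g = nrm g ^ 2 := by ring
      _ ≤ _ := h3
      _ ≤ nrm f * (c * nrm g) := mul_le_mul_of_nonneg_left this (nrm_nonneg f)
      _ = _ := by ring
  rcases (nrm_nonneg g).lt_or_eq with h7 | h7
  · exact le_of_mul_le_mul_right h6 h7
  · rw [← h7]; exact mul_nonneg hc (nrm_nonneg f)

theorem frob_nonneg (A : Matrix ι ι ℂ) : 0 ≤ frob A := Real.sqrt_nonneg _

theorem frob_sq (A : Matrix ι ι ℂ) : frob A ^ 2 = ∑ i, ∑ j, ‖A i j‖ ^ 2 :=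
  Real.sq_sqrt (Finset.sum_nonneg fun _ _ => Finset.sum_nonneg fun _ _ => by positivity)

theorem frob_le {A : Matrix ι ι ℂ} {c : ℝ} (hc : 0 ≤ c) (h : ∑ i, ∑ j, ‖A i j‖ ^ 2 ≤ c ^ 2) :
    frob A ≤ c := by
  unfold frob
  exact (Real.sqrt_le_left hc).2 h

theorem frob_T (A : Matrix ι ι ℂ) : frob Aᵀ = frob A := by
  unfold frob
  rw [Finset.sum_comm]
  rfl

theorem frob_mul_left {A B : Matrix ι ι ℂ} {c : ℝ} (hc : 0 ≤ c) (hA : Op A c) :
    frob (A * B) ≤ c * frob B := by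
  apply frob_le (mul_nonneg hc (frob_nonneg B))
  rw [mul_pow, frob_sq, Finset.sum_comm, Finset.sum_comm (f := fun i j => ‖B i j‖ ^ 2),
    Finset.mul_sum]
  apply Finset.sum_le_sum
  intro j _
  have h1 := hA (fun i => B i j)
  have h2 : (A *ᵥ fun i => B i j) = fun i => (A * B) i j := by
    ext i; rfl
  rw [h2] at h1
  have h3 := pow_le_pow_left₀ (nrm_nonneg _) h1 2
  rw [mul_pow, nrm_sq, nrm_sq] at h3
  exact h3

theorem frob_mul_right {A B : Matrix ι ι ℂ} {c : ℝ} (hc : 0 ≤ c) (hB : Op B c) :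
    frob (A * B) ≤ c * frob A := by
  rw [← frob_T (A * B), Matrix.transpose_mul, ← frob_T A]
  exact frob_mul_left hc (hB.trans hc)

theorem Op.frob (A : Matrix ι ι ℂ) : Op A (frob A) := by
  intro f
  apply nrm_le_of_sq (mul_nonneg (frob_nonneg A) (nrm_nonneg f))
  rw [mul_pow, nrm_sq, frob_sq, Finset.sum_mul]
  apply Finset.sum_le_sum
  intro v _
  have h1 : ‖(A *ᵥ f) v‖ ≤ ∑ w, ‖A v w‖ * ‖f w‖ := by
    have : (A *ᵥ f) v = ∑ w, A v w * f w := rfl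
    rw [this]
    refine (norm_sum_le _ _).trans (le_of_eq ?_)
    exact Finset.sum_congr rfl fun v _ => norm_mul _ _
  calc ‖(A *ᵥ f) v‖ ^ 2 ≤ (∑ w, ‖A v w‖ * ‖f w‖) ^ 2 := pow_le_pow_left₀ (norm_nonneg _) h1 2
    _ ≤ (∑ w, ‖A v w‖ ^ 2) * ∑ w, ‖f w‖ ^ 2 := Finset.sum_mul_sq_le_sq_mul_sq _ _ _

theorem frob_add (A B : Matrix ι ι ℂ) : frob (A + B) ≤ frob A + frob B := by
  have h : ∀ M : Matrix ι ι ℂ, PCW.frob M = nrm (fun p : ι × ι => M p.1 p.2) := by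
    intro M
    unfold PCW.frob nrm
    rw [Fintype.sum_prod_type]
  rw [h, h, h]
  exact nrm_add (fun p : ι × ι => A p.1 p.2) (fun p : ι × ι => B p.1 p.2)

/-- Neumann series -/
theorem inv_op [DecidableEq ι] {N : Matrix ι ι ℂ} {q : ℝ} (hN : Op N q) (hq : q < 1) :
    ∃ B : Matrix ι ι ℂ, (1 - N) * B = 1 ∧ B * (1 - N) = 1 ∧ Op B (1 / (1 - q)) := by
  have hdet : (1 - N).det ≠ 0 := by
    intro h0
    obtain ⟨v, hv, hv2⟩ := Matrix.exists_mulVec_eq_zero_iff.2 h0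
    apply hv
    apply nrm_zero
    rw [Matrix.sub_mulVec, Matrix.one_mulVec, sub_eq_zero] at hv2
    have h1 := hN v
    rw [← hv2] at h1
    nlinarith [nrm_nonneg v]
  have hu : IsUnit (1 - N).det := isUnit_iff_ne_zero.2 hdet
  refine ⟨(1 - N)⁻¹, Matrix.mul_nonsing_inv _ hu, Matrix.nonsing_inv_mul _ hu, ?_⟩
  intro f
  set g := (1 - N)⁻¹ *ᵥ f with hg
  have h1 : f = (1 - N) *ᵥ g := by
    rw [hg, Matrix.mulVec_mulVec, Matrix.mul_nonsing_inv _ hu, Matrix.one_mulVec]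
  have h2 : g = f + N *ᵥ g := by
    rw [h1, Matrix.sub_mulVec, Matrix.one_mulVec]
    exact (sub_add_cancel _ _).symm
  have h3 : nrm g ≤ nrm f + q * nrm g := by
    have h4 : nrm g = nrm (f + N *ᵥ g) := congrArg nrm h2
    rw [h4]
    refine (nrm_add _ _).trans (add_le_add le_rfl ?_)
    rw [← h4]
    exact hN g
  have h5 : 0 < 1 - q := by linarith
  rw [div_mul_eq_mul_div, one_mul, le_div_iff₀ h5]
  linarith

/-- from real vectors to complex vectors -/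
theorem Op.real {M : Matrix ι ι ℝ} {c : ℝ} (hc : 0 ≤ c)
    (h : ∀ f : ι → ℝ, ∑ v, (∑ w, M v w * f w) ^ 2 ≤ c ^ 2 * ∑ v, f v ^ 2) :
    Op (M.map (fun r : ℝ => (r : ℂ))) c := by
  intro f
  apply nrm_le_of_sq (mul_nonneg hc (nrm_nonneg f))
  rw [mul_pow, nrm_sq]
  have h1 : ∀ z : ℂ, ‖z‖ ^ 2 = z.re ^ 2 + z.im ^ 2 := by
    intro z
    rw [← Complex.normSq_eq_norm_sq, Complex.normSq_apply]; ring
  have h2 : ∀ v, (M.map (fun r : ℝ => (r : ℂ)) *ᵥ f) v = ∑ w, (M v w : ℂ) * f w := fun v => rfl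
  have hre : ∀ v, ((M.map (fun r : ℝ => (r : ℂ)) *ᵥ f) v).re = ∑ w, M v w * (f w).re := by
    intro v
    rw [h2, Complex.re_sum]
    exact Finset.sum_congr rfl fun w _ => Complex.re_ofReal_mul _ _
  have him : ∀ v, ((M.map (fun r : ℝ => (r : ℂ)) *ᵥ f) v).im = ∑ w, M v w * (f w).im := by
    intro v
    rw [h2, Complex.im_sum]
    exact Finset.sum_congr rfl fun w _ => Complex.im_ofReal_mul _ _
  simp only [h1, hre, him, Finset.sum_add_distrib]
  have h3 := h (fun w => (f w).re)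
  have h4 := h (fun w => (f w).im)
  linarith

end Pool.Agent.PCW.ResA
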