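import Mathlib
import Pool.Agent.PCW.Defs
import Pool.Agent.PCW.ResA

set_option autoImplicit false

/-!
# PCW, helper file of the module Res: the bounds for `A = V Q`
-/

namespace Pool.Agent.PCW.ResA

open Finset Matrix

variable {ι : Type} [Fintype ι] [DecidableEq ι]

theorem trA_bound (Vc : Matrix ι ι ℂ) (q z : ι → ℂ) (δ K : ℝ) (hδ : 0 ≤ δ)
    (hq : ∀ v, ‖q v - z v‖ ≤ 3 * δ) (hc : ‖∑ v, Vc v v * z v‖ ≤ δ)
    (hV : ∑ v, ‖Vc v v‖ ≤ 10 * K) : ‖(Vc * Matrix.diagonal q).trace‖ ≤ δ + 30 * K * δ := by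
  have h1 : (Vc * Matrix.diagonal q).trace = ∑ v, Vc v v * z v + ∑ v, Vc v v * (q v - z v) := by
    rw [← Finset.sum_add_distrib, Matrix.trace]
    refine Finset.sum_congr rfl fun v _ => ?_
    rw [Matrix.diag_apply, Matrix.mul_diagonal]; ring
  rw [h1]
  refine (norm_add_le _ _).trans (add_le_add hc ?_)
  calc ‖∑ v, Vc v v * (q v - z v)‖ ≤ ∑ v, ‖Vc v v‖ * (3 * δ) := by
        refine (norm_sum_le _ _).trans (Finset.sum_le_sum fun v _ => ?_)
        rw [norm_mul]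
        exact mul_le_mul_of_nonneg_left (hq v) (norm_nonneg _)
    _ = (∑ v, ‖Vc v v‖) * (3 * δ) := by rw [Finset.sum_mul]
    _ ≤ (10 * K) * (3 * δ) := mul_le_mul_of_nonneg_right hV (by positivity)
    _ = 30 * K * δ := by ring

theorem trA2_bound (Vc : Matrix ι ι ℂ) (q z : ι → ℂ) (δ K : ℝ) (hδ : 0 ≤ δ)
    (hs : ∀ v w, Vc v w = Vc w v)
    (hq : ∀ v, ‖q v - z v‖ ≤ 3 * δ) (hz : ∀ v, ‖z v‖ ≤ 3) (hq4 : ∀ v, ‖q v‖ ≤ 4)
    (hd : ‖∑ v, ∑ w, Vc v w ^ 2 * z v * z w‖ ≤ δ)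
    (hV : ∑ v, ∑ w, ‖Vc v w‖ ^ 2 ≤ 10 * K) :
    ‖((Vc * Matrix.diagonal q) * (Vc * Matrix.diagonal q)).trace‖ ≤ δ + 210 * K * δ := by
  have h1 : ((Vc * Matrix.diagonal q) * (Vc * Matrix.diagonal q)).trace =
      ∑ v, ∑ w, Vc v w ^ 2 * z v * z w +
        ∑ v, ∑ w, Vc v w ^ 2 * ((q v - z v) * q w + z v * (q w - z w)) := by
    rw [← Finset.sum_add_distrib, Matrix.trace]
    refine Finset.sum_congr rfl fun v _ => ?_
    rw [← Finset.sum_add_distrib, Matrix.diag_apply, Matrix.mul_apply]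
    refine Finset.sum_congr rfl fun w _ => ?_
    rw [Matrix.mul_diagonal, Matrix.mul_diagonal, hs w v]; ring
  rw [h1]
  refine (norm_add_le _ _).trans (add_le_add hd ?_)
  calc ‖∑ v, ∑ w, Vc v w ^ 2 * ((q v - z v) * q w + z v * (q w - z w))‖
      ≤ ∑ v, ∑ w, ‖Vc v w‖ ^ 2 * (21 * δ) := by
        refine (norm_sum_le _ _).trans (Finset.sum_le_sum fun v _ => ?_)
        refine (norm_sum_le _ _).trans (Finset.sum_le_sum fun w _ => ?_)
        rw [norm_mul, norm_pow]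
        refine mul_le_mul_of_nonneg_left ?_ (by positivity)
        calc ‖(q v - z v) * q w + z v * (q w - z w)‖
            ≤ ‖q v - z v‖ * ‖q w‖ + ‖z v‖ * ‖q w - z w‖ := by
              refine (norm_add_le _ _).trans (le_of_eq ?_)
              rw [norm_mul, norm_mul]
          _ ≤ (3 * δ) * 4 + 3 * (3 * δ) := by
              apply add_le_add
              · exact mul_le_mul (hq v) (hq4 w) (norm_nonneg _) (by positivity)
              · exact mul_le_mul (hz v) (hq w) (norm_nonneg _) (by norm_num)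
          _ = 21 * δ := by ring
    _ = (∑ v, ∑ w, ‖Vc v w‖ ^ 2) * (21 * δ) := by
        rw [Finset.sum_mul]
        exact Finset.sum_congr rfl fun v _ => by rw [Finset.sum_mul]
    _ ≤ (10 * K) * (21 * δ) := mul_le_mul_of_nonneg_right hV (by positivity)
    _ = 210 * K * δ := by ring

theorem frobA_bound (Vc : Matrix ι ι ℂ) (q : ι → ℂ) (s : ℝ) (hs : frob Vc ≤ s)
    (hq4 : ∀ v, ‖q v‖ ≤ 4) : frob (Vc * Matrix.diagonal q) ≤ 4 * s :=
  (frob_mul_right (by norm_num) (Op.diag (by norm_num) hq4)).trans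
    (mul_le_mul_of_nonneg_left hs (by norm_num))

theorem frobA2_bound (Vc P Ec : Matrix ι ι ℂ) (q z : ι → ℂ) (δ s t : ℝ) (hδ : 0 ≤ δ)
    (hs0 : 0 ≤ s) (ht0 : 0 ≤ t) (ht : t ≤ 1.2)
    (hs : frob Vc ≤ s) (hq : ∀ v, ‖q v - z v‖ ≤ 3 * δ) (hq4 : ∀ v, ‖q v‖ ≤ 4)
    (hP : Op P √5) (hVop : Op Vc 1.2)
    (hV1 : Vc = ((√t : ℝ) : ℂ) • (Ec * P)) (hV2 : Vc = ((√t : ℝ) : ℂ) • (P * Ec))
    (hb : frob (Ec * Matrix.diagonal z * Ec) ≤ δ) :
    frob ((Vc * Matrix.diagonal q) * (Vc * Matrix.diagonal q)) ≤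
      4 * (6 * δ + 3.6 * δ * s) := by
  have h5 : √5 * √5 = (5 : ℝ) := Real.mul_self_sqrt (by norm_num)
  have hz : frob (Vc * Matrix.diagonal z * Vc) ≤ 6 * δ := by
    have e1 : Vc * Matrix.diagonal z * Vc =
        P * ((t : ℂ) • (Ec * Matrix.diagonal z * Ec)) * P := by
      have : Vc * Matrix.diagonal z * Vc = (((√t : ℝ) : ℂ) • (P * Ec)) * Matrix.diagonal z *
          (((√t : ℝ) : ℂ) • (Ec * P)) := by
        rw [← hV1, ← hV2]
      rw [this, Matrix.smul_mul, Matrix.smul_mul, Matrix.mul_smul, smul_smul]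
      have h6 : ((√t : ℝ) : ℂ) * ((√t : ℝ) : ℂ) = (t : ℂ) := by
        rw [← Complex.ofReal_mul, Real.mul_self_sqrt ht0]
      rw [h6, Matrix.mul_smul, Matrix.smul_mul]
      simp only [Matrix.mul_assoc]
    have e2 : frob ((t : ℂ) • (Ec * Matrix.diagonal z * Ec)) ≤
        t * frob (Ec * Matrix.diagonal z * Ec) := by
      apply frob_le (mul_nonneg ht0 (frob_nonneg _))
      rw [mul_pow, frob_sq, Finset.mul_sum]
      refine Finset.sum_le_sum fun i _ => ?_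
      rw [Finset.mul_sum]
      refine Finset.sum_le_sum fun j _ => ?_
      rw [Matrix.smul_apply, smul_eq_mul, norm_mul, Complex.norm_real, Real.norm_of_nonneg ht0,
        mul_pow]
    rw [e1]
    calc frob (P * ((t : ℂ) • (Ec * Matrix.diagonal z * Ec)) * P)
        ≤ √5 * frob (P * ((t : ℂ) • (Ec * Matrix.diagonal z * Ec))) :=
          frob_mul_right (Real.sqrt_nonneg 5) hP
      _ ≤ √5 * (√5 * frob ((t : ℂ) • (Ec * Matrix.diagonal z * Ec))) :=
          mul_le_mul_of_nonneg_left (frob_mul_left (Real.sqrt_nonneg 5) hP) (Real.sqrt_nonneg 5)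
      _ = 5 * frob ((t : ℂ) • (Ec * Matrix.diagonal z * Ec)) := by
          rw [← mul_assoc, h5]
      _ ≤ 5 * (t * frob (Ec * Matrix.diagonal z * Ec)) :=
          mul_le_mul_of_nonneg_left e2 (by norm_num)
      _ ≤ 5 * (1.2 * δ) := by
          apply mul_le_mul_of_nonneg_left _ (by norm_num)
          exact mul_le_mul ht hb (frob_nonneg _) (by norm_num)
      _ = 6 * δ := by ring
  have hqz : frob (Vc * Matrix.diagonal (fun v => q v - z v) * Vc) ≤ 3.6 * δ * s := by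
    have h1 : Op (Vc * Matrix.diagonal (fun v => q v - z v)) (1.2 * (3 * δ)) :=
      Op.mul (by norm_num) hVop (Op.diag (by positivity) hq)
    calc frob (Vc * Matrix.diagonal (fun v => q v - z v) * Vc) ≤ 1.2 * (3 * δ) * frob Vc :=
          frob_mul_left (by positivity) h1
      _ ≤ 1.2 * (3 * δ) * s := mul_le_mul_of_nonneg_left hs (by positivity)
      _ = 3.6 * δ * s := by ring
  have hsum : frob (Vc * Matrix.diagonal q * Vc) ≤ 6 * δ + 3.6 * δ * s := by
    have e1 : Vc * Matrix.diagonal q * Vc = Vc * Matrix.diagonal z * Vc +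
        Vc * Matrix.diagonal (fun v => q v - z v) * Vc := by
      rw [← Matrix.add_mul, ← Matrix.mul_add, Matrix.diagonal_add]
      congr 3
      ext v
      ring
    rw [e1]
    exact (frob_add _ _).trans (add_le_add hz hqz)
  have e3 : (Vc * Matrix.diagonal q) * (Vc * Matrix.diagonal q) =
      (Vc * Matrix.diagonal q * Vc) * Matrix.diagonal q := by
    simp only [Matrix.mul_assoc]
  rw [e3]
  exact (frob_mul_right (by norm_num) (Op.diag (by norm_num) hq4)).trans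
    (mul_le_mul_of_nonneg_left hsum (by norm_num))

/-- three factors near `1` -/
theorem near_mul {z w : ℂ} {a b : ℝ} (h1 : ‖z - 1‖ ≤ Real.exp a - 1) (h2 : ‖w - 1‖ ≤ Real.exp b - 1) :
    ‖z * w - 1‖ ≤ Real.exp (a + b) - 1 := by
  have e : z * w - 1 = (z - 1) * (w - 1) + (z - 1) + (w - 1) := by ring
  have ha : 0 ≤ Real.exp a - 1 := (norm_nonneg _).trans h1
  rw [e, Real.exp_add]
  calc ‖(z - 1) * (w - 1) + (z - 1) + (w - 1)‖ ≤ ‖z - 1‖ * ‖w - 1‖ + ‖z - 1‖ + ‖w - 1‖ := by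
        refine (norm_add_le _ _).trans (add_le_add ?_ le_rfl)
        refine (norm_add_le _ _).trans (add_le_add (le_of_eq (norm_mul _ _)) le_rfl)
    _ ≤ (Real.exp a - 1) * (Real.exp b - 1) + (Real.exp a - 1) + (Real.exp b - 1) := by
        have := mul_le_mul h1 h2 (norm_nonneg _) ha
        linarith
    _ = Real.exp a * Real.exp b - 1 := by ring

theorem near_mono {z : ℂ} {a b : ℝ} (h1 : ‖z - 1‖ ≤ Real.exp a - 1) (h : a ≤ b) :
    ‖z - 1‖ ≤ Real.exp b - 1 := by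
  have := Real.exp_le_exp.2 h
  linarith

theorem near_exp (y : ℂ) : ‖Complex.exp y - 1‖ ≤ Real.exp ‖y‖ - 1 := by
  have h := Complex.norm_exp_sub_sum_le_exp_norm_sub_sum y 1
  simpa using h

/-- the determinant of `1 - A` -/
theorem det_near (hD : ∀ (ι : Type) [Fintype ι] [DecidableEq ι] (A : Matrix ι ι ℂ),
    frob (A * A) ≤ 1 / 4 →
    ‖(1 - A).det * Complex.exp (A.trace + (A * A).trace / 2) - 1‖ ≤
      Real.exp (4 * frob A * frob (A * A) + 4 * frob (A * A) ^ 2) - 1)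
    (A : Matrix ι ι ℂ) (δ K s : ℝ) (hδ : 0 ≤ δ) (hK : 1 ≤ K) (hKδ : 14000 * (K * δ) ≤ 1)
    (hs : s ^ 2 = 10 * K) (hs0 : 0 ≤ s) (h1 : ‖A.trace‖ ≤ δ + 30 * K * δ)
    (h2 : ‖(A * A).trace‖ ≤ δ + 210 * K * δ) (h3 : frob A ≤ 4 * s)
    (h4 : frob (A * A) ≤ 4 * (6 * δ + 3.6 * δ * s)) :
    frob (A * A) ≤ 1 / 4 ∧ ‖(1 - A).det - 1‖ ≤ Real.exp (6900 * (K * δ)) - 1 := by
  have hs1 : s ≤ 10 * K := by nlinarith
  have hKδ' : δ ≤ K * δ := by nlinarith
  have hsδ : s * δ ≤ 10 * K * δ := mul_le_mul_of_nonneg_right hs1 hδ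
  have h5 : frob (A * A) ≤ 168 * (K * δ) := by nlinarith
  have h6 : frob (A * A) ≤ 1 / 4 := by linarith
  refine ⟨h6, ?_⟩
  have hfA := frob_nonneg A
  have hfAA := frob_nonneg (A * A)
  have h7 : frob A * frob (A * A) ≤ 1536 * (K * δ) := by
    calc frob A * frob (A * A) ≤ (4 * s) * (4 * (6 * δ + 3.6 * δ * s)) :=
          mul_le_mul h3 h4 hfAA (by positivity)
      _ = 96 * (s * δ) + 57.6 * (s ^ 2 * δ) := by ring
      _ ≤ 96 * (10 * K * δ) + 57.6 * (10 * K * δ) := by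
          rw [hs]; linarith
      _ = 1536 * (K * δ) := by ring
  have h8 : frob (A * A) ^ 2 ≤ 42 * (K * δ) := by nlinarith
  have hy : ‖-(A.trace + (A * A).trace / 2)‖ ≤ 140 * (K * δ) := by
    rw [norm_neg]
    have h9 : ‖(A * A).trace / 2‖ = ‖(A * A).trace‖ / 2 := by
      rw [norm_div]; norm_num
    have := norm_add_le A.trace ((A * A).trace / 2)
    rw [h9] at this
    nlinarith
  have h10 := hD ι A h6
  have h11 := near_mul h10 (near_exp (-(A.trace + (A * A).trace / 2)))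
  have h12 : (1 - A).det * Complex.exp (A.trace + (A * A).trace / 2) *
      Complex.exp (-(A.trace + (A * A).trace / 2)) = (1 - A).det := by
    rw [mul_assoc, ← Complex.exp_add, add_neg_cancel, Complex.exp_zero, mul_one]
  rw [h12] at h11
  apply near_mono h11
  nlinarith

end Pool.Agent.PCW.ResA
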