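import Mathlib
import Pool.Agent.PCW.Defs
import Pool.Agent.PCW.St
import Pool.Agent.PCW.ResA
import Pool.Agent.PCW.ResB

set_option autoImplicit false

/-!
# PCW, module Res: the matrix `L₀` on the good event
-/

namespace Pool.Agent.PCW

open Finset Filter MeasureTheory Matrix

namespace ResA

theorem ev_small (C : ℝ) (hC : 0 < C) : ∀ᶠ m : ℕ in atTop, 1 ≤ m ∧ 1 ≤ C * Real.log m ∧
    14000 * ((C * Real.log m) * dl m) ≤ (m : ℝ) ^ (-(7 / 20) : ℝ) := by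
  have h1 : ∀ᶠ x : ℝ in atTop, Real.log x ≤ (1 / (14000 * C)) * x ^ (1 / 20 : ℝ) := by
    have h2 := (isLittleO_log_rpow_atTop (r := (1 / 20 : ℝ)) (by norm_num)).bound
      (show (0 : ℝ) < 1 / (14000 * C) by positivity)
    filter_upwards [h2, eventually_ge_atTop (1 : ℝ)] with x hx hx1
    rw [Real.norm_of_nonneg (Real.log_nonneg hx1), Real.norm_of_nonneg (by positivity)] at hx
    exact hx
  have h3 : ∀ᶠ x : ℝ in atTop, 1 / C ≤ Real.log x := Real.tendsto_log_atTop.eventually_ge_atTop _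
  have h4 := tendsto_natCast_atTop_atTop (R := ℝ)
  filter_upwards [h4.eventually h1, h4.eventually h3, eventually_ge_atTop 1] with m hm1 hm3 hm
  have hm0 : (0 : ℝ) < m := by exact_mod_cast hm
  refine ⟨hm, ?_, ?_⟩
  · calc (1 : ℝ) = C * (1 / C) := by field_simp
      _ ≤ C * Real.log m := mul_le_mul_of_nonneg_left hm3 hC.le
  · have h5 : 14000 * (C * Real.log m) ≤ (m : ℝ) ^ (1 / 20 : ℝ) := by
      calc 14000 * (C * Real.log m) ≤ 14000 * (C * ((1 / (14000 * C)) * (m : ℝ) ^ (1 / 20 : ℝ))) := by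
            gcongr
        _ = (m : ℝ) ^ (1 / 20 : ℝ) := by field_simp
    calc 14000 * ((C * Real.log m) * dl m) = (14000 * (C * Real.log m)) * dl m := by ring
      _ ≤ (m : ℝ) ^ (1 / 20 : ℝ) * dl m := by
          apply mul_le_mul_of_nonneg_right h5
          unfold dl; positivity
      _ = (m : ℝ) ^ (-(7 / 20) : ℝ) := by
          unfold dl
          rw [← Real.rpow_add hm0]
          norm_num

theorem t_near {α β δ : ℝ} (hδ0 : 0 ≤ δ) (hδ : δ ≤ 1 / 14000) (hα : |α - 1| ≤ δ)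
    (hβ : |β - 1| ≤ δ) : |1 / (α * β) - 1| ≤ 3 * δ := by
  obtain ⟨a1, a2⟩ := abs_le.1 hα
  obtain ⟨b1, b2⟩ := abs_le.1 hβ
  have ha : 0 < α := by linarith
  have hb : 0 < β := by linarith
  have hab : 0 < α * β := mul_pos ha hb
  have h1 : 1 / (α * β) - 1 = (1 - α * β) / (α * β) := by field_simp
  rw [h1, abs_div, abs_of_pos hab, div_le_iff₀ hab]
  have huv : |(α - 1) * (β - 1)| ≤ δ * δ := by
    rw [abs_mul]
    exact mul_le_mul hα hβ (abs_nonneg _) hδ0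
  obtain ⟨u1, u2⟩ := abs_le.1 huv
  have e : (α - 1) * (β - 1) = α * β - α - β + 1 := by ring
  rw [e] at u1 u2
  obtain ⟨p, hp⟩ : ∃ p, p = α * β := ⟨_, rfl⟩
  rw [← hp] at u1 u2 ⊢
  have hp1 : 1 - 2 * δ - δ * δ ≤ p := by linarith
  have hp2 : p ≤ 1 + 2 * δ + δ * δ := by linarith
  have d1 : δ * (1 - 2 * δ - δ * δ) ≤ δ * p := mul_le_mul_of_nonneg_left hp1 hδ0
  have d2 : δ * δ ≤ δ * (1 / 14000) := mul_le_mul_of_nonneg_left hδ hδ0
  have d3 : δ * δ * δ ≤ δ * δ * (1 / 14000) := mul_le_mul_of_nonneg_left hδ (mul_nonneg hδ0 hδ0)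
  rw [abs_le]
  constructor <;> nlinarith

/-- the determinant of `1 - √t Ē` -/
theorem det_Eb {m : ℕ} (E : Matrix (Fin m) (Fin m) ℝ) (t : ℝ) (ht : 0 ≤ t) :
    ((1 : Matrix (V m) (V m) ℝ) - √t • Eb E).det = (1 - t • (E * E)).det := by
  have h1 : (1 : Matrix (V m) (V m) ℝ) - √t • Eb E =
      Matrix.fromBlocks 1 (-(√t • E)) (-(√t • E)) 1 := by
    unfold Eb
    rw [← Matrix.fromBlocks_one, Matrix.fromBlocks_smul, sub_eq_add_neg, Matrix.fromBlocks_neg,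
      Matrix.fromBlocks_add]
    simp
  rw [h1, Matrix.det_fromBlocks_one₁₁]
  congr 1
  rw [Matrix.neg_mul, Matrix.mul_neg, neg_neg, Matrix.smul_mul, Matrix.mul_smul, smul_smul,
    Real.mul_self_sqrt ht]

theorem rho_near {m : ℕ} (l : Fin m → ℝ) (t δ K : ℝ) (hδ : 0 ≤ δ) (ht : |t - 1| ≤ 3 * δ)
    (hl : ∀ a, |l a| ≤ 0.53) (hl2 : ∑ a, l a ^ 2 ≤ K) :
    0 < ∏ a, (1 - l a ^ 2) ∧
    ‖(((∏ a, (1 - t * l a ^ 2)) / ∏ a, (1 - l a ^ 2) : ℝ) : ℂ) - 1‖ ≤ Real.exp (5 * (K * δ)) - 1 := by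
  have hsq : ∀ a, l a ^ 2 ≤ 0.2809 := by
    intro a
    rw [← sq_abs]
    calc |l a| ^ 2 ≤ 0.53 ^ 2 := pow_le_pow_left₀ (abs_nonneg _) (hl a) 2
      _ = 0.2809 := by norm_num
  have hpos : ∀ a, 0 < 1 - l a ^ 2 := fun a => by
    have h1 := hsq a
    have h2 : (0.2809 : ℝ) < 1 := by norm_num
    linarith
  have hprod : 0 < ∏ a, (1 - l a ^ 2) := Finset.prod_pos fun a _ => hpos a
  refine ⟨hprod, ?_⟩
  have h1 : (∏ a, (1 - t * l a ^ 2)) / ∏ a, (1 - l a ^ 2) =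
      ∏ a, (1 + (1 - t) * l a ^ 2 / (1 - l a ^ 2)) := by
    rw [← Finset.prod_div_distrib]
    refine Finset.prod_congr rfl fun a _ => ?_
    have := (hpos a).ne'
    field_simp
    ring
  have h2 := Finset.norm_prod_one_add_sub_one_le (Finset.univ : Finset (Fin m))
    (fun a => (1 - t) * l a ^ 2 / (1 - l a ^ 2))
  rw [h1]
  have h3 : ‖((∏ a, (1 + (1 - t) * l a ^ 2 / (1 - l a ^ 2)) : ℝ) : ℂ) - 1‖ =
      ‖(∏ a, (1 + (1 - t) * l a ^ 2 / (1 - l a ^ 2)) : ℝ) - 1‖ := by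
    rw [← Complex.ofReal_one, ← Complex.ofReal_sub, Complex.norm_real]
  rw [h3]
  refine h2.trans ?_
  have h4 : ∑ a, ‖(1 - t) * l a ^ 2 / (1 - l a ^ 2)‖ ≤ 5 * (K * δ) := by
    calc ∑ a, ‖(1 - t) * l a ^ 2 / (1 - l a ^ 2)‖ ≤ ∑ a, (5 * δ) * l a ^ 2 := by
          refine Finset.sum_le_sum fun a _ => ?_
          rw [norm_div, norm_mul, Real.norm_eq_abs, Real.norm_eq_abs, Real.norm_eq_abs,
            abs_of_pos (hpos a), abs_of_nonneg (sq_nonneg (l a)), div_le_iff₀ (hpos a),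
            abs_sub_comm]
          have e1 := hsq a
          have e2 := sq_nonneg (l a)
          have e3 : |t - 1| * l a ^ 2 ≤ 3 * δ * l a ^ 2 := mul_le_mul_of_nonneg_right ht e2
          have e4 : 3 * δ * l a ^ 2 ≤ 5 * δ * l a ^ 2 * (1 - l a ^ 2) := by
            have e5 : 0 ≤ δ * l a ^ 2 := mul_nonneg hδ e2
            norm_num at e1
            nlinarith
          linarith
      _ = (5 * δ) * ∑ a, l a ^ 2 := by rw [Finset.mul_sum]
      _ ≤ (5 * δ) * K := mul_le_mul_of_nonneg_left hl2 (by positivity)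
      _ = 5 * (K * δ) := by ring
  have := Real.exp_le_exp.2 h4
  linarith

/-- the entries of `Q` and of `Z` -/
theorem qz {a δ : ℝ} {x ξ : ℂ} (hδ0 : 0 ≤ δ) (hδ : δ ≤ 1 / 14000) (ha : |a - 1| ≤ δ)
    (hx : ‖x‖ = 2) (hξ : ‖ξ‖ ≤ δ) :
    (a : ℂ) + ξ ≠ 0 ∧ 1 - 2 * δ ≤ ‖(a : ℂ) + ξ‖ ∧
    ‖(x * a / ((a : ℂ) + ξ) - 1) - (x - 1)‖ ≤ 3 * δ ∧ ‖x - 1‖ ≤ 3 ∧
    ‖x * a / ((a : ℂ) + ξ) - 1‖ ≤ 4 := by
  obtain ⟨a1, a2⟩ := abs_le.1 ha
  have h1 : 1 - 2 * δ ≤ ‖(a : ℂ) + ξ‖ := by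
    have h2 : ‖(a : ℂ)‖ ≤ ‖(a : ℂ) + ξ‖ + ‖ξ‖ := by
      calc ‖(a : ℂ)‖ = ‖((a : ℂ) + ξ) - ξ‖ := by ring_nf
        _ ≤ _ := norm_sub_le _ _
    rw [Complex.norm_real, Real.norm_of_nonneg (by linarith)] at h2
    linarith
  have hpos : 0 < ‖(a : ℂ) + ξ‖ := by linarith
  have hne : (a : ℂ) + ξ ≠ 0 := norm_pos_iff.1 hpos
  have h3 : ‖(x * a / ((a : ℂ) + ξ) - 1) - (x - 1)‖ ≤ 3 * δ := by
    have e1 : (x * a / ((a : ℂ) + ξ) - 1) - (x - 1) = -(x * ξ) / ((a : ℂ) + ξ) := by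
      field_simp
      ring
    rw [e1, norm_div, norm_neg, norm_mul, hx, div_le_iff₀ hpos]
    nlinarith
  have h4 : ‖x - 1‖ ≤ 3 := by
    calc ‖x - 1‖ ≤ ‖x‖ + ‖(1 : ℂ)‖ := norm_sub_le _ _
      _ = 3 := by rw [hx, norm_one]; norm_num
  refine ⟨hne, h1, h3, h4, ?_⟩
  calc ‖x * a / ((a : ℂ) + ξ) - 1‖ = ‖((x * a / ((a : ℂ) + ξ) - 1) - (x - 1)) + (x - 1)‖ := by
        ring_nf
    _ ≤ ‖(x * a / ((a : ℂ) + ξ) - 1) - (x - 1)‖ + ‖x - 1‖ := norm_add_le _ _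
    _ ≤ 3 * δ + 3 := add_le_add h3 h4
    _ ≤ 4 := by linarith

theorem sqrt5 : √5 ≤ (2.2361 : ℝ) := by
  rw [Real.sqrt_le_left (by norm_num)]
  norm_num

end ResA

open ResA

/-- [Res] -/
theorem thm_Res (hVvb : St_Vvb) (hDt1 : St_Dt1) (hSpe : St_Spe) (hFac : St_Fac) : St_Res := by
  intro C hC
  filter_upwards [hVvb C hC, ev_small C hC] with m hV hsm
  intro E hE α β hα hβ x hx hG
  obtain ⟨hm, hK, hKδ0⟩ := hsm
  have hm0 : (0 : ℝ) < m := by exact_mod_cast hm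
  obtain ⟨K, hKd⟩ : ∃ K : ℝ, K = C * Real.log m := ⟨_, rfl⟩
  obtain ⟨δ, hδd⟩ : ∃ δ : ℝ, δ = dl m := ⟨_, rfl⟩
  have hδ0 : 0 < δ := by rw [hδd]; unfold dl; positivity
  rw [← hKd] at hK
  rw [← hKd, ← hδd] at hKδ0
  have hle1 : (m : ℝ) ^ (-(7 / 20) : ℝ) ≤ 1 := by
    apply Real.rpow_le_one_of_one_le_of_nonpos
    · exact_mod_cast hm
    · norm_num
  have hKδ : 14000 * (K * δ) ≤ 1 := hKδ0.trans hle1
  have hδ : δ ≤ 1 / 14000 := by
    have : δ ≤ K * δ := by nlinarith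
    linarith
  rw [← hδd] at hα hβ
  obtain ⟨a1, a2⟩ := abs_le.1 hα
  obtain ⟨b1, b2⟩ := abs_le.1 hβ
  have hα0 : 0 < α := by linarith
  have hβ0 : 0 < β := by linarith
  obtain ⟨t, htd⟩ : ∃ t : ℝ, t = 1 / (α * β) := ⟨_, rfl⟩
  have ht0 : 0 < t := by rw [htd]; positivity
  have ht : |t - 1| ≤ 3 * δ := by rw [htd]; exact t_near hδ0.le hδ hα hβ
  obtain ⟨t1, t2⟩ := abs_le.1 ht
  obtain ⟨v1, v2, v3, v4, v5, v6⟩ := hV E hE t (by rw [← hδd]; exact ht)
  obtain ⟨e, l, hSp, hDl, hdet, -, -, -⟩ := hSpe C m E hm hE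
  -- complex matrices
  obtain ⟨Vc, hVc⟩ : ∃ Vc : Matrix (V m) (V m) ℂ, Vc = (VV E t).map (fun r : ℝ => (r : ℂ)) :=
    ⟨_, rfl⟩
  obtain ⟨P, hP⟩ : ∃ P : Matrix (V m) (V m) ℂ,
    P = ((1 - √t • Eb E)⁻¹).map (fun r : ℝ => (r : ℂ)) := ⟨_, rfl⟩
  obtain ⟨Ec, hEc⟩ : ∃ Ec : Matrix (V m) (V m) ℂ, Ec = (Eb E).map (fun r : ℝ => (r : ℂ)) :=
    ⟨_, rfl⟩
  obtain ⟨N, hN⟩ : ∃ N : Matrix (V m) (V m) ℂ,
    N = (1 - √t • Eb E).map (fun r : ℝ => (r : ℂ)) := ⟨_, rfl⟩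
  have hmapmul : ∀ A B : Matrix (V m) (V m) ℝ, (A * B).map (fun r : ℝ => (r : ℂ)) =
      A.map (fun r : ℝ => (r : ℂ)) * B.map (fun r : ℝ => (r : ℂ)) := by
    intro A B
    exact Matrix.map_mul (f := Complex.ofRealHom)
  have hmapsmul : ∀ (r : ℝ) (A : Matrix (V m) (V m) ℝ), (r • A).map (fun r : ℝ => (r : ℂ)) =
      (r : ℂ) • A.map (fun r : ℝ => (r : ℂ)) := by
    intro r A
    ext i j
    simp
  have hmapone : (1 : Matrix (V m) (V m) ℝ).map (fun r : ℝ => (r : ℂ)) = 1 := by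
    exact Matrix.map_one _ Complex.ofReal_zero Complex.ofReal_one
  have hNP : N * P = 1 := by
    rw [hN, hP, ← hmapmul, v1, hmapone]
  have hPN : P * N = 1 := mul_eq_one_comm.1 hNP
  have hNe : N = 1 - ((√t : ℝ) : ℂ) • Ec := by
    rw [hN, hEc]
    ext i j
    simp only [Matrix.map_apply, Matrix.sub_apply, Matrix.smul_apply, smul_eq_mul,
      Complex.ofReal_sub, Complex.ofReal_mul]
    congr 1
    by_cases hij : i = j
    · subst hij; simp
    · rw [Matrix.one_apply_ne hij, Matrix.one_apply_ne hij, Complex.ofReal_zero]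
  have hV1 : Vc = ((√t : ℝ) : ℂ) • (Ec * P) := by
    rw [hVc]
    unfold VV
    rw [hmapmul, hmapsmul, ← hP, ← hEc, Matrix.smul_mul]
  have hV2 : Vc = ((√t : ℝ) : ℂ) • (P * Ec) := by
    have h1 : P - ((√t : ℝ) : ℂ) • (Ec * P) = 1 := by
      rw [← hNP, hNe, Matrix.sub_mul, Matrix.one_mul, Matrix.smul_mul]
    have h2 : P - ((√t : ℝ) : ℂ) • (P * Ec) = 1 := by
      rw [← hPN, hNe, Matrix.mul_sub, Matrix.mul_one, Matrix.mul_smul]
    rw [hV1]
    rw [← h2] at h1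
    exact sub_right_injective h1
  have hPop : Op P √5 := by
    rw [hP]
    apply Op.real (Real.sqrt_nonneg 5)
    intro f
    rw [Real.sq_sqrt (by norm_num)]
    exact v6 f
  have hEop : Op Ec 0.53 := by
    rw [hEc]
    exact Op.real (by norm_num) v5
  have hst : √t ≤ 1.01 := by
    rw [Real.sqrt_le_left (by norm_num)]
    linarith
  have hVop : Op Vc 1.2 := by
    have h1 : Op (Ec * P) (0.53 * √5) := Op.mul (by norm_num) hEop hPop
    have h2 : Op (Matrix.diagonal (fun _ : V m => ((√t : ℝ) : ℂ))) (√t) := by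
      apply Op.diag (Real.sqrt_nonneg _)
      intro _
      rw [Complex.norm_real, Real.norm_of_nonneg (Real.sqrt_nonneg _)]
    have h3 : Vc = Matrix.diagonal (fun _ : V m => ((√t : ℝ) : ℂ)) * (Ec * P) := by
      rw [hV1, ← Matrix.smul_eq_diagonal_mul]
    rw [h3]
    apply (Op.mul (Real.sqrt_nonneg _) h2 h1).mono
    have := sqrt5
    have h5 := Real.sqrt_nonneg 5
    calc √t * (0.53 * √5) ≤ 1.01 * (0.53 * 2.2361) := by gcongr
      _ ≤ 1.2 := by norm_num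
  have hVapp : ∀ v w, Vc v w = ((VV E t v w : ℝ) : ℂ) := by
    intro v w; rw [hVc]; rfl
  have hcard : ∀ c : ℝ, ∑ _v : V m, c = 2 * m * c := by
    intro c
    rw [Finset.sum_const, Finset.card_univ, Fintype.card_sum, Fintype.card_fin, nsmul_eq_mul]
    push_cast; ring
  have hVd : ∑ v, ‖Vc v v‖ ≤ 10 * K := by
    calc ∑ v, ‖Vc v v‖ ≤ ∑ _v : V m, 5 * C * Real.log m / m := by
          refine Finset.sum_le_sum fun v _ => ?_
          rw [hVapp, Complex.norm_real, Real.norm_of_nonneg (v3 v).1]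
          exact (v3 v).2
      _ = 10 * K := by rw [hcard, hKd]; field_simp; ring
  have hV2s : ∑ v, ∑ w, ‖Vc v w‖ ^ 2 ≤ 10 * K := by
    calc ∑ v, ∑ w, ‖Vc v w‖ ^ 2 ≤ ∑ _v : V m, 5 * C * Real.log m / m := by
          refine Finset.sum_le_sum fun v _ => ?_
          refine le_trans (le_of_eq ?_) (v4 v)
          refine Finset.sum_congr rfl fun w _ => ?_
          rw [hVapp, Complex.norm_real, Real.norm_eq_abs, sq_abs]
      _ = 10 * K := by rw [hcard, hKd]; field_simp; ring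
  have hsymm : ∀ v w, Vc v w = Vc w v := by
    intro v w; rw [hVapp, hVapp, v2]
  obtain ⟨s, hs⟩ : ∃ s : ℝ, s = √(10 * K) := ⟨_, rfl⟩
  have hs0 : 0 ≤ s := by rw [hs]; exact Real.sqrt_nonneg _
  have hs2 : s ^ 2 = 10 * K := by rw [hs]; exact Real.sq_sqrt (by positivity)
  have hfV : frob Vc ≤ s := frob_le hs0 (by rw [hs2]; exact hV2s)
  -- the vectors q, z
  have hal : ∀ v : V m, |al α β v - 1| ≤ δ := by
    intro v
    rcases v with i | i
    · exact hα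
    · exact hβ
  have hal0 : ∀ v : V m, 0 < al α β v := by
    intro v; have := (abs_le.1 (hal v)).1; linarith
  have hqz : ∀ v, dv E α β x v ≠ 0 ∧ 1 - 2 * δ ≤ ‖dv E α β x v‖ ∧
      ‖(x v * al α β v / dv E α β x v - 1) - (x v - 1)‖ ≤ 3 * δ ∧ ‖x v - 1‖ ≤ 3 ∧
      ‖x v * al α β v / dv E α β x v - 1‖ ≤ 4 := by
    intro v
    exact qz hδ0.le hδ (hal v) (hx v) (by rw [hδd]; exact hG.a v)
  obtain ⟨q, hq⟩ : ∃ q : V m → ℂ, q = fun v => x v * al α β v / dv E α β x v - 1 := ⟨_, rfl⟩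
  obtain ⟨z, hz⟩ : ∃ z : V m → ℂ, z = fun v => x v - 1 := ⟨_, rfl⟩
  have hq3 : ∀ v, ‖q v - z v‖ ≤ 3 * δ := by intro v; rw [hq, hz]; exact (hqz v).2.2.1
  have hz3 : ∀ v, ‖z v‖ ≤ 3 := by intro v; rw [hz]; exact (hqz v).2.2.2.1
  have hq4 : ∀ v, ‖q v‖ ≤ 4 := by intro v; rw [hq]; exact (hqz v).2.2.2.2
  have hb : frob (Ec * Matrix.diagonal z * Ec) ≤ δ := by
    rw [hEc, hz, hδd]; exact hG.b
  have hc : ‖∑ v, Vc v v * z v‖ ≤ δ := by
    have h1 := hG.c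
    rw [← htd, ← hδd] at h1
    simp only [hVapp, hz]
    exact h1
  have hd : ‖∑ v, ∑ w, Vc v w ^ 2 * z v * z w‖ ≤ δ := by
    have h1 := hG.d
    rw [← htd, ← hδd] at h1
    simp only [hVapp, hz]
    exact h1
  obtain ⟨A, hA⟩ : ∃ A : Matrix (V m) (V m) ℂ, A = Vc * Matrix.diagonal q := ⟨_, rfl⟩
  have ht12 : t ≤ 1.2 := by linarith
  have r1 : ‖A.trace‖ ≤ δ + 30 * K * δ := by
    rw [hA]; exact trA_bound Vc q z δ K hδ0.le hq3 hc hVd
  have r2 : ‖(A * A).trace‖ ≤ δ + 210 * K * δ := by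
    rw [hA]; exact trA2_bound Vc q z δ K hδ0.le hsymm hq3 hz3 hq4 hd hV2s
  have r3 : frob A ≤ 4 * s := by rw [hA]; exact frobA_bound Vc q s hfV hq4
  have r4 : frob (A * A) ≤ 4 * (6 * δ + 3.6 * δ * s) := by
    rw [hA]
    exact frobA2_bound Vc P Ec q z δ s t hδ0.le hs0 ht0.le ht12 hfV hq3 hq4 hPop hVop hV1 hV2 hb
  obtain ⟨r5, r6⟩ := det_near hDt1 A δ K s hδ0.le hK hKδ hs2 hs0 r1 r2 r3 r4
  -- factorisation
  have hfac := hFac m E α β x hα0 hβ0 (fun v => (hqz v).1) (by rw [← htd]; exact v1)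
  rw [← htd, ← hVc, ← hN] at hfac
  have hfac2 : L0 E α β x = Matrix.diagonal (fun v => (√(al α β v) : ℂ)) * (N * (1 - A)) *
      Matrix.diagonal (fun v => dv E α β x v / (√(al α β v) : ℂ)) := by
    rw [hfac, hA, hq]
  have hsal : ∀ v : V m, (√(al α β v) : ℂ) ≠ 0 := by
    intro v
    have : √(al α β v) ≠ 0 := (Real.sqrt_pos.2 (hal0 v)).ne'
    exact_mod_cast this
  obtain ⟨hDpos, r7⟩ := rho_near l t δ K hδ0.le ht hSp.small (by rw [hKd]; exact hSp.two)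
  rw [← hDl] at hDpos r7
  rw [← hdet t, ← det_Eb E t ht0.le] at r7
  refine ⟨?_, ?_⟩
  · have hNdet : N.det = (((1 - √t • Eb E).det : ℝ) : ℂ) := by
      rw [hN]
      exact (RingHom.map_det Complex.ofRealHom (1 - √t • Eb E)).symm
    have hdetL : (L0 E α β x).det = N.det * (1 - A).det * ∏ v, dv E α β x v := by
      rw [hfac2, Matrix.det_mul, Matrix.det_mul, Matrix.det_mul, Matrix.det_diagonal,
        Matrix.det_diagonal]
      have h1 : (∏ v : V m, (√(al α β v) : ℂ)) * ∏ v : V m, dv E α β x v / (√(al α β v) : ℂ) =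
          ∏ v, dv E α β x v := by
        rw [← Finset.prod_mul_distrib]
        refine Finset.prod_congr rfl fun v _ => ?_
        have := hsal v
        field_simp
      rw [← h1]; ring
    have hDne : ((Dl E : ℝ) : ℂ) ≠ 0 := by exact_mod_cast hDpos.ne'
    have e1 : (L0 E α β x).det - Dl E * ∏ v, dv E α β x v =
        ((((1 - √t • Eb E).det / Dl E : ℝ) : ℂ) * (1 - A).det - 1) *
          (Dl E * ∏ v, dv E α β x v) := by
      rw [hdetL, hNdet, Complex.ofReal_div]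
      field_simp
    rw [e1, norm_mul, norm_mul, Complex.norm_real, Real.norm_of_nonneg hDpos.le, mul_assoc]
    apply mul_le_mul_of_nonneg_right _ (mul_nonneg hDpos.le (norm_nonneg _))
    refine (near_mul r7 r6).trans ?_
    have h8 : |5 * (K * δ) + 6900 * (K * δ)| ≤ 1 := by
      rw [abs_of_nonneg (by positivity)]
      have : 0 ≤ K * δ := by positivity
      linarith
    have h9 := Real.abs_exp_sub_one_le h8
    have h10 := le_abs_self (Real.exp (5 * (K * δ) + 6900 * (K * δ)) - 1)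
    rw [abs_of_nonneg (show (0 : ℝ) ≤ 5 * (K * δ) + 6900 * (K * δ) by positivity)] at h9
    have : 0 ≤ K * δ := by positivity
    linarith
  · -- the inverse
    obtain ⟨B, hB1, hB2, hB3⟩ := inv_op ((Op.frob (A * A)).mono r5) (by norm_num)
    have hGA : (1 - A) * ((1 + A) * B) = 1 := by
      rw [← Matrix.mul_assoc]
      have : (1 - A) * (1 + A) = 1 - A * A := by
        rw [Matrix.sub_mul, Matrix.one_mul, Matrix.mul_add, Matrix.mul_one]
        abel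
      rw [this, hB1]
    obtain ⟨G, hGd⟩ : ∃ G : Matrix (V m) (V m) ℂ, G = (1 + A) * B := ⟨_, rfl⟩
    rw [← hGd] at hGA
    have hAop : Op A 4.8 := by
      rw [hA]
      exact (Op.mul (by norm_num) hVop (Op.diag (by norm_num) hq4)).mono (by norm_num)
    have hGop : Op G 8 := by
      rw [hGd]
      exact (Op.mul (by norm_num) (Op.one.add hAop) hB3).mono (by norm_num)
    obtain ⟨D1, hD1⟩ : ∃ D1 : Matrix (V m) (V m) ℂ,
      D1 = Matrix.diagonal (fun v => (√(al α β v) : ℂ) / dv E α β x v) := ⟨_, rfl⟩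
    obtain ⟨D2, hD2⟩ : ∃ D2 : Matrix (V m) (V m) ℂ,
      D2 = Matrix.diagonal (fun v => 1 / (√(al α β v) : ℂ)) := ⟨_, rfl⟩
    have hsl : ∀ v : V m, √(al α β v) ≤ 1.05 ∧ 0.95 ≤ √(al α β v) := by
      intro v
      obtain ⟨c1, c2⟩ := abs_le.1 (hal v)
      constructor
      · rw [Real.sqrt_le_left (by norm_num)]; linarith
      · apply Real.le_sqrt_of_sq_le; linarith
    have hD1op : Op D1 1.1 := by
      rw [hD1]
      apply Op.diag (by norm_num)
      intro v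
      rw [norm_div, Complex.norm_real, Real.norm_of_nonneg (Real.sqrt_nonneg _)]
      have h1 := (hqz v).2.1
      have h2 := (hsl v).1
      rw [div_le_iff₀ (by linarith)]
      nlinarith
    have hD2op : Op D2 1.1 := by
      rw [hD2]
      apply Op.diag (by norm_num)
      intro v
      rw [norm_div, norm_one, Complex.norm_real, Real.norm_of_nonneg (Real.sqrt_nonneg _)]
      have h2 := (hsl v).2
      rw [div_le_iff₀ (by linarith)]
      nlinarith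
    have hR1 : L0 E α β x * (D1 * G * P * D2) = 1 := by
      have e1 : Matrix.diagonal (fun v => dv E α β x v / (√(al α β v) : ℂ)) * D1 = 1 := by
        rw [hD1, Matrix.diagonal_mul_diagonal]
        rw [← Matrix.diagonal_one]
        congr 1
        ext v
        have h1 := hsal v
        have h2 := (hqz v).1
        field_simp
      have e2 : Matrix.diagonal (fun v => (√(al α β v) : ℂ)) * D2 = 1 := by
        rw [hD2, Matrix.diagonal_mul_diagonal]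
        rw [← Matrix.diagonal_one]
        congr 1
        ext v
        have h1 := hsal v
        field_simp
      calc L0 E α β x * (D1 * G * P * D2)
          = Matrix.diagonal (fun v => (√(al α β v) : ℂ)) * (N * ((1 - A) *
            ((Matrix.diagonal (fun v => dv E α β x v / (√(al α β v) : ℂ)) * D1) * G)) * P) * D2 := by
            rw [hfac2]; simp only [Matrix.mul_assoc]
        _ = 1 := by
            rw [e1, Matrix.one_mul, hGA, Matrix.mul_one, hNP, Matrix.mul_one, e2]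
    have hRop : Op (D1 * G * P * D2) 30 := by
      have h1 := Op.mul (by norm_num) (Op.mul (by norm_num) (Op.mul (by norm_num) hD1op hGop) hPop) hD2op
      apply h1.mono
      have := sqrt5
      nlinarith
    have hfin : ∀ M : Matrix (V m) (V m) ℂ, Op M 30 → ∀ f : V m → ℂ,
        ∑ v, ‖∑ w, M v w * f w‖ ^ 2 ≤ 30 ^ 2 * ∑ v, ‖f v‖ ^ 2 := by
      intro M hM f
      have h1 := pow_le_pow_left₀ (nrm_nonneg _) (hM f) 2
      rw [mul_pow, nrm_sq, nrm_sq] at h1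
      exact h1
    exact ⟨D1 * G * P * D2, hR1, mul_eq_one_comm.1 hR1, hfin _ hRop,
      hfin _ (hRop.trans (by norm_num))⟩

end Pool.Agent.PCW
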