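import Mathlib
import Pool.Agent.PCW.Defs
import Pool.Agent.PCW.St

set_option autoImplicit false

/-!
# PCW, module Rk2: perturbation of rank two

The general identity `adj(1 - V W) = det(1 - W V) 1 + V adj(1 - W V) W`, first over a domain with
`det(1 - W V) ≠ 0`, then over `ℂ` by the polynomial ring (`V ↦ X V`) and evaluation at `1`.
-/

namespace Pool.Agent.PCW

open Finset Filter MeasureTheory Matrix

theorem adj_dom {S : Type} [CommRing S] [IsDomain S] {ι κ : Type} [Fintype ι] [DecidableEq ι]
    [Fintype κ] [DecidableEq κ] (V : Matrix ι κ S) (W : Matrix κ ι S)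
    (h : (1 - W * V).det ≠ 0) :
    (1 - V * W).adjugate = (1 - W * V).det • (1 : Matrix ι ι S) +
      V * (1 - W * V).adjugate * W := by
  have hdet : (1 - V * W).det = (1 - W * V).det := Matrix.det_one_sub_mul_comm V W
  set D := (1 - W * V).det with hD
  have h1 : (1 - W * V) * (1 - W * V).adjugate = D • (1 : Matrix κ κ S) := by
    rw [Matrix.mul_adjugate]
  have h2 : (1 - V * W) * (D • (1 : Matrix ι ι S) + V * (1 - W * V).adjugate * W) =
      D • (1 : Matrix ι ι S) := by
    have h3 : V * ((1 - W * V) * (1 - W * V).adjugate) * W = D • (V * W) := by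
      rw [h1, Matrix.mul_smul, Matrix.mul_one, Matrix.smul_mul]
    have h4 : V * ((1 - W * V) * (1 - W * V).adjugate) * W =
        V * (1 - W * V).adjugate * W - V * W * (V * (1 - W * V).adjugate * W) := by
      simp only [Matrix.sub_mul, Matrix.mul_sub, Matrix.one_mul, Matrix.mul_assoc]
    have h5 : (1 - V * W) * (D • (1 : Matrix ι ι S) + V * (1 - W * V).adjugate * W) =
        D • (1 : Matrix ι ι S) - D • (V * W) +
          (V * (1 - W * V).adjugate * W - V * W * (V * (1 - W * V).adjugate * W)) := by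
      rw [Matrix.mul_add, Matrix.sub_mul, Matrix.sub_mul, Matrix.mul_smul, Matrix.mul_smul,
        Matrix.mul_one, Matrix.mul_one, Matrix.one_mul]
    rw [h5, ← h4, h3]
    abel
  obtain ⟨Y, hY⟩ : ∃ Y : Matrix ι ι S, Y = D • (1 : Matrix ι ι S) + V * (1 - W * V).adjugate * W :=
    ⟨_, rfl⟩
  obtain ⟨Z, hZ⟩ : ∃ Z : Matrix ι ι S, Z = 1 - V * W := ⟨_, rfl⟩
  rw [← hY, ← hZ] at h2
  rw [← hZ] at hdet
  rw [← hY, ← hZ]
  have h6 : D • Y = D • Z.adjugate := by
    have e1 : Z.adjugate * (Z * Y) = D • Y := by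
      rw [← Matrix.mul_assoc, Matrix.adjugate_mul, hdet, Matrix.smul_mul, Matrix.one_mul]
    rw [← e1, h2, Matrix.mul_smul, Matrix.mul_one]
  ext i j
  have h7 := congrFun (congrFun h6 i) j
  simp only [Matrix.smul_apply, smul_eq_mul] at h7
  have h8 := mul_left_cancel₀ h h7
  exact h8.symm

theorem adj_one {ι κ : Type} [Fintype ι] [DecidableEq ι]
    [Fintype κ] [DecidableEq κ] (V : Matrix ι κ ℂ) (W : Matrix κ ι ℂ) :
    (1 - V * W).adjugate = (1 - W * V).det • (1 : Matrix ι ι ℂ) +
      V * (1 - W * V).adjugate * W := by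
  classical
  let V' : Matrix ι κ (Polynomial ℂ) := (Polynomial.X : Polynomial ℂ) • V.map Polynomial.C
  let W' : Matrix κ ι (Polynomial ℂ) := W.map Polynomial.C
  have hev : ∀ z : ℂ, V'.map (Polynomial.evalRingHom z) = z • V := by
    intro z
    ext i j
    simp only [V', Matrix.map_apply, Matrix.smul_apply, smul_eq_mul, Polynomial.coe_evalRingHom]
    rw [Polynomial.eval_mul, Polynomial.eval_X, Polynomial.eval_C]
  have hew : ∀ z : ℂ, W'.map (Polynomial.evalRingHom z) = W := by
    intro z
    ext i j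
    simp [W']
  have hWV : ∀ z : ℂ, (1 - W' * V').map (Polynomial.evalRingHom z) = 1 - W * (z • V) := by
    intro z
    have h1 : (1 - W' * V').map (Polynomial.evalRingHom z) =
        (Polynomial.evalRingHom z).mapMatrix (1 - W' * V') := rfl
    rw [h1, map_sub, map_one, RingHom.mapMatrix_apply, Matrix.map_mul, hev, hew]
  have hVW : ∀ z : ℂ, (1 - V' * W').map (Polynomial.evalRingHom z) = 1 - (z • V) * W := by
    intro z
    have h1 : (1 - V' * W').map (Polynomial.evalRingHom z) =
        (Polynomial.evalRingHom z).mapMatrix (1 - V' * W') := rfl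
    rw [h1, map_sub, map_one, RingHom.mapMatrix_apply, Matrix.map_mul, hev, hew]
  have hne : (1 - W' * V').det ≠ 0 := by
    intro h0
    have h1 : (Polynomial.evalRingHom (0 : ℂ)) (1 - W' * V').det = 0 := by rw [h0, map_zero]
    rw [RingHom.map_det, RingHom.mapMatrix_apply, hWV] at h1
    simp at h1
  have key := adj_dom V' W' hne
  have key2 := congrArg (fun M : Matrix ι ι (Polynomial ℂ) =>
    M.map (Polynomial.evalRingHom (1 : ℂ))) key
  have e1 : ((1 - V' * W').adjugate).map (Polynomial.evalRingHom (1 : ℂ)) =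
      (1 - V * W).adjugate := by
    have h1 := RingHom.map_adjugate (Polynomial.evalRingHom (1 : ℂ)) (1 - V' * W')
    rw [RingHom.mapMatrix_apply, RingHom.mapMatrix_apply, hVW, one_smul] at h1
    exact h1
  have e2 : ((1 - W' * V').adjugate).map (Polynomial.evalRingHom (1 : ℂ)) =
      (1 - W * V).adjugate := by
    have h1 := RingHom.map_adjugate (Polynomial.evalRingHom (1 : ℂ)) (1 - W' * V')
    rw [RingHom.mapMatrix_apply, RingHom.mapMatrix_apply, hWV, one_smul] at h1
    exact h1
  have e3 : (Polynomial.evalRingHom (1 : ℂ)) (1 - W' * V').det = (1 - W * V).det := by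
    rw [RingHom.map_det, RingHom.mapMatrix_apply, hWV, one_smul]
  have e4 : ((1 - W' * V').det • (1 : Matrix ι ι (Polynomial ℂ)) +
      V' * (1 - W' * V').adjugate * W').map (Polynomial.evalRingHom (1 : ℂ)) =
      (1 - W * V).det • (1 : Matrix ι ι ℂ) + V * (1 - W * V).adjugate * W := by
    rw [Matrix.map_add _ (fun a b => map_add _ a b), Matrix.map_mul, Matrix.map_mul, e2, hev, hew,
      one_smul]
    congr 1
    ext i j
    rw [Matrix.map_apply, Matrix.smul_apply, Matrix.smul_apply, smul_eq_mul, smul_eq_mul, map_mul,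
      e3]
    by_cases hij : i = j
    · subst hij; simp
    · simp [Matrix.one_apply_ne hij]
  rw [e1, e4] at key2
  exact key2

/-- [Rk2] -/
theorem thm_Rk2 : St_Rk2 := by
  intro ι _ _ L R U W hLR
  have hfac : L - U * W = L * (1 - R * U * W) := by
    rw [Matrix.mul_sub, Matrix.mul_one, ← Matrix.mul_assoc, ← Matrix.mul_assoc, hLR,
      Matrix.one_mul]
  have hcomm : (1 - R * U * W).det = (1 - W * R * U).det := by
    rw [Matrix.det_one_sub_mul_comm, Matrix.mul_assoc]
  refine ⟨?_, ?_⟩
  · have hadjL : L.adjugate = L.det • R := by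
      calc L.adjugate = L.adjugate * (L * R) := by rw [hLR, Matrix.mul_one]
        _ = L.det • R := by
          rw [← Matrix.mul_assoc, Matrix.adjugate_mul, Matrix.smul_mul, Matrix.one_mul]
    rw [hfac, Matrix.adjugate_mul_distrib, hadjL, adj_one (R * U) W, Matrix.mul_smul]
    congr 1
    rw [Matrix.add_mul, Matrix.smul_mul, Matrix.one_mul, ← Matrix.mul_assoc W R U]
  · rw [hfac, Matrix.det_mul, hcomm]

end Pool.Agent.PCW
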