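import Pool.Agent.PCW.StN
import Pool.Agent.GBQ.Bridge
import Pool.Agent.GBQ.Bonf
import Pool.Agent.MT.Wt

set_option autoImplicit false

/-!
# PCW / Smn

Minor arcs for the sieve model with a constant limit `z`.
-/

namespace Pool.Agent.PCW

open Finset Filter
open Pool.Agent.GBQ
open Pool.Agent.MT

private theorem Smn_abel_id (f : ℕ → ℂ) (g : ℕ → ℝ) (K : ℕ) (hK : 1 ≤ K) :
    ∑ k ∈ Icc 1 K, f k * ((g k : ℝ) : ℂ) = (∑ k ∈ Icc 1 K, f k) * ((g K : ℝ) : ℂ) -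
      ∑ k ∈ Ico 1 K, (∑ j ∈ Icc 1 k, f j) * (((g (k + 1) - g k : ℝ)) : ℂ) := by
  induction K, hK using Nat.le_induction with
  | base => simp
  | succ K hK ih =>
    rw [sum_Icc_succ_top (by omega), sum_Icc_succ_top (by omega), sum_Ico_succ_top hK, ih]
    push_cast
    ring

private theorem Smn_abel (f : ℕ → ℂ) (g : ℕ → ℝ) (B : ℝ) (K : ℕ) (hK : 1 ≤ K)
    (hB : ∀ k, k ≤ K → ‖∑ j ∈ Icc 1 k, f j‖ ≤ B) :
    ‖∑ k ∈ Icc 1 K, f k * ((g k : ℝ) : ℂ)‖ ≤
      B * (|g K| + ∑ k ∈ Ico 1 K, |g (k + 1) - g k|) := by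
  rw [Smn_abel_id f g K hK]
  calc _ ≤ ‖(∑ k ∈ Icc 1 K, f k) * ((g K : ℝ) : ℂ)‖ +
        ‖∑ k ∈ Ico 1 K, (∑ j ∈ Icc 1 k, f j) * (((g (k + 1) - g k : ℝ)) : ℂ)‖ := norm_sub_le _ _
    _ ≤ B * |g K| + ∑ k ∈ Ico 1 K, B * |g (k + 1) - g k| := by
        apply add_le_add
        · rw [norm_mul, Complex.norm_real, Real.norm_eq_abs]
          exact mul_le_mul_of_nonneg_right (hB K le_rfl) (abs_nonneg _)
        · refine (norm_sum_le _ _).trans (sum_le_sum fun k hk => ?_)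
          rw [norm_mul, Complex.norm_real, Real.norm_eq_abs]
          exact mul_le_mul_of_nonneg_right (hB k (mem_Ico.1 hk).2.le) (abs_nonneg _)
    _ = _ := by rw [mul_add, mul_sum]

private theorem Smn_gm_nonneg {K θ : ℝ} (hK : 0 ≤ K) : 0 ≤ gm K θ := by
  unfold gm
  split_ifs with h
  · exact hK
  · refine le_min hK ?_
    have : 0 ≤ nd θ := abs_nonneg _
    positivity

private theorem Smn_gm_mono {K K' θ : ℝ} (h : K ≤ K') : gm K θ ≤ gm K' θ := by
  unfold gm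
  split_ifs with h0
  · exact h
  · exact min_le_min_right _ h

/-- one modulus -/
private theorem Smn_inner (h2 : St_Geo) {η : ℝ → ℝ} (hη : IsWt η) {L : ℝ} (hL0 : 0 ≤ L)
    (hL : ∀ x y : ℝ, |η x - η y| ≤ L * |x - y|) {X e : ℕ} (hX : 1 ≤ X) (he : 1 ≤ e) (α : ℝ) :
    ‖∑ x ∈ (range (X + 1)).filter (fun x => e ∣ x), ((η ((x : ℝ) / X) : ℝ) : ℂ) * ee (α * x)‖ ≤
      (1 + L) * gm ((X : ℝ) / e) (α * e) := by
  have hX0 : (0 : ℝ) < X := by exact_mod_cast hX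
  have he0 : (0 : ℝ) < e := by exact_mod_cast he
  set K := X / e with hK
  have hKe : (K : ℝ) * e ≤ X := by
    have := Nat.div_mul_le_self X e
    exact_mod_cast this
  have hKX : (K : ℝ) ≤ (X : ℝ) / e := by
    rw [le_div_iff₀ he0]; exact hKe
  have hη0 : η 0 = 0 := wt_zero_of_small η hη 0 (by norm_num)
  have e1 : ∑ x ∈ (range (X + 1)).filter (fun x => e ∣ x), ((η ((x : ℝ) / X) : ℝ) : ℂ) * ee (α * x)
      = ∑ k ∈ Icc 1 K, ee (α * e * k) * ((η (((e * k : ℕ) : ℝ) / X) : ℝ) : ℂ) := by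
    rw [← sum_subset (s₁ := (Icc 1 K).image (fun k => e * k))]
    · rw [sum_image]
      · refine sum_congr rfl fun k _ => ?_
        have : α * ((e * k : ℕ) : ℝ) = α * e * k := by push_cast; ring
        rw [this, mul_comm]
      · intro a _ b _ hab
        exact Nat.eq_of_mul_eq_mul_left he hab
    · intro x hx
      obtain ⟨k, hk, rfl⟩ := mem_image.1 hx
      rw [mem_Icc] at hk
      rw [mem_filter, mem_range]
      refine ⟨?_, dvd_mul_right _ _⟩
      have : e * k ≤ X := by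
        calc e * k ≤ e * (X / e) := Nat.mul_le_mul_left _ hk.2
          _ ≤ X := Nat.mul_div_le X e
      omega
    · intro x hx hx'
      rw [mem_filter, mem_range] at hx
      obtain ⟨hx1, k, rfl⟩ := hx
      have hk0 : k = 0 := by
        by_contra h0
        apply hx'
        refine mem_image.2 ⟨k, mem_Icc.2 ⟨by omega, ?_⟩, rfl⟩
        rw [hK, Nat.le_div_iff_mul_le he, mul_comm]
        omega
      subst hk0
      simp [hη0]
  rw [e1]
  have hg0 : 0 ≤ gm ((X : ℝ) / e) (α * e) := Smn_gm_nonneg (by positivity)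
  rcases Nat.eq_zero_or_pos K with h0 | hKpos
  · rw [h0]
    simp only [show Icc 1 0 = (∅ : Finset ℕ) from rfl, sum_empty, norm_zero]
    exact mul_nonneg (by linarith) hg0
  · have hS : ∀ k, k ≤ K → ‖∑ j ∈ Icc 1 k, ee (α * e * j)‖ ≤ gm ((X : ℝ) / e) (α * e) := by
      intro k hk
      have h3 := h2 0 k (α * e) (Nat.zero_le _)
      have h4 : Ioc 0 k = Icc 1 k := by ext x; simp only [mem_Ioc, mem_Icc]; omega
      rw [h4] at h3
      refine h3.trans (Smn_gm_mono ?_)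
      have h5 : (k : ℝ) ≤ K := by exact_mod_cast hk
      push_cast
      linarith
    have h3 := Smn_abel (fun k => ee (α * e * k)) (fun k => η (((e * k : ℕ) : ℝ) / X)) _ K hKpos
      hS
    refine h3.trans ?_
    rw [mul_comm (1 + L)]
    refine mul_le_mul_of_nonneg_left ?_ hg0
    have h4 : |η (((e * K : ℕ) : ℝ) / X)| ≤ 1 := by
      rw [abs_of_nonneg (hη.nonneg _)]
      exact hη.le_one _
    have h5 : ∑ k ∈ Ico 1 K, |η (((e * (k + 1) : ℕ) : ℝ) / X) - η (((e * k : ℕ) : ℝ) / X)| ≤ L := by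
      have h6 : ∀ k ∈ Ico 1 K, |η (((e * (k + 1) : ℕ) : ℝ) / X) - η (((e * k : ℕ) : ℝ) / X)| ≤
          L * (e / X) := by
        intro k _
        refine (hL _ _).trans (mul_le_mul_of_nonneg_left ?_ hL0)
        have : ((e * (k + 1) : ℕ) : ℝ) / X - ((e * k : ℕ) : ℝ) / X = e / X := by
          push_cast; ring
        rw [this, abs_of_nonneg (by positivity)]
      refine (sum_le_sum h6).trans ?_
      rw [sum_const, Nat.card_Ico, nsmul_eq_mul]
      have h7 : ((K - 1 : ℕ) : ℝ) ≤ K := by exact_mod_cast Nat.sub_le K 1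
      have h8 : ((K - 1 : ℕ) : ℝ) * (e / X) ≤ 1 := by
        rw [← mul_div_assoc, div_le_one hX0]
        exact (mul_le_mul_of_nonneg_right h7 he0.le).trans hKe
      calc ((K - 1 : ℕ) : ℝ) * (L * (e / X)) = L * (((K - 1 : ℕ) : ℝ) * (e / X)) := by ring
        _ ≤ L * 1 := mul_le_mul_of_nonneg_left h8 hL0
        _ = L := mul_one L
    linarith

private theorem Smn_prod_dvd {z : ℕ} {T : Finset ℕ} (hT : T ⊆ pr z) (x : ℕ) :
    (∀ p ∈ T, p ∣ x) ↔ (∏ p ∈ T, p) ∣ x := by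
  constructor
  · intro h
    exact Finset.prod_primes_dvd x (fun p hp => (mem_pr.1 (hT hp)).2.prime) h
  · intro h p hp
    exact (dvd_prod_of_mem _ hp).trans h

private theorem Smn_prod_pos {z : ℕ} {T : Finset ℕ} (hT : T ⊆ pr z) : 1 ≤ ∏ p ∈ T, p :=
  Nat.one_le_iff_ne_zero.2 (prod_ne_zero_iff.2 fun _ hp => (mem_pr.1 (hT hp)).2.ne_zero)

/-- the full sum over `T` -/
private theorem Smn_main (h2 : St_Geo) {η : ℝ → ℝ} (hη : IsWt η) {L : ℝ} (hL0 : 0 ≤ L)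
    (hL : ∀ x y : ℝ, |η x - η y| ≤ L * |x - y|) {X z : ℕ} (hX : 1 ≤ X) (α q : ℝ)
    (hq : ∀ T ⊆ pr z, gm ((X : ℝ) / ((∏ p ∈ T, p : ℕ) : ℝ)) (α * ((∏ p ∈ T, p : ℕ) : ℝ)) ≤ q) :
    ‖∑ x ∈ range (X + 1), ((LamS z x * η ((x : ℝ) / X) : ℝ) : ℂ) * ee (α * x)‖ ≤
      (rho z)⁻¹ * ((2 : ℝ) ^ (pr z).card * ((1 + L) * q)) := by
  classical
  have hLam : ∀ x : ℕ, LamS z x = (rho z)⁻¹ *
      ∑ T ∈ (pr z).powerset, (if (∏ p ∈ T, p) ∣ x then (-1 : ℝ) ^ T.card else 0) := by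
    intro x
    have h3 := thm_Bonf (pr z) (fun p => p ∣ x) (pr z).card
    have h4 : (pr z).powersetCard ((pr z).card + 1) = ∅ := powersetCard_eq_empty.2 (by omega)
    rw [h4, filter_empty, card_empty, Nat.cast_zero] at h3
    have h5 := abs_nonpos_iff.1 h3
    rw [sub_eq_zero] at h5
    have h6 : (pr z).powerset.filter (fun T => T.card ≤ (pr z).card ∧ ∀ p ∈ T, p ∣ x) =
        (pr z).powerset.filter (fun T => (∏ p ∈ T, p) ∣ x) := by
      refine filter_congr fun T hT => ?_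
      rw [mem_powerset] at hT
      rw [Smn_prod_dvd hT x]
      exact and_iff_right (card_le_card hT)
    rw [h6, sum_filter] at h5
    rw [← h5]
    unfold LamS
    by_cases h : Rough z x
    · rw [if_pos h, if_pos h, mul_one]
    · rw [if_neg h, if_neg h, mul_zero]
  have e1 : ∑ x ∈ range (X + 1), ((LamS z x * η ((x : ℝ) / X) : ℝ) : ℂ) * ee (α * x) =
      (((rho z)⁻¹ : ℝ) : ℂ) * ∑ T ∈ (pr z).powerset, (((-1 : ℝ) ^ T.card : ℝ) : ℂ) *
        ∑ x ∈ (range (X + 1)).filter (fun x => (∏ p ∈ T, p) ∣ x),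
          ((η ((x : ℝ) / X) : ℝ) : ℂ) * ee (α * x) := by
    have h3 : ∀ x ∈ range (X + 1), ((LamS z x * η ((x : ℝ) / X) : ℝ) : ℂ) * ee (α * x) =
        ∑ T ∈ (pr z).powerset, (((rho z)⁻¹ : ℝ) : ℂ) * ((((-1 : ℝ) ^ T.card : ℝ) : ℂ) *
          if (∏ p ∈ T, p) ∣ x then ((η ((x : ℝ) / X) : ℝ) : ℂ) * ee (α * x) else 0) := by
      intro x _
      rw [hLam x, Complex.ofReal_mul, Complex.ofReal_mul, Complex.ofReal_sum, mul_sum, sum_mul,
        sum_mul]
      refine sum_congr rfl fun T _ => ?_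
      by_cases h : (∏ p ∈ T, p) ∣ x
      · rw [if_pos h, if_pos h]
        ring
      · rw [if_neg h, if_neg h]
        simp only [Complex.ofReal_zero, mul_zero, zero_mul]
    rw [sum_congr rfl h3, sum_comm, mul_sum]
    refine sum_congr rfl fun T _ => ?_
    rw [← mul_sum, ← mul_sum, sum_filter]
  rw [e1, norm_mul, Complex.norm_real, Real.norm_eq_abs, abs_of_nonneg (inv_nonneg.2 (rho_pos z).le)]
  refine mul_le_mul_of_nonneg_left ?_ (inv_nonneg.2 (rho_pos z).le)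
  have h4 : ∀ T ∈ (pr z).powerset,
      ‖(((-1 : ℝ) ^ T.card : ℝ) : ℂ) * ∑ x ∈ (range (X + 1)).filter (fun x => (∏ p ∈ T, p) ∣ x),
          ((η ((x : ℝ) / X) : ℝ) : ℂ) * ee (α * x)‖ ≤ (1 + L) * q := by
    intro T hT
    rw [mem_powerset] at hT
    have h5 : ‖(((-1 : ℝ) ^ T.card : ℝ) : ℂ)‖ = 1 := by
      rw [Complex.norm_real, Real.norm_eq_abs, abs_pow, abs_neg, abs_one, one_pow]
    rw [norm_mul, h5, one_mul]
    refine (Smn_inner h2 hη hL0 hL hX (Smn_prod_pos hT) α).trans ?_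
    exact mul_le_mul_of_nonneg_left (hq T hT) (by linarith)
  refine (norm_sum_le _ _).trans ((sum_le_sum h4).trans ?_)
  rw [sum_const, card_powerset, nsmul_eq_mul]
  push_cast
  exact le_refl _

/-- the distance to the nearest integer -/
private theorem Smn_nd {α : ℝ} {a : ℤ} {q e : ℕ} (hgcd : Int.gcd a q = 1)
    (hα : |α - a / q| ≤ 1 / (q : ℝ) ^ 2) (he : 1 ≤ e) (heq : 2 * e ≤ q) :
    1 / (2 * (q : ℝ)) ≤ nd (α * e) := by
  have hq0 : (0 : ℝ) < q := by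
    have : 0 < q := by omega
    exact_mod_cast this
  have he0 : (0 : ℝ) < e := by exact_mod_cast he
  obtain ⟨n, hn⟩ : ∃ n : ℤ, n = round (α * e) := ⟨_, rfl⟩
  have h1 : (a * e - n * q : ℤ) ≠ 0 := by
    intro h
    have h2 : (q : ℤ) ∣ a * e := ⟨n, by linarith⟩
    have h3 : IsCoprime (q : ℤ) a := by
      rw [Int.isCoprime_iff_gcd_eq_one, Int.gcd_comm]
      exact hgcd
    have h4 : (q : ℤ) ∣ (e : ℤ) := h3.dvd_of_dvd_mul_left h2
    have h5 := Int.le_of_dvd (by exact_mod_cast he) h4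
    have h6 : q ≤ e := by exact_mod_cast h5
    omega
  have h2 : (1 : ℝ) ≤ |(a : ℝ) * e - n * q| := by
    have h3 : (1 : ℤ) ≤ |a * e - n * q| := Int.one_le_abs h1
    exact_mod_cast h3
  have h3 : |(a : ℝ) / q * e - n| = |(a : ℝ) * e - n * q| / q := by
    rw [← abs_of_pos hq0, ← abs_div, abs_of_pos hq0]
    congr 1
    field_simp
  have h4 : 1 / (q : ℝ) ≤ |(a : ℝ) / q * e - n| := by
    rw [h3]
    exact div_le_div_of_nonneg_right h2 hq0.le
  have h5 : |(α - a / q) * e| ≤ 1 / (2 * (q : ℝ)) := by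
    rw [abs_mul, abs_of_pos he0]
    have h6 : |α - a / q| * e ≤ 1 / (q : ℝ) ^ 2 * e := mul_le_mul_of_nonneg_right hα he0.le
    refine h6.trans ?_
    have h7 : (2 : ℝ) * e ≤ q := by exact_mod_cast heq
    rw [one_div_mul_eq_div, div_le_div_iff₀ (by positivity) (by positivity)]
    nlinarith
  have h6 : (a : ℝ) / q * e - n = (α * e - n) - (α - a / q) * e := by ring
  have h7 := abs_sub (α * e - n) ((α - a / q) * e)
  rw [← h6] at h7
  have h8 : 1 / (q : ℝ) = 1 / (2 * (q : ℝ)) + 1 / (2 * (q : ℝ)) := by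
    field_simp
    norm_num
  unfold nd
  rw [← hn]
  linarith

private theorem Smn_gm {K θ q : ℝ} (hq : 0 < q) (h : 1 / (2 * q) ≤ nd θ) : gm K θ ≤ q := by
  have h0 : 0 < nd θ := lt_of_lt_of_le (by positivity) h
  unfold gm
  rw [if_neg h0.ne']
  refine (min_le_right _ _).trans ?_
  rw [div_le_iff₀ (by positivity)]
  rw [div_le_iff₀ (by positivity)] at h
  linarith

theorem thm_Smn : St_Smn := by
  intro η hη z hz ε hε
  obtain ⟨L, hL0, hL⟩ := wt_lipschitz η hη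
  obtain ⟨P, hP⟩ : ∃ P : ℕ, P = ∏ p ∈ pr z, p := ⟨_, rfl⟩
  obtain ⟨M, hM⟩ : ∃ M : ℝ, M = (rho z)⁻¹ * ((2 : ℝ) ^ (pr z).card * (1 + L)) := ⟨_, rfl⟩
  have hM0 : 0 ≤ M := by
    rw [hM]
    have := inv_nonneg.2 (rho_pos z).le
    positivity
  have hlog : Tendsto (fun X : ℕ => Real.log X) atTop atTop :=
    Real.tendsto_log_atTop.comp tendsto_natCast_atTop_atTop
  filter_upwards [hlog.eventually (eventually_ge_atTop (2 * (P : ℝ))),
    hlog.eventually (eventually_ge_atTop (M / ε)), hlog.eventually (eventually_ge_atTop (1 : ℝ)),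
    eventually_ge_atTop 3] with X hX1 hX2 hX3 hX4
  intro α a q hq1 hq2 hgcd hα
  have hl0 : 0 < Real.log X := by linarith
  have hX0 : (0 : ℝ) < X := by positivity
  have hq0 : (0 : ℝ) < q := by linarith
  have hPpos : ∀ T ⊆ pr z, 1 ≤ ∏ p ∈ T, p ∧ ∏ p ∈ T, p ≤ P := by
    intro T hT
    refine ⟨Smn_prod_pos hT, ?_⟩
    rw [hP]
    refine prod_le_prod_of_subset_of_one_le' hT fun p hp _ => ?_
    exact (mem_pr.1 hp).2.one_lt.le
  have hgm : ∀ T ⊆ pr z,
      gm ((X : ℝ) / ((∏ p ∈ T, p : ℕ) : ℝ)) (α * ((∏ p ∈ T, p : ℕ) : ℝ)) ≤ q := by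
    intro T hT
    obtain ⟨h1, h2⟩ := hPpos T hT
    refine Smn_gm hq0 (Smn_nd hgcd hα h1 ?_)
    have h3 : (2 : ℝ) * ((∏ p ∈ T, p : ℕ) : ℝ) ≤ q := by
      have h4 : ((∏ p ∈ T, p : ℕ) : ℝ) ≤ (P : ℝ) := by exact_mod_cast h2
      linarith
    exact_mod_cast h3
  refine (Smn_main thm_Geo hη hL0.le hL (by omega) α q hgm).trans ?_
  have h1 : (rho z)⁻¹ * ((2 : ℝ) ^ (pr z).card * ((1 + L) * q)) = M * q := by
    rw [hM]
    ring
  rw [h1]
  have h2 : M ≤ ε * Real.log X := by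
    rw [div_le_iff₀ hε] at hX2
    linarith
  calc M * q ≤ (ε * Real.log X) * (X / Real.log X) :=
        mul_le_mul h2 hq2 hq0.le (by positivity)
    _ = ε * X := by
        field_simp

end Pool.Agent.PCW
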