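import Mathlib
import Pool.Agent.PCW.StN
import Pool.Agent.GBQ.Basic

set_option autoImplicit false

/-!
# PCW Spc: the spectral bound for the prime matrix (section 6.4 of the paper)
-/

namespace Pool.Agent.PCW

open Finset Filter
open Pool.Agent.PC (PA dd)
open Pool.Agent.GBQ (lam LamS ee)
open Pool.Agent.MT (IsWt)

/-- the Hankel form of the sequence `g` -/
private noncomputable def Spc_Q (m : ℕ) (f g : ℕ → ℝ) : ℝ :=
  ∑ i ∈ range m, ∑ j ∈ range m, f i * f j * g (2 * (i + j) + 3)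

private theorem Spc_Q_add (m : ℕ) (f g h : ℕ → ℝ) :
    Spc_Q m f (fun n => g n + h n) = Spc_Q m f g + Spc_Q m f h := by
  unfold Spc_Q
  rw [← sum_add_distrib]
  refine sum_congr rfl fun i _ => ?_
  rw [← sum_add_distrib]
  refine sum_congr rfl fun j _ => ?_
  ring

private theorem Spc_Q_mul (m : ℕ) (f g : ℕ → ℝ) (c : ℝ) :
    Spc_Q m f (fun n => c * g n) = c * Spc_Q m f g := by
  unfold Spc_Q
  rw [mul_sum]
  refine sum_congr rfl fun i _ => ?_
  rw [mul_sum]
  refine sum_congr rfl fun j _ => ?_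
  ring

private theorem Spc_Q_congr (m : ℕ) (f g h : ℕ → ℝ)
    (hgh : ∀ n, 3 ≤ n → n ≤ 4 * m → g n = h n) : Spc_Q m f g = Spc_Q m f h := by
  unfold Spc_Q
  refine sum_congr rfl fun i hi => sum_congr rfl fun j hj => ?_
  rw [mem_range] at hi hj
  rw [hgh _ (by omega) (by omega)]

/-- the Schur test -/
private theorem Spc_schur (m : ℕ) (f g : ℕ → ℝ) (R : ℝ)
    (hR : ∀ i < m, ∑ j ∈ range m, |g (2 * (i + j) + 3)| ≤ R) :
    |Spc_Q m f g| ≤ R * ∑ i ∈ range m, f i ^ 2 := by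
  unfold Spc_Q
  have h1 : |∑ i ∈ range m, ∑ j ∈ range m, f i * f j * g (2 * (i + j) + 3)| ≤
      ∑ i ∈ range m, ∑ j ∈ range m, (f i ^ 2 / 2 * |g (2 * (i + j) + 3)| +
        f j ^ 2 / 2 * |g (2 * (i + j) + 3)|) := by
    refine (abs_sum_le_sum_abs _ _).trans (sum_le_sum fun i _ => ?_)
    refine (abs_sum_le_sum_abs _ _).trans (sum_le_sum fun j _ => ?_)
    rw [abs_mul, ← add_mul]
    refine mul_le_mul_of_nonneg_right ?_ (abs_nonneg _)
    rw [abs_le]
    constructor
    · nlinarith [sq_nonneg (f i + f j)]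
    · nlinarith [sq_nonneg (f i - f j)]
  have h2 : ∑ i ∈ range m, ∑ j ∈ range m, (f i ^ 2 / 2 * |g (2 * (i + j) + 3)| +
        f j ^ 2 / 2 * |g (2 * (i + j) + 3)|) =
      ∑ i ∈ range m, f i ^ 2 / 2 * ∑ j ∈ range m, |g (2 * (i + j) + 3)| +
      ∑ i ∈ range m, f i ^ 2 / 2 * ∑ j ∈ range m, |g (2 * (i + j) + 3)| := by
    have h3 : ∑ i ∈ range m, ∑ j ∈ range m, f j ^ 2 / 2 * |g (2 * (i + j) + 3)| =
        ∑ i ∈ range m, f i ^ 2 / 2 * ∑ j ∈ range m, |g (2 * (i + j) + 3)| := by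
      rw [sum_comm]
      refine sum_congr rfl fun i _ => ?_
      rw [mul_sum]
      refine sum_congr rfl fun j _ => ?_
      rw [add_comm j i]
    have h4 : ∑ i ∈ range m, ∑ j ∈ range m, f i ^ 2 / 2 * |g (2 * (i + j) + 3)| =
        ∑ i ∈ range m, f i ^ 2 / 2 * ∑ j ∈ range m, |g (2 * (i + j) + 3)| :=
      sum_congr rfl fun i _ => (mul_sum _ _ _).symm
    simp only [sum_add_distrib]
    rw [h3, h4]
  have h5 : ∑ i ∈ range m, f i ^ 2 / 2 * ∑ j ∈ range m, |g (2 * (i + j) + 3)| ≤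
      ∑ i ∈ range m, f i ^ 2 / 2 * R := by
    refine sum_le_sum fun i hi => ?_
    exact mul_le_mul_of_nonneg_left (hR i (mem_range.1 hi)) (by positivity)
  have h6 : ∑ i ∈ range m, f i ^ 2 / 2 * R = R * (∑ i ∈ range m, f i ^ 2) / 2 := by
    rw [mul_sum, sum_div]
    refine sum_congr rfl fun i _ => ?_
    ring
  rw [h2] at h1
  linarith

private theorem Spc_row (m : ℕ) (g : ℕ → ℝ) (hg : ∀ n, 0 ≤ g n) (i : ℕ) (hi : i < m) :
    ∑ j ∈ range m, g (2 * (i + j) + 3) ≤ ∑ n ∈ range (4 * m + 1), g n := by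
  have hinj : Set.InjOn (fun j : ℕ => 2 * (i + j) + 3) (range m : Finset ℕ) := by
    intro a _ b _ hab
    simp only at hab
    omega
  have h1 : ∑ j ∈ range m, g (2 * (i + j) + 3) =
      ∑ n ∈ (range m).image (fun j : ℕ => 2 * (i + j) + 3), g n :=
    (sum_image (f := g) (fun a ha b hb hab => hinj ha hb hab)).symm
  rw [h1]
  refine sum_le_sum_of_subset_of_nonneg ?_ fun n _ _ => hg n
  intro n hn
  rw [mem_image] at hn
  obtain ⟨j, hj, rfl⟩ := hn
  rw [mem_range] at hj ⊢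
  omega

private theorem Spc_tel (S η : ℝ → ℝ) (h : ∀ y, η y = S y - S (22 / 75 * y)) (y : ℕ → ℝ)
    (hy : ∀ k, 22 / 75 * y (k + 1) = y k) (K : ℕ) :
    ∑ k ∈ range (K + 1), η (y k) = S (y K) - S (22 / 75 * y 0) := by
  induction K with
  | zero => simp [h]
  | succ K ih => rw [sum_range_succ, ih, h (y (K + 1)), hy K]; ring

private theorem Spc_geom (K : ℕ) : ∑ k ∈ range (K + 1), (22 / 75 : ℝ) ^ k ≤ 3 / 2 := by
  have h : ∀ n : ℕ, ∑ k ∈ range n, (22 / 75 : ℝ) ^ k = 75 / 53 - 75 / 53 * (22 / 75 : ℝ) ^ n := by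
    intro n
    induction n with
    | zero => simp
    | succ n ih => rw [sum_range_succ, ih, pow_succ]; ring
  rw [h]
  have : (0 : ℝ) < (22 / 75 : ℝ) ^ (K + 1) := by positivity
  linarith

/-- the first part -/
private theorem Spc_first (h1 : St_Ssp) (h3 : St_Hnk) (η : ℝ → ℝ) (hη : IsWt η) (ε₁ : ℝ)
    (hε₁ : 0 < ε₁) : ∃ z : ℕ, 3 ≤ z ∧ ∀ K : ℕ, ∀ᶠ m : ℕ in atTop, ∃ Y : ℝ, 16 * (m : ℝ) / 3 ≤ Y ∧
      Y ≤ 6 * m ∧ ∀ f : ℕ → ℝ, |Spc_Q m f (fun n => ∑ k ∈ range (K + 1),
        (lam n - LamS z n) * η ((n : ℝ) / (Y * (22 / 75) ^ k)))| ≤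
        9 * ε₁ * m * ∑ i ∈ range m, f i ^ 2 := by
  obtain ⟨z, hz, hX⟩ := h1 η hη ε₁ hε₁
  refine ⟨z, hz, fun K => ?_⟩
  obtain ⟨X₀, hX₀⟩ := eventually_atTop.1 hX
  refine eventually_atTop.2 ⟨X₀ * 75 ^ K + 3 * 75 ^ K + 1, fun m hm => ?_⟩
  have h75 : (0 : ℝ) < 75 ^ K := by positivity
  have h75n : 0 < 75 ^ K := by positivity
  have hm0 : (0 : ℝ) < m := by
    have : 0 < m := by omega
    exact_mod_cast this
  set M : ℕ := ⌈16 * (m : ℝ) / (3 * 75 ^ K)⌉₊ with hM
  have hM1 : 16 * (m : ℝ) / (3 * 75 ^ K) ≤ M := Nat.le_ceil _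
  have hM2 : (M : ℝ) < 16 * (m : ℝ) / (3 * 75 ^ K) + 1 :=
    Nat.ceil_lt_add_one (by positivity)
  have hmR : (X₀ : ℝ) * 75 ^ K + 3 * 75 ^ K + 1 ≤ m := by exact_mod_cast hm
  set Y : ℝ := 75 ^ K * M with hY
  have hY1 : 16 * (m : ℝ) / 3 ≤ Y := by
    rw [div_le_iff₀ (by positivity)] at hM1
    rw [hY]
    linarith
  have hY2 : Y ≤ 6 * m := by
    have h : (M : ℝ) * 75 ^ K < (16 * (m : ℝ) / (3 * 75 ^ K) + 1) * 75 ^ K :=
      mul_lt_mul_of_pos_right hM2 h75
    have h' : (16 * (m : ℝ) / (3 * 75 ^ K) + 1) * 75 ^ K = 16 * m / 3 + 75 ^ K := by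
      field_simp
    have hX₀' : (0 : ℝ) ≤ (X₀ : ℝ) * 75 ^ K := by positivity
    rw [hY]
    linarith
  refine ⟨Y, hY1, hY2, fun f => ?_⟩
  -- the integers `X k`
  set X : ℕ → ℕ := fun k => 22 ^ k * 75 ^ (K - k) * M with hXdef
  have hXk : ∀ k ≤ K, (X k : ℝ) = Y * (22 / 75) ^ k := by
    intro k hk
    rw [hXdef, hY]
    push_cast
    have e : (75 : ℝ) ^ K = 75 ^ (K - k) * 75 ^ k := by
      rw [← pow_add, Nat.sub_add_cancel hk]
    rw [e, div_pow]
    field_simp
  have hMX : X₀ ≤ M := by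
    have : (X₀ : ℝ) ≤ M := by
      refine le_trans ?_ hM1
      rw [le_div_iff₀ (by positivity)]
      nlinarith
    exact_mod_cast this
  have hMpos : 0 < M := by
    have : (0 : ℝ) < M := lt_of_lt_of_le (by positivity) hM1
    exact_mod_cast this
  have hXge : ∀ k, X₀ ≤ X k := by
    intro k
    refine hMX.trans ?_
    rw [hXdef]
    exact Nat.le_mul_of_pos_left _ (by positivity)
  have hXpos : ∀ k, 0 < X k := by
    intro k
    rw [hXdef]
    positivity
  have hN : X 0 = 75 ^ K * M := by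
    rw [hXdef]
    simp
  have hXle : ∀ k ≤ K, X k ≤ X 0 := by
    intro k hk
    have h : (X k : ℝ) ≤ X 0 := by
      rw [hXk k hk, hXk 0 (Nat.zero_le _), pow_zero, mul_one]
      have hYpos : 0 ≤ Y := by rw [hY]; positivity
      have : (22 / 75 : ℝ) ^ k ≤ 1 := pow_le_one₀ (by norm_num) (by norm_num)
      nlinarith
    exact_mod_cast h
  have h4m : 4 * m ≤ X 0 := by
    have h : (4 * m : ℝ) ≤ X 0 := by
      rw [hXk 0 (Nat.zero_le _), pow_zero, mul_one]
      linarith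
    exact_mod_cast h
  have hfin := h3 m (X 0) (fun n => ∑ k ∈ range (K + 1),
        (lam n - LamS z n) * η ((n : ℝ) / (Y * (22 / 75) ^ k))) (9 * ε₁ * m) f h4m ?_
  · exact hfin
  intro α
  have e1 : ∑ n ∈ range (X 0 + 1), (((∑ k ∈ range (K + 1),
        (lam n - LamS z n) * η ((n : ℝ) / (Y * (22 / 75) ^ k)) : ℝ)) : ℂ) * ee (α * n) =
      ∑ k ∈ range (K + 1), ∑ n ∈ range (X 0 + 1),
        (((lam n - LamS z n) * η ((n : ℝ) / (Y * (22 / 75) ^ k)) : ℝ) : ℂ) * ee (α * n) := by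
    rw [sum_comm]
    refine sum_congr rfl fun n _ => ?_
    rw [Complex.ofReal_sum, sum_mul]
  have e2 : ∀ k ∈ range (K + 1), ‖∑ n ∈ range (X 0 + 1),
        (((lam n - LamS z n) * η ((n : ℝ) / (Y * (22 / 75) ^ k)) : ℝ) : ℂ) * ee (α * n)‖ ≤
      ε₁ * (Y * (22 / 75) ^ k) := by
    intro k hk
    have hk' : k ≤ K := by
      rw [mem_range] at hk
      omega
    have e3 : ∑ n ∈ range (X 0 + 1),
        (((lam n - LamS z n) * η ((n : ℝ) / (Y * (22 / 75) ^ k)) : ℝ) : ℂ) * ee (α * n) =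
        ∑ n ∈ range (X k + 1),
        (((lam n - LamS z n) * η ((n : ℝ) / X k) : ℝ) : ℂ) * ee (α * n) := by
      rw [← hXk k hk']
      symm
      refine sum_subset ?_ ?_
      · intro n hn
        rw [mem_range] at hn ⊢
        have := hXle k hk'
        omega
      · intro n _ hn
        rw [mem_range, not_lt] at hn
        have hz0 : η ((n : ℝ) / X k) = 0 := by
          by_contra hne
          have h7 := (hη.supp _ hne).2
          have hXk0 : (0 : ℝ) < X k := by exact_mod_cast hXpos k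
          rw [div_lt_iff₀ hXk0] at h7
          have hn' : ((X k : ℝ) + 1) ≤ n := by exact_mod_cast hn
          linarith
        rw [hz0]
        simp
    rw [e3, ← hXk k hk']
    exact hX₀ (X k) (hXge k) α
  calc ‖∑ n ∈ range (X 0 + 1), (((∑ k ∈ range (K + 1),
        (lam n - LamS z n) * η ((n : ℝ) / (Y * (22 / 75) ^ k)) : ℝ)) : ℂ) * ee (α * n)‖
      ≤ ∑ k ∈ range (K + 1), ε₁ * (Y * (22 / 75) ^ k) := by
        rw [e1]
        exact (norm_sum_le _ _).trans (sum_le_sum e2)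
    _ = ε₁ * Y * ∑ k ∈ range (K + 1), (22 / 75 : ℝ) ^ k := by
        rw [mul_sum]
        refine sum_congr rfl fun k _ => ?_
        ring
    _ ≤ ε₁ * (6 * m) * (3 / 2) := by
        have hYpos : 0 ≤ Y := by rw [hY]; positivity
        refine mul_le_mul ?_ (Spc_geom K) (by positivity) (by positivity)
        exact mul_le_mul_of_nonneg_left hY2 hε₁.le
    _ = 9 * ε₁ * m := by ring

private theorem Spc_lam_prime {n : ℕ} (hn : n.Prime) : lam n = Real.log n :=
  ArithmeticFunction.vonMangoldt_apply_prime hn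

/-- the pointwise bound for the fourth part -/
private theorem Spc_pt (m n : ℕ) (δ s : ℝ) (hm : 3 ≤ m) (hδ : 0 < δ) (hδ1 : δ ≤ 1)
    (hs0 : 0 ≤ s) (hs1 : s ≤ 1) (hs : δ * m ≤ n → s = 1) (hn : n ≤ 4 * m)
    (hsq : √(m : ℝ) ≤ δ * m) :
    |(if n.Prime then Real.log m else 0) - lam n * s| ≤
      (if n.Prime then 0 else lam n) + (if (n : ℝ) < δ * m then 3 * lam n else 0) +
      (if (n : ℝ) ≤ √m then Real.log m else 0) +
      2 * (Real.log 4 - Real.log δ) / Real.log m * lam n := by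
  have hmR : (3 : ℝ) ≤ m := by exact_mod_cast hm
  have hlm : 0 < Real.log m := Real.log_pos (by linarith)
  have hl0 : 0 ≤ lam n := Pool.Agent.GBQ.lam_nonneg n
  have hD : 0 ≤ Real.log 4 - Real.log δ := by
    have h1 : Real.log δ ≤ 0 := Real.log_nonpos hδ.le hδ1
    have h2 : 0 ≤ Real.log 4 := Real.log_nonneg (by norm_num)
    linarith
  have ht4 : 0 ≤ 2 * (Real.log 4 - Real.log δ) / Real.log m * lam n := by positivity
  have ht3 : 0 ≤ (if (n : ℝ) ≤ √m then Real.log m else 0) := by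
    split_ifs
    · exact hlm.le
    · exact le_refl _
  have ht2 : 0 ≤ (if (n : ℝ) < δ * m then 3 * lam n else 0) := by
    split_ifs
    · linarith
    · exact le_refl _
  by_cases hp : n.Prime
  · rw [if_pos hp, if_pos hp]
    have hln : lam n = Real.log n := Spc_lam_prime hp
    have hn2 : (2 : ℝ) ≤ n := by exact_mod_cast hp.two_le
    have hn0 : (0 : ℝ) < n := by linarith
    have hlsq : √(m : ℝ) ≤ n → Real.log m ≤ 2 * lam n := by
      intro h
      rw [hln]
      have h1 : Real.log (√(m : ℝ)) ≤ Real.log n := Real.log_le_log (by positivity) h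
      rw [Real.log_sqrt (by positivity)] at h1
      linarith
    by_cases hd : (n : ℝ) < δ * m
    · rw [if_pos hd]
      have habs : |Real.log m - lam n * s| ≤ Real.log m + lam n := by
        rw [abs_le]
        constructor
        · nlinarith
        · nlinarith
      by_cases hq : (n : ℝ) ≤ √m
      · rw [if_pos hq]
        linarith
      · rw [if_neg hq]
        have := hlsq (not_le.1 hq).le
        linarith
    · rw [if_neg hd]
      have hge : δ * m ≤ n := not_lt.1 hd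
      rw [hs hge, mul_one]
      have h2 := hlsq (hsq.trans hge)
      have hlow : Real.log δ + Real.log m ≤ lam n := by
        rw [hln, ← Real.log_mul hδ.ne' (by positivity)]
        exact Real.log_le_log (by positivity) hge
      have hupp : lam n ≤ Real.log 4 + Real.log m := by
        rw [hln, ← Real.log_mul (by norm_num) (by positivity)]
        refine Real.log_le_log hn0 ?_
        exact_mod_cast hn
      have h4 : 0 ≤ Real.log 4 := Real.log_nonneg (by norm_num)
      have h5 : Real.log δ ≤ 0 := Real.log_nonpos hδ.le hδ1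
      have habs : |Real.log m - lam n| ≤ Real.log 4 - Real.log δ := by
        rw [abs_le]
        constructor <;> linarith
      have h6 : Real.log 4 - Real.log δ ≤
          2 * (Real.log 4 - Real.log δ) / Real.log m * lam n := by
        rw [div_mul_eq_mul_div, le_div_iff₀ hlm]
        nlinarith
      linarith
  · rw [if_neg hp, if_neg hp]
    have : |0 - lam n * s| ≤ lam n := by
      rw [zero_sub, abs_neg, abs_of_nonneg (by positivity)]
      nlinarith
    linarith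

private theorem Spc_count (x : ℝ) (hx : 0 ≤ x) (N : ℕ) (c : ℝ) (hc : 0 ≤ c) :
    ∑ n ∈ range N, (if (n : ℝ) ≤ x then c else 0) ≤ c * (x + 1) := by
  rw [← sum_filter, sum_const, nsmul_eq_mul, mul_comm]
  refine mul_le_mul_of_nonneg_left ?_ hc
  have h1 : (range N).filter (fun n : ℕ => (n : ℝ) ≤ x) ⊆ range (⌊x⌋₊ + 1) := by
    intro n hn
    rw [mem_filter] at hn
    rw [mem_range, Nat.lt_add_one_iff]
    exact Nat.le_floor hn.2
  have h2 := card_le_card h1
  rw [card_range] at h2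
  have h3 : (((range N).filter (fun n : ℕ => (n : ℝ) ≤ x)).card : ℝ) ≤ (⌊x⌋₊ : ℝ) + 1 := by
    exact_mod_cast h2
  have h4 := Nat.floor_le hx
  linarith

private theorem Spc_psi (x : ℝ) (hx : 0 ≤ x) (N : ℕ) :
    ∑ n ∈ range N, (if (n : ℝ) ≤ x then lam n else 0) ≤ 6 * x := by
  have h1 : ∑ n ∈ range N, (if (n : ℝ) ≤ x then lam n else 0) ≤ Chebyshev.psi x := by
    rw [← sum_filter]
    unfold Chebyshev.psi
    have hsub : ((range N).filter (fun n : ℕ => (n : ℝ) ≤ x)).erase 0 ⊆ Ioc 0 ⌊x⌋₊ := by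
      intro n hn
      rw [mem_erase, mem_filter] at hn
      rw [mem_Ioc]
      exact ⟨Nat.pos_of_ne_zero hn.1, Nat.le_floor hn.2.2⟩
    have e : ∑ n ∈ (range N).filter (fun n : ℕ => (n : ℝ) ≤ x), lam n =
        ∑ n ∈ ((range N).filter (fun n : ℕ => (n : ℝ) ≤ x)).erase 0, lam n :=
      (sum_erase _ Pool.Agent.GBQ.lam_zero).symm
    rw [e]
    exact sum_le_sum_of_subset_of_nonneg hsub fun n _ _ => Pool.Agent.GBQ.lam_nonneg n
  have h2 := Chebyshev.psi_le_const_mul_self hx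
  have h3 : Real.log 4 ≤ 2 := by
    have := Real.log_two_lt_d9
    have e : Real.log 4 = 2 * Real.log 2 := by
      rw [show (4 : ℝ) = 2 ^ 2 by norm_num, Real.log_pow]
      push_cast
      ring
    rw [e]
    linarith
  have h4 : (Real.log 4 + 4) * x ≤ 6 * x := mul_le_mul_of_nonneg_right (by linarith) hx
  linarith

private theorem Spc_np (N : ℕ) (hN : 1 ≤ N) :
    ∑ n ∈ range (N + 1), (if n.Prime then 0 else lam n) ≤ 2 * √(N : ℝ) * Real.log N := by
  have h1 := Chebyshev.psi_sub_theta_le (x := (N : ℝ)) (by exact_mod_cast hN)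
  rw [Chebyshev.psi_sub_theta_eq_sum_not_prime] at h1
  refine le_trans (le_of_eq ?_) h1
  rw [Nat.floor_natCast]
  have e : ∀ n : ℕ, (if n.Prime then (0 : ℝ) else lam n) = if ¬ n.Prime then lam n else 0 := by
    intro n
    by_cases h : n.Prime <;> simp [h]
  simp only [e]
  rw [← sum_filter]
  symm
  refine sum_subset ?_ ?_
  · intro n hn
    rw [mem_filter, mem_Ioc] at hn
    rw [mem_filter, mem_range]
    exact ⟨by omega, hn.2⟩
  · intro n hn hn'
    rw [mem_filter, mem_range] at hn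
    rw [mem_filter, mem_Ioc] at hn'
    have : n = 0 := by
      by_contra h0
      exact hn' ⟨⟨by omega, by omega⟩, hn.2⟩
    rw [this]
    exact Pool.Agent.GBQ.lam_zero

private theorem Spc_sqrtlog (c : ℝ) (hc : 0 < c) :
    ∀ᶠ m : ℕ in atTop, √(4 * (m : ℝ)) * Real.log (4 * m) ≤ c * m := by
  have h1 := (isLittleO_log_rpow_atTop (show (0 : ℝ) < 1 / 2 by norm_num)).bound
    (show (0 : ℝ) < c / 4 by positivity)
  have ht : Tendsto (fun m : ℕ => 4 * (m : ℝ)) atTop atTop :=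
    Tendsto.const_mul_atTop (by norm_num) tendsto_natCast_atTop_atTop
  filter_upwards [ht.eventually h1] with m hm
  have h4 : (0 : ℝ) ≤ 4 * m := by positivity
  rw [← Real.sqrt_eq_rpow, Real.norm_eq_abs, Real.norm_eq_abs, abs_of_nonneg (Real.sqrt_nonneg _)]
    at hm
  have h2 := le_of_abs_le hm
  calc √(4 * (m : ℝ)) * Real.log (4 * m) ≤ √(4 * (m : ℝ)) * (c / 4 * √(4 * (m : ℝ))) :=
        mul_le_mul_of_nonneg_left h2 (Real.sqrt_nonneg _)
    _ = c / 4 * (√(4 * (m : ℝ)) * √(4 * (m : ℝ))) := by ring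
    _ = c * m := by rw [Real.mul_self_sqrt h4]; ring

/-- the spectral bound for the primes -/
theorem thm_Spc (h1 : St_Ssp) (h2 : St_Eta) (h3 : St_Hnk) (h4 : St_Mdl) : St_Spc := by
  classical
  intro ε hε
  obtain ⟨S, η, hη, hS01, hS0, hS1, hSη⟩ := h2
  obtain ⟨z, hz, hfirst⟩ := Spc_first h1 h3 η hη (ε / 100) (by positivity)
  obtain ⟨C, hC⟩ := h4 z hz
  have hz4 : (0 : ℝ) < (z : ℝ) + 1 := by positivity
  have hz4' : (4 : ℝ) ≤ (z : ℝ) + 1 := by
    have : (3 : ℝ) ≤ z := by exact_mod_cast hz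
    linarith
  obtain ⟨δ, hδ, hδ1, hδz⟩ : ∃ δ : ℝ, 0 < δ ∧ δ ≤ 1 ∧ ((z : ℝ) + 1) * δ ≤ ε / 400 := by
    refine ⟨min 1 (ε / 400 / ((z : ℝ) + 1)), by positivity, min_le_left _ _, ?_⟩
    have := min_le_right 1 (ε / 400 / ((z : ℝ) + 1))
    calc ((z : ℝ) + 1) * min 1 (ε / 400 / ((z : ℝ) + 1))
        ≤ ((z : ℝ) + 1) * (ε / 400 / ((z : ℝ) + 1)) := mul_le_mul_of_nonneg_left this hz4.le
      _ = ε / 400 := by field_simp
  have hδε : 4 * δ ≤ ε / 400 := by nlinarith
  obtain ⟨K, hK⟩ : ∃ K : ℕ, (22 / 75 : ℝ) ^ K < δ / 8 :=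
    exists_pow_lt_of_lt_one (by positivity) (by norm_num)
  set D : ℝ := Real.log 4 - Real.log δ with hD
  have hD0 : 0 ≤ D := by
    have h1 : Real.log δ ≤ 0 := Real.log_nonpos hδ.le hδ1
    have h2 : 0 ≤ Real.log 4 := Real.log_nonneg (by norm_num)
    rw [hD]
    linarith
  have hcast : Tendsto (fun m : ℕ => (m : ℝ)) atTop atTop := tendsto_natCast_atTop_atTop
  have hlogt : Tendsto (fun m : ℕ => Real.log (m : ℝ)) atTop atTop :=
    Real.tendsto_log_atTop.comp hcast
  filter_upwards [hfirst K, Spc_sqrtlog (ε / 20) (by positivity), eventually_ge_atTop 3,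
    hcast.eventually_ge_atTop (1 / δ ^ 2), hcast.eventually_ge_atTop (20 * |C| / ε),
    hcast.eventually_ge_atTop (20 * ((z : ℝ) + 1) / ε),
    hlogt.eventually_ge_atTop (1 + 480 * D / ε)] with m hm1 hm2 hm3 hm4 hm5 hm6 hm7
  intro f
  obtain ⟨Y, hY1, hY2, hQ1⟩ := hm1
  have hmR : (3 : ℝ) ≤ m := by exact_mod_cast hm3
  have hm0 : (0 : ℝ) < m := by linarith
  have hY0 : 0 < Y := by linarith
  set F : ℝ := ∑ i ∈ range m, f i ^ 2 with hF
  have hF0 : 0 ≤ F := sum_nonneg fun i _ => sq_nonneg _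
  set s : ℕ → ℝ := fun n => S ((n : ℝ) / (Y * (22 / 75) ^ K)) with hs
  -- the partition of unity
  have hpart : ∀ n : ℕ, n ≤ 4 * m → ∑ k ∈ range (K + 1), η ((n : ℝ) / (Y * (22 / 75) ^ k)) = s n := by
    intro n hn
    rw [Spc_tel S η hSη (fun k => (n : ℝ) / (Y * (22 / 75) ^ k)) ?_ K]
    · have h0 : S (22 / 75 * ((n : ℝ) / (Y * (22 / 75) ^ 0))) = 0 := by
        refine hS0 _ ?_
        rw [pow_zero, mul_one, ← mul_div_assoc, div_le_iff₀ hY0]
        have hn' : (n : ℝ) ≤ 4 * m := by exact_mod_cast hn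
        linarith
      rw [h0, sub_zero]
    · intro k
      rw [pow_succ]
      field_simp
  have hs1 : ∀ n : ℕ, δ * m ≤ (n : ℝ) → s n = 1 := by
    intro n hn
    refine hS1 _ ?_
    rw [le_div_iff₀ (by positivity)]
    have h5 : Y * (22 / 75 : ℝ) ^ K ≤ 6 * m * (δ / 8) :=
      mul_le_mul hY2 hK.le (by positivity) (by positivity)
    nlinarith [mul_pos hδ hm0]
  -- the sequences
  set g : ℕ → ℝ := fun n => if n.Prime then Real.log m else 0 with hg
  set r : ℕ → ℝ := fun n => ∑ k ∈ range (K + 1),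
        (lam n - LamS z n) * η ((n : ℝ) / (Y * (22 / 75) ^ k)) with hr
  set v : ℕ → ℝ := fun n => (g n - lam n * s n) + LamS z n * (s n - 1) with hv
  have hQg : Spc_Q m f g = Spc_Q m f r + Spc_Q m f (LamS z) + Spc_Q m f v := by
    rw [← Spc_Q_add, ← Spc_Q_add]
    refine Spc_Q_congr m f _ _ fun n _ hn => ?_
    have h6 : r n = (lam n - LamS z n) * s n := by
      rw [hr, ← hpart n hn, mul_sum]
    rw [h6, hv]
    ring
  have hA : (∑ i ∈ range m, ∑ j ∈ range m, if PA i j then f i * f j else 0) / dd m =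
      1 / (2 * (m : ℝ)) * Spc_Q m f g := by
    unfold Spc_Q dd
    rw [div_div_eq_mul_div, mul_sum, sum_mul, sum_div]
    refine sum_congr rfl fun i _ => ?_
    rw [mul_sum, sum_mul, sum_div]
    refine sum_congr rfl fun j _ => ?_
    by_cases h : PA i j
    · have h' : (2 * (i + j) + 3).Prime := h
      rw [if_pos h, hg]
      simp only
      rw [if_pos h']
      ring
    · have h' : ¬ (2 * (i + j) + 3).Prime := h
      rw [if_neg h, hg]
      simp only
      rw [if_neg h']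
      ring
  -- the last part
  set G : ℕ → ℝ := fun n => (if (n : ℝ) ≤ δ * m then (z : ℝ) + 1 else 0) +
    (if n.Prime then 0 else lam n) + 3 * (if (n : ℝ) ≤ δ * m then lam n else 0) +
    (if (n : ℝ) ≤ √m then Real.log m else 0) +
    2 * D / Real.log m * (if (n : ℝ) ≤ 4 * m then lam n else 0) with hG
  have hlm : 0 < Real.log m := Real.log_pos (by linarith)
  have hG0 : ∀ n, 0 ≤ G n := by
    intro n
    have hl := Pool.Agent.GBQ.lam_nonneg n
    have a1 : 0 ≤ (if (n : ℝ) ≤ δ * m then (z : ℝ) + 1 else 0) := by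
      split_ifs <;> linarith
    have a2 : 0 ≤ (if n.Prime then 0 else lam n) := by
      split_ifs <;> linarith
    have a3 : 0 ≤ (if (n : ℝ) ≤ δ * m then lam n else 0) := by
      split_ifs <;> linarith
    have a4 : 0 ≤ (if (n : ℝ) ≤ √m then Real.log m else 0) := by
      split_ifs <;> linarith
    have a5 : 0 ≤ (if (n : ℝ) ≤ 4 * m then lam n else 0) := by
      split_ifs <;> linarith
    have a6 : 0 ≤ 2 * D / Real.log m := by positivity
    rw [hG]
    positivity
  have hsqm : √(m : ℝ) ≤ δ * m := by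
    have h7 : 1 / δ ≤ √(m : ℝ) := by
      refine Real.le_sqrt_of_sq_le ?_
      rw [div_pow, one_pow]
      exact hm4
    have h8 : 1 ≤ δ * √(m : ℝ) := by
      rw [div_le_iff₀ hδ] at h7
      linarith
    have h9 : √(m : ℝ) * √(m : ℝ) = m := Real.mul_self_sqrt hm0.le
    nlinarith [Real.sqrt_nonneg (m : ℝ)]
  have hvG : ∀ n : ℕ, n ≤ 4 * m → |v n| ≤ G n := by
    intro n hn
    have hl := Pool.Agent.GBQ.lam_nonneg n
    have hn' : (n : ℝ) ≤ 4 * m := by exact_mod_cast hn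
    have b1 := Spc_pt m n δ (s n) hm3 hδ hδ1 (hS01 _).1 (hS01 _).2 (hs1 n) hn hsqm
    have b2 : |LamS z n * (s n - 1)| ≤ (if (n : ℝ) ≤ δ * m then (z : ℝ) + 1 else 0) := by
      have hL0 := Pool.Agent.GBQ.LamS_nonneg z n
      have hL1 := Pool.Agent.GBQ.LamS_le z n
      have hs0 : 0 ≤ s n := (hS01 _).1
      have hs1' : s n ≤ 1 := (hS01 _).2
      split_ifs with h
      · rw [abs_mul, abs_of_nonneg hL0, abs_of_nonpos (by linarith)]
        nlinarith
      · rw [hs1 n (not_le.1 h).le]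
        simp
    have b3 : (if (n : ℝ) < δ * m then 3 * lam n else 0) ≤
        3 * (if (n : ℝ) ≤ δ * m then lam n else 0) := by
      split_ifs with h h'
      · exact le_refl _
      · exact absurd h.le h'
      · linarith
      · linarith
    rw [hv, hG]
    simp only
    rw [if_pos hn']
    have b4 := abs_add_le (g n - lam n * s n) (LamS z n * (s n - 1))
    have b5 : |g n - lam n * s n| ≤ (if n.Prime then 0 else lam n) +
        (if (n : ℝ) < δ * m then 3 * lam n else 0) +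
        (if (n : ℝ) ≤ √m then Real.log m else 0) +
        2 * D / Real.log m * lam n := b1
    linarith
  have hQv : |Spc_Q m f v| ≤ (∑ n ∈ range (4 * m + 1), G n) * F := by
    refine Spc_schur m f v _ fun i hi => ?_
    refine le_trans (sum_le_sum fun j hj => ?_) (Spc_row m G hG0 i hi)
    rw [mem_range] at hj
    exact hvG _ (by omega)
  have hGsum : ∑ n ∈ range (4 * m + 1), G n ≤ ε / 2 * m := by
    have c1 := Spc_count (δ * m) (by positivity) (4 * m + 1) ((z : ℝ) + 1) hz4.le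
    have c2 := Spc_np (4 * m) (by omega)
    have c3 := Spc_psi (δ * m) (by positivity) (4 * m + 1)
    have c4 := Spc_count (√(m : ℝ)) (Real.sqrt_nonneg _) (4 * m + 1) (Real.log m) hlm.le
    have c5 := Spc_psi (4 * m) (by positivity) (4 * m + 1)
    push_cast at c2
    have hsplit : ∑ n ∈ range (4 * m + 1), G n =
        ∑ n ∈ range (4 * m + 1), (if (n : ℝ) ≤ δ * m then (z : ℝ) + 1 else 0) +
        ∑ n ∈ range (4 * m + 1), (if n.Prime then 0 else lam n) +
        3 * ∑ n ∈ range (4 * m + 1), (if (n : ℝ) ≤ δ * m then lam n else 0) +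
        ∑ n ∈ range (4 * m + 1), (if (n : ℝ) ≤ √m then Real.log m else 0) +
        2 * D / Real.log m * ∑ n ∈ range (4 * m + 1), (if (n : ℝ) ≤ 4 * m then lam n else 0) := by
      rw [hG]
      simp only [sum_add_distrib, mul_sum]
    have c6 : 2 * D / Real.log m * ∑ n ∈ range (4 * m + 1), (if (n : ℝ) ≤ 4 * m then lam n else 0) ≤
        ε / 10 * m := by
      have c7 : 2 * D / Real.log m * (6 * (4 * (m : ℝ))) ≤ ε / 10 * m := by
        rw [div_mul_eq_mul_div, div_le_iff₀ hlm]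
        have c8 : 480 * D ≤ ε * Real.log m := by
          have : 480 * D / ε ≤ Real.log m := by linarith
          rw [div_le_iff₀ hε] at this
          linarith
        nlinarith
      refine le_trans (mul_le_mul_of_nonneg_left c5 (by positivity)) c7
    have c9 : Real.log m * (√(m : ℝ) + 1) ≤ √(4 * (m : ℝ)) * Real.log (4 * m) := by
      have d1 : √(4 * (m : ℝ)) = 2 * √(m : ℝ) := by
        rw [Real.sqrt_mul (by norm_num), show (4 : ℝ) = 2 ^ 2 by norm_num,
          Real.sqrt_sq (by norm_num)]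
      have d2 : Real.log m ≤ Real.log (4 * m) := Real.log_le_log hm0 (by linarith)
      have d3 : 1 ≤ √(m : ℝ) := by
        rw [Real.one_le_sqrt]
        linarith
      rw [d1]
      nlinarith
    have c10 : ((z : ℝ) + 1) ≤ ε / 20 * m := by
      rw [div_le_iff₀ hε] at hm6
      linarith
    have c11 : ((z : ℝ) + 1) * (δ * m + 1) ≤ ε / 400 * m + ε / 20 * m := by
      have : ((z : ℝ) + 1) * δ * m ≤ ε / 400 * m := mul_le_mul_of_nonneg_right hδz hm0.le
      linarith
    have c12 : 3 * (6 * (δ * m)) ≤ ε / 80 * m := by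
      have : 4 * δ * m ≤ ε / 400 * m := mul_le_mul_of_nonneg_right hδε hm0.le
      linarith
    rw [hsplit]
    nlinarith [c1, c2, c3, c4, c6, c9, c11, c12, hm2, mul_pos hε hm0]
  -- the assembly
  have hC' := hC m (by omega) f
  have hQL : 1 / (2 * (m : ℝ)) * ∑ i ∈ range m, ∑ j ∈ range m, f i * f j * LamS z (2 * (i + j) + 3) =
      1 / (2 * (m : ℝ)) * Spc_Q m f (LamS z) := rfl
  rw [hQL] at hC'
  have hQ1' : |1 / (2 * (m : ℝ)) * Spc_Q m f r| ≤ ε / 20 * F := by
    rw [abs_mul, abs_of_pos (by positivity), one_div_mul_eq_div, div_le_iff₀ (by positivity)]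
    have := hQ1 f
    nlinarith [mul_nonneg hε.le (mul_nonneg hm0.le hF0)]
  have hQ3' : |1 / (2 * (m : ℝ)) * Spc_Q m f v| ≤ ε / 4 * F := by
    rw [abs_mul, abs_of_pos (by positivity), one_div_mul_eq_div, div_le_iff₀ (by positivity)]
    have := mul_le_mul_of_nonneg_right hGsum hF0
    linarith
  have hCm : C / m ≤ ε / 20 := by
    rw [div_le_iff₀ hm0]
    rw [div_le_iff₀ hε] at hm5
    have := le_abs_self C
    linarith
  have hC2 : (1 / 2 + C / m) * F ≤ (1 / 2 + ε / 20) * F :=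
    mul_le_mul_of_nonneg_right (by linarith) hF0
  rw [hA, hQg]
  have e : 1 / (2 * (m : ℝ)) * (Spc_Q m f r + Spc_Q m f (LamS z) + Spc_Q m f v) -
      (∑ i ∈ range m, f i) ^ 2 / m = 1 / (2 * (m : ℝ)) * Spc_Q m f r +
      (1 / (2 * (m : ℝ)) * Spc_Q m f (LamS z) - (∑ i ∈ range m, f i) ^ 2 / m) +
      1 / (2 * (m : ℝ)) * Spc_Q m f v := by ring
  rw [e]
  have hεF : 0 ≤ ε * F := mul_nonneg hε.le hF0
  have t1 := abs_add_le (1 / (2 * (m : ℝ)) * Spc_Q m f r +
      (1 / (2 * (m : ℝ)) * Spc_Q m f (LamS z) - (∑ i ∈ range m, f i) ^ 2 / m))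
      (1 / (2 * (m : ℝ)) * Spc_Q m f v)
  have t2 := abs_add_le (1 / (2 * (m : ℝ)) * Spc_Q m f r)
      (1 / (2 * (m : ℝ)) * Spc_Q m f (LamS z) - (∑ i ∈ range m, f i) ^ 2 / m)
  nlinarith

end Pool.Agent.PCW
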