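import Pool.Agent.PCW.St

/-!
# PCW [Spe]: spectral data
-/

set_option autoImplicit false

namespace Pool.Agent.PCW

open Finset Filter MeasureTheory Matrix

private theorem Spe_ex {m : ℕ} (E : Matrix (Fin m) (Fin m) ℝ) (hs : ∀ i j, E i j = E j i) :
    ∃ (P : Matrix (Fin m) (Fin m) ℝ) (l : Fin m → ℝ), Pᵀ * P = 1 ∧ P * Pᵀ = 1 ∧
      E = P * diagonal l * Pᵀ := by
  have hE : E.IsHermitian := by
    ext i j
    simp [hs j i]
  refine ⟨(hE.eigenvectorUnitary : Matrix (Fin m) (Fin m) ℝ), hE.eigenvalues, ?_, ?_, ?_⟩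
  · have h := Unitary.coe_star_mul_self hE.eigenvectorUnitary
    rw [Matrix.star_eq_conjTranspose, Matrix.conjTranspose_eq_transpose_of_trivial] at h
    exact h
  · have h := Unitary.coe_mul_star_self hE.eigenvectorUnitary
    rw [Unitary.coe_star, Matrix.star_eq_conjTranspose, Matrix.conjTranspose_eq_transpose_of_trivial] at h
    exact h
  · have h := hE.spectral_theorem
    rw [Unitary.conjStarAlgAut_apply, Matrix.star_eq_conjTranspose,
      Matrix.conjTranspose_eq_transpose_of_trivial] at h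
    exact h

private theorem Spe_sq {K n : Type} [CommRing K] [Fintype n] [DecidableEq n] (P : Matrix n n K)
    (h : Pᵀ * P = 1) (l y : n → K) :
    ∑ i, ((P * diagonal l * Pᵀ) *ᵥ y) i ^ 2 = ∑ a, l a ^ 2 * ((Pᵀ *ᵥ y) a) ^ 2 := by
  have h1 : (P * diagonal l * Pᵀ) *ᵥ y = P *ᵥ (diagonal l *ᵥ (Pᵀ *ᵥ y)) := by
    rw [Matrix.mulVec_mulVec, Matrix.mulVec_mulVec]
  have h2 : ∀ z : n → K, ∑ i, (P *ᵥ z) i ^ 2 = ∑ i, z i ^ 2 := by
    intro z
    have h3 : (P *ᵥ z) ⬝ᵥ (P *ᵥ z) = z ⬝ᵥ z := by
      rw [Matrix.dotProduct_mulVec, ← Matrix.mulVec_transpose, Matrix.mulVec_mulVec, h,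
        Matrix.one_mulVec]
    simpa [dotProduct, ← sq] using h3
  rw [h1, h2]
  apply Finset.sum_congr rfl
  intro a _
  rw [Matrix.mulVec_diagonal]
  ring

private theorem Spe_frob {m : ℕ} (P : Matrix (Fin m) (Fin m) ℝ) (h : Pᵀ * P = 1)
    (l : Fin m → ℝ) :
    ∑ i, ∑ j, (P * diagonal l * Pᵀ) i j ^ 2 = ∑ a, l a ^ 2 := by
  have h1 : ∑ i, ∑ j, (P * diagonal l * Pᵀ) i j ^ 2 =
      ((P * diagonal l * Pᵀ) * (P * diagonal l * Pᵀ)ᵀ).trace := by
    simp only [Matrix.trace, Matrix.diag, Matrix.mul_apply (M := P * diagonal l * Pᵀ),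
      Matrix.transpose_apply, sq]
  have h2 : (P * diagonal l * Pᵀ) * (P * diagonal l * Pᵀ)ᵀ =
      P * (diagonal (fun a => l a ^ 2) * Pᵀ) := by
    rw [Matrix.transpose_mul, Matrix.transpose_mul, Matrix.transpose_transpose,
      Matrix.diagonal_transpose]
    have h3 : P * diagonal l * Pᵀ * (P * (diagonal l * Pᵀ)) =
        P * (diagonal l * (Pᵀ * P) * diagonal l) * Pᵀ := by
      simp only [Matrix.mul_assoc]
    rw [h3, h, Matrix.mul_one, Matrix.diagonal_mul_diagonal, Matrix.mul_assoc]
    congr 3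
    ext a
    ring
  rw [h1, h2, Matrix.trace_mul_comm, Matrix.mul_assoc, h, Matrix.mul_one, Matrix.trace_diagonal]

theorem thm_Spe : St_Spe := by
  intro C m E hm hE
  obtain ⟨P, l, hP1, hP2, hEP⟩ := Spe_ex E hE.symm
  have hdec : ∀ i j, E i j = ∑ a, l a * P i a * P j a := by
    intro i j
    conv_lhs => rw [hEP]
    rw [Matrix.mul_apply]
    apply Finset.sum_congr rfl
    intro a _
    rw [Matrix.mul_diagonal, Matrix.transpose_apply]
    ring
  have hPE : Pᵀ * E * P = diagonal l := by
    rw [hEP]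
    have : Pᵀ * (P * diagonal l * Pᵀ) * P = (Pᵀ * P) * diagonal l * (Pᵀ * P) := by
      simp only [Matrix.mul_assoc]
    rw [this, hP1, Matrix.one_mul, Matrix.mul_one]
  have horth : ∀ a b, ∑ i, P i a * P i b = if a = b then 1 else 0 := by
    intro a b
    have := congrFun (congrFun hP1 a) b
    rw [Matrix.mul_apply, Matrix.one_apply] at this
    simpa using this
  have hcomp : ∀ i j, ∑ a, P i a * P j a = if i = j then 1 else 0 := by
    intro i j
    have := congrFun (congrFun hP2 i) j
    rw [Matrix.mul_apply, Matrix.one_apply] at this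
    simpa using this
  have hEE : E * E = P * diagonal (fun a => l a ^ 2) * Pᵀ := by
    conv_lhs => rw [hEP]
    have h3 : P * diagonal l * Pᵀ * (P * diagonal l * Pᵀ) =
        P * (diagonal l * (Pᵀ * P) * diagonal l) * Pᵀ := by
      simp only [Matrix.mul_assoc]
    rw [h3, hP1, Matrix.mul_one, Matrix.diagonal_mul_diagonal]
    congr 3
    ext a
    ring
  have hquad : ∀ a, ∑ i, ∑ j, P i a * P j a * E i j = l a := by
    intro a
    have h1 := congrFun (congrFun hPE a) a
    rw [Matrix.diagonal_apply_eq, Matrix.mul_apply] at h1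
    rw [← h1, Finset.sum_comm]
    apply Finset.sum_congr rfl
    intro j _
    rw [Matrix.mul_apply, Finset.sum_mul]
    apply Finset.sum_congr rfl
    intro i _
    rw [Matrix.transpose_apply]
    ring
  have hfr : ∑ i, ∑ j, E i j ^ 2 = ∑ a, l a ^ 2 := by
    conv_lhs => rw [hEP]
    exact Spe_frob P hP1 l
  have hm0 : (0 : ℝ) < m := by exact_mod_cast hm
  have hdet : ∀ t : ℝ, ((1 : Matrix (Fin m) (Fin m) ℝ) - t • (E * E)).det =
      ∏ a, (1 - t * l a ^ 2) := by
    intro t
    have h1 : (1 : Matrix (Fin m) (Fin m) ℝ) - t • (E * E) =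
        P * diagonal (fun a => 1 - t * l a ^ 2) * Pᵀ := by
      have h2 : diagonal (fun a => 1 - t * l a ^ 2) =
          (1 : Matrix (Fin m) (Fin m) ℝ) - t • diagonal (fun a => l a ^ 2) := by
        ext i j
        by_cases hij : i = j
        · subst hij
          simp
        · simp [hij]
      rw [h2, Matrix.mul_sub, Matrix.sub_mul, Matrix.mul_one, hP2, hEE, Matrix.mul_smul,
        Matrix.smul_mul]
    rw [h1, Matrix.det_mul, Matrix.det_mul, Matrix.det_diagonal, mul_right_comm, ← Matrix.det_mul,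
      hP2, Matrix.det_one, one_mul]
  have hreal : ∀ y : Fin m → ℝ,
      ∑ i, (∑ j, E i j * y j) ^ 2 = ∑ a, l a ^ 2 * (∑ j, P j a * y j) ^ 2 := by
    intro y
    have h := Spe_sq P hP1 l y
    rw [← hEP] at h
    simpa [Matrix.mulVec, dotProduct] using h
  refine ⟨fun a i => P i a, l, ⟨horth, hcomp, hdec, ?_, ?_, ?_, ?_, ?_⟩, ?_, hdet, hreal, ?_, ?_⟩
  · intro a
    have h1 := hE.norm (fun i => P i a)
    rw [hquad a] at h1
    have h2 : ∑ i, P i a ^ 2 = 1 := by
      have := horth a a
      rw [if_pos rfl] at this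
      simpa [sq] using this
    rw [h2, mul_one] at h1
    exact h1
  · intro a ha
    have h1 : l a * ∑ i, P i a = 0 := by
      have h2 : ∀ i, ∑ j, E i j * P j a = l a * P i a := by
        intro i
        have h3 : E * P = P * diagonal l := by
          rw [hEP]
          have : P * diagonal l * Pᵀ * P = P * diagonal l * (Pᵀ * P) := by
            simp only [Matrix.mul_assoc]
          rw [this, hP1, Matrix.mul_one]
        have h4 := congrFun (congrFun h3 i) a
        rw [Matrix.mul_apply, Matrix.mul_diagonal] at h4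
        rw [h4, mul_comm]
      rw [Finset.mul_sum]
      simp only [← h2]
      rw [Finset.sum_comm]
      apply Finset.sum_eq_zero
      intro j _
      rw [← Finset.sum_mul]
      have h5 : ∑ i, E i j = 0 := by
        rw [← hE.row j]
        exact Finset.sum_congr rfl fun i _ => hE.symm i j
      rw [h5, zero_mul]
    exact (mul_eq_zero.1 h1).resolve_left ha
  · rw [← hfr]
    calc ∑ i, ∑ j, E i j ^ 2 ≤ ∑ i : Fin m, C * Real.log m / m :=
          Finset.sum_le_sum fun i _ => hE.sq i
      _ = C * Real.log m := by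
          rw [Finset.sum_const, Finset.card_univ, Fintype.card_fin, nsmul_eq_mul]
          field_simp
  · have h1 := hE.four
    rw [hEE, Spe_frob P hP1] at h1
    refine le_trans (le_of_eq ?_) h1
    apply Finset.sum_congr rfl
    intro a _
    ring
  · intro i
    have h1 : ∑ a, l a ^ 2 * P i a ^ 2 = ∑ j, E i j ^ 2 := by
      have h2 := congrFun (congrFun hEE i) i
      rw [Matrix.mul_apply, Matrix.mul_apply] at h2
      have h3 : ∑ j, E i j ^ 2 = ∑ j, E i j * E j i := by
        apply Finset.sum_congr rfl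
        intro j _
        rw [hE.symm j i, sq]
      rw [h3, h2]
      apply Finset.sum_congr rfl
      intro a _
      rw [Matrix.mul_diagonal, Matrix.transpose_apply]
      ring
    rw [h1]
    exact hE.sq i
  · have := hdet 1
    simpa [Dl] using this
  · intro y
    have hre := hreal (fun j => (y j).re)
    have him := hreal (fun j => (y j).im)
    have h1 : ∀ z : ℂ, ‖z‖ ^ 2 = z.re ^ 2 + z.im ^ 2 := by
      intro z
      rw [← Complex.normSq_eq_norm_sq, Complex.normSq_apply]
      ring
    simp only [h1, mul_add, Finset.sum_add_distrib]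
    have h2 : ∀ i, (xj E y i).re = ∑ j, E i j * (y j).re := by
      intro i
      simp [xj, Complex.re_sum]
    have h3 : ∀ i, (xj E y i).im = ∑ j, E i j * (y j).im := by
      intro i
      simp [xj, Complex.im_sum]
    have h4 : ∀ a, (∑ j, (P j a : ℂ) * y j).re = ∑ j, P j a * (y j).re := by
      intro a
      simp [Complex.re_sum]
    have h5 : ∀ a, (∑ j, (P j a : ℂ) * y j).im = ∑ j, P j a * (y j).im := by
      intro a
      simp [Complex.im_sum]
    simp only [h2, h3, h4, h5]
    rw [hre, him]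
  · intro y
    have hPc : (P.map (fun r : ℝ => (r : ℂ)))ᵀ * P.map (fun r : ℝ => (r : ℂ)) = 1 := by
      rw [← Matrix.transpose_map]
      ext i j
      have := congrFun (congrFun hP1 i) j
      rw [Matrix.mul_apply, Matrix.one_apply] at this ⊢
      simp only [Matrix.map_apply]
      rw [← Complex.ofReal_one, ← Complex.ofReal_zero]
      have h6 := congrArg (fun r : ℝ => (r : ℂ)) this
      simp only [Complex.ofReal_sum, Complex.ofReal_mul] at h6
      rw [h6]
      split_ifs <;> rfl
    have h := Spe_sq (P.map (fun r : ℝ => (r : ℂ))) hPc (fun a => (l a : ℂ)) y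
    have hEc : P.map (fun r : ℝ => (r : ℂ)) * diagonal (fun a => (l a : ℂ)) *
        (P.map (fun r : ℝ => (r : ℂ)))ᵀ = E.map (fun r : ℝ => (r : ℂ)) := by
      ext i j
      rw [Matrix.mul_apply, Matrix.map_apply, hdec]
      rw [Complex.ofReal_sum]
      apply Finset.sum_congr rfl
      intro a _
      rw [Matrix.mul_diagonal, Matrix.transpose_apply, Matrix.map_apply, Matrix.map_apply]
      push_cast
      ring
    rw [hEc] at h
    simpa [Matrix.mulVec, dotProduct, xj] using h

end Pool.Agent.PCW
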