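import Pool.Agent.PCW.StN
import Pool.Agent.GBQ.Sup
import Pool.Agent.GBQ.MinLam
import Pool.Agent.GBQ.Bridge

set_option autoImplicit false

/-!
# PCW / Ssp: small exponential sums (MP_ec65ab_co)
-/

namespace Pool.Agent.PCW

open Finset Filter MeasureTheory
open Pool.Agent.PC (PA dd HP)
open Pool.Agent.PCX (wdeg)
open Pool.Agent.PCZ (Bd Entropies IsScaling)
open Pool.Agent.GBQ (lam LamS ee)
open Pool.Agent.MT (IsWt)
open Pool.Agent.PrimeCircle (numPrimeCircles)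

theorem thm_Ssp (h1 : St_Smj) (h2 : St_Smn) : St_Ssp := by
  intro η hη ε hε
  obtain ⟨C₁, hC₁⟩ := GBQ.thm_MinLam GBQ.thm_Vin η hη
  obtain ⟨z, hz3, hz⟩ : ∃ z : ℕ, 3 ≤ z ∧ 1 / (z : ℝ) ≤ ε / 4 := by
    refine ⟨max 3 ⌈4 / ε⌉₊, le_max_left _ _, ?_⟩
    have e1 : 4 / ε ≤ ((max 3 ⌈4 / ε⌉₊ : ℕ) : ℝ) :=
      (Nat.le_ceil _).trans (by exact_mod_cast le_max_right _ _)
    have e2 : 0 < 4 / ε := by positivity
    calc 1 / ((max 3 ⌈4 / ε⌉₊ : ℕ) : ℝ) ≤ 1 / (4 / ε) := one_div_le_one_div_of_le e2 e1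
      _ = ε / 4 := by rw [one_div_div]
  refine ⟨z, hz3, ?_⟩
  filter_upwards [h1 η hη ((C₁ + 2) * 2) z (by omega) (ε / 4) (by positivity),
    h2 η hη z (by omega) (ε / 4) (by positivity), GBQ.sup_log_pow_le (C₁ + 2),
    GBQ.sup_log_ge (12 * (C₁ : ℝ) / ε + 1), eventually_ge_atTop 3] with X hmaj hmin hpow hlog hX3
  intro α
  obtain ⟨L, hL⟩ : ∃ L, L = Real.log X := ⟨_, rfl⟩
  have hX3' : (3 : ℝ) ≤ X := by exact_mod_cast hX3
  have hX0 : (0 : ℝ) < X := by linarith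
  have hX1 : (1 : ℝ) ≤ X := by linarith
  have hC0 : (0 : ℝ) ≤ C₁ := Nat.cast_nonneg _
  rw [← hL] at hmaj hmin hpow hlog
  have hCe : 0 ≤ 12 * (C₁ : ℝ) / ε := by positivity
  have hL1 : 1 ≤ L := by linarith
  have hL0 : 0 < L := by linarith
  obtain ⟨P, hPdef⟩ : ∃ P, P = L ^ (C₁ + 2) := ⟨_, rfl⟩
  have hP1 : 1 ≤ P := hPdef ▸ one_le_pow₀ hL1
  have hP0 : 0 < P := by linarith
  have hLP : L ≤ P := by
    rw [hPdef]
    exact le_self_pow₀ hL1 (by omega)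
  have hLP2 : L ≤ P ^ 2 := by nlinarith
  have hPsq : L ^ ((C₁ + 2) * 2) = P ^ 2 := by rw [pow_mul, ← hPdef]
  rw [← hPdef] at hpow
  rw [hPsq] at hmaj
  have hPX : P ^ 2 ≤ X := by
    calc P ^ 2 ≤ ((X : ℝ) ^ (1 / 6 : ℝ)) ^ 2 := pow_le_pow_left₀ hP0.le hpow 2
      _ = (X : ℝ) ^ (1 / 3 : ℝ) := by
          rw [← Real.rpow_natCast, ← Real.rpow_mul hX0.le]
          norm_num
      _ ≤ (X : ℝ) ^ (1 : ℝ) := Real.rpow_le_rpow_of_exponent_le hX1 (by norm_num)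
      _ = X := Real.rpow_one _
  obtain ⟨a, q, hq1, hcop, hqX, hap, hb⟩ := GBQ.sup_dirichlet α X (P ^ 2) (by positivity) hPX
  have hq0 : (0 : ℝ) < q := by exact_mod_cast hq1
  rcases le_or_gt (q : ℝ) (P ^ 2) with hcase | hcase
  · have hbb : |(α - a / q) * X| ≤ P ^ 2 := by
      rw [abs_mul, abs_of_pos hX0]
      exact hb
    have hm := hmaj q a hq1 hcase hcop ((α - a / q) * X) hbb
    have he : ((a : ℝ) / q + (α - a / q) * X / X) = α := by
      field_simp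
      ring
    rw [he] at hm
    refine hm.trans ?_
    apply mul_le_mul_of_nonneg_right _ hX0.le
    linarith
  · obtain ⟨m1, m2, m3, _, _, _⟩ := GBQ.sup_minor_bounds X P q hX1 hP1 hpow hcase.le hqX
    have hlam := hC₁ X α a q hX3 hq1 hcop hap
    have hls := hmin α a q (hLP2.trans hcase.le) (by
      rw [le_div_iff₀ hL0]
      calc (q : ℝ) * L ≤ q * P ^ 2 := mul_le_mul_of_nonneg_left hLP2 hq0.le
        _ ≤ X := hqX) hcop hap
    rw [← hL] at hlam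
    have hsplit : ∑ x ∈ range (X + 1),
          (((lam x - LamS z x) * η ((x : ℝ) / X) : ℝ) : ℂ) * ee (α * x) =
        ∑ x ∈ range (X + 1), ((lam x * η ((x : ℝ) / X) : ℝ) : ℂ) * ee (α * x) -
        ∑ x ∈ range (X + 1), ((LamS z x * η ((x : ℝ) / X) : ℝ) : ℂ) * ee (α * x) := by
      rw [← sum_sub_distrib]
      refine sum_congr rfl fun x _ => ?_
      push_cast
      ring
    rw [hsplit]
    refine (norm_sub_le _ _).trans ?_
    have b1 : (C₁ : ℝ) * (X / Real.sqrt q + (X : ℝ) ^ (5 / 6 : ℝ) + Real.sqrt (X * q)) * L ^ C₁ ≤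
        ε / 4 * X := by
      calc (C₁ : ℝ) * (X / Real.sqrt q + (X : ℝ) ^ (5 / 6 : ℝ) + Real.sqrt (X * q)) * L ^ C₁ ≤
            (C₁ : ℝ) * (3 * (X / P)) * L ^ C₁ := by
            apply mul_le_mul_of_nonneg_right _ (by positivity)
            apply mul_le_mul_of_nonneg_left _ hC0
            linarith
        _ = 3 * C₁ / L ^ 2 * X := by
            rw [hPdef, pow_add]
            field_simp
        _ ≤ ε / 4 * X := by
            apply mul_le_mul_of_nonneg_right _ hX0.le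
            rw [div_le_iff₀ (by positivity)]
            have f1 : 12 * (C₁ : ℝ) / ε ≤ L ^ 2 := by nlinarith
            rw [div_le_iff₀ hε] at f1
            linarith
    calc _ ≤ ε / 4 * X + ε / 4 * X := add_le_add (hlam.trans b1) hls
      _ ≤ ε * X := by nlinarith

end Pool.Agent.PCW
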