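import Mathlib
import Pool.Agent.PCW.St

set_option autoImplicit false

/-! PCW Tog: the signed sum over pairs of disjoint permutations. -/

namespace Pool.Agent.PCW

open Finset Equiv Equiv.Perm

variable {ι : Type} [Fintype ι] [DecidableEq ι]

private def Tog_P (ω π : Perm ι) : Prop := ∀ x, π x = x ∨ π x = ω x

omit [Fintype ι] [DecidableEq ι] in
private theorem Tog_fix {ω π : Perm ι} (h : Tog_P ω π) {x : ι} (hx : π x = x) :
    π (ω x) = ω x := by
  by_contra hc
  obtain ⟨z, hz⟩ := π.surjective (ω x)
  rcases h z with h1 | h1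
  · rw [h1] at hz
    subst hz
    exact hc h1
  · rw [h1] at hz
    have hzx : z = x := ω.injective hz
    subst hzx
    rw [hx] at h1
    rw [← h1] at hc
    exact hc hx

private theorem Tog_fix' {ω π : Perm ι} (h : Tog_P ω π) {x y : ι} (hx : π x = x)
    (hxy : ω.SameCycle x y) : π y = y := by
  obtain ⟨i, -, hi⟩ := hxy.exists_pow_eq'
  rw [← hi]
  clear hi
  induction i with
  | zero => simpa using hx
  | succ n ih =>
    rw [pow_succ', mul_apply]
    exact Tog_fix h ih

private noncomputable def Tog_f (π : Perm ι) : ℝ := ((sign π : ℤ) : ℝ) * (-1) ^ π.support.card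

private theorem Tog_f_cycle {c : Perm ι} (hc : c.IsCycle) : Tog_f c = -1 := by
  unfold Tog_f
  rw [hc.sign]
  push_cast
  rw [neg_mul, ← mul_pow]
  norm_num

private theorem Tog_f_mul {π c : Perm ι} (h : Perm.Disjoint π c) :
    Tog_f (π * c) = Tog_f π * Tog_f c := by
  unfold Tog_f
  rw [Perm.sign_mul, h.card_support_mul, pow_add]
  push_cast
  ring

private theorem Tog_c1 {ω π : Perm ι} (h : Tog_P ω π) {w : ι} (hw : π w = w) :
    Perm.Disjoint π (ω.cycleOf w) ∧ Tog_P ω (π * ω.cycleOf w) := by
  refine ⟨fun x => ?_, fun x => ?_⟩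
  · by_cases hx : ω.SameCycle w x
    · left
      exact Tog_fix' h hw hx
    · right
      rw [cycleOf_apply_of_not_sameCycle hx]
  · rw [mul_apply]
    by_cases hx : ω.SameCycle w x
    · right
      rw [hx.cycleOf_apply]
      exact Tog_fix' h hw (sameCycle_apply_right.2 hx)
    · rw [cycleOf_apply_of_not_sameCycle hx]
      exact h x

private theorem Tog_c2 {ω π : Perm ι} (h : Tog_P ω π) {w : ι} (hw : π w ≠ w) :
    Tog_P ω (π * (ω.cycleOf w)⁻¹) ∧ (π * (ω.cycleOf w)⁻¹) w = w := by
  have key : ∀ x, ω.SameCycle w x → (π * (ω.cycleOf w)⁻¹) x = x := by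
    intro x hx
    rw [mul_apply, cycleOf_inv]
    have hx' : (ω⁻¹).SameCycle w x := sameCycle_inv.2 hx
    rw [hx'.cycleOf_apply]
    have h1 : ω.SameCycle w (ω⁻¹ x) := by
      have := (sameCycle_apply_right (f := ω⁻¹) (x := w) (y := x)).2 hx'
      exact sameCycle_inv.1 this
    rcases h (ω⁻¹ x) with h2 | h2
    · exact absurd (Tog_fix' h h2 h1.symm) hw
    · rw [h2]
      simp
  refine ⟨fun x => ?_, key w (SameCycle.refl _ _)⟩
  by_cases hx : ω.SameCycle w x
  · left
    exact key x hx
  · rw [mul_apply, cycleOf_inv]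
    have hx' : ¬ (ω⁻¹).SameCycle w x := fun h' => hx (sameCycle_inv.1 h')
    rw [cycleOf_apply_of_not_sameCycle hx']
    exact h x

open scoped Classical in
private theorem Tog_zero {ω : Perm ι} (hω : ∀ x, ω x ≠ x) {v w : ι} (hvw : ¬ ω.SameCycle w v) :
    ∑ π : Perm ι, (if Tog_P ω π ∧ π v ≠ v then Tog_f π else 0) = 0 := by
  rw [← Finset.sum_filter]
  have hcyc : (ω.cycleOf w).IsCycle := isCycle_cycleOf _ (hω w)
  have hcv : (ω.cycleOf w) v = v := cycleOf_apply_of_not_sameCycle hvw
  have hcv' : (ω.cycleOf w)⁻¹ v = v := by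
    rw [Perm.inv_eq_iff_eq]
    exact hcv.symm
  have hcw : (ω.cycleOf w) w = ω w := cycleOf_apply_self _ _
  refine Finset.sum_involution
    (fun π _ => if π w = w then π * ω.cycleOf w else π * (ω.cycleOf w)⁻¹) ?_ ?_ ?_ ?_
  · intro π hπ
    rw [mem_filter] at hπ
    split_ifs with hw
    · rw [Tog_f_mul (Tog_c1 hπ.2.1 hw).1, Tog_f_cycle hcyc]
      ring
    · obtain ⟨h1, h2⟩ := Tog_c2 hπ.2.1 hw
      have h3 := Tog_c1 h1 h2
      have h4 : Tog_f π = Tog_f (π * (ω.cycleOf w)⁻¹) * Tog_f (ω.cycleOf w) := by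
        rw [← Tog_f_mul h3.1, inv_mul_cancel_right]
      rw [h4, Tog_f_cycle hcyc]
      ring
  · intro π hπ hne
    split_ifs with hw
    · intro h
      have : ω.cycleOf w = 1 := by
        have := congrArg (fun ρ => π⁻¹ * ρ) h
        simpa using this
      rw [this] at hcw
      exact hω w hcw.symm
    · intro h
      have : (ω.cycleOf w)⁻¹ = 1 := by
        have := congrArg (fun ρ => π⁻¹ * ρ) h
        simpa using this
      have h2 : ω.cycleOf w = 1 := inv_eq_one.1 this
      rw [h2] at hcw
      exact hω w hcw.symm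
  · intro π hπ
    rw [mem_filter] at hπ ⊢
    split_ifs with hw
    · refine ⟨mem_univ _, (Tog_c1 hπ.2.1 hw).2, ?_⟩
      rw [mul_apply, hcv]
      exact hπ.2.2
    · refine ⟨mem_univ _, (Tog_c2 hπ.2.1 hw).1, ?_⟩
      rw [mul_apply, hcv']
      exact hπ.2.2
  · intro π hπ
    rw [mem_filter] at hπ
    split_ifs with hw h2 h2
    · exfalso
      rw [mul_apply, hcw] at h2
      rw [Tog_fix hπ.2.1 hw] at h2
      exact hω w h2
    · rw [mul_inv_cancel_right]
    · rw [inv_mul_cancel_right]
    · exact absurd (Tog_c2 hπ.2.1 hw).2 h2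

open scoped Classical in
private theorem Tog_S {ω : Perm ι} (hω : ∀ x, ω x ≠ x) :
    ∑ π : Perm ι, (if Tog_P ω π then Tog_f π * π.support.card else 0) =
      if Cyc ω then -(Fintype.card ι : ℝ) else 0 := by
  split_ifs with hc
  · rcases isEmpty_or_nonempty ι with he | ⟨⟨x0⟩⟩
    · simp only [Fintype.card_of_isEmpty, Nat.cast_zero, neg_zero]
      refine Finset.sum_eq_zero fun π _ => ?_
      have : π.support.card = 0 := by
        rw [Finset.card_eq_zero]
        exact Finset.eq_empty_of_isEmpty _
      rw [this]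
      simp
    · have hcy : ω.IsCycle := ⟨x0, hω x0, fun y _ => hc x0 y⟩
      have hsup : ω.support = univ := by
        ext x
        simp [hω x]
      rw [Finset.sum_eq_single ω]
      · have hPω : Tog_P ω ω := fun x => Or.inr rfl
        rw [if_pos hPω, Tog_f_cycle hcy, hsup, Finset.card_univ]
        ring
      · intro π _ hne
        split_ifs with hP
        · by_cases hx : ∃ x, π x = x
          · obtain ⟨x, hx⟩ := hx
            have : π.support = ∅ := by
              ext y
              simp [Tog_fix' hP hx (hc x y)]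
            rw [this]
            simp
          · exfalso
            apply hne
            ext x
            rcases hP x with h | h
            · exact absurd ⟨x, h⟩ hx
            · exact h
        · rfl
      · intro h
        exact absurd (mem_univ _) h
  · have h1 : ∀ π : Perm ι, (if Tog_P ω π then Tog_f π * (π.support.card : ℝ) else 0) =
        ∑ v, if Tog_P ω π ∧ π v ≠ v then Tog_f π else 0 := by
      intro π
      by_cases hP : Tog_P ω π
      · simp only [hP, true_and, if_true]
        rw [← Finset.sum_filter, Finset.sum_const, nsmul_eq_mul, mul_comm]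
        rfl
      · simp [hP]
    rw [Finset.sum_congr rfl fun π _ => h1 π, Finset.sum_comm]
    refine Finset.sum_eq_zero fun v _ => ?_
    have h2 : ∃ w, ¬ ω.SameCycle w v := by
      by_contra h
      push Not at h
      exact hc fun x y => (h x).trans (h y).symm
    obtain ⟨w, hw⟩ := h2
    exact Tog_zero hω hw

theorem thm_Tog : St_Tog := by
  classical
  intro ι _ _ A hA
  have hdis : ∀ ω π : Perm ι, Perm.Disjoint π (π⁻¹ * ω) ↔ Tog_P ω π := by
    intro ω π
    constructor
    · intro h x
      rcases h x with h1 | h1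
      · exact Or.inl h1
      · right
        rw [mul_apply, Perm.inv_eq_iff_eq] at h1
        exact h1.symm
    · intro h x
      rcases h x with h1 | h1
      · exact Or.inl h1
      · right
        rw [mul_apply, Perm.inv_eq_iff_eq]
        exact h1.symm
  have hprod : ∀ ω π : Perm ι, Tog_P ω π →
      (∏ v ∈ π.support, A v (π v)) * ∏ v ∈ π.supportᶜ, A v ((π⁻¹ * ω) v) = ∏ v, A v (ω v) := by
    intro ω π h
    rw [← Finset.prod_mul_prod_compl π.support (fun v => A v (ω v))]
    congr 1
    · refine Finset.prod_congr rfl fun v hv => ?_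
      rw [mem_support] at hv
      rcases h v with h1 | h1
      · exact absurd h1 hv
      · rw [h1]
    · refine Finset.prod_congr rfl fun v hv => ?_
      rw [mem_compl, mem_support, not_not] at hv
      have h1 : π (ω v) = ω v := Tog_fix h hv
      have h2 : π⁻¹ (ω v) = ω v := by
        rw [Perm.inv_eq_iff_eq]
        exact h1.symm
      rw [mul_apply, h2]
  have hL : ∑ π : Perm ι, ∑ κ : Perm ι, (if Perm.Disjoint π κ then
      ((sign π : ℤ) : ℝ) * (-1) ^ π.support.card * π.support.card *
        (∏ v ∈ π.support, A v (π v)) * ∏ v ∈ π.supportᶜ, A v (κ v) else 0) =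
      ∑ ω : Perm ι, (∏ v, A v (ω v)) *
        ∑ π : Perm ι, (if Tog_P ω π then Tog_f π * π.support.card else 0) := by
    have h1 : ∀ π : Perm ι, ∑ κ : Perm ι, (if Perm.Disjoint π κ then
        ((sign π : ℤ) : ℝ) * (-1) ^ π.support.card * π.support.card *
          (∏ v ∈ π.support, A v (π v)) * ∏ v ∈ π.supportᶜ, A v (κ v) else 0) =
        ∑ ω : Perm ι, (if Tog_P ω π then Tog_f π * π.support.card * ∏ v, A v (ω v) else 0) := by
      intro π
      rw [← Equiv.sum_comp (Equiv.mulLeft π⁻¹)]
      refine Finset.sum_congr rfl fun ω _ => ?_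
      simp only [Equiv.coe_mulLeft]
      by_cases hP : Tog_P ω π
      · rw [if_pos hP, if_pos ((hdis ω π).2 hP), ← hprod ω π hP]
        unfold Tog_f
        ring
      · rw [if_neg hP, if_neg fun h => hP ((hdis ω π).1 h)]
    rw [Finset.sum_congr rfl fun π _ => h1 π, Finset.sum_comm]
    refine Finset.sum_congr rfl fun ω _ => ?_
    rw [Finset.mul_sum]
    refine Finset.sum_congr rfl fun π _ => ?_
    split_ifs
    · ring
    · ring
  rw [hL, Finset.mul_sum]
  refine Finset.sum_congr rfl fun ω _ => ?_
  by_cases hω : ∀ x, ω x ≠ x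
  · rw [Tog_S hω]
    split_ifs
    · ring
    · ring
  · push Not at hω
    obtain ⟨x, hx⟩ := hω
    have h0 : ∏ v, A v (ω v) = 0 := Finset.prod_eq_zero (mem_univ x) (by rw [hx, hA])
    rw [h0]
    simp

end Pool.Agent.PCW
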