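import Pool.Agent.PCW.St

/-!
# PCW, module Vvb: bounds for `V = √t Ē (1 - √t Ē)⁻¹` (helper98)
-/

set_option autoImplicit false

namespace Pool.Agent.PCW

open Finset Filter MeasureTheory Matrix

/-- functions of `E` -/
private noncomputable def Vvb_F {m : ℕ} (e : Fin m → Fin m → ℝ) (p : Fin m → ℝ) :
    Matrix (Fin m) (Fin m) ℝ := fun i j => ∑ a, p a * e a i * e a j

private theorem Vvb_mul {m : ℕ} {e : Fin m → Fin m → ℝ}
    (ho : ∀ a b, ∑ i, e a i * e b i = if a = b then 1 else 0) (p q : Fin m → ℝ) :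
    Vvb_F e p * Vvb_F e q = Vvb_F e fun a => p a * q a := by
  ext i j
  rw [Matrix.mul_apply]
  unfold Vvb_F
  simp_rw [Finset.sum_mul_sum]
  rw [Finset.sum_comm]
  refine Finset.sum_congr rfl fun a _ => ?_
  rw [Finset.sum_comm]
  have h1 : ∀ b, ∑ k, p a * e a i * e a k * (q b * e b k * e b j) =
      p a * e a i * (q b * e b j) * (if a = b then 1 else 0) := by
    intro b
    rw [← ho a b, Finset.mul_sum]
    refine Finset.sum_congr rfl fun k _ => ?_
    ring
  simp_rw [h1]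
  rw [Finset.sum_eq_single a]
  · rw [if_pos rfl]
    ring
  · intro b _ hb
    rw [if_neg (Ne.symm hb), mul_zero]
  · intro h
    exact absurd (Finset.mem_univ a) h

private theorem Vvb_one {m : ℕ} {e : Fin m → Fin m → ℝ}
    (hc : ∀ i j, ∑ a, e a i * e a j = if i = j then 1 else 0) :
    Vvb_F e (fun _ => 1) = 1 := by
  ext i j
  rw [Matrix.one_apply, ← hc i j]
  unfold Vvb_F
  refine Finset.sum_congr rfl fun a _ => ?_
  rw [one_mul]

private theorem Vvb_symm {m : ℕ} (e : Fin m → Fin m → ℝ) (p : Fin m → ℝ) (i j : Fin m) :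
    Vvb_F e p i j = Vvb_F e p j i := by
  unfold Vvb_F
  refine Finset.sum_congr rfl fun a _ => ?_
  ring

private theorem Vvb_syn {m : ℕ} {g : Fin m → Fin m → ℝ}
    (ho : ∀ a b, ∑ i, g a i * g b i = if a = b then 1 else 0) (c : Fin m → ℝ) :
    ∑ i, (∑ a, c a * g a i) ^ 2 = ∑ a, c a ^ 2 := by
  simp_rw [pow_two, Finset.sum_mul_sum]
  rw [Finset.sum_comm]
  refine Finset.sum_congr rfl fun a _ => ?_
  rw [Finset.sum_comm]
  have h1 : ∀ b, ∑ k, c a * g a k * (c b * g b k) = c a * c b * (if a = b then 1 else 0) := by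
    intro b
    rw [← ho a b, Finset.mul_sum]
    refine Finset.sum_congr rfl fun k _ => ?_
    ring
  simp_rw [h1]
  rw [Finset.sum_eq_single a]
  · rw [if_pos rfl, mul_one]
  · intro b _ hb
    rw [if_neg (Ne.symm hb), mul_zero]
  · intro h
    exact absurd (Finset.mem_univ a) h

private theorem Vvb_par {m : ℕ} {e : Fin m → Fin m → ℝ}
    (hc : ∀ i j, ∑ a, e a i * e a j = if i = j then 1 else 0) (y : Fin m → ℝ) :
    ∑ a, (∑ j, e a j * y j) ^ 2 = ∑ j, y j ^ 2 := by
  rw [← Vvb_syn (g := fun j a => e a j) hc y]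
  refine Finset.sum_congr rfl fun a _ => ?_
  congr 1
  refine Finset.sum_congr rfl fun j _ => ?_
  ring

private theorem Vvb_row {m : ℕ} (e : Fin m → Fin m → ℝ) (p : Fin m → ℝ) (y : Fin m → ℝ)
    (i : Fin m) :
    ∑ j, Vvb_F e p i j * y j = ∑ a, (p a * ∑ j, e a j * y j) * e a i := by
  unfold Vvb_F
  simp_rw [Finset.sum_mul]
  rw [Finset.sum_comm]
  refine Finset.sum_congr rfl fun a _ => ?_
  rw [Finset.mul_sum, Finset.sum_mul]
  refine Finset.sum_congr rfl fun j _ => ?_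
  ring

private theorem Vvb_sq {m : ℕ} {e : Fin m → Fin m → ℝ}
    (ho : ∀ a b, ∑ i, e a i * e b i = if a = b then 1 else 0) (p : Fin m → ℝ) (i : Fin m) :
    ∑ j, Vvb_F e p i j ^ 2 = ∑ a, p a ^ 2 * e a i ^ 2 := by
  have h1 := congrFun (congrFun (Vvb_mul ho p p) i) i
  rw [Matrix.mul_apply] at h1
  have h2 : ∑ j, Vvb_F e p i j ^ 2 = ∑ j, Vvb_F e p i j * Vvb_F e p j i := by
    refine Finset.sum_congr rfl fun j _ => ?_
    rw [Vvb_symm e p j i]
    ring
  rw [h2, h1]
  unfold Vvb_F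
  refine Finset.sum_congr rfl fun a _ => ?_
  ring

private theorem Vvb_dl : ∀ᶠ m : ℕ in atTop, 3 * dl m ≤ 1 / 100 := by
  have h1 : Tendsto (fun m : ℕ => 3 * dl m) atTop (nhds (3 * 0)) := by
    refine Tendsto.const_mul _ ?_
    unfold dl
    exact (tendsto_rpow_neg_atTop (by norm_num : (0 : ℝ) < 2 / 5)).comp
      tendsto_natCast_atTop_atTop
  rw [mul_zero] at h1
  exact h1.eventually_le_const (by norm_num)

theorem thm_Vvb (h1 : St_Spe) : St_Vvb := by
  intro C hC
  filter_upwards [Vvb_dl, eventually_ge_atTop 1] with m hm hm1 E hE t ht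
  obtain ⟨e, l, hS, -, -, hE2, -, -⟩ := h1 C m E hm1 hE
  obtain ⟨ho, hc, hd, hl, -, -, -, hdiag⟩ := hS
  set s : ℝ := √t with hs
  have ht1 : t ≤ 1.01 := by
    have := (abs_le.1 (ht.trans hm)).2
    linarith
  have ht0 : 0.99 ≤ t := by
    have := (abs_le.1 (ht.trans hm)).1
    linarith
  have hs2 : s ^ 2 = t := by
    rw [hs]
    exact Real.sq_sqrt (by linarith)
  have hs0 : 0 ≤ s := Real.sqrt_nonneg t
  have hl2 : ∀ a, l a ^ 2 ≤ 0.2809 := by
    intro a
    have h := hl a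
    have h2 : l a ^ 2 = |l a| ^ 2 := (sq_abs _).symm
    rw [h2]
    nlinarith [abs_nonneg (l a)]
  have hsl : ∀ a, (s * l a) ^ 2 ≤ 0.2838 := by
    intro a
    rw [mul_pow, hs2]
    nlinarith [hl2 a, sq_nonneg (l a)]
  have hq : ∀ a, (0.7162 : ℝ) ≤ 1 - (s * l a) ^ 2 := by
    intro a
    linarith [hsl a]
  have hq0 : ∀ a, 1 - (s * l a) ^ 2 ≠ 0 := by
    intro a
    have := hq a
    intro h
    rw [h] at this
    norm_num at this
  obtain ⟨p, hp⟩ : ∃ p : Fin m → ℝ, p = fun a => 1 / (1 - (s * l a) ^ 2) := ⟨_, rfl⟩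
  obtain ⟨r, hr⟩ : ∃ r : Fin m → ℝ, r = fun a => s * l a / (1 - (s * l a) ^ 2) := ⟨_, rfl⟩
  have hEF : E = Vvb_F e l := by
    ext i j
    exact hd i j
  have hsE : s • E = Vvb_F e fun a => s * l a := by
    rw [hEF]
    ext i j
    rw [Matrix.smul_apply]
    unfold Vvb_F
    rw [smul_eq_mul, Finset.mul_sum]
    refine Finset.sum_congr rfl fun a _ => ?_
    ring
  have hsEb : s • Eb E = Matrix.fromBlocks 0 (s • E) (s • E) 0 := by
    unfold Eb
    rw [Matrix.fromBlocks_smul, smul_zero]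
  have hA : (1 : Matrix (V m) (V m) ℝ) - s • Eb E = Matrix.fromBlocks 1 (-(s • E)) (-(s • E)) 1 := by
    rw [hsEb, ← Matrix.fromBlocks_one, sub_eq_add_neg, Matrix.fromBlocks_neg,
      Matrix.fromBlocks_add]
    simp
  have e1 : Vvb_F e p + -(s • E) * Vvb_F e r = 1 := by
    rw [← Vvb_one hc, neg_mul, hsE, Vvb_mul ho]
    ext i j
    rw [Matrix.add_apply, Matrix.neg_apply]
    unfold Vvb_F
    rw [← sub_eq_add_neg, ← Finset.sum_sub_distrib]
    refine Finset.sum_congr rfl fun a _ => ?_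
    have h9 : ∀ u X Y : ℝ, 1 - u ^ 2 ≠ 0 →
        1 / (1 - u ^ 2) * X * Y - u * (u / (1 - u ^ 2)) * X * Y = 1 * X * Y := by
      intro u X Y hu
      field_simp
    simp only [hp, hr]
    exact h9 _ _ _ (hq0 a)
  have e2 : Vvb_F e r + -(s • E) * Vvb_F e p = 0 := by
    rw [neg_mul, hsE, Vvb_mul ho]
    ext i j
    rw [Matrix.add_apply, Matrix.neg_apply, Matrix.zero_apply]
    unfold Vvb_F
    rw [← sub_eq_add_neg, ← Finset.sum_sub_distrib]
    refine Finset.sum_eq_zero fun a _ => ?_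
    simp only [hp, hr]
    ring
  have hmul : ((1 : Matrix (V m) (V m) ℝ) - s • Eb E) *
      Matrix.fromBlocks (Vvb_F e p) (Vvb_F e r) (Vvb_F e r) (Vvb_F e p) = 1 := by
    rw [hA, Matrix.fromBlocks_multiply, one_mul, one_mul, e1, e2, add_comm _ (Vvb_F e r),
      add_comm _ (Vvb_F e p), e1, e2, Matrix.fromBlocks_one]
  have hinv : ((1 : Matrix (V m) (V m) ℝ) - s • Eb E)⁻¹ =
      Matrix.fromBlocks (Vvb_F e p) (Vvb_F e r) (Vvb_F e r) (Vvb_F e p) :=
    Matrix.inv_eq_right_inv hmul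
  obtain ⟨p', hp'⟩ : ∃ p' : Fin m → ℝ, p' = fun a => (s * l a) ^ 2 / (1 - (s * l a) ^ 2) :=
    ⟨_, rfl⟩
  have hV : VV E t = Matrix.fromBlocks (Vvb_F e p') (Vvb_F e r) (Vvb_F e r) (Vvb_F e p') := by
    unfold VV
    rw [← hs, hinv, hsEb, Matrix.fromBlocks_multiply, hsE, Vvb_mul ho, Vvb_mul ho]
    simp only [zero_mul, zero_add, add_zero]
    have f1 : (fun a => s * l a * r a) = p' := by
      rw [hp', hr]
      funext a
      ring
    have f2 : (fun a => s * l a * p a) = r := by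
      rw [hp, hr]
      funext a
      ring
    rw [f1, f2]
  -- the bounds
  have hlog : ∀ i, ∑ a, l a ^ 2 * e a i ^ 2 ≤ C * Real.log m / m := hdiag
  have b1 : ∀ i, 0 ≤ Vvb_F e p' i i ∧ Vvb_F e p' i i ≤ 5 * C * Real.log m / m := by
    intro i
    have g1 : Vvb_F e p' i i = ∑ a, p' a * e a i ^ 2 := by
      unfold Vvb_F
      refine Finset.sum_congr rfl fun a _ => ?_
      ring
    have g2 : ∀ a, 0 ≤ p' a ∧ p' a ≤ 5 * l a ^ 2 := by
      intro a
      rw [hp']
      have h := hq a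
      refine ⟨div_nonneg (sq_nonneg _) (by linarith), ?_⟩
      show (s * l a) ^ 2 / (1 - (s * l a) ^ 2) ≤ 5 * l a ^ 2
      rw [div_le_iff₀ (by linarith)]
      have h3 : (s * l a) ^ 2 = t * l a ^ 2 := by rw [mul_pow, hs2]
      nlinarith [sq_nonneg (l a)]
    rw [g1]
    refine ⟨Finset.sum_nonneg fun a _ => mul_nonneg (g2 a).1 (sq_nonneg _), ?_⟩
    calc ∑ a, p' a * e a i ^ 2 ≤ ∑ a, 5 * (l a ^ 2 * e a i ^ 2) := by
          refine Finset.sum_le_sum fun a _ => ?_
          rw [← mul_assoc]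
          exact mul_le_mul_of_nonneg_right (g2 a).2 (sq_nonneg _)
      _ = 5 * ∑ a, l a ^ 2 * e a i ^ 2 := by rw [Finset.mul_sum]
      _ ≤ 5 * (C * Real.log m / m) := mul_le_mul_of_nonneg_left (hlog i) (by norm_num)
      _ = 5 * C * Real.log m / m := by ring
  have b2 : ∀ i, ∑ j, Vvb_F e p' i j ^ 2 + ∑ j, Vvb_F e r i j ^ 2 ≤ 5 * C * Real.log m / m := by
    intro i
    rw [Vvb_sq ho, Vvb_sq ho, ← Finset.sum_add_distrib]
    calc ∑ a, (p' a ^ 2 * e a i ^ 2 + r a ^ 2 * e a i ^ 2)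
          ≤ ∑ a, 5 * (l a ^ 2 * e a i ^ 2) := by
          refine Finset.sum_le_sum fun a _ => ?_
          rw [← add_mul, ← mul_assoc]
          refine mul_le_mul_of_nonneg_right ?_ (sq_nonneg _)
          rw [hp', hr]
          show ((s * l a) ^ 2 / (1 - (s * l a) ^ 2)) ^ 2 + (s * l a / (1 - (s * l a) ^ 2)) ^ 2 ≤
            5 * l a ^ 2
          have h := hq a
          have h3 : (s * l a) ^ 2 = t * l a ^ 2 := by rw [mul_pow, hs2]
          have h4 : ((s * l a) ^ 2 / (1 - (s * l a) ^ 2)) ^ 2 + (s * l a / (1 - (s * l a) ^ 2)) ^ 2 =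
              (s * l a) ^ 2 * ((s * l a) ^ 2 + 1) / (1 - (s * l a) ^ 2) ^ 2 := by
            have := hq0 a
            field_simp
          rw [h4, div_le_iff₀ (by positivity)]
          have h5 : (0.5129 : ℝ) ≤ (1 - (s * l a) ^ 2) ^ 2 := by nlinarith
          have h6 : (s * l a) ^ 2 * ((s * l a) ^ 2 + 1) ≤ 1.2967 * l a ^ 2 := by
            have h7 := hsl a
            have h8 : (s * l a) ^ 2 * ((s * l a) ^ 2 + 1) ≤ (s * l a) ^ 2 * 1.2838 :=
              mul_le_mul_of_nonneg_left (by linarith) (sq_nonneg _)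
            have h9 : (s * l a) ^ 2 ≤ 1.01 * l a ^ 2 := by
              rw [h3]
              exact mul_le_mul_of_nonneg_right ht1 (sq_nonneg _)
            have h12 := sq_nonneg (l a)
            linarith
          have h10 : 5 * l a ^ 2 * 0.5129 ≤ 5 * l a ^ 2 * (1 - (s * l a) ^ 2) ^ 2 :=
            mul_le_mul_of_nonneg_left h5 (by positivity)
          nlinarith [sq_nonneg (l a)]
      _ = 5 * ∑ a, l a ^ 2 * e a i ^ 2 := by rw [Finset.mul_sum]
      _ ≤ 5 * (C * Real.log m / m) := mul_le_mul_of_nonneg_left (hlog i) (by norm_num)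
      _ = 5 * C * Real.log m / m := by ring
  refine ⟨?_, ?_, ?_, ?_, ?_, ?_⟩
  · rw [hinv]
    exact hmul
  · intro v w
    rw [hV]
    rcases v with i | i <;> rcases w with j | j <;>
      simp only [Matrix.fromBlocks_apply₁₁, Matrix.fromBlocks_apply₁₂, Matrix.fromBlocks_apply₂₁,
        Matrix.fromBlocks_apply₂₂] <;> exact Vvb_symm _ _ _ _
  · intro v
    rw [hV]
    rcases v with i | i <;>
      simp only [Matrix.fromBlocks_apply₁₁, Matrix.fromBlocks_apply₂₂] <;> exact b1 i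
  · intro v
    rw [hV, Fintype.sum_sum_type]
    rcases v with i | i <;>
      simp only [Matrix.fromBlocks_apply₁₁, Matrix.fromBlocks_apply₁₂, Matrix.fromBlocks_apply₂₁,
        Matrix.fromBlocks_apply₂₂]
    · exact b2 i
    · rw [add_comm]
      exact b2 i
  · intro f
    have g1 : ∀ y : Fin m → ℝ, ∑ i, (∑ j, E i j * y j) ^ 2 ≤ 0.53 ^ 2 * ∑ j, y j ^ 2 := by
      intro y
      rw [hE2 y, ← Vvb_par hc y, Finset.mul_sum]
      refine Finset.sum_le_sum fun a _ => mul_le_mul_of_nonneg_right ?_ (sq_nonneg _)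
      have := hl2 a
      norm_num at this ⊢
      linarith
    rw [Fintype.sum_sum_type, Fintype.sum_sum_type, mul_add]
    have g2 : ∀ i, ∑ w, Eb E (Sum.inl i) w * f w = ∑ j, E i j * f (Sum.inr j) := by
      intro i
      rw [Fintype.sum_sum_type]
      simp [Eb, Matrix.fromBlocks_apply₁₁, Matrix.fromBlocks_apply₁₂]
    have g3 : ∀ i, ∑ w, Eb E (Sum.inr i) w * f w = ∑ j, E i j * f (Sum.inl j) := by
      intro i
      rw [Fintype.sum_sum_type]
      simp [Eb, Matrix.fromBlocks_apply₂₁, Matrix.fromBlocks_apply₂₂]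
    simp_rw [g2, g3]
    have := g1 fun j => f (Sum.inr j)
    have := g1 fun j => f (Sum.inl j)
    linarith
  · intro f
    obtain ⟨α, hα⟩ : ∃ α : Fin m → ℝ, α = fun a => ∑ j, e a j * f (Sum.inl j) := ⟨_, rfl⟩
    obtain ⟨β, hβ⟩ : ∃ β : Fin m → ℝ, β = fun a => ∑ j, e a j * f (Sum.inr j) := ⟨_, rfl⟩
    have g2 : ∀ i, ∑ w, ((1 : Matrix (V m) (V m) ℝ) - s • Eb E)⁻¹ (Sum.inl i) w * f w =
        ∑ a, (p a * α a + r a * β a) * e a i := by
      intro i
      rw [hinv, Fintype.sum_sum_type]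
      simp only [Matrix.fromBlocks_apply₁₁, Matrix.fromBlocks_apply₁₂]
      rw [Vvb_row, Vvb_row, hα, hβ, ← Finset.sum_add_distrib]
      refine Finset.sum_congr rfl fun a _ => ?_
      ring
    have g3 : ∀ i, ∑ w, ((1 : Matrix (V m) (V m) ℝ) - s • Eb E)⁻¹ (Sum.inr i) w * f w =
        ∑ a, (r a * α a + p a * β a) * e a i := by
      intro i
      rw [hinv, Fintype.sum_sum_type]
      simp only [Matrix.fromBlocks_apply₂₁, Matrix.fromBlocks_apply₂₂]
      rw [Vvb_row, Vvb_row, hα, hβ, ← Finset.sum_add_distrib]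
      refine Finset.sum_congr rfl fun a _ => ?_
      ring
    rw [Fintype.sum_sum_type, Fintype.sum_sum_type]
    simp_rw [g2, g3]
    rw [Vvb_syn ho, Vvb_syn ho, ← Finset.sum_add_distrib, ← Vvb_par hc fun j => f (Sum.inl j),
      ← Vvb_par hc fun j => f (Sum.inr j), ← Finset.sum_add_distrib, Finset.mul_sum]
    refine Finset.sum_le_sum fun a _ => ?_
    have c1 : (∑ j, e a j * f (Sum.inl j)) = α a := by rw [hα]
    have c2 : (∑ j, e a j * f (Sum.inr j)) = β a := by rw [hβ]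
    rw [c1, c2]
    -- `(p + |r|)^2 ≤ 5`
    have c3 : p a ^ 2 + r a ^ 2 + 2 * |p a * r a| ≤ 5 := by
      have h := hq a
      have h2 : |s * l a| ≤ 0.54 := by
        have h3 := hsl a
        rw [← sq_abs] at h3
        by_contra h4
        push Not at h4
        nlinarith [abs_nonneg (s * l a)]
      have h5 : p a ^ 2 + r a ^ 2 + 2 * |p a * r a| = (1 / (1 - |s * l a|)) ^ 2 := by
        have h6 : 0 < 1 - |s * l a| := by linarith
        have h7 : 0 < 1 + |s * l a| := by positivity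
        have h8 : 1 - (s * l a) ^ 2 = (1 - |s * l a|) * (1 + |s * l a|) := by
          rw [← sq_abs (s * l a)]
          ring
        have h9 : p a = 1 / ((1 - |s * l a|) * (1 + |s * l a|)) := by
          rw [hp, ← h8]
        have h10 : r a ^ 2 = (|s * l a| / ((1 - |s * l a|) * (1 + |s * l a|))) ^ 2 := by
          rw [hr, ← h8, div_pow, div_pow, sq_abs]
        have h11 : |p a * r a| = |s * l a| / ((1 - |s * l a|) * (1 + |s * l a|)) ^ 2 := by
          have h12 : p a * r a = s * l a / ((1 - |s * l a|) * (1 + |s * l a|)) ^ 2 := by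
            rw [hp, hr, ← h8]
            have := hq0 a
            field_simp
          rw [h12, abs_div, abs_of_pos (by positivity : 0 < ((1 - |s * l a|) * (1 + |s * l a|)) ^ 2)]
        rw [h11, h9, h10]
        generalize |s * l a| = u at h6 h7 ⊢
        have := h6.ne'
        have := h7.ne'
        field_simp
        ring
      rw [h5, div_pow, one_pow, div_le_iff₀ (by nlinarith)]
      nlinarith [abs_nonneg (s * l a)]
    have c4 : (p a * α a + r a * β a) ^ 2 + (r a * α a + p a * β a) ^ 2 ≤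
        (p a ^ 2 + r a ^ 2 + 2 * |p a * r a|) * (α a ^ 2 + β a ^ 2) := by
      have d1 : (p a * α a + r a * β a) ^ 2 + (r a * α a + p a * β a) ^ 2 =
          (p a ^ 2 + r a ^ 2) * (α a ^ 2 + β a ^ 2) + 2 * ((p a * r a) * (2 * (α a * β a))) := by
        ring
      have d2 : (p a * r a) * (2 * (α a * β a)) ≤ |p a * r a| * (α a ^ 2 + β a ^ 2) := by
        refine (le_abs_self _).trans ?_
        rw [abs_mul]
        refine mul_le_mul_of_nonneg_left ?_ (abs_nonneg _)
        rw [abs_le]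
        constructor <;> nlinarith [sq_nonneg (α a + β a), sq_nonneg (α a - β a)]
      rw [d1]
      nlinarith
    refine c4.trans ?_
    exact mul_le_mul_of_nonneg_right c3 (by positivity)

end Pool.Agent.PCW
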