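import Pool.Agent.PCW.St

/-!
# PCW, module Wa1: product versus exponential (helper69)
-/

set_option autoImplicit false

namespace Pool.Agent.PCW

open Finset Filter MeasureTheory Matrix

private theorem Wa1_sum {C : ℝ} {m : ℕ} {E : Matrix (Fin m) (Fin m) ℝ} (hE : Hyp C m E)
    (x : Fin m → ℂ) : ∑ i, xj E x i = 0 := by
  unfold xj
  rw [Finset.sum_comm]
  refine Finset.sum_eq_zero fun j _ => ?_
  rw [← Finset.sum_mul]
  have h : ∑ i, (E i j : ℂ) = 0 := by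
    have h1 : ∑ i, E i j = 0 := by
      rw [← hE.row j]
      exact Finset.sum_congr rfl fun i _ => hE.symm i j
    rw [← Complex.ofReal_sum, h1, Complex.ofReal_zero]
  rw [h, zero_mul]

private theorem Wa1_prod {m : ℕ} (ξ : Fin m → ℂ) (hs : ∑ i, ξ i = 0) (t : ℝ) :
    ‖∏ i, (1 + (t : ℂ) * ξ i)‖ ≤ Real.exp (t ^ 2 / 2 * ∑ i, ‖ξ i‖ ^ 2) := by
  have h1 : ∀ i, ‖1 + (t : ℂ) * ξ i‖ ≤
      Real.exp (t * (ξ i).re + t ^ 2 / 2 * ‖ξ i‖ ^ 2) := by
    intro i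
    rw [← pow_le_pow_iff_left₀ (norm_nonneg _) (Real.exp_pos _).le two_ne_zero,
      ← Real.exp_nat_mul, Complex.sq_norm, Complex.sq_norm, Complex.normSq_apply,
      Complex.normSq_apply]
    have h2 := Real.add_one_le_exp (((2 : ℕ) : ℝ) * (t * (ξ i).re +
      t ^ 2 / 2 * ((ξ i).re * (ξ i).re + (ξ i).im * (ξ i).im)))
    refine le_trans (le_of_eq ?_) h2
    simp only [Complex.add_re, Complex.one_re, Complex.mul_re, Complex.ofReal_re,
      Complex.ofReal_im, Complex.add_im, Complex.one_im, Complex.mul_im, Nat.cast_ofNat]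
    ring
  have hre : ∑ i, (ξ i).re = 0 := by
    rw [← Complex.re_sum, hs, Complex.zero_re]
  rw [norm_prod]
  calc ∏ i, ‖1 + (t : ℂ) * ξ i‖
      ≤ ∏ i, Real.exp (t * (ξ i).re + t ^ 2 / 2 * ‖ξ i‖ ^ 2) :=
        Finset.prod_le_prod (fun i _ => norm_nonneg _) fun i _ => h1 i
    _ = Real.exp (t ^ 2 / 2 * ∑ i, ‖ξ i‖ ^ 2) := by
        rw [← Real.exp_sum, Finset.sum_add_distrib, ← Finset.mul_sum, ← Finset.mul_sum, hre,
          mul_zero, zero_add]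

private theorem Wa1_norm {m : ℕ} (ξ : Fin m → ℂ) (t : ℝ) :
    ‖Complex.exp (-(t : ℂ) ^ 2 / 2 * ∑ i, ξ i ^ 2)‖ =
      Real.exp (t ^ 2 / 2 * ∑ i, ((ξ i).im ^ 2 - (ξ i).re ^ 2)) := by
  rw [Complex.norm_exp]
  congr 1
  have h1 : (-(t : ℂ) ^ 2 / 2) = ((-(t ^ 2 / 2) : ℝ) : ℂ) := by
    push_cast
    ring
  rw [h1, Complex.re_ofReal_mul, Complex.re_sum, neg_mul, ← mul_neg, ← Finset.sum_neg_distrib]
  congr 1
  refine Finset.sum_congr rfl fun i _ => ?_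
  rw [sq (ξ i), Complex.mul_re]
  ring

private theorem Wa1_norm_le {m : ℕ} (ξ : Fin m → ℂ) (t : ℝ) :
    ‖Complex.exp (-(t : ℂ) ^ 2 / 2 * ∑ i, ξ i ^ 2)‖ ≤
      Real.exp (t ^ 2 / 2 * ∑ i, ‖ξ i‖ ^ 2) := by
  rw [Wa1_norm]
  refine Real.exp_le_exp.2 (mul_le_mul_of_nonneg_left (Finset.sum_le_sum fun i _ => ?_)
    (by positivity))
  rw [Complex.sq_norm, Complex.normSq_apply]
  nlinarith [sq_nonneg (ξ i).re, sq_nonneg (ξ i).im]

private theorem Wa1_log {y : ℂ} (hy : ‖y‖ ≤ 1 / 2) :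
    ‖Complex.log (1 + y) - (y - y ^ 2 / 2)‖ ≤ 2 / 3 * ‖y‖ ^ 3 := by
  have h := Complex.norm_log_sub_logTaylor_le 2 (z := y) (by linarith)
  have h1 : Complex.logTaylor (2 + 1) y = y - y ^ 2 / 2 := by
    simp [Complex.logTaylor, Finset.sum_range_succ]
    ring
  rw [h1] at h
  refine h.trans ?_
  have h2 : (1 - ‖y‖)⁻¹ ≤ 2 := by
    rw [inv_le_comm₀ (by linarith) (by norm_num)]
    linarith
  have h3 : 0 ≤ ‖y‖ ^ 3 := by positivity
  have h4 : ‖y‖ ^ (2 + 1) * (1 - ‖y‖)⁻¹ ≤ ‖y‖ ^ 3 * 2 := mul_le_mul_of_nonneg_left h2 h3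
  norm_num
  norm_num at h4
  linarith

private theorem Wa1_good {m : ℕ} (ξ : Fin m → ℂ) (hs : ∑ i, ξ i = 0) (t δ : ℝ)
    (ht : |t| ≤ 1.02) (h0 : 0 ≤ δ) (hδ : δ ≤ 1 / 100) (hm : m * δ ^ 3 ≤ 1)
    (hξ : ∀ i, ‖ξ i‖ ≤ δ) :
    ‖∏ i, (1 + (t : ℂ) * ξ i) - Complex.exp (-(t : ℂ) ^ 2 / 2 * ∑ i, ξ i ^ 2)‖ ≤
      2 * (m * δ ^ 3) * Real.exp (t ^ 2 / 2 * ∑ i, ((ξ i).im ^ 2 - (ξ i).re ^ 2)) := by
  have hyn : ∀ i, ‖(t : ℂ) * ξ i‖ ≤ 1.02 * δ := by
    intro i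
    rw [norm_mul, Complex.norm_real, Real.norm_eq_abs]
    exact mul_le_mul ht (hξ i) (norm_nonneg _) (by norm_num)
  set r : ℂ := ∑ i, (Complex.log (1 + (t : ℂ) * ξ i) -
    ((t : ℂ) * ξ i - ((t : ℂ) * ξ i) ^ 2 / 2)) with hr
  have hr1 : ‖r‖ ≤ m * δ ^ 3 := by
    refine (norm_sum_le _ _).trans ?_
    calc ∑ i, ‖Complex.log (1 + (t : ℂ) * ξ i) -
          ((t : ℂ) * ξ i - ((t : ℂ) * ξ i) ^ 2 / 2)‖ ≤ ∑ _i : Fin m, δ ^ 3 := by
          refine Finset.sum_le_sum fun i _ => ?_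
          have h2 := hyn i
          refine (Wa1_log (by linarith)).trans ?_
          have h3 : ‖(t : ℂ) * ξ i‖ ^ 3 ≤ (1.02 * δ) ^ 3 :=
            pow_le_pow_left₀ (norm_nonneg _) h2 3
          have h4 : 0 ≤ δ ^ 3 := by positivity
          have h5 : (1.02 * δ) ^ 3 = 1.061208 * δ ^ 3 := by ring
          rw [h5] at h3
          linarith
      _ = m * δ ^ 3 := by
          rw [Finset.sum_const, Finset.card_univ, Fintype.card_fin, nsmul_eq_mul]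
  have h1 : ∏ i, (1 + (t : ℂ) * ξ i) =
      Complex.exp (-(t : ℂ) ^ 2 / 2 * ∑ i, ξ i ^ 2) * Complex.exp r := by
    rw [← Complex.exp_add]
    have h2 : ∏ i, (1 + (t : ℂ) * ξ i) = Complex.exp (∑ i, Complex.log (1 + (t : ℂ) * ξ i)) := by
      rw [Complex.exp_sum]
      refine Finset.prod_congr rfl fun i _ => (Complex.exp_log ?_).symm
      intro h3
      have h4 : (t : ℂ) * ξ i = -1 := by linear_combination h3
      have h5 := hyn i
      rw [h4, norm_neg, norm_one] at h5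
      linarith
    rw [h2]
    congr 1
    rw [hr, Finset.sum_sub_distrib, Finset.sum_sub_distrib, ← Finset.mul_sum, hs, mul_zero,
      Finset.mul_sum]
    have h3 : ∑ i, ((t : ℂ) * ξ i) ^ 2 / 2 = -∑ i, -(t : ℂ) ^ 2 / 2 * ξ i ^ 2 := by
      rw [← Finset.sum_neg_distrib]
      refine Finset.sum_congr rfl fun i _ => ?_
      ring
    rw [h3]
    ring
  have h2 : ∏ i, (1 + (t : ℂ) * ξ i) - Complex.exp (-(t : ℂ) ^ 2 / 2 * ∑ i, ξ i ^ 2) =
      Complex.exp (-(t : ℂ) ^ 2 / 2 * ∑ i, ξ i ^ 2) * (Complex.exp r - 1) := by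
    rw [h1]
    ring
  rw [h2, norm_mul, Wa1_norm, mul_comm]
  refine mul_le_mul_of_nonneg_right ?_ (Real.exp_pos _).le
  exact (Complex.norm_exp_sub_one_le (hr1.trans hm)).trans (by linarith)

private theorem Wa1_young (s κ : ℝ) :
    Real.exp s ≤ Real.exp (-κ) * Real.exp (3 / 2 * s) + Real.exp (2 * κ) := by
  rcases le_total (2 * κ) s with h | h
  · have h1 : Real.exp s ≤ Real.exp (-κ) * Real.exp (3 / 2 * s) := by
      rw [← Real.exp_add]
      exact Real.exp_le_exp.2 (by linarith)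
    have h2 := Real.exp_pos (2 * κ)
    linarith
  · have h1 : Real.exp s ≤ Real.exp (2 * κ) := Real.exp_le_exp.2 h
    have h2 : 0 < Real.exp (-κ) * Real.exp (3 / 2 * s) := by positivity
    linarith

private theorem Wa1_cont {m : ℕ} : Continuous fun θ : Fin m → ℝ => xx θ := by
  unfold xx pt
  fun_prop

private theorem Wa1_mem {m : ℕ} (θ : Fin m → ℝ) : xx θ ∈ Metric.closedBall (0 : Fin m → ℂ) 2 := by
  rw [mem_closedBall_zero_iff, pi_norm_le_iff_of_nonneg (by norm_num)]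
  intro i
  unfold xx pt
  rw [norm_mul, Complex.norm_exp_ofReal_mul_I]
  norm_num

private theorem Wa1_int {m : ℕ} (hP : IsProbabilityMeasure nu2) {F : Type*}
    [NormedAddCommGroup F] (Φ : (Fin m → ℂ) → F) (hΦ : Continuous Φ)
    [SecondCountableTopologyEither (Fin m → ℝ) F] :
    Integrable (fun θ => Φ (xx θ)) (PP (Fin m)) := by
  have hP' : IsProbabilityMeasure (PP (Fin m)) := by
    unfold PP
    infer_instance
  obtain ⟨K, hK⟩ := (isCompact_closedBall (0 : Fin m → ℂ) 2).exists_bound_of_continuousOn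
    hΦ.continuousOn
  refine Integrable.of_bound (hΦ.comp Wa1_cont).aestronglyMeasurable K ?_
  exact Filter.Eventually.of_forall fun θ => hK _ (Wa1_mem θ)

private theorem Wa1_xj {m : ℕ} (E : Matrix (Fin m) (Fin m) ℝ) (i : Fin m) :
    Continuous fun x : Fin m → ℂ => xj E x i := by
  unfold xj
  fun_prop

private theorem Wa1_ev1 : ∀ᶠ m : ℕ in atTop, dl m ≤ 1 / 100 := by
  have h1 : Tendsto (fun m : ℕ => dl m) atTop (nhds 0) := by
    unfold dl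
    exact (tendsto_rpow_neg_atTop (by norm_num : (0 : ℝ) < 2 / 5)).comp tendsto_natCast_atTop_atTop
  exact h1.eventually (ge_mem_nhds (by norm_num))

private theorem Wa1_ev2 (K : ℕ) (D : ℝ) : ∀ᶠ m : ℕ in atTop,
    2 * (m : ℝ) ^ (-(1 / 5) : ℝ) * |D| + 4 * (Real.exp (-((m : ℝ) ^ (1 / 10 : ℝ) / 3)) *
      (m : ℝ) ^ K) ≤ (m : ℝ) ^ (-(3 / 20) : ℝ) := by
  have h1 : Tendsto (fun m : ℕ => 2 * |D| * (m : ℝ) ^ (-(1 / 20) : ℝ)) atTop (nhds 0) := by
    have := ((tendsto_rpow_neg_atTop (by norm_num : (0 : ℝ) < 1 / 20)).comp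
      tendsto_natCast_atTop_atTop).const_mul (2 * |D|)
    rw [mul_zero] at this
    exact this
  have h2 : Tendsto (fun m : ℕ => 4 * (((m : ℝ) ^ (1 / 10 : ℝ)) ^ (10 * (K : ℝ) + 3 / 2) *
      Real.exp (-(1 / 3) * (m : ℝ) ^ (1 / 10 : ℝ)))) atTop (nhds 0) := by
    have := ((tendsto_rpow_mul_exp_neg_mul_atTop_nhds_zero (10 * (K : ℝ) + 3 / 2) (1 / 3)
      (by norm_num)).comp ((tendsto_rpow_atTop (by norm_num : (0 : ℝ) < 1 / 10)).comp
      tendsto_natCast_atTop_atTop)).const_mul 4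
    rw [mul_zero] at this
    exact this
  have h3 := h1.add h2
  rw [add_zero] at h3
  filter_upwards [h3.eventually (ge_mem_nhds (by norm_num : (0 : ℝ) < 1)),
    eventually_ge_atTop 1] with m hm hm1
  have hm0 : (0 : ℝ) < m := by exact_mod_cast hm1
  have h4 : (m : ℝ) ^ (-(1 / 5) : ℝ) = (m : ℝ) ^ (-(1 / 20) : ℝ) * (m : ℝ) ^ (-(3 / 20) : ℝ) := by
    rw [← Real.rpow_add hm0]
    norm_num
  have h5 : (m : ℝ) ^ K = ((m : ℝ) ^ (1 / 10 : ℝ)) ^ (10 * (K : ℝ) + 3 / 2) *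
      (m : ℝ) ^ (-(3 / 20) : ℝ) := by
    rw [← Real.rpow_mul hm0.le, ← Real.rpow_add hm0, ← Real.rpow_natCast]
    congr 1
    ring
  have h6 : 0 < (m : ℝ) ^ (-(3 / 20) : ℝ) := Real.rpow_pos_of_pos hm0 _
  have h7 : -(1 / 3) * (m : ℝ) ^ (1 / 10 : ℝ) = -((m : ℝ) ^ (1 / 10 : ℝ) / 3) := by ring
  rw [h7] at hm
  calc 2 * (m : ℝ) ^ (-(1 / 5) : ℝ) * |D| + 4 * (Real.exp (-((m : ℝ) ^ (1 / 10 : ℝ) / 3)) *
      (m : ℝ) ^ K) = (2 * |D| * (m : ℝ) ^ (-(1 / 20) : ℝ) +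
        4 * (((m : ℝ) ^ (1 / 10 : ℝ)) ^ (10 * (K : ℝ) + 3 / 2) *
          Real.exp (-((m : ℝ) ^ (1 / 10 : ℝ) / 3)))) * (m : ℝ) ^ (-(3 / 20) : ℝ) := by
        rw [h4, h5]
        ring
    _ ≤ 1 * (m : ℝ) ^ (-(3 / 20) : ℝ) := mul_le_mul_of_nonneg_right hm h6.le
    _ = (m : ℝ) ^ (-(3 / 20) : ℝ) := one_mul _

/-- **[Wa1]** (4.4 (i)) product versus exponential. -/
theorem thm_Wa1 (h1 : St_Law) (h2 : St_Spe) (h3 : St_Exp) (h4 : St_Pb1) (h5 : St_Qfm) :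
    St_Wa1 := by
  intro C hC
  obtain ⟨K, hK⟩ := h3 C hC
  obtain ⟨D, hD⟩ := h5 C hC
  have hP : IsProbabilityMeasure nu2 := h1.2.1
  filter_upwards [hK, hD, h4 C hC, Wa1_ev1, Wa1_ev2 K D, eventually_ge_atTop 1] with m hKm hDm hPm
    hδ hev hm1 E hE t ht
  have hm0 : (0 : ℝ) < m := by exact_mod_cast hm1
  have hm1' : (1 : ℝ) ≤ m := by exact_mod_cast hm1
  have hP' : IsProbabilityMeasure (PP (Fin m)) := by
    unfold PP
    infer_instance
  -- the determinant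
  obtain ⟨e, l, hSp, hDl, -⟩ := h2 C m E hm1 hE
  have hl2 : ∀ a, l a ^ 2 ≤ 0.53 ^ 2 := fun a => by
    have := hSp.small a
    rw [← sq_abs]
    exact pow_le_pow_left₀ (abs_nonneg _) this 2
  have hDl0 : 0 < Dl E := by
    rw [hDl]
    refine Finset.prod_pos fun a _ => ?_
    have := hl2 a
    norm_num at this
    linarith
  have hDl1 : Dl E ≤ 1 := by
    rw [hDl]
    refine Finset.prod_le_one (fun a _ => ?_) fun a _ => ?_
    · have := hl2 a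
      norm_num at this
      linarith
    · have := sq_nonneg (l a)
      linarith
  have hR : 1 ≤ 1 / √(Dl E) := by
    rw [le_div_iff₀ (Real.sqrt_pos.2 hDl0), one_mul]
    exact Real.sqrt_le_one.2 hDl1
  -- the parameters
  have hδ0 : 0 ≤ dl m := by
    unfold dl
    positivity
  have hδ3 : (m : ℝ) * dl m ^ 3 = (m : ℝ) ^ (-(1 / 5) : ℝ) := by
    unfold dl
    rw [← Real.rpow_natCast, ← Real.rpow_mul hm0.le]
    nth_rewrite 1 [← Real.rpow_one (m : ℝ)]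
    rw [← Real.rpow_add hm0]
    norm_num
  have hδ31 : (m : ℝ) * dl m ^ 3 ≤ 1 := by
    rw [hδ3]
    exact Real.rpow_le_one_of_one_le_of_nonpos hm1' (by norm_num)
  have htabs : |t| ≤ 1.02 := by
    have h6 := abs_le.1 ht
    rw [abs_le]
    norm_num
    constructor <;> linarith [h6.1, h6.2]
  have ht2 : 0.75 * t ^ 2 ≤ 0.8 := by
    have h6 : t ^ 2 ≤ 1.02 ^ 2 := by
      rw [← sq_abs]
      exact pow_le_pow_left₀ (abs_nonneg _) htabs 2
    norm_num at h6 ⊢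
    linarith
  set κ : ℝ := (m : ℝ) ^ (1 / 10 : ℝ) / 3 with hκ
  -- the bad set
  set S : Set (Fin m → ℝ) := {θ | ¬ ∀ i, ‖xj E (xx θ) i‖ ≤ dl m} with hS
  have hSm : MeasurableSet S := by
    have h6 : IsClosed {θ : Fin m → ℝ | ∀ i, ‖xj E (xx θ) i‖ ≤ dl m} := by
      rw [Set.ofPred_forall]
      exact isClosed_iInter fun i =>
        isClosed_le ((Wa1_xj E i).comp Wa1_cont).norm continuous_const
    exact h6.measurableSet.compl
  have hSP : (PP (Fin m)).real S ≤ Real.exp (-(3 * κ)) := by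
    have h6 := hPm E hE
    have h7 : -(3 * κ) = -(m : ℝ) ^ (1 / 10 : ℝ) := by
      rw [hκ]
      ring
    rw [h7]
    exact h6
  -- integrability
  have hxc : ∀ i, Continuous fun x : Fin m → ℂ => xj E x i := Wa1_xj E
  have hiF : Integrable (fun θ => ∏ i, (1 + (t : ℂ) * xj E (xx θ) i)) (PP (Fin m)) :=
    Wa1_int hP (fun x => ∏ i, (1 + (t : ℂ) * xj E x i))
      (continuous_finsetProd _ fun i _ => continuous_const.add (continuous_const.mul (hxc i)))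
  have hiH : Integrable (fun θ => Complex.exp (-(t : ℂ) ^ 2 / 2 * ∑ i, xj E (xx θ) i ^ 2))
      (PP (Fin m)) :=
    Wa1_int hP (fun x => Complex.exp (-(t : ℂ) ^ 2 / 2 * ∑ i, xj E x i ^ 2))
      (Complex.continuous_exp.comp (continuous_const.mul
        (continuous_finsetSum _ fun i _ => (hxc i).pow 2)))
  have hiq : Integrable (fun θ => Real.exp (t ^ 2 / 2 * ∑ i, ((xj E (xx θ) i).im ^ 2 -
      (xj E (xx θ) i).re ^ 2))) (PP (Fin m)) :=
    Wa1_int hP (fun x => Real.exp (t ^ 2 / 2 * ∑ i, ((xj E x i).im ^ 2 - (xj E x i).re ^ 2)))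
      (Real.continuous_exp.comp (continuous_const.mul
        (continuous_finsetSum _ fun i _ => ((Complex.continuous_im.comp (hxc i)).pow 2).sub
          ((Complex.continuous_re.comp (hxc i)).pow 2))))
  have hia : Integrable (fun θ => Real.exp (0.75 * t ^ 2 * ∑ i, ‖xj E (xx θ) i‖ ^ 2))
      (PP (Fin m)) :=
    Wa1_int hP (fun x => Real.exp (0.75 * t ^ 2 * ∑ i, ‖xj E x i‖ ^ 2))
      (Real.continuous_exp.comp (continuous_const.mul
        (continuous_finsetSum _ fun i _ => (hxc i).norm.pow 2)))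
  have his : Integrable (S.indicator fun _ : Fin m → ℝ => 2 * Real.exp (2 * κ)) (PP (Fin m)) :=
    (integrable_const _).indicator hSm
  -- the pointwise bound
  have hpt : ∀ θ : Fin m → ℝ, ‖∏ i, (1 + (t : ℂ) * xj E (xx θ) i) -
      Complex.exp (-(t : ℂ) ^ 2 / 2 * ∑ i, xj E (xx θ) i ^ 2)‖ ≤
      2 * (m * dl m ^ 3) * Real.exp (t ^ 2 / 2 * ∑ i, ((xj E (xx θ) i).im ^ 2 -
        (xj E (xx θ) i).re ^ 2)) +
      2 * Real.exp (-κ) * Real.exp (0.75 * t ^ 2 * ∑ i, ‖xj E (xx θ) i‖ ^ 2) +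
      S.indicator (fun _ : Fin m → ℝ => 2 * Real.exp (2 * κ)) θ := by
    intro θ
    have hs := Wa1_sum hE (xx θ)
    have hp1 : 0 ≤ 2 * (m * dl m ^ 3) * Real.exp (t ^ 2 / 2 * ∑ i, ((xj E (xx θ) i).im ^ 2 -
        (xj E (xx θ) i).re ^ 2)) := by positivity
    have hp2 : 0 ≤ 2 * Real.exp (-κ) * Real.exp (0.75 * t ^ 2 * ∑ i, ‖xj E (xx θ) i‖ ^ 2) := by
      positivity
    by_cases hθ : θ ∈ S
    · rw [Set.indicator_of_mem hθ]
      have h6 := Wa1_prod (fun i => xj E (xx θ) i) hs t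
      have h7 := Wa1_norm_le (fun i => xj E (xx θ) i) t
      have h8 := Wa1_young (t ^ 2 / 2 * ∑ i, ‖xj E (xx θ) i‖ ^ 2) κ
      have h9 : 3 / 2 * (t ^ 2 / 2 * ∑ i, ‖xj E (xx θ) i‖ ^ 2) =
          0.75 * t ^ 2 * ∑ i, ‖xj E (xx θ) i‖ ^ 2 := by ring
      rw [h9] at h8
      refine (norm_sub_le _ _).trans ?_
      nlinarith [h6, h7, h8]
    · rw [Set.indicator_of_notMem hθ]
      have h6 : ∀ i, ‖xj E (xx θ) i‖ ≤ dl m := by
        by_contra h7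
        exact hθ h7
      have h8 := Wa1_good (fun i => xj E (xx θ) i) hs t (dl m) htabs hδ0 hδ hδ31 h6
      linarith
  -- integration
  rw [← integral_sub hiF hiH]
  refine (norm_integral_le_integral_norm _).trans ?_
  have hI1 := integral_mono (hiF.sub hiH).norm
    (((hiq.const_mul (2 * (m * dl m ^ 3))).add (hia.const_mul (2 * Real.exp (-κ)))).add his) hpt
  refine hI1.trans ?_
  have hI2 : ∫ θ, (((fun θ : Fin m → ℝ => 2 * (m * dl m ^ 3) * Real.exp (t ^ 2 / 2 *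
      ∑ i, ((xj E (xx θ) i).im ^ 2 - (xj E (xx θ) i).re ^ 2))) + (fun θ : Fin m → ℝ =>
        2 * Real.exp (-κ) * Real.exp (0.75 * t ^ 2 * ∑ i, ‖xj E (xx θ) i‖ ^ 2)) +
      S.indicator (fun _ : Fin m → ℝ => 2 * Real.exp (2 * κ)) : (Fin m → ℝ) → ℝ)) θ
        ∂(PP (Fin m)) =
      2 * (m * dl m ^ 3) * ∫ θ, Real.exp (t ^ 2 / 2 *
        ∑ i, ((xj E (xx θ) i).im ^ 2 - (xj E (xx θ) i).re ^ 2)) ∂(PP (Fin m)) +
      2 * Real.exp (-κ) * ∫ θ, Real.exp (0.75 * t ^ 2 * ∑ i, ‖xj E (xx θ) i‖ ^ 2)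
        ∂(PP (Fin m)) + (PP (Fin m)).real S * (2 * Real.exp (2 * κ)) := by
    rw [integral_add' ((hiq.const_mul _).add (hia.const_mul _)) his,
      integral_add' (hiq.const_mul _) (hia.const_mul _), integral_const_mul, integral_const_mul,
      integral_indicator_const _ hSm, smul_eq_mul]
  refine (le_of_eq hI2).trans ?_
  have hq := hDm E hE t ht
  have ha := hKm E hE (0.75 * t ^ 2) (by positivity) ht2
  have hD' : D / √(Dl E) ≤ |D| * (1 / √(Dl E)) := by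
    rw [mul_one_div]
    exact div_le_div_of_nonneg_right (le_abs_self D) (Real.sqrt_nonneg _)
  have hS2 : (PP (Fin m)).real S * (2 * Real.exp (2 * κ)) ≤ 2 * Real.exp (-κ) := by
    calc (PP (Fin m)).real S * (2 * Real.exp (2 * κ))
        ≤ Real.exp (-(3 * κ)) * (2 * Real.exp (2 * κ)) :=
          mul_le_mul_of_nonneg_right hSP (by positivity)
      _ = 2 * (Real.exp (-(3 * κ)) * Real.exp (2 * κ)) := by ring
      _ = 2 * Real.exp (-κ) := by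
          rw [← Real.exp_add]
          congr 2
          ring
  have hKm1 : (1 : ℝ) ≤ (m : ℝ) ^ K := one_le_pow₀ hm1'
  have hex := Real.exp_pos (-κ)
  have hm5 : 0 ≤ (m : ℝ) ^ (-(1 / 5) : ℝ) := by positivity
  rw [hδ3]
  calc 2 * (m : ℝ) ^ (-(1 / 5) : ℝ) * (∫ θ, Real.exp (t ^ 2 / 2 *
        ∑ i, ((xj E (xx θ) i).im ^ 2 - (xj E (xx θ) i).re ^ 2)) ∂(PP (Fin m))) +
      2 * Real.exp (-κ) * (∫ θ, Real.exp (0.75 * t ^ 2 * ∑ i, ‖xj E (xx θ) i‖ ^ 2)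
        ∂(PP (Fin m))) + (PP (Fin m)).real S * (2 * Real.exp (2 * κ))
      ≤ 2 * (m : ℝ) ^ (-(1 / 5) : ℝ) * (|D| * (1 / √(Dl E))) +
        2 * Real.exp (-κ) * (m : ℝ) ^ K + 2 * Real.exp (-κ) := by
        refine add_le_add (add_le_add ?_ ?_) hS2
        · exact mul_le_mul_of_nonneg_left (hq.trans hD') (by positivity)
        · exact mul_le_mul_of_nonneg_left ha (by positivity)
    _ ≤ 2 * (m : ℝ) ^ (-(1 / 5) : ℝ) * (|D| * (1 / √(Dl E))) +
        4 * (Real.exp (-κ) * (m : ℝ) ^ K) := by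
        nlinarith [mul_le_mul_of_nonneg_left hKm1 hex.le]
    _ ≤ (2 * (m : ℝ) ^ (-(1 / 5) : ℝ) * |D| + 4 * (Real.exp (-κ) * (m : ℝ) ^ K)) *
        (1 / √(Dl E)) := by
        have h6 : 0 ≤ 4 * (Real.exp (-κ) * (m : ℝ) ^ K) := by positivity
        nlinarith [mul_le_mul_of_nonneg_left hR h6]
    _ ≤ (m : ℝ) ^ (-(3 / 20) : ℝ) * (1 / √(Dl E)) :=
        mul_le_mul_of_nonneg_right hev (by linarith)
    _ = (m : ℝ) ^ (-(3 / 20) : ℝ) / √(Dl E) := by rw [mul_one_div]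

end Pool.Agent.PCW
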