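import Pool.Agent.PCW.St

set_option autoImplicit false

/-! PCW Wa2: Gaussian asymptotics. -/

namespace Pool.Agent.PCW

open Finset Filter MeasureTheory Matrix

/-! ### pointwise bounds -/

private theorem Wa2_fac {u : ℝ} (hu : |u| ≤ 1 / 2) :
    ‖(1 + Complex.I * u) * Complex.exp (-(Complex.I * u) - (u : ℂ) ^ 2 / 2) - 1‖ ≤
      3 * |u| ^ 3 := by
  set z : ℂ := -(Complex.I * u) - (u : ℂ) ^ 2 / 2 with hz
  have hI : Complex.I ^ 2 = -1 := Complex.I_sq
  have hnu : ‖(u : ℂ)‖ = |u| := by rw [Complex.norm_real, Real.norm_eq_abs]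
  have h0 : 0 ≤ |u| := abs_nonneg u
  have hz1 : ‖z‖ ≤ 5 / 4 * |u| := by
    calc ‖z‖ ≤ ‖-(Complex.I * u)‖ + ‖(u : ℂ) ^ 2 / 2‖ := norm_sub_le _ _
      _ = |u| + |u| ^ 2 / 2 := by
          rw [norm_neg, norm_mul, Complex.norm_I, one_mul, norm_div, norm_pow, hnu]
          simp
      _ ≤ 5 / 4 * |u| := by nlinarith
  have hz2 : ‖z‖ ≤ 1 := by linarith
  have hρ := Complex.exp_bound hz2 (n := 3) (by norm_num)
  set ρ : ℂ := Complex.exp z - ∑ m ∈ range 3, z ^ m / m.factorial with hρd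
  have hρ2 : ‖ρ‖ ≤ 1 / 2 * |u| ^ 3 := by
    refine hρ.trans ?_
    have h3 : ‖z‖ ^ 3 ≤ (5 / 4 * |u|) ^ 3 := pow_le_pow_left₀ (norm_nonneg _) hz1 3
    have h4 : (((3 : ℕ).succ : ℝ) * ((Nat.factorial 3 : ℝ) * (3 : ℕ))⁻¹) = 2 / 9 := by
      norm_num [Nat.factorial]
    rw [h4]
    have h5 : 0 ≤ |u| ^ 3 := by positivity
    nlinarith
  have hsum : Complex.exp z = 1 + z + z ^ 2 / 2 + ρ := by
    rw [hρd]
    simp [Finset.sum_range_succ, Nat.factorial]
  have hexp : (1 + Complex.I * u) * Complex.exp z - 1 =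
      (-(Complex.I * u ^ 3 / 2) - 3 / 8 * u ^ 4 + Complex.I * u ^ 5 / 8) +
        (1 + Complex.I * u) * ρ := by
    rw [hsum, hz]
    linear_combination (-(u : ℂ) ^ 2 / 2 + Complex.I * u ^ 3 / 2 + (u : ℂ) ^ 4 / 2) * hI
  rw [hexp]
  have hA : ‖(-(Complex.I * u ^ 3 / 2) - 3 / 8 * u ^ 4 + Complex.I * u ^ 5 / 8 : ℂ)‖ ≤
      |u| ^ 3 := by
    calc ‖(-(Complex.I * u ^ 3 / 2) - 3 / 8 * u ^ 4 + Complex.I * u ^ 5 / 8 : ℂ)‖
        ≤ ‖-(Complex.I * (u : ℂ) ^ 3 / 2)‖ + ‖(3 / 8 * u ^ 4 : ℂ)‖ +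
          ‖(Complex.I * u ^ 5 / 8 : ℂ)‖ :=
          (norm_add_le _ _).trans (add_le_add (norm_sub_le _ _) le_rfl)
      _ = |u| ^ 3 / 2 + 3 / 8 * |u| ^ 4 + |u| ^ 5 / 8 := by
          simp only [norm_neg, norm_div, norm_mul, norm_pow, Complex.norm_I, hnu, one_mul,
            Complex.norm_ofNat]
      _ ≤ |u| ^ 3 := by
          have h3 : 0 ≤ |u| ^ 3 := by positivity
          have h4 : |u| ^ 4 ≤ |u| ^ 3 * (1 / 2) := by
            have : |u| ^ 4 = |u| ^ 3 * |u| := by ring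
            rw [this]
            exact mul_le_mul_of_nonneg_left hu h3
          have h5 : |u| ^ 5 ≤ |u| ^ 3 * (1 / 4) := by
            have : |u| ^ 5 = |u| ^ 3 * |u| ^ 2 := by ring
            rw [this]
            apply mul_le_mul_of_nonneg_left _ h3
            nlinarith
          linarith
  have hB : ‖(1 + Complex.I * u) * ρ‖ ≤ |u| ^ 3 := by
    have h1 : ‖(1 + Complex.I * u : ℂ)‖ ≤ 3 / 2 := by
      calc ‖(1 + Complex.I * u : ℂ)‖ ≤ ‖(1 : ℂ)‖ + ‖Complex.I * u‖ := norm_add_le _ _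
        _ = 1 + |u| := by rw [norm_one, norm_mul, Complex.norm_I, hnu, one_mul]
        _ ≤ 3 / 2 := by linarith
    rw [norm_mul]
    calc ‖(1 + Complex.I * u : ℂ)‖ * ‖ρ‖ ≤ 3 / 2 * (1 / 2 * |u| ^ 3) :=
          mul_le_mul h1 hρ2 (norm_nonneg _) (by norm_num)
      _ ≤ |u| ^ 3 := by
          have h3 : 0 ≤ |u| ^ 3 := by positivity
          linarith
  have h3 : 0 ≤ |u| ^ 3 := by positivity
  calc _ ≤ _ := norm_add_le _ _
    _ ≤ 3 * |u| ^ 3 := by linarith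

private theorem Wa2_prod {m : ℕ} (u : Fin m → ℝ) (hs : ∑ j, u j = 0)
    (hu : ∀ j, |u j| ≤ 1 / 2) :
    ‖∏ j, (1 + Complex.I * u j) - (Real.exp ((∑ j, u j ^ 2) / 2) : ℂ)‖ ≤
      Real.exp ((∑ j, u j ^ 2) / 2) * (Real.exp (3 * ∑ j, |u j| ^ 3) - 1) := by
  set S : ℝ := (∑ j, u j ^ 2) / 2 with hS
  have h1 : ∏ j, (1 + ((1 + Complex.I * u j) *
      Complex.exp (-(Complex.I * u j) - (u j : ℂ) ^ 2 / 2) - 1)) =
      (∏ j, (1 + Complex.I * u j)) * Complex.exp (-(S : ℂ)) := by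
    have h2 : ∀ j, 1 + ((1 + Complex.I * u j) *
        Complex.exp (-(Complex.I * u j) - (u j : ℂ) ^ 2 / 2) - 1) =
        (1 + Complex.I * u j) * Complex.exp (-(Complex.I * u j) - (u j : ℂ) ^ 2 / 2) := by
      intro j; ring
    simp_rw [h2]
    rw [Finset.prod_mul_distrib, ← Complex.exp_sum]
    congr 2
    rw [Finset.sum_sub_distrib, Finset.sum_neg_distrib, ← Finset.mul_sum]
    have h3 : ∑ j, (u j : ℂ) = 0 := by
      rw [← Complex.ofReal_sum, hs, Complex.ofReal_zero]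
    rw [h3, hS]
    push_cast
    rw [Finset.sum_div]
    ring
  have h4 := Finset.norm_prod_one_add_sub_one_le (Finset.univ : Finset (Fin m))
    (fun j => (1 + Complex.I * u j) *
      Complex.exp (-(Complex.I * u j) - (u j : ℂ) ^ 2 / 2) - 1)
  rw [h1] at h4
  have h5 : Real.exp (∑ j, ‖(1 + Complex.I * u j) *
      Complex.exp (-(Complex.I * u j) - (u j : ℂ) ^ 2 / 2) - 1‖) ≤
      Real.exp (3 * ∑ j, |u j| ^ 3) := by
    apply Real.exp_le_exp.2
    rw [Finset.mul_sum]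
    exact Finset.sum_le_sum fun j _ => Wa2_fac (hu j)
  have h6 : ∏ j, (1 + Complex.I * u j) - (Real.exp S : ℂ) =
      (Real.exp S : ℂ) * ((∏ j, (1 + Complex.I * u j)) * Complex.exp (-(S : ℂ)) - 1) := by
    rw [mul_sub, mul_one, mul_left_comm, Complex.ofReal_exp, ← Complex.exp_add, add_neg_cancel,
      Complex.exp_zero, mul_one]
  rw [h6, norm_mul, Complex.norm_real, Real.norm_of_nonneg (Real.exp_pos S).le]
  exact mul_le_mul_of_nonneg_left (h4.trans (sub_le_sub_right h5 1)) (Real.exp_pos S).le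

private theorem Wa2_norm {m : ℕ} (u : Fin m → ℝ) :
    ‖∏ j, (1 + Complex.I * u j)‖ ≤ Real.exp ((∑ j, u j ^ 2) / 2) := by
  rw [norm_prod, Finset.sum_div, Real.exp_sum]
  apply Finset.prod_le_prod (fun j _ => norm_nonneg _)
  intro j _
  rw [← sq_le_sq₀ (norm_nonneg _) (Real.exp_pos _).le, Complex.sq_norm, Complex.normSq_apply,
    ← Real.exp_nat_mul]
  have h := Real.add_one_le_exp (u j ^ 2)
  have h2 : ((2 : ℕ) : ℝ) * (u j ^ 2 / 2) = u j ^ 2 := by push_cast; ring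
  rw [h2]
  simp only [Complex.add_re, Complex.one_re, Complex.mul_re, Complex.I_re, Complex.ofReal_re,
    zero_mul, Complex.I_im, Complex.ofReal_im, mul_zero, sub_zero, add_zero, mul_one,
    Complex.add_im, Complex.one_im, Complex.mul_im, one_mul, zero_add]
  nlinarith

/-! ### the exchange of the integrals -/

private theorem Wa2_gau1 (z : ℂ) :
    ∫ g : ℝ, Complex.exp (z * g) ∂(ProbabilityTheory.gaussianReal 0 1) =
      Complex.exp (z ^ 2 / 2) := by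
  have h := ProbabilityTheory.complexMGF_id_gaussianReal (μ := 0) (v := 1) z
  unfold ProbabilityTheory.complexMGF at h
  simp only [id_eq, Complex.ofReal_zero, mul_zero, NNReal.coe_one, Complex.ofReal_one, one_mul,
    zero_add] at h
  exact h

private theorem Wa2_gau {m : ℕ} (c : Fin m → ℂ) :
    ∫ g : Fin m → ℝ, Complex.exp (∑ a, c a * g a)
      ∂(Measure.pi fun _ => ProbabilityTheory.gaussianReal 0 1) =
      Complex.exp (∑ a, c a ^ 2 / 2) := by
  simp_rw [Complex.exp_sum]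
  rw [integral_fintype_prod_eq_prod (fun (a : Fin m) (g : ℝ) => Complex.exp (c a * g))]
  exact Finset.prod_congr rfl fun a _ => Wa2_gau1 (c a)

private theorem Wa2_the (h1 : St_Law) {m : ℕ} (u : Fin m → ℝ) :
    ∫ θ : Fin m → ℝ, Complex.exp (∑ j, Complex.I * u j * xx θ j) ∂(PP (Fin m)) =
      ∏ j, (1 + Complex.I * u j) := by
  obtain ⟨-, hp, -, -, -, h6⟩ := h1
  have := hp
  simp_rw [Complex.exp_sum]
  unfold PP xx
  rw [integral_fintype_prod_eq_prod
    (fun (j : Fin m) (θ : ℝ) => Complex.exp (Complex.I * u j * pt 2 θ))]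
  exact Finset.prod_congr rfl fun j _ => h6 (u j)

/-- the exponential of a linear form of the absolute values is integrable -/
private theorem Wa2_intexp {m : ℕ} (K : Fin m → ℝ) :
    Integrable (fun g : Fin m → ℝ => Real.exp (∑ a, K a * |g a|))
      (Measure.pi fun _ => ProbabilityTheory.gaussianReal 0 1) := by
  simp_rw [Real.exp_sum]
  refine Integrable.fintype_prod (f := fun (a : Fin m) (g : ℝ) => Real.exp (K a * |g|)) ?_
  intro a
  have h1 := (ProbabilityTheory.integrable_exp_mul_gaussianReal (μ := 0) (v := 1) (K a)).add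
    (ProbabilityTheory.integrable_exp_mul_gaussianReal (μ := 0) (v := 1) (-K a))
  refine h1.mono' (by fun_prop) (Filter.Eventually.of_forall fun g => ?_)
  rw [Real.norm_of_nonneg (Real.exp_pos _).le]
  simp only [Pi.add_apply]
  rcases abs_choice g with h | h
  · rw [h]
    have := Real.exp_pos (-K a * g)
    linarith
  · rw [h]
    have h2 : K a * -g = -K a * g := by ring
    rw [h2]
    have := Real.exp_pos (K a * g)
    linarith

private theorem Wa2_xxn {m : ℕ} (θ : Fin m → ℝ) (j : Fin m) : ‖xx θ j‖ = 2 := by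
  unfold xx pt
  rw [norm_mul, Complex.norm_exp_ofReal_mul_I, mul_one]
  simp

private theorem Wa2_xxc {m : ℕ} : Continuous fun θ : Fin m → ℝ => xx θ := by
  unfold xx pt
  fun_prop

private theorem Wa2_swap (h1 : St_Law) {m : ℕ} (A : Fin m → Fin m → ℝ) :
    ∫ θ : Fin m → ℝ, (∫ g : Fin m → ℝ, Complex.exp (∑ j, Complex.I *
        (∑ a, A a j * g a : ℝ) * xx θ j)
        ∂(Measure.pi fun _ => ProbabilityTheory.gaussianReal 0 1)) ∂(PP (Fin m)) =
      ∫ g : Fin m → ℝ, ∏ j, (1 + Complex.I * (∑ a, A a j * g a : ℝ))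
        ∂(Measure.pi fun _ => ProbabilityTheory.gaussianReal 0 1) := by
  have := h1.2.1
  have : IsProbabilityMeasure (PP (Fin m)) := by unfold PP; infer_instance
  rw [integral_integral_swap]
  · congr 1
    funext g
    exact Wa2_the h1 _
  · have hb := (Wa2_intexp (fun a => ∑ j, 2 * |A a j|)).comp_snd (PP (Fin m))
    refine hb.mono' ?_ (Filter.Eventually.of_forall fun p => ?_)
    · apply Continuous.aestronglyMeasurable
      unfold Function.uncurry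
      have hx : Continuous fun θ : Fin m → ℝ => xx θ := Wa2_xxc
      have hx' : ∀ j, Continuous fun p : (Fin m → ℝ) × (Fin m → ℝ) => xx p.1 j := fun j =>
        (continuous_apply j).comp (hx.comp continuous_fst)
      fun_prop
    · unfold Function.uncurry
      rw [Complex.norm_exp]
      apply Real.exp_le_exp.2
      rw [Complex.re_sum]
      calc ∑ j, (Complex.I * (∑ a, A a j * p.2 a : ℝ) * xx p.1 j).re
          ≤ ∑ j, 2 * ∑ a, |A a j| * |p.2 a| := by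
            apply Finset.sum_le_sum
            intro j _
            refine (Complex.re_le_norm _).trans ?_
            rw [norm_mul, norm_mul, Complex.norm_I, one_mul, Wa2_xxn, Complex.norm_real,
              Real.norm_eq_abs, mul_comm]
            apply mul_le_mul_of_nonneg_left _ (by norm_num)
            refine (Finset.abs_sum_le_sum_abs _ _).trans ?_
            exact Finset.sum_le_sum fun a _ => (abs_mul _ _).le
        _ = ∑ a, (∑ j, 2 * |A a j|) * |p.2 a| := by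
            simp_rw [Finset.mul_sum, Finset.sum_mul]
            rw [Finset.sum_comm]
            refine Finset.sum_congr rfl fun a _ => Finset.sum_congr rfl fun j _ => by ring

/-! ### the determinant -/

private theorem Wa2_r1 {l t δ : ℝ} (hl : |l| ≤ 0.53) (ht : |t - 1| ≤ 2 * δ) (hδ : δ ≤ 1 / 200) :
    |(√(1 - 2 * (1 / 2) * t ^ 2 * l ^ 2))⁻¹ * √(1 - l ^ 2) - 1| ≤ 10 * δ * l ^ 2 := by
  have hl2 : l ^ 2 ≤ 0.2809 := by
    have h := pow_le_pow_left₀ (abs_nonneg l) hl 2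
    rw [sq_abs] at h
    norm_num at h ⊢
    linarith
  have hl0 : 0 ≤ l ^ 2 := sq_nonneg l
  have ht1 := abs_le.1 ht
  have htlo : 0.99 ≤ t := by linarith [ht1.1]
  have hthi : t ≤ 1.01 := by linarith [ht1.2]
  have ht2 : t ^ 2 ≤ 1.0201 := by nlinarith
  have hδ0 : 0 ≤ δ := by linarith [abs_nonneg (t - 1)]
  have hd : 1 - 2 * (1 / 2) * t ^ 2 * l ^ 2 = 1 - t ^ 2 * l ^ 2 := by ring
  rw [hd]
  have htl : t ^ 2 * l ^ 2 ≤ 1 / 2 := by nlinarith [sq_nonneg t]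
  have hA : 0 < 1 - t ^ 2 * l ^ 2 := by linarith
  have hB : 0 < 1 - l ^ 2 := by linarith
  set q : ℝ := (√(1 - t ^ 2 * l ^ 2))⁻¹ * √(1 - l ^ 2) with hq
  have hq0 : 0 ≤ q := by positivity
  have hq2 : q ^ 2 = (1 - l ^ 2) / (1 - t ^ 2 * l ^ 2) := by
    rw [hq, mul_pow, inv_pow, Real.sq_sqrt hA.le, Real.sq_sqrt hB.le]
    field_simp
  have h1 : |q - 1| ≤ |q ^ 2 - 1| := by
    have h2 : q ^ 2 - 1 = (q - 1) * (q + 1) := by ring
    rw [h2, abs_mul]
    have h3 : 1 ≤ |q + 1| := by rw [abs_of_nonneg (by linarith)]; linarith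
    exact le_mul_of_one_le_right (abs_nonneg _) h3
  refine h1.trans ?_
  have h2 : q ^ 2 - 1 = (t ^ 2 - 1) * l ^ 2 / (1 - t ^ 2 * l ^ 2) := by
    rw [hq2, eq_div_iff hA.ne', sub_mul, div_mul_cancel₀ _ hA.ne']
    ring
  rw [h2, abs_div, abs_mul, abs_of_nonneg hl0, abs_of_pos hA, div_le_iff₀ hA]
  have h3 : |t ^ 2 - 1| ≤ 5 * δ := by
    have h4 : t ^ 2 - 1 = (t - 1) * (t + 1) := by ring
    rw [h4, abs_mul, abs_of_nonneg (show 0 ≤ t + 1 by linarith)]
    calc |t - 1| * (t + 1) ≤ 2 * δ * 2.01 :=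
          mul_le_mul ht (by linarith) (by linarith) (by linarith)
      _ ≤ 5 * δ := by linarith
  calc |t ^ 2 - 1| * l ^ 2 ≤ 5 * δ * l ^ 2 := mul_le_mul_of_nonneg_right h3 hl0
    _ = 10 * δ * l ^ 2 * (1 / 2) := by ring
    _ ≤ 10 * δ * l ^ 2 * (1 - t ^ 2 * l ^ 2) := by
        apply mul_le_mul_of_nonneg_left (by linarith)
        positivity

private theorem Wa2_sqrt {m : ℕ} (f : Fin m → ℝ) (hf : ∀ a, 0 ≤ f a) :
    √(∏ a, f a) = ∏ a, √(f a) := by
  rw [Real.sqrt_eq_iff_mul_self_eq (Finset.prod_nonneg fun a _ => hf a)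
    (Finset.prod_nonneg fun a _ => Real.sqrt_nonneg _), ← Finset.prod_mul_distrib]
  exact Finset.prod_congr rfl fun a _ => (Real.mul_self_sqrt (hf a)).symm

private theorem Wa2_det {m : ℕ} {l : Fin m → ℝ} {t δ κ : ℝ} (hl : ∀ a, |l a| ≤ 0.53)
    (ht : |t - 1| ≤ 2 * δ) (hδ : δ ≤ 1 / 200) (hκ : 10 * δ * ∑ a, l a ^ 2 ≤ κ) :
    |(∏ a, (√(1 - 2 * (1 / 2) * t ^ 2 * l a ^ 2))⁻¹) * √(∏ a, (1 - l a ^ 2)) - 1| ≤
      Real.exp κ - 1 := by
  have hl2 : ∀ a, 0 ≤ 1 - l a ^ 2 := by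
    intro a
    have h := pow_le_pow_left₀ (abs_nonneg (l a)) (hl a) 2
    rw [sq_abs] at h
    norm_num at h
    linarith
  rw [Wa2_sqrt _ hl2, ← Finset.prod_mul_distrib]
  have h1 := Finset.norm_prod_one_add_sub_one_le (Finset.univ : Finset (Fin m))
    (fun a => (√(1 - 2 * (1 / 2) * t ^ 2 * l a ^ 2))⁻¹ * √(1 - l a ^ 2) - 1)
  have h2 : ∀ a, 1 + ((√(1 - 2 * (1 / 2) * t ^ 2 * l a ^ 2))⁻¹ * √(1 - l a ^ 2) - 1) =
      (√(1 - 2 * (1 / 2) * t ^ 2 * l a ^ 2))⁻¹ * √(1 - l a ^ 2) := fun a => by ring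
  simp_rw [h2, Real.norm_eq_abs] at h1
  refine h1.trans (sub_le_sub_right (Real.exp_le_exp.2 (le_trans ?_ hκ)) 1)
  rw [Finset.mul_sum]
  exact Finset.sum_le_sum fun a _ => Wa2_r1 (hl a) ht hδ

private theorem Wa2_exp1 {x : ℝ} (h0 : 0 ≤ x) (h1 : x ≤ 1) : Real.exp x - 1 ≤ 2 * x := by
  have h := Real.abs_exp_sub_one_sub_id_le (x := x) (by rw [abs_of_nonneg h0]; exact h1)
  have h2 := (abs_le.1 h).2
  nlinarith

/-! ### large `m` -/

private theorem Wa2_ev (C : ℝ) (hC : 0 < C) (C' : ℕ) : ∀ᶠ m : ℕ in atTop,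
    1 ≤ m ∧ 0 ≤ dl m ∧ dl m ≤ 1 / 200 ∧ 3 * (m * dl m ^ 3) ≤ 1 ∧
    10 * dl m * (C * Real.log m) ≤ 1 / 2 ∧
    2 * (6 * (m * dl m ^ 3)) + Real.exp (-((m : ℝ) ^ (1 / 10 : ℝ)) / 2) * ((m : ℝ) ^ C' + 1) +
      20 * dl m * (C * Real.log m) ≤ (m : ℝ) ^ (-(3 / 20) : ℝ) := by
  have e1 : ∀ᶠ x : ℝ in atTop, x ^ (-(2 / 5) : ℝ) ≤ 1 / 200 :=
    (tendsto_rpow_neg_atTop (by norm_num)).eventually_le_const (by norm_num)
  have e2 : ∀ᶠ x : ℝ in atTop, x ^ (-(1 / 5) : ℝ) ≤ 1 / 3 :=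
    (tendsto_rpow_neg_atTop (by norm_num)).eventually_le_const (by norm_num)
  have e3 : ∀ᶠ x : ℝ in atTop, ‖Real.log x‖ ≤ 1 / (60 * C) * ‖x ^ (1 / 4 : ℝ)‖ :=
    (isLittleO_log_rpow_atTop (by norm_num)).bound (by positivity)
  have e4 : ∀ᶠ x : ℝ in atTop, x ^ (-(1 / 20) : ℝ) ≤ 1 / 36 :=
    (tendsto_rpow_neg_atTop (by norm_num)).eventually_le_const (by norm_num)
  have t5 : Tendsto (fun x : ℝ => x ^ (1 / 10 : ℝ) / 2) atTop atTop :=
    (tendsto_rpow_atTop (by norm_num)).atTop_div_const (by norm_num)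
  have e5 : ∀ᶠ x : ℝ in atTop, (x ^ (1 / 10 : ℝ) / 2) ^ (10 * (C' + 1)) *
      Real.exp (-(x ^ (1 / 10 : ℝ) / 2)) ≤ 1 / (6 * 2 ^ (10 * (C' + 1))) :=
    ((Real.tendsto_pow_mul_exp_neg_atTop_nhds_zero (10 * (C' + 1))).comp t5).eventually_le_const
      (by positivity)
  have e := (e1.and (e2.and (e3.and (e4.and e5)))).and (eventually_ge_atTop 1)
  filter_upwards [tendsto_natCast_atTop_atTop.eventually e, eventually_ge_atTop 1] with m hm hm1
  obtain ⟨⟨h1, h2, h3, h4, h5⟩, hx1⟩ := hm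
  set x : ℝ := (m : ℝ) with hx
  have hx0 : 0 < x := by linarith
  have hdl : dl m = x ^ (-(2 / 5) : ℝ) := rfl
  have hd0 : 0 ≤ x ^ (-(2 / 5) : ℝ) := by positivity
  have hd3 : x * dl m ^ 3 = x ^ (-(1 / 5) : ℝ) := by
    rw [hdl, ← Real.rpow_natCast, ← Real.rpow_mul hx0.le]
    have : x * x ^ (-(2 / 5) * ((3 : ℕ) : ℝ) : ℝ) = x ^ (1 + (-(2 / 5) * ((3 : ℕ) : ℝ)) : ℝ) := by
      rw [Real.rpow_add hx0, Real.rpow_one]
    rw [this]
    norm_num
  have hlog0 : 0 ≤ Real.log x := Real.log_nonneg hx1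
  rw [Real.norm_of_nonneg hlog0, Real.norm_of_nonneg (by positivity)] at h3
  have hp0 : 0 < x ^ (-(3 / 20) : ℝ) := by positivity
  have hp1 : x ^ (-(3 / 20) : ℝ) ≤ 1 := Real.rpow_le_one_of_one_le_of_nonpos hx1 (by norm_num)
  have hdlog : dl m * (C * Real.log x) ≤ 1 / 60 * x ^ (-(3 / 20) : ℝ) := by
    rw [hdl]
    have h6 : C * Real.log x ≤ 1 / 60 * x ^ (1 / 4 : ℝ) := by
      calc C * Real.log x ≤ C * (1 / (60 * C) * x ^ (1 / 4 : ℝ)) :=
            mul_le_mul_of_nonneg_left h3 hC.le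
        _ = 1 / 60 * x ^ (1 / 4 : ℝ) := by field_simp
    calc x ^ (-(2 / 5) : ℝ) * (C * Real.log x) ≤
          x ^ (-(2 / 5) : ℝ) * (1 / 60 * x ^ (1 / 4 : ℝ)) := mul_le_mul_of_nonneg_left h6 hd0
      _ = 1 / 60 * (x ^ (-(2 / 5) : ℝ) * x ^ (1 / 4 : ℝ)) := by ring
      _ = 1 / 60 * x ^ (-(3 / 20) : ℝ) := by
          rw [← Real.rpow_add hx0]
          norm_num
  refine ⟨hm1, by rw [hdl]; exact hd0, by rw [hdl]; exact h1, ?_, ?_, ?_⟩
  · rw [hd3]; linarith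
  · have : 10 * dl m * (C * Real.log x) = 10 * (dl m * (C * Real.log x)) := by ring
    rw [this]
    linarith
  · rw [hd3]
    have h6 : x ^ (-(1 / 5) : ℝ) ≤ 1 / 36 * x ^ (-(3 / 20) : ℝ) := by
      have h7 : x ^ (-(1 / 5) : ℝ) = x ^ (-(1 / 20) : ℝ) * x ^ (-(3 / 20) : ℝ) := by
        rw [← Real.rpow_add hx0]
        norm_num
      rw [h7]
      exact mul_le_mul_of_nonneg_right h4 hp0.le
    have h8 : Real.exp (-(x ^ (1 / 10 : ℝ)) / 2) * (x ^ C' + 1) ≤ 1 / 3 * x ^ (-(3 / 20) : ℝ) := by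
      have hpow : (x ^ (1 / 10 : ℝ) / 2) ^ (10 * (C' + 1)) = x ^ (C' + 1) / 2 ^ (10 * (C' + 1)) := by
        rw [div_pow, pow_mul, ← Real.rpow_natCast (x ^ (1 / 10 : ℝ)) 10, ← Real.rpow_mul hx0.le]
        norm_num
      rw [hpow] at h5
      have hee : Real.exp (-(x ^ (1 / 10 : ℝ) / 2)) = Real.exp (-(x ^ (1 / 10 : ℝ)) / 2) := by
        congr 1; ring
      rw [hee] at h5
      set η : ℝ := Real.exp (-(x ^ (1 / 10 : ℝ)) / 2) with hη
      have h9 : x ^ (C' + 1) * η ≤ 1 / 6 := by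
        have h10 : (0 : ℝ) < 2 ^ (10 * (C' + 1)) := by positivity
        have h11 : x ^ (C' + 1) / 2 ^ (10 * (C' + 1)) * η * 2 ^ (10 * (C' + 1)) ≤
            1 / (6 * 2 ^ (10 * (C' + 1))) * 2 ^ (10 * (C' + 1)) :=
          mul_le_mul_of_nonneg_right h5 h10.le
        have h12 : x ^ (C' + 1) / 2 ^ (10 * (C' + 1)) * η * 2 ^ (10 * (C' + 1)) =
            x ^ (C' + 1) * η := by field_simp
        have h13 : (1 : ℝ) / (6 * 2 ^ (10 * (C' + 1))) * 2 ^ (10 * (C' + 1)) = 1 / 6 := by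
          field_simp
        rw [h12, h13] at h11
        exact h11
      have hη0 : 0 ≤ η := (Real.exp_pos _).le
      have h14 : x ^ C' + 1 ≤ 2 * x ^ C' := by
        have := one_le_pow₀ hx1 (n := C')
        linarith
      have h15 : x ^ (3 / 20 : ℝ) ≤ x := by
        calc x ^ (3 / 20 : ℝ) ≤ x ^ (1 : ℝ) :=
              Real.rpow_le_rpow_of_exponent_le hx1 (by norm_num)
          _ = x := Real.rpow_one x
      have h16 : η * (x ^ C' + 1) * x ^ (3 / 20 : ℝ) ≤ 1 / 3 := by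
        calc η * (x ^ C' + 1) * x ^ (3 / 20 : ℝ) ≤ η * (2 * x ^ C') * x := by
              apply mul_le_mul _ h15 (by positivity) (by positivity)
              exact mul_le_mul_of_nonneg_left h14 hη0
          _ = 2 * (x ^ (C' + 1) * η) := by ring
          _ ≤ 1 / 3 := by linarith
      have h17 : x ^ (3 / 20 : ℝ) * x ^ (-(3 / 20) : ℝ) = 1 := by
        rw [← Real.rpow_add hx0]
        norm_num
      calc η * (x ^ C' + 1) = η * (x ^ C' + 1) * x ^ (3 / 20 : ℝ) * x ^ (-(3 / 20) : ℝ) := by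
            rw [mul_assoc (η * (x ^ C' + 1)), h17, mul_one]
        _ ≤ 1 / 3 * x ^ (-(3 / 20) : ℝ) := mul_le_mul_of_nonneg_right h16 hp0.le
    have h18 : 20 * dl m * (C * Real.log x) = 20 * (dl m * (C * Real.log x)) := by ring
    rw [h18]
    linarith

/-! ### the theorem -/

private theorem Wa2_main (h1 : St_Law) {m : ℕ} {E : Matrix (Fin m) (Fin m) ℝ}
    {e : Fin m → Fin m → ℝ} {l : Fin m → ℝ} (t : ℝ)
    (hE : ∀ y : Fin m → ℂ, ∑ i, xj E y i ^ 2 =
      ∑ a, (l a : ℂ) ^ 2 * (∑ j, (e a j : ℂ) * y j) ^ 2) :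
    ∫ θ, Complex.exp (-(t : ℂ) ^ 2 / 2 * ∑ i, xj E (xx θ) i ^ 2) ∂(PP (Fin m)) =
      ∫ g : Fin m → ℝ, ∏ j, (1 + Complex.I * (t * ∑ a, l a * g a * e a j : ℝ))
        ∂(Measure.pi fun _ => ProbabilityTheory.gaussianReal 0 1) := by
  have h2 := Wa2_swap h1 (fun a j => t * l a * e a j)
  have h3 : ∀ (g : Fin m → ℝ) (j : Fin m), ∑ a, t * l a * e a j * g a =
      t * ∑ a, l a * g a * e a j := by
    intro g j
    rw [Finset.mul_sum]
    exact Finset.sum_congr rfl fun a _ => by ring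
  simp_rw [h3] at h2
  rw [← h2]
  congr 1
  funext θ
  have h4 : ∀ g : Fin m → ℝ, ∑ j, Complex.I * (t * ∑ a, l a * g a * e a j : ℝ) * xx θ j =
      ∑ a, (Complex.I * t * l a * ∑ j, (e a j : ℂ) * xx θ j) * g a := by
    intro g
    push_cast
    simp_rw [Finset.mul_sum, Finset.sum_mul]
    rw [Finset.sum_comm]
    refine Finset.sum_congr rfl fun a _ => Finset.sum_congr rfl fun j _ => by ring
  simp_rw [h4]
  rw [Wa2_gau, hE (xx θ)]
  congr 1
  rw [Finset.mul_sum]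
  refine Finset.sum_congr rfl fun a _ => ?_
  have hI : Complex.I ^ 2 = -1 := Complex.I_sq
  linear_combination (-((t : ℂ) ^ 2 * (l a : ℂ) ^ 2 * (∑ j, (e a j : ℂ) * xx θ j) ^ 2 / 2)) * hI

private theorem Wa2_dist {m : ℕ} (U : (Fin m → ℝ) → Fin m → ℝ) (hUc : Continuous U)
    (hU0 : ∀ g, ∑ j, U g j = 0) {N K δ η : ℝ}
    (i1 : Integrable (fun g : Fin m → ℝ => Real.exp (1 / 2 * ∑ j, U g j ^ 2))
      (Measure.pi fun _ => ProbabilityTheory.gaussianReal 0 1))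
    (n1 : ∫ g : Fin m → ℝ, Real.exp (1 / 2 * ∑ j, U g j ^ 2)
      ∂(Measure.pi fun _ => ProbabilityTheory.gaussianReal 0 1) = N)
    (i2 : Integrable (fun g : Fin m → ℝ => Real.exp (1 * ∑ j, U g j ^ 2))
      (Measure.pi fun _ => ProbabilityTheory.gaussianReal 0 1))
    (n2 : ∫ g : Fin m → ℝ, Real.exp (1 * ∑ j, U g j ^ 2)
      ∂(Measure.pi fun _ => ProbabilityTheory.gaussianReal 0 1) ≤ K)
    (hbad : (Measure.pi fun _ : Fin m => ProbabilityTheory.gaussianReal 0 1).real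
      {g : Fin m → ℝ | ¬ ∀ j, |U g j| ≤ δ} ≤ η ^ 2)
    (hη : 0 < η) (hδ0 : 0 ≤ δ) (hδ : δ ≤ 1 / 2) (hε : 3 * (m * δ ^ 3) ≤ 1) :
    ‖(∫ g : Fin m → ℝ, ∏ j, (1 + Complex.I * (U g j : ℝ))
      ∂(Measure.pi fun _ => ProbabilityTheory.gaussianReal 0 1)) - (N : ℂ)‖ ≤
      6 * (m * δ ^ 3) * N + η * (K + 1) := by
  set γ : Measure (Fin m → ℝ) := Measure.pi fun _ => ProbabilityTheory.gaussianReal 0 1 with hγ
  have hprob : IsProbabilityMeasure γ := by rw [hγ]; infer_instance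
  set B : Set (Fin m → ℝ) := {g | ¬ ∀ j, |U g j| ≤ δ} with hB
  have hUj : ∀ j, Continuous fun g => U g j := fun j => (continuous_apply j).comp hUc
  have hBm : MeasurableSet B := by
    have h1 : IsClosed {g : Fin m → ℝ | ∀ j, |U g j| ≤ δ} := by
      have h0 : {g : Fin m → ℝ | ∀ j, |U g j| ≤ δ} = ⋂ j, {g : Fin m → ℝ | |U g j| ≤ δ} := by
        ext g; simp
      rw [h0]
      exact isClosed_iInter fun j => isClosed_le (hUj j).abs continuous_const
    have h2 : B = {g : Fin m → ℝ | ∀ j, |U g j| ≤ δ}ᶜ := by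
      ext g; simp [hB]
    rw [h2]
    exact h1.measurableSet.compl
  have hpt : ∀ g, ‖(∏ j, (1 + Complex.I * (U g j : ℝ))) -
      (Real.exp (1 / 2 * ∑ j, U g j ^ 2) : ℂ)‖ ≤
      6 * (m * δ ^ 3) * Real.exp (1 / 2 * ∑ j, U g j ^ 2) +
        η * Real.exp (1 * ∑ j, U g j ^ 2) + B.indicator (fun _ => η⁻¹) g := by
    intro g
    have hX : Real.exp (1 / 2 * ∑ j, U g j ^ 2) = Real.exp ((∑ j, U g j ^ 2) / 2) := by
      congr 1; ring
    have hY : Real.exp (1 * ∑ j, U g j ^ 2) = Real.exp ((∑ j, U g j ^ 2) / 2) ^ 2 := by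
      rw [← Real.exp_nat_mul]; congr 1; push_cast; ring
    rw [hX, hY]
    set X : ℝ := Real.exp ((∑ j, U g j ^ 2) / 2) with hXd
    have hX0 : 0 < X := Real.exp_pos _
    by_cases hg : g ∈ B
    · rw [Set.indicator_of_mem hg]
      have h1 : ‖(∏ j, (1 + Complex.I * (U g j : ℝ))) - (X : ℂ)‖ ≤ X + X := by
        refine (norm_sub_le _ _).trans (add_le_add (Wa2_norm (U g)) ?_)
        rw [Complex.norm_real, Real.norm_of_nonneg hX0.le]
      have h2 : X + X ≤ η * X ^ 2 + η⁻¹ := by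
        have h3 : 0 ≤ η⁻¹ * (η * X - 1) ^ 2 := by positivity
        have h4 : η⁻¹ * (η * X - 1) ^ 2 = η * X ^ 2 + η⁻¹ - (X + X) := by
          field_simp
          ring
        linarith
      have h5 : 0 ≤ 6 * (m * δ ^ 3) * X := by positivity
      linarith
    · rw [Set.indicator_of_notMem hg, add_zero]
      have hg' : ∀ j, |U g j| ≤ δ := by
        simpa [hB] using hg
      have h1 := Wa2_prod (U g) (hU0 g) (fun j => (hg' j).trans hδ)
      have h2 : 3 * ∑ j, |U g j| ^ 3 ≤ 3 * (m * δ ^ 3) := by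
        apply mul_le_mul_of_nonneg_left _ (by norm_num)
        calc ∑ j, |U g j| ^ 3 ≤ ∑ _j : Fin m, δ ^ 3 :=
              Finset.sum_le_sum fun j _ => pow_le_pow_left₀ (abs_nonneg _) (hg' j) 3
          _ = m * δ ^ 3 := by simp
      have h3 : 0 ≤ 3 * ∑ j, |U g j| ^ 3 := by positivity
      have h4 := Wa2_exp1 h3 (h2.trans hε)
      have h5 : 0 ≤ η * X ^ 2 := by positivity
      calc _ ≤ _ := h1
        _ ≤ X * (6 * (m * δ ^ 3)) := mul_le_mul_of_nonneg_left (by linarith) hX0.le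
        _ ≤ _ := by linarith
  have hXi : Integrable (fun g : Fin m → ℝ => (Real.exp (1 / 2 * ∑ j, U g j ^ 2) : ℂ)) γ :=
    i1.ofReal
  have hPi : Integrable (fun g : Fin m → ℝ => ∏ j, (1 + Complex.I * (U g j : ℝ))) γ := by
    refine i1.mono' ?_ (Filter.Eventually.of_forall fun g => ?_)
    · apply Continuous.aestronglyMeasurable
      fun_prop
    · have hX : Real.exp (1 / 2 * ∑ j, U g j ^ 2) = Real.exp ((∑ j, U g j ^ 2) / 2) := by
        congr 1; ring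
      rw [hX]
      exact Wa2_norm (U g)
  have hN : (N : ℂ) = ∫ g : Fin m → ℝ, (Real.exp (1 / 2 * ∑ j, U g j ^ 2) : ℂ) ∂γ := by
    rw [integral_complex_ofReal, n1]
  have hIi : Integrable (B.indicator (fun _ => η⁻¹)) γ :=
    (integrable_const η⁻¹).indicator hBm
  rw [hN, ← integral_sub hPi hXi]
  refine (norm_integral_le_of_norm_le (((i1.const_mul (6 * (m * δ ^ 3))).add
    (i2.const_mul η)).add hIi) (Filter.Eventually.of_forall hpt)).trans ?_
  rw [integral_add' ((i1.const_mul (6 * (m * δ ^ 3))).add (i2.const_mul η)) hIi,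
    integral_add' (i1.const_mul (6 * (m * δ ^ 3))) (i2.const_mul η), integral_const_mul,
    integral_const_mul, n1, integral_indicator_const _ hBm, smul_eq_mul]
  have h6 : γ.real B * η⁻¹ ≤ η := by
    calc γ.real B * η⁻¹ ≤ η ^ 2 * η⁻¹ := mul_le_mul_of_nonneg_right hbad (by positivity)
      _ = η := by field_simp
  have h7 := mul_le_mul_of_nonneg_left n2 hη.le
  linarith

theorem thm_Wa2 (h1 : St_Law) (h2 : St_Spe) (h3 : St_Gau) : St_Wa2 := by
  intro C hC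
  obtain ⟨C', hC'⟩ := h3 C hC
  filter_upwards [hC', Wa2_ev C hC C'] with m hG hev E hE t ht
  obtain ⟨hm1, hd0, hd1, hd3, hdC, hfin⟩ := hev
  obtain ⟨e, l, hSp, hDl, -, -, -, hsq⟩ := h2 C m E hm1 hE
  have htt : |t| ≤ 1.01 := by
    have h := abs_le.1 ht
    rw [abs_le]
    constructor <;> linarith [h.1, h.2]
  obtain ⟨hk, hbad⟩ := hG E e l hSp t htt
  obtain ⟨i1, n1, b1⟩ := hk (1 / 2) (by norm_num)
  obtain ⟨i2, n2, b2⟩ := hk 1 (by norm_num)
  rw [Wa2_main h1 t hsq]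
  set U : (Fin m → ℝ) → Fin m → ℝ := fun g j => t * ∑ a, l a * g a * e a j with hU
  have hUc : Continuous U := by rw [hU]; fun_prop
  have hU0 : ∀ g, ∑ j, U g j = 0 := by
    intro g
    simp only [hU]
    rw [← Finset.mul_sum, Finset.sum_comm]
    have h4 : ∀ a, ∑ j, l a * g a * e a j = 0 := by
      intro a
      rw [← Finset.mul_sum]
      rcases eq_or_ne (l a) 0 with h | h
      · rw [h]; ring
      · rw [hSp.one a h]; ring
    simp_rw [h4]
    simp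
  set η : ℝ := Real.exp (-((m : ℝ) ^ (1 / 10 : ℝ)) / 2) with hη
  have hη0 : 0 < η := Real.exp_pos _
  have hη2 : η ^ 2 = Real.exp (-(m : ℝ) ^ (1 / 10 : ℝ)) := by
    rw [hη, ← Real.exp_nat_mul]
    congr 1
    push_cast
    ring
  set N : ℝ := ∏ a, (√(1 - 2 * (1 / 2) * t ^ 2 * l a ^ 2))⁻¹ with hN
  have hN0 : 0 ≤ N := Finset.prod_nonneg fun a _ => by positivity
  have hdist := Wa2_dist U hUc hU0 (N := N) (K := (m : ℝ) ^ C') (δ := dl m) (η := η) i1 n1 i2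
    (n2.le.trans b2) (hbad.trans hη2.ge) hη0 hd0 (by linarith) hd3
  have hcoe : ∀ (g : Fin m → ℝ) (j : Fin m), (t * ∑ a, l a * g a * e a j) = U g j :=
    fun g j => rfl
  set M : ℂ := ∫ g : Fin m → ℝ, ∏ j, (1 + Complex.I * (U g j : ℝ))
    ∂(Measure.pi fun _ => ProbabilityTheory.gaussianReal 0 1) with hM
  set D : ℝ := √(Dl E) with hD
  have hD0 : 0 ≤ D := Real.sqrt_nonneg _
  have hD1 : D ≤ 1 := by
    rw [hD, hDl]
    apply Real.sqrt_le_one.2
    apply Finset.prod_le_one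
    · intro a _
      have h := pow_le_pow_left₀ (abs_nonneg (l a)) (hSp.small a) 2
      rw [sq_abs] at h
      norm_num at h
      linarith
    · intro a _
      linarith [sq_nonneg (l a)]
  have hκ : 10 * dl m * ∑ a, l a ^ 2 ≤ 10 * dl m * (C * Real.log m) :=
    mul_le_mul_of_nonneg_left hSp.two (by positivity)
  have hdet := Wa2_det hSp.small ht hd1 hκ
  rw [← hDl, ← hN, ← hD] at hdet
  have hκ0 : 0 ≤ 10 * dl m * (C * Real.log m) := by
    have h5 : 0 ≤ ∑ a, l a ^ 2 := Finset.sum_nonneg fun a _ => sq_nonneg _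
    have h6 : 0 ≤ 10 * dl m * ∑ a, l a ^ 2 := by positivity
    linarith
  have hdet2 : |N * D - 1| ≤ 20 * dl m * (C * Real.log m) := by
    have h5 := Wa2_exp1 hκ0 (by linarith)
    linarith
  have hND : N * D ≤ 2 := by
    have h5 := (abs_le.1 hdet2).2
    linarith
  have hsplit : M * (D : ℂ) - 1 = (M - N) * D + ((N * D - 1 : ℝ) : ℂ) := by
    push_cast
    ring
  have hmd : 0 ≤ 6 * (m * dl m ^ 3) := by positivity
  have hmC : 0 ≤ η * ((m : ℝ) ^ C' + 1) := by positivity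
  calc ‖M * (D : ℂ) - 1‖ = ‖(M - N) * D + ((N * D - 1 : ℝ) : ℂ)‖ := by rw [hsplit]
    _ ≤ ‖M - N‖ * D + |N * D - 1| := by
        refine (norm_add_le _ _).trans ?_
        rw [norm_mul, Complex.norm_real, Complex.norm_real, Real.norm_of_nonneg hD0,
          Real.norm_eq_abs]
    _ ≤ (6 * (m * dl m ^ 3) * N + η * ((m : ℝ) ^ C' + 1)) * D +
          20 * dl m * (C * Real.log m) :=
        add_le_add (mul_le_mul_of_nonneg_right hdist hD0) hdet2
    _ = 6 * (m * dl m ^ 3) * (N * D) + η * ((m : ℝ) ^ C' + 1) * D +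
          20 * dl m * (C * Real.log m) := by ring
    _ ≤ 6 * (m * dl m ^ 3) * 2 + η * ((m : ℝ) ^ C' + 1) * 1 +
          20 * dl m * (C * Real.log m) := by
        have h5 := mul_le_mul_of_nonneg_left hND hmd
        have h6 := mul_le_mul_of_nonneg_left hD1 hmC
        linarith
    _ ≤ (m : ℝ) ^ (-(3 / 20) : ℝ) := by linarith

end Pool.Agent.PCW
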