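import Mathlib
import Pool.Agent.PCW.St

set_option autoImplicit false

/-! PCW Xpb: one-sided pointwise bound. -/

namespace Pool.Agent.PCW

open Finset

private theorem Xpb_one {A y : ℝ} (hA : 0 < A) (hy : 0 ≤ y) :
    √y ≤ A * Real.exp ((y - A ^ 2) / (2 * A ^ 2)) := by
  refine Real.sqrt_le_iff.2 ⟨by positivity, ?_⟩
  rw [mul_pow, ← Real.exp_nat_mul]
  have h1 : ((2 : ℕ) : ℝ) * ((y - A ^ 2) / (2 * A ^ 2)) = y / A ^ 2 - 1 := by
    push_cast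
    field_simp
  rw [h1]
  have h2 := Real.add_one_le_exp (y / A ^ 2 - 1)
  have h3 : y / A ^ 2 ≤ Real.exp (y / A ^ 2 - 1) := by linarith
  calc y = A ^ 2 * (y / A ^ 2) := by field_simp
    _ ≤ A ^ 2 * Real.exp (y / A ^ 2 - 1) := by gcongr

theorem thm_Xpb : St_Xpb := by
  intro m α κ A ξ hm hκ hA hξ
  have h1 : ∏ i, √(‖(α : ℂ) + ξ i‖ ^ 2 + κ) ≤
      ∏ i : Fin m, A * Real.exp ((‖(α : ℂ) + ξ i‖ ^ 2 + κ - A ^ 2) / (2 * A ^ 2)) :=
    Finset.prod_le_prod (fun i _ => Real.sqrt_nonneg _) fun i _ => Xpb_one hA (by positivity)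
  refine h1.trans (le_of_eq ?_)
  rw [Finset.prod_mul_distrib, Finset.prod_const, Finset.card_univ, Fintype.card_fin,
    ← Real.exp_sum, mul_assoc, ← Real.exp_add]
  congr 2
  have hre : ∑ i, (ξ i).re = 0 := by
    have := congrArg Complex.re hξ
    simpa using this
  have h2 : ∀ i, ‖(α : ℂ) + ξ i‖ ^ 2 = α ^ 2 + 2 * α * (ξ i).re + ‖ξ i‖ ^ 2 := by
    intro i
    rw [← Complex.normSq_eq_norm_sq, ← Complex.normSq_eq_norm_sq, Complex.normSq_apply,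
      Complex.normSq_apply]
    simp only [Complex.add_re, Complex.add_im, Complex.ofReal_re, Complex.ofReal_im]
    ring
  simp_rw [h2]
  rw [← Finset.sum_div]
  have h3 : ∑ i : Fin m, (α ^ 2 + 2 * α * (ξ i).re + ‖ξ i‖ ^ 2 + κ - A ^ 2) =
      m * (α ^ 2 + κ - A ^ 2) + ∑ i, ‖ξ i‖ ^ 2 := by
    have : ∀ i : Fin m, α ^ 2 + 2 * α * (ξ i).re + ‖ξ i‖ ^ 2 + κ - A ^ 2 =
        (α ^ 2 + κ - A ^ 2) + 2 * α * (ξ i).re + ‖ξ i‖ ^ 2 := fun i => by ring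
    simp_rw [this]
    rw [Finset.sum_add_distrib, Finset.sum_add_distrib, ← Finset.mul_sum, hre, Finset.sum_const,
      Finset.card_univ, Fintype.card_fin, nsmul_eq_mul]
    ring
  rw [h3]
  ring

end Pool.Agent.PCW
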