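import Mathlib
import Pool.Agent.PCW.Law
import Pool.Agent.PCW.Bes
import Pool.Agent.PCW.Jpp
import Pool.Agent.PCW.Fub
import Pool.Agent.PCW.Bdd
import Pool.Agent.PCW.Spe
import Pool.Agent.PCW.Exm
import Pool.Agent.PCW.Exp
import Pool.Agent.PCW.Tog
import Pool.Agent.PCW.Psx
import Pool.Agent.PCW.Rad
import Pool.Agent.PCW.Prm
import Pool.Agent.PCW.Idn
import Pool.Agent.PCW.Had
import Pool.Agent.PCW.Psb
import Pool.Agent.PCW.Xpb
import Pool.Agent.PCW.Fxa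
import Pool.Agent.PCW.Far
import Pool.Agent.PCW.Vvb
import Pool.Agent.PCW.Pbd
import Pool.Agent.PCW.Pb1
import Pool.Agent.PCW.Dt1
import Pool.Agent.PCW.Rk2
import Pool.Agent.PCW.Fac
import Pool.Agent.PCW.Res
import Pool.Agent.PCW.Det
import Pool.Agent.PCW.Gau
import Pool.Agent.PCW.Psf
import Pool.Agent.PCW.Qfm
import Pool.Agent.PCW.Wa1
import Pool.Agent.PCW.Wa2
import Pool.Agent.PCW.Cen
import Pool.Agent.PCW.Int
import Pool.Agent.PCW.Smj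
import Pool.Agent.PCW.Smn
import Pool.Agent.PCW.Ssp
import Pool.Agent.PCW.Eta
import Pool.Agent.PCW.Hnk
import Pool.Agent.PCW.Mdl
import Pool.Agent.PCW.Spc
import Pool.Agent.PCW.Cls
import Pool.Agent.PCW.Hyx
import Pool.Agent.PCW.Cnt
import Pool.Agent.PCW.Hmx
import Pool.Agent.PCW.Fin
import Pool.Agent.PCZ.Apr
import Pool.Agent.PCZ.Exi
import Pool.Agent.PCZ.Usn

set_option autoImplicit false

/-! PCW All: assembly. -/

namespace Pool.Agent.PCW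

theorem a_Exm : St_Exm := thm_Exm thm_Law (thm_Bes thm_Law)

theorem a_Jpp : St_Jpp := thm_Jpp thm_Law

theorem a_Exp : St_Exp := thm_Exp thm_Law thm_Spe a_Exm a_Jpp

theorem a_Rad : St_Rad := thm_Rad thm_Law thm_Psx

theorem a_Idn : St_Idn := thm_Idn thm_Tog thm_Psx (thm_Prm thm_Law)

theorem a_Psb : St_Psb := thm_Psb thm_Had

theorem a_Far : St_Far :=
  thm_Far thm_Law a_Rad thm_Fub a_Psb (thm_Fxa thm_Law thm_Spe a_Exm thm_Xpb)

theorem a_Vvb : St_Vvb := thm_Vvb thm_Spe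

theorem a_Pbd : St_Pbd := thm_Pbd thm_Law thm_Bdd a_Vvb

theorem a_Pb1 : St_Pb1 := thm_Pb1 thm_Law thm_Bdd

theorem a_Res : St_Res := thm_Res a_Vvb thm_Dt1 thm_Spe thm_Fac

theorem a_Det : St_Det := thm_Det thm_Spe a_Res thm_Rk2

theorem a_Psf : St_Psf := thm_Psf thm_Law (thm_Bes thm_Law)

theorem a_Qfm : St_Qfm := thm_Qfm thm_Law thm_Spe thm_Gau a_Psf

theorem a_Wa1 : St_Wa1 := thm_Wa1 thm_Law thm_Spe a_Exp a_Pb1 a_Qfm

theorem a_Wa2 : St_Wa2 := thm_Wa2 thm_Law thm_Spe thm_Gau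

theorem a_Cen : St_Cen :=
  thm_Cen thm_Law a_Jpp thm_Fub thm_Spe a_Psb thm_Xpb a_Exp a_Pbd a_Det a_Qfm a_Wa1 a_Wa2

theorem a_Int : St_Int := thm_Int a_Idn a_Far a_Cen

theorem a_Spc : St_Spc := thm_Spc (thm_Ssp thm_Smj thm_Smn) thm_Eta thm_Hnk thm_Mdl

theorem a_Hyx : St_Hyx := thm_Hyx a_Spc (thm_Cls a_Spc)

theorem final : St_Fin :=
  thm_Fin a_Int a_Hyx thm_Cnt thm_Hmx (Pool.Agent.PCZ.main_Exi Pool.Agent.PCZ.main_Apr)
    Pool.Agent.PCZ.main_Uni Pool.Agent.PCZ.main_Sc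

end Pool.Agent.PCW
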