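import Mathlib

set_option autoImplicit false

/-! PCW Cap: the product of a symmetric scaling as a minimum, and uniqueness of the symmetric
scaling of the prime sum matrix. -/

namespace Pool.Agent.PCW

open Finset

/-- weighted arithmetic geometric mean inequality for a symmetric scaling -/
theorem Cap_le {n : ℕ} (A : Fin n → Fin n → Prop) [DecidableRel A]
    (hA : ∀ i j, A i j → A j i) (x y : Fin n → ℝ) (hx : ∀ i, 0 < x i) (hy : ∀ i, 0 < y i)
    (h : ∀ i, x i * ∑ j ∈ univ.filter (fun j => A i j), x j = 1) :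
    ∏ i, (x i)⁻¹ ^ 2 ≤ ∏ i, (∑ j ∈ univ.filter (fun j => A i j), y j) / y i := by
  classical
  set S : Fin n → ℝ := fun i => ∑ j ∈ univ.filter (fun j => A i j), y j with hS
  set B : Fin n → Fin n → ℝ := fun i j => if A i j then x i * x j else 0 with hB
  have hB0 : ∀ i j, 0 ≤ B i j := fun i j => by
    simp only [hB]
    split_ifs
    · exact (mul_pos (hx i) (hx j)).le
    · exact le_rfl
  have hBs : ∀ i j, B i j = B j i := fun i j => by
    simp only [hB]
    by_cases hij : A i j
    · rw [if_pos hij, if_pos (hA i j hij), mul_comm]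
    · rw [if_neg hij, if_neg (fun h' => hij (hA j i h'))]
  have hBr : ∀ i, ∑ j, B i j = 1 := fun i => by
    rw [← h i, mul_sum, sum_filter]
  have hne : ∀ i, (univ.filter (fun j => A i j)).Nonempty := fun i => by
    by_contra hc
    rw [not_nonempty_iff_eq_empty] at hc
    have := h i
    rw [hc, sum_empty, mul_zero] at this
    exact zero_ne_one this
  have hSpos : ∀ i, 0 < S i := fun i => sum_pos (fun j _ => hy j) (hne i)
  have hBT : ∀ i, ∑ j, B i j * (y j / (x i * x j)) = S i := fun i => by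
    rw [hS]
    simp only
    rw [sum_filter]
    refine sum_congr rfl fun j _ => ?_
    simp only [hB]
    by_cases hij : A i j
    · rw [if_pos hij, if_pos hij]
      have h1 := (hx i).ne'
      have h2 := (hx j).ne'
      field_simp
    · rw [if_neg hij, if_neg hij, zero_mul]
  have hrow : ∀ i, ∑ j, B i j * (Real.log (y j) - Real.log (x i) - Real.log (x j)) ≤
      Real.log (S i) := fun i => by
    have h1 : ∀ j, B i j * (Real.log (y j) - Real.log (x i) - Real.log (x j)) ≤
        B i j * Real.log (S i) + (B i j * (y j / (x i * x j)) / S i - B i j) := fun j => by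
      have h2 : 0 < y j / (x i * x j) / S i := by
        have := hx i; have := hx j; have := hy j; have := hSpos i
        positivity
      have h3 := Real.log_le_sub_one_of_pos h2
      rw [Real.log_div (div_pos (hy j) (mul_pos (hx i) (hx j))).ne' (hSpos i).ne',
        Real.log_div (hy j).ne' (mul_pos (hx i) (hx j)).ne',
        Real.log_mul (hx i).ne' (hx j).ne'] at h3
      have h4 : Real.log (y j) - Real.log (x i) - Real.log (x j) ≤
          Real.log (S i) + (y j / (x i * x j) / S i - 1) := by linarith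
      calc B i j * (Real.log (y j) - Real.log (x i) - Real.log (x j))
          ≤ B i j * (Real.log (S i) + (y j / (x i * x j) / S i - 1)) :=
            mul_le_mul_of_nonneg_left h4 (hB0 i j)
        _ = _ := by ring
    calc _ ≤ ∑ j, (B i j * Real.log (S i) + (B i j * (y j / (x i * x j)) / S i - B i j)) :=
          sum_le_sum fun j _ => h1 j
      _ = (∑ j, B i j) * Real.log (S i) +
          ((∑ j, B i j * (y j / (x i * x j))) / S i - ∑ j, B i j) := by
        rw [sum_add_distrib, sum_sub_distrib, sum_mul, sum_div]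
      _ = Real.log (S i) := by
        rw [hBT, hBr, div_self (hSpos i).ne']
        ring
  have htot : ∑ i, ∑ j, B i j * (Real.log (y j) - Real.log (x i) - Real.log (x j)) =
      ∑ i, Real.log (y i) - 2 * ∑ i, Real.log (x i) := by
    have e1 : ∑ i, ∑ j, B i j * Real.log (y j) = ∑ i, Real.log (y i) := by
      rw [sum_comm]
      refine sum_congr rfl fun j _ => ?_
      rw [← sum_mul, sum_congr rfl fun i _ => hBs i j, hBr, one_mul]
    have e2 : ∑ i, ∑ j, B i j * Real.log (x i) = ∑ i, Real.log (x i) := by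
      refine sum_congr rfl fun i _ => ?_
      rw [← sum_mul, hBr, one_mul]
    have e3 : ∑ i, ∑ j, B i j * Real.log (x j) = ∑ i, Real.log (x i) := by
      rw [sum_comm]
      refine sum_congr rfl fun j _ => ?_
      rw [← sum_mul, sum_congr rfl fun i _ => hBs i j, hBr, one_mul]
    calc _ = ∑ i, ∑ j, B i j * Real.log (y j) - ∑ i, ∑ j, B i j * Real.log (x i) -
          ∑ i, ∑ j, B i j * Real.log (x j) := by
          rw [← sum_sub_distrib, ← sum_sub_distrib]
          refine sum_congr rfl fun i _ => ?_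
          rw [← sum_sub_distrib, ← sum_sub_distrib]
          refine sum_congr rfl fun j _ => ?_
          ring
      _ = _ := by rw [e1, e2, e3]; ring
  have hfin : -2 * ∑ i, Real.log (x i) ≤ ∑ i, (Real.log (S i) - Real.log (y i)) := by
    have h5 := sum_le_sum fun i (_ : i ∈ (univ : Finset (Fin n))) => hrow i
    rw [htot] at h5
    rw [sum_sub_distrib]
    linarith
  have hl : ∏ i, (x i)⁻¹ ^ 2 = Real.exp (-2 * ∑ i, Real.log (x i)) := by
    rw [mul_sum, Real.exp_sum]
    refine prod_congr rfl fun i _ => ?_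
    rw [show -2 * Real.log (x i) = ((2 : ℕ) : ℝ) * (-Real.log (x i)) by push_cast; ring,
      Real.exp_nat_mul, Real.exp_neg, Real.exp_log (hx i)]
  have hr : ∏ i, S i / y i = Real.exp (∑ i, (Real.log (S i) - Real.log (y i))) := by
    rw [Real.exp_sum]
    refine prod_congr rfl fun i _ => ?_
    rw [Real.exp_sub, Real.exp_log (hSpos i), Real.exp_log (hy i)]
  rw [hl, hr]
  exact Real.exp_le_exp.2 hfin

/-- the symmetric scaling of the prime sum matrix is unique -/
theorem Cap_uniq {m : ℕ} (x y : Fin m → ℝ)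
    (hx : ∀ i : Fin m, 0 < x i ∧ x i * ∑ j ∈ univ.filter
      (fun j : Fin m => (2 * ((i : ℕ) + (j : ℕ)) + 3).Prime), x j = 1)
    (hy : ∀ i : Fin m, 0 < y i ∧ y i * ∑ j ∈ univ.filter
      (fun j : Fin m => (2 * ((i : ℕ) + (j : ℕ)) + 3).Prime), y j = 1) : x = y := by
  rcases Nat.eq_zero_or_pos m with rfl | hm
  · exact funext fun i => i.elim0
  haveI : Nonempty (Fin m) := ⟨⟨0, hm⟩⟩
  obtain ⟨i0, hi0⟩ := Finite.exists_max fun i => x i / y i
  obtain ⟨i1, hi1⟩ := Finite.exists_min fun i => x i / y i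
  set R := x i0 / y i0 with hRdef
  set S := x i1 / y i1 with hSdef
  have hR : ∀ i, x i ≤ R * y i := fun i => (div_le_iff₀ (hy i).1).1 (hi0 i)
  have hS : ∀ i, S * y i ≤ x i := fun i => (le_div_iff₀ (hy i).1).1 (hi1 i)
  have hRpos : 0 < R := div_pos (hx i0).1 (hy i0).1
  have hSpos : 0 < S := div_pos (hx i1).1 (hy i1).1
  set N : Fin m → Finset (Fin m) := fun i => univ.filter
      (fun j : Fin m => (2 * ((i : ℕ) + (j : ℕ)) + 3).Prime) with hN
  have hxN : ∀ i, x i * ∑ j ∈ N i, x j = 1 := fun i => (hx i).2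
  have hyN : ∀ i, y i * ∑ j ∈ N i, y j = 1 := fun i => (hy i).2
  have hRN : ∀ i, ∑ j ∈ N i, x j ≤ R * ∑ j ∈ N i, y j := fun i => by
    rw [mul_sum]; exact sum_le_sum fun j _ => hR j
  have hSN : ∀ i, S * ∑ j ∈ N i, y j ≤ ∑ j ∈ N i, x j := fun i => by
    rw [mul_sum]; exact sum_le_sum fun j _ => hS j
  have e0 : x i0 = R * y i0 := by rw [hRdef, div_mul_cancel₀ _ (hy i0).1.ne']
  have e1 : x i1 = S * y i1 := by rw [hSdef, div_mul_cancel₀ _ (hy i1).1.ne']
  have hRS : R * S = 1 := by
    apply le_antisymm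
    · calc R * S = R * S * (y i0 * ∑ j ∈ N i0, y j) := by rw [hyN, mul_one]
        _ = (R * y i0) * (S * ∑ j ∈ N i0, y j) := by ring
        _ ≤ (R * y i0) * ∑ j ∈ N i0, x j :=
            mul_le_mul_of_nonneg_left (hSN i0) (mul_pos hRpos (hy i0).1).le
        _ = 1 := by rw [← e0, hxN]
    · calc 1 = (S * y i1) * ∑ j ∈ N i1, x j := by rw [← e1, hxN]
        _ ≤ (S * y i1) * (R * ∑ j ∈ N i1, y j) :=
            mul_le_mul_of_nonneg_left (hRN i1) (mul_pos hSpos (hy i1).1).le
        _ = R * S * (y i1 * ∑ j ∈ N i1, y j) := by ring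
        _ = R * S := by rw [hyN, mul_one]
  have hnb1 : ∀ i j : Fin m, (2 * ((i : ℕ) + (j : ℕ)) + 3).Prime → x i = R * y i →
      x j = S * y j := by
    intro i j hij hi
    have hj : j ∈ N i := by rw [hN]; simp only [mem_filter, mem_univ, true_and]; exact hij
    have h1 : ∑ k ∈ N i, x k = S * ∑ k ∈ N i, y k := by
      have h2 := hxN i
      have h3 := hyN i
      have h4 : R * y i ≠ 0 := (mul_pos hRpos (hy i).1).ne'
      apply mul_left_cancel₀ h4
      rw [← hi, h2, hi]
      calc 1 = (R * S) * (y i * ∑ k ∈ N i, y k) := by rw [h3, hRS, one_mul]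
        _ = _ := by ring
    have h5 : ∑ k ∈ N i, (x k - S * y k) = 0 := by
      rw [sum_sub_distrib, ← mul_sum, h1, sub_self]
    have h6 := (sum_eq_zero_iff_of_nonneg fun k _ => sub_nonneg.2 (hS k)).1 h5 j hj
    linarith
  have hnb2 : ∀ i j : Fin m, (2 * ((i : ℕ) + (j : ℕ)) + 3).Prime → x i = S * y i →
      x j = R * y j := by
    intro i j hij hi
    have hj : j ∈ N i := by rw [hN]; simp only [mem_filter, mem_univ, true_and]; exact hij
    have h1 : ∑ k ∈ N i, x k = R * ∑ k ∈ N i, y k := by
      have h2 := hxN i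
      have h3 := hyN i
      have h4 : S * y i ≠ 0 := (mul_pos hSpos (hy i).1).ne'
      apply mul_left_cancel₀ h4
      rw [← hi, h2, hi]
      calc 1 = (R * S) * (y i * ∑ k ∈ N i, y k) := by rw [h3, hRS, one_mul]
        _ = _ := by ring
    have h5 : ∑ k ∈ N i, (R * y k - x k) = 0 := by
      rw [sum_sub_distrib, ← mul_sum, h1, sub_self]
    have h6 := (sum_eq_zero_iff_of_nonneg fun k _ => sub_nonneg.2 (hR k)).1 h5 j hj
    linarith
  have hdown : ∀ k : ℕ, ∀ i : Fin m, (i : ℕ) = k → (x i = R * y i ∨ x i = S * y i) →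
      (x ⟨0, hm⟩ = R * y ⟨0, hm⟩ ∨ x ⟨0, hm⟩ = S * y ⟨0, hm⟩) := by
    intro k
    induction k using Nat.strong_induction_on with
    | _ k ih =>
      intro i hik hi
      rcases Nat.eq_zero_or_pos k with hk | hk
      · have : i = ⟨0, hm⟩ := Fin.ext (by rw [hik, hk])
        rwa [this] at hi
      · obtain ⟨p, hp, hp1, hp2⟩ := Nat.exists_prime_lt_and_le_two_mul (2 * k + 1) (by omega)
        have hodd : p % 2 = 1 := by
          rcases hp.eq_two_or_odd with h | h
          · omega
          · exact h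
        have hj : (p - 3) / 2 - k < k := by omega
        have hjp : 2 * (k + ((p - 3) / 2 - k)) + 3 = p := by omega
        have hjm : (p - 3) / 2 - k < m := lt_trans hj (by rw [← hik]; exact i.2)
        refine ih ((p - 3) / 2 - k) hj ⟨(p - 3) / 2 - k, hjm⟩ rfl ?_
        have hpr : (2 * ((i : ℕ) + (((⟨(p - 3) / 2 - k, hjm⟩ : Fin m) : Fin m) : ℕ)) + 3).Prime := by
          simp only [hik]
          rw [hjp]
          exact hp
        rcases hi with hi | hi
        · exact Or.inr (hnb1 i _ hpr hi)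
        · exact Or.inl (hnb2 i _ hpr hi)
  have h0 := hdown i0 i0 rfl (Or.inl e0)
  have h3 : (2 * (((⟨0, hm⟩ : Fin m) : ℕ) + ((⟨0, hm⟩ : Fin m) : ℕ)) + 3).Prime := by
    norm_num
  have hy0 := (hy ⟨0, hm⟩).1
  have hEq : R = S := by
    rcases h0 with h | h
    · have h' := hnb1 _ _ h3 h
      rw [h] at h'
      exact mul_right_cancel₀ hy0.ne' h'
    · have h' := hnb2 _ _ h3 h
      rw [h] at h'
      exact (mul_right_cancel₀ hy0.ne' h').symm
  have hR1 : R = 1 := by
    rw [← hEq] at hRS
    nlinarith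
  have hS1 : S = 1 := by rw [← hEq, hR1]
  funext i
  apply le_antisymm
  · have := hR i
    rwa [hR1, one_mul] at this
  · have := hS i
    rwa [hS1, one_mul] at this

end Pool.Agent.PCW
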