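import Pool.Agent.PCW.St

/-!
# PCW: the one-sided integral in the far region
-/

set_option autoImplicit false

noncomputable section

namespace Pool.Agent.PCW

open Finset Filter MeasureTheory Matrix

/-- continuity of the linear forms -/
private lemma Fxa_cont {m : ℕ} (E : Matrix (Fin m) (Fin m) ℝ) (ρ : ℝ) (i : Fin m) :
    Continuous fun θ : Fin m → ℝ => xj E (fun j => pt ρ (θ j)) i := by
  unfold xj pt
  fun_prop

private lemma Fxa_contw {m : ℕ} (ρ : ℝ) :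
    Continuous fun θ : Fin m → ℝ => ∏ j, ‖cw ρ (θ j)‖ := by
  unfold cw
  fun_prop

private lemma Fxa_xb {m : ℕ} (E : Matrix (Fin m) (Fin m) ℝ) (ρ : ℝ) (i : Fin m)
    (θ : Fin m → ℝ) : ‖xj E (fun j => pt ρ (θ j)) i‖ ≤ ∑ j, |E i j| * |ρ| := by
  unfold xj
  refine (norm_sum_le _ _).trans (sum_le_sum fun j _ => ?_)
  rw [norm_mul, Complex.norm_real, Real.norm_eq_abs]
  refine mul_le_mul_of_nonneg_left ?_ (abs_nonneg _)
  unfold pt
  rw [norm_mul, Complex.norm_exp_ofReal_mul_I, mul_one, Complex.norm_real, Real.norm_eq_abs]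

/-- integrability -/
private lemma Fxa_int (hL : St_Law) {m : ℕ} (E : Matrix (Fin m) (Fin m) ℝ) (ρ k : ℝ)
    (hρ : 0 < ρ) (hk : 0 ≤ k) :
    Integrable (fun θ : Fin m → ℝ =>
      Real.exp (k * ∑ i, ‖xj E (fun j => pt ρ (θ j)) i‖ ^ 2) * ∏ j, ‖cw ρ (θ j)‖)
      (Measure.pi fun _ => nu) := by
  have : IsProbabilityMeasure nu := hL.1
  have hc : Continuous (fun θ : Fin m → ℝ =>
      Real.exp (k * ∑ i, ‖xj E (fun j => pt ρ (θ j)) i‖ ^ 2) * ∏ j, ‖cw ρ (θ j)‖) := by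
    refine Continuous.mul ?_ (Fxa_contw ρ)
    refine Real.continuous_exp.comp (continuous_const.mul ?_)
    exact continuous_finsetSum _ fun i _ => ((Fxa_cont E ρ i).norm.pow 2)
  refine Integrable.of_bound hc.aestronglyMeasurable
    (Real.exp (k * ∑ i, (∑ j, |E i j| * |ρ|) ^ 2) * ∏ _j : Fin m, (mu ρ + 1))
    (Filter.Eventually.of_forall fun θ => ?_)
  have h1 : (0 : ℝ) ≤ ∏ j, ‖cw ρ (θ j)‖ := prod_nonneg fun _ _ => norm_nonneg _
  rw [Real.norm_eq_abs, abs_of_nonneg (mul_nonneg (Real.exp_nonneg _) h1)]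
  refine mul_le_mul ?_ ?_ h1 (Real.exp_nonneg _)
  · refine Real.exp_le_exp.2 (mul_le_mul_of_nonneg_left (sum_le_sum fun i _ => ?_) hk)
    exact pow_le_pow_left₀ (norm_nonneg _) (Fxa_xb E ρ i θ) 2
  · refine prod_le_prod (fun _ _ => norm_nonneg _) fun j _ => ?_
    rw [hL.2.2.1 ρ (θ j) hρ]
    linarith [Real.cos_le_one (θ j)]

private lemma Fxa_sum {C : ℝ} {m : ℕ} {E : Matrix (Fin m) (Fin m) ℝ} (hE : Hyp C m E)
    (x : Fin m → ℂ) : ∑ i, xj E x i = 0 := by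
  unfold xj
  rw [sum_comm]
  refine sum_eq_zero fun j _ => ?_
  rw [← sum_mul]
  have h1 : ∑ i, (E i j : ℂ) = ((∑ i, E j i : ℝ) : ℂ) := by
    rw [Complex.ofReal_sum]
    exact sum_congr rfl fun i _ => by rw [hE.symm i j]
  rw [h1, hE.row j, Complex.ofReal_zero, zero_mul]

/-- the product over the eigenvalues -/
private lemma Fxa_prod {C : ℝ} {m : ℕ} {E : Matrix (Fin m) (Fin m) ℝ} {e : Fin m → Fin m → ℝ}
    {l : Fin m → ℝ} (hS : Sp C m E e l) (s : ℝ) (hs0 : 0 ≤ s) (hs : s ≤ 10 / 3) :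
    (∀ a, s * l a ^ 2 < 1) ∧ ∏ a, (1 - s * l a ^ 2)⁻¹ ≤ Real.exp (54 * (C * Real.log m)) := by
  have hl : ∀ a, l a ^ 2 ≤ 0.2809 := by
    intro a
    have h1 := hS.small a
    have h2 : l a ^ 2 = |l a| ^ 2 := (sq_abs _).symm
    rw [h2]
    nlinarith [abs_nonneg (l a)]
  have hx : ∀ a, s * l a ^ 2 ≤ 0.9364 := by
    intro a
    have h1 := hl a
    have h2 := sq_nonneg (l a)
    nlinarith
  refine ⟨fun a => by linarith [hx a], ?_⟩
  have h1 : ∏ a, (1 - s * l a ^ 2)⁻¹ ≤ ∏ a, Real.exp (16 * (s * l a ^ 2)) := by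
    refine prod_le_prod (fun a _ => inv_nonneg.2 (by linarith [hx a])) fun a _ => ?_
    have h2 : 0 ≤ s * l a ^ 2 := mul_nonneg hs0 (sq_nonneg _)
    have h3 := hx a
    have h4 : 16 * (s * l a ^ 2) + 1 ≤ Real.exp (16 * (s * l a ^ 2)) := Real.add_one_le_exp _
    refine le_trans ?_ h4
    rw [inv_le_iff_one_le_mul₀ (by linarith)]
    nlinarith
  refine h1.trans ?_
  rw [← Real.exp_sum]
  refine Real.exp_le_exp.2 ?_
  rw [← mul_sum, ← mul_sum]
  have h5 := hS.two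
  have h6 : 0 ≤ ∑ a, l a ^ 2 := sum_nonneg fun a _ => sq_nonneg _
  nlinarith

/-- the estimate for one radius -/
private lemma Fxa_core (h1 : St_Law) (h2 : St_Spe) (h3 : St_Exm) (h4 : St_Xpb) (C : ℝ)
    (hC : 0 < C) (m : ℕ) (hm : 1 ≤ m) (hlog : 1 ≤ Real.log m) (E : Matrix (Fin m) (Fin m) ℝ)
    (hE : Hyp C m E) (α A ρ B : ℝ) (hA : 0 < A) (hρ : 0 < ρ) (hA2 : 0.3 ≤ A ^ 2)
    (hs : ρ ^ 2 * (1 / (2 * A ^ 2)) ≤ 10 / 3) (hB : A * mu ρ ≤ Real.exp B)
    (hh : B + (α ^ 2 - A ^ 2) / (2 * A ^ 2) - α ≤ -1 - 1 / 50 * gg α) :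
    Real.exp (-(m * α)) *
    ∫ θ : Fin m → ℝ, (∏ i, √(‖(α : ℂ) + xj E (fun j => pt ρ (θ j)) i‖ ^ 2 +
        4 * (C * Real.log m + 1) / m)) * ∏ j, ‖cw ρ (θ j)‖ ∂(Measure.pi fun _ => nu) ≤
    (m : ℝ) ^ (⌈61 * C + 7⌉₊) * Real.exp (-m) * Real.exp (-(1 / 50) * m * gg α) := by
  obtain ⟨e, l, hS, -⟩ := h2 C m E hm hE
  have hm0 : (0 : ℝ) < m := by exact_mod_cast hm
  have hk : 0 ≤ 1 / (2 * A ^ 2) := by positivity
  have hκ : 0 ≤ 4 * (C * Real.log m + 1) / m := by positivity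
  have hmu : 0 < mu ρ := by unfold mu; positivity
  obtain ⟨hP1, hP2⟩ := Fxa_prod hS (ρ ^ 2 * (1 / (2 * A ^ 2))) (by positivity) hs
  have hI : ∫ θ : Fin m → ℝ, (∏ i, √(‖(α : ℂ) + xj E (fun j => pt ρ (θ j)) i‖ ^ 2 +
        4 * (C * Real.log m + 1) / m)) * ∏ j, ‖cw ρ (θ j)‖ ∂(Measure.pi fun _ => nu) ≤
      (A ^ m * Real.exp (m * (α ^ 2 + 4 * (C * Real.log m + 1) / m - A ^ 2) / (2 * A ^ 2))) *
        (mu ρ ^ m * Real.exp (54 * (C * Real.log m))) := by
    have hb := h3 C m E e l hS ρ (1 / (2 * A ^ 2)) hρ hk hP1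
    have hc : ∫ θ : Fin m → ℝ, (∏ i, √(‖(α : ℂ) + xj E (fun j => pt ρ (θ j)) i‖ ^ 2 +
        4 * (C * Real.log m + 1) / m)) * ∏ j, ‖cw ρ (θ j)‖ ∂(Measure.pi fun _ => nu) ≤
        ∫ θ : Fin m → ℝ,
        (A ^ m * Real.exp (m * (α ^ 2 + 4 * (C * Real.log m + 1) / m - A ^ 2) / (2 * A ^ 2))) *
        (Real.exp ((1 / (2 * A ^ 2)) * ∑ i, ‖xj E (fun j => pt ρ (θ j)) i‖ ^ 2) *
          ∏ j, ‖cw ρ (θ j)‖) ∂(Measure.pi fun _ => nu) := by
      refine integral_mono_of_nonneg (Filter.Eventually.of_forall fun θ => ?_)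
        ((Fxa_int h1 E ρ _ hρ hk).const_mul _) (Filter.Eventually.of_forall fun θ => ?_)
      · exact mul_nonneg (prod_nonneg fun _ _ => Real.sqrt_nonneg _)
          (prod_nonneg fun _ _ => norm_nonneg _)
      · have hx := h4 m α (4 * (C * Real.log m + 1) / m) A
          (fun i => xj E (fun j => pt ρ (θ j)) i) hm hκ hA (Fxa_sum hE _)
        have hy := mul_le_mul_of_nonneg_right hx
          (prod_nonneg fun j (_ : j ∈ (univ : Finset (Fin m))) => norm_nonneg (cw ρ (θ j)))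
        refine hy.trans (le_of_eq ?_)
        ring
    rw [integral_const_mul] at hc
    refine hc.trans (mul_le_mul_of_nonneg_left (hb.trans ?_) (by positivity))
    exact mul_le_mul_of_nonneg_left hP2 (by positivity)
  have hJ : A ^ m * mu ρ ^ m ≤ Real.exp (m * B) := by
    rw [← mul_pow, Real.exp_nat_mul]
    exact pow_le_pow_left₀ (by positivity) hB m
  have hK : Real.exp ((61 * C + 7) * Real.log m) ≤ (m : ℝ) ^ (⌈61 * C + 7⌉₊) := by
    rw [← Real.rpow_natCast, Real.rpow_def_of_pos hm0, mul_comm (Real.log _)]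
    exact Real.exp_le_exp.2 (mul_le_mul_of_nonneg_right (Nat.le_ceil _) (by linarith))
  refine (mul_le_mul_of_nonneg_left hI (Real.exp_nonneg _)).trans ?_
  have hL : Real.exp (-(m * α)) *
      ((A ^ m * Real.exp (m * (α ^ 2 + 4 * (C * Real.log m + 1) / m - A ^ 2) / (2 * A ^ 2))) *
        (mu ρ ^ m * Real.exp (54 * (C * Real.log m)))) =
      (A ^ m * mu ρ ^ m) * (Real.exp (-(m * α)) *
        Real.exp (m * (α ^ 2 + 4 * (C * Real.log m + 1) / m - A ^ 2) / (2 * A ^ 2)) *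
        Real.exp (54 * (C * Real.log m))) := by ring
  rw [hL]
  refine (mul_le_mul_of_nonneg_right hJ (by positivity)).trans ?_
  refine le_trans ?_ (mul_le_mul_of_nonneg_right (mul_le_mul_of_nonneg_right hK
    (Real.exp_nonneg _)) (Real.exp_nonneg _))
  rw [← Real.exp_add, ← Real.exp_add, ← Real.exp_add, ← Real.exp_add, ← Real.exp_add]
  refine Real.exp_le_exp.2 ?_
  have hM : (m : ℝ) * (α ^ 2 + 4 * (C * Real.log m + 1) / m - A ^ 2) / (2 * A ^ 2) =
      m * ((α ^ 2 - A ^ 2) / (2 * A ^ 2)) + 4 * (C * Real.log m + 1) * (1 / (2 * A ^ 2)) := by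
    field_simp
    ring
  have hN : 4 * (C * Real.log m + 1) * (1 / (2 * A ^ 2)) ≤ 7 * (C * Real.log m + 1) := by
    have h5 : 1 / (2 * A ^ 2) ≤ 7 / 4 := by
      rw [div_le_iff₀ (by positivity)]
      linarith
    have h6 : 0 ≤ C * Real.log m := by positivity
    nlinarith
  have hO := mul_le_mul_of_nonneg_left hh hm0.le
  rw [hM]
  linarith

private lemma Fxa_log (α : ℝ) (hα : 0.8 ≤ α) : Real.log α - α ≤ -1 - 1 / 50 * gg α := by
  set s := √α with hs
  have h0 : (0 : ℝ) ≤ α := by linarith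
  have h1 : s ^ 2 = α := Real.sq_sqrt h0
  have hs0 : 0 < s := Real.sqrt_pos.2 (by linarith)
  have h2 : Real.log α ≤ 2 * (s - 1) := by
    rw [← h1, Real.log_pow]
    have := Real.log_le_sub_one_of_pos hs0
    push_cast
    linarith
  have h3 : gg α ≤ 50 * (s - 1) ^ 2 := by
    unfold gg
    rcases le_total s 4 with h4 | h4
    · refine (min_le_left _ _).trans ?_
      rw [← h1]
      have h5 : (s ^ 2 - 1) ^ 2 = (s + 1) ^ 2 * (s - 1) ^ 2 := by ring
      rw [h5]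
      refine mul_le_mul_of_nonneg_right ?_ (sq_nonneg _)
      nlinarith
    · refine (min_le_right _ _).trans ?_
      rw [← h1, abs_of_nonneg (by nlinarith)]
      nlinarith
  nlinarith

private lemma Fxa_e1 : (0.8 : ℝ) ≤ Real.exp (-0.21) := by
  have h1 : Real.exp (-0.21) = Real.exp (-0.105) ^ 2 := by
    rw [← Real.exp_nat_mul]
    norm_num
  have h2 : (-0.105 : ℝ) + 1 ≤ Real.exp (-0.105) := Real.add_one_le_exp _
  rw [h1]
  nlinarith

private lemma Fxa_e2 : (0.584 : ℝ) ≤ Real.exp (-0.52) := by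
  have h1 : Real.exp (-0.52) = Real.exp (-0.065) ^ 8 := by
    rw [← Real.exp_nat_mul]
    norm_num
  have h2 : (-0.065 : ℝ) + 1 ≤ Real.exp (-0.065) := Real.add_one_le_exp _
  rw [h1]
  refine le_trans ?_ (pow_le_pow_left₀ (by norm_num) h2 8)
  norm_num

theorem thm_Fxa (h1 : St_Law) (h2 : St_Spe) (h3 : St_Exm) (h4 : St_Xpb) : St_Fxa := by
  intro C hC
  refine ⟨⌈61 * C + 7⌉₊, ?_⟩
  filter_upwards [eventually_ge_atTop 3] with m hm E hE α hα
  have hm1 : 1 ≤ m := by omega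
  have hlog : 1 ≤ Real.log m := by
    rw [Real.le_log_iff_exp_le (by exact_mod_cast hm1)]
    have h5 : (3 : ℝ) ≤ m := by exact_mod_cast hm
    linarith [Real.exp_one_lt_d9]
  have hgg : α ≤ 1 → gg α ≤ (α - 1) ^ 2 := fun _ => min_le_left _ _
  have hmu2 : mu 2 = 1 := by unfold mu; norm_num
  rcases le_or_gt 0.8 α with h5 | h5
  · refine ⟨2, by norm_num, le_rfl, ?_⟩
    refine Fxa_core h1 h2 h3 h4 C hC m hm1 hlog E hE α α 2 (Real.log α) (by linarith) (by norm_num)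
      (by nlinarith) ?_ ?_ ?_
    · have h6 : 1 / (2 * α ^ 2) ≤ 5 / 6 := by
        rw [div_le_iff₀ (by positivity)]
        nlinarith
      linarith
    · rw [hmu2, mul_one, Real.exp_log (by linarith)]
    · rw [sub_self, zero_div, add_zero]
      exact Fxa_log α h5
  rcases le_or_gt 0.6 α with h6 | h6
  · refine ⟨2, by norm_num, le_rfl, ?_⟩
    refine Fxa_core h1 h2 h3 h4 C hC m hm1 hlog E hE α 0.8 2 (-0.21) (by norm_num) (by norm_num)
      (by norm_num) (by norm_num) ?_ ?_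
    · rw [hmu2, mul_one]
      exact Fxa_e1
    · have h7 := hgg (by linarith)
      have h8 : (α - 1) ^ 2 ≤ 0.16 := by nlinarith
      have h9 : (α ^ 2 - 0.8 ^ 2) / (2 * 0.8 ^ 2) = (α ^ 2 - 0.64) / 1.28 := by norm_num
      rw [h9]
      have h10 : (α ^ 2 - 0.64) / 1.28 ≤ (1.4 * α - 1.12) / 1.28 := by
        apply div_le_div_of_nonneg_right _ (by norm_num)
        nlinarith
      have h11 : (1.4 * α - 1.12) / 1.28 = 1.09375 * α - 0.875 := by
        rw [div_eq_iff (by norm_num)]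
        ring
      linarith
  · have h7 : √(0.3 : ℝ) ^ 2 = 0.3 := Real.sq_sqrt (by norm_num)
    have h8 : √(2 : ℝ) ^ 2 = 2 := Real.sq_sqrt (by norm_num)
    have h9 : (0 : ℝ) < √0.3 := Real.sqrt_pos.2 (by norm_num)
    have h10 : (0 : ℝ) < √2 := Real.sqrt_pos.2 (by norm_num)
    refine ⟨√2, h10, by nlinarith, ?_⟩
    refine Fxa_core h1 h2 h3 h4 C hC m hm1 hlog E hE α (√0.3) (√2) (-0.52) h9 h10
      h7.ge ?_ ?_ ?_
    · rw [h7, h8]
      norm_num
    · refine le_trans ?_ Fxa_e2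
      have h11 : mu √2 = 3 / 4 * √2 := by
        unfold mu
        field_simp
        nlinarith
      rw [h11]
      have h12 : (√0.3 * (3 / 4 * √2)) ^ 2 = 0.3375 := by
        rw [mul_pow, mul_pow, h7, h8]
        norm_num
      have h13 : 0 < √0.3 * (3 / 4 * √2) := by positivity
      nlinarith
    · have h11 := hgg (by linarith)
      have h12 : (α - 1) ^ 2 ≤ 1 := by nlinarith
      rw [h7]
      have h13 : (α ^ 2 - 0.3) / (2 * 0.3) ≤ (0.6 * α - 0.3) / (2 * 0.3) := by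
        apply div_le_div_of_nonneg_right _ (by norm_num)
        nlinarith
      have h14 : (0.6 * α - 0.3) / (2 * 0.3) = α - 0.5 := by
        rw [div_eq_iff (by norm_num)]
        ring
      linarith

end Pool.Agent.PCW
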