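import Mathlib
import Pool.Agent.PCW.StN
import Pool.Agent.GBQ.Major
import Pool.Agent.GBQ.SmAP
import Pool.Agent.GBQ.Bridge
import Pool.Agent.GV.Asm

set_option autoImplicit false

/-!
# PCW / Smj (helper67): major arcs, constant sieve limit
-/

namespace Pool.Agent.PCW

open Finset Filter
open Pool.Agent.GBQ (lam LamS ee pr rho Rough)
open Pool.Agent.MT (IsWt)

private theorem Smj_ee_nat_mul (θ : ℝ) (k : ℕ) : ee (θ * k) = ee θ ^ k := by
  induction k with
  | zero => simp [GBQ.ee_zero]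
  | succ k ih =>
    rw [pow_succ, ← ih, ← GBQ.ee_add]
    congr 1
    push_cast
    ring

private theorem Smj_ee_eq_one {θ : ℝ} (h : ee θ = 1) : ∃ n : ℤ, θ = n := by
  unfold GBQ.ee at h
  rw [Complex.exp_eq_one_iff] at h
  obtain ⟨n, hn⟩ := h
  refine ⟨n, ?_⟩
  have h2 : ((θ : ℂ)) = n := by
    have h3 : (2 * (Real.pi : ℂ) * Complex.I) ≠ 0 := by
      simp [Real.pi_ne_zero]
    have h4 : (θ : ℂ) * (2 * (Real.pi : ℂ) * Complex.I) = n * (2 * (Real.pi : ℂ) * Complex.I) := by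
      rw [← hn]
      push_cast
      ring
    exact mul_right_cancel₀ h3 h4
  exact_mod_cast h2

/-- the sum of an additive character over the multiples of `d` -/
private theorem Smj_base (a : ℤ) (q D d : ℕ) (hq : 1 ≤ q) (hd : 1 ≤ d) (ha : Int.gcd a q = 1) (hqD : q ∣ D) (hdD : d ∣ D) :
    ∑ x ∈ (range D).filter (fun x => d ∣ x), ee ((a : ℝ) * x / q) = if q ∣ d then ((D : ℂ) / d) else 0 := by
  obtain ⟨N, rfl⟩ := hdD
  have hq0 : (q : ℝ) ≠ 0 := by positivity
  have hd0 : (d : ℝ) ≠ 0 := by positivity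
  have himg : (range (d * N)).filter (fun x => d ∣ x) = (range N).image (fun k => d * k) := by
    ext x
    rw [mem_filter, mem_range, mem_image]
    constructor
    · rintro ⟨h1, k, rfl⟩
      exact ⟨k, mem_range.2 (Nat.lt_of_mul_lt_mul_left h1), rfl⟩
    · rintro ⟨k, hk, rfl⟩
      exact ⟨Nat.mul_lt_mul_of_pos_left (mem_range.1 hk) (by omega), dvd_mul_right _ _⟩
  rw [himg, sum_image (by
    intro i _ j _ hij
    exact Nat.eq_of_mul_eq_mul_left (by omega) hij)]
  have hterm : ∀ k : ℕ, ee ((a : ℝ) * ((d * k : ℕ) : ℝ) / q) = ee ((a : ℝ) * d / q) ^ k := by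
    intro k
    rw [← Smj_ee_nat_mul]
    congr 1
    push_cast
    ring
  rw [sum_congr rfl fun k _ => hterm k]
  split_ifs with hqd
  · obtain ⟨e, he⟩ := hqd
    have h1 : ee ((a : ℝ) * d / q) = 1 := by
      have h2 : (a : ℝ) * d / q = ((a * e : ℤ) : ℝ) := by
        rw [he]
        push_cast
        field_simp
      rw [h2, GBQ.ee_int]
    rw [h1]
    simp only [one_pow, sum_const, card_range, nsmul_eq_mul, mul_one]
    have : (d : ℂ) ≠ 0 := by exact_mod_cast (show d ≠ 0 by omega)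
    push_cast
    field_simp
  · have hne : ee ((a : ℝ) * d / q) ≠ 1 := by
      intro h
      obtain ⟨n, hn⟩ := Smj_ee_eq_one h
      rw [div_eq_iff hq0] at hn
      have h2 : a * (d : ℤ) = n * (q : ℤ) := by exact_mod_cast hn
      have h3 : (q : ℤ) ∣ a * d := ⟨n, by rw [h2]; ring⟩
      have h4 : IsCoprime (q : ℤ) a := by
        rw [Int.isCoprime_iff_gcd_eq_one, Int.gcd_comm]
        exact ha
      exact hqd (Int.natCast_dvd_natCast.1 (h4.dvd_of_dvd_mul_left h3))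
    have hpow : ee ((a : ℝ) * d / q) ^ N = 1 := by
      obtain ⟨e, he⟩ := hqD
      rw [← Smj_ee_nat_mul]
      have h2 : (a : ℝ) * d / q * N = ((a * e : ℤ) : ℝ) := by
        have h3 : (d : ℝ) * N = q * e := by exact_mod_cast he
        have h4 : (a : ℝ) * d / q * N = a * (d * N) / q := by ring
        rw [h4, h3]
        push_cast
        field_simp
      rw [h2, GBQ.ee_int]
    rw [geom_sum_eq hne, hpow, sub_self, zero_div]

/-- the sum of an additive character over numbers without prime factors in `S` -/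
private theorem Smj_sieve (a : ℤ) (q D : ℕ) (hq : 1 ≤ q) (ha : Int.gcd a q = 1) (hqD : q ∣ D) (S : Finset ℕ) :
    (∀ p ∈ S, p.Prime) → ∀ d : ℕ, 1 ≤ d → (∀ p ∈ S, ¬ p ∣ d) → d * ∏ p ∈ S, p ∣ D →
    ∑ x ∈ (range D).filter (fun x => d ∣ x ∧ ∀ p ∈ S, ¬ p ∣ x), ee ((a : ℝ) * x / q) =
      ((D : ℂ) / d) * (if q ∣ d * ∏ p ∈ S, p then ∏ p ∈ S, (if p ∣ q then (-(1 / (p : ℂ))) else 1 - 1 / (p : ℂ)) else 0) := by
  induction S using Finset.induction_on with
  | empty =>
    intro _ d hd _ hdD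
    have h := Smj_base a q D d hq hd ha hqD (by simpa using hdD)
    simp only [notMem_empty, IsEmpty.forall_iff, implies_true, and_true, prod_empty, mul_one]
    rw [h]
    split_ifs <;> simp
  | insert p S hpS ih =>
    intro hS d hd hdS hdD
    have hp : p.Prime := hS p (mem_insert_self p S)
    have hS' : ∀ p ∈ S, p.Prime := fun p hp => hS p (mem_insert_of_mem hp)
    have hp0 : (p : ℂ) ≠ 0 := by exact_mod_cast hp.ne_zero
    have hd0 : (d : ℂ) ≠ 0 := by exact_mod_cast (show d ≠ 0 by omega)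
    rw [prod_insert hpS] at hdD ⊢
    rw [prod_insert hpS]
    have hpd : ¬ p ∣ d := hdS p (mem_insert_self p S)
    have hpP : ¬ p ∣ ∏ r ∈ S, r := by
      intro h
      obtain ⟨r, hr, hpr⟩ := (hp.prime.dvd_finsetProd_iff _).1 h
      have : p = r := (Nat.prime_dvd_prime_iff_eq hp (hS' r hr)).1 hpr
      exact hpS (this ▸ hr)
    have ih1 := ih hS' d hd (fun r hr => hdS r (mem_insert_of_mem hr))
      (dvd_trans (mul_dvd_mul_left d (dvd_mul_left _ _)) hdD)
    have ih2 := ih hS' (d * p) (Nat.mul_pos (by omega) hp.pos) (fun r hr h => by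
      rcases (hS' r hr).dvd_mul.1 h with h | h
      · exact hdS r (mem_insert_of_mem hr) h
      · have : r = p := (Nat.prime_dvd_prime_iff_eq (hS' r hr) hp).1 h
        exact hpS (this ▸ hr)) (by rw [mul_assoc]; exact hdD)
    have hsplit : ∑ x ∈ (range D).filter (fun x => d ∣ x ∧ ∀ r ∈ S, ¬ r ∣ x), ee ((a : ℝ) * x / q) =
        ∑ x ∈ (range D).filter (fun x => d ∣ x ∧ ∀ r ∈ insert p S, ¬ r ∣ x), ee ((a : ℝ) * x / q) +
        ∑ x ∈ (range D).filter (fun x => d * p ∣ x ∧ ∀ r ∈ S, ¬ r ∣ x), ee ((a : ℝ) * x / q) := by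
      rw [← sum_filter_add_sum_filter_not ((range D).filter (fun x => d ∣ x ∧ ∀ r ∈ S, ¬ r ∣ x)) (fun x => ¬ p ∣ x),
        filter_filter, filter_filter]
      congr 1
      · refine sum_congr (filter_congr fun x _ => ?_) fun _ _ => rfl
        constructor
        · rintro ⟨⟨h1, h2⟩, h3⟩
          refine ⟨h1, fun r hr => ?_⟩
          rcases mem_insert.1 hr with rfl | hr
          · exact h3
          · exact h2 r hr
        · rintro ⟨h1, h2⟩
          exact ⟨⟨h1, fun r hr => h2 r (mem_insert_of_mem hr)⟩, h2 p (mem_insert_self p S)⟩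
      · refine sum_congr (filter_congr fun x _ => ?_) fun _ _ => rfl
        rw [not_not]
        constructor
        · rintro ⟨⟨h1, h2⟩, h3⟩
          exact ⟨Nat.Coprime.mul_dvd_of_dvd_of_dvd ((Nat.coprime_comm.1 ((Nat.Prime.coprime_iff_not_dvd hp).2 hpd))) h1 h3, h2⟩
        · rintro ⟨h1, h2⟩
          exact ⟨⟨(dvd_mul_right d p).trans h1, h2⟩, (dvd_mul_left p d).trans h1⟩
    have hres : ∑ x ∈ (range D).filter (fun x => d ∣ x ∧ ∀ r ∈ insert p S, ¬ r ∣ x), ee ((a : ℝ) * x / q) =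
        ∑ x ∈ (range D).filter (fun x => d ∣ x ∧ ∀ r ∈ S, ¬ r ∣ x), ee ((a : ℝ) * x / q) -
        ∑ x ∈ (range D).filter (fun x => d * p ∣ x ∧ ∀ r ∈ S, ¬ r ∣ x), ee ((a : ℝ) * x / q) := by
      rw [hsplit]
      ring
    rw [hres, ih1, ih2]
    by_cases hpq : p ∣ q
    · have h1 : ¬ q ∣ d * ∏ r ∈ S, r := by
        intro h
        rcases hp.dvd_mul.1 (hpq.trans h) with h2 | h2
        · exact hpd h2
        · exact hpP h2
      rw [if_neg h1, if_pos hpq]
      have e : d * p * ∏ r ∈ S, r = d * (p * ∏ r ∈ S, r) := by ring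
      rw [e]
      split_ifs
      · push_cast
        field_simp
        ring
      · ring
    · have e1 : (q ∣ d * p * ∏ r ∈ S, r) ↔ q ∣ d * ∏ r ∈ S, r := by
        have h2 : d * p * ∏ r ∈ S, r = p * (d * ∏ r ∈ S, r) := by ring
        rw [h2]
        have h3 : q.Coprime p := ((Nat.Prime.coprime_iff_not_dvd hp).2 hpq).symm
        exact ⟨fun h => h3.dvd_of_dvd_mul_left h, fun h => h.mul_left p⟩
      have e2 : (q ∣ d * (p * ∏ r ∈ S, r)) ↔ q ∣ d * ∏ r ∈ S, r := by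
        rw [← mul_assoc]
        exact e1
      by_cases h4 : q ∣ d * ∏ r ∈ S, r
      · simp only [e1, e2, h4, hpq, if_true, if_false]
        push_cast
        field_simp
      · simp only [e1, e2, h4, hpq, if_false]
        ring

/-- the value `μ(q)/φ(q)` as a product -/
private noncomputable def Smj_G (q : ℕ) : ℂ :=
  if q ∣ ∏ p ∈ q.primeFactors, p then ∏ p ∈ q.primeFactors, (-(1 / ((p : ℂ) - 1))) else 0

private theorem Smj_coprime_iff (q x : ℕ) (hq : 1 ≤ q) :
    (∀ p ∈ q.primeFactors, ¬ p ∣ x) ↔ x.Coprime q := by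
  constructor
  · intro h
    by_contra hc
    obtain ⟨p, hp, hpx, hpq⟩ := Nat.Prime.not_coprime_iff_dvd.1 hc
    exact h p (Nat.mem_primeFactors.2 ⟨hp, hpq, by omega⟩) hpx
  · intro h p hp hpx
    exact (Nat.Prime.not_coprime_iff_dvd.2 ⟨p, Nat.prime_of_mem_primeFactors hp, hpx,
      Nat.dvd_of_mem_primeFactors hp⟩) h

private theorem Smj_totient (q : ℕ) :
    (q.totient : ℂ) = q * ∏ p ∈ q.primeFactors, (1 - 1 / (p : ℂ)) := by
  have h := Nat.totient_eq_mul_prod_factors q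
  have h2 : ((q.totient : ℚ) : ℂ) = (((q : ℚ) * ∏ p ∈ q.primeFactors, (1 - (p : ℚ)⁻¹) : ℚ) : ℂ) := by
    rw [h]
  push_cast at h2
  rw [h2]
  congr 1
  refine prod_congr rfl fun p _ => ?_
  rw [one_div]

private theorem Smj_fac (p : ℕ) (hp : p.Prime) :
    (1 - 1 / (p : ℂ)) * (-(1 / ((p : ℂ) - 1))) = -(1 / (p : ℂ)) := by
  have h0 : (p : ℂ) ≠ 0 := by exact_mod_cast hp.ne_zero
  have h1 : (p : ℂ) - 1 ≠ 0 := by
    rw [sub_ne_zero]
    exact_mod_cast hp.one_lt.ne'
  field_simp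

private theorem Smj_one_sub_ne (p : ℕ) (hp : p.Prime) : (1 - 1 / (p : ℂ)) ≠ 0 := by
  have h0 : (p : ℂ) ≠ 0 := by exact_mod_cast hp.ne_zero
  have h1 : (p : ℂ) - 1 ≠ 0 := by
    rw [sub_ne_zero]
    exact_mod_cast hp.one_lt.ne'
  intro h
  apply h1
  field_simp at h
  rw [h, mul_zero]

/-- the Ramanujan sum -/
private theorem Smj_ram (a : ℤ) (q : ℕ) (hq : 1 ≤ q) (ha : Int.gcd a q = 1) :
    ∑ c ∈ (range q).filter (fun c => c.Coprime q), ee ((a : ℝ) * c / q) = (q.totient : ℂ) * Smj_G q := by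
  have h := Smj_sieve a q q hq ha dvd_rfl q.primeFactors (fun p hp => Nat.prime_of_mem_primeFactors hp)
    1 le_rfl (fun p hp h1 => (Nat.prime_of_mem_primeFactors hp).one_lt.ne' (Nat.dvd_one.1 h1))
    (by rw [one_mul]; exact Nat.prod_primeFactors_dvd q)
  have h1 : (range q).filter (fun c => c.Coprime q) =
      (range q).filter (fun x => 1 ∣ x ∧ ∀ p ∈ q.primeFactors, ¬ p ∣ x) := by
    refine filter_congr fun x _ => ?_
    rw [Smj_coprime_iff q x hq]
    exact ⟨fun h => ⟨one_dvd x, h⟩, fun h => h.2⟩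
  rw [h1, h]
  unfold Smj_G
  simp only [one_mul, Nat.cast_one, div_one]
  split_ifs with h2
  · rw [Smj_totient q, mul_assoc, ← prod_mul_distrib]
    congr 1
    refine prod_congr rfl fun p hp => ?_
    rw [if_pos (Nat.dvd_of_mem_primeFactors hp), Smj_fac p (Nat.prime_of_mem_primeFactors hp)]
  · ring

private theorem Smj_rho (z : ℕ) : ((rho z : ℝ) : ℂ) = ∏ p ∈ pr z, (1 - 1 / (p : ℂ)) := by
  unfold GBQ.rho
  push_cast
  rfl

private theorem Smj_sub (q z : ℕ) (_hq : 1 ≤ q) (h : q ∣ ∏ p ∈ pr z, p) :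
    q.primeFactors ⊆ pr z := by
  intro p hp
  have hpp := Nat.prime_of_mem_primeFactors hp
  obtain ⟨r, hr, hpr⟩ := (hpp.prime.dvd_finsetProd_iff _).1 ((Nat.dvd_of_mem_primeFactors hp).trans h)
  have : p = r := (Nat.prime_dvd_prime_iff_eq hpp (GBQ.mem_pr.1 hr).2).1 hpr
  exact this ▸ hr

private theorem Smj_sqf (S : Finset ℕ) : (∀ p ∈ S, p.Prime) → Squarefree (∏ p ∈ S, p) := by
  induction S using Finset.induction_on with
  | empty => intro _; simp
  | insert p S hp ih =>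
    intro h
    rw [prod_insert hp]
    have hpp := h p (mem_insert_self p S)
    have hS : ∀ p ∈ S, p.Prime := fun r hr => h r (mem_insert_of_mem hr)
    refine (Nat.squarefree_mul ?_).2 ⟨hpp.squarefree, ih hS⟩
    rw [Nat.Prime.coprime_iff_not_dvd hpp]
    intro h1
    obtain ⟨r, hr, hpr⟩ := (hpp.prime.dvd_finsetProd_iff _).1 h1
    have : p = r := (Nat.prime_dvd_prime_iff_eq hpp (hS r hr)).1 hpr
    exact hp (this ▸ hr)

private theorem Smj_dvd_rad (q : ℕ) (h : Squarefree q) : q ∣ ∏ p ∈ q.primeFactors, p := by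
  rw [Nat.prod_primeFactors_of_squarefree h]

private theorem Smj_rad_dvd (q z : ℕ) (h : q.primeFactors ⊆ pr z) :
    ∏ p ∈ q.primeFactors, p ∣ ∏ p ∈ pr z, p := prod_dvd_prod_of_subset _ _ _ h

/-- the mean of the model against a character -/
private theorem Smj_mean (a : ℤ) (q z : ℕ) (hq : 1 ≤ q) (ha : Int.gcd a q = 1) :
    ∑ r ∈ range (q * ∏ p ∈ pr z, p), ((LamS z r : ℝ) : ℂ) * ee ((a : ℝ) * r / q) =
      ((q * ∏ p ∈ pr z, p : ℕ) : ℂ) * (if q ∣ ∏ p ∈ pr z, p then Smj_G q else 0) := by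
  have h := Smj_sieve a q (q * ∏ p ∈ pr z, p) hq ha (dvd_mul_right _ _) (pr z)
    (fun p hp => (GBQ.mem_pr.1 hp).2)
    1 le_rfl (fun p hp h1 => (GBQ.mem_pr.1 hp).2.one_lt.ne' (Nat.dvd_one.1 h1))
    (by rw [one_mul]; exact dvd_mul_left _ _)
  have h1 : ∑ r ∈ range (q * ∏ p ∈ pr z, p), ((LamS z r : ℝ) : ℂ) * ee ((a : ℝ) * r / q) =
      (((rho z)⁻¹ : ℝ) : ℂ) * ∑ x ∈ (range (q * ∏ p ∈ pr z, p)).filter
        (fun x => 1 ∣ x ∧ ∀ p ∈ pr z, ¬ p ∣ x), ee ((a : ℝ) * x / q) := by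
    rw [sum_filter, mul_sum]
    refine sum_congr rfl fun x _ => ?_
    unfold GBQ.LamS
    by_cases hx : Rough z x
    · rw [if_pos hx, if_pos ⟨one_dvd x, hx⟩]
    · rw [if_neg hx, if_neg (fun h => hx h.2)]
      simp
  rw [h1, h]
  simp only [one_mul, Nat.cast_one, div_one]
  by_cases h2 : q ∣ ∏ p ∈ pr z, p
  · rw [if_pos h2, if_pos h2]
    have hsub := Smj_sub q z hq h2
    have hsq : Squarefree q := Squarefree.squarefree_of_dvd h2 (Smj_sqf (pr z) fun p hp => (GBQ.mem_pr.1 hp).2)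
    unfold Smj_G
    rw [if_pos (Smj_dvd_rad q hsq)]
    have h3 : ∏ p ∈ pr z, (if p ∣ q then (-(1 / (p : ℂ))) else 1 - 1 / (p : ℂ)) =
        ((rho z : ℝ) : ℂ) * ∏ p ∈ q.primeFactors, (-(1 / ((p : ℂ) - 1))) := by
      have h4 : ∏ p ∈ q.primeFactors, (-(1 / ((p : ℂ) - 1))) =
          ∏ p ∈ pr z, (if p ∣ q then (-(1 / ((p : ℂ) - 1))) else 1) := by
        rw [← prod_subset (f := fun p : ℕ => if p ∣ q then (-(1 / ((p : ℂ) - 1))) else (1 : ℂ)) hsub
          (fun p hp hpq => by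
            have h5 : ¬ p ∣ q := fun h5 => hpq (Nat.mem_primeFactors.2 ⟨(GBQ.mem_pr.1 hp).2, h5, by omega⟩)
            exact if_neg h5)]
        refine prod_congr rfl fun p hp => ?_
        rw [if_pos (Nat.dvd_of_mem_primeFactors hp)]
      rw [h4, Smj_rho, ← prod_mul_distrib]
      refine prod_congr rfl fun p hp => ?_
      split_ifs
      · rw [Smj_fac p (GBQ.mem_pr.1 hp).2]
      · rw [mul_one]
    rw [h3]
    have h5 : ((rho z : ℝ) : ℂ) ≠ 0 := by exact_mod_cast (GBQ.rho_pos z).ne'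
    push_cast
    field_simp
  · rw [if_neg h2, if_neg h2]
    ring

/-- the two main terms differ by at most `1/z` -/
private theorem Smj_diff (q z : ℕ) (hz : 2 ≤ z) :
    ‖Smj_G q - (if q ∣ ∏ p ∈ pr z, p then Smj_G q else 0)‖ ≤ 1 / (z : ℝ) := by
  split_ifs with h
  · rw [sub_self, norm_zero]
    positivity
  · rw [sub_zero]
    unfold Smj_G
    split_ifs with h2
    · have h3 : ¬ q.primeFactors ⊆ pr z := fun h3 => h (h2.trans (Smj_rad_dvd q z h3))
      obtain ⟨p, hp, hpz⟩ := not_subset.1 h3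
      have hpp := Nat.prime_of_mem_primeFactors hp
      have hlt : z + 1 ≤ p := by
        by_contra hc
        exact hpz (GBQ.mem_pr.2 ⟨by omega, hpp⟩)
      have hone : ∀ r : ℕ, r.Prime → ‖(-(1 / ((r : ℂ) - 1)))‖ = 1 / ((r : ℝ) - 1) := by
        intro r hr
        have h4 : (1 : ℝ) < r := by exact_mod_cast hr.one_lt
        rw [norm_neg, norm_div, norm_one]
        congr 1
        rw [show (r : ℂ) - 1 = (((r : ℝ) - 1 : ℝ) : ℂ) by push_cast; ring, Complex.norm_real,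
          Real.norm_eq_abs, abs_of_pos (by linarith)]
      rw [norm_prod, ← mul_prod_erase _ _ hp, hone p hpp]
      have h5 : ∏ r ∈ q.primeFactors.erase p, ‖(-(1 / ((r : ℂ) - 1)))‖ ≤ 1 := by
        refine prod_le_one (fun r _ => norm_nonneg _) fun r hr => ?_
        have hrp := Nat.prime_of_mem_primeFactors (mem_of_mem_erase hr)
        rw [hone r hrp]
        have h6 : (2 : ℝ) ≤ r := by exact_mod_cast hrp.two_le
        rw [div_le_one (by linarith)]
        linarith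
      have h7 : (z : ℝ) + 1 ≤ p := by exact_mod_cast hlt
      have h8 : (2 : ℝ) ≤ z := by exact_mod_cast hz
      calc 1 / ((p : ℝ) - 1) * ∏ r ∈ q.primeFactors.erase p, ‖(-(1 / ((r : ℂ) - 1)))‖
          ≤ 1 / ((p : ℝ) - 1) * 1 := mul_le_mul_of_nonneg_left h5 (by
            apply div_nonneg zero_le_one
            linarith)
        _ ≤ 1 / (z : ℝ) := by
            rw [mul_one]
            exact one_div_le_one_div_of_le (by linarith) (by linarith)
    · rw [norm_zero]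
      positivity

/-- the integral-like sum is at most `X` -/
private theorem Smj_I (η : ℝ → ℝ) (hη : IsWt η) (X : ℕ) (b : ℝ) :
    ‖∑ x ∈ range (X + 1), ((η ((x : ℝ) / X) : ℝ) : ℂ) * ee (b * x / X)‖ ≤ X := by
  have h0 : η 0 = 0 := by
    by_contra h
    have := (hη.supp 0 h).1
    norm_num at this
  rw [sum_range_succ']
  have h1 : ((η (((0 : ℕ) : ℝ) / X) : ℝ) : ℂ) * ee (b * ((0 : ℕ) : ℝ) / X) = 0 := by
    simp [h0]
  rw [h1, add_zero]
  calc _ ≤ ∑ _x ∈ range X, (1 : ℝ) := by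
        refine norm_sum_le_of_le _ fun x _ => ?_
        rw [norm_mul, GBQ.ee_norm, mul_one, Complex.norm_real, Real.norm_eq_abs,
          abs_of_nonneg (hη.nonneg _)]
        exact hη.le_one _
    _ = X := by simp

/-- a class of the primes that is not coprime to the modulus -/
private theorem Smj_class (η : ℝ → ℝ) (hη : IsWt η) (X q c : ℕ) (b : ℝ) (hX : 1 ≤ X)
    (hc : ¬ c.Coprime q) :
    ‖∑ x ∈ (range (X + 1)).filter (fun x => x % q = c),
      ((lam x * η ((x : ℝ) / X) : ℝ) : ℂ) * ee (b * x / X)‖ ≤ Real.log X := by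
  obtain ⟨p, hp, hpc, hpq⟩ := Nat.Prime.not_coprime_iff_dvd.1 hc
  calc _ ≤ ∑ x ∈ (range (X + 1)).filter (fun x => x % q = c), lam x := by
        refine norm_sum_le_of_le _ fun x _ => ?_
        rw [norm_mul, GBQ.ee_norm, mul_one, Complex.norm_real, Real.norm_eq_abs,
          abs_of_nonneg (mul_nonneg (GBQ.lam_nonneg x) (hη.nonneg _))]
        exact mul_le_of_le_one_right (GBQ.lam_nonneg x) (hη.le_one _)
    _ ≤ ∑ x ∈ (range (X + 1)).filter (fun x => p ∣ x), lam x := by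
        refine sum_le_sum_of_subset_of_nonneg ?_ fun x _ _ => GBQ.lam_nonneg x
        intro x hx
        rw [mem_filter] at hx ⊢
        refine ⟨hx.1, ?_⟩
        have h1 : p ∣ x % q := by rw [hx.2]; exact hpc
        exact (Nat.dvd_mod_iff hpq).1 h1
    _ ≤ _ := GBQ.major_powers X p hX hp

/-- the von Mangoldt part -/
private theorem Smj_lam (η : ℝ → ℝ) (hη : IsWt η) (X q : ℕ) (a : ℤ) (b T : ℝ) (hX : 1 ≤ X)
    (hq1 : 1 ≤ q) (ha : Int.gcd a q = 1) (hT : 0 ≤ T)
    (hA : ∀ c : ℕ, c.Coprime q →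
      ‖∑ x ∈ (range (X + 1)).filter (fun x => x % q = c % q),
        ((lam x * η ((x : ℝ) / X) : ℝ) : ℂ) * ee (b * x / X) -
        (1 / (q.totient : ℂ)) *
          ∑ x ∈ range (X + 1), ((η ((x : ℝ) / X) : ℝ) : ℂ) * ee (b * x / X)‖ ≤ T) :
    ‖∑ x ∈ range (X + 1), ((lam x * η ((x : ℝ) / X) : ℝ) : ℂ) * ee ((a / q + b / X) * x) -
      Smj_G q * ∑ x ∈ range (X + 1), ((η ((x : ℝ) / X) : ℝ) : ℂ) * ee (b * x / X)‖ ≤
      q * (T + Real.log X) := by
  have hlog : 0 ≤ Real.log X := Real.log_nonneg (by exact_mod_cast hX)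
  have hmaps : ∀ x ∈ range (X + 1), x % q ∈ range q := fun x _ =>
    mem_range.2 (Nat.mod_lt _ hq1)
  obtain ⟨I, hI⟩ : ∃ I : ℂ, I = ∑ x ∈ range (X + 1), ((η ((x : ℝ) / X) : ℝ) : ℂ) * ee (b * x / X) := ⟨_, rfl⟩
  rw [← hI] at hA ⊢
  have hφ : (q.totient : ℂ) ≠ 0 := by
    exact_mod_cast (Nat.totient_pos.2 hq1).ne'
  have hG : Smj_G q * I = ∑ c ∈ range q,
      (if c.Coprime q then ee ((a : ℝ) * c / q) * ((1 / (q.totient : ℂ)) * I) else 0) := by
    rw [← sum_filter, ← sum_mul, Smj_ram a q hq1 ha]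
    field_simp
  rw [hG, ← sum_fiberwise_of_maps_to hmaps, ← sum_sub_distrib]
  calc _ ≤ ∑ _c ∈ range q, (T + Real.log X) := by
        refine norm_sum_le_of_le _ fun c hc => ?_
        have h1 : ∑ x ∈ (range (X + 1)).filter (fun x => x % q = c),
            ((lam x * η ((x : ℝ) / X) : ℝ) : ℂ) * ee ((a / q + b / X) * x) =
            ee ((a : ℝ) * (c : ℝ) / q) * ∑ x ∈ (range (X + 1)).filter (fun x => x % q = c),
              ((lam x * η ((x : ℝ) / X) : ℝ) : ℂ) * ee (b * x / X) := by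
          rw [mul_sum]
          refine sum_congr rfl fun x hx => ?_
          rw [GBQ.major_ee a q x b X hq1, (mem_filter.1 hx).2]
          ring
        rw [h1]
        by_cases hcop : c.Coprime q
        · rw [if_pos hcop, ← mul_sub, norm_mul, GBQ.ee_norm, one_mul]
          have h2 := hA c hcop
          rw [Nat.mod_eq_of_lt (mem_range.1 hc)] at h2
          linarith
        · rw [if_neg hcop, sub_zero, norm_mul, GBQ.ee_norm, one_mul]
          have := Smj_class η hη X q c b hX hcop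
          linarith
    _ = _ := by
        rw [sum_const, card_range, nsmul_eq_mul]

private theorem Smj_rough_mod (z D x : ℕ) (hD : ∏ p ∈ pr z, p ∣ D) : LamS z x = LamS z (x % D) := by
  unfold GBQ.LamS
  have h : Rough z x ↔ Rough z (x % D) := by
    constructor
    · intro h p hp hpx
      exact h p hp ((Nat.dvd_mod_iff ((dvd_prod_of_mem _ hp).trans hD)).1 hpx)
    · intro h p hp hpx
      exact h p hp ((Nat.dvd_mod_iff ((dvd_prod_of_mem _ hp).trans hD)).2 hpx)
  by_cases hx : Rough z x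
  · rw [if_pos hx, if_pos (h.1 hx)]
  · rw [if_neg hx, if_neg (fun h' => hx (h.2 h'))]

/-- the model part -/
private theorem Smj_mod (η : ℝ → ℝ) (X q z : ℕ) (a : ℤ) (b T : ℝ)
    (hq1 : 1 ≤ q) (ha : Int.gcd a q = 1) (hT : 0 ≤ T)
    (hA : ∀ d c : ℕ, 1 ≤ d →
      ‖∑ x ∈ (range (X + 1)).filter (fun x => x % d = c % d),
        ((η ((x : ℝ) / X) : ℝ) : ℂ) * ee (b * x / X) -
        (1 / (d : ℂ)) *
          ∑ x ∈ range (X + 1), ((η ((x : ℝ) / X) : ℝ) : ℂ) * ee (b * x / X)‖ ≤ T) :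
    ‖∑ x ∈ range (X + 1), ((LamS z x * η ((x : ℝ) / X) : ℝ) : ℂ) * ee ((a / q + b / X) * x) -
      (if q ∣ ∏ p ∈ pr z, p then Smj_G q else 0) *
        ∑ x ∈ range (X + 1), ((η ((x : ℝ) / X) : ℝ) : ℂ) * ee (b * x / X)‖ ≤
      ((q * ∏ p ∈ pr z, p : ℕ) : ℝ) * (((z : ℝ) + 1) * T) := by
  obtain ⟨I, hI⟩ : ∃ I : ℂ, I = ∑ x ∈ range (X + 1), ((η ((x : ℝ) / X) : ℝ) : ℂ) * ee (b * x / X) := ⟨_, rfl⟩
  rw [← hI] at hA ⊢
  have hP : 1 ≤ ∏ p ∈ pr z, p := Nat.one_le_iff_ne_zero.2 (prod_ne_zero_iff.2 fun p hp =>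
    (GBQ.mem_pr.1 hp).2.ne_zero)
  have hmean := Smj_mean a q z hq1 ha
  have hPD : ∏ p ∈ pr z, p ∣ q * ∏ p ∈ pr z, p := dvd_mul_left _ _
  have hqD : q ∣ q * ∏ p ∈ pr z, p := dvd_mul_right _ _
  have hD1 : 1 ≤ q * ∏ p ∈ pr z, p := Nat.mul_pos hq1 hP
  obtain ⟨D, hD⟩ : ∃ D : ℕ, D = q * ∏ p ∈ pr z, p := ⟨_, rfl⟩
  rw [← hD] at hmean hPD hqD hD1 ⊢
  have hD0 : (D : ℂ) ≠ 0 := by exact_mod_cast (show D ≠ 0 by omega)
  have hmaps : ∀ x ∈ range (X + 1), x % D ∈ range D := fun x _ =>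
    mem_range.2 (Nat.mod_lt _ hD1)
  have hG : (if q ∣ ∏ p ∈ pr z, p then Smj_G q else 0) * I = ∑ r ∈ range D,
      (((LamS z r : ℝ) : ℂ) * ee ((a : ℝ) * r / q)) * ((1 / (D : ℂ)) * I) := by
    rw [← sum_mul, hmean]
    field_simp
  rw [hG, ← sum_fiberwise_of_maps_to hmaps, ← sum_sub_distrib]
  calc _ ≤ ∑ _r ∈ range D, (((z : ℝ) + 1) * T) := by
        refine norm_sum_le_of_le _ fun r hr => ?_
        have hrD := mem_range.1 hr
        have h1 : ∑ x ∈ (range (X + 1)).filter (fun x => x % D = r),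
            ((LamS z x * η ((x : ℝ) / X) : ℝ) : ℂ) * ee ((a / q + b / X) * x) =
            (((LamS z r : ℝ) : ℂ) * ee ((a : ℝ) * r / q)) * ∑ x ∈ (range (X + 1)).filter (fun x => x % D = r),
              ((η ((x : ℝ) / X) : ℝ) : ℂ) * ee (b * x / X) := by
          rw [mul_sum]
          refine sum_congr rfl fun x hx => ?_
          have hxr := (mem_filter.1 hx).2
          have h2 : ee ((a : ℝ) * ((x % q : ℕ) : ℝ) / q) = ee ((a : ℝ) * r / q) := by
            have h3 : x % q = r % q := by rw [← hxr, Nat.mod_mod_of_dvd x hqD]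
            have h4 := GBQ.major_ee a q r 0 0 hq1
            rw [h3]
            simp only [zero_div, add_zero, zero_mul, GBQ.ee_zero, mul_one] at h4
            rw [← h4]
            congr 1
            ring
          rw [GBQ.major_ee a q x b X hq1, h2, Smj_rough_mod z D x hPD, hxr]
          push_cast
          ring
        rw [h1, ← mul_sub, norm_mul, norm_mul, GBQ.ee_norm, mul_one, Complex.norm_real, Real.norm_eq_abs,
          abs_of_nonneg (GBQ.LamS_nonneg z r)]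
        have h2 := hA D r hD1
        rw [Nat.mod_eq_of_lt hrD] at h2
        exact mul_le_mul (GBQ.LamS_le z r) h2 (norm_nonneg _) (by positivity)
    _ = _ := by
        rw [sum_const, card_range, nsmul_eq_mul]

/-- see `St_Smj` -/
theorem thm_Smj : St_Smj := by
  intro η hη B₁ z hz ε hε
  obtain ⟨C, hC, hsm⟩ := GBQ.thm_SmAP η hη
  have hlog : Tendsto (fun X : ℕ => Real.log X) atTop atTop :=
    Real.tendsto_log_atTop.comp tendsto_natCast_atTop_atTop
  have hpow : ∀ (n : ℕ) (c : ℝ), 0 < c → ∀ᶠ X : ℕ in atTop, Real.log X ^ n ≤ c * X := by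
    intro n c hc
    have h := (Real.isLittleO_pow_log_id_atTop (n := n)).comp_tendsto
      tendsto_natCast_atTop_atTop
    have h' := h.bound hc
    filter_upwards [h', hlog.eventually_ge_atTop 0] with X hX hX0
    simp only [Function.comp_apply, id_eq, Real.norm_eq_abs, Nat.abs_cast] at hX
    rwa [abs_of_nonneg (by positivity)] at hX
  obtain ⟨P, hP⟩ : ∃ P : ℕ, P = ∏ p ∈ pr z, p := ⟨_, rfl⟩
  obtain ⟨K, hK⟩ : ∃ K : ℝ, K = 2 * (P : ℝ) * ((z : ℝ) + 1) * C + 1 := ⟨_, rfl⟩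
  have hK0 : 0 < K := by
    rw [hK]
    positivity
  filter_upwards [GBQ.thm_SWAP GV.swap η hη (B₁ + 1) B₁, hpow (B₁ + 1) (ε / 3) (by positivity),
    hpow (2 * B₁) (ε / 3 / K) (by positivity), hlog.eventually_ge_atTop (3 / ε),
    hlog.eventually_ge_atTop 1, eventually_ge_atTop 1] with X hs h1 h2 h3 h4 hX1
  intro q a hq1 hq ha b hb
  have hL : (0 : ℝ) < Real.log X := by linarith
  have hXpos : (0 : ℝ) < X := by exact_mod_cast hX1
  have e1 := Smj_lam η hη X q a b (X / Real.log X ^ (B₁ + 1)) hX1 hq1 ha (by positivity)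
    (fun c hc => hs q c hq1 hq hc b hb)
  have e2 := Smj_mod η X q z a b (C * (1 + |b|)) hq1 ha (by positivity)
    (fun d c hd => hsm X d c b hX1 hd)
  have e3 := Smj_diff q z hz
  have e4 := Smj_I η hη X b
  obtain ⟨I, hI⟩ : ∃ I : ℂ, I = ∑ x ∈ range (X + 1), ((η ((x : ℝ) / X) : ℝ) : ℂ) * ee (b * x / X) := ⟨_, rfl⟩
  rw [← hI] at e1 e2 e4
  have e5 : ∑ x ∈ range (X + 1), (((lam x - LamS z x) * η ((x : ℝ) / X) : ℝ) : ℂ) *
      ee ((a / q + b / X) * x) =
      (∑ x ∈ range (X + 1), ((lam x * η ((x : ℝ) / X) : ℝ) : ℂ) * ee ((a / q + b / X) * x) - Smj_G q * I) -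
      (∑ x ∈ range (X + 1), ((LamS z x * η ((x : ℝ) / X) : ℝ) : ℂ) * ee ((a / q + b / X) * x) -
        (if q ∣ ∏ p ∈ pr z, p then Smj_G q else 0) * I) +
      (Smj_G q - (if q ∣ ∏ p ∈ pr z, p then Smj_G q else 0)) * I := by
    have : ∑ x ∈ range (X + 1), (((lam x - LamS z x) * η ((x : ℝ) / X) : ℝ) : ℂ) *
        ee ((a / q + b / X) * x) =
        ∑ x ∈ range (X + 1), ((lam x * η ((x : ℝ) / X) : ℝ) : ℂ) * ee ((a / q + b / X) * x) -
        ∑ x ∈ range (X + 1), ((LamS z x * η ((x : ℝ) / X) : ℝ) : ℂ) * ee ((a / q + b / X) * x) := by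
      rw [← sum_sub_distrib]
      refine sum_congr rfl fun x _ => ?_
      push_cast
      ring
    rw [this]
    ring
  rw [e5]
  have e6 : ‖(Smj_G q - (if q ∣ ∏ p ∈ pr z, p then Smj_G q else 0)) * I‖ ≤ 1 / (z : ℝ) * X := by
    rw [norm_mul]
    exact mul_le_mul e3 e4 (norm_nonneg _) (by positivity)
  have e7 : (q : ℝ) * (X / Real.log X ^ (B₁ + 1) + Real.log X) ≤ 2 * (ε / 3) * X := by
    calc (q : ℝ) * (X / Real.log X ^ (B₁ + 1) + Real.log X)
        ≤ Real.log X ^ B₁ * (X / Real.log X ^ (B₁ + 1) + Real.log X) :=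
          mul_le_mul_of_nonneg_right hq (by positivity)
      _ = X / Real.log X + Real.log X ^ (B₁ + 1) := by
          rw [pow_succ]
          field_simp
      _ ≤ ε / 3 * X + ε / 3 * X := by
          refine add_le_add ?_ h1
          rw [div_le_iff₀ hL]
          have h5 : 1 ≤ ε / 3 * Real.log X := by
            have h6 : ε / 3 * (3 / ε) ≤ ε / 3 * Real.log X := mul_le_mul_of_nonneg_left h3 (by positivity)
            have h7 : ε / 3 * (3 / ε) = 1 := by field_simp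
            linarith
          nlinarith
      _ = _ := by ring
  have e8 : ((q * ∏ p ∈ pr z, p : ℕ) : ℝ) * (((z : ℝ) + 1) * (C * (1 + |b|))) ≤ ε / 3 * X := by
    rw [← hP]
    push_cast
    have hLB : 1 ≤ Real.log X ^ B₁ := one_le_pow₀ h4
    calc (q : ℝ) * P * (((z : ℝ) + 1) * (C * (1 + |b|)))
        ≤ Real.log X ^ B₁ * P * (((z : ℝ) + 1) * (C * (2 * Real.log X ^ B₁))) := by
          gcongr
          linarith
      _ = (2 * (P : ℝ) * ((z : ℝ) + 1) * C) * Real.log X ^ (2 * B₁) := by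
          rw [two_mul B₁, pow_add]
          ring
      _ ≤ K * Real.log X ^ (2 * B₁) := by
          refine mul_le_mul_of_nonneg_right ?_ (by positivity)
          rw [hK]
          linarith
      _ ≤ K * (ε / 3 / K * X) := mul_le_mul_of_nonneg_left h2 hK0.le
      _ = ε / 3 * X := by
          field_simp
  refine (norm_add_le _ _).trans ?_
  refine (add_le_add ((norm_sub_le _ _).trans (add_le_add e1 e2)) e6).trans ?_
  refine (add_le_add (add_le_add e7 e8) le_rfl).trans (le_of_eq ?_)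
  ring

end Pool.Agent.PCW
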